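import Pool.Agent.NH1.Sub

/-!
# Project NH1: the factorization of the sums, from the analytic part
-/

set_option autoImplicit false

namespace Pool.Agent.NH1

open Finset Matrix
open Pool.Agent.Z700 (V3 vec pr Ln n0 ep)

namespace A2x

theorem neg_mem_vec {N : ℤ} {v : V3} (h : v ∈ vec N) : -v ∈ vec N := by
  unfold Pool.Agent.Z700.vec at *
  rw [Finset.mem_filter] at *
  obtain ⟨h1, h2⟩ := h
  rw [Fintype.mem_piFinset] at *
  refine ⟨?_, ?_⟩
  · intro a
    have := Finset.mem_Icc.1 (h1 a)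
    rw [Finset.mem_Icc]
    simp only [Pi.neg_apply]
    omega
  · rw [neg_dotProduct_neg, h2]

theorem Ln_neg (g : ZMod 7) (v : V3) : Ln n0 (-g) v ↔ Ln n0 g (-v) := by
  unfold Ln
  simp only [Pi.neg_apply, Int.cast_neg]
  constructor
  · rintro ⟨h1, h2, h3⟩
    exact ⟨by linear_combination -h1, by linear_combination -h2, by linear_combination -h3⟩
  · rintro ⟨h1, h2, h3⟩
    exact ⟨by linear_combination -h1, by linear_combination -h2, by linear_combination -h3⟩

theorem Ln_norm (g : ZMod 7) (v : V3) (h : Ln n0 g v) : ((v ⬝ᵥ v : ℤ) : ZMod 7) = -g ^ 2 := by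
  obtain ⟨h1, h2, h3⟩ := h
  simp only [n0, Matrix.cons_val_zero, Matrix.cons_val_one, Matrix.cons_val] at h1 h2 h3
  have e7 : (7 : ZMod 7) = 0 := by decide
  have hv : ((v ⬝ᵥ v : ℤ) : ZMod 7) = (v 0 : ZMod 7) ^ 2 + (v 1 : ZMod 7) ^ 2 + (v 2 : ZMod 7) ^ 2 := by
    simp only [dotProduct, Fin.sum_univ_three]
    push_cast
    ring
  have k1 : (v 1 : ZMod 7) = 2 * v 0 - 3 * g := by linear_combination -h3
  have k2 : (v 2 : ZMod 7) = 3 * v 0 + 2 * g := by linear_combination h2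
  rw [hv, k1, k2]
  linear_combination (2 * (v 0 : ZMod 7) ^ 2 + 2 * g ^ 2) * e7

theorem ep0_neg (v : V3) : ep0 (-v) = -ep0 v := by
  unfold ep0 ep
  simp only [Pi.neg_apply]
  have h0 : (-v 0) % 2 = 1 ↔ v 0 % 2 = 1 := by omega
  have h1 : (-v 1) % 2 = 1 ↔ v 1 % 2 = 1 := by omega
  have h2 : (-v 2) % 2 = 1 ↔ v 2 % 2 = 1 := by omega
  simp only [h0, h1, h2]
  by_cases h : v 0 % 2 = 1 ∧ v 1 % 2 = 1 ∧ v 2 % 2 = 1
  · rw [if_pos h, if_pos h]
    have hm : (v 0 * v 1 * v 2) % 2 = 1 := by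
      obtain ⟨a, b, c⟩ := h
      rw [Int.mul_emod, Int.mul_emod (v 0), a, b, c]
      rfl
    have e : -v 0 * -v 1 * -v 2 = -(v 0 * v 1 * v 2) := by ring
    have hd : (-v 0 * -v 1 * -v 2) % 4 = 1 ↔ ¬ (v 0 * v 1 * v 2) % 4 = 1 := by
      rw [e]
      omega
    simp only [hd]
    split_ifs <;> omega
  · rw [if_neg h, if_neg h]
    rfl

theorem f0_neg (x : ℤ) : f0 (-x) = f0 x := by
  unfold f0
  have : (-x) % 2 = 1 ↔ x % 2 = 1 := by omega
  simp only [this]

theorem f1_neg (x : ℤ) : f1 (-x) = f1 x := by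
  unfold f1
  have : (-x) % 4 = 2 ↔ x % 4 = 2 := by omega
  simp only [this]

theorem f2_neg (x : ℤ) : f2 (-x) = f2 x := by
  unfold f2
  have : (-x) % 4 = 0 ↔ x % 4 = 0 := by omega
  simp only [this]

theorem xi_neg (v : V3) : xi (-v) = xi v := by
  unfold xi
  simp only [Pi.neg_apply, f0_neg, f1_neg, f2_neg]

/-- the sign of `om` -/
def so (r : ℕ) : ℤ := if r = 3 then -1 else 1

theorem om_neg (r : ℕ) (v : V3) : om r (-v) = so r * om r v := by
  unfold om so
  split_ifs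
  · rw [ep0_neg]; ring
  · rw [xi_neg]; ring

theorem rd_neg (p : ℕ) (v : V3) : rd p (-v) = -rd p v := by
  ext i
  simp [rd]

theorem lz_neg_one {p : ℕ} (hp : p.Prime) : lz p (-1) = jacobiSym (-1) p := by
  unfold lz
  have : Fact p.Prime := ⟨hp⟩
  refine jacobiSym.mod_left' ?_
  have h : (((-1 : ZMod p).val : ℤ) : ZMod p) = ((-1 : ℤ) : ZMod p) := by
    push_cast
    rw [ZMod.natCast_zmod_val]
  exact (ZMod.intCast_eq_intCast_iff' _ _ _).1 h

theorem prod_neg_one {P : Finset ℕ} (hP : Pm P) :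
    ∏ p ∈ P, jacobiSym (-1) p = jacobiSym (-1) (pr P) := by
  classical
  induction P using Finset.induction_on with
  | empty => simp [pr]
  | insert a s ha ih =>
    have hs : Pm s := fun p hp => hP p (Finset.mem_insert_of_mem hp)
    have ha' := hP a (Finset.mem_insert_self _ _)
    have e1 : pr (insert a s) = a * pr s := by
      unfold pr
      exact Finset.prod_insert ha
    rw [Finset.prod_insert ha, ih hs, e1]
    have : NeZero a := ⟨ha'.1.ne_zero⟩
    have : NeZero (pr s) := ⟨by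
      unfold pr
      exact Finset.prod_ne_zero_iff.2 fun p hp => (hs p hp).1.ne_zero⟩
    rw [jacobiSym.mul_right]

/-- the sign of `Ph` -/
def sp (P : Finset ℕ) : ℤ := jacobiSym (-1) (pr P)

theorem Ph_neg (h0 : S_PHI) (h0' : S_PROT) {P : Finset ℕ} (hP : Pm P) (v : V3) :
    Ph P (-v) = sp P * Ph P v := by
  unfold Ph sp
  rw [← prod_neg_one hP, ← Finset.prod_mul_distrib]
  refine Finset.prod_congr rfl fun p hp => ?_
  obtain ⟨hp1, hp2, -⟩ := hP p hp
  rw [rd_neg, (h0' p hp1 hp2 (ph p) (ph_spec h0 hp1 hp2) (rd p v)).2.2.2.1, lz_neg_one hp1]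

theorem Y_neg (h0 : S_PHI) (h0' : S_PROT) {P : Finset ℕ} (hP : Pm P) (r : ℕ) (N : ℤ) (g : ZMod 7) :
    Y r P N (-g) = so r * sp P * Y r P N g := by
  unfold Y
  rw [Finset.mul_sum]
  refine Finset.sum_nbij' (fun v => -v) (fun v => -v) ?_ ?_ ?_ ?_ ?_
  · intro v hv
    rw [Finset.mem_coe.symm] at *
    have hv := Finset.mem_filter.1 hv
    exact Finset.mem_filter.2 ⟨neg_mem_vec hv.1, (Ln_neg g v).1 hv.2⟩
  · intro v hv
    rw [Finset.mem_coe.symm] at *
    have hv := Finset.mem_filter.1 hv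
    refine Finset.mem_filter.2 ⟨neg_mem_vec hv.1, (Ln_neg g (-v)).2 ?_⟩
    rw [neg_neg]
    exact hv.2
  · intro v _
    exact neg_neg v
  · intro v _
    exact neg_neg v
  · intro v _
    rw [om_neg, Ph_neg h0 h0' hP]
    have e1 : so r * so r = 1 := by unfold so; split_ifs <;> norm_num
    have e2 : sp P * sp P = 1 := by
      unfold sp
      rw [← pow_two]
      exact jacobiSym.sq_one (by simp)
    have : so r * sp P * (so r * om r v * (sp P * Ph P v)) =
      (so r * so r) * (sp P * sp P) * (om r v * Ph P v) := by ring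
    rw [this, e1, e2]
    ring

theorem Y_support {P : Finset ℕ} {r : ℕ} {N : ℤ} {g : ZMod 7} (h : Y r P N g ≠ 0) :
    (N : ZMod 7) = -g ^ 2 := by
  unfold Y at h
  obtain ⟨v, hv, -⟩ := Finset.exists_ne_zero_of_sum_ne_zero h
  have hv := Finset.mem_filter.1 hv
  have h1 : v ⬝ᵥ v = N := (Finset.mem_filter.1 hv.1).2
  have h2 := Ln_norm g v hv.2
  rwa [h1] at h2

theorem Y_empty (r : ℕ) (N : ℤ) (g : ZMod 7) :
    Y r ∅ N g = ∑ v ∈ (vec N).filter fun v => Ln n0 g v, om r v := by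
  unfold Y Ph
  refine Finset.sum_congr rfl fun v _ => ?_
  rw [Finset.prod_empty, mul_one]

theorem G32 : G 3 2 = 1 ∨ G 3 2 = -1 := by
  unfold G
  rw [Y_empty]
  decide +kernel

theorem G53 : G 5 3 = -3 := by
  unfold G
  rw [Y_empty]
  decide +kernel

theorem pr_empty : pr ∅ = 1 := by
  unfold pr
  exact Finset.prod_empty

theorem Pm_empty : Pm ∅ := fun p hp => absurd hp (Finset.notMem_empty p)

theorem cY_neg (h0 : S_PHI) (h0' : S_PROT) {P : Finset ℕ} (hP : Pm P) (r : ℕ) (s : ZMod 7)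
    (n : ℕ) (β : ZMod 7) : cY r P s n (-β) = so r * sp P * cY r P s n β := by
  unfold cY
  split_ifs
  · rw [mul_neg, Y_neg h0 h0' hP]
  · rw [mul_zero]

theorem cY_one (r n : ℕ) (β : ZMod 7) (h : n % 8 = r) : cY r ∅ 1 n β = G n β := by
  unfold cY G
  rw [pr_empty, one_mul, one_mul, if_pos h, h]

theorem cY_supp {P : Finset ℕ} {r : ℕ} {s : ZMod 7} (h7 : (pr P : ZMod 7) ≠ 0)
    (hs : s ^ 2 = (pr P : ZMod 7)) {n : ℕ} {β : ZMod 7} (h : cY r P s n β ≠ 0) :
    (pr P * n) % 8 = r ∧ (n : ZMod 7) = -β ^ 2 := by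
  unfold cY at h
  split_ifs at h with h1
  · refine ⟨h1, ?_⟩
    have h2 := Y_support h
    push_cast at h2
    rw [mul_pow, hs] at h2
    have : Fact (Nat.Prime 7) := ⟨by norm_num⟩
    exact mul_left_cancel₀ h7 (by linear_combination h2)
  · exact absurd rfl h

end A2x

open A2x in
theorem t_A2 (h0 : S_PHI) (h0' : S_PROT) (h1 : S_TRANS) (h2 : S_UO) (h3 : S_UE) (h4 : S_C3) :
    S_A2 := by
  intro r P s hr hP hK hs
  by_cases hPe : P = ∅
  · subst hPe
    rw [pr_empty] at hs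
    have hs2 : s = 1 ∨ s = -1 := by
      revert hs
      revert s
      decide
    have hG : ∀ n β, (pr ∅ * n) % 8 = r → Y r ∅ ((pr ∅ * n : ℕ) : ℤ) β = G n β := by
      intro n β hn
      rw [pr_empty, one_mul] at *
      unfold G
      rw [hn]
    rcases hs2 with rfl | rfl
    · refine ⟨1, fun n β _ hn => ?_⟩
      rw [one_mul, one_mul, hG n β hn]
    · refine ⟨so r * sp ∅, fun n β _ hn => ?_⟩
      rw [neg_one_mul, Y_neg h0 h0' Pm_empty, hG n β hn]
  have hP0 : P.Nonempty := Finset.nonempty_iff_ne_empty.2 hPe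
  have hP3 : P ≠ {3} := by
    rintro rfl
    have e : pr {3} = 3 := by unfold pr; exact Finset.prod_singleton _ _
    rw [e] at hK
    revert hK
    decide
  have h7 : (pr P : ZMod 7) ≠ 0 := by
    rw [Ne, ZMod.natCast_eq_zero_iff]
    rcases hK with h | h
    · have := h.2
      rw [if_pos (Or.inl rfl)] at this
      omega
    · have := h.2
      rw [if_pos (Or.inr rfl)] at this
      omega
  have hK8 : pr P % 8 = 1 ∨ pr P % 8 = 7 := by
    rcases hK with h | h
    · exact Or.inl h.1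
    · exact Or.inr h.1
  have hodd : Odd (pr P) := by
    rw [Nat.odd_iff]
    omega
  -- the dual index
  obtain ⟨r', hr', hrr⟩ : ∃ r' : ℕ, (r' = 3 ∨ r' = 5) ∧
      ∀ n : ℕ, (pr P * n) % 8 = r ↔ n % 8 = r' := by
    rcases hK8 with h | h
    · refine ⟨r, hr, fun n => ?_⟩
      rw [Nat.mul_mod, h]
      omega
    · refine ⟨8 - r, by omega, fun n => ?_⟩
      rw [Nat.mul_mod, h]
      omega
  have hK1 : K 1 (pr ∅) ∨ K 7 (pr ∅) := by
    rw [pr_empty]
    decide
  have v1 : VV (cY r P s) := h1 r P s hr hP hK hs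
  have v2 : VV (cY r' ∅ 1) := h1 r' ∅ 1 hr' Pm_empty hK1 (by rw [pr_empty]; decide)
  have s1 : ∀ n β, cY r P s n β ≠ 0 → n % 8 = r' ∧ (n : ZMod 7) = -β ^ 2 := by
    intro n β h
    obtain ⟨a, b⟩ := cY_supp h7 hs h
    exact ⟨(hrr n).1 a, b⟩
  have s2 : ∀ n β, cY r' ∅ 1 n β ≠ 0 → n % 8 = r' ∧ (n : ZMod 7) = -β ^ 2 := by
    intro n β h
    obtain ⟨a, b⟩ := cY_supp (by rw [pr_empty]; decide) (by rw [pr_empty]; decide) h
    rw [pr_empty, one_mul] at a
    exact ⟨a, b⟩
  have p1 := cY_neg h0 h0' hP r s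
  have p2 := cY_neg h0 h0' Pm_empty r' 1
  have e0 : sp ∅ = 1 := by unfold sp; rw [pr_empty]; exact jacobiSym.one_right _
  -- the sign
  have e1 : so r * sp P = so r' := by
    have e2 : sp P = ZMod.χ₄ (pr P) := by
      unfold sp
      exact jacobiSym.at_neg_one hodd
    have h5 := hrr 5
    have h3' := hrr 3
    rcases hK8 with h | h
    · have e3 : sp P = 1 := by
        rw [e2]
        exact ZMod.χ₄_nat_one_mod_four (by omega)
      have e4 : r' = r := by
        rcases hr with rfl | rfl <;> rcases hr' with rfl | rfl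
        · rfl
        · rw [Nat.mul_mod, h] at h3'; simp at h3'
        · rw [Nat.mul_mod, h] at h3'; simp at h3'
        · rfl
      rw [e3, e4, mul_one]
    · have e3 : sp P = -1 := by
        rw [e2]
        exact ZMod.χ₄_nat_three_mod_four (by omega)
      rw [e3]
      rcases hr with rfl | rfl <;> rcases hr' with rfl | rfl
      · rw [Nat.mul_mod, h] at h3'; simp at h3'
      · unfold so; norm_num
      · unfold so; norm_num
      · rw [Nat.mul_mod, h] at h5; simp at h5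
  rw [e1] at p1
  rw [e0, mul_one] at p2
  have fin : ∀ c : ℤ, (∀ n β, cY r P s n β = c * cY r' ∅ 1 n β) → ∀ (n : ℕ) (β : ZMod 7), 0 < n →
      (pr P * n) % 8 = r → Y r P ((pr P * n : ℕ) : ℤ) (s * β) = c * G n β := by
    intro c hc n β _ hn
    have := hc n β
    rw [cY_one r' n β ((hrr n).1 hn)] at this
    rw [← this]
    unfold cY
    rw [if_pos hn]
  rcases hr' with rfl | rfl
  · have so3 : so 3 = -1 := by unfold so; norm_num
    have key := h2 _ _ v1 v2 s1 s2 (fun n β => by rw [p1, so3, neg_one_mul])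
      (fun n β => by rw [p2, so3, neg_one_mul])
    have g : cY 3 ∅ 1 3 2 = G 3 2 := cY_one 3 3 2 (by norm_num)
    refine ⟨G 3 2 * cY r P s 3 2, fin _ fun n β => ?_⟩
    have k := key n β
    rw [g] at k
    have gg : G 3 2 * G 3 2 = 1 := by
      rcases G32 with h | h <;> rw [h] <;> norm_num
    calc cY r P s n β = (cY r P s n β * G 3 2) * G 3 2 := by rw [mul_assoc, gg, mul_one]
      _ = _ := by rw [k]; ring
  · have so5 : so 5 = 1 := by unfold so; norm_num
    have key := h3 _ _ v1 v2 s1 s2 (fun n β => by rw [p1, so5, one_mul])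
      (fun n β => by rw [p2, so5, one_mul])
    have g : cY 5 ∅ 1 5 3 = G 5 3 := cY_one 5 5 3 (by norm_num)
    have d3 : (3 : ℤ) ∣ cY r P s 5 3 := by
      unfold cY
      split_ifs
      · exact h4 r P hr hP hP0 hP3 (pr P * 5) (Dvd.intro _ rfl) _
      · exact dvd_zero _
    obtain ⟨k, hk⟩ := d3
    refine ⟨-k, fin _ fun n β => ?_⟩
    have k1 := key n β
    rw [g, G53, hk] at k1
    linarith

end Pool.Agent.NH1
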