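import Pool.Agent.NH1.Phi

/-!
# Project NH1: four numerical cases (`S_BASE`)
-/

set_option autoImplicit false

namespace Pool.Agent.NH1

open Finset Matrix
open Pool.Agent.Z700 (V3 vec pr Ln n0 ep X2)

namespace BaseAux

open PhiAux

/-! ### explicit functions -/

/-- the Legendre symbol by a table of the squares -/
def tbl (L : List ℤ) (p c : ℤ) : ℤ := if c % p = 0 then 0 else if c % p ∈ L then 1 else -1

/-- the character relative to the reference vector `(w0, w1, w2)` -/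
def eE (L : List ℤ) (p w0 w1 w2 : ℤ) (i : Fin 3) (a b c : ℤ) : ℤ :=
  if (a * w0 + b * w1 + c * w2) % p = 0 then tbl L p (if i = 0 then a else if i = 1 then b else c)
  else tbl L p (2 * (a * w0 + b * w1 + c * w2))

/-- the line -/
def LnI (β a b c : ℤ) : Bool :=
  (b * 3 - c * 2 - β * 1) % 7 == 0 && (c * 1 - a * 3 - β * 2) % 7 == 0 &&
    (a * 2 - b * 1 - β * 3) % 7 == 0

/-- the function at two, norms `3 mod 8` -/
def ep0I (a b c : ℤ) : ℤ :=
  if a % 2 = 1 ∧ b % 2 = 1 ∧ c % 2 = 1 then (if (a * b * c) % 4 = 1 then 1 else -1) else 0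

/-- the function at two, norms `5 mod 8` -/
def xiI (a b c : ℤ) : ℤ :=
  (if a % 2 = 1 then 1 else 0) * (if b % 4 = 2 then 1 else 0) * (if c % 4 = 0 then 1 else 0) +
  (if b % 2 = 1 then 1 else 0) * (if c % 4 = 2 then 1 else 0) * (if a % 4 = 0 then 1 else 0) +
  (if c % 2 = 1 then 1 else 0) * (if a % 4 = 2 then 1 else 0) * (if b % 4 = 0 then 1 else 0) -
  (if b % 2 = 1 then 1 else 0) * (if a % 4 = 2 then 1 else 0) * (if c % 4 = 0 then 1 else 0) -
  (if a % 2 = 1 then 1 else 0) * (if c % 4 = 2 then 1 else 0) * (if b % 4 = 0 then 1 else 0) -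
  (if c % 2 = 1 then 1 else 0) * (if b % 4 = 2 then 1 else 0) * (if a % 4 = 0 then 1 else 0)

/-- symmetric sums -/
def sumZ (m : ℕ) (f : ℤ → ℤ) : ℤ := Nat.rec (f 0) (fun k acc => acc + (f (k+1) + f (-(k+1)))) m

/-- the sum over the vectors of norm `N` with coordinates at most `m` -/
def SS (m : ℕ) (N : ℤ) (g : ℤ → ℤ → ℤ → ℤ) : ℤ :=
  sumZ m fun a => sumZ m fun b => sumZ m fun c => if a * a + b * b + c * c = N then g a b c else 0

/-! ### the sums -/

theorem sumZ_eq (m : ℕ) (f : ℤ → ℤ) : sumZ m f = ∑ a ∈ Icc (-(m : ℤ)) m, f a := by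
  induction m with
  | zero => simp [sumZ]
  | succ k ih =>
    have h1 : sumZ (k + 1) f = sumZ k f + (f (k + 1) + f (-(k + 1))) := rfl
    rw [h1, ih]
    have h2 : Icc (-((k + 1 : ℕ) : ℤ)) ((k + 1 : ℕ) : ℤ) =
        insert (-((k : ℤ) + 1)) (insert ((k : ℤ) + 1) (Icc (-(k : ℤ)) k)) := by
      ext x
      simp only [mem_insert, mem_Icc]
      push_cast
      omega
    rw [h2, sum_insert, sum_insert]
    · ring
    · simp only [mem_Icc]; omega
    · simp only [mem_insert, mem_Icc]; omega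

theorem sum_vec (m : ℕ) (N : ℤ) (h1 : N < ((m : ℤ) + 1) ^ 2) (h2 : (m : ℤ) ≤ N) (G : V3 → ℤ) :
    ∑ v ∈ vec N, G v = SS m N fun a b c => G ![a, b, c] := by
  classical
  unfold SS
  simp only [sumZ_eq]
  have h3 : ∀ a b : ℤ, ∑ c ∈ Icc (-(m : ℤ)) m, (if a * a + b * b + c * c = N then G ![a, b, c] else 0) =
      ∑ c ∈ (Icc (-(m : ℤ)) m).filter (fun c => a * a + b * b + c * c = N), G ![a, b, c] := by
    intro a b
    rw [sum_filter]
  have hb : ∀ x : ℤ, x * x ≤ N → -(m : ℤ) ≤ x ∧ x ≤ m := by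
    intro x hx
    have : x ^ 2 < ((m : ℤ) + 1) ^ 2 := by nlinarith
    have := abs_lt_of_sq_lt_sq this (by positivity)
    rw [abs_lt] at this
    omega
  rw [← sum_product', ← sum_product', ← sum_filter]
  refine sum_bij' (fun v _ => (((v 0, v 1), v 2) : (ℤ × ℤ) × ℤ)) (fun q _ => ![q.1.1, q.1.2, q.2])
    ?_ ?_ ?_ ?_ ?_
  · intro v hv
    obtain ⟨_, hv2⟩ := mem_filter.1 hv
    rw [dot3] at hv2
    simp only [mem_filter, mem_product, mem_Icc]
    refine ⟨⟨⟨hb _ ?_, hb _ ?_⟩, hb _ ?_⟩, hv2⟩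
    · nlinarith [mul_self_nonneg (v 1), mul_self_nonneg (v 2)]
    · nlinarith [mul_self_nonneg (v 0), mul_self_nonneg (v 2)]
    · nlinarith [mul_self_nonneg (v 1), mul_self_nonneg (v 0)]
  · rintro ⟨⟨a, b⟩, c⟩ hq
    simp only [mem_filter, mem_product, mem_Icc] at hq
    obtain ⟨⟨⟨ha, hb'⟩, hc⟩, hN⟩ := hq
    refine mem_filter.2 ⟨?_, ?_⟩
    · rw [Fintype.mem_piFinset]
      intro i
      fin_cases i
      · show a ∈ Icc (-N) N
        rw [mem_Icc]; omega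
      · show b ∈ Icc (-N) N
        rw [mem_Icc]; omega
      · show c ∈ Icc (-N) N
        rw [mem_Icc]; omega
    · rw [dot3]
      exact hN
  · intro v _
    exact ext3 rfl rfl rfl
  · rintro ⟨⟨a, b⟩, c⟩ _
    rfl
  · intro v _
    congr 1
    exact ext3 rfl rfl rfl

theorem SS_congr (m : ℕ) (N : ℤ) {g g' : ℤ → ℤ → ℤ → ℤ}
    (h : ∀ a b c, a * a + b * b + c * c = N → g a b c = g' a b c) : SS m N g = SS m N g' := by
  unfold SS
  congr 1
  funext a
  congr 1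
  funext b
  congr 1
  funext c
  split_ifs with hN
  · exact h a b c hN
  · rfl

theorem SS_mul (m : ℕ) (N k : ℤ) (g : ℤ → ℤ → ℤ → ℤ) :
    SS m N (fun a b c => k * g a b c) = k * SS m N g := by
  unfold SS
  simp only [sumZ_eq, mul_sum]
  refine sum_congr rfl fun a _ => sum_congr rfl fun b _ => sum_congr rfl fun c _ => ?_
  split_ifs
  · rfl
  · rw [mul_zero]

/-! ### the characters -/

theorem ph_formula {p : ℕ} [Fact p.Prime] {f : (Fin 3 → ZMod p) → ℤ} (hf : IsPhi p f)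
    (w v : Fin 3 → ZMod p) (hw : w ⬝ᵥ w = 0) (i : Fin 3) (hi : w i = 1) (hv : v ⬝ᵥ v = 0) :
    f v = f w * (if v ⬝ᵥ w = 0 then lz p (v i) else lz p (2 * (v ⬝ᵥ w))) := by
  have hw0 : w ≠ 0 := by
    intro h
    rw [h] at hi
    exact zero_ne_one hi
  split_ifs with h
  · obtain ⟨c, hc⟩ := prop hw0 hw hv (by rw [dotProduct_comm]; exact h)
    have hci : v i = c := by
      rw [hc, Pi.smul_apply, hi, smul_eq_mul, mul_one]
    rw [hci]
    by_cases hc0 : c = 0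
    · rw [hc0, zero_smul] at hc
      rw [hc, hc0, hf.zero 0 (Or.inr rfl), lz_eq]
      simp
    · conv_lhs => rw [hc]
      rw [hf.smul c w hc0, mul_comm]
  · have h1 := hf.mul v w hv hw h
    rw [← h1]
    rcases hf.pm w hw hw0 with h2 | h2 <;> rw [h2] <;> ring

theorem rd_dot (p : ℕ) (v w : V3) : rd p v ⬝ᵥ rd p w = ((v ⬝ᵥ w : ℤ) : ZMod p) := by
  rw [dot3, dot3]
  unfold rd
  push_cast
  rfl

theorem ph_int {p : ℕ} [Fact p.Prime] {f : (Fin 3 → ZMod p) → ℤ} (hf : IsPhi p f) (L : List ℤ)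
    (hL : ∀ c : ℤ, lz p (c : ZMod p) = tbl L p c) (w0 w1 w2 : ℤ)
    (hw : (p : ℤ) ∣ w0 * w0 + w1 * w1 + w2 * w2) (i : Fin 3)
    (hi : (![w0, w1, w2] : V3) i = 1) (a b c : ℤ) (hv : (p : ℤ) ∣ a * a + b * b + c * c) :
    f (rd p ![a, b, c]) = f (rd p ![w0, w1, w2]) * eE L p w0 w1 w2 i a b c := by
  have h1 := ph_formula hf (rd p ![w0, w1, w2]) (rd p ![a, b, c])
    (by
      rw [rd_dot, dot3, ZMod.intCast_zmod_eq_zero_iff_dvd]
      exact hw) i
    (by
      show (((![w0, w1, w2] : V3) i : ℤ) : ZMod p) = 1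
      rw [hi, Int.cast_one])
    (by
      rw [rd_dot, dot3, ZMod.intCast_zmod_eq_zero_iff_dvd]
      exact hv)
  rw [h1]
  congr 1
  have e1 : rd p ![a, b, c] ⬝ᵥ rd p ![w0, w1, w2] = ((a * w0 + b * w1 + c * w2 : ℤ) : ZMod p) := by
    rw [rd_dot, dot3]
    rfl
  have e2 : 2 * (rd p ![a, b, c] ⬝ᵥ rd p ![w0, w1, w2]) =
      ((2 * (a * w0 + b * w1 + c * w2) : ℤ) : ZMod p) := by
    rw [e1]; push_cast; ring
  have e3 : rd p ![a, b, c] i = ((if i = 0 then a else if i = 1 then b else c : ℤ) : ZMod p) := by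
    unfold rd
    fin_cases i <;> rfl
  rw [e2, e3, hL, hL, e1]
  unfold eE
  by_cases h : (p : ℤ) ∣ a * w0 + b * w1 + c * w2
  · rw [if_pos ((ZMod.intCast_zmod_eq_zero_iff_dvd _ _).2 h), if_pos (Int.emod_eq_zero_of_dvd h)]
  · rw [if_neg (fun h' => h ((ZMod.intCast_zmod_eq_zero_iff_dvd _ _).1 h')),
      if_neg (fun h' => h (Int.dvd_of_emod_eq_zero h'))]

theorem lz_int {p : ℕ} [Fact p.Prime] (L : List ℤ)
    (h : ∀ x : ZMod p, quadraticChar (ZMod p) x = tbl L p (x.val : ℤ)) (c : ℤ) :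
    lz p (c : ZMod p) = tbl L p c := by
  rw [lz_eq, h, ZMod.val_intCast]
  unfold tbl
  rw [Int.emod_emod_of_dvd _ (dvd_refl _)]

theorem pm_w {p : ℕ} [Fact p.Prime] {f : (Fin 3 → ZMod p) → ℤ} (hf : IsPhi p f) (w0 w1 w2 : ℤ)
    (hw : (p : ℤ) ∣ w0 * w0 + w1 * w1 + w2 * w2) (i : Fin 3)
    (hi : (![w0, w1, w2] : V3) i = 1) :
    f (rd p ![w0, w1, w2]) = 1 ∨ f (rd p ![w0, w1, w2]) = -1 := by
  refine hf.pm _ ?_ ?_
  · rw [rd_dot, dot3, ZMod.intCast_zmod_eq_zero_iff_dvd]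
    exact hw
  · intro h
    have h1 := congrFun h i
    have h2 : (((![w0, w1, w2] : V3) i : ℤ) : ZMod p) = 0 := h1
    rw [hi, Int.cast_one] at h2
    exact one_ne_zero h2

theorem ln_int (β : ℤ) (a b c : ℤ) : Ln n0 (β : ZMod 7) ![a, b, c] ↔ LnI β a b c = true := by
  have h : ∀ x y : ℤ, (x : ZMod 7) = (y : ZMod 7) ↔ (x - y) % 7 = 0 := by
    intro x y
    rw [← sub_eq_zero, ← Int.cast_sub, ZMod.intCast_zmod_eq_zero_iff_dvd]
    exact ⟨Int.emod_eq_zero_of_dvd, Int.dvd_of_emod_eq_zero⟩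
  have e0 : (n0 0 : ZMod 7) = ((1 : ℤ) : ZMod 7) := by simp [n0]
  have e1 : (n0 1 : ZMod 7) = ((2 : ℤ) : ZMod 7) := by simp [n0]
  have e2 : (n0 2 : ZMod 7) = ((3 : ℤ) : ZMod 7) := by simp [n0]
  have c0 : (![a, b, c] : V3) 0 = a := rfl
  have c1 : (![a, b, c] : V3) 1 = b := rfl
  have c2 : (![a, b, c] : V3) 2 = c := rfl
  unfold Ln LnI
  rw [e0, e1, e2, c0, c1, c2]
  simp only [← Int.cast_mul, ← Int.cast_sub, h, Bool.and_eq_true, beq_iff_eq, and_assoc]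

/-- the function at two -/
def omI (r : ℕ) (a b c : ℤ) : ℤ := if r = 3 then ep0I a b c else xiI a b c

theorem om_int (r : ℕ) (a b c : ℤ) : om r ![a, b, c] = omI r a b c := rfl

theorem Y_gen (r m : ℕ) (P : Finset ℕ) (N : ℤ) (h1 : N < ((m : ℤ) + 1) ^ 2) (h2 : (m : ℤ) ≤ N)
    (ε : ℤ) (g : ℤ → ℤ → ℤ → ℤ)
    (h : ∀ a b c : ℤ, a * a + b * b + c * c = N → Ph P ![a, b, c] = ε * g a b c) (β : ℤ) :
    Y r P N (β : ZMod 7) = ε * SS m N (fun a b c => if LnI β a b c = true then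
      omI r a b c * g a b c else 0) := by
  unfold Y
  rw [sum_filter, sum_vec m N h1 h2, ← SS_mul]
  refine SS_congr m N fun a b c hN => ?_
  by_cases hl : LnI β a b c = true
  · rw [if_pos ((ln_int β a b c).2 hl), if_pos hl, om_int, h a b c hN]
    ring
  · rw [if_neg (fun h' => hl ((ln_int β a b c).1 h')), if_neg hl, mul_zero]

theorem G_eq (n m : ℕ) (h1 : (n : ℤ) < ((m : ℤ) + 1) ^ 2) (h2 : (m : ℤ) ≤ n) (β : ℤ) :
    G n (β : ZMod 7) = SS m n (fun a b c => if LnI β a b c = true then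
      omI (n % 8) a b c * 1 else 0) := by
  unfold G
  rw [Y_gen (n % 8) m ∅ n h1 h2 1 (fun _ _ _ => 1) (fun a b c _ => rfl), one_mul]

/-- the data of a prime -/
structure Dt (p : ℕ) where
  L : List ℤ
  w0 : ℤ
  w1 : ℤ
  w2 : ℤ
  i : Fin 3

/-- the data are correct -/
structure Dt.Ok {p : ℕ} [Fact p.Prime] (D : Dt p) : Prop where
  two : p ≠ 2
  tab : ∀ x : ZMod p, quadraticChar (ZMod p) x = tbl D.L p (x.val : ℤ)
  iso : (p : ℤ) ∣ D.w0 * D.w0 + D.w1 * D.w1 + D.w2 * D.w2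
  one : (![D.w0, D.w1, D.w2] : V3) D.i = 1

/-- the character -/
def Dt.e {p : ℕ} (D : Dt p) (a b c : ℤ) : ℤ := eE D.L p D.w0 D.w1 D.w2 D.i a b c

theorem Y_two (h0 : S_PHI) {p q : ℕ} [hp : Fact p.Prime] [hq : Fact q.Prime] (hpq : p ≠ q)
    {D : Dt p} {D' : Dt q} (hD : D.Ok) (hD' : D'.Ok) (r m : ℕ) (N : ℤ)
    (h1 : N < ((m : ℤ) + 1) ^ 2) (h2 : (m : ℤ) ≤ N) (hpN : (p : ℤ) ∣ N) (hqN : (q : ℤ) ∣ N) :
    ∃ ε : ℤ, (ε = 1 ∨ ε = -1) ∧ ∀ β : ℤ, Y r {p, q} N (β : ZMod 7) =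
      ε * SS m N (fun a b c => if LnI β a b c = true then
        omI r a b c * (D.e a b c * D'.e a b c) else 0) := by
  have hf := ph_spec h0 hp.out hD.two
  have hg := ph_spec h0 hq.out hD'.two
  refine ⟨ph p (rd p ![D.w0, D.w1, D.w2]) * ph q (rd q ![D'.w0, D'.w1, D'.w2]), ?_, ?_⟩
  · rcases pm_w hf D.w0 D.w1 D.w2 hD.iso D.i hD.one with e | e <;>
      rcases pm_w hg D'.w0 D'.w1 D'.w2 hD'.iso D'.i hD'.one with e' | e' <;> rw [e, e'] <;> norm_num
  · intro β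
    refine Y_gen r m {p, q} N h1 h2 _ _ ?_ β
    intro a b c hN
    unfold Ph
    rw [prod_pair hpq,
      ph_int hf D.L (lz_int D.L hD.tab) D.w0 D.w1 D.w2 hD.iso D.i hD.one a b c (by rw [hN]; exact hpN),
      ph_int hg D'.L (lz_int D'.L hD'.tab) D'.w0 D'.w1 D'.w2 hD'.iso D'.i hD'.one a b c
        (by rw [hN]; exact hqN)]
    unfold Dt.e
    ring

theorem perm2_empty (M : ℕ → ℕ → ZMod 2) : perm2 ∅ ∅ M = 1 := by
  unfold perm2
  simp

/-- the final step -/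
theorem fin_step {r p q n : ℕ} (hpq : p ≠ q) (hn : 0 < n) (hr : (p * q * n) % 8 = r) (β0 : ℤ)
    (hex : ex {p, q} = 1) (hSB : sS {p, q} ∪ sB {p, q} = ∅) (hSA : sS {p, q} ∪ sA {p, q} = ∅)
    (hG : G n (β0 : ZMod 7) = 1 ∨ G n (β0 : ZMod 7) = -3)
    (hY : ∀ s : ZMod 7, s ^ 2 = ((p * q : ℕ) : ZMod 7) →
      Y r {p, q} ((p * q * n : ℕ) : ℤ) (s * (β0 : ZMod 7)) = 6 ∨
      Y r {p, q} ((p * q * n : ℕ) : ℤ) (s * (β0 : ZMod 7)) = -6) : PX r {p, q} := by
  intro s c hs hc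
  have hpr : pr {p, q} = p * q := by
    unfold Pool.Agent.Z700.pr
    rw [prod_pair hpq]
  rw [hpr] at hs hc
  have h1 := hc n β0 hn hr
  have hDD : DD (hh r) {p, q} = 1 := by
    unfold DD
    rw [hSB, hSA, perm2_empty]
  rw [hex, hDD]
  have key : ∃ u : ℤ, c = 2 ^ 1 * u ∧ u % 2 = 1 := by
    rcases hY s hs with h2 | h2 <;> rcases hG with h3 | h3 <;> rw [h2, h3] at h1
    · exact ⟨3, by linarith, by norm_num⟩
    · exact ⟨-1, by linarith, by norm_num⟩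
    · exact ⟨-3, by linarith, by norm_num⟩
    · exact ⟨1, by linarith, by norm_num⟩
  obtain ⟨u, hu, hu2⟩ := key
  refine ⟨u, hu, fun _ => ?_⟩
  have h4 : (u - 1) % 2 = 0 := by omega
  have h5 : ((u - 1 : ℤ) : ZMod 2) = 0 :=
    (ZMod.intCast_zmod_eq_zero_iff_dvd _ 2).2 (Int.dvd_of_emod_eq_zero h4)
  push_cast at h5
  exact sub_eq_zero.1 h5

instance f3 : Fact (Nat.Prime 3) := ⟨by norm_num⟩
instance f5 : Fact (Nat.Prime 5) := ⟨by norm_num⟩
instance f13 : Fact (Nat.Prime 13) := ⟨by norm_num⟩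
instance f19 : Fact (Nat.Prime 19) := ⟨by norm_num⟩

/-- the data -/
def D3 : Dt 3 := ⟨[1], 1, 1, 1, 0⟩
def D5 : Dt 5 := ⟨[1, 4], 0, 1, 2, 1⟩
def D13 : Dt 13 := ⟨[1, 3, 4, 9, 10, 12], 0, 1, 5, 1⟩
def D19 : Dt 19 := ⟨[1, 4, 5, 6, 7, 9, 11, 16, 17], 1, 1, 6, 0⟩

theorem o3 : D3.Ok := ⟨by decide, by decide +kernel, by decide +kernel, by decide +kernel⟩
theorem o5 : D5.Ok := ⟨by decide, by decide +kernel, by decide +kernel, by decide +kernel⟩
theorem o13 : D13.Ok := ⟨by decide, by decide +kernel, by decide +kernel, by decide +kernel⟩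
theorem o19 : D19.Ok := ⟨by decide, by decide +kernel, by decide +kernel, by decide +kernel⟩

set_option maxRecDepth 100000 in
theorem g32 : G 3 ((2 : ℤ) : ZMod 7) = 1 := by
  rw [G_eq 3 1 (by norm_num) (by norm_num)]
  decide +kernel

set_option maxRecDepth 100000 in
theorem g53 : G 5 ((3 : ℤ) : ZMod 7) = -3 := by
  rw [G_eq 5 2 (by norm_num) (by norm_num)]
  decide +kernel

/-- the two square roots -/
theorem roots {a : ZMod 7} (s0 : ℤ) (ha : ∀ s : ZMod 7, s ^ 2 = a → s = (s0 : ZMod 7) ∨ s = -(s0 : ZMod 7))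
    (β0 : ℤ) (s : ZMod 7) (hs : s ^ 2 = a) : s * (β0 : ZMod 7) = ((s0 * β0 : ℤ) : ZMod 7) ∨
      s * (β0 : ZMod 7) = ((-(s0 * β0) : ℤ) : ZMod 7) := by
  rcases ha s hs with h | h
  · left; rw [h]; push_cast; ring
  · right; rw [h]; push_cast; ring

theorem y_step (h0 : S_PHI) {p q : ℕ} [hp : Fact p.Prime] [hq : Fact q.Prime] (hpq : p ≠ q)
    {D : Dt p} {D' : Dt q} (hD : D.Ok) (hD' : D'.Ok) (r m : ℕ) (N : ℤ)
    (h1 : N < ((m : ℤ) + 1) ^ 2) (h2 : (m : ℤ) ≤ N) (hpN : (p : ℤ) ∣ N) (hqN : (q : ℤ) ∣ N)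
    (s0 β0 : ℤ) (a : ZMod 7)
    (ha : ∀ s : ZMod 7, s ^ 2 = a → s = (s0 : ZMod 7) ∨ s = -(s0 : ZMod 7))
    (hA : SS m N (fun a b c => if LnI (s0 * β0) a b c = true then
      omI r a b c * (D.e a b c * D'.e a b c) else 0) = 6 ∨
      SS m N (fun a b c => if LnI (s0 * β0) a b c = true then
      omI r a b c * (D.e a b c * D'.e a b c) else 0) = -6)
    (hB : SS m N (fun a b c => if LnI (-(s0 * β0)) a b c = true then
      omI r a b c * (D.e a b c * D'.e a b c) else 0) = 6 ∨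
      SS m N (fun a b c => if LnI (-(s0 * β0)) a b c = true then
      omI r a b c * (D.e a b c * D'.e a b c) else 0) = -6) (s : ZMod 7) (hs : s ^ 2 = a) :
    Y r {p, q} N (s * (β0 : ZMod 7)) = 6 ∨ Y r {p, q} N (s * (β0 : ZMod 7)) = -6 := by
  obtain ⟨ε, hε, hY⟩ := Y_two h0 hpq hD hD' r m N h1 h2 hpN hqN
  rcases roots s0 ha β0 s hs with h | h <;> rw [h, hY]
  · rcases hA with e | e <;> rcases hε with e' | e' <;> rw [e, e'] <;> norm_num
  · rcases hB with e | e <;> rcases hε with e' | e' <;> rw [e, e'] <;> norm_num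

end BaseAux

open BaseAux

set_option maxRecDepth 100000 in
theorem t_BASE (h0 : S_PHI) : S_BASE := by
  refine ⟨?_, ?_, ?_, ?_⟩
  · refine fin_step (n := 3) (by decide) (by decide) (by decide) 2 (by decide) (by decide) (by decide)
      (Or.inl g32) ?_
    exact y_step h0 (by decide) o3 o19 3 13 171 (by norm_num) (by norm_num) (by decide) (by decide)
      1 2 _ (by decide) (by decide +kernel) (by decide +kernel)
  · refine fin_step (n := 5) (by decide) (by decide) (by decide) 3 (by decide) (by decide) (by decide)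
      (Or.inr g53) ?_
    exact y_step h0 (by decide) o3 o5 3 8 75 (by norm_num) (by norm_num) (by decide) (by decide)
      1 3 _ (by decide) (by decide +kernel) (by decide +kernel)
  · refine fin_step (n := 3) (by decide) (by decide) (by decide) 2 (by decide) (by decide) (by decide)
      (Or.inl g32) ?_
    exact y_step h0 (by decide) o3 o5 5 6 45 (by norm_num) (by norm_num) (by decide) (by decide)
      1 2 _ (by decide) (by decide +kernel) (by decide +kernel)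
  · refine fin_step (n := 5) (by decide) (by decide) (by decide) 3 (by decide) (by decide) (by decide)
      (Or.inr g53) ?_
    exact y_step h0 (by decide) o5 o13 5 18 325 (by norm_num) (by norm_num) (by decide) (by decide)
      3 3 _ (by decide) (by decide +kernel) (by decide +kernel)

end Pool.Agent.NH1
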