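import Pool.Agent.Z700.Defs

/-!
# Twists of `X_0(14)` by all `D > 0`, `D = 1 mod 8`, `(D/7) = 1`: definitions and statements

Project NH1. A prime `p ∤ 14` has a type: `b = 1` iff `p = ± 3 mod 8`, `c = 1` iff `p` is not a square
modulo `7`, `a = 1` iff `p = 3 mod 4`. `tS`: `b = c = 0`, `tI`: `b = c = 1`, `tA`: `b = 0, c = 1`,
`tB`: `b = 1, c = 0`. A number is admissible (`K r m`, `r = m % 8`) if `b = c`. `ph p` is the character
`χ_p` of the isotropic vectors modulo `p`; `om 3 = ep`, `om 5 = xi` are the functions at two.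
`Y r P N β` is the sum of `om r * ∏_{p ∈ P} χ_p` over the vectors of norm `N` on the line `n0` with
eigenvalue `β` modulo `7`.
-/

set_option autoImplicit false

namespace Pool.Agent.NH1

open Finset Matrix
open Pool.Agent.Z700 (V3 vec pr Ln n0 ep X2)

noncomputable section

/-! ### the characters `χ_p` -/

/-- reduction modulo `p` -/
def rd (p : ℕ) (v : V3) : Fin 3 → ZMod p := fun i => (v i : ZMod p)

/-- the Legendre symbol of an element of `ZMod p` -/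
def lz (p : ℕ) (c : ZMod p) : ℤ := jacobiSym (c.val : ℤ) p

/-- the properties of the character of the isotropic vectors -/
structure IsPhi (p : ℕ) (f : (Fin 3 → ZMod p) → ℤ) : Prop where
  zero : ∀ v : Fin 3 → ZMod p, (v ⬝ᵥ v ≠ 0 ∨ v = 0) → f v = 0
  pm : ∀ v : Fin 3 → ZMod p, v ⬝ᵥ v = 0 → v ≠ 0 → f v = 1 ∨ f v = -1
  smul : ∀ (c : ZMod p) (v : Fin 3 → ZMod p), c ≠ 0 → f (c • v) = lz p c * f v
  mul : ∀ v w : Fin 3 → ZMod p, v ⬝ᵥ v = 0 → w ⬝ᵥ w = 0 → v ⬝ᵥ w ≠ 0 →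
    f v * f w = lz p (2 * (v ⬝ᵥ w))

/-- PHI: existence of the characters -/
def S_PHI : Prop := ∀ p : ℕ, p.Prime → p ≠ 2 → ∃ f : (Fin 3 → ZMod p) → ℤ, IsPhi p f

/-- the character `χ_p` -/
def ph (p : ℕ) : (Fin 3 → ZMod p) → ℤ := Classical.epsilon (IsPhi p)

theorem ph_spec (h : S_PHI) {p : ℕ} (hp : p.Prime) (h2 : p ≠ 2) : IsPhi p (ph p) :=
  Classical.epsilon_spec (h p hp h2)

/-- the product of the characters of a set of primes -/
def Ph (P : Finset ℕ) (v : V3) : ℤ := ∏ p ∈ P, ph p (rd p v)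

/-! ### types -/

/-- the admissible numbers: `r = m % 8`, and `m` is a square modulo `7` iff `m = ± 1 mod 8` -/
def K (r m : ℕ) : Prop := m % 8 = r ∧
  (if r = 1 ∨ r = 7 then m % 7 = 1 ∨ m % 7 = 2 ∨ m % 7 = 4 else m % 7 = 3 ∨ m % 7 = 5 ∨ m % 7 = 6)

instance (r m : ℕ) : Decidable (K r m) := by unfold K; infer_instance

/-- the primes which occur -/
def Pm (P : Finset ℕ) : Prop := ∀ p ∈ P, p.Prime ∧ p ≠ 2 ∧ p ≠ 7

/-- squares modulo `7` -/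
def sq7 (p : ℕ) : Prop := p % 7 = 1 ∨ p % 7 = 2 ∨ p % 7 = 4

instance (p : ℕ) : Decidable (sq7 p) := by unfold sq7; infer_instance

/-- `p = ± 1 mod 8` -/
def sq2 (p : ℕ) : Prop := p % 8 = 1 ∨ p % 8 = 7

instance (p : ℕ) : Decidable (sq2 p) := by unfold sq2; infer_instance

/-- the elements of type `S` -/
def sS (X : Finset ℕ) : Finset ℕ := X.filter fun p => sq2 p ∧ sq7 p

/-- the elements of type `I` -/
def sI (X : Finset ℕ) : Finset ℕ := X.filter fun p => ¬ sq2 p ∧ ¬ sq7 p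

/-- the elements of type `A` -/
def sA (X : Finset ℕ) : Finset ℕ := X.filter fun p => sq2 p ∧ ¬ sq7 p

/-- the elements of type `B` -/
def sB (X : Finset ℕ) : Finset ℕ := X.filter fun p => ¬ sq2 p ∧ sq7 p

/-- the subsets `P` with `pr P` of type `(0,0,0)` or `(1,0,0)` -/
def adm (N : Finset ℕ) : Finset (Finset ℕ) :=
  N.powerset.filter fun P => K 1 (pr P) ∨ K 7 (pr P)

/-- the exponent of two -/
def ex (X : Finset ℕ) : ℕ := (sS X).card +
  ((sI X).card + (sA X).card + (sB X).card + max (sA X).card (sB X).card) / 2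

/-! ### the sums -/

/-- the function at two for norms `3 mod 8` -/
def ep0 (v : V3) : ℤ := if v 0 % 2 = 1 ∧ v 1 % 2 = 1 ∧ v 2 % 2 = 1 then ep v else 0

/-- the indicator of the odd numbers, of the numbers `2 mod 4`, of the numbers `0 mod 4` -/
def f0 (x : ℤ) : ℤ := if x % 2 = 1 then 1 else 0
def f1 (x : ℤ) : ℤ := if x % 4 = 2 then 1 else 0
def f2 (x : ℤ) : ℤ := if x % 4 = 0 then 1 else 0

/-- the function at two for norms `5 mod 8`: the sign of the arrangement of the classes odd,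
`2 mod 4`, `0 mod 4` -/
def xi (v : V3) : ℤ := f0 (v 0) * f1 (v 1) * f2 (v 2) + f0 (v 1) * f1 (v 2) * f2 (v 0) +
  f0 (v 2) * f1 (v 0) * f2 (v 1) - f0 (v 1) * f1 (v 0) * f2 (v 2) -
  f0 (v 0) * f1 (v 2) * f2 (v 1) - f0 (v 2) * f1 (v 1) * f2 (v 0)

/-- the function at two for norms `r mod 8` -/
def om (r : ℕ) (v : V3) : ℤ := if r = 3 then ep0 v else xi v

/-- the sums -/
def Y (r : ℕ) (P : Finset ℕ) (N : ℤ) (β : ZMod 7) : ℤ :=
  ∑ v ∈ (vec N).filter fun v => Ln n0 β v, om r v * Ph P v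

/-- the sums without characters -/
def G (n : ℕ) (β : ZMod 7) : ℤ := Y (n % 8) ∅ (n : ℤ) β

open Classical in
/-- the number of vectors with given characters on the line `n0` -/
def R (N : Finset ℕ) (β : ZMod 7) (γ : ℕ → ℤ) : ℕ :=
  ((vec (pr N : ℤ)).filter fun v => Ln n0 β v ∧ ∀ p ∈ N, ph p (rd p v) = γ p).card

open Classical in
/-- the number of vectors with given characters -/
def Rt (N : Finset ℕ) (γ : ℕ → ℤ) : ℕ :=
  ((vec (pr N : ℤ)).filter fun v => ∀ p ∈ N, ph p (rd p v) = γ p).card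

open Classical in
/-- the number of vectors with given characters on the line `n0` which are orthogonal to `(1,2,3)` -/
def Z0 (N : Finset ℕ) (β : ZMod 7) (γ : ℕ → ℤ) : ℕ :=
  ((vec (pr N : ℤ)).filter fun v => Ln n0 β v ∧ v 0 + 2 * v 1 + 3 * v 2 = 0 ∧
    ∀ p ∈ N, ph p (rd p v) = γ p).card

/-! ### the analytic part -/

/-- the series `∑ c n β e(n z / 56)` -/
def F (c : ℕ → ZMod 7 → ℤ) (β : ZMod 7) (z : ℂ) : ℂ :=
  ∑' n : ℕ, (c n β : ℂ) * Complex.exp (2 * Real.pi * Complex.I * n * z / 56)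

/-- `e(x/7)` -/
def z7 (x : ZMod 7) : ℂ := Complex.exp (2 * Real.pi * Complex.I * (x.val : ℂ) / 7)

/-- vector valued modular forms of weight `3/2` -/
structure VV (c : ℕ → ZMod 7 → ℤ) : Prop where
  bound : ∃ C k : ℕ, ∀ n β, |c n β| ≤ (C : ℤ) * ((n : ℤ) + 1) ^ k
  trans : ∃ κ : ℂ, ∀ (β : ZMod 7) (z : ℂ), 0 < z.im →
    F c β (-1 / z) = κ * (-Complex.I * z) ^ ((3 : ℂ) / 2) *
      ∑ β' : ZMod 7, z7 (-(2 * β * β')) * F c β' z

/-- the coefficients `Y r P (m n) (s β)`, `m = pr P` -/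
def cY (r : ℕ) (P : Finset ℕ) (s : ZMod 7) : ℕ → ZMod 7 → ℤ := fun n β =>
  if (pr P * n) % 8 = r then Y r P ((pr P * n : ℕ) : ℤ) (s * β) else 0

/-- FT: the Fourier transform of `χ_p` -/
def S_FT : Prop := ∀ p : ℕ, p.Prime → p ≠ 2 → ∀ [NeZero p], ∀ f : (Fin 3 → ZMod p) → ℤ, IsPhi p f →
  ∀ t : ZMod p, t ≠ 0 → ∃ κ : ℂ, ∀ w : Fin 3 → ZMod p,
    ∑ v : Fin 3 → ZMod p, (f v : ℂ) *
      Complex.exp (2 * Real.pi * Complex.I * ((t * (v ⬝ᵥ w)).val : ℂ) / p) = κ * (f w : ℂ)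

/-- TRANS: the theta series are modular -/
def S_TRANS : Prop := ∀ (r : ℕ) (P : Finset ℕ) (s : ZMod 7), (r = 3 ∨ r = 5) → Pm P →
  (K 1 (pr P) ∨ K 7 (pr P)) → s ^ 2 = (pr P : ZMod 7) → VV (cY r P s)

/-- UO: uniqueness, the odd case -/
def S_UO : Prop := ∀ c c' : ℕ → ZMod 7 → ℤ, VV c → VV c' →
  (∀ n β, c n β ≠ 0 → n % 8 = 3 ∧ (n : ZMod 7) = -β ^ 2) →
  (∀ n β, c' n β ≠ 0 → n % 8 = 3 ∧ (n : ZMod 7) = -β ^ 2) →
  (∀ n β, c n (-β) = -c n β) → (∀ n β, c' n (-β) = -c' n β) →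
  ∀ n β, c n β * c' 3 2 = c' n β * c 3 2

/-- UE: uniqueness, the even case -/
def S_UE : Prop := ∀ c c' : ℕ → ZMod 7 → ℤ, VV c → VV c' →
  (∀ n β, c n β ≠ 0 → n % 8 = 5 ∧ (n : ZMod 7) = -β ^ 2) →
  (∀ n β, c' n β ≠ 0 → n % 8 = 5 ∧ (n : ZMod 7) = -β ^ 2) →
  (∀ n β, c n (-β) = c n β) → (∀ n β, c' n (-β) = c' n β) →
  ∀ n β, c n β * c' 5 3 = c' n β * c 5 3

/-- V4: the sums over all vectors vanish -/
def S_V4 : Prop := ∀ P : Finset ℕ, P.Nonempty → (∀ p ∈ P, p.Prime ∧ p ≠ 2) → ∀ N : ℤ,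
  ∑ v ∈ vec N, Ph P v = 0

/-- C3: the sums are divisible by three -/
def S_C3 : Prop := ∀ (r : ℕ) (P : Finset ℕ), (r = 3 ∨ r = 5) → Pm P → P.Nonempty → P ≠ {3} →
  ∀ N : ℕ, pr P ∣ N → ∀ β : ZMod 7, (3 : ℤ) ∣ Y r P (N : ℤ) β

/-- A2: the factorization of the sums -/
def S_A2 : Prop := ∀ (r : ℕ) (P : Finset ℕ) (s : ZMod 7), (r = 3 ∨ r = 5) → Pm P →
  (K 1 (pr P) ∨ K 7 (pr P)) → s ^ 2 = (pr P : ZMod 7) → ∃ c : ℤ, ∀ (n : ℕ) (β : ZMod 7), 0 < n →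
  (pr P * n) % 8 = r → Y r P ((pr P * n : ℕ) : ℤ) (s * β) = c * G n β

/-! ### vectors with given characters -/

/-- PROD: the product formula -/
def S_PROD : Prop := ∀ (N : Finset ℕ) (r : ℕ), (∀ p ∈ N, p.Prime ∧ p ≠ 2) → (r = 3 ∨ r = 5) →
  pr N % 8 = r → ∃ C : ℤ, (C = 1 ∨ C = -1) ∧ ∀ v ∈ vec (pr N : ℤ), Ph N v = C * om r v

/-- ROT: the lines modulo `7` -/
def S_ROT : Prop := ∀ N : Finset ℕ, Pm N → (pr N % 8 = 3 ∨ pr N % 8 = 5) → ∀ β : ZMod 7, β ≠ 0 →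
  β ^ 2 = -(pr N : ZMod 7) → ∀ γ : ℕ → ℤ,
  Rt N γ = 4 * (R N β γ + R N β fun p => γ p * jacobiSym 2 p)

/-- REFL: the reflection in `(1,2,3)` -/
def S_REFL : Prop := ∀ N : Finset ℕ, Pm N → (K 3 (pr N) ∨ K 5 (pr N)) → ∀ β : ZMod 7,
  β ^ 2 = -(pr N : ZMod 7) → ∀ P ⊆ N, jacobiSym (-14) (pr P) = -1 → Y (pr N % 8) P (pr N : ℤ) β = 0

/-- SINV: the parity of `R` for sets without elements of type `A`, `B` -/
def S_SINV : Prop := ∀ N : Finset ℕ, Pm N → (K 3 (pr N) ∨ K 5 (pr N)) → sA N = ∅ → sB N = ∅ →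
  ∀ β : ZMod 7, β ^ 2 = -(pr N : ZMod 7) → ∀ γ : ℕ → ℤ, R N β γ % 2 = Z0 N β γ % 2

/-! ### matrices modulo two -/

/-- the symbol `[p/q]` modulo two -/
def lg (p q : ℕ) : ZMod 2 := if jacobiSym p q = -1 then 1 else 0

open Classical in
/-- the class of `p`: `1` iff `p = 2 x² + 7 y²` -/
def gX (p : ℕ) : ZMod 2 := if X2 p then 1 else 0

/-- `1` iff `p = 3 mod 4` -/
def al (p : ℕ) : ZMod 2 := if p % 4 = 3 then 1 else 0

/-- the weights -/
def hh (r : ℕ) (p : ℕ) : ZMod 2 := if r = 3 then gX p else gX p + al p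

open Classical in
/-- the permanent (determinant modulo two) of the rows `R` and the columns `C` -/
def perm2 (R C : Finset ℕ) (M : ℕ → ℕ → ZMod 2) : ZMod 2 := ∑ σ : (R ≃ C), ∏ p : R, M p.1 (σ p).1

/-- the Laplacian of the set `X` with the weights `w`, plus the diagonal matrix `h` -/
def Lp (w : ℕ → ℕ → ZMod 2) (h : ℕ → ZMod 2) (X : Finset ℕ) (p q : ℕ) : ZMod 2 :=
  if p = q then h p + ∑ t ∈ X.erase p, w p t else w p q

/-- the determinant `D_h(X)` -/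
def DD (h : ℕ → ZMod 2) (X : Finset ℕ) : ZMod 2 := perm2 (sS X ∪ sB X) (sS X ∪ sA X) (Lp lg h X)

/-- the matrix of the flips -/
def Bm (N : Finset ℕ) (q p0 x y : ℕ) : ZMod 2 :=
  if y = q then (if x = p0 ∨ x = q then 1 else 0)
  else if x = q then lg y q + gX y
  else if x = y then ∑ t ∈ N.erase x, lg t x
  else lg y x

/-- CNT: the number of vectors orthogonal to `(1,2,3)` -/
def S_CNT : Prop := ∀ (P : Finset ℕ) (q : ℕ), Pm (insert q P) → q ∉ P → sS P = P → sI {q} = {q} →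
  ∀ β : ZMod 7, β ^ 2 = -(pr (insert q P) : ZMod 7) → ∀ p0 ∈ P,
  ((Z0 (insert q P) β (fun _ => 1) +
    Z0 (insert q P) β (fun p => if p = p0 ∨ p = q then -1 else 1) : ℕ) : ZMod 2) =
  perm2 (insert q P) (insert q P) (Bm (insert q P) q p0)

/-! ### the relations -/

/-- EALL: the sum over all admissible subsets -/
def S_EALL : Prop := ∀ N : Finset ℕ, Pm N → (K 3 (pr N) ∨ K 5 (pr N)) → ∀ β : ZMod 7,
  β ^ 2 = -(pr N : ZMod 7) → ∃ T z : ℤ, ((vec (pr N : ℤ)).card : ℤ) = 4 * 2 ^ N.card * T ∧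
  ∑ P ∈ adm N, Y (pr N % 8) P (pr N : ℤ) β = 2 ^ (N.card - 1) * (T + 2 * z)

/-- EPAT: the sum over the subsets with a given pattern on `W` -/
def S_EPAT : Prop := ∀ N : Finset ℕ, Pm N → (K 3 (pr N) ∨ K 5 (pr N)) → ∀ β : ZMod 7,
  β ^ 2 = -(pr N : ZMod 7) → ∀ W ⊆ N, ∀ W0 ⊆ W, W0.Nonempty → W0 ≠ W →
  ∃ z : ℤ, ∑ P ∈ (adm N).filter (fun P => P ∩ W = W0 ∨ P ∩ W = W \ W0),
    Y (pr N % 8) P (pr N : ℤ) β = 2 ^ (N.card + 1 - W.card) * z

/-- EREF: the refined relation for the sets of primes of type `S` and one prime of type `I` -/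
def S_EREF : Prop := ∀ (P : Finset ℕ) (q : ℕ), Pm (insert q P) → q ∉ P → sS P = P →
  sI {q} = {q} → ∀ β : ZMod 7, β ^ 2 = -(pr (insert q P) : ZMod 7) → ∀ p0 ∈ P,
  ∃ z : ℤ, ∑ J ∈ P.powerset.filter (p0 ∈ ·),
    Y (pr (insert q P) % 8) J (pr (insert q P) : ℤ) β = 2 ^ P.card * z ∧
    (z : ZMod 2) = perm2 (insert q P) (insert q P) (Bm (insert q P) q p0)

/-- RED: the parity of the class number -/
def S_RED : Prop := ∀ N : Finset ℕ, Pm N → (K 3 (pr N) ∨ K 5 (pr N)) →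
  (sA N).card = (sB N).card → (sI N).card + (sA N).card = 1 → ∀ T : ℤ,
  ((vec (pr N : ℤ)).card : ℤ) = 4 * 2 ^ N.card * T →
  (T : ZMod 2) = DD (fun p => hh (pr N % 8) p + gX p) N

/-! ### combinatorial identities -/

/-- CI1: additivity of the determinants -/
def S_CI1 : Prop := ∀ (w : ℕ → ℕ → ZMod 2) (h h' : ℕ → ZMod 2) (P : Finset ℕ),
  ∑ J ∈ P.powerset, perm2 J J (Lp w h J) * perm2 (P \ J) (P \ J) (Lp w h' (P \ J)) =
    perm2 P P (Lp w (fun p => h p + h' p) P)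

/-- CI3: the part containing a given element -/
def S_CI3 : Prop := ∀ (w : ℕ → ℕ → ZMod 2) (h h' : ℕ → ZMod 2) (P : Finset ℕ), ∀ p0 ∈ P,
  ∑ J ∈ P.powerset.filter (p0 ∈ ·), perm2 J J (Lp w h J) *
      perm2 (P \ J) (P \ J) (Lp w h' (P \ J)) =
    perm2 P P (fun p t => if t = p0 then h p else Lp w (fun p => h p + h' p) P p t)

/-- CVAN: vanishing of the sum over the subsets with a given pattern -/
def S_CVAN : Prop := ∀ (N : Finset ℕ) (r : ℕ), Pm N → (K 3 (pr N) ∨ K 5 (pr N)) →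
  ∀ W ⊆ N, W.Nonempty → ∀ W0 ⊆ W, W.card < (sI N).card + (sA N).card →
  ∑ P ∈ (adm N).filter (fun P => P ∩ W = W0 ∨ P ∩ W = W \ W0),
    DD (hh r) P * DD gX (N \ P) = 0

/-- CTOP: the sum over all subsets, one prime of type `I` or one pair of types `A`, `B` -/
def S_CTOP : Prop := ∀ (N : Finset ℕ) (r : ℕ), Pm N → (K 3 (pr N) ∨ K 5 (pr N)) →
  (sA N).card = (sB N).card → (sI N).card + (sA N).card = 1 →
  ∑ P ∈ adm N, DD (hh r) P * DD gX (N \ P) = DD (fun p => hh r p + gX p) N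

/-- CREF: the sum over the subsets containing a given element -/
def S_CREF : Prop := ∀ (P : Finset ℕ) (q : ℕ), Pm (insert q P) → q ∉ P → sS P = P →
  sI {q} = {q} → ∀ p0 ∈ P,
  ∑ J ∈ P.powerset.filter (p0 ∈ ·), DD (hh (pr (insert q P) % 8)) J * DD gX (insert q P \ J) =
    perm2 (insert q P) (insert q P) (Bm (insert q P) q p0)

/-! ### the structure theorem -/

/-- the claim for the constants of `S_A2` -/
def PX (r : ℕ) (P : Finset ℕ) : Prop := ∀ (s : ZMod 7) (c : ℤ), s ^ 2 = (pr P : ZMod 7) →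
  (∀ (n : ℕ) (β : ZMod 7), 0 < n → (pr P * n) % 8 = r →
    Y r P ((pr P * n : ℕ) : ℤ) (s * β) = c * G n β) →
  ∃ u : ℤ, c = 2 ^ ex P * u ∧ ((sA P).card = (sB P).card → (u : ZMod 2) = DD (hh r) P)

/-- the claim for the sums without characters -/
def PY (N : Finset ℕ) : Prop := ∀ β : ZMod 7, β ^ 2 = -(pr N : ZMod 7) →
  ∃ u : ℤ, G (pr N) β = 2 ^ ex N * u ∧ ((sA N).card = (sB N).card → (u : ZMod 2) = DD gX N)

/-- BASE: four numerical cases -/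
def S_BASE : Prop := PX 3 {3, 19} ∧ PX 3 {3, 5} ∧ PX 5 {3, 5} ∧ PX 5 {5, 13}

/-- the structure theorem -/
def S_MAIN : Prop :=
  (∀ (r : ℕ) (P : Finset ℕ), (r = 3 ∨ r = 5) → Pm P → (K 1 (pr P) ∨ K 7 (pr P)) → PX r P) ∧
  ∀ N : Finset ℕ, Pm N → (K 3 (pr N) ∨ K 5 (pr N)) → PY N

end

end Pool.Agent.NH1
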