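import Mathlib
import Pool.Agent.NH1.Defs

/-!
# Project NH1: identities for determinants of Laplacians modulo two
-/

set_option autoImplicit false
set_option linter.all false

namespace Pool.Agent.NH1

namespace CI

open Finset Matrix

/-- the determinant -/
noncomputable def D (X : Finset ℕ) (M : ℕ → ℕ → ZMod 2) : ZMod 2 :=
  (Matrix.of fun p q : X => M p.1 q.1).det

theorem sgn {α : Type} [DecidableEq α] [Fintype α] (σ : Equiv.Perm α) :
    ((Equiv.Perm.sign σ : ℤ) : ZMod 2) = 1 := by
  rcases Int.units_eq_one_or (Equiv.Perm.sign σ) with h | h <;> rw [h] <;> decide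

theorem perm_eq (X : Finset ℕ) (M : ℕ → ℕ → ZMod 2) : perm2 X X M = D X M := by
  classical
  unfold perm2 D
  rw [← det_transpose, det_apply']
  refine Fintype.sum_equiv (Equiv.refl _) _ _ fun σ => ?_
  rw [sgn, one_mul]
  rfl

theorem D_congr {X : Finset ℕ} {M M' : ℕ → ℕ → ZMod 2} (h : ∀ p ∈ X, ∀ q ∈ X, M p q = M' p q) :
    D X M = D X M' := by
  unfold D
  congr 1
  ext p q
  exact h p.1 p.2 q.1 q.2

/-- the expansion along a unit row -/
theorem D_unit {X : Finset ℕ} {M : ℕ → ℕ → ZMod 2} {p : ℕ} (hp : p ∈ X)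
    (h : ∀ t ∈ X, M p t = if t = p then 1 else 0) : D X M = D (X.erase p) M := by
  classical
  unfold D
  set A : Matrix X X (ZMod 2) := Matrix.of fun p q : X => M p.1 q.1 with hA
  rw [twoBlockTriangular_det A (fun i => i ≠ ⟨p, hp⟩) (by
    intro i hi j hj
    have hi' : i = ⟨p, hp⟩ := not_not.1 hi
    rw [hi']
    show M p j.1 = 0
    rw [h j.1 j.2, if_neg]
    intro hjp
    exact hj (Subtype.ext hjp))]
  have h1 : (toSquareBlockProp A fun i => ¬ i ≠ ⟨p, hp⟩).det = 1 := by
    have : Unique {i : X // ¬ i ≠ ⟨p, hp⟩} := ⟨⟨⟨⟨p, hp⟩, fun h => h rfl⟩⟩, fun i =>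
      Subtype.ext (not_not.1 i.2)⟩
    rw [det_unique]
    show M (this.default.1 : X).1 (this.default.1 : X).1 = 1
    have e : (this.default.1 : X) = ⟨p, hp⟩ := not_not.1 this.default.2
    rw [e, h p hp, if_pos rfl]
  rw [h1, mul_one]
  let e : {i : X // i ≠ ⟨p, hp⟩} ≃ {i // i ∈ X.erase p} :=
    { toFun := fun i => ⟨i.1.1, mem_erase.2 ⟨fun h => i.2 (Subtype.ext h), i.1.2⟩⟩
      invFun := fun i => ⟨⟨i.1, (mem_erase.1 i.2).2⟩, fun h =>
        (mem_erase.1 i.2).1 (congrArg Subtype.val h)⟩
      left_inv := fun i => rfl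
      right_inv := fun i => rfl }
  rw [← det_submatrix_equiv_self e.symm]
  rfl

/-- linearity in a row -/
theorem D_row {X : Finset ℕ} {M M1 M2 : ℕ → ℕ → ZMod 2} {p : ℕ} (hp : p ∈ X) (c : ZMod 2)
    (h0 : ∀ q ∈ X, q ≠ p → ∀ t ∈ X, M1 q t = M q t ∧ M2 q t = M q t)
    (h : ∀ t ∈ X, M p t = M1 p t + c * M2 p t) : D X M = D X M1 + c * D X M2 := by
  classical
  unfold D
  set A : Matrix X X (ZMod 2) := Matrix.of fun p q : X => M p.1 q.1 with hA
  set A1 : Matrix X X (ZMod 2) := Matrix.of fun p q : X => M1 p.1 q.1 with hA1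
  set A2 : Matrix X X (ZMod 2) := Matrix.of fun p q : X => M2 p.1 q.1 with hA2
  have e1 : A1 = A.updateRow ⟨p, hp⟩ (A1 ⟨p, hp⟩) := by
    ext i j
    by_cases hi : i = ⟨p, hp⟩
    · rw [hi, updateRow_self]
    · rw [updateRow_ne hi]
      exact (h0 i.1 i.2 (fun h => hi (Subtype.ext h)) j.1 j.2).1
  have e2 : A2 = A.updateRow ⟨p, hp⟩ (A2 ⟨p, hp⟩) := by
    ext i j
    by_cases hi : i = ⟨p, hp⟩
    · rw [hi, updateRow_self]
    · rw [updateRow_ne hi]
      exact (h0 i.1 i.2 (fun h => hi (Subtype.ext h)) j.1 j.2).2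
  have e3 : A = A.updateRow ⟨p, hp⟩ (A1 ⟨p, hp⟩ + c • A2 ⟨p, hp⟩) := by
    ext i j
    by_cases hi : i = ⟨p, hp⟩
    · rw [hi, updateRow_self]
      exact h j.1 j.2
    · rw [updateRow_ne hi]
  calc A.det = (A.updateRow ⟨p, hp⟩ (A1 ⟨p, hp⟩ + c • A2 ⟨p, hp⟩)).det := by rw [← e3]
    _ = (A.updateRow ⟨p, hp⟩ (A1 ⟨p, hp⟩)).det + c * (A.updateRow ⟨p, hp⟩ (A2 ⟨p, hp⟩)).det := by
        rw [det_updateRow_add, det_updateRow_smul]
    _ = A1.det + c * A2.det := by rw [← e1, ← e2]

/-- adding a column to another one -/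
theorem D_col {X : Finset ℕ} {M M1 : ℕ → ℕ → ZMod 2} {p p0 : ℕ} (hp : p ∈ X) (hp0 : p0 ∈ X)
    (hne : p0 ≠ p) (h0 : ∀ q ∈ X, ∀ t ∈ X, t ≠ p0 → M1 q t = M q t)
    (h : ∀ q ∈ X, M1 q p0 = M q p0 + M q p) : D X M1 = D X M := by
  classical
  unfold D
  set A : Matrix X X (ZMod 2) := Matrix.of fun p q : X => M p.1 q.1 with hA
  have hne' : (⟨p0, hp0⟩ : X) ≠ ⟨p, hp⟩ := fun h => hne (congrArg Subtype.val h)
  rw [← det_updateCol_add_self A hne']
  congr 1
  ext i j
  by_cases hj : j = ⟨p0, hp0⟩
  · rw [hj, updateCol_self]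
    exact h i.1 i.2
  · rw [updateCol_ne hj]
    exact h0 i.1 i.2 j.1 j.2 (fun h => hj (Subtype.ext h))

/-- a singular matrix -/
theorem D_zero {X : Finset ℕ} {M : ℕ → ℕ → ZMod 2} (hX : X.Nonempty)
    (h : ∀ p ∈ X, ∑ t ∈ X, M p t = 0) : D X M = 0 := by
  classical
  unfold D
  rw [← exists_mulVec_eq_zero_iff]
  obtain ⟨x, hx⟩ := hX
  refine ⟨fun _ => 1, fun h => ?_, ?_⟩
  · have := congrFun h ⟨x, hx⟩
    simp at this
  · ext p
    simp only [mulVec, dotProduct, of_apply, mul_one, Pi.zero_apply]
    rw [sum_coe_sort X fun t => M p.1 t]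
    exact h p.1 p.2

/-- the determinant of the Laplacian -/
noncomputable def FF (w : ℕ → ℕ → ZMod 2) (h : ℕ → ZMod 2) (X : Finset ℕ) : ZMod 2 := D X (Lp w h X)

theorem FF_congr {w : ℕ → ℕ → ZMod 2} {h h' : ℕ → ZMod 2} {X : Finset ℕ}
    (e : ∀ p ∈ X, h p = h' p) : FF w h X = FF w h' X := by
  unfold FF
  refine D_congr fun p hp q hq => ?_
  unfold Lp
  rw [e p hp]

theorem Lp_erase (w : ℕ → ℕ → ZMod 2) (h : ℕ → ZMod 2) {X : Finset ℕ} {p : ℕ} (hp : p ∈ X)
    {q t : ℕ} (hq : q ∈ X.erase p) :
    Lp w h X q t = Lp w (fun q => h q + w q p) (X.erase p) q t := by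
  unfold Lp
  split_ifs with e
  · have h1 : X.erase q = insert p ((X.erase p).erase q) := by
      ext x
      rw [mem_erase, mem_insert, mem_erase, mem_erase]
      rw [mem_erase] at hq
      constructor
      · rintro ⟨a, b⟩
        by_cases hx : x = p
        · exact Or.inl hx
        · exact Or.inr ⟨a, hx, b⟩
      · rintro (rfl | ⟨a, b, c⟩)
        · exact ⟨fun h => hq.1 h.symm, hp⟩
        · exact ⟨a, c⟩
    rw [h1, sum_insert (by
      rw [mem_erase, mem_erase]
      tauto), add_assoc]
  · rfl

/-- the change of one weight -/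
theorem FF_update (w : ℕ → ℕ → ZMod 2) (h : ℕ → ZMod 2) {X : Finset ℕ} {p : ℕ} (hp : p ∈ X)
    (c : ZMod 2) : FF w (Function.update h p (h p + c)) X =
      FF w h X + c * FF w (fun q => h q + w q p) (X.erase p) := by
  classical
  have h1 := D_row (X := X) (M := Lp w (Function.update h p (h p + c)) X) (M1 := Lp w h X)
    (M2 := fun q t => if q = p then (if t = p then 1 else 0) else Lp w h X q t) hp c ?_ ?_
  · unfold FF
    rw [h1, D_unit hp (M := fun q t => if q = p then (if t = p then 1 else 0) else Lp w h X q t)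
      (fun t _ => if_pos rfl)]
    congr 2
    refine D_congr fun q hq t _ => ?_
    rw [if_neg (mem_erase.1 hq).1, Lp_erase w h hp hq]
  · intro q hq hne t ht
    constructor
    · unfold Lp
      rw [Function.update_of_ne hne]
    · show (if q = p then (if t = p then 1 else 0) else Lp w h X q t) = _
      rw [if_neg hne]
      unfold Lp
      rw [Function.update_of_ne hne]
  · intro t ht
    show _ = _ + c * (if p = p then (if t = p then 1 else 0) else Lp w h X p t)
    rw [if_pos rfl]
    unfold Lp
    by_cases e : p = t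
    · rw [if_pos e, if_pos e, if_pos e.symm, Function.update_self]
      ring
    · rw [if_neg e, if_neg e, if_neg (fun h => e h.symm)]
      ring

theorem FF_zero (w : ℕ → ℕ → ZMod 2) {h : ℕ → ZMod 2} {X : Finset ℕ} (hX : X.Nonempty)
    (e : ∀ p ∈ X, h p = 0) : FF w h X = 0 := by
  unfold FF
  refine D_zero hX fun p hp => ?_
  rw [← add_sum_erase X _ hp]
  have h1 : ∑ t ∈ X.erase p, Lp w h X p t = ∑ t ∈ X.erase p, w p t := by
    refine sum_congr rfl fun t ht => ?_
    unfold Lp
    rw [if_neg (fun h => (mem_erase.1 ht).1 h.symm)]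
  rw [h1]
  unfold Lp
  rw [if_pos rfl, e p hp, zero_add]
  exact CharTwo.add_self_eq_zero _

theorem FF_empty (w : ℕ → ℕ → ZMod 2) (h : ℕ → ZMod 2) : FF w h ∅ = 1 := by
  unfold FF D
  exact det_isEmpty

/-- the convolution -/
noncomputable def GG (w : ℕ → ℕ → ZMod 2) (h h' : ℕ → ZMod 2) (P : Finset ℕ) : ZMod 2 :=
  ∑ J ∈ P.powerset, FF w h J * FF w h' (P \ J)

theorem sum_mem {P : Finset ℕ} {p : ℕ} (hp : p ∈ P) (f : Finset ℕ → ZMod 2) :
    ∑ J ∈ P.powerset.filter (p ∈ ·), f J = ∑ J ∈ (P.erase p).powerset, f (insert p J) := by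
  refine sum_nbij' (fun J => J.erase p) (fun J => insert p J) ?_ ?_ ?_ ?_ ?_
  · intro J hJ
    rw [mem_filter, mem_powerset] at hJ
    rw [mem_powerset]
    exact erase_subset_erase _ hJ.1
  · intro J hJ
    rw [mem_powerset] at hJ
    rw [mem_filter, mem_powerset]
    exact ⟨insert_subset hp (hJ.trans (erase_subset _ _)), mem_insert_self _ _⟩
  · intro J hJ
    rw [mem_filter] at hJ
    exact insert_erase hJ.2
  · intro J hJ
    rw [mem_powerset] at hJ
    exact erase_insert fun h => (mem_erase.1 (hJ h)).1 rfl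
  · intro J hJ
    rw [mem_filter] at hJ
    rw [insert_erase hJ.2]

theorem sdiff_insert_erase {P J : Finset ℕ} {p : ℕ} (hJ : J ⊆ P.erase p) :
    P \ insert p J = P.erase p \ J := by
  ext x
  rw [mem_sdiff, mem_insert, mem_sdiff, mem_erase]
  tauto

theorem GG_update (w : ℕ → ℕ → ZMod 2) (h h' : ℕ → ZMod 2) {P : Finset ℕ} {p : ℕ} (hp : p ∈ P)
    (c : ZMod 2) : GG w (Function.update h p (h p + c)) h' P =
      GG w h h' P + c * GG w (fun q => h q + w q p) h' (P.erase p) := by
  classical
  unfold GG
  rw [← sum_filter_add_sum_filter_not P.powerset (p ∈ ·),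
    ← sum_filter_add_sum_filter_not P.powerset (p ∈ ·) fun J => FF w h J * FF w h' (P \ J)]
  have h1 : ∑ J ∈ P.powerset.filter (p ∉ ·), FF w (Function.update h p (h p + c)) J *
      FF w h' (P \ J) = ∑ J ∈ P.powerset.filter (p ∉ ·), FF w h J * FF w h' (P \ J) := by
    refine sum_congr rfl fun J hJ => ?_
    rw [mem_filter] at hJ
    rw [FF_congr (h' := h) fun q hq => Function.update_of_ne (by rintro rfl; exact hJ.2 hq) _ _]
  rw [h1, sum_mem hp, sum_mem hp, mul_sum]
  have h2 : ∀ J ∈ (P.erase p).powerset, FF w (Function.update h p (h p + c)) (insert p J) *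
      FF w h' (P \ insert p J) = FF w h (insert p J) * FF w h' (P \ insert p J) +
        c * (FF w (fun q => h q + w q p) J * FF w h' (P.erase p \ J)) := by
    intro J hJ
    rw [mem_powerset] at hJ
    have hpJ : p ∉ J := fun h => (mem_erase.1 (hJ h)).1 rfl
    rw [FF_update w h (mem_insert_self p J) c, erase_insert hpJ, sdiff_insert_erase hJ]
    ring
  rw [sum_congr rfl h2, sum_add_distrib]
  ring

theorem GG_symm (w : ℕ → ℕ → ZMod 2) (h h' : ℕ → ZMod 2) (P : Finset ℕ) :
    GG w h h' P = GG w h' h P := by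
  unfold GG
  refine sum_nbij' (fun J => P \ J) (fun J => P \ J) ?_ ?_ ?_ ?_ ?_
  · intro J _
    rw [mem_powerset]
    exact sdiff_subset
  · intro J _
    rw [mem_powerset]
    exact sdiff_subset
  · intro J hJ
    exact Finset.sdiff_sdiff_eq_self (mem_powerset.1 hJ)
  · intro J hJ
    exact Finset.sdiff_sdiff_eq_self (mem_powerset.1 hJ)
  · intro J hJ
    rw [Finset.sdiff_sdiff_eq_self (mem_powerset.1 hJ), mul_comm]

theorem GG_congr {w : ℕ → ℕ → ZMod 2} {h h' k k' : ℕ → ZMod 2} {P : Finset ℕ}
    (e : ∀ p ∈ P, h p = k p) (e' : ∀ p ∈ P, h' p = k' p) : GG w h h' P = GG w k k' P := by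
  unfold GG
  refine sum_congr rfl fun J hJ => ?_
  rw [mem_powerset] at hJ
  rw [FF_congr fun p hp => e p (hJ hp), FF_congr fun p hp => e' p (sdiff_subset hp)]

/-- a function invariant under all changes of single weights is constant -/
theorem reduce {P : Finset ℕ} (A : (ℕ → ZMod 2) → ZMod 2)
    (hA : ∀ h : ℕ → ZMod 2, ∀ p ∈ P, ∀ c, A (Function.update h p (h p + c)) = A h)
    (h : ℕ → ZMod 2) : A h = A fun q => if q ∈ P then 0 else h q := by
  classical
  have key : ∀ T ⊆ P, A h = A fun q => if q ∈ T then 0 else h q := by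
    intro T
    induction T using Finset.induction_on with
    | empty => intro _; simp
    | insert a T ha ih =>
      intro hT
      rw [ih ((subset_insert _ _).trans hT)]
      set k : ℕ → ZMod 2 := fun q => if q ∈ T then 0 else h q with hk
      have h1 := hA k a (hT (mem_insert_self _ _)) (k a)
      rw [← h1]
      congr 1
      ext q
      by_cases hq : q = a
      · rw [hq, Function.update_self, CharTwo.add_self_eq_zero]
        simp
      · rw [Function.update_of_ne hq, hk]
        simp only [mem_insert, hq, false_or]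
  exact key P (Subset.refl _)

theorem ci1 (w : ℕ → ℕ → ZMod 2) : ∀ (n : ℕ) (P : Finset ℕ), P.card = n → ∀ h h' : ℕ → ZMod 2,
    GG w h h' P = FF w (fun p => h p + h' p) P := by
  intro n
  induction n with
  | zero =>
    intro P hP h h'
    rw [card_eq_zero] at hP
    subst hP
    unfold GG
    rw [powerset_empty, sum_singleton, sdiff_empty, FF_empty, FF_empty, FF_empty, one_mul]
  | succ n ih =>
    intro P hP h h'
    have hne : P.Nonempty := by
      rw [← card_pos, hP]
      exact Nat.succ_pos n
    -- the difference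
    have inv : ∀ (h h' : ℕ → ZMod 2), ∀ p ∈ P, ∀ c : ZMod 2,
        GG w (Function.update h p (h p + c)) h' P +
          FF w (fun q => (Function.update h p (h p + c)) q + h' q) P =
        GG w h h' P + FF w (fun q => h q + h' q) P := by
      intro h h' p hp c
      have e1 : (fun q => (Function.update h p (h p + c)) q + h' q) =
          Function.update (fun q => h q + h' q) p ((fun q => h q + h' q) p + c) := by
        ext q
        by_cases hq : q = p
        · rw [hq, Function.update_self, Function.update_self]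
          ring
        · rw [Function.update_of_ne hq, Function.update_of_ne hq]
      rw [GG_update w h h' hp c, e1, FF_update w _ hp c,
        ih (P.erase p) (by rw [card_erase_of_mem hp, hP]; rfl)]
      have e2 : (fun q => h q + w q p + h' q) = fun q => h q + h' q + w q p := by
        ext q; ring
      rw [e2]
      have : ∀ a b c : ZMod 2, a + c + (b + c) = a + b := by decide
      exact this _ _ _
    have red : ∀ h h' : ℕ → ZMod 2, (∀ p ∈ P, h' p = 0) →
        GG w h h' P + FF w (fun q => h q + h' q) P = 0 := by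
      intro h h' h0
      rw [reduce (P := P) (fun h => GG w h h' P + FF w (fun q => h q + h' q) P)
        (fun h p hp c => inv h h' p hp c) h]
      have e1 : FF w (fun q => (if q ∈ P then 0 else h q) + h' q) P = 0 := by
        refine FF_zero w hne fun p hp => ?_
        rw [if_pos hp, h0 p hp, add_zero]
      have e2 : GG w (fun q => if q ∈ P then 0 else h q) h' P = 0 := by
        unfold GG
        refine sum_eq_zero fun J hJ => ?_
        rw [mem_powerset] at hJ
        rcases J.eq_empty_or_nonempty with hJe | hJn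
        · rw [hJe, sdiff_empty, FF_zero w hne h0, mul_zero]
        · rw [FF_zero w hJn fun p hp => if_pos (hJ hp), zero_mul]
      show GG w (fun q => if q ∈ P then 0 else h q) h' P +
        FF w (fun q => (if q ∈ P then 0 else h q) + h' q) P = 0
      rw [e1, e2, add_zero]
    have fin : GG w h h' P + FF w (fun q => h q + h' q) P = 0 := by
      rw [reduce (P := P) (fun h => GG w h h' P + FF w (fun q => h q + h' q) P)
        (fun h p hp c => inv h h' p hp c) h]
      show GG w (fun q => if q ∈ P then 0 else h q) h' P +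
        FF w (fun q => (if q ∈ P then 0 else h q) + h' q) P = 0
      rw [GG_symm]
      have e1 : (fun q => (if q ∈ P then 0 else h q) + h' q) =
        fun q => h' q + (if q ∈ P then 0 else h q) := by
        ext q; ring
      rw [e1]
      exact red h' _ fun p hp => if_pos hp
    have : ∀ a b : ZMod 2, a + b = 0 → a = b := by decide
    exact this _ _ fin

/-- the convolution over the sets containing `p0` -/
noncomputable def G3 (w : ℕ → ℕ → ZMod 2) (h h' : ℕ → ZMod 2) (P : Finset ℕ) (p0 : ℕ) : ZMod 2 :=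
  ∑ J ∈ P.powerset.filter (p0 ∈ ·), FF w h J * FF w h' (P \ J)

/-- the matrix with the column `p0` replaced -/
noncomputable def M3 (w : ℕ → ℕ → ZMod 2) (h h' : ℕ → ZMod 2) (P : Finset ℕ) (p0 : ℕ) :
    ℕ → ℕ → ZMod 2 := fun p t => if t = p0 then h p else Lp w (fun p => h p + h' p) P p t

theorem G3_update_ne (w : ℕ → ℕ → ZMod 2) (h h' : ℕ → ZMod 2) {P : Finset ℕ} {p p0 : ℕ}
    (hp : p ∈ P) (hp0 : p0 ∈ P) (hne : p ≠ p0) (c : ZMod 2) :
    G3 w (Function.update h p (h p + c)) h' P p0 =
      G3 w h h' P p0 + c * G3 w (fun q => h q + w q p) h' (P.erase p) p0 := by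
  classical
  unfold G3
  rw [← sum_filter_add_sum_filter_not (P.powerset.filter (p0 ∈ ·)) (p ∈ ·),
    ← sum_filter_add_sum_filter_not (P.powerset.filter (p0 ∈ ·)) (p ∈ ·)
      fun J => FF w h J * FF w h' (P \ J)]
  have h1 : ∑ J ∈ (P.powerset.filter (p0 ∈ ·)).filter (p ∉ ·),
      FF w (Function.update h p (h p + c)) J * FF w h' (P \ J) =
      ∑ J ∈ (P.powerset.filter (p0 ∈ ·)).filter (p ∉ ·), FF w h J * FF w h' (P \ J) := by
    refine sum_congr rfl fun J hJ => ?_
    rw [mem_filter] at hJ
    rw [FF_congr (h' := h) fun q hq => Function.update_of_ne (by rintro rfl; exact hJ.2 hq) _ _]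
  have h3 : ∀ f : Finset ℕ → ZMod 2, ∑ J ∈ (P.powerset.filter (p0 ∈ ·)).filter (p ∈ ·), f J =
      ∑ J ∈ (P.erase p).powerset.filter (p0 ∈ ·), f (insert p J) := by
    intro f
    refine sum_nbij' (fun J => J.erase p) (fun J => insert p J) ?_ ?_ ?_ ?_ ?_
    · intro J hJ
      rw [mem_filter, mem_filter, mem_powerset] at hJ
      rw [mem_filter, mem_powerset]
      exact ⟨erase_subset_erase _ hJ.1.1, mem_erase.2 ⟨hne.symm, hJ.1.2⟩⟩
    · intro J hJ
      rw [mem_filter, mem_powerset] at hJ
      rw [mem_filter, mem_filter, mem_powerset]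
      exact ⟨⟨insert_subset hp (hJ.1.trans (erase_subset _ _)), mem_insert_of_mem hJ.2⟩,
        mem_insert_self _ _⟩
    · intro J hJ
      rw [mem_filter] at hJ
      exact insert_erase hJ.2
    · intro J hJ
      rw [mem_filter, mem_powerset] at hJ
      exact erase_insert fun h => (mem_erase.1 (hJ.1 h)).1 rfl
    · intro J hJ
      rw [mem_filter] at hJ
      rw [insert_erase hJ.2]
  rw [h1, h3, h3, mul_sum]
  have h2 : ∀ J ∈ (P.erase p).powerset.filter (p0 ∈ ·),
      FF w (Function.update h p (h p + c)) (insert p J) *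
      FF w h' (P \ insert p J) = FF w h (insert p J) * FF w h' (P \ insert p J) +
        c * (FF w (fun q => h q + w q p) J * FF w h' (P.erase p \ J)) := by
    intro J hJ
    rw [mem_filter, mem_powerset] at hJ
    have hpJ : p ∉ J := fun h => (mem_erase.1 (hJ.1 h)).1 rfl
    rw [FF_update w h (mem_insert_self p J) c, erase_insert hpJ, sdiff_insert_erase hJ.1]
    ring
  rw [sum_congr rfl h2, sum_add_distrib]
  ring

theorem G3_update_self (w : ℕ → ℕ → ZMod 2) (h h' : ℕ → ZMod 2) {P : Finset ℕ} {p0 : ℕ}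
    (hp0 : p0 ∈ P) (c : ZMod 2) :
    G3 w (Function.update h p0 (h p0 + c)) h' P p0 =
      G3 w h h' P p0 + c * GG w (fun q => h q + w q p0) h' (P.erase p0) := by
  classical
  unfold G3 GG
  rw [sum_mem hp0, sum_mem hp0, mul_sum, ← sum_add_distrib]
  refine sum_congr rfl fun J hJ => ?_
  rw [mem_powerset] at hJ
  have hpJ : p0 ∉ J := fun h => (mem_erase.1 (hJ h)).1 rfl
  rw [FF_update w h (mem_insert_self p0 J) c, erase_insert hpJ, sdiff_insert_erase hJ]
  ring

/-- the change of the matrix, `p ≠ p0` -/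
theorem M3_update_ne (w : ℕ → ℕ → ZMod 2) (h h' : ℕ → ZMod 2) {P : Finset ℕ} {p p0 : ℕ}
    (hp : p ∈ P) (hp0 : p0 ∈ P) (hne : p ≠ p0) (c : ZMod 2) :
    D P (M3 w (Function.update h p (h p + c)) h' P p0) =
      D P (M3 w h h' P p0) + c * D (P.erase p) (M3 w (fun q => h q + w q p) h' (P.erase p) p0) := by
  classical
  have h1 := D_row (X := P) (M := M3 w (Function.update h p (h p + c)) h' P p0)
    (M1 := M3 w h h' P p0)
    (M2 := fun q t => if q = p then (if t = p ∨ t = p0 then 1 else 0) else M3 w h h' P p0 q t)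
    hp c ?_ ?_
  · rw [h1]
    congr 2
    rw [← D_col (X := P) (M1 := fun q t => if t = p0 then (if q = p then 0 else h q + w q p)
      else if q = p then (if t = p then 1 else 0) else M3 w h h' P p0 q t) hp hp0 hne.symm ?_ ?_]
    · rw [D_unit hp]
      · refine D_congr fun q hq t ht => ?_
        rw [if_neg (mem_erase.1 hq).1, if_neg (mem_erase.1 hq).1]
        unfold M3
        by_cases e : t = p0
        · rw [if_pos e, if_pos e]
        · rw [if_neg e, if_neg e, if_neg e, Lp_erase w _ hp hq]
          unfold Lp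
          split_ifs
          · ring
          · rfl
      · intro t ht
        by_cases e : t = p0
        · rw [if_pos e, if_pos rfl, if_neg]
          rw [e]
          exact hne.symm
        · rw [if_neg e, if_pos rfl]
    · intro q hq t ht htp
      show (if t = p0 then _ else if q = p then (if t = p then 1 else 0) else M3 w h h' P p0 q t) =
        if q = p then (if t = p ∨ t = p0 then 1 else 0) else M3 w h h' P p0 q t
      rw [if_neg htp]
      by_cases e : q = p
      · rw [if_pos e, if_pos e]
        simp only [htp, or_false]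
      · rw [if_neg e, if_neg e]
    · intro q hq
      show (if p0 = p0 then (if q = p then 0 else h q + w q p) else _) =
        (if q = p then (if p0 = p ∨ p0 = p0 then 1 else 0) else M3 w h h' P p0 q p0) +
        (if q = p then (if p = p ∨ p = p0 then 1 else 0) else M3 w h h' P p0 q p)
      rw [if_pos rfl]
      by_cases e : q = p
      · rw [if_pos e, if_pos e, if_pos e]
        simp only [or_true, true_or, if_true]
        decide
      · rw [if_neg e, if_neg e, if_neg e]
        unfold M3
        rw [if_pos rfl, if_neg hne]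
        unfold Lp
        rw [if_neg e]
  · intro q hq hqp t ht
    constructor
    · unfold M3
      split_ifs
      · rw [Function.update_of_ne hqp]
      · unfold Lp
        dsimp only
        rw [Function.update_of_ne hqp]
    · show (if q = p then _ else M3 w h h' P p0 q t) = _
      rw [if_neg hqp]
      unfold M3
      split_ifs
      · rw [Function.update_of_ne hqp]
      · unfold Lp
        dsimp only
        rw [Function.update_of_ne hqp]
  · intro t ht
    show _ = _ + c * (if p = p then (if t = p ∨ t = p0 then 1 else 0) else M3 w h h' P p0 p t)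
    rw [if_pos rfl]
    unfold M3
    by_cases e : t = p0
    · rw [if_pos e, if_pos e, Function.update_self]
      simp only [e, or_true, if_true]
      ring
    · rw [if_neg e, if_neg e]
      unfold Lp
      by_cases e' : p = t
      · rw [if_pos e', if_pos e']
        dsimp only
        rw [Function.update_self]
        simp only [e'.symm, true_or, if_true]
        ring
      · rw [if_neg e', if_neg e']
        have : ¬ (t = p ∨ t = p0) := by
          rintro (h | h)
          · exact e' h.symm
          · exact e h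
        rw [if_neg this]
        ring

/-- the change of the matrix, `p = p0` -/
theorem M3_update_self (w : ℕ → ℕ → ZMod 2) (h h' : ℕ → ZMod 2) {P : Finset ℕ} {p0 : ℕ}
    (hp0 : p0 ∈ P) (c : ZMod 2) :
    D P (M3 w (Function.update h p0 (h p0 + c)) h' P p0) =
      D P (M3 w h h' P p0) + c * FF w (fun q => h q + h' q + w q p0) (P.erase p0) := by
  classical
  have h1 := D_row (X := P) (M := M3 w (Function.update h p0 (h p0 + c)) h' P p0)
    (M1 := M3 w h h' P p0)
    (M2 := fun q t => if q = p0 then (if t = p0 then 1 else 0) else M3 w h h' P p0 q t)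
    hp0 c ?_ ?_
  · rw [h1, D_unit hp0 (M := fun q t => if q = p0 then (if t = p0 then 1 else 0)
      else M3 w h h' P p0 q t) (fun t _ => if_pos rfl)]
    unfold FF
    congr 2
    refine D_congr fun q hq t ht => ?_
    rw [if_neg (mem_erase.1 hq).1]
    unfold M3
    rw [if_neg (mem_erase.1 ht).1, Lp_erase w _ hp0 hq]
  · intro q hq hqp t ht
    constructor
    · unfold M3
      split_ifs
      · rw [Function.update_of_ne hqp]
      · unfold Lp
        dsimp only
        rw [Function.update_of_ne hqp]
    · show (if q = p0 then _ else M3 w h h' P p0 q t) = _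
      rw [if_neg hqp]
      unfold M3
      split_ifs
      · rw [Function.update_of_ne hqp]
      · unfold Lp
        dsimp only
        rw [Function.update_of_ne hqp]
  · intro t ht
    show _ = _ + c * (if p0 = p0 then (if t = p0 then 1 else 0) else M3 w h h' P p0 p0 t)
    rw [if_pos rfl]
    unfold M3
    by_cases e : t = p0
    · rw [if_pos e, if_pos e, if_pos e, Function.update_self]
      ring
    · rw [if_neg e, if_neg e, if_neg e]
      unfold Lp
      rw [if_neg (fun h => e h.symm), if_neg (fun h => e h.symm)]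
      ring

theorem ci3 (w : ℕ → ℕ → ZMod 2) (p0 : ℕ) : ∀ (n : ℕ) (P : Finset ℕ), P.card = n → p0 ∈ P →
    ∀ h h' : ℕ → ZMod 2, G3 w h h' P p0 = D P (M3 w h h' P p0) := by
  intro n
  induction n with
  | zero =>
    intro P hP hp0
    rw [card_eq_zero] at hP
    subst hP
    exact absurd hp0 (notMem_empty _)
  | succ n ih =>
    intro P hP hp0 h h'
    have inv : ∀ (h : ℕ → ZMod 2), ∀ p ∈ P, ∀ c : ZMod 2,
        G3 w (Function.update h p (h p + c)) h' P p0 +
          D P (M3 w (Function.update h p (h p + c)) h' P p0) =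
        G3 w h h' P p0 + D P (M3 w h h' P p0) := by
      intro h p hp c
      have key : ∀ a b c : ZMod 2, a + c + (b + c) = a + b := by decide
      by_cases hne : p = p0
      · subst hne
        rw [G3_update_self w h h' hp c, M3_update_self w h h' hp c, ci1 w _ _ rfl]
        have e2 : (fun q => h q + w q p + h' q) = fun q => h q + h' q + w q p := by
          ext q; ring
        rw [e2]
        exact key _ _ _
      · rw [G3_update_ne w h h' hp hp0 hne c, M3_update_ne w h h' hp hp0 hne c,
          ih (P.erase p) (by rw [card_erase_of_mem hp, hP]; rfl)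
            (mem_erase.2 ⟨fun h => hne h.symm, hp0⟩)]
        exact key _ _ _
    have fin : G3 w h h' P p0 + D P (M3 w h h' P p0) = 0 := by
      rw [reduce (P := P) (fun h => G3 w h h' P p0 + D P (M3 w h h' P p0))
        (fun h p hp c => inv h p hp c) h]
      show G3 w (fun q => if q ∈ P then 0 else h q) h' P p0 +
        D P (M3 w (fun q => if q ∈ P then 0 else h q) h' P p0) = 0
      have e2 : G3 w (fun q => if q ∈ P then 0 else h q) h' P p0 = 0 := by
        unfold G3
        refine sum_eq_zero fun J hJ => ?_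
        rw [mem_filter, mem_powerset] at hJ
        rw [FF_zero w ⟨p0, hJ.2⟩ fun p hp => if_pos (hJ.1 hp), zero_mul]
      have e1 : D P (M3 w (fun q => if q ∈ P then 0 else h q) h' P p0) = 0 := by
        unfold D
        refine det_eq_zero_of_column_eq_zero ⟨p0, hp0⟩ fun i => ?_
        show M3 w (fun q => if q ∈ P then 0 else h q) h' P p0 i.1 p0 = 0
        unfold M3
        rw [if_pos rfl]
        exact if_pos i.2
      rw [e1, e2, add_zero]
    have : ∀ a b : ZMod 2, a + b = 0 → a = b := by decide
    exact this _ _ fin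

end CI

open Finset Matrix

/-- **CI1** -/
theorem t_CI1 : S_CI1 := by
  intro w h h' P
  have h1 := CI.ci1 w _ P rfl h h'
  unfold CI.GG CI.FF at h1
  rw [CI.perm_eq, ← h1]
  refine Finset.sum_congr rfl fun J _ => ?_
  rw [CI.perm_eq, CI.perm_eq]

/-- **CI3** -/
theorem t_CI3 : S_CI3 := by
  intro w h h' P p0 hp0
  have h1 := CI.ci3 w p0 _ P rfl hp0 h h'
  unfold CI.G3 CI.FF CI.M3 at h1
  rw [CI.perm_eq]
  refine Eq.trans ?_ (h1.trans ?_)
  · refine Finset.sum_congr rfl fun J _ => ?_
    rw [CI.perm_eq, CI.perm_eq]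
  · rfl

end Pool.Agent.NH1
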