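import Mathlib
import Pool.Agent.NH1.CI

/-!
# Project NH1: permanents modulo two, expansion along a row of a Laplacian
-/

set_option autoImplicit false
set_option linter.all false

namespace Pool.Agent.NH1

namespace PM

open Finset Matrix

/-- the permanent as a determinant -/
theorem pd {R C : Finset ℕ} (e : R ≃ C) (M : ℕ → ℕ → ZMod 2) :
    perm2 R C M = (Matrix.of fun p q : R => M p.1 (e q).1).det := by
  classical
  unfold perm2
  rw [← det_transpose, det_apply']
  refine Fintype.sum_equiv (Equiv.equivCongr (Equiv.refl R) e.symm) _ _ fun σ => ?_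
  rw [CI.sgn, one_mul]
  refine prod_congr rfl fun p _ => ?_
  rw [transpose_apply, of_apply]
  congr 1
  simp

theorem pm_card {R C : Finset ℕ} (M : ℕ → ℕ → ZMod 2) (h : R.card ≠ C.card) : perm2 R C M = 0 := by
  classical
  unfold perm2
  have : IsEmpty (R ≃ C) := ⟨fun e => h (by
    have := Fintype.card_congr e
    simpa using this)⟩
  exact Fintype.sum_empty _

theorem exists_equiv {R C : Finset ℕ} (h : R.card = C.card) : Nonempty (R ≃ C) :=
  Fintype.card_eq.1 (by simpa using h)

theorem exists_equiv' {R C : Finset ℕ} (h : R.card = C.card) {r c : ℕ} (hr : r ∈ R) (hc : c ∈ C) :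
    ∃ e : R ≃ C, e ⟨r, hr⟩ = ⟨c, hc⟩ := by
  obtain ⟨e⟩ := exists_equiv h
  refine ⟨e.trans (Equiv.swap (e ⟨r, hr⟩) ⟨c, hc⟩), ?_⟩
  simp

theorem pm_congr {R C : Finset ℕ} {M M' : ℕ → ℕ → ZMod 2}
    (h : ∀ p ∈ R, ∀ q ∈ C, M p q = M' p q) : perm2 R C M = perm2 R C M' := by
  classical
  unfold perm2
  refine sum_congr rfl fun σ _ => prod_congr rfl fun p _ => ?_
  exact h p.1 p.2 _ (σ p).2

theorem pm_empty (M : ℕ → ℕ → ZMod 2) : perm2 ∅ ∅ M = 1 := by
  rw [CI.perm_eq]
  unfold CI.D
  exact det_isEmpty

/-- a row which is a linear combination -/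
theorem pm_rows {R C : Finset ℕ} {M : ℕ → ℕ → ZMod 2} {r : ℕ} (hr : r ∈ R) {α : Type}
    (T : Finset α) (c : α → ZMod 2) (v : α → ℕ → ZMod 2)
    (h : ∀ t ∈ C, M r t = ∑ a ∈ T, c a * v a t) :
    perm2 R C M = ∑ a ∈ T, c a * perm2 R C (fun p t => if p = r then v a t else M p t) := by
  classical
  unfold perm2
  simp_rw [mul_sum]
  rw [sum_comm]
  refine sum_congr rfl fun σ _ => ?_
  rw [← mul_prod_erase univ _ (mem_univ (⟨r, hr⟩ : R)), h _ (σ ⟨r, hr⟩).2, sum_mul]
  refine sum_congr rfl fun a _ => ?_
  rw [← mul_prod_erase univ _ (mem_univ (⟨r, hr⟩ : R)), if_pos rfl, mul_assoc]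
  congr 2
  refine prod_congr rfl fun p hp => ?_
  rw [if_neg]
  intro hpr
  exact (mem_erase.1 hp).1 (Subtype.ext hpr)

/-- a unit row -/
theorem pm_unit {R C : Finset ℕ} {M : ℕ → ℕ → ZMod 2} {r c : ℕ} (hr : r ∈ R) (hc : c ∈ C)
    (h : ∀ t ∈ C, M r t = if t = c then 1 else 0) :
    perm2 R C M = perm2 (R.erase r) (C.erase c) M := by
  classical
  by_cases hcard : R.card = C.card
  · obtain ⟨e, he⟩ := exists_equiv' hcard hr hc
    let e' : {i : R // i ≠ ⟨r, hr⟩} ≃ {i // i ∈ R.erase r} :=
      { toFun := fun i => ⟨i.1.1, mem_erase.2 ⟨fun h => i.2 (Subtype.ext h), i.1.2⟩⟩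
        invFun := fun i => ⟨⟨i.1, (mem_erase.1 i.2).2⟩, fun h =>
          (mem_erase.1 i.2).1 (congrArg Subtype.val h)⟩
        left_inv := fun i => rfl
        right_inv := fun i => rfl }
    let f : (R.erase r : Finset ℕ) ≃ (C.erase c : Finset ℕ) :=
      { toFun := fun i => ⟨(e ⟨i.1, (mem_erase.1 i.2).2⟩).1, mem_erase.2 ⟨fun h => by
          have h1 : e ⟨i.1, (mem_erase.1 i.2).2⟩ = e ⟨r, hr⟩ := by
            rw [he]
            exact Subtype.ext h
          exact (mem_erase.1 i.2).1 (congrArg Subtype.val (e.injective h1)), (e _).2⟩⟩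
        invFun := fun i => ⟨(e.symm ⟨i.1, (mem_erase.1 i.2).2⟩).1, mem_erase.2 ⟨fun h => by
          have h1 : e.symm ⟨i.1, (mem_erase.1 i.2).2⟩ = ⟨r, hr⟩ := Subtype.ext h
          rw [Equiv.symm_apply_eq, he] at h1
          exact (mem_erase.1 i.2).1 (congrArg Subtype.val h1), (e.symm _).2⟩⟩
        left_inv := fun i => by
          apply Subtype.ext
          simp
        right_inv := fun i => by
          apply Subtype.ext
          simp }
    rw [pd e, pd f]
    set A : Matrix R R (ZMod 2) := Matrix.of fun p q : R => M p.1 (e q).1 with hA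
    rw [twoBlockTriangular_det A (fun i => i ≠ ⟨r, hr⟩) (by
      intro i hi j hj
      have hi' : i = ⟨r, hr⟩ := not_not.1 hi
      rw [hi']
      show M r (e j).1 = 0
      rw [h _ (e j).2, if_neg]
      intro hjp
      apply hj
      apply e.injective
      rw [he]
      exact Subtype.ext hjp)]
    have h1 : (toSquareBlockProp A fun i => ¬ i ≠ ⟨r, hr⟩).det = 1 := by
      have : Unique {i : R // ¬ i ≠ ⟨r, hr⟩} := ⟨⟨⟨⟨r, hr⟩, fun h => h rfl⟩⟩, fun i =>
        Subtype.ext (not_not.1 i.2)⟩
      rw [det_unique]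
      show M (this.default.1 : R).1 (e (this.default.1 : R)).1 = 1
      have e1 : (this.default.1 : R) = ⟨r, hr⟩ := not_not.1 this.default.2
      rw [e1, he, h c hc, if_pos rfl]
    rw [h1, mul_one, ← det_submatrix_equiv_self e'.symm]
    rfl
  · rw [pm_card _ hcard, pm_card]
    rw [card_erase_of_mem hr, card_erase_of_mem hc]
    have h1 := card_pos.2 ⟨r, hr⟩
    have h2 := card_pos.2 ⟨c, hc⟩
    omega

/-- adding a column to another one -/
theorem pm_col {R C : Finset ℕ} {M M1 : ℕ → ℕ → ZMod 2} {c c0 : ℕ} (hc : c ∈ C) (hc0 : c0 ∈ C)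
    (hne : c0 ≠ c) (h0 : ∀ q ∈ R, ∀ t ∈ C, t ≠ c0 → M1 q t = M q t)
    (h : ∀ q ∈ R, M1 q c0 = M q c0 + M q c) : perm2 R C M1 = perm2 R C M := by
  classical
  by_cases hcard : R.card = C.card
  · obtain ⟨e⟩ := exists_equiv hcard
    rw [pd e, pd e]
    set A : Matrix R R (ZMod 2) := Matrix.of fun p q : R => M p.1 (e q).1 with hA
    have hne' : e.symm ⟨c0, hc0⟩ ≠ e.symm ⟨c, hc⟩ := fun h =>
      hne (congrArg Subtype.val (e.symm.injective h))
    rw [← det_updateCol_add_self A hne']
    congr 1
    ext i j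
    by_cases hj : j = e.symm ⟨c0, hc0⟩
    · rw [hj, updateCol_self, hA]
      simp only [of_apply, Equiv.apply_symm_apply]
      exact h i.1 i.2
    · rw [updateCol_ne hj]
      refine h0 i.1 i.2 (e j).1 (e j).2 fun h => hj ?_
      rw [Equiv.eq_symm_apply]
      exact Subtype.ext h
  · rw [pm_card _ hcard, pm_card _ hcard]

theorem mem_S {X : Finset ℕ} {p : ℕ} : p ∈ sS X ↔ p ∈ X ∧ sq2 p ∧ sq7 p := by
  unfold sS; rw [mem_filter]

theorem mem_I {X : Finset ℕ} {p : ℕ} : p ∈ sI X ↔ p ∈ X ∧ ¬ sq2 p ∧ ¬ sq7 p := by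
  unfold sI; rw [mem_filter]

theorem mem_A {X : Finset ℕ} {p : ℕ} : p ∈ sA X ↔ p ∈ X ∧ sq2 p ∧ ¬ sq7 p := by
  unfold sA; rw [mem_filter]

theorem mem_B {X : Finset ℕ} {p : ℕ} : p ∈ sB X ↔ p ∈ X ∧ ¬ sq2 p ∧ sq7 p := by
  unfold sB; rw [mem_filter]

theorem sS_erase (X : Finset ℕ) (p : ℕ) : sS (X.erase p) = (sS X).erase p := by
  ext x; rw [mem_S, mem_erase, mem_erase, mem_S]; tauto

theorem sI_erase (X : Finset ℕ) (p : ℕ) : sI (X.erase p) = (sI X).erase p := by
  ext x; rw [mem_I, mem_erase, mem_erase, mem_I]; tauto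

theorem sA_erase (X : Finset ℕ) (p : ℕ) : sA (X.erase p) = (sA X).erase p := by
  ext x; rw [mem_A, mem_erase, mem_erase, mem_A]; tauto

theorem sB_erase (X : Finset ℕ) (p : ℕ) : sB (X.erase p) = (sB X).erase p := by
  ext x; rw [mem_B, mem_erase, mem_erase, mem_B]; tauto

/-- the determinant with general weights -/
noncomputable def E (w : ℕ → ℕ → ZMod 2) (h : ℕ → ZMod 2) (X : Finset ℕ) : ZMod 2 :=
  perm2 (sS X ∪ sB X) (sS X ∪ sA X) (Lp w h X)

theorem E_eq (h : ℕ → ZMod 2) (X : Finset ℕ) : E lg h X = DD h X := rfl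

theorem diag_mem {X : Finset ℕ} {p : ℕ} (h1 : p ∈ sS X ∪ sB X) (h2 : p ∈ sS X ∪ sA X) :
    p ∈ sS X := by
  rw [mem_union, mem_S, mem_B] at h1
  rw [mem_union, mem_S, mem_A] at h2
  rw [mem_S]
  tauto

theorem E_congr {w w' : ℕ → ℕ → ZMod 2} {h h' : ℕ → ZMod 2} {X : Finset ℕ}
    (e : ∀ p ∈ X, ∀ q ∈ X, p ≠ q → w p q = w' p q) (e' : ∀ p ∈ sS X, h p = h' p) :
    E w h X = E w' h' X := by
  unfold E
  refine pm_congr fun p hp q hq => ?_
  have hpX : p ∈ X := by
    rw [mem_union, mem_S, mem_B] at hp
    tauto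
  have hqX : q ∈ X := by
    rw [mem_union, mem_S, mem_A] at hq
    tauto
  unfold Lp
  split_ifs with hpq
  · rw [e' p (diag_mem hp (hpq ▸ hq))]
    congr 1
    refine sum_congr rfl fun t ht => ?_
    rw [mem_erase] at ht
    exact e p hpX t ht.2 fun h => ht.1 h.symm
  · exact e p hpX q hqX hpq

theorem E_empty (w : ℕ → ℕ → ZMod 2) (h : ℕ → ZMod 2) : E w h ∅ = 1 := by
  unfold E
  have h1 : sS ∅ ∪ sB ∅ = ∅ := by decide
  have h2 : sS ∅ ∪ sA ∅ = ∅ := by decide
  rw [h1, h2, pm_empty]

/-- merging `p` into `t` -/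
def mg (w : ℕ → ℕ → ZMod 2) (p t : ℕ) : ℕ → ℕ → ZMod 2 :=
  fun q s => if s = t then w q t + w q p else w q s

/-- the diagonal entry after the removal of `p` -/
theorem diag_mg (w : ℕ → ℕ → ZMod 2) {X : Finset ℕ} {p t q : ℕ} (hp : p ∈ X) (ht : t ∈ X)
    (htp : t ≠ p) (hq : q ≠ p) (hqt : q ≠ t) :
    ∑ s ∈ X.erase q, w q s = ∑ s ∈ (X.erase p).erase q, mg w p t q s := by
  have h1 : X.erase q = insert p ((X.erase p).erase q) := by
    ext x
    rw [mem_erase, mem_insert, mem_erase, mem_erase]
    constructor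
    · rintro ⟨a, b⟩
      by_cases hx : x = p
      · exact Or.inl hx
      · exact Or.inr ⟨a, hx, b⟩
    · rintro (rfl | ⟨a, b, c⟩)
      · exact ⟨fun h => hq h.symm, hp⟩
      · exact ⟨a, c⟩
  have hpn : p ∉ (X.erase p).erase q := by
    rw [mem_erase, mem_erase]
    tauto
  have htm : t ∈ (X.erase p).erase q := by
    rw [mem_erase, mem_erase]
    exact ⟨fun h => hqt h.symm, htp, ht⟩
  rw [h1, sum_insert hpn, ← add_sum_erase _ _ htm, ← add_sum_erase _ _ htm]
  unfold mg
  rw [if_pos rfl]
  have h2 : ∑ s ∈ ((X.erase p).erase q).erase t, (if s = t then w q t + w q p else w q s) =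
      ∑ s ∈ ((X.erase p).erase q).erase t, w q s := by
    refine sum_congr rfl fun s hs => ?_
    rw [if_neg (mem_erase.1 hs).1]
  rw [h2]
  ring

theorem diag_mg' (w : ℕ → ℕ → ZMod 2) {X : Finset ℕ} {p t : ℕ} (hp : p ∈ X) (ht : t ∈ X)
    (htp : t ≠ p) :
    ∑ s ∈ X.erase t, w t s = w t p + ∑ s ∈ (X.erase p).erase t, mg w p t t s := by
  have h1 : X.erase t = insert p ((X.erase p).erase t) := by
    ext x
    rw [mem_erase, mem_insert, mem_erase, mem_erase]
    constructor
    · rintro ⟨a, b⟩
      by_cases hx : x = p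
      · exact Or.inl hx
      · exact Or.inr ⟨a, hx, b⟩
    · rintro (rfl | ⟨a, b, c⟩)
      · exact ⟨fun h => htp h.symm, hp⟩
      · exact ⟨a, c⟩
  have hpn : p ∉ (X.erase p).erase t := by
    rw [mem_erase, mem_erase]
    tauto
  rw [h1, sum_insert hpn]
  congr 1
  refine sum_congr rfl fun s hs => ?_
  unfold mg
  rw [if_neg (mem_erase.1 hs).1]

/-- **the expansion along the row `p` of type `S`** -/
theorem expand (w : ℕ → ℕ → ZMod 2) (h : ℕ → ZMod 2) {X : Finset ℕ} {p : ℕ} (hp : p ∈ sS X) :
    E w h X = h p * E w (fun q => h q + w q p) (X.erase p) +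
      ∑ t ∈ X.erase p, w p t * E (mg w p t) h (X.erase p) := by
  classical
  have hpX : p ∈ X := (mem_S.1 hp).1
  have hpA : p ∉ sA X := fun h => (mem_A.1 h).2.2 (mem_S.1 hp).2.2
  have hpB : p ∉ sB X := fun h => (mem_B.1 h).2.1 (mem_S.1 hp).2.1
  have hpR : p ∈ sS X ∪ sB X := mem_union_left _ hp
  have hpC : p ∈ sS X ∪ sA X := mem_union_left _ hp
  have hR : (sS X ∪ sB X).erase p = sS (X.erase p) ∪ sB (X.erase p) := by
    rw [sS_erase, sB_erase, erase_union_distrib]
  have hC : (sS X ∪ sA X).erase p = sS (X.erase p) ∪ sA (X.erase p) := by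
    rw [sS_erase, sA_erase, erase_union_distrib]
  -- the unit vectors
  let v : Option ℕ → ℕ → ZMod 2 := fun o s => (if s = p then 1 else 0) +
    (match o with
      | none => 0
      | some t => if s = t then 1 else 0)
  let c : Option ℕ → ZMod 2 := fun o => match o with
      | none => h p
      | some t => w p t
  have hrow : ∀ s ∈ sS X ∪ sA X, Lp w h X p s = ∑ a ∈ insertNone (X.erase p), c a * v a s := by
    intro s hs
    have hsX : s ∈ X := by
      rw [mem_union, mem_S, mem_A] at hs
      tauto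
    rw [sum_insertNone]
    show _ = h p * ((if s = p then 1 else 0) + 0) +
      ∑ t ∈ X.erase p, w p t * ((if s = p then 1 else 0) + if s = t then 1 else 0)
    unfold Lp
    by_cases e : p = s
    · subst e
      rw [if_pos rfl, if_pos rfl, add_zero, mul_one]
      congr 1
      refine sum_congr rfl fun t ht => ?_
      rw [if_neg (fun h => (mem_erase.1 ht).1 h.symm), add_zero, mul_one]
    · rw [if_neg e, if_neg (fun h => e h.symm), add_zero, mul_zero, zero_add]
      rw [sum_eq_single s]
      · rw [if_pos rfl, zero_add, mul_one]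
      · intro t _ hts
        rw [if_neg (fun h => hts h.symm), add_zero, mul_zero]
      · intro hn
        exact absurd (mem_erase.2 ⟨fun h => e h.symm, hsX⟩) hn
  unfold E
  rw [pm_rows hpR (insertNone (X.erase p)) c v hrow, sum_insertNone]
  show h p * _ + ∑ t ∈ X.erase p, w p t * _ = _
  congr 1
  · congr 1
    rw [pm_unit hpR hpC, hR, hC]
    · refine pm_congr fun q hq s hs => ?_
      rw [← hR, mem_erase] at hq
      rw [if_neg hq.1]
      have hqX : q ∈ X := by
        have := hq.2
        rw [mem_union, mem_S, mem_B] at this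
        tauto
      exact CI.Lp_erase w h hpX (mem_erase.2 ⟨hq.1, hqX⟩)
    · intro s _
      rw [if_pos rfl]
      show (if s = p then 1 else 0) + 0 = _
      rw [add_zero]
  · refine sum_congr rfl fun t ht => ?_
    rw [mem_erase] at ht
    congr 1
    by_cases htC : t ∈ sS X ∪ sA X
    · -- `t` is a column
      rw [← pm_col (M1 := fun q s => if s = t then (if q = p then 0 else Lp w h X q t + w q p)
        else if q = p then (if s = p then 1 else 0) else Lp w h X q s) hpC htC ht.1 ?_ ?_]
      · rw [pm_unit hpR hpC, hR, hC]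
        · refine pm_congr fun q hq s hs => ?_
          rw [← hR, mem_erase] at hq
          rw [← hC, mem_erase] at hs
          rw [if_neg hq.1, if_neg hq.1]
          have hqX : q ∈ X := by
            have := hq.2
            rw [mem_union, mem_S, mem_B] at this
            tauto
          by_cases est : s = t
          · rw [if_pos est, est]
            unfold Lp
            by_cases eqt : q = t
            · rw [if_pos eqt, if_pos eqt, eqt, diag_mg' w hpX ht.2 ht.1]
              have : ∀ a b c : ZMod 2, a + (b + c) + b = a + c := by decide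
              exact this _ _ _
            · rw [if_neg eqt, if_neg eqt]
              unfold mg
              rw [if_pos rfl]
          · rw [if_neg est]
            unfold Lp
            by_cases eqs : q = s
            · rw [if_pos eqs, if_pos eqs]
              have hqt : q ≠ t := fun h => est (eqs.symm.trans h)
              rw [diag_mg w hpX ht.2 ht.1 hq.1 hqt]
            · rw [if_neg eqs, if_neg eqs]
              unfold mg
              rw [if_neg est]
        · intro s _
          by_cases est : s = t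
          · rw [if_pos est, if_pos rfl, if_neg]
            rw [est]
            exact ht.1
          · rw [if_neg est, if_pos rfl]
      · intro q hq s hs hst
        show (if s = t then _ else if q = p then (if s = p then 1 else 0) else Lp w h X q s) =
          if q = p then (if s = p then 1 else 0) + (if s = t then 1 else 0) else Lp w h X q s
        rw [if_neg hst, if_neg hst, add_zero]
      · intro q hq
        show (if t = t then (if q = p then 0 else Lp w h X q t + w q p) else _) =
          (if q = p then (if t = p then 1 else 0) + (if t = t then 1 else 0) else Lp w h X q t) +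
          (if q = p then (if p = p then 1 else 0) + (if p = t then 1 else 0) else Lp w h X q p)
        rw [if_pos rfl]
        by_cases e : q = p
        · rw [if_pos e, if_pos e, if_pos e, if_neg ht.1, if_pos rfl, if_pos rfl,
            if_neg (fun h => ht.1 h.symm)]
          decide
        · rw [if_neg e, if_neg e, if_neg e]
          congr 1
          unfold Lp
          rw [if_neg e]
    · -- `t` is not a column
      rw [pm_unit hpR hpC, hR, hC]
      · refine pm_congr fun q hq s hs => ?_
        rw [← hR, mem_erase] at hq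
        rw [← hC, mem_erase] at hs
        rw [if_neg hq.1]
        have hst : s ≠ t := fun h => htC (h ▸ hs.2)
        unfold Lp
        by_cases eqs : q = s
        · rw [if_pos eqs, if_pos eqs]
          have hqt : q ≠ t := fun h => hst (eqs.symm.trans h)
          rw [diag_mg w hpX ht.2 ht.1 hq.1 hqt]
        · rw [if_neg eqs, if_neg eqs]
          unfold mg
          rw [if_neg hst]
      · intro s hs
        rw [if_pos rfl]
        show (if s = p then 1 else 0) + (if s = t then 1 else 0) = _
        have hst : s ≠ t := fun h => htC (h ▸ hs)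
        rw [if_neg hst, add_zero]

/-- the expansion along a row of type `B`, if there is no prime of type `S` -/
theorem expandB (w : ℕ → ℕ → ZMod 2) (h : ℕ → ZMod 2) {X : Finset ℕ} {b : ℕ} (hS : sS X = ∅)
    (hb : b ∈ sB X) : E w h X = ∑ a ∈ sA X, w b a * E w h ((X.erase a).erase b) := by
  classical
  have hbR : b ∈ sS X ∪ sB X := mem_union_right _ hb
  unfold E
  rw [pm_rows (M := Lp w h X) hbR (sA X) (fun a => w b a) (fun a s => if s = a then 1 else 0)]
  · refine sum_congr rfl fun a ha => ?_
    have haC : a ∈ sS X ∪ sA X := mem_union_right _ ha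
    congr 1
    rw [pm_unit hbR haC (fun t _ => by rw [if_pos rfl])]
    have hba : b ≠ a := by
      rintro rfl
      exact (mem_A.1 ha).2.2 (mem_B.1 hb).2.2
    have hR : (sS X ∪ sB X).erase b = sS ((X.erase a).erase b) ∪ sB ((X.erase a).erase b) := by
      rw [sS_erase, sB_erase, sS_erase, sB_erase, hS]
      ext x
      simp only [mem_erase, mem_union, notMem_empty, false_or, and_false]
      constructor
      · rintro ⟨h1, h2⟩
        refine ⟨h1, ?_, h2⟩
        rintro rfl
        exact (mem_A.1 ha).2.2 (mem_B.1 h2).2.2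
      · rintro ⟨h1, -, h2⟩
        exact ⟨h1, h2⟩
    have hC : (sS X ∪ sA X).erase a = sS ((X.erase a).erase b) ∪ sA ((X.erase a).erase b) := by
      rw [sS_erase, sA_erase, sS_erase, sA_erase, hS]
      ext x
      simp only [mem_erase, mem_union, notMem_empty, false_or, and_false]
      constructor
      · rintro ⟨h1, h2⟩
        refine ⟨?_, h1, h2⟩
        rintro rfl
        exact (mem_A.1 h2).2.2 (mem_B.1 hb).2.2
      · rintro ⟨-, h1, h2⟩
        exact ⟨h1, h2⟩
    rw [hR, hC]
    refine pm_congr fun q hq s hs => ?_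
    rw [← hR, mem_erase] at hq
    rw [← hC, mem_erase] at hs
    rw [if_neg hq.1]
    have hqs : q ≠ s := by
      rintro rfl
      have := diag_mem hq.2 hs.2
      rw [hS] at this
      exact notMem_empty _ this
    unfold Lp
    rw [if_neg hqs, if_neg hqs]
  · intro t ht
    have htA : t ∈ sA X := by
      rw [hS, empty_union] at ht
      exact ht
    have hbt : b ≠ t := by
      rintro rfl
      exact (mem_A.1 htA).2.2 (mem_B.1 hb).2.2
    unfold Lp
    rw [if_neg hbt, sum_eq_single t]
    · rw [if_pos rfl, mul_one]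
    · intro s _ hst
      rw [if_neg (fun h => hst h.symm), mul_zero]
    · intro hn
      exact absurd htA hn

end PM

end Pool.Agent.NH1
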