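import Mathlib
import Pool.Agent.NH1.PM

/-!
# Project NH1: the key lemma, the sum over the sets containing a given set
-/

set_option autoImplicit false
set_option linter.all false

namespace Pool.Agent.NH1

namespace PM

open Finset Matrix

/-- expansion for `insert p X` -/
theorem expand_ins (w : ℕ → ℕ → ZMod 2) (h : ℕ → ZMod 2) {X : Finset ℕ} {p : ℕ} (hp : p ∉ X)
    (h2 : sq2 p) (h7 : sq7 p) :
    E w h (insert p X) = h p * E w (fun q => h q + w q p) X + ∑ t ∈ X, w p t * E (mg w p t) h X := by
  have := expand w h (X := insert p X) (p := p) (mem_S.2 ⟨mem_insert_self _ _, h2, h7⟩)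
  rwa [erase_insert hp] at this

theorem E_mg (w : ℕ → ℕ → ZMod 2) (h : ℕ → ZMod 2) {X : Finset ℕ} {p t : ℕ} (ht : t ∉ X) :
    E (mg w p t) h X = E w h X := by
  refine E_congr (fun q _ s hs _ => ?_) fun _ _ => rfl
  unfold mg
  rw [if_neg (fun e : s = t => ht (e ▸ hs))]

/-- the sum over the sets containing `U` -/
noncomputable def Psi (w : ℕ → ℕ → ZMod 2) (h h' : ℕ → ZMod 2) (N U : Finset ℕ) : ZMod 2 :=
  ∑ P ∈ N.powerset, if U ⊆ P then E w h P * E w h' (N \ P) else 0

theorem two_mul_zero (x : ZMod 2) : x + x = 0 := CharTwo.add_self_eq_zero x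

theorem Psi_S_out (w : ℕ → ℕ → ZMod 2) (h h' : ℕ → ZMod 2) {N U : Finset ℕ} {p : ℕ} (hp : p ∉ N)
    (h2 : sq2 p) (h7 : sq7 p) (hU : p ∉ U) :
    Psi w h h' (insert p N) U = h p * Psi w (fun q => h q + w q p) h' N U +
      h' p * Psi w h (fun q => h' q + w q p) N U + ∑ t ∈ N, w p t * Psi (mg w p t) h h' N U := by
  unfold Psi
  rw [sum_powerset_insert hp, ← sum_add_distrib]
  simp_rw [mul_sum]
  rw [sum_comm, ← sum_add_distrib, ← sum_add_distrib]
  refine sum_congr rfl fun P hP => ?_
  rw [mem_powerset] at hP
  have hpP : p ∉ P := fun h => hp (hP h)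
  have e1 : insert p N \ P = insert p (N \ P) := insert_sdiff_of_notMem _ hpP
  have e2 : insert p N \ insert p P = N \ P := by
    ext x
    rw [mem_sdiff, mem_sdiff, mem_insert, mem_insert]
    constructor
    · rintro ⟨rfl | a, b⟩
      · exact absurd (Or.inl rfl) b
      · exact ⟨a, fun c => b (Or.inr c)⟩
    · rintro ⟨a, b⟩
      refine ⟨Or.inr a, ?_⟩
      rintro (rfl | c)
      · exact hp a
      · exact b c
  have e3 : U ⊆ insert p P ↔ U ⊆ P := subset_insert_iff_of_notMem hU
  have hpD : p ∉ N \ P := fun h => hp (mem_sdiff.1 h).1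
  rw [e1, e2]
  simp only [e3]
  by_cases hUP : U ⊆ P
  · simp only [if_pos hUP]
    rw [expand_ins w h' hpD h2 h7, expand_ins w h hpP h2 h7]
    have key : ∑ t ∈ N, w p t * (E (mg w p t) h P * E (mg w p t) h' (N \ P)) =
        (∑ t ∈ P, w p t * E (mg w p t) h P) * E w h' (N \ P) +
        E w h P * ∑ t ∈ N \ P, w p t * E (mg w p t) h' (N \ P) := by
      rw [← sum_sdiff hP, add_comm, sum_mul, mul_sum]
      congr 1
      · refine sum_congr rfl fun t ht => ?_
        rw [E_mg w h' (fun h => (mem_sdiff.1 h).2 ht)]
        ring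
      · refine sum_congr rfl fun t ht => ?_
        rw [E_mg w h (fun h => (mem_sdiff.1 ht).2 h)]
        ring
    rw [key]
    ring
  · simp only [if_neg hUP]
    simp

theorem Psi_S_in (w : ℕ → ℕ → ZMod 2) (h h' : ℕ → ZMod 2) {N U : Finset ℕ} {p : ℕ} (hp : p ∉ N)
    (h2 : sq2 p) (h7 : sq7 p) (hU : p ∈ U) :
    Psi w h h' (insert p N) U = h p * Psi w (fun q => h q + w q p) h' N (U.erase p) +
      ∑ t ∈ N, w p t * Psi (mg w p t) h h' N (insert t (U.erase p)) := by
  unfold Psi
  rw [sum_powerset_insert hp, ← sum_add_distrib]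
  simp_rw [mul_sum]
  rw [sum_comm, ← sum_add_distrib]
  refine sum_congr rfl fun P hP => ?_
  rw [mem_powerset] at hP
  have hpP : p ∉ P := fun h => hp (hP h)
  have e2 : insert p N \ insert p P = N \ P := by
    ext x
    rw [mem_sdiff, mem_sdiff, mem_insert, mem_insert]
    constructor
    · rintro ⟨rfl | a, b⟩
      · exact absurd (Or.inl rfl) b
      · exact ⟨a, fun c => b (Or.inr c)⟩
    · rintro ⟨a, b⟩
      refine ⟨Or.inr a, ?_⟩
      rintro (rfl | c)
      · exact hp a
      · exact b c
  have e3 : U ⊆ insert p P ↔ U.erase p ⊆ P := subset_insert_iff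
  have e4 : ¬ U ⊆ P := fun h => hpP (h hU)
  rw [if_neg e4, zero_add, e2]
  simp only [e3]
  by_cases hUP : U.erase p ⊆ P
  · simp only [if_pos hUP]
    rw [expand_ins w h hpP h2 h7]
    have key : ∑ t ∈ N, w p t * (if insert t (U.erase p) ⊆ P then
        E (mg w p t) h P * E (mg w p t) h' (N \ P) else 0) =
        (∑ t ∈ P, w p t * E (mg w p t) h P) * E w h' (N \ P) := by
      rw [← sum_sdiff hP, sum_eq_zero, zero_add, sum_mul]
      · refine sum_congr rfl fun t ht => ?_
        rw [E_mg w h' (fun h => (mem_sdiff.1 h).2 ht), if_pos (insert_subset ht hUP)]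
        ring
      · intro t ht
        rw [if_neg, mul_zero]
        intro h
        exact (mem_sdiff.1 ht).2 (h (mem_insert_self _ _))
    rw [key]
    ring
  · simp only [if_neg hUP]
    rw [sum_eq_zero]
    · simp
    · intro t ht
      rw [if_neg, mul_zero]
      intro h
      exact hUP ((subset_insert _ _).trans h)

/-- the bijection of the subsets containing `a`, `b` -/
theorem Psi_B (w : ℕ → ℕ → ZMod 2) (h h' : ℕ → ZMod 2) {N U : Finset ℕ} {b : ℕ}
    (hS : sS N = ∅) (hb : b ∈ sB N) :
    Psi w h h' N U = ∑ a ∈ sA N, w b a * (if a ∈ U ∨ b ∈ U then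
      Psi w h h' ((N.erase a).erase b) ((U.erase a).erase b) else 0) := by
  have hbN : b ∈ N := (mem_B.1 hb).1
  have step : ∀ P ∈ N.powerset, (if U ⊆ P then E w h P * E w h' (N \ P) else 0) =
      ∑ a ∈ sA N, w b a * (if U ⊆ P then
        (if a ∈ P ∧ b ∈ P then E w h ((P.erase a).erase b) * E w h' (N \ P) else 0) +
        (if a ∉ P ∧ b ∉ P then E w h P * E w h' (((N \ P).erase a).erase b) else 0) else 0) := by
    intro P hP
    rw [mem_powerset] at hP
    by_cases hUP : U ⊆ P
    · simp only [if_pos hUP]
      have hSP : sS P = ∅ := by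
        rw [eq_empty_iff_forall_notMem]
        intro x hx
        have : x ∈ sS N := mem_S.2 ⟨hP (mem_S.1 hx).1, (mem_S.1 hx).2⟩
        rw [hS] at this
        exact notMem_empty _ this
      have hSD : sS (N \ P) = ∅ := by
        rw [eq_empty_iff_forall_notMem]
        intro x hx
        have : x ∈ sS N := mem_S.2 ⟨(mem_sdiff.1 (mem_S.1 hx).1).1, (mem_S.1 hx).2⟩
        rw [hS] at this
        exact notMem_empty _ this
      by_cases hbP : b ∈ P
      · rw [expandB w h hSP (mem_B.2 ⟨hbP, (mem_B.1 hb).2⟩), sum_mul]
        have : sA P = (sA N).filter (· ∈ P) := by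
          ext x
          rw [mem_filter, mem_A, mem_A]
          constructor
          · rintro ⟨h1, h2⟩
            exact ⟨⟨hP h1, h2⟩, h1⟩
          · rintro ⟨⟨-, h2⟩, h1⟩
            exact ⟨h1, h2⟩
        rw [this, sum_filter]
        refine sum_congr rfl fun a ha => ?_
        rw [if_neg (c := a ∉ P ∧ b ∉ P) (fun h => h.2 hbP), add_zero]
        by_cases haP : a ∈ P
        · rw [if_pos haP, if_pos ⟨haP, hbP⟩]
          ring
        · rw [if_neg haP, if_neg (fun h => haP h.1), mul_zero]
      · have hbD : b ∈ N \ P := mem_sdiff.2 ⟨hbN, hbP⟩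
        rw [expandB w h' hSD (mem_B.2 ⟨hbD, (mem_B.1 hb).2⟩), mul_sum]
        have : sA (N \ P) = (sA N).filter (· ∉ P) := by
          ext x
          rw [mem_filter, mem_A, mem_A, mem_sdiff]
          tauto
        rw [this, sum_filter]
        refine sum_congr rfl fun a ha => ?_
        rw [if_neg (c := a ∈ P ∧ b ∈ P) (fun h => hbP h.2), zero_add]
        by_cases haP : a ∉ P
        · rw [if_pos haP, if_pos ⟨haP, hbP⟩]
          ring
        · rw [if_neg haP, if_neg (fun h => haP h.1), mul_zero]
    · simp only [if_neg hUP]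
      simp
  unfold Psi
  rw [sum_congr rfl step, sum_comm]
  refine sum_congr rfl fun a ha => ?_
  rw [← mul_sum]
  congr 1
  have haN : a ∈ N := (mem_A.1 ha).1
  have hab : b ≠ a := by
    rintro rfl
    exact (mem_A.1 ha).2.2 (mem_B.1 hb).2.2
  set N1 := (N.erase a).erase b with hN1
  have haN1 : a ∉ N1 := by rw [hN1, mem_erase, mem_erase]; tauto
  have hbN1 : b ∉ N1 := by rw [hN1, mem_erase]; tauto
  have hN : N = insert b (insert a N1) := by
    ext x
    rw [mem_insert, mem_insert, hN1, mem_erase, mem_erase]
    constructor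
    · intro hx
      by_cases h1 : x = b
      · exact Or.inl h1
      · by_cases h2 : x = a
        · exact Or.inr (Or.inl h2)
        · exact Or.inr (Or.inr ⟨h1, h2, hx⟩)
    · rintro (rfl | rfl | ⟨-, -, hx⟩)
      · exact hbN
      · exact haN
      · exact hx
  have hbaN1 : b ∉ insert a N1 := by
    rw [mem_insert]
    tauto
  rw [hN, sum_powerset_insert hbaN1, sum_powerset_insert haN1, sum_powerset_insert haN1]
  -- the four sums
  have z1 : ∀ P ∈ N1.powerset, (if U ⊆ insert a P then
        (if a ∈ insert a P ∧ b ∈ insert a P then E w h (((insert a P).erase a).erase b) *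
          E w h' (insert b (insert a N1) \ insert a P) else 0) +
        (if a ∉ insert a P ∧ b ∉ insert a P then E w h (insert a P) *
          E w h' (((insert b (insert a N1) \ insert a P).erase a).erase b) else 0) else 0) = 0 := by
    intro P hP
    rw [mem_powerset] at hP
    have h1 : b ∉ insert a P := fun h => hbaN1 (insert_subset_insert _ hP h)
    rw [if_neg (c := a ∈ insert a P ∧ b ∈ insert a P) (fun h => h1 h.2),
      if_neg (c := a ∉ insert a P ∧ b ∉ insert a P) (fun h => h.1 (mem_insert_self _ _)), add_zero,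
      ite_self]
  have z2 : ∀ P ∈ N1.powerset, (if U ⊆ insert b P then
        (if a ∈ insert b P ∧ b ∈ insert b P then E w h (((insert b P).erase a).erase b) *
          E w h' (insert b (insert a N1) \ insert b P) else 0) +
        (if a ∉ insert b P ∧ b ∉ insert b P then E w h (insert b P) *
          E w h' (((insert b (insert a N1) \ insert b P).erase a).erase b) else 0) else 0) = 0 := by
    intro P hP
    rw [mem_powerset] at hP
    have h1 : a ∉ insert b P := by
      rw [mem_insert]
      rintro (h | h)
      · exact hab h.symm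
      · exact haN1 (hP h)
    rw [if_neg (c := a ∈ insert b P ∧ b ∈ insert b P) (fun h => h1 h.1),
      if_neg (c := a ∉ insert b P ∧ b ∉ insert b P) (fun h => h.2 (mem_insert_self _ _)), add_zero,
      ite_self]
  rw [sum_eq_zero z1, sum_eq_zero z2, add_zero, zero_add, ← sum_add_distrib]
  have e4 : ∀ P ∈ N1.powerset, (if U ⊆ P then
        (if a ∈ P ∧ b ∈ P then E w h ((P.erase a).erase b) *
          E w h' (insert b (insert a N1) \ P) else 0) +
        (if a ∉ P ∧ b ∉ P then E w h P *
          E w h' (((insert b (insert a N1) \ P).erase a).erase b) else 0) else 0) =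
      if U ⊆ P then E w h P * E w h' (N1 \ P) else 0 := by
    intro P hP
    rw [mem_powerset] at hP
    have h1 : a ∉ P := fun h => haN1 (hP h)
    have h2 : b ∉ P := fun h => hbN1 (hP h)
    rw [if_neg (c := a ∈ P ∧ b ∈ P) (fun h => h1 h.1), if_pos (c := a ∉ P ∧ b ∉ P) ⟨h1, h2⟩,
      zero_add]
    have : ((insert b (insert a N1) \ P).erase a).erase b = N1 \ P := by
      ext x
      rw [mem_erase, mem_erase, mem_sdiff, mem_sdiff, mem_insert, mem_insert]
      constructor
      · rintro ⟨h3, h4, h5 | h5 | h5, h6⟩
        · exact absurd h5 h3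
        · exact absurd h5 h4
        · exact ⟨h5, h6⟩
      · rintro ⟨h3, h4⟩
        refine ⟨?_, ?_, Or.inr (Or.inr h3), h4⟩
        · rintro rfl
          exact hbN1 h3
        · rintro rfl
          exact haN1 h3
    rw [this]
  have e5 : ∀ P ∈ N1.powerset, (if U ⊆ insert b (insert a P) then
        (if a ∈ insert b (insert a P) ∧ b ∈ insert b (insert a P) then
          E w h (((insert b (insert a P)).erase a).erase b) *
          E w h' (insert b (insert a N1) \ insert b (insert a P)) else 0) +
        (if a ∉ insert b (insert a P) ∧ b ∉ insert b (insert a P) then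
          E w h (insert b (insert a P)) *
          E w h' (((insert b (insert a N1) \ insert b (insert a P)).erase a).erase b) else 0)
          else 0) =
      if (U.erase a).erase b ⊆ P then E w h P * E w h' (N1 \ P) else 0 := by
    intro P hP
    rw [mem_powerset] at hP
    have h1 : a ∈ insert b (insert a P) := mem_insert_of_mem (mem_insert_self _ _)
    have h2 : b ∈ insert b (insert a P) := mem_insert_self _ _
    rw [if_pos (c := a ∈ insert b (insert a P) ∧ b ∈ insert b (insert a P)) ⟨h1, h2⟩,
      if_neg (c := a ∉ insert b (insert a P) ∧ b ∉ insert b (insert a P)) (fun h => h.1 h1),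
      add_zero]
    have e6 : U ⊆ insert b (insert a P) ↔ (U.erase a).erase b ⊆ P := by
      rw [← subset_insert_iff, ← subset_insert_iff, insert_comm]
    have e7 : insert b (insert a N1) \ insert b (insert a P) = N1 \ P := by
      ext x
      rw [mem_sdiff, mem_sdiff, mem_insert, mem_insert, mem_insert, mem_insert]
      constructor
      · rintro ⟨h3 | h3 | h3, h4⟩
        · exact absurd (Or.inl h3) h4
        · exact absurd (Or.inr (Or.inl h3)) h4
        · exact ⟨h3, fun h => h4 (Or.inr (Or.inr h))⟩
      · rintro ⟨h3, h4⟩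
        refine ⟨Or.inr (Or.inr h3), ?_⟩
        rintro (rfl | rfl | h5)
        · exact hbN1 h3
        · exact haN1 h3
        · exact h4 h5
    have e8 : ((insert b (insert a P)).erase a).erase b = P := by
      ext x
      rw [mem_erase, mem_erase, mem_insert, mem_insert]
      constructor
      · rintro ⟨h3, h4, h5 | h5 | h5⟩
        · exact absurd h5 h3
        · exact absurd h5 h4
        · exact h5
      · intro h3
        refine ⟨?_, ?_, Or.inr (Or.inr h3)⟩
        · rintro rfl
          exact hbN1 (hP h3)
        · rintro rfl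
          exact haN1 (hP h3)
    rw [e7, e8]
    simp only [e6]
  rw [sum_add_distrib, sum_congr rfl e4, sum_congr rfl e5]
  by_cases hU : a ∈ U ∨ b ∈ U
  · rw [if_pos hU, sum_eq_zero, zero_add]
    intro P hP
    rw [mem_powerset] at hP
    rw [if_neg]
    intro hUP
    rcases hU with h1 | h1
    · exact haN1 (hP (hUP h1))
    · exact hbN1 (hP (hUP h1))
  · rw [if_neg hU]
    have : (U.erase a).erase b = U := by
      rw [erase_eq_of_notMem (fun h => hU (Or.inl h)), erase_eq_of_notMem (fun h => hU (Or.inr h))]
    rw [this]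
    exact two_mul_zero _

/-- **the key lemma** -/
theorem KL : ∀ (n : ℕ) (N : Finset ℕ), N.card = n → ∀ (w : ℕ → ℕ → ZMod 2) (h h' : ℕ → ZMod 2)
    (U : Finset ℕ), U ⊆ N → U.card < (sI N).card + (sA N).card → Psi w h h' N U = 0 := by
  intro n
  induction n using Nat.strong_induction_on with
  | _ n ih =>
  intro N hn w h h' U hUN hU
  by_cases hS : (sS N).Nonempty
  · obtain ⟨p, hp⟩ := hS
    have hp' := mem_S.1 hp
    have hpn : p ∉ N.erase p := notMem_erase _ _
    have hins : insert p (N.erase p) = N := insert_erase hp'.1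
    have hc : (N.erase p).card < n := by
      rw [card_erase_of_mem hp'.1]
      have := card_pos.2 ⟨p, hp'.1⟩
      omega
    have hI : sI (N.erase p) = sI N := by
      rw [sI_erase, erase_eq_of_notMem]
      intro h1
      exact (mem_I.1 h1).2.1 hp'.2.1
    have hA : sA (N.erase p) = sA N := by
      rw [sA_erase, erase_eq_of_notMem]
      intro h1
      exact (mem_A.1 h1).2.2 hp'.2.2
    have hU' : U.card < (sI (N.erase p)).card + (sA (N.erase p)).card := by
      rw [hI, hA]
      exact hU
    by_cases hpU : p ∈ U
    · rw [← hins, Psi_S_in w h h' hpn hp'.2.1 hp'.2.2 hpU]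
      have hs : U.erase p ⊆ N.erase p := erase_subset_erase _ hUN
      have hcard : (U.erase p).card + 1 = U.card := card_erase_add_one hpU
      rw [ih _ hc _ rfl _ _ _ _ hs (by omega), mul_zero, zero_add]
      refine sum_eq_zero fun t ht => ?_
      rw [ih _ hc _ rfl _ _ _ _ (insert_subset ht hs) (by
        have := card_insert_le t (U.erase p)
        omega), mul_zero]
    · rw [← hins, Psi_S_out w h h' hpn hp'.2.1 hp'.2.2 hpU]
      have hs : U ⊆ N.erase p := fun x hx => mem_erase.2 ⟨fun e => hpU (e ▸ hx), hUN hx⟩
      rw [ih _ hc _ rfl _ _ _ _ hs hU', ih _ hc _ rfl _ _ _ _ hs hU', mul_zero, mul_zero, zero_add,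
        zero_add]
      refine sum_eq_zero fun t ht => ?_
      rw [ih _ hc _ rfl _ _ _ _ hs hU', mul_zero]
  · rw [not_nonempty_iff_eq_empty] at hS
    by_cases hB : (sB N).Nonempty
    · obtain ⟨b, hb⟩ := hB
      rw [Psi_B w h h' hS hb]
      refine sum_eq_zero fun a ha => ?_
      by_cases hab : a ∈ U ∨ b ∈ U
      · rw [if_pos hab]
        have hba : b ≠ a := by
          rintro rfl
          exact (mem_A.1 ha).2.2 (mem_B.1 hb).2.2
        have haN := (mem_A.1 ha).1
        have hbN := (mem_B.1 hb).1
        have hc : ((N.erase a).erase b).card < n := by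
          rw [← hn]
          exact (card_le_card (erase_subset _ _)).trans_lt (card_erase_lt_of_mem haN)
        have hI : sI ((N.erase a).erase b) = sI N := by
          rw [sI_erase, sI_erase, erase_eq_of_notMem (s := sI N), erase_eq_of_notMem]
          · intro h1
            exact (mem_I.1 h1).2.2 (mem_B.1 hb).2.2
          · intro h1
            exact (mem_I.1 h1).2.1 (mem_A.1 ha).2.1
        have hA : (sA ((N.erase a).erase b)).card + 1 = (sA N).card := by
          rw [sA_erase, sA_erase, erase_eq_of_notMem (a := b), card_erase_add_one ha]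
          intro h1
          exact (mem_A.1 (mem_erase.1 h1).2).2.2 (mem_B.1 hb).2.2
        have hUc : ((U.erase a).erase b).card < U.card := by
          rcases hab with h1 | h1
          · exact (card_le_card (erase_subset _ _)).trans_lt (card_erase_lt_of_mem h1)
          · rw [erase_right_comm]
            exact (card_le_card (erase_subset _ _)).trans_lt (card_erase_lt_of_mem h1)
        rw [ih _ hc _ rfl _ _ _ _ (erase_subset_erase _ (erase_subset_erase _ hUN)) (by
          rw [hI]
          omega), mul_zero]
      · rw [if_neg hab, mul_zero]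
    · rw [not_nonempty_iff_eq_empty] at hB
      have hS' : ∀ P ⊆ N, sS P = ∅ := by
        intro P hP
        rw [eq_empty_iff_forall_notMem]
        intro x hx
        have : x ∈ sS N := mem_S.2 ⟨hP (mem_S.1 hx).1, (mem_S.1 hx).2⟩
        rw [hS] at this
        exact notMem_empty _ this
      have hB' : ∀ P ⊆ N, sB P = ∅ := by
        intro P hP
        rw [eq_empty_iff_forall_notMem]
        intro x hx
        have : x ∈ sB N := mem_B.2 ⟨hP (mem_B.1 hx).1, (mem_B.1 hx).2⟩
        rw [hB] at this
        exact notMem_empty _ this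
      by_cases hA : (sA N).Nonempty
      · obtain ⟨a, ha⟩ := hA
        have hz : ∀ P ⊆ N, a ∈ P → ∀ w h, E w h P = 0 := by
          intro P hP haP w h
          unfold E
          rw [hS' P hP, hB' P hP]
          refine pm_card _ ?_
          rw [empty_union, empty_union, card_empty]
          have : 0 < (sA P).card := card_pos.2 ⟨a, mem_A.2 ⟨haP, (mem_A.1 ha).2⟩⟩
          omega
        unfold Psi
        refine sum_eq_zero fun P hP => ?_
        rw [mem_powerset] at hP
        by_cases haP : a ∈ P
        · rw [hz P hP haP, zero_mul, ite_self]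
        · rw [hz (N \ P) sdiff_subset (mem_sdiff.2 ⟨(mem_A.1 ha).1, haP⟩), mul_zero, ite_self]
      · rw [not_nonempty_iff_eq_empty] at hA
        have hA' : ∀ P ⊆ N, sA P = ∅ := by
          intro P hP
          rw [eq_empty_iff_forall_notMem]
          intro x hx
          have : x ∈ sA N := mem_A.2 ⟨hP (mem_A.1 hx).1, (mem_A.1 hx).2⟩
          rw [hA] at this
          exact notMem_empty _ this
        have h1 : ∀ P ⊆ N, ∀ w h, E w h P = 1 := by
          intro P hP w h
          unfold E
          rw [hS' P hP, hB' P hP, hA' P hP, empty_union]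
          exact pm_empty _
        rw [hA, card_empty, add_zero] at hU
        have hUN' : U.card < N.card := hU.trans_le (card_le_card (filter_subset _ _))
        unfold Psi
        rw [sum_congr rfl (g := fun P => if U ⊆ P then (1 : ZMod 2) else 0) (fun P hP => by
          rw [mem_powerset] at hP
          rw [h1 P hP, h1 _ sdiff_subset, mul_one])]
        rw [← sum_filter, sum_const, nsmul_one]
        have : (N.powerset.filter fun P => U ⊆ P) = Icc U N := by
          ext P
          rw [mem_filter, mem_powerset, mem_Icc]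
          tauto
        rw [this, card_Icc_finset hUN]
        have h2 : N.card - U.card = (N.card - U.card - 1) + 1 := by omega
        rw [h2, pow_succ]
        push_cast
        rw [show (2 : ZMod 2) = 0 from rfl, mul_zero]

end PM

end Pool.Agent.NH1
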