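import Mathlib
import Pool.Agent.NH1.KL

/-!
# Project NH1: the combinatorial identities CTOP, CVAN
-/

set_option autoImplicit false
set_option linter.all false

namespace Pool.Agent.NH1

namespace PM

open Finset Matrix
open Pool.Agent.Z700 (pr)

/-! ### parities -/

theorem pr_ins {P : Finset ℕ} {p : ℕ} (hp : p ∉ P) : pr (insert p P) = p * pr P := by
  unfold Z700.pr
  exact prod_insert hp

theorem sq2_mul {m n : ℕ} (hm : m % 2 = 1) (hn : n % 2 = 1) : sq2 (m * n) ↔ (sq2 m ↔ sq2 n) := by
  unfold sq2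
  rw [Nat.mul_mod]
  have h1 : m % 8 = 1 ∨ m % 8 = 3 ∨ m % 8 = 5 ∨ m % 8 = 7 := by omega
  have h2 : n % 8 = 1 ∨ n % 8 = 3 ∨ n % 8 = 5 ∨ n % 8 = 7 := by omega
  rcases h1 with h1 | h1 | h1 | h1 <;> rcases h2 with h2 | h2 | h2 | h2 <;> rw [h1, h2] <;> decide

theorem sq7_mul {m n : ℕ} (hm : m % 7 ≠ 0) (hn : n % 7 ≠ 0) : sq7 (m * n) ↔ (sq7 m ↔ sq7 n) := by
  unfold sq7
  rw [Nat.mul_mod]
  have h1 : m % 7 = 1 ∨ m % 7 = 2 ∨ m % 7 = 3 ∨ m % 7 = 4 ∨ m % 7 = 5 ∨ m % 7 = 6 := by omega
  have h2 : n % 7 = 1 ∨ n % 7 = 2 ∨ n % 7 = 3 ∨ n % 7 = 4 ∨ n % 7 = 5 ∨ n % 7 = 6 := by omega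
  rcases h1 with h1 | h1 | h1 | h1 | h1 | h1 <;> rcases h2 with h2 | h2 | h2 | h2 | h2 | h2 <;>
    rw [h1, h2] <;> decide

theorem prime_odd {p : ℕ} (hp : p.Prime) (h2 : p ≠ 2) : p % 2 = 1 := hp.eq_two_or_odd.resolve_left h2

theorem prime_7 {p : ℕ} (hp : p.Prime) (h7 : p ≠ 7) : p % 7 ≠ 0 := fun h =>
  h7 (((Nat.prime_dvd_prime_iff_eq (by norm_num) hp).1 (Nat.dvd_of_mod_eq_zero h)).symm)

theorem pr_cop {P : Finset ℕ} (hP : Pm P) : pr P % 2 = 1 ∧ pr P % 7 ≠ 0 := by
  induction P using Finset.induction_on with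
  | empty => unfold Z700.pr; simp
  | insert p P hp ih =>
    obtain ⟨h1, h2⟩ := ih fun q hq => hP q (mem_insert_of_mem hq)
    obtain ⟨a, b, c⟩ := hP p (mem_insert_self _ _)
    rw [pr_ins hp]
    refine ⟨?_, ?_⟩
    · rw [Nat.mul_mod, prime_odd a b, h1]
    · intro h
      rcases (Nat.Prime.dvd_mul (by norm_num)).1 (Nat.dvd_of_mod_eq_zero h) with h | h
      · exact prime_7 a c (Nat.mod_eq_zero_of_dvd h)
      · exact h2 (Nat.mod_eq_zero_of_dvd h)

theorem sI_ins {P : Finset ℕ} {p : ℕ} (hp : p ∉ P) :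
    (sI (insert p P)).card = (sI P).card + if ¬ sq2 p ∧ ¬ sq7 p then 1 else 0 := by
  unfold sI
  rw [filter_insert]
  split_ifs with h
  · rw [card_insert_of_notMem (fun h => hp (mem_filter.1 h).1)]
  · rw [add_zero]

theorem sA_ins {P : Finset ℕ} {p : ℕ} (hp : p ∉ P) :
    (sA (insert p P)).card = (sA P).card + if sq2 p ∧ ¬ sq7 p then 1 else 0 := by
  unfold sA
  rw [filter_insert]
  split_ifs with h
  · rw [card_insert_of_notMem (fun h => hp (mem_filter.1 h).1)]
  · rw [add_zero]

theorem sB_ins {P : Finset ℕ} {p : ℕ} (hp : p ∉ P) :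
    (sB (insert p P)).card = (sB P).card + if ¬ sq2 p ∧ sq7 p then 1 else 0 := by
  unfold sB
  rw [filter_insert]
  split_ifs with h
  · rw [card_insert_of_notMem (fun h => hp (mem_filter.1 h).1)]
  · rw [add_zero]

theorem sq2_pr {P : Finset ℕ} (hP : Pm P) : sq2 (pr P) ↔ Even ((sI P).card + (sB P).card) := by
  induction P using Finset.induction_on with
  | empty => unfold Z700.pr sI sB sq2; simp
  | insert p P hp ih =>
    have hP' : Pm P := fun q hq => hP q (mem_insert_of_mem hq)
    obtain ⟨a, b, c⟩ := hP p (mem_insert_self _ _)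
    rw [pr_ins hp, sq2_mul (prime_odd a b) (pr_cop hP').1, ih hP', sI_ins hp, sB_ins hp]
    by_cases h2 : sq2 p <;> by_cases h7 : sq7 p <;> simp [h2, h7, parity_simps] <;>
      simp only [← Nat.not_even_iff_odd] <;> tauto

theorem sq7_pr {P : Finset ℕ} (hP : Pm P) : sq7 (pr P) ↔ Even ((sI P).card + (sA P).card) := by
  induction P using Finset.induction_on with
  | empty => unfold Z700.pr sI sA sq7; simp
  | insert p P hp ih =>
    have hP' : Pm P := fun q hq => hP q (mem_insert_of_mem hq)
    obtain ⟨a, b, c⟩ := hP p (mem_insert_self _ _)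
    rw [pr_ins hp, sq7_mul (prime_7 a c) (pr_cop hP').2, ih hP', sI_ins hp, sA_ins hp]
    by_cases h2 : sq2 p <;> by_cases h7 : sq7 p <;> simp [h2, h7, parity_simps] <;>
      simp only [← Nat.not_even_iff_odd] <;> tauto

theorem K17 {m : ℕ} (h : m % 7 ≠ 0) : (K 1 m ∨ K 7 m) ↔ sq2 m ∧ sq7 m := by
  unfold K sq2 sq7
  simp only [true_or, or_true, if_true]
  tauto

theorem mem_adm {N P : Finset ℕ} (hN : Pm N) (hP : P ⊆ N) :
    P ∈ adm N ↔ Even ((sI P).card + (sB P).card) ∧ Even ((sI P).card + (sA P).card) := by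
  have hP' : Pm P := fun q hq => hN q (hP hq)
  unfold adm
  rw [mem_filter, mem_powerset, K17 (pr_cop hP').2, sq2_pr hP', sq7_pr hP']
  tauto

/-! ### CTOP -/

theorem ctop : ∀ (n : ℕ) (N : Finset ℕ), N.card = n → ∀ (w : ℕ → ℕ → ZMod 2) (h h' : ℕ → ZMod 2),
    ∑ J ∈ (sS N).powerset, E w h J * E w h' (N \ J) = E w (fun p => h p + h' p) N := by
  intro n
  induction n with
  | zero =>
    intro N hN w h h'
    rw [card_eq_zero] at hN
    have : sS ∅ = ∅ := by decide
    rw [hN, this, powerset_empty, sum_singleton, sdiff_empty, E_empty, E_empty, E_empty, mul_one]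
  | succ n ih =>
    intro N hN w h h'
    by_cases hS : (sS N).Nonempty
    · obtain ⟨p, hp⟩ := hS
      have hp' := mem_S.1 hp
      have hpn : p ∉ N.erase p := notMem_erase _ _
      have hins : insert p (N.erase p) = N := insert_erase hp'.1
      have hc : (N.erase p).card = n := by
        rw [card_erase_of_mem hp'.1]
        omega
      set N1 := N.erase p with hN1
      have hSS : sS N = insert p (sS N1) := by
        rw [hN1, sS_erase, insert_erase hp]
      have hpS : p ∉ sS N1 := fun h => hpn (mem_S.1 h).1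
      rw [hSS, sum_powerset_insert hpS, ← sum_add_distrib, ← hins,
        expand_ins _ _ hpn hp'.2.1 hp'.2.2]
      have e1 : E w (fun q => (h q + h' q) + w q p) N1 = E w (fun q => (h q + w q p) + h' q) N1 :=
        E_congr (fun _ _ _ _ _ => rfl) fun _ _ => by ring
      have e2 : E w (fun q => (h q + h' q) + w q p) N1 = E w (fun q => h q + (h' q + w q p)) N1 :=
        E_congr (fun _ _ _ _ _ => rfl) fun _ _ => by ring
      rw [add_mul]
      nth_rewrite 1 [e1]
      rw [e2, ← ih _ hc, ← ih _ hc, mul_sum, mul_sum, ← sum_add_distrib]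
      have e3 : ∑ t ∈ N1, w p t * E (mg w p t) (fun q => h q + h' q) N1 =
          ∑ J ∈ (sS N1).powerset, ∑ t ∈ N1, w p t * (E (mg w p t) h J *
            E (mg w p t) h' (N1 \ J)) := by
        rw [sum_comm]
        refine sum_congr rfl fun t ht => ?_
        rw [← ih _ hc, mul_sum]
      rw [e3, ← sum_add_distrib]
      refine sum_congr rfl fun J hJ => ?_
      rw [mem_powerset] at hJ
      have hJN : J ⊆ N1 := hJ.trans (filter_subset _ _)
      have hpJ : p ∉ J := fun h => hpn (hJN h)
      have e4 : insert p N1 \ J = insert p (N1 \ J) := insert_sdiff_of_notMem _ hpJ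
      have e5 : insert p N1 \ insert p J = N1 \ J := by
        ext x
        rw [mem_sdiff, mem_sdiff, mem_insert, mem_insert]
        constructor
        · rintro ⟨rfl | a, b⟩
          · exact absurd (Or.inl rfl) b
          · exact ⟨a, fun c => b (Or.inr c)⟩
        · rintro ⟨a, b⟩
          refine ⟨Or.inr a, ?_⟩
          rintro (rfl | c)
          · exact hpn a
          · exact b c
      have hpD : p ∉ N1 \ J := fun h => hpn (mem_sdiff.1 h).1
      rw [e4, e5, expand_ins w h' hpD hp'.2.1 hp'.2.2, expand_ins w h hpJ hp'.2.1 hp'.2.2]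
      have key : ∑ t ∈ N1, w p t * (E (mg w p t) h J * E (mg w p t) h' (N1 \ J)) =
          (∑ t ∈ J, w p t * E (mg w p t) h J) * E w h' (N1 \ J) +
          E w h J * ∑ t ∈ N1 \ J, w p t * E (mg w p t) h' (N1 \ J) := by
        rw [← sum_sdiff hJN, add_comm, sum_mul, mul_sum]
        congr 1
        · refine sum_congr rfl fun t ht => ?_
          rw [E_mg w h' (fun h => (mem_sdiff.1 h).2 ht)]
          ring
        · refine sum_congr rfl fun t ht => ?_
          rw [E_mg w h (fun h => (mem_sdiff.1 ht).2 h)]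
          ring
      rw [key]
      ring
    · rw [not_nonempty_iff_eq_empty] at hS
      rw [hS, powerset_empty, sum_singleton, sdiff_empty, E_empty, one_mul]
      refine E_congr (fun _ _ _ _ _ => rfl) fun p hp => ?_
      rw [hS] at hp
      exact absurd hp (notMem_empty _)

theorem filter_card_split {X Y : Finset ℕ} (f : ℕ → Prop) [DecidablePred f] (h : Y ⊆ X) :
    (X.filter f).card = (Y.filter f).card + ((X \ Y).filter f).card := by
  rw [← card_union_of_disjoint, ← filter_union, union_sdiff_of_subset h]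
  exact disjoint_filter_filter disjoint_sdiff

theorem adm_top {N : Finset ℕ} (hN : Pm N) (hAB : (sA N).card = (sB N).card)
    (h1 : (sI N).card + (sA N).card = 1) : adm N = (sS N).powerset := by
  ext P
  rw [mem_powerset]
  constructor
  · intro hP
    have hPN : P ⊆ N := by
      unfold adm at hP
      exact mem_powerset.1 (mem_filter.1 hP).1
    rw [mem_adm hN hPN] at hP
    have hI := card_le_card (show sI P ⊆ sI N from filter_subset_filter _ hPN)
    have hA := card_le_card (show sA P ⊆ sA N from filter_subset_filter _ hPN)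
    have hB := card_le_card (show sB P ⊆ sB N from filter_subset_filter _ hPN)
    obtain ⟨⟨k, hk⟩, l, hl⟩ := hP
    have hz : (sI P).card = 0 ∧ (sA P).card = 0 ∧ (sB P).card = 0 := by omega
    intro x hx
    rw [mem_S]
    refine ⟨hPN hx, ?_⟩
    by_contra hc
    have : x ∈ sI P ∪ (sA P ∪ sB P) := by
      rw [mem_union, mem_union, mem_I, mem_A, mem_B]
      by_cases h2 : sq2 x
      · by_cases h7 : sq7 x
        · exact absurd ⟨h2, h7⟩ hc
        · exact Or.inr (Or.inl ⟨hx, h2, h7⟩)
      · by_cases h7 : sq7 x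
        · exact Or.inr (Or.inr ⟨hx, h2, h7⟩)
        · exact Or.inl ⟨hx, h2, h7⟩
    rw [card_eq_zero.1 hz.1, card_eq_zero.1 hz.2.1, card_eq_zero.1 hz.2.2] at this
    simp at this
  · intro hP
    have hPN : P ⊆ N := hP.trans (filter_subset _ _)
    rw [mem_adm hN hPN]
    have hI : sI P = ∅ := by
      rw [eq_empty_iff_forall_notMem]
      intro x hx
      exact (mem_I.1 hx).2.1 (mem_S.1 (hP (mem_I.1 hx).1)).2.1
    have hA : sA P = ∅ := by
      rw [eq_empty_iff_forall_notMem]
      intro x hx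
      exact (mem_A.1 hx).2.2 (mem_S.1 (hP (mem_A.1 hx).1)).2.2
    have hB : sB P = ∅ := by
      rw [eq_empty_iff_forall_notMem]
      intro x hx
      exact (mem_B.1 hx).2.1 (mem_S.1 (hP (mem_B.1 hx).1)).2.1
    rw [hI, hA, hB]
    simp

end PM

open Finset PM in
/-- CTOP -/
theorem t_CTOP : S_CTOP := by
  intro N r hN hK hAB h1
  rw [adm_top hN hAB h1]
  exact ctop _ N rfl lg (hh r) gX

namespace PM

open Finset Matrix
open Pool.Agent.Z700 (pr)

/-! ### CVAN -/

/-- the parity indicator -/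
theorem adm_ind {N P : Finset ℕ} (hN : Pm N) (hP : P ⊆ N) (hAB : (sA P).card = (sB P).card) :
    (if P ∈ adm N then (1 : ZMod 2) else 0) = 1 + ∑ t ∈ sI N ∪ sB N, if t ∈ P then 1 else 0 := by
  rw [if_congr (mem_adm hN hP) rfl rfl, ← sum_filter, sum_const, nsmul_one]
  have e : ((sI N ∪ sB N).filter (· ∈ P)).card = (sI P).card + (sB P).card := by
    rw [← card_union_of_disjoint]
    · congr 1
      ext x
      rw [mem_filter, mem_union, mem_union, mem_I, mem_B, mem_I, mem_B]
      constructor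
      · rintro ⟨h1 | h1, h2⟩
        · exact Or.inl ⟨h2, h1.2⟩
        · exact Or.inr ⟨h2, h1.2⟩
      · rintro (h1 | h1)
        · exact ⟨Or.inl ⟨hP h1.1, h1.2⟩, h1.1⟩
        · exact ⟨Or.inr ⟨hP h1.1, h1.2⟩, h1.1⟩
    · rw [disjoint_left]
      intro x h1 h2
      exact (mem_I.1 h1).2.2 (mem_B.1 h2).2.2
  rw [e, hAB]
  by_cases he : Even ((sI P).card + (sB P).card)
  · rw [if_pos ⟨he, he⟩, (ZMod.natCast_eq_zero_iff_even).2 he, add_zero]
  · rw [if_neg (fun h => he h.1), (ZMod.natCast_eq_one_iff_odd).2 (Nat.not_even_iff_odd.1 he)]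
    decide

/-- the pattern -/
theorem pat_ind {W W0 P : Finset ℕ} (h0 : W0 ⊆ W) :
    (if P ∩ W = W0 then (1 : ZMod 2) else 0) = ∑ U ∈ Icc W0 W, if U ⊆ P then 1 else 0 := by
  rw [← sum_filter, sum_const, nsmul_one]
  have e : ((Icc W0 W).filter fun U => U ⊆ P) = Icc W0 (P ∩ W) := by
    ext U
    rw [mem_filter, mem_Icc, mem_Icc, le_iff_subset, le_iff_subset, le_iff_subset, subset_inter_iff]
    tauto
  rw [e]
  by_cases h : P ∩ W = W0
  · rw [if_pos h, h, Icc_self, card_singleton, Nat.cast_one]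
  · rw [if_neg h]
    by_cases h1 : W0 ⊆ P ∩ W
    · rw [card_Icc_finset h1]
      have h2 : W0.card < (P ∩ W).card := card_lt_card (h1.ssubset_of_ne (Ne.symm h))
      have h3 : (P ∩ W).card - W0.card = ((P ∩ W).card - W0.card - 1) + 1 := by omega
      rw [h3, pow_succ]
      push_cast
      rw [show (2 : ZMod 2) = 0 from rfl, mul_zero]
    · rw [Icc_eq_empty (by rwa [le_iff_subset]), card_empty, Nat.cast_zero]

/-- the sum over the admissible sets containing `U` vanishes -/
theorem S_van {N U : Finset ℕ} (w : ℕ → ℕ → ZMod 2) (h h' : ℕ → ZMod 2) (hN : Pm N) (hU : U ⊆ N)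
    (hc : U.card + 1 < (sI N).card + (sA N).card) :
    ∑ P ∈ adm N, (if U ⊆ P then (1 : ZMod 2) else 0) * (E w h P * E w h' (N \ P)) = 0 := by
  have hsub : adm N = N.powerset.filter (· ∈ adm N) := by
    ext P
    rw [mem_filter, mem_powerset]
    constructor
    · intro h
      exact ⟨by
        unfold adm at h
        exact mem_powerset.1 (mem_filter.1 h).1, h⟩
    · exact fun h => h.2
  rw [hsub, sum_filter]
  have e : ∀ P ∈ N.powerset, (if P ∈ adm N then (if U ⊆ P then (1 : ZMod 2) else 0) *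
      (E w h P * E w h' (N \ P)) else 0) =
      (if U ⊆ P then E w h P * E w h' (N \ P) else 0) +
      ∑ t ∈ sI N ∪ sB N, if insert t U ⊆ P then E w h P * E w h' (N \ P) else 0 := by
    intro P hP
    rw [mem_powerset] at hP
    by_cases hAB : (sA P).card = (sB P).card
    · have h1 := adm_ind hN hP hAB
      have h2 : (if P ∈ adm N then (if U ⊆ P then (1 : ZMod 2) else 0) *
        (E w h P * E w h' (N \ P)) else 0) = (if P ∈ adm N then (1 : ZMod 2) else 0) *
        ((if U ⊆ P then (1 : ZMod 2) else 0) * (E w h P * E w h' (N \ P))) := by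
        split_ifs <;> ring
      rw [h2, h1]
      by_cases hUP : U ⊆ P
      · rw [if_pos hUP, if_pos hUP, add_mul, one_mul, one_mul, sum_mul]
        congr 1
        refine sum_congr rfl fun t ht => ?_
        by_cases htP : t ∈ P
        · rw [if_pos htP, if_pos (insert_subset htP hUP), one_mul]
        · rw [if_neg htP, if_neg (fun h => htP (h (mem_insert_self _ _))), zero_mul]
      · rw [if_neg hUP, if_neg hUP, zero_mul, mul_zero, zero_add]
        rw [sum_eq_zero]
        intro t ht
        rw [if_neg]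
        exact fun h => hUP ((subset_insert _ _).trans h)
    · have h0 : E w h P = 0 := by
        unfold E
        refine pm_card _ ?_
        rw [card_union_of_disjoint, card_union_of_disjoint]
        · omega
        · rw [disjoint_left]
          intro x h1 h2
          exact (mem_A.1 h2).2.2 (mem_S.1 h1).2.2
        · rw [disjoint_left]
          intro x h1 h2
          exact (mem_B.1 h2).2.1 (mem_S.1 h1).2.1
      rw [h0]
      simp
  rw [sum_congr rfl e, sum_add_distrib, sum_comm]
  have h1 : Psi w h h' N U = 0 := KL _ N rfl w h h' U hU (by omega)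
  unfold Psi at h1
  rw [h1, zero_add]
  refine sum_eq_zero fun t ht => ?_
  have htN : t ∈ N := by
    rw [mem_union, mem_I, mem_B] at ht
    tauto
  have h2 : Psi w h h' N (insert t U) = 0 := KL _ N rfl w h h' _ (insert_subset htN hU) (by
    have := card_insert_le t U
    omega)
  unfold Psi at h2
  exact h2

end PM

open Finset PM in
/-- CVAN -/
theorem t_CVAN : S_CVAN := by
  intro N r hN hK W hW hne W0 h0 hc
  have key : ∀ W1 ⊆ W, ∑ P ∈ adm N, (if P ∩ W = W1 then (1 : ZMod 2) else 0) *
      (E lg (hh r) P * E lg gX (N \ P)) =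
      ∑ P ∈ adm N, (if W ⊆ P then (1 : ZMod 2) else 0) *
      (E lg (hh r) P * E lg gX (N \ P)) := by
    intro W1 h1
    have e : ∀ P ∈ adm N, (if P ∩ W = W1 then (1 : ZMod 2) else 0) *
      (E lg (hh r) P * E lg gX (N \ P)) = ∑ U ∈ Icc W1 W, (if U ⊆ P then (1 : ZMod 2) else 0) *
      (E lg (hh r) P * E lg gX (N \ P)) := by
      intro P hP
      rw [pat_ind h1, sum_mul]
    rw [sum_congr rfl e, sum_comm, sum_eq_single W]
    · intro U hU hUW
      rw [mem_Icc, le_iff_subset, le_iff_subset] at hU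
      have h2 : U.card < W.card := card_lt_card (hU.2.ssubset_of_ne hUW)
      exact S_van lg (hh r) gX hN (hU.2.trans hW) (by omega)
    · intro hn
      exact absurd (mem_Icc.2 ⟨h1, le_refl _⟩) hn
  have hd : ∀ P ∈ adm N, (if (P ∩ W = W0 ∨ P ∩ W = W \ W0) then
      DD (hh r) P * DD gX (N \ P) else 0) =
      (if P ∩ W = W0 then (1 : ZMod 2) else 0) * (E lg (hh r) P * E lg gX (N \ P)) +
      (if P ∩ W = W \ W0 then (1 : ZMod 2) else 0) * (E lg (hh r) P * E lg gX (N \ P)) := by
    intro P hP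
    by_cases h1 : P ∩ W = W0
    · have h2 : P ∩ W ≠ W \ W0 := by
        intro h2
        rw [h1] at h2
        obtain ⟨x, hx⟩ := hne
        by_cases h3 : x ∈ W0
        · have := h3
          rw [h2] at this
          exact (mem_sdiff.1 this).2 h3
        · have : x ∈ W \ W0 := mem_sdiff.2 ⟨hx, h3⟩
          rw [← h2] at this
          exact h3 this
      rw [if_pos (Or.inl h1), if_pos h1, if_neg h2, one_mul, zero_mul, add_zero]
      rfl
    · by_cases h2 : P ∩ W = W \ W0
      · rw [if_pos (Or.inr h2), if_neg h1, if_pos h2, one_mul, zero_mul, zero_add]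
        rfl
      · rw [if_neg (by tauto), if_neg h1, if_neg h2, zero_mul, add_zero]
  rw [sum_filter, sum_congr rfl hd, sum_add_distrib, key _ h0, key _ sdiff_subset]
  exact two_mul_zero _

end Pool.Agent.NH1
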