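import Mathlib
import Pool.Agent.NH1.Comb

/-!
# Project NH1: the identity CREF
-/

set_option autoImplicit false
set_option linter.all false

namespace Pool.Agent.NH1

namespace PM

open Finset Matrix
open Pool.Agent.Z700 (pr)

/-! ### reciprocity -/

theorem lg_add {p q : ℕ} (hp : p.Prime) (hq : q.Prime) (hp2 : p ≠ 2) (hq2 : q ≠ 2) (hne : p ≠ q) :
    lg p q + lg q p = al p * al q := by
  have hcop : Int.gcd (p : ℤ) q = 1 := by
    rw [Int.gcd_natCast_natCast]
    exact (Nat.coprime_primes hp hq).2 hne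
  have hcop' : Int.gcd (q : ℤ) p = 1 := by
    rw [Int.gcd_comm]
    exact hcop
  have h1 : p % 4 = 1 ∨ p % 4 = 3 := by
    have := prime_odd hp hp2
    omega
  have h2 : q % 4 = 1 ∨ q % 4 = 3 := by
    have := prime_odd hq hq2
    omega
  have o1 : Odd p := Nat.odd_iff.2 (prime_odd hp hp2)
  have o2 : Odd q := Nat.odd_iff.2 (prime_odd hq hq2)
  have s1 := jacobiSym.eq_one_or_neg_one hcop
  have s2 := jacobiSym.eq_one_or_neg_one hcop'
  unfold lg al
  rcases h1 with h1 | h1
  · have := jacobiSym.quadratic_reciprocity_one_mod_four h1 o2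
    rw [this, if_neg (by omega : ¬ p % 4 = 3), zero_mul]
    exact two_mul_zero _
  · rcases h2 with h2 | h2
    · have := jacobiSym.quadratic_reciprocity_one_mod_four h2 o1
      rw [this, if_neg (by omega : ¬ q % 4 = 3), mul_zero]
      exact two_mul_zero _
    · have := jacobiSym.quadratic_reciprocity_three_mod_four h1 h2
      rw [if_pos h1, if_pos h2, mul_one]
      rcases s2 with s2 | s2
      · rw [this, s2]
        decide
      · rw [this, s2]
        decide

theorem al_mul {m n : ℕ} (hm : m % 2 = 1) (hn : n % 2 = 1) : al (m * n) = al m + al n := by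
  unfold al
  rw [Nat.mul_mod]
  have h1 : m % 4 = 1 ∨ m % 4 = 3 := by omega
  have h2 : n % 4 = 1 ∨ n % 4 = 3 := by omega
  rcases h1 with h1 | h1 <;> rcases h2 with h2 | h2 <;> rw [h1, h2] <;> decide

theorem al_pr {P : Finset ℕ} (hP : Pm P) : ∑ x ∈ P, al x = al (pr P) := by
  induction P using Finset.induction_on with
  | empty => unfold Z700.pr al; simp
  | insert p P hp ih =>
    have hP' : Pm P := fun q hq => hP q (mem_insert_of_mem hq)
    obtain ⟨a, b, c⟩ := hP p (mem_insert_self _ _)
    rw [sum_insert hp, ih hP', pr_ins hp, al_mul (prime_odd a b) (pr_cop hP').1]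

/-- the row sums of the symbols -/
theorem rec_sum {N : Finset ℕ} (hN : Pm N) {p : ℕ} (hp : p ∈ N) :
    ∑ x ∈ N.erase p, lg p x + ∑ x ∈ N.erase p, lg x p = al p * (al (pr N) + al p) := by
  rw [← sum_add_distrib, ← al_pr hN, ← add_sum_erase _ _ hp]
  have : al p + ∑ x ∈ N.erase p, al x + al p = ∑ x ∈ N.erase p, al x := by
    have h : ∀ a b : ZMod 2, a + b + a = b := by decide
    exact h _ _
  rw [this, mul_sum]
  refine sum_congr rfl fun x hx => ?_
  rw [mem_erase] at hx
  exact lg_add (hN p hp).1 (hN x hx.2).1 (hN p hp).2.1 (hN x hx.2).2.1 (Ne.symm hx.1)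

/-- the weights -/
theorem hh_add {r p : ℕ} {N : Finset ℕ} (hr : r = 3 ∨ r = 5) (hNr : pr N % 8 = r) :
    hh r p + gX p = al p * (al (pr N) + al p) := by
  unfold hh
  have h2 : ∀ a : ZMod 2, a * (1 + a) = 0 := by decide
  have h3 : ∀ a b : ZMod 2, a + b + a = b * (0 + b) := by decide
  rcases hr with rfl | rfl
  · rw [if_pos rfl]
    have : al (pr N) = 1 := by
      unfold al
      rw [if_pos (by omega)]
    rw [this, h2]
    exact two_mul_zero _
  · rw [if_neg (by norm_num)]
    have : al (pr N) = 0 := by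
      unfold al
      rw [if_neg (by omega)]
    rw [this]
    exact h3 _ _

theorem hh_add' {N : Finset ℕ} (hN : Pm N) (hr : pr N % 8 = 3 ∨ pr N % 8 = 5) {p : ℕ} (hp : p ∈ N) :
    hh (pr N % 8) p + gX p = ∑ x ∈ N.erase p, lg p x + ∑ x ∈ N.erase p, lg x p := by
  rw [rec_sum hN hp]
  exact hh_add hr rfl

/-! ### column operations -/

theorem D_sumcol {X : Finset ℕ} {M M1 : ℕ → ℕ → ZMod 2} {p0 : ℕ} (hp0 : p0 ∈ X)
    (h0 : ∀ q ∈ X, ∀ t ∈ X, t ≠ p0 → M1 q t = M q t)
    (h : ∀ q ∈ X, M1 q p0 = ∑ t ∈ X, M q t) : perm2 X X M1 = perm2 X X M := by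
  classical
  rw [CI.perm_eq, CI.perm_eq]
  unfold CI.D
  set A : Matrix X X (ZMod 2) := Matrix.of fun p q : X => M p.1 q.1 with hA
  have := det_updateCol_sum A ⟨p0, hp0⟩ (fun _ => 1)
  rw [one_smul] at this
  rw [← this]
  congr 1
  ext i j
  by_cases hj : j = ⟨p0, hp0⟩
  · rw [hj, updateCol_self]
    simp only [of_apply, one_smul, hA]
    rw [sum_coe_sort X fun t => M i.1 t]
    exact h i.1 i.2
  · rw [updateCol_ne hj]
    exact h0 i.1 i.2 j.1 j.2 (fun h => hj (Subtype.ext h))

theorem pm_tr (X : Finset ℕ) (M : ℕ → ℕ → ZMod 2) : perm2 X X M = perm2 X X fun p q => M q p := by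
  classical
  rw [CI.perm_eq, CI.perm_eq]
  unfold CI.D
  rw [← det_transpose]
  rfl

end PM

open Finset PM in
open Pool.Agent.Z700 (pr) in
/-- CREF -/
theorem t_CREF : S_CREF := by
  intro P q hPm hq hS hI p0 hp0
  set N := insert q P with hN
  have hqI : ¬ sq2 q ∧ ¬ sq7 q := by
    have : q ∈ sI {q} := by rw [hI]; exact mem_singleton_self _
    exact (mem_I.1 this).2
  have hPS : ∀ p ∈ P, sq2 p ∧ sq7 p := by
    intro p hp
    rw [← hS] at hp
    exact (mem_S.1 hp).2
  have hPm' : Pm P := fun x hx => hPm x (mem_insert_of_mem hx)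
  have hqN : q ∈ N := mem_insert_self _ _
  have hNe : N.erase q = P := erase_insert hq
  have hr : pr N % 8 = 3 ∨ pr N % 8 = 5 := by
    have h1 : sq2 (pr P) := by
      rw [sq2_pr hPm']
      have h2 : sI P = ∅ := by
        rw [eq_empty_iff_forall_notMem]
        intro x hx
        exact (mem_I.1 hx).2.1 (hPS x (mem_I.1 hx).1).1
      have h3 : sB P = ∅ := by
        rw [eq_empty_iff_forall_notMem]
        intro x hx
        exact (mem_B.1 hx).2.1 (hPS x (mem_B.1 hx).1).1
      rw [h2, h3]
      simp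
    have h4 : ¬ sq2 (pr N) := by
      rw [hN, pr_ins hq, sq2_mul (prime_odd (hPm q hqN).1 (hPm q hqN).2.1) (pr_cop hPm').1]
      intro h
      exact hqI.1 (h.2 h1)
    have h5 := (pr_cop hPm).1
    unfold sq2 at h4
    omega
  have hAs : ∀ J ⊆ P, sS J = J ∧ sA J = ∅ ∧ sB J = ∅ := by
    intro J hJ
    refine ⟨?_, ?_, ?_⟩
    · ext x
      rw [mem_S]
      exact ⟨fun h => h.1, fun h => ⟨h, hPS x (hJ h)⟩⟩
    · rw [eq_empty_iff_forall_notMem]
      intro x hx
      exact (mem_A.1 hx).2.2 (hPS x (hJ (mem_A.1 hx).1)).2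
    · rw [eq_empty_iff_forall_notMem]
      intro x hx
      exact (mem_B.1 hx).2.1 (hPS x (hJ (mem_B.1 hx).1)).1
  -- first step
  have e1 : ∀ J ∈ P.powerset.filter (p0 ∈ ·), DD (hh (pr N % 8)) J * DD gX (N \ J) =
      perm2 J J (Lp lg (hh (pr N % 8)) J) *
      perm2 (P \ J) (P \ J) (Lp lg (fun p => gX p + lg p q) (P \ J)) := by
    intro J hJ
    have hJP : J ⊆ P := mem_powerset.1 (mem_filter.1 hJ).1
    obtain ⟨a1, a2, a3⟩ := hAs J hJP
    obtain ⟨b1, b2, b3⟩ := hAs (P \ J) sdiff_subset
    have hqJ : q ∉ J := fun h => hq (hJP h)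
    have hqD : q ∉ P \ J := fun h => hq (mem_sdiff.1 h).1
    have hD : N \ J = insert q (P \ J) := insert_sdiff_of_notMem _ hqJ
    congr 1
    · unfold DD
      rw [a1, a2, a3, union_empty]
    · unfold DD
      rw [hD]
      have c1 : sS (insert q (P \ J)) = P \ J := by
        have hn : q ∉ sS (insert q (P \ J)) := fun h => hqI.1 (mem_S.1 h).2.1
        rw [← erase_eq_of_notMem hn, ← sS_erase, erase_insert hqD, b1]
      have c2 : sA (insert q (P \ J)) = ∅ := by
        rw [← erase_eq_of_notMem (a := q) (s := sA (insert q (P \ J))),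
          ← sA_erase, erase_insert hqD, b2]
        intro h
        exact hqI.1 (mem_A.1 h).2.1
      have c3 : sB (insert q (P \ J)) = ∅ := by
        rw [← erase_eq_of_notMem (a := q) (s := sB (insert q (P \ J))),
          ← sB_erase, erase_insert hqD, b3]
        intro h
        exact hqI.2 (mem_B.1 h).2.2
      rw [c1, c2, c3, union_empty]
      refine pm_congr fun p hp t ht => ?_
      rw [CI.Lp_erase lg gX (mem_insert_self q (P \ J)) (by
        rw [erase_insert hqD]
        exact hp), erase_insert hqD]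
  rw [sum_congr rfl e1, t_CI3 lg _ _ P p0 hp0]
  -- second step
  set MT : ℕ → ℕ → ZMod 2 := fun p t =>
    if t = p0 then (if p = p0 then ∑ x ∈ N.erase p0, lg x p0 + lg p0 q + gX p0
      else lg p p0 + lg p q + gX p)
    else if p = t then ∑ x ∈ N.erase p, lg x p else lg p t with hMT
  have hq0 : q ≠ p0 := fun h => hq (h ▸ hp0)
  have hp0N : p0 ∈ N := mem_insert_of_mem hp0
  have hsum : ∀ p ∈ P, ∑ x ∈ N.erase p, lg p x = lg p q + ∑ x ∈ P.erase p, lg p x := by
    intro p hp
    have : N.erase p = insert q (P.erase p) := by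
      rw [hN, erase_insert_of_ne]
      rintro rfl
      exact hq hp
    rw [this, sum_insert]
    intro h
    exact hq (mem_erase.1 h).2
  have step2 : perm2 P P (fun p t => if t = p0 then hh (pr N % 8) p else
      Lp lg (fun p => hh (pr N % 8) p + (gX p + lg p q)) P p t) = perm2 P P MT := by
    refine D_sumcol hp0 ?_ ?_
    · intro p hp t ht htp
      rw [hMT]
      simp only [if_neg htp]
      unfold Lp
      split_ifs with e
      · have h1 := hh_add' hPm hr (mem_insert_of_mem hp : p ∈ N)
        rw [hsum p hp] at h1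
        have h2 : ∀ a b c d s : ZMod 2, a + b = (c + d) + s → a + (b + c) + d = s := by decide
        exact h2 _ _ _ _ _ h1
      · rfl
    · intro p hp
      simp only [if_true]
      rw [← add_sum_erase _ _ hp0]
      have h1 := hh_add' hPm hr (mem_insert_of_mem hp : p ∈ N)
      rw [hsum p hp] at h1
      by_cases e : p = p0
      · subst e
        have e3 : ∑ t ∈ P.erase p, MT p t = ∑ t ∈ P.erase p, lg p t := by
          refine sum_congr rfl fun t ht => ?_
          rw [hMT]
          simp only [if_neg (mem_erase.1 ht).1, if_neg (fun h : p = t => (mem_erase.1 ht).1 h.symm)]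
        rw [e3, hMT]
        simp only [if_true]
        have h2 : ∀ a b c d s : ZMod 2, a + b = (c + d) + s → a = s + c + b + d := by decide
        exact h2 _ _ _ _ _ h1
      · have e3 : ∑ t ∈ P.erase p0, MT p t = (∑ x ∈ N.erase p, lg x p) +
            ∑ t ∈ (P.erase p0).erase p, lg p t := by
          rw [← add_sum_erase _ _ (mem_erase.2 ⟨e, hp⟩)]
          congr 1
          · rw [hMT]
            simp only [if_neg e, if_true]
          · refine sum_congr rfl fun t ht => ?_
            rw [mem_erase, mem_erase] at ht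
            rw [hMT]
            simp only [if_neg ht.2.1, if_neg (fun h : p = t => ht.1 h.symm)]
        have e4 : ∑ x ∈ P.erase p, lg p x = lg p p0 + ∑ t ∈ (P.erase p0).erase p, lg p t := by
          rw [← add_sum_erase _ _ (mem_erase.2 ⟨fun h => e h.symm, hp0⟩), erase_right_comm]
        rw [e3, hMT]
        simp only [if_true, if_neg e]
        rw [e4] at h1
        have h2 : ∀ a b c d s f : ZMod 2, a + b = (c + (d + f)) + s →
          a = d + c + b + (s + f) := by decide
        exact h2 _ _ _ _ _ _ h1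
  rw [step2]
  -- third step
  rw [pm_tr N (Bm N q p0)]
  rw [← pm_col (R := N) (C := N) (M := fun p t => Bm N q p0 t p)
    (M1 := fun y x => if x = p0 then Bm N q p0 p0 y + Bm N q p0 q y else Bm N q p0 x y)
    hqN hp0N (Ne.symm hq0) (fun y _ x _ hx => by rw [if_neg hx]) (fun y _ => by rw [if_pos rfl])]
  rw [pm_unit (r := q) (c := q) hqN hqN, hNe]
  · refine pm_congr fun p hp t ht => ?_
    have hpq : p ≠ q := fun h => hq (h ▸ hp)
    have htq : t ≠ q := fun h => hq (h ▸ ht)
    rw [hMT]
    unfold Bm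
    simp only [if_neg hpq, if_neg htq, if_neg (Ne.symm hq0), if_true]
    by_cases e : t = p0
    · rw [if_pos e, if_pos e]
      by_cases e' : p = p0
      · rw [if_pos e', if_pos e'.symm, e', add_assoc]
      · rw [if_neg e', if_neg (Ne.symm e'), add_assoc]
    · rw [if_neg e, if_neg e]
      by_cases e' : p = t
      · rw [if_pos e', if_pos e'.symm, e']
      · rw [if_neg e', if_neg (Ne.symm e')]
  · intro t ht
    unfold Bm
    simp only [if_true]
    by_cases e : t = p0
    · have htq : t ≠ q := by rw [e]; exact Ne.symm hq0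
      rw [if_pos e, if_neg htq, if_pos (Or.inl trivial), if_pos (Or.inr trivial)]
      decide
    · rw [if_neg e]
      by_cases e' : t = q
      · rw [if_pos e', if_pos (Or.inr e')]
      · rw [if_neg e', if_neg]
        rintro (h | h)
        · exact e h
        · exact e' h

end Pool.Agent.NH1
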