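import Pool.Agent.NH1.Sub

/-!
# Binary quadratic forms of discriminant `-56` (helper17)
-/

set_option autoImplicit false

namespace Pool.Agent.NH1

open Finset Matrix
open Pool.Agent.Z700 (V3 vec pr cp Ln n0 ep X2)

namespace Cl

/-- numbers represented by the three forms -/
def Rep (n : ℤ) : Prop := ∃ X Y : ℤ, n = X ^ 2 + 14 * Y ^ 2 ∨ n = 2 * X ^ 2 + 7 * Y ^ 2 ∨
  n = 3 * X ^ 2 + 2 * X * Y + 5 * Y ^ 2

theorem red (a : ℕ) : 0 < a → ∀ b c : ℤ, (a : ℤ) * c - b ^ 2 = 14 → ∀ x y : ℤ,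
    Rep (a * x ^ 2 + 2 * b * x * y + c * y ^ 2) := by
  induction a using Nat.strong_induction_on with
  | _ a ih =>
    intro ha b c h x y
    have ha' : (0 : ℤ) < a := by exact_mod_cast ha
    -- reduce the middle coefficient
    obtain ⟨k, hk1, hk2⟩ : ∃ k : ℤ, -(a : ℤ) ≤ 2 * (b + k * a) ∧ 2 * (b + k * a) ≤ a := by
      refine ⟨-((2 * b + a) / (2 * a)), ?_, ?_⟩
      · have h1 := Int.emod_nonneg (2 * b + a) (b := 2 * a) (by omega)
        have h2 := Int.emod_add_mul_ediv (2 * b + a) (2 * a)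
        nlinarith
      · have h1 := Int.emod_lt_of_pos (2 * b + a) (b := 2 * a) (by omega)
        have h2 := Int.emod_add_mul_ediv (2 * b + a) (2 * a)
        nlinarith
    obtain ⟨b', hb'⟩ : ∃ b', b' = b + k * a := ⟨_, rfl⟩
    obtain ⟨c', hc'⟩ : ∃ c', c' = c + 2 * k * b + k ^ 2 * a := ⟨_, rfl⟩
    rw [← hb'] at hk1 hk2
    have h' : (a : ℤ) * c' - b' ^ 2 = 14 := by
      rw [hb', hc']
      linear_combination h
    have e : (a : ℤ) * x ^ 2 + 2 * b * x * y + c * y ^ 2 =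
        a * (x - k * y) ^ 2 + 2 * b' * (x - k * y) * y + c' * y ^ 2 := by
      rw [hb', hc']
      ring
    rw [e]
    obtain ⟨x', hx'⟩ : ∃ x', x' = x - k * y := ⟨_, rfl⟩
    rw [← hx']
    have hc0 : 0 < c' := by
      by_contra hcon
      push Not at hcon
      nlinarith [sq_nonneg b']
    rcases lt_or_ge c' (a : ℤ) with hlt | hge
    · have h1 := ih c'.toNat (by omega) (by omega) b' a
        (by rw [Int.toNat_of_nonneg hc0.le]; linarith) y x'
      rw [Int.toNat_of_nonneg hc0.le] at h1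
      have e2 : (a : ℤ) * x' ^ 2 + 2 * b' * x' * y + c' * y ^ 2 =
        c' * y ^ 2 + 2 * b' * y * x' + a * x' ^ 2 := by ring
      rw [e2]
      exact h1
    · have ha4 : (a : ℤ) ≤ 4 := by
        by_contra hcon
        push Not at hcon
        have h2 : 4 * b' ^ 2 ≤ (a : ℤ) ^ 2 := by nlinarith
        nlinarith
      have hb2 : b' ≤ 2 := by omega
      have hb3 : -2 ≤ b' := by omega
      have ha1 : (a : ℤ) = 1 ∨ (a : ℤ) = 2 ∨ (a : ℤ) = 3 ∨ (a : ℤ) = 4 := by omega
      have hbc : b' = -2 ∨ b' = -1 ∨ b' = 0 ∨ b' = 1 ∨ b' = 2 := by omega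
      rcases ha1 with h1 | h1 | h1 | h1 <;> rw [h1] at h' hk1 hk2 ⊢ <;>
        rcases hbc with h2 | h2 | h2 | h2 | h2 <;> rw [h2] at h' hk1 hk2 ⊢ <;>
        first
          | (exfalso; omega)
          | skip
      · have h3 : c' = 14 := by omega
        exact ⟨x', y, Or.inl (by rw [h3]; ring)⟩
      · have h3 : c' = 7 := by omega
        exact ⟨x', y, Or.inr (Or.inl (by rw [h3]; ring))⟩
      · have h3 : c' = 5 := by omega
        exact ⟨x', -y, Or.inr (Or.inr (by rw [h3]; ring))⟩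
      · have h3 : c' = 5 := by omega
        exact ⟨x', y, Or.inr (Or.inr (by rw [h3]; ring))⟩

theorem rep_of {n : ℕ} (hn : 0 < n) {z : ℤ} (h : (n : ℤ) ∣ z ^ 2 + 14) : Rep n := by
  obtain ⟨c, hc⟩ := h
  have h1 := red n hn z c (by linarith) 1 0
  have e : (n : ℤ) * 1 ^ 2 + 2 * z * 1 * 0 + c * 0 ^ 2 = n := by ring
  rwa [e] at h1

theorem sq_mod (X : ℤ) : X ^ 2 % 7 = 0 ∨ X ^ 2 % 7 = 1 ∨ X ^ 2 % 7 = 2 ∨ X ^ 2 % 7 = 4 := by
  have h : X % 7 = 0 ∨ X % 7 = 1 ∨ X % 7 = 2 ∨ X % 7 = 3 ∨ X % 7 = 4 ∨ X % 7 = 5 ∨ X % 7 = 6 := by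
    omega
  rcases h with h | h | h | h | h | h | h <;> simp [pow_two, Int.mul_emod, h]

end Cl

open Cl

/-- **CL2** -/
theorem t_CL2 : S_CL2 := by
  intro n hn h7 ⟨z, hz⟩
  have hn0 : 0 < n := hn.pos
  obtain ⟨X, Y, h | h | h⟩ := rep_of hn0 hz
  · exfalso
    have := sq_mod X
    omega
  · exfalso
    have := sq_mod X
    omega
  · refine ⟨![X + 2 * Y, X - Y, -X], ?_, ?_⟩
    · rw [h]
      simp [Matrix.vec3_dotProduct]
      ring
    · simp
      ring

theorem exists_sq14 {p : ℕ} (hp : p.Prime) (h2 : sq2 p) (h7 : sq7 p) :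
    ∃ z : ℤ, (p : ℤ) ∣ z ^ 2 + 14 := by
  have : Fact p.Prime := ⟨hp⟩
  have : Fact (Nat.Prime 7) := ⟨by norm_num⟩
  have hp2 : p ≠ 2 := by
    rintro rfl
    unfold sq2 at h2
    omega
  have hp7 : p ≠ 7 := by
    rintro rfl
    unfold sq7 at h7
    omega
  have hleg : legendreSym p (-14) = 1 := by
    have e : (-14 : ℤ) = (-1) * 2 * 7 := by norm_num
    rw [e, legendreSym.mul, legendreSym.mul, legendreSym.at_neg_one hp2, legendreSym.at_two hp2]
    have h7p : legendreSym p 7 = (-1) ^ (7 / 2 * (p / 2)) * legendreSym 7 p := by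
      have := legendreSym.quadratic_reciprocity' (p := 7) (q := p) (by norm_num) hp2
      exact_mod_cast this
    have hp7' : legendreSym 7 (p : ℤ) = 1 := by
      have h3 : legendreSym 7 (p : ℤ) = legendreSym 7 ((p : ℤ) % 7) := legendreSym.mod 7 (p : ℤ)
      rw [h3]
      have h4 : ((p : ℤ) % 7 = 1) ∨ ((p : ℤ) % 7 = 2) ∨ ((p : ℤ) % 7 = 4) := by
        unfold sq7 at h7
        omega
      have l2 : legendreSym 7 2 = 1 := by
        rw [legendreSym.at_two (by norm_num)]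
        decide
      have l4 : legendreSym 7 4 = 1 := by
        rw [show (4 : ℤ) = 2 * 2 by norm_num, legendreSym.mul, l2]
        norm_num
      rcases h4 with h4 | h4 | h4 <;> rw [h4]
      · exact legendreSym.at_one 7
      · exact l2
      · exact l4
    rw [h7p, hp7']
    rcases h2 with h2 | h2
    · have e4 : ZMod.χ₄ (p : ZMod 4) = 1 := by
        rw [ZMod.χ₄_nat_one_mod_four (by omega)]
      have e8 : ZMod.χ₈ (p : ZMod 8) = 1 := by
        rw [ZMod.χ₈_nat_mod_eight, h2]; rfl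
      rw [e4, e8]
      have : Even (7 / 2 * (p / 2)) := by
        rw [Nat.even_mul]
        right
        rw [Nat.even_iff]
        omega
      rw [this.neg_one_pow]
      norm_num
    · have e4 : ZMod.χ₄ (p : ZMod 4) = -1 := by
        rw [ZMod.χ₄_nat_three_mod_four (by omega)]
      have e8 : ZMod.χ₈ (p : ZMod 8) = 1 := by
        rw [ZMod.χ₈_nat_mod_eight, h2]; rfl
      rw [e4, e8]
      have : Odd (7 / 2 * (p / 2)) := by
        rw [Nat.odd_mul]
        constructor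
        · decide
        · rw [Nat.odd_iff]
          omega
      rw [this.neg_one_pow]
      norm_num
  have h14 : ((-14 : ℤ) : ZMod p) ≠ 0 := by
    intro h0
    rw [(legendreSym.eq_zero_iff p (-14)).mpr h0] at hleg
    exact one_ne_zero hleg.symm
  obtain ⟨w, hw⟩ := (legendreSym.eq_one_iff p h14).mp hleg
  refine ⟨(w.val : ℤ), ?_⟩
  rw [← ZMod.intCast_zmod_eq_zero_iff_dvd]
  push_cast
  rw [ZMod.natCast_zmod_val, pow_two, ← hw]
  push_cast
  ring

/-- **CL1** -/
theorem t_CL1 : S_CL1 := by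
  intro p hp h2 h7
  have hp0 := hp.pos
  constructor
  · obtain ⟨z, hz⟩ := exists_sq14 hp h2 h7
    obtain ⟨X, Y, h | h | h⟩ := rep_of hp0 hz
    · right
      refine ⟨X.natAbs, Y.natAbs, ?_⟩
      zify
      rw [sq_abs, sq_abs]
      exact h
    · left
      refine ⟨X.natAbs, Y.natAbs, ?_⟩
      zify
      rw [sq_abs, sq_abs]
      exact h
    · exfalso
      have h1 : 3 * (p : ℤ) = (3 * X + Y) ^ 2 + 14 * Y ^ 2 := by rw [h]; ring
      have h3 := sq_mod (3 * X + Y)
      unfold sq7 at h7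
      omega
  · rintro ⟨⟨u, v, huv⟩, x, y, hxy⟩
    have hodd : p % 2 = 1 := by
      unfold sq2 at h2
      omega
    have hp7 : ¬ (p : ℤ) ∣ 7 := by
      intro h
      have h3 : p ∣ 7 := by exact_mod_cast h
      rcases (Nat.dvd_prime (by norm_num : Nat.Prime 7)).mp h3 with h4 | h4
      · exact hp.ne_one h4
      · rw [h4] at h7
        unfold sq7 at h7
        omega
    have hpz : Prime (p : ℤ) := Nat.prime_iff_prime_int.mp hp
    have e1 : (p : ℤ) = x ^ 2 + 14 * y ^ 2 := by exact_mod_cast hxy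
    have e2 : (p : ℤ) = 2 * u ^ 2 + 7 * v ^ 2 := by exact_mod_cast huv
    have h3 : (p : ℤ) ∣ 7 * ((x * v - 2 * y * u) * (x * v + 2 * y * u)) := by
      refine ⟨(x : ℤ) ^ 2 - 2 * u ^ 2, ?_⟩
      have e3 : (7 : ℤ) * v ^ 2 = p - 2 * u ^ 2 := by linarith
      have e4 : (14 : ℤ) * y ^ 2 = p - x ^ 2 := by linarith
      have : 7 * (((x : ℤ) * v - 2 * y * u) * (x * v + 2 * y * u)) =
        x ^ 2 * (7 * v ^ 2) - 2 * u ^ 2 * (14 * y ^ 2) := by ring
      rw [this, e3, e4]
      ring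
    -- final contradiction
    have key : ∀ m t : ℤ, (p : ℤ) ^ 2 = 2 * m ^ 2 + 7 * (p * t) ^ 2 → False := by
      intro m t h
      have hpp : (0 : ℤ) < p := by exact_mod_cast hp0
      have ht : t = 0 := by
        by_contra hne
        have h5 : 1 ≤ t ^ 2 := by
          have := sq_pos_of_ne_zero hne
          omega
        have h6 : 0 < (p : ℤ) ^ 2 := by positivity
        nlinarith [sq_nonneg m]
      have h' : (p : ℤ) ^ 2 = 2 * m ^ 2 := by
        rw [h, ht]
        ring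
      have h5 : (p : ℤ) ^ 2 % 2 = 1 := by
        have : (p : ℤ) % 2 = 1 := by omega
        rw [pow_two, Int.mul_emod, this]
        norm_num
      omega
    rcases hpz.dvd_or_dvd h3 with h4 | h4
    · exact hp7 h4
    · rcases hpz.dvd_or_dvd h4 with ⟨t, ht⟩ | ⟨t, ht⟩
      · apply key ((x : ℤ) * u + 7 * y * v) t
        rw [← ht, pow_two]
        nth_rewrite 1 [e1]
        rw [e2]
        ring
      · apply key ((x : ℤ) * u - 7 * y * v) t
        rw [← ht, pow_two]
        nth_rewrite 1 [e1]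
        rw [e2]
        ring

end Pool.Agent.NH1
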