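import Pool.Agent.NH1.Sub2

/-!
# Project NH1: the number of vectors orthogonal to `(1,2,3)` modulo two
-/

set_option autoImplicit false

namespace Pool.Agent.NH1

open Finset Matrix
open Pool.Agent.Z700 (V3 vec pr cp Ln n0 ep X2)

noncomputable section

namespace Cnt

theorem sgn {α : Type} [DecidableEq α] [Fintype α] (σ : Equiv.Perm α) (x : ZMod 2) :
    Equiv.Perm.sign σ • x = x := by
  rcases Int.units_eq_one_or (Equiv.Perm.sign σ) with h | h
  · rw [h, one_smul]
  · rw [h, Units.smul_def]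
    simp only [Units.val_neg, Units.val_one, neg_smul, one_smul]
    exact CharTwo.neg_eq x

/-- the permanent modulo two is the determinant -/
theorem perm2_det (N : Finset ℕ) (M : ℕ → ℕ → ZMod 2) :
    perm2 N N M = Matrix.det (Matrix.of fun (x y : N) => M x.1 y.1) := by
  classical
  unfold perm2
  rw [← Matrix.det_transpose, Matrix.det_apply]
  refine Fintype.sum_equiv (Equiv.refl _) _ _ fun σ => ?_
  rw [sgn]
  rfl

/-- the number of solutions of a linear system modulo two is the determinant modulo two -/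
theorem card_sol {n : Type} [Fintype n] [DecidableEq n] (M : Matrix n n (ZMod 2))
    (s : n → ZMod 2) :
    (((univ.filter fun y : n → ZMod 2 => M *ᵥ y = s).card : ℕ) : ZMod 2) = M.det := by
  by_cases h : M.det = 0
  · rw [h]
    obtain ⟨k, hk, hk0⟩ := Matrix.exists_mulVec_eq_zero_iff.2 h
    rw [Finset.card_eq_sum_ones, Nat.cast_sum]
    have h2 : ∀ x : ZMod 2, x + x = 0 := by decide
    refine Finset.sum_involution (fun y _ => y + k) ?_ ?_ ?_ ?_
    · intro a _
      exact h2 _
    · intro a _ _ hh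
      exact hk (by simpa using hh)
    · intro a ha
      rw [mem_filter] at ha ⊢
      refine ⟨mem_univ _, ?_⟩
      rw [Matrix.mulVec_add, ha.2, hk0, add_zero]
    · intro a _
      funext i
      have := h2 (k i)
      simp only [Pi.add_apply, add_assoc, this, add_zero]
  · have hz : ∀ x : ZMod 2, x ≠ 0 → x = 1 := by decide
    have hd : M.det = 1 := hz _ h
    have hu : IsUnit M.det := by rw [hd]; exact isUnit_one
    rw [hd]
    have : (univ.filter fun y : n → ZMod 2 => M *ᵥ y = s) = {M⁻¹ *ᵥ s} := by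
      ext y
      rw [mem_filter, mem_singleton]
      constructor
      · rintro ⟨_, hy⟩
        rw [← hy, Matrix.mulVec_mulVec, Matrix.nonsing_inv_mul _ hu, Matrix.one_mulVec]
      · intro hy
        refine ⟨mem_univ _, ?_⟩
        rw [hy, Matrix.mulVec_mulVec, Matrix.mul_nonsing_inv _ hu, Matrix.one_mulVec]
    rw [this, card_singleton]
    rfl

/-- the same for subsets -/
theorem card_sub (N : Finset ℕ) (B : ℕ → ℕ → ZMod 2) (s : ℕ → ZMod 2) :
    ((((N.powerset).filter fun T => ∀ x ∈ N, s x + ∑ y ∈ T, B x y = 0).card : ℕ) : ZMod 2) =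
      perm2 N N B := by
  classical
  rw [perm2_det, ← card_sol (Matrix.of fun (x y : N) => B x.1 y.1) (fun x : N => s x.1)]
  congr 1
  have hs2 : ∀ a b : ZMod 2, a + b = 0 ↔ b = a := by decide
  have hmul : ∀ T ⊆ N, ∀ x : N, (Matrix.of fun (x y : N) => B x.1 y.1) *ᵥ
      (fun x : N => if x.1 ∈ T then (1 : ZMod 2) else 0) = fun x : N => ∑ y ∈ T, B x.1 y := by
    intro T hT _
    funext x
    simp only [Matrix.mulVec, dotProduct, Matrix.of_apply]
    rw [Finset.sum_coe_sort N (fun y => B x.1 y * (if y ∈ T then (1 : ZMod 2) else 0))]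
    rw [← Finset.sum_subset hT]
    · refine Finset.sum_congr rfl fun y hy => ?_
      rw [if_pos hy, mul_one]
    · intro y _ hy
      rw [if_neg hy, mul_zero]
  refine Finset.card_bij (fun T _ => fun x : N => if x.1 ∈ T then (1 : ZMod 2) else 0) ?_ ?_ ?_
  · intro T hT
    rw [mem_filter, mem_powerset] at hT
    rw [mem_filter]
    refine ⟨mem_univ _, ?_⟩
    funext x
    rw [hmul T hT.1 x]
    exact (hs2 _ _).1 (hT.2 x.1 x.2)
  · intro T hT T' hT' hh
    rw [mem_filter, mem_powerset] at hT hT'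
    ext x
    by_cases hx : x ∈ N
    · have := congrFun hh ⟨x, hx⟩
      simp only at this
      by_cases h1 : x ∈ T <;> by_cases h2 : x ∈ T' <;> simp_all
    · exact ⟨fun h => absurd (hT.1 h) hx, fun h => absurd (hT'.1 h) hx⟩
  · intro y hy
    rw [mem_filter] at hy
    have hT : (N.attach.filter (fun x => y x = 1)).map (Function.Embedding.subtype _) ⊆ N := by
      intro x hx
      rw [mem_map] at hx
      obtain ⟨a, _, rfl⟩ := hx
      exact a.2
    have hy' : (fun x : N => if x.1 ∈ (N.attach.filter (fun x => y x = 1)).map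
        (Function.Embedding.subtype _) then (1 : ZMod 2) else 0) = y := by
      funext x
      have hz : ∀ x : ZMod 2, x ≠ 1 → x = 0 := by decide
      by_cases h1 : y x = 1
      · rw [if_pos, h1]
        rw [mem_map]
        exact ⟨x, by rw [mem_filter]; exact ⟨mem_attach _ _, h1⟩, rfl⟩
      · rw [if_neg, hz _ h1]
        rw [mem_map]
        rintro ⟨a, ha, hax⟩
        rw [mem_filter] at ha
        have : a = x := Subtype.ext hax
        rw [this] at ha
        exact h1 ha.2
    refine ⟨_, ?_, hy'⟩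
    rw [mem_filter, mem_powerset]
    refine ⟨hT, fun x hx => ?_⟩
    have := hmul _ hT ⟨x, hx⟩
    rw [hy', hy.2] at this
    exact (hs2 _ _).2 (congrFun this ⟨x, hx⟩).symm

/-- the additive sign -/
def sg (x : ℤ) : ZMod 2 := if x = -1 then 1 else 0

theorem sg_mul {x y : ℤ} (hx : x = 1 ∨ x = -1) (hy : y = 1 ∨ y = -1) :
    sg (x * y) = sg x + sg y := by
  rcases hx with rfl | rfl <;> rcases hy with rfl | rfl <;> decide

theorem sg_inj {x y : ℤ} (hx : x = 1 ∨ x = -1) (hy : y = 1 ∨ y = -1) :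
    x = y ↔ sg x + sg y = 0 := by
  rcases hx with rfl | rfl <;> rcases hy with rfl | rfl <;> decide

theorem pm_mul {x y : ℤ} (hx : x = 1 ∨ x = -1) (hy : y = 1 ∨ y = -1) :
    x * y = 1 ∨ x * y = -1 := by
  rcases hx with rfl | rfl <;> rcases hy with rfl | rfl <;> decide

theorem pm_prod (T : Finset ℕ) (f : ℕ → ℤ) (h : ∀ t ∈ T, f t = 1 ∨ f t = -1) :
    (∏ t ∈ T, f t = 1 ∨ ∏ t ∈ T, f t = -1) ∧ sg (∏ t ∈ T, f t) = ∑ t ∈ T, sg (f t) := by
  classical
  induction T using Finset.induction_on with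
  | empty => 
    refine ⟨Or.inl (by rw [prod_empty]), ?_⟩
    rw [prod_empty, sum_empty]
    decide
  | insert a T ha ih =>
    have h1 := h a (mem_insert_self _ _)
    obtain ⟨i1, i2⟩ := ih fun t ht => h t (mem_insert_of_mem ht)
    rw [prod_insert ha, sum_insert ha, sg_mul h1 i1, i2]
    exact ⟨pm_mul h1 i1, rfl⟩

theorem js_prod (T : Finset ℕ) (p : ℕ) :
    jacobiSym ((pr T : ℕ) : ℤ) p = ∏ t ∈ T, jacobiSym (t : ℤ) p := by
  classical
  induction T using Finset.induction_on with
  | empty => 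
    unfold pr
    rw [prod_empty, prod_empty, Nat.cast_one, jacobiSym.one_left]
  | insert a T ha ih =>
    unfold pr at ih ⊢
    rw [prod_insert ha, prod_insert ha, Nat.cast_mul, jacobiSym.mul_left, ih]

theorem js_pm {t p : ℕ} (ht : t.Prime) (hp : p.Prime) (h : t ≠ p) :
    jacobiSym (t : ℤ) p = 1 ∨ jacobiSym (t : ℤ) p = -1 := by
  refine jacobiSym.eq_one_or_neg_one ?_
  rw [Int.gcd_natCast_natCast]
  exact (Nat.coprime_primes ht hp).2 h

theorem dot_rd (p : ℕ) (v w : V3) : rd p v ⬝ᵥ rd p w = ((v ⬝ᵥ w : ℤ) : ZMod p) := by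
  unfold rd dotProduct
  push_cast
  rfl

/-- the characters of the vectors of norm `pr N` at `p ∈ N` -/
theorem ph_pm (h0 : S_PHI) {N : Finset ℕ} (hN : Pm N) {p : ℕ} (hp : p ∈ N) {v : V3}
    (hv : v ∈ vec (pr N : ℤ)) : ph p (rd p v) = 1 ∨ ph p (rd p v) = -1 := by
  have hv' : v ⬝ᵥ v = (pr N : ℤ) := by
    unfold Pool.Agent.Z700.vec at hv
    exact (mem_filter.1 hv).2
  obtain ⟨hp1, hp2, _⟩ := hN p hp
  have hpr : pr N = p * pr (N.erase p) := by
    unfold pr
    exact (Finset.mul_prod_erase N (fun x => x) hp).symm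
  refine (ph_spec h0 hp1 hp2).pm _ ?_ ?_
  · rw [dot_rd, hv', hpr]
    push_cast
    rw [ZMod.natCast_self, zero_mul]
  · intro h
    have hd : ∀ i, (p : ℤ) ∣ v i := by
      intro i
      have := congrFun h i
      unfold rd at this
      exact (ZMod.intCast_zmod_eq_zero_iff_dvd _ _).1 this
    have h3 : (p : ℤ) * p ∣ v ⬝ᵥ v := by
      unfold dotProduct
      exact Finset.dvd_sum fun i _ => mul_dvd_mul (hd i) (hd i)
    rw [hv', hpr] at h3
    push_cast at h3
    have hp0 : (p : ℤ) ≠ 0 := by exact_mod_cast hp1.ne_zero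
    have h4 : (p : ℤ) ∣ (pr (N.erase p) : ℤ) := (mul_dvd_mul_iff_left hp0).1 h3
    have h5 : p ∣ pr (N.erase p) := by exact_mod_cast h4
    unfold pr at h5
    obtain ⟨r, hr, hrp⟩ := (hp1.prime.dvd_finsetProd_iff _).1 h5
    have hr' := mem_erase.1 hr
    exact hr'.1 ((Nat.prime_dvd_prime_iff_eq hp1 (hN r hr'.2).1).1 hrp).symm

/-- the signs of the vectors `u T` -/
theorem signs {P : Finset ℕ} {q : ℕ} (hN : Pm (insert q P)) (hq : q ∉ P) (p0 : ℕ)
    {u : Finset ℕ → V3}
    (hpm : ∀ T ⊆ P, ∀ p ∈ insert q P, ph p (rd p (u T)) = 1 ∨ ph p (rd p (u T)) = -1)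
    (h4 : ∀ T ⊆ P, ∀ p ∈ P, ph p (rd p (u T)) = ph p (rd p (u ∅)) *
      ∏ t ∈ T, (if t = p then jacobiSym (pr ((insert q P).erase p)) p else jacobiSym t p))
    (h5 : ∀ T ⊆ P, ph q (rd q (u T)) = ph q (rd q (u ∅)) *
      ∏ t ∈ T, (jacobiSym t q * (open Classical in if X2 t then -1 else 1))) :
    ∀ T ⊆ P, ∀ x ∈ insert q P, sg (ph x (rd x (u T))) =
      sg (ph x (rd x (u ∅))) + ∑ y ∈ T, Bm (insert q P) q p0 x y := by
  classical
  intro T hT x hx
  rcases mem_insert.1 hx with rfl | hxP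
  · rw [h5 T hT]
    have hpr : ∀ t ∈ T, (jacobiSym t x * (if X2 t then -1 else 1) = 1 ∨
        jacobiSym t x * (if X2 t then -1 else 1) = -1) := by
      intro t ht
      have htP := hT ht
      have h1 := js_pm (hN t (mem_insert_of_mem htP)).1 (hN x hx).1 (fun h => hq (h ▸ htP))
      refine pm_mul h1 ?_
      split_ifs
      · exact Or.inr rfl
      · exact Or.inl rfl
    obtain ⟨i1, i2⟩ := pm_prod T _ hpr
    have hh : sg (ph x (rd x (u ∅)) * ∏ t ∈ T, (jacobiSym t x * (if X2 t then -1 else 1))) =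
        sg (ph x (rd x (u ∅))) + ∑ t ∈ T, sg (jacobiSym t x * (if X2 t then -1 else 1)) := by
      rw [sg_mul (hpm ∅ (empty_subset _) x hx) i1, i2]
    rw [hh]
    congr 1
    refine Finset.sum_congr rfl fun t ht => ?_
    have htP := hT ht
    have hne : t ≠ x := fun h => hq (h ▸ htP)
    have h1 := js_pm (hN t (mem_insert_of_mem htP)).1 (hN x hx).1 hne
    rw [sg_mul h1 (by split_ifs <;> simp)]
    unfold Bm
    rw [if_neg hne, if_pos rfl]
    unfold lg gX sg
    congr 1
    by_cases h : X2 t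
    · rw [if_pos h, if_pos h, if_pos rfl]
    · rw [if_neg h, if_neg h, if_neg (by decide)]
  · have hxq : x ≠ q := fun h => hq (h ▸ hxP)
    have hx1 := (hN x hx).1
    have hpr1 : ∀ r ∈ (insert q P).erase x, jacobiSym (r : ℤ) x = 1 ∨ jacobiSym (r : ℤ) x = -1 := by
      intro r hr
      rw [mem_erase] at hr
      exact js_pm (hN r hr.2).1 hx1 hr.1
    obtain ⟨j1, j2⟩ := pm_prod _ _ hpr1
    have hpr : ∀ t ∈ T, ((if t = x then jacobiSym (pr ((insert q P).erase x)) x
        else jacobiSym t x) = 1 ∨ (if t = x then jacobiSym (pr ((insert q P).erase x)) x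
        else jacobiSym t x) = -1) := by
      intro t ht
      split_ifs with h
      · rw [js_prod]
        exact j1
      · exact js_pm (hN t (mem_insert_of_mem (hT ht))).1 hx1 h
    obtain ⟨i1, i2⟩ := pm_prod T _ hpr
    rw [h4 T hT x hxP, sg_mul (hpm ∅ (empty_subset _) x hx) i1, i2]
    congr 1
    refine Finset.sum_congr rfl fun t ht => ?_
    have hne : t ≠ q := fun h => hq (h ▸ hT ht)
    unfold Bm
    rw [if_neg hne, if_neg hxq]
    by_cases h : t = x
    · subst h
      rw [if_pos rfl, if_pos rfl, js_prod, j2]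
      rfl
    · rw [if_neg h, if_neg (Ne.symm h)]
      rfl

end Cnt

/-- CNT -/
theorem t_CNT (h0 : S_PHI) (h : S_FLIP) : S_CNT := by
  classical
  intro P q hN hq hP hI β hβ p0 hp0
  obtain ⟨u, h1, h2, h3, h4, h5⟩ := h P q hN hq hP hI β hβ
  have hpm : ∀ T ⊆ P, ∀ p ∈ insert q P, ph p (rd p (u T)) = 1 ∨ ph p (rd p (u T)) = -1 :=
    fun T hT p hp => Cnt.ph_pm h0 hN hp (h1 T hT).1
  have hs := Cnt.signs hN hq p0 hpm h4 h5
  have hZ : ∀ γ : ℕ → ℤ, Z0 (insert q P) β γ =
      ((P.powerset).filter fun T => ∀ p ∈ insert q P, ph p (rd p (u T)) = γ p).card := by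
    intro γ
    unfold Z0
    symm
    refine Finset.card_bij (fun T _ => u T) ?_ ?_ ?_
    · intro T hT
      rw [mem_filter, mem_powerset] at hT
      obtain ⟨a, b, c⟩ := h1 T hT.1
      rw [mem_filter]
      exact ⟨a, b, c, hT.2⟩
    · intro T hT T' hT' hh
      rw [mem_filter, mem_powerset] at hT hT'
      exact h2 T hT.1 T' hT'.1 hh
    · intro v hv
      rw [mem_filter] at hv
      obtain ⟨T, hT, rfl⟩ := h3 v hv.1 hv.2.1 hv.2.2.1
      refine ⟨T, ?_, rfl⟩
      rw [mem_filter, mem_powerset]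
      exact ⟨hT, hv.2.2.2⟩
  rw [← Cnt.card_sub (insert q P) (Bm (insert q P) q p0) (fun x => Cnt.sg (ph x (rd x (u ∅))))]
  congr 1
  rw [hZ, hZ]
  have hqP : ∀ T ⊆ P, q ∉ T := fun T hT h => hq (hT h)
  rw [Finset.powerset_insert, Finset.filter_union, Finset.card_union_of_disjoint]
  · congr 1
    · congr 1
      refine Finset.filter_congr fun T hT => ?_
      rw [mem_powerset] at hT
      refine forall₂_congr fun x hx => ?_
      rw [Cnt.sg_inj (hpm T hT x hx) (Or.inl rfl), hs T hT x hx]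
      have : Cnt.sg 1 = 0 := by decide
      rw [this, add_zero]
    · rw [Finset.filter_image, Finset.card_image_of_injOn]
      · congr 1
        refine Finset.filter_congr fun T hT => ?_
        rw [mem_powerset] at hT
        refine forall₂_congr fun x hx => ?_
        rw [Cnt.sg_inj (hpm T hT x hx) (by split_ifs <;> simp), hs T hT x hx,
          Finset.sum_insert (hqP T hT)]
        have hB : Bm (insert q P) q p0 x q = if x = p0 ∨ x = q then 1 else 0 := by
          unfold Bm
          rw [if_pos rfl]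
        have hc : Cnt.sg (if x = p0 ∨ x = q then -1 else 1) = if x = p0 ∨ x = q then 1 else 0 := by
          split_ifs <;> decide
        rw [hB, hc, add_comm (if x = p0 ∨ x = q then (1 : ZMod 2) else 0) (∑ y ∈ T, _), add_assoc]
      · intro T hT T' hT' hh
        rw [Finset.mem_coe, mem_filter, mem_powerset] at hT hT'
        rw [← Finset.erase_insert (hqP T hT.1), hh, Finset.erase_insert (hqP T' hT'.1)]
  · rw [Finset.disjoint_left]
    intro T hT hT'
    rw [mem_filter, mem_powerset] at hT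
    rw [mem_filter, mem_image] at hT'
    obtain ⟨⟨S, hS, rfl⟩, _⟩ := hT'
    exact hqP _ hT.1 (mem_insert_self _ _)

end

end Pool.Agent.NH1
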