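import Pool.Agent.NH1.Defs

/-!
# Project NH1: the Fourier transform of the character of the isotropic vectors

For every function `E` on `ZMod p` the sum `∑ v, f v * E (v ⬝ᵥ w)` is a constant multiple of `f w`:
for non isotropic `w` there is a reflection fixing `w` which changes the sign of `f`, and for isotropic
`w` one uses `f v * f w = lz p (2 * (v ⬝ᵥ w))`.
-/

set_option autoImplicit false

namespace Pool.Agent.NH1

open Finset Matrix

noncomputable section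

namespace FT

variable {p : ℕ} [hp : Fact p.Prime]

theorem lz_eq (c : ZMod p) : lz p c = quadraticChar (ZMod p) c := by
  unfold lz
  rw [← jacobiSym.legendreSym.to_jacobiSym, legendreSym]
  simp

theorem lz_mul (c d : ZMod p) : lz p (c * d) = lz p c * lz p d := by
  rw [lz_eq, lz_eq, lz_eq, map_mul]

theorem lz_sq {c : ZMod p} (hc : c ≠ 0) : lz p (c ^ 2) = 1 := by
  rw [lz_eq, quadraticChar_sq_one' hc]

theorem lz_non {c : ZMod p} (hc : ¬ IsSquare c) : lz p c = -1 := by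
  rw [lz_eq]; exact quadraticChar_neg_one_iff_not_isSquare.2 hc

theorem parallel {v x : Fin 3 → ZMod p} (hv : v ≠ 0) (h : ∀ i j, v i * x j = v j * x i) :
    ∃ μ : ZMod p, x = μ • v := by
  obtain ⟨i, hi⟩ : ∃ i, v i ≠ 0 := by
    by_contra hc
    push Not at hc
    exact hv (funext hc)
  refine ⟨x i / v i, ?_⟩
  funext j
  simp only [Pi.smul_apply, smul_eq_mul]
  field_simp
  linear_combination h i j

theorem dot3 (v w : Fin 3 → ZMod p) : v ⬝ᵥ w = v 0 * w 0 + v 1 * w 1 + v 2 * w 2 := by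
  simp [dotProduct, Fin.sum_univ_three]

/-- two orthogonal isotropic vectors are proportional -/
theorem prop {v w : Fin 3 → ZMod p} (hv : v ≠ 0) (hvv : v ⬝ᵥ v = 0) (hww : w ⬝ᵥ w = 0)
    (hvw : v ⬝ᵥ w = 0) : ∃ μ : ZMod p, w = μ • v := by
  rw [dot3] at hvv hww hvw
  -- the cross product
  set x : Fin 3 → ZMod p := ![v 1 * w 2 - v 2 * w 1, v 2 * w 0 - v 0 * w 2, v 0 * w 1 - v 1 * w 0]
    with hx
  have hx0 : x 0 = v 1 * w 2 - v 2 * w 1 := rfl
  have hx1 : x 1 = v 2 * w 0 - v 0 * w 2 := rfl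
  have hx2 : x 2 = v 0 * w 1 - v 1 * w 0 := rfl
  obtain ⟨μ, hμ⟩ : ∃ μ : ZMod p, x = μ • v := by
    apply parallel hv
    have h01 : v 0 * x 1 = v 1 * x 0 := by
      rw [hx0, hx1]; linear_combination v 2 * hvw - w 2 * hvv
    have h12 : v 1 * x 2 = v 2 * x 1 := by
      rw [hx1, hx2]; linear_combination v 0 * hvw - w 0 * hvv
    have h20 : v 2 * x 0 = v 0 * x 2 := by
      rw [hx0, hx2]; linear_combination v 1 * hvw - w 1 * hvv
    intro i j
    fin_cases i <;> fin_cases j <;> simp <;>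
      first | exact h01 | exact h01.symm | exact h12 | exact h12.symm | exact h20 | exact h20.symm
  have e0 : x 0 = μ * v 0 := by rw [hμ]; rfl
  have e1 : x 1 = μ * v 1 := by rw [hμ]; rfl
  have e2 : x 2 = μ * v 2 := by rw [hμ]; rfl
  -- `w × x = 0`
  have k0 : w 1 * x 2 - w 2 * x 1 = 0 := by
    rw [hx1, hx2]; linear_combination v 0 * hww - w 0 * hvw
  have k1 : w 2 * x 0 - w 0 * x 2 = 0 := by
    rw [hx0, hx2]; linear_combination v 1 * hww - w 1 * hvw
  have k2 : w 0 * x 1 - w 1 * x 0 = 0 := by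
    rw [hx0, hx1]; linear_combination v 2 * hww - w 2 * hvw
  have m0 : μ * x 0 = 0 := by
    rw [e1, e2] at k0; rw [hx0]; linear_combination -k0
  have m1 : μ * x 1 = 0 := by
    rw [e0, e2] at k1; rw [hx1]; linear_combination -k1
  have m2 : μ * x 2 = 0 := by
    rw [e0, e1] at k2; rw [hx2]; linear_combination -k2
  have hz : x 0 = 0 ∧ x 1 = 0 ∧ x 2 = 0 := by
    by_cases h : μ = 0
    · rw [e0, e1, e2, h]; simp
    · exact ⟨by simpa [h] using m0, by simpa [h] using m1, by simpa [h] using m2⟩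
  obtain ⟨z0, z1, z2⟩ := hz
  apply parallel hv
  have h01 : v 0 * w 1 = v 1 * w 0 := by rw [hx2] at z2; linear_combination z2
  have h12 : v 1 * w 2 = v 2 * w 1 := by rw [hx0] at z0; linear_combination z0
  have h20 : v 2 * w 0 = v 0 * w 2 := by rw [hx1] at z1; linear_combination z1
  intro i j
  fin_cases i <;> fin_cases j <;> simp <;>
    first | exact h01 | exact h01.symm | exact h12 | exact h12.symm | exact h20 | exact h20.symm

/-- for `w` not isotropic there is `u` orthogonal to `w` of any norm -/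
theorem exists_orth (h2 : p ≠ 2) {w : Fin 3 → ZMod p} (hw : w ⬝ᵥ w ≠ 0) (g : ZMod p) :
    ∃ u : Fin 3 → ZMod p, u ⬝ᵥ w = 0 ∧ u ⬝ᵥ u = g := by
  -- `u1`
  have h20 : (2 : ZMod p) ≠ 0 := by
    intro h
    have : (p : ℕ) ∣ 2 := (ZMod.natCast_eq_zero_iff 2 p).1 (by exact_mod_cast h)
    exact h2 ((Nat.prime_dvd_prime_iff_eq hp.out Nat.prime_two).1 this)
  obtain ⟨u1, hu1, hn1⟩ : ∃ u1 : Fin 3 → ZMod p, u1 ⬝ᵥ w = 0 ∧ u1 ⬝ᵥ u1 ≠ 0 := by
    by_contra hc
    push Not at hc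
    have a1 := hc ![0, w 2, -w 1] (by rw [dot3]; simp; ring)
    have a2 := hc ![-w 2, 0, w 0] (by rw [dot3]; simp; ring)
    have a3 := hc ![w 1, -w 0, 0] (by rw [dot3]; simp; ring)
    rw [dot3] at a1 a2 a3
    simp at a1 a2 a3
    apply hw
    rw [dot3]
    have : (2 : ZMod p) * (w 0 * w 0 + w 1 * w 1 + w 2 * w 2) = 0 := by
      linear_combination a1 + a2 + a3
    simpa [h20] using this
  set d := w ⬝ᵥ w with hd
  set a := u1 ⬝ᵥ u1 with ha
  -- `u2 = w × u1`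
  set u2 : Fin 3 → ZMod p := ![w 1 * u1 2 - w 2 * u1 1, w 2 * u1 0 - w 0 * u1 2,
    w 0 * u1 1 - w 1 * u1 0] with hu2
  have q0 : u2 0 = w 1 * u1 2 - w 2 * u1 1 := rfl
  have q1 : u2 1 = w 2 * u1 0 - w 0 * u1 2 := rfl
  have q2 : u2 2 = w 0 * u1 1 - w 1 * u1 0 := rfl
  have b1 : u2 ⬝ᵥ w = 0 := by rw [dot3, q0, q1, q2]; ring
  have b2 : u2 ⬝ᵥ u1 = 0 := by rw [dot3, q0, q1, q2]; ring
  have b3 : u2 ⬝ᵥ u2 = d * a := by
    rw [dot3] at hu1
    rw [hd, ha, dot3, dot3, dot3, q0, q1, q2]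
    linear_combination (-(u1 0 * w 0 + u1 1 * w 1 + u1 2 * w 2)) * hu1
  obtain ⟨s, t, hst⟩ : ∃ s t : ZMod p, a * s ^ 2 + d * a * t ^ 2 = g := by
    classical
    have hR : Fintype.card (ZMod p) % 2 = 1 := by
      rw [ZMod.card]
      exact (hp.out.eq_two_or_odd).resolve_left h2
    have hda : d * a ≠ 0 := mul_ne_zero hw hn1
    obtain ⟨s, t, h⟩ := FiniteField.exists_root_sum_quadratic
      (f := Polynomial.C a * Polynomial.X ^ 2 - Polynomial.C g)
      (g := Polynomial.C (d * a) * Polynomial.X ^ 2)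
      (by
        rw [Polynomial.degree_sub_C]
        · exact Polynomial.degree_C_mul_X_pow 2 hn1
        · rw [Polynomial.degree_C_mul_X_pow 2 hn1]; decide)
      (Polynomial.degree_C_mul_X_pow 2 hda) hR
    refine ⟨s, t, ?_⟩
    simp at h
    linear_combination h
  refine ⟨s • u1 + t • u2, ?_, ?_⟩
  · rw [add_dotProduct, smul_dotProduct, smul_dotProduct, hu1, b1]; simp
  · have b2' : u1 ⬝ᵥ u2 = 0 := by rw [dotProduct_comm]; exact b2
    simp only [add_dotProduct, dotProduct_add, smul_dotProduct, dotProduct_smul, b2, b2', b3,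
      smul_eq_mul, ← ha]
    linear_combination hst

/-- the reflection in `u` -/
def refl (u v : Fin 3 → ZMod p) : Fin 3 → ZMod p := v - (2 * (v ⬝ᵥ u) / (u ⬝ᵥ u)) • u

theorem refl_dot {u : Fin 3 → ZMod p} (hu : u ⬝ᵥ u ≠ 0) (v : Fin 3 → ZMod p) :
    refl u v ⬝ᵥ u = -(v ⬝ᵥ u) := by
  simp only [refl, sub_dotProduct, smul_dotProduct, smul_eq_mul]
  field_simp
  ring

theorem refl_refl {u : Fin 3 → ZMod p} (hu : u ⬝ᵥ u ≠ 0) (v : Fin 3 → ZMod p) :
    refl u (refl u v) = v := by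
  have h := refl_dot hu v
  rw [refl, h, refl]
  funext i
  simp only [Pi.sub_apply, Pi.smul_apply, smul_eq_mul]
  field_simp
  ring

theorem refl_self {u : Fin 3 → ZMod p} (hu : u ⬝ᵥ u ≠ 0) (v : Fin 3 → ZMod p) :
    refl u v ⬝ᵥ refl u v = v ⬝ᵥ v := by
  have h : u ⬝ᵥ v = v ⬝ᵥ u := dotProduct_comm _ _
  simp only [refl, sub_dotProduct, dotProduct_sub, smul_dotProduct, dotProduct_smul, smul_eq_mul, h]
  field_simp
  ring

theorem refl_mul {u : Fin 3 → ZMod p} (v : Fin 3 → ZMod p) (hv : v ⬝ᵥ v = 0) :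
    v ⬝ᵥ refl u v = -2 * (v ⬝ᵥ u) ^ 2 / (u ⬝ᵥ u) := by
  simp only [refl, dotProduct_sub, dotProduct_smul, smul_eq_mul, hv]
  ring

theorem refl_orth {u w : Fin 3 → ZMod p} (hw : u ⬝ᵥ w = 0) (v : Fin 3 → ZMod p) :
    refl u v ⬝ᵥ w = v ⬝ᵥ w := by
  simp only [refl, sub_dotProduct, smul_dotProduct, smul_eq_mul, hw]
  ring

/-- the reflection in a vector `u` such that `-u.u` is not a square changes the sign of `f` -/
theorem f_refl (h2 : p ≠ 2) {f : (Fin 3 → ZMod p) → ℤ} (hf : IsPhi p f) {u : Fin 3 → ZMod p}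
    (hu : ¬ IsSquare (-(u ⬝ᵥ u))) (v : Fin 3 → ZMod p) : f (refl u v) = -f v := by
  have hu0 : u ⬝ᵥ u ≠ 0 := by
    intro h; apply hu; rw [h]; simp
  have h20 : (2 : ZMod p) ≠ 0 := by
    intro h
    have : (p : ℕ) ∣ 2 := (ZMod.natCast_eq_zero_iff 2 p).1 (by exact_mod_cast h)
    exact h2 ((Nat.prime_dvd_prime_iff_eq hp.out Nat.prime_two).1 this)
  by_cases hv : v ⬝ᵥ v = 0
  swap
  · rw [hf.zero v (Or.inl hv), hf.zero (refl u v) (Or.inl (by rw [refl_self hu0]; exact hv))]; simp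
  by_cases hv0 : v = 0
  · have : refl u v = 0 := by rw [hv0]; simp [refl]
    rw [this, hv0, hf.zero 0 (Or.inr rfl)]; simp
  have hvu : v ⬝ᵥ u ≠ 0 := by
    intro h0
    -- `v × u = μ v`
    set x : Fin 3 → ZMod p := ![v 1 * u 2 - v 2 * u 1, v 2 * u 0 - v 0 * u 2, v 0 * u 1 - v 1 * u 0]
      with hx
    have hx0 : x 0 = v 1 * u 2 - v 2 * u 1 := rfl
    have hx1 : x 1 = v 2 * u 0 - v 0 * u 2 := rfl
    have hx2 : x 2 = v 0 * u 1 - v 1 * u 0 := rfl
    have hvv := hv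
    have h0' := h0
    rw [dot3] at hvv h0'
    obtain ⟨μ, hμ⟩ : ∃ μ : ZMod p, x = μ • v := by
      apply parallel hv0
      have h01 : v 0 * x 1 = v 1 * x 0 := by
        rw [hx0, hx1]; linear_combination v 2 * h0' - u 2 * hvv
      have h12 : v 1 * x 2 = v 2 * x 1 := by
        rw [hx1, hx2]; linear_combination v 0 * h0' - u 0 * hvv
      have h20 : v 2 * x 0 = v 0 * x 2 := by
        rw [hx0, hx2]; linear_combination v 1 * h0' - u 1 * hvv
      intro i j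
      fin_cases i <;> fin_cases j <;> simp <;>
        first | exact h01 | exact h01.symm | exact h12 | exact h12.symm | exact h20 | exact h20.symm
    have e0 : x 0 = μ * v 0 := by rw [hμ]; rfl
    have e1 : x 1 = μ * v 1 := by rw [hμ]; rfl
    have e2 : x 2 = μ * v 2 := by rw [hμ]; rfl
    -- `x × u = (v.u) u - (u.u) v`
    have key : μ ^ 2 • v = (-(u ⬝ᵥ u)) • v := by
      funext i
      simp only [Pi.smul_apply, smul_eq_mul]
      rw [dot3 u u]
      have k0 : μ * (v 1 * u 2 - v 2 * u 1) = x 1 * u 2 - x 2 * u 1 := by rw [e1, e2]; ring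
      have k1 : μ * (v 2 * u 0 - v 0 * u 2) = x 2 * u 0 - x 0 * u 2 := by rw [e0, e2]; ring
      have k2 : μ * (v 0 * u 1 - v 1 * u 0) = x 0 * u 1 - x 1 * u 0 := by rw [e0, e1]; ring
      rw [hx1, hx2] at k0
      rw [hx0, hx2] at k1
      rw [hx0, hx1] at k2
      rw [hx0] at e0
      rw [hx1] at e1
      rw [hx2] at e2
      fin_cases i
      · show μ ^ 2 * v 0 = -(u 0 * u 0 + u 1 * u 1 + u 2 * u 2) * v 0
        linear_combination (-μ) * e0 + k0 + u 0 * h0'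
      · show μ ^ 2 * v 1 = -(u 0 * u 0 + u 1 * u 1 + u 2 * u 2) * v 1
        linear_combination (-μ) * e1 + k1 + u 1 * h0'
      · show μ ^ 2 * v 2 = -(u 0 * u 0 + u 1 * u 1 + u 2 * u 2) * v 2
        linear_combination (-μ) * e2 + k2 + u 2 * h0'
    apply hu
    obtain ⟨i, hi⟩ : ∃ i, v i ≠ 0 := by
      by_contra hc
      push Not at hc
      exact hv0 (funext hc)
    have := congrFun key i
    simp only [Pi.smul_apply, smul_eq_mul] at this
    exact ⟨μ, by rw [← pow_two]; exact (mul_right_cancel₀ hi this).symm⟩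
  have hm := hf.mul v (refl u v) hv (by rw [refl_self hu0]; exact hv)
    (by rw [refl_mul v hv]
        exact div_ne_zero (mul_ne_zero (neg_ne_zero.2 h20) (pow_ne_zero 2 hvu)) hu0)
  have e : 2 * (v ⬝ᵥ refl u v) = -(u ⬝ᵥ u) * (2 * (v ⬝ᵥ u) / (u ⬝ᵥ u)) ^ 2 := by
    rw [refl_mul v hv]
    field_simp
  rw [e, lz_mul, lz_sq (div_ne_zero (mul_ne_zero h20 hvu) hu0), lz_non hu] at hm
  rcases hf.pm v hv hv0 with h | h <;> rw [h] at hm ⊢ <;> linarith

/-- the general statement -/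
theorem general (h2 : p ≠ 2) {f : (Fin 3 → ZMod p) → ℤ} (hf : IsPhi p f) (E : ZMod p → ℂ) :
    ∃ κ : ℂ, ∀ w : Fin 3 → ZMod p, ∑ v : Fin 3 → ZMod p, (f v : ℂ) * E (v ⬝ᵥ w) = κ * (f w : ℂ) := by
  classical
  obtain ⟨g, hg⟩ : ∃ g : ZMod p, ¬ IsSquare g :=
    FiniteField.exists_nonsquare (by rw [ZMod.ringChar_zmod_n]; exact h2)
  have hg0 : g ≠ 0 := by rintro rfl; exact hg (IsSquare.zero)
  -- the isotropic vectors
  set T : ℕ := (univ.filter fun v : Fin 3 → ZMod p => v ⬝ᵥ v = 0).card with hT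
  set A : ℂ := ∑ c ∈ univ.filter (fun c : ZMod p => c ≠ 0), (lz p (2 * c) : ℂ) * E c with hA
  refine ⟨((T : ℂ) - p) / ((p : ℂ) - 1) * A, fun w => ?_⟩
  by_cases hw : w ⬝ᵥ w = 0
  swap
  · -- not isotropic
    rw [hf.zero w (Or.inl hw)]
    obtain ⟨u, hu1, hu2⟩ := exists_orth h2 hw (-g)
    have hu : ¬ IsSquare (-(u ⬝ᵥ u)) := by rw [hu2]; simpa using hg
    have hu0 : u ⬝ᵥ u ≠ 0 := by rw [hu2]; simpa using hg0
    have hs : ∑ v : Fin 3 → ZMod p, (f v : ℂ) * E (v ⬝ᵥ w) =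
        ∑ v : Fin 3 → ZMod p, (f (refl u v) : ℂ) * E (refl u v ⬝ᵥ w) :=
      (Equiv.sum_comp (Function.Involutive.toPerm (refl u) (refl_refl hu0))
        (fun v => (f v : ℂ) * E (v ⬝ᵥ w))).symm
    have : ∑ v : Fin 3 → ZMod p, (f v : ℂ) * E (v ⬝ᵥ w) =
        -∑ v : Fin 3 → ZMod p, (f v : ℂ) * E (v ⬝ᵥ w) := by
      conv_lhs => rw [hs]
      rw [← Finset.sum_neg_distrib]
      refine Finset.sum_congr rfl fun v _ => ?_
      rw [f_refl h2 hf hu v, refl_orth hu1]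
      push_cast; ring
    have h0 : ∑ v : Fin 3 → ZMod p, (f v : ℂ) * E (v ⬝ᵥ w) = 0 := self_eq_neg.1 this
    rw [h0]; simp
  by_cases hw0 : w = 0
  · subst hw0
    rw [hf.zero 0 (Or.inr rfl)]
    simp only [dotProduct_zero]
    have hs : ∑ v : Fin 3 → ZMod p, (f v : ℂ) = ∑ v : Fin 3 → ZMod p, (f (g • v) : ℂ) :=
      (Equiv.sum_comp (MulAction.toPerm (Units.mk0 g hg0)) (fun v => (f v : ℂ))).symm
    have : ∑ v : Fin 3 → ZMod p, (f v : ℂ) = -∑ v : Fin 3 → ZMod p, (f v : ℂ) := by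
      conv_lhs => rw [hs]
      rw [← Finset.sum_neg_distrib]
      refine Finset.sum_congr rfl fun v _ => ?_
      rw [hf.smul g v hg0, lz_non hg]
      push_cast; ring
    rw [← Finset.sum_mul, self_eq_neg.1 this]; simp
  -- isotropic, nonzero
  have hfw := hf.pm w hw hw0
  have hfw2 : (f w : ℂ) * f w = 1 := by
    rcases hfw with h | h <;> rw [h] <;> norm_num
  -- split
  set S0 := univ.filter fun v : Fin 3 → ZMod p => v ⬝ᵥ v = 0 ∧ v ⬝ᵥ w = 0 with hS0
  set S1 := univ.filter fun v : Fin 3 → ZMod p => v ⬝ᵥ v = 0 ∧ v ⬝ᵥ w ≠ 0 with hS1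
  have hsplit : ∑ v : Fin 3 → ZMod p, (f v : ℂ) * E (v ⬝ᵥ w) =
      ∑ v ∈ S0, (f v : ℂ) * E (v ⬝ᵥ w) + ∑ v ∈ S1, (f v : ℂ) * E (v ⬝ᵥ w) := by
    rw [hS0, hS1, Finset.sum_filter, Finset.sum_filter, ← Finset.sum_add_distrib]
    refine Finset.sum_congr rfl fun v _ => ?_
    by_cases h1 : v ⬝ᵥ v = 0
    · by_cases h3 : v ⬝ᵥ w = 0 <;> simp [h1, h3]
    · rw [hf.zero v (Or.inl h1)]; simp
  have hsm : ∀ c : ZMod p, c ≠ 0 → ∀ v : Fin 3 → ZMod p, (c • v) ⬝ᵥ (c • v) = 0 ↔ v ⬝ᵥ v = 0 := by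
    intro c hc v
    simp [smul_dotProduct, dotProduct_smul, hc]
  have hsm1 : ∀ c : ZMod p, c ≠ 0 → ∀ v : Fin 3 → ZMod p, (c • v) ⬝ᵥ w = 0 ↔ v ⬝ᵥ w = 0 := by
    intro c hc v
    simp [smul_dotProduct, hc]
  have hzero : ∑ v ∈ S0, (f v : ℂ) * E (v ⬝ᵥ w) = 0 := by
    have h1 : ∑ v ∈ S0, (f v : ℂ) * E (v ⬝ᵥ w) = (∑ v ∈ S0, (f v : ℂ)) * E 0 := by
      rw [Finset.sum_mul]
      refine Finset.sum_congr rfl fun v hv => ?_
      rw [(Finset.mem_filter.1 hv).2.2]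
    have h3 : ∑ v ∈ S0, (f v : ℂ) = -∑ v ∈ S0, (f v : ℂ) := by
      rw [← Finset.sum_neg_distrib]
      refine (Finset.sum_bij' (fun v _ => g • v) (fun v _ => g⁻¹ • v) ?_ ?_ ?_ ?_ ?_).symm
      · intro v hv
        simp only [hS0, Finset.mem_filter, Finset.mem_univ, true_and] at hv ⊢
        exact ⟨(hsm g hg0 v).2 hv.1, (hsm1 g hg0 v).2 hv.2⟩
      · intro v hv
        simp only [hS0, Finset.mem_filter, Finset.mem_univ, true_and] at hv ⊢
        exact ⟨(hsm _ (inv_ne_zero hg0) v).2 hv.1, (hsm1 _ (inv_ne_zero hg0) v).2 hv.2⟩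
      · intro v _; simp [smul_smul, hg0]
      · intro v _; simp [smul_smul, hg0]
      · intro v _
        rw [hf.smul g v hg0, lz_non hg]; push_cast; ring
    rw [h1, self_eq_neg.1 h3]; simp
  have hmain : ((p : ℂ) - 1) * ∑ v ∈ S1, (lz p (2 * (v ⬝ᵥ w)) : ℂ) * E (v ⬝ᵥ w) =
      (S1.card : ℂ) * A := by
    -- average over the scalars
    have hav : ∀ c : ZMod p, c ≠ 0 → ∑ v ∈ S1, (lz p (2 * (v ⬝ᵥ w)) : ℂ) * E (v ⬝ᵥ w) =
        ∑ v ∈ S1, (lz p (2 * (c * (v ⬝ᵥ w))) : ℂ) * E (c * (v ⬝ᵥ w)) := by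
      intro c hc
      refine (Finset.sum_bij' (fun v _ => c • v) (fun v _ => c⁻¹ • v) ?_ ?_ ?_ ?_ ?_).symm
      · intro v hv
        simp only [hS1, Finset.mem_filter, Finset.mem_univ, true_and] at hv ⊢
        exact ⟨(hsm c hc v).2 hv.1, fun h => hv.2 ((hsm1 c hc v).1 h)⟩
      · intro v hv
        simp only [hS1, Finset.mem_filter, Finset.mem_univ, true_and] at hv ⊢
        exact ⟨(hsm _ (inv_ne_zero hc) v).2 hv.1, fun h => hv.2 ((hsm1 _ (inv_ne_zero hc) v).1 h)⟩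
      · intro v _; simp [smul_smul, hc]
      · intro v _; simp [smul_smul, hc]
      · intro v _; simp [smul_dotProduct]
    have hcard : ((univ.filter (fun c : ZMod p => c ≠ 0)).card : ℂ) = (p : ℂ) - 1 := by
      have : (univ.filter (fun c : ZMod p => c ≠ 0)).card = p - 1 := by
        rw [Finset.filter_ne', Finset.card_erase_of_mem (Finset.mem_univ _), Finset.card_univ,
          ZMod.card]
      rw [this, Nat.cast_sub hp.out.one_le]; simp
    rw [← hcard, ← nsmul_eq_mul, ← Finset.sum_const]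
    rw [Finset.sum_congr rfl (g := fun c => ∑ v ∈ S1, (lz p (2 * (c * (v ⬝ᵥ w))) : ℂ) *
      E (c * (v ⬝ᵥ w))) (fun c hc => hav c (Finset.mem_filter.1 hc).2)]
    rw [Finset.sum_comm, ← nsmul_eq_mul, ← Finset.sum_const]
    refine Finset.sum_congr rfl fun v hv => ?_
    have hvw : v ⬝ᵥ w ≠ 0 := (Finset.mem_filter.1 hv).2.2
    rw [hA]
    refine Finset.sum_bij' (fun c _ => c * (v ⬝ᵥ w)) (fun c _ => c * (v ⬝ᵥ w)⁻¹) ?_ ?_ ?_ ?_ ?_
    · intro c hc
      simp only [Finset.mem_filter, Finset.mem_univ, true_and] at hc ⊢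
      exact mul_ne_zero hc hvw
    · intro c hc
      simp only [Finset.mem_filter, Finset.mem_univ, true_and] at hc ⊢
      exact mul_ne_zero hc (inv_ne_zero hvw)
    · intro c _; field_simp
    · intro c _; field_simp
    · intro c _; rfl
  have hf1 : ∑ v ∈ S1, (f v : ℂ) * E (v ⬝ᵥ w) =
      f w * ∑ v ∈ S1, (lz p (2 * (v ⬝ᵥ w)) : ℂ) * E (v ⬝ᵥ w) := by
    rw [Finset.mul_sum]
    refine Finset.sum_congr rfl fun v hv => ?_
    obtain ⟨-, hv1, hv2⟩ := Finset.mem_filter.1 hv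
    have := hf.mul v w hv1 hw hv2
    rw [← this]; push_cast
    linear_combination (-(f v : ℂ) * E (v ⬝ᵥ w)) * hfw2
  -- the number of elements
  have hc0 : S0.card = p := by
    have : S0 = univ.image fun c : ZMod p => c • w := by
      ext v
      simp only [hS0, Finset.mem_filter, Finset.mem_univ, true_and, Finset.mem_image]
      constructor
      · rintro ⟨h1, h3⟩
        obtain ⟨μ, hμ⟩ := prop hw0 hw h1 (by rw [dotProduct_comm]; exact h3)
        exact ⟨μ, hμ.symm⟩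
      · rintro ⟨c, rfl⟩
        simp [smul_dotProduct, dotProduct_smul, hw]
    rw [this, Finset.card_image_of_injective, Finset.card_univ, ZMod.card]
    intro a b hab
    obtain ⟨i, hi⟩ : ∃ i, w i ≠ 0 := by
      by_contra hc
      push Not at hc
      exact hw0 (funext hc)
    have := congrFun hab i
    simp only [Pi.smul_apply, smul_eq_mul] at this
    exact mul_right_cancel₀ hi this
  have hcT : S0.card + S1.card = T := by
    rw [hT, hS0, hS1]
    have e : univ.filter (fun v : Fin 3 → ZMod p => v ⬝ᵥ v = 0) =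
        univ.filter (fun v : Fin 3 → ZMod p => v ⬝ᵥ v = 0 ∧ v ⬝ᵥ w = 0) ∪
        univ.filter (fun v : Fin 3 → ZMod p => v ⬝ᵥ v = 0 ∧ v ⬝ᵥ w ≠ 0) := by
      ext v
      simp only [Finset.mem_filter, Finset.mem_univ, true_and, Finset.mem_union]
      tauto
    rw [e, Finset.card_union_of_disjoint]
    rw [Finset.disjoint_filter]
    rintro v _ ⟨_, h1⟩ ⟨_, h3⟩
    exact h3 h1
  have hcc : (S1.card : ℂ) = (T : ℂ) - p := by
    rw [← hcT, hc0]; push_cast; ring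
  have hp1 : (p : ℂ) - 1 ≠ 0 := by
    intro h
    have : (p : ℂ) = 1 := by linear_combination h
    have h1 : p = 1 := by exact_mod_cast this
    exact hp.out.one_lt.ne' h1
  rw [hsplit, hzero, hf1, zero_add]
  rw [hcc] at hmain
  have : ∑ v ∈ S1, (lz p (2 * (v ⬝ᵥ w)) : ℂ) * E (v ⬝ᵥ w) = ((T : ℂ) - p) / ((p : ℂ) - 1) * A := by
    field_simp
    linear_combination hmain
  rw [this]; ring

end FT

theorem t_FT : S_FT := by
  intro p hp h2 _ f hf t ht
  haveI : Fact p.Prime := ⟨hp⟩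
  obtain ⟨κ, hκ⟩ := FT.general h2 hf
    (fun x => Complex.exp (2 * Real.pi * Complex.I * ((t * x).val : ℂ) / p))
  exact ⟨κ, fun w => hκ w⟩

end

end Pool.Agent.NH1
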