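import Pool.Agent.NH1.Sub

/-!
# Project NH1: periodicity and Fourier transform of `psi`
-/

set_option autoImplicit false

namespace Pool.Agent.NH1

open Finset Matrix
open Pool.Agent.Z700 (V3 vec pr Ln n0 ep X2)

noncomputable section

namespace FTB

/-! ### the exponential -/

/-- `e(x/N)` -/
def e (N : ℕ) (x : ℤ) : ℂ := Complex.exp (2 * Real.pi * Complex.I * (x : ℂ) / (N : ℂ))

theorem e_add (N : ℕ) (x y : ℤ) : e N (x + y) = e N x * e N y := by
  unfold e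
  rw [← Complex.exp_add]
  congr 1
  push_cast
  ring

theorem e_zero (N : ℕ) : e N 0 = 1 := by
  unfold e
  simp

theorem e_mul_self {N : ℕ} (hN : 0 < N) (k : ℤ) : e N (N * k) = 1 := by
  unfold e
  rw [Complex.exp_eq_one_iff]
  refine ⟨k, ?_⟩
  have : (N : ℂ) ≠ 0 := by exact_mod_cast hN.ne'
  push_cast
  field_simp

theorem e_congr {N : ℕ} (hN : 0 < N) {x y : ℤ} (h : (N : ℤ) ∣ x - y) : e N x = e N y := by
  obtain ⟨k, hk⟩ := h
  have : x = N * k + y := by linarith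
  rw [this, e_add, e_mul_self hN, one_mul]

theorem e_scale {a b : ℕ} (hb : 0 < b) (x : ℤ) : e (a * b) (b * x) = e a x := by
  unfold e
  congr 1
  have : (b : ℂ) ≠ 0 := by exact_mod_cast hb.ne'
  push_cast
  by_cases ha : (a : ℂ) = 0
  · rw [ha]
    simp
  · field_simp

theorem e_scale' {a b : ℕ} (ha : 0 < a) (x : ℤ) : e (a * b) (a * x) = e b x := by
  rw [mul_comm a b, e_scale ha]

/-! ### the Fourier transform -/

/-- periodic functions -/
def Per (N : ℕ) (f : V3 → ℂ) : Prop := ∀ v w : V3, (∀ i, (N : ℤ) ∣ v i - w i) → f v = f w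

/-- the Fourier transform -/
def T (N : ℕ) (f : V3 → ℂ) (t : ℤ) (w : V3) : ℂ :=
  ∑ v : Fin 3 → Fin N, f (fun i => ((v i : ℕ) : ℤ)) * e N (t * ∑ i, ((v i : ℕ) : ℤ) * w i)

theorem T_mul {a b : ℕ} (ha : 0 < a) (hb : 0 < b) {A B : V3 → ℂ} (hA : Per a A) (hB : Per b B)
    {x y : ℤ} (hxy : x * a + y * b = 1) (t : ℤ) (w : V3) :
    T (a * b) (fun v => A v * B v) t w = T a A (t * y) w * T b B (t * x) w := by
  have hab : Nat.Coprime a b := by
    rw [← Nat.isCoprime_iff_coprime]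
    exact ⟨x, y, hxy⟩
  unfold T
  rw [Finset.sum_mul_sum, ← Fintype.sum_prod_type']
  let φ : (Fin 3 → Fin (a * b)) → (Fin 3 → Fin a) × (Fin 3 → Fin b) := fun v =>
    (fun i => ⟨(v i : ℕ) % a, Nat.mod_lt _ ha⟩, fun i => ⟨(v i : ℕ) % b, Nat.mod_lt _ hb⟩)
  have hφ : Function.Bijective φ := by
    rw [Fintype.bijective_iff_injective_and_card]
    refine ⟨fun v v' h => ?_, ?_⟩
    · funext i
      have h1 : (v i : ℕ) % a = (v' i : ℕ) % a := congrArg (fun q => ((q.1 i : Fin a) : ℕ)) h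
      have h2 : (v i : ℕ) % b = (v' i : ℕ) % b := congrArg (fun q => ((q.2 i : Fin b) : ℕ)) h
      apply Fin.ext
      have h3 : (v i : ℕ) ≡ v' i [MOD a * b] :=
        (Nat.modEq_and_modEq_iff_modEq_mul hab).1 ⟨h1, h2⟩
      exact Nat.ModEq.eq_of_lt_of_lt h3 (v i).2 (v' i).2
    · simp [mul_pow]
  refine Fintype.sum_bijective φ hφ _ _ fun v => ?_
  simp only [φ]
  have hdiv : ∀ (n : ℕ) (i : Fin 3), (n : ℤ) ∣ ((v i : ℕ) : ℤ) - (((v i : ℕ) % n : ℕ) : ℤ) := by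
    intro n i
    rw [Int.natCast_mod]
    exact Int.dvd_self_sub_emod
  have h1 : A (fun i => ((v i : ℕ) : ℤ)) = A (fun i => (((v i : ℕ) % a : ℕ) : ℤ)) :=
    hA _ _ fun i => hdiv a i
  have h2 : B (fun i => ((v i : ℕ) : ℤ)) = B (fun i => (((v i : ℕ) % b : ℕ) : ℤ)) :=
    hB _ _ fun i => hdiv b i
  have h3 : ∀ n : ℕ, (n : ℤ) ∣ (∑ i, ((v i : ℕ) : ℤ) * w i) -
      ∑ i, (((v i : ℕ) % n : ℕ) : ℤ) * w i := by
    intro n
    rw [← Finset.sum_sub_distrib]
    refine Finset.dvd_sum fun i _ => ?_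
    rw [← sub_mul]
    exact (hdiv n i).mul_right _
  have h4 : e (a * b) (t * ∑ i, ((v i : ℕ) : ℤ) * w i) =
      e a (t * y * ∑ i, (((v i : ℕ) % a : ℕ) : ℤ) * w i) *
      e b (t * x * ∑ i, (((v i : ℕ) % b : ℕ) : ℤ) * w i) := by
    have e1 : t * ∑ i, ((v i : ℕ) : ℤ) * w i =
        b * (t * y * ∑ i, ((v i : ℕ) : ℤ) * w i) + a * (t * x * ∑ i, ((v i : ℕ) : ℤ) * w i) := by
      linear_combination -(t * ∑ i, ((v i : ℕ) : ℤ) * w i) * hxy
    rw [e1, e_add, e_scale hb, e_scale' ha]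
    congr 1
    · apply e_congr ha
      rw [← mul_sub]
      exact (h3 a).mul_left _
    · apply e_congr hb
      rw [← mul_sub]
      exact (h3 b).mul_left _
  rw [h1, h2, h4]
  ring

/-- the sum over the residues -/
theorem sum_zmod {N : ℕ} [NeZero N] (g : (Fin 3 → ZMod N) → ℂ) :
    ∑ v : Fin 3 → Fin N, g (fun i => ((v i : ℕ) : ZMod N)) = ∑ v : Fin 3 → ZMod N, g v := by
  refine Fintype.sum_bijective (fun (v : Fin 3 → Fin N) i => ((v i : ℕ) : ZMod N)) ?_ _ _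
    fun v => rfl
  rw [Fintype.bijective_iff_injective_and_card]
  refine ⟨fun v v' h => ?_, by simp [ZMod.card]⟩
  funext i
  have h1 : ((v i : ℕ) : ZMod N) = ((v' i : ℕ) : ZMod N) := congrFun h i
  rw [ZMod.natCast_eq_natCast_iff] at h1
  exact Fin.ext (Nat.ModEq.eq_of_lt_of_lt h1 (v i).2 (v' i).2)

theorem e_val {N : ℕ} [NeZero N] (x : ℤ) :
    Complex.exp (2 * Real.pi * Complex.I * ((((x : ZMod N)).val : ℕ) : ℂ) / (N : ℂ)) = e N x := by
  have h1 : e N (((x : ZMod N).val : ℕ) : ℤ) = e N x := by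
    apply e_congr (Nat.pos_of_ne_zero (NeZero.ne N))
    rw [← ZMod.intCast_eq_intCast_iff_dvd_sub]
    simp
  rw [← h1]
  unfold e
  push_cast
  rfl

/-! ### the primes of `P` -/

theorem per_ph (p : ℕ) : Per p fun v => (ph p (rd p v) : ℂ) := by
  intro v w h
  have : rd p v = rd p w := by
    funext i
    unfold rd
    rw [ZMod.intCast_eq_intCast_iff_dvd_sub]
    have := h i
    rw [← dvd_neg, neg_sub] at this
    exact this
  simp only [this]

theorem pr_dvd {P : Finset ℕ} {p : ℕ} (hp : p ∈ P) : p ∣ pr P := Finset.dvd_prod_of_mem _ hp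

theorem per_Ph (P : Finset ℕ) : Per (pr P) fun v => (Ph P v : ℂ) := by
  intro v w h
  have h1 : Ph P v = Ph P w := by
    unfold Ph
    refine Finset.prod_congr rfl fun p hp => ?_
    have h2 : (ph p (rd p v) : ℂ) = (ph p (rd p w) : ℂ) :=
      per_ph p v w fun i => (Int.natCast_dvd_natCast.2 (pr_dvd hp)).trans (h i)
    exact_mod_cast h2
  simp only [h1]

theorem pr_pos {P : Finset ℕ} (hP : Pm P) : 0 < pr P :=
  Finset.prod_pos fun p hp => (hP p hp).1.pos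

theorem T_ph (h1 : S_PHI) (h2 : S_FT) {p : ℕ} (hp : p.Prime) (hp2 : p ≠ 2) (t : ℤ)
    (ht : ¬ (p : ℤ) ∣ t) : ∃ κ : ℂ, ∀ w, T p (fun v => (ph p (rd p v) : ℂ)) t w =
      κ * (ph p (rd p w) : ℂ) := by
  have : NeZero p := ⟨hp.ne_zero⟩
  have ht' : (t : ZMod p) ≠ 0 := by
    rw [Ne, ZMod.intCast_zmod_eq_zero_iff_dvd]
    exact ht
  obtain ⟨κ, hκ⟩ := h2 p hp hp2 (ph p) (ph_spec h1 hp hp2) (t : ZMod p) ht'
  refine ⟨κ, fun w => ?_⟩
  rw [← hκ (rd p w), ← sum_zmod]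
  unfold T
  refine Finset.sum_congr rfl fun v _ => ?_
  have e1 : rd p (fun i => ((v i : ℕ) : ℤ)) = fun i => ((v i : ℕ) : ZMod p) := by
    funext i
    unfold rd
    push_cast
    rfl
  simp only [e1]
  congr 1
  have e2 : (t : ZMod p) * ((fun i => ((v i : ℕ) : ZMod p)) ⬝ᵥ rd p w) =
      ((t * ∑ i, ((v i : ℕ) : ℤ) * w i : ℤ) : ZMod p) := by
    unfold rd dotProduct
    push_cast
    rfl
  rw [e2, e_val]

theorem T_Ph (h1 : S_PHI) (h2 : S_FT) (P : Finset ℕ) : Pm P → ∀ t : ℤ, IsCoprime t (pr P : ℤ) →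
    ∃ κ : ℂ, ∀ w, T (pr P) (fun v => (Ph P v : ℂ)) t w = κ * (Ph P w : ℂ) := by
  induction P using Finset.induction_on with
  | empty =>
    intro _ t _
    refine ⟨1, fun w => ?_⟩
    have e1 : pr ∅ = 1 := rfl
    have e2 : ∀ v, Ph ∅ v = 1 := fun v => rfl
    simp only [e2]
    rw [e1]
    unfold T
    simp [e_zero]
  | insert p P hp ih =>
    intro hP t ht
    have hP' : Pm P := fun q hq => hP q (Finset.mem_insert_of_mem hq)
    obtain ⟨hpp, hp2, hp7⟩ := hP p (Finset.mem_insert_self p P)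
    have e1 : pr (insert p P) = p * pr P := Finset.prod_insert hp
    have e2 : ∀ v, (Ph (insert p P) v : ℂ) = (ph p (rd p v) : ℂ) * (Ph P v : ℂ) := by
      intro v
      unfold Ph
      rw [Finset.prod_insert hp]
      push_cast
      rfl
    have hcop : Nat.Coprime p (pr P) := by
      apply Nat.Coprime.prod_right
      intro q hq
      rw [Nat.coprime_primes hpp (hP' q hq).1]
      rintro rfl
      exact hp hq
    obtain ⟨x, y, hxy⟩ := Nat.isCoprime_iff_coprime.2 hcop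
    rw [e1, Nat.cast_mul, IsCoprime.mul_right_iff] at ht
    have hy : IsCoprime y (p : ℤ) := ⟨pr P, x, by linear_combination hxy⟩
    have hx : IsCoprime x (pr P : ℤ) := ⟨p, y, by linear_combination hxy⟩
    have hty : IsCoprime (t * y) (p : ℤ) := IsCoprime.mul_left ht.1 hy
    have htx : IsCoprime (t * x) (pr P : ℤ) := IsCoprime.mul_left ht.2 hx
    have hpt : ¬ (p : ℤ) ∣ t * y := by
      intro h
      have h3 := hty.symm.isUnit_of_dvd' (dvd_refl _) h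
      rw [Int.isUnit_iff] at h3
      have := hpp.two_le
      omega
    obtain ⟨κ1, hκ1⟩ := T_ph h1 h2 hpp hp2 (t * y) hpt
    obtain ⟨κ2, hκ2⟩ := ih hP' (t * x) htx
    refine ⟨κ1 * κ2, fun w => ?_⟩
    simp only [e2]
    rw [e1, T_mul hpp.pos (pr_pos hP') (per_ph p) (per_Ph P) hxy, hκ1, hκ2]
    ring

/-! ### the factor at two -/

theorem e4_0 : e 4 0 = 1 := e_zero 4

theorem e4_1 : e 4 1 = Complex.I := by
  unfold e
  have : (2 * Real.pi * Complex.I * ((1 : ℤ) : ℂ) / ((4 : ℕ) : ℂ)) = Real.pi / 2 * Complex.I := by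
    push_cast
    ring
  rw [this, Complex.exp_pi_div_two_mul_I]

theorem e4_2 : e 4 2 = -1 := by
  have : (2 : ℤ) = 1 + 1 := rfl
  rw [this, e_add, e4_1, Complex.I_mul_I]

theorem e4_3 : e 4 3 = -Complex.I := by
  have : (3 : ℤ) = 2 + 1 := rfl
  rw [this, e_add, e4_1, e4_2]
  ring

/-- the one variable transform -/
def H (g : ℤ → ℂ) (t y : ℤ) : ℂ := ∑ a : Fin 4, g ((a : ℕ) : ℤ) * e 4 (t * (((a : ℕ) : ℤ) * y))

theorem T_prod (g0 g1 g2 : ℤ → ℂ) (t : ℤ) (w : V3) :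
    T 4 (fun v => g0 (v 0) * g1 (v 1) * g2 (v 2)) t w = H g0 t (w 0) * H g1 t (w 1) * H g2 t (w 2) := by
  have h1 : ∀ G : Fin 3 → ℤ → ℂ, ∏ i, H (G i) t (w i) = T 4 (fun v => ∏ i, G i (v i)) t w := by
    intro G
    unfold H T
    rw [Finset.prod_univ_sum, Fintype.piFinset_univ]
    refine Finset.sum_congr rfl fun v _ => ?_
    rw [Finset.prod_mul_distrib]
    congr 1
    rw [Fin.prod_univ_three, Fin.sum_univ_three, mul_add, mul_add, e_add, e_add]
  have h2 := h1 ![g0, g1, g2]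
  simp only [Fin.prod_univ_three] at h2
  exact h2.symm

/-- the indicator of the odd numbers, of the numbers `2 mod 4`, of the numbers `0 mod 4`, and the
character modulo `4` -/
def c4 (x : ℤ) : ℤ := if x % 4 = 1 then 1 else if x % 4 = 3 then -1 else 0

theorem e4_red (x : ℤ) : e 4 x = e 4 (x % 4) :=
  e_congr (by norm_num) (by rw [Nat.cast_ofNat]; exact Int.dvd_self_sub_emod)

theorem H_red (g : ℤ → ℂ) (t y : ℤ) : H g t y = H g (t % 4) (y % 4) := by
  unfold H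
  refine Finset.sum_congr rfl fun a _ => ?_
  congr 1
  apply e_congr (by norm_num)
  have h1 : (4 : ℤ) ∣ t - t % 4 := Int.dvd_self_sub_emod
  have h2 : (4 : ℤ) ∣ y - y % 4 := Int.dvd_self_sub_emod
  have h3 : t * (((a : ℕ) : ℤ) * y) - t % 4 * (((a : ℕ) : ℤ) * (y % 4)) =
      (t - t % 4) * (((a : ℕ) : ℤ) * y) + (t % 4) * ((a : ℕ) : ℤ) * (y - y % 4) := by ring
  rw [h3]
  exact dvd_add (h1.mul_right _) (h2.mul_left _)

theorem mod4 (x : ℤ) : x % 4 = 0 ∨ x % 4 = 1 ∨ x % 4 = 2 ∨ x % 4 = 3 := by omega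

theorem H_c4 {t : ℤ} (ht : t % 2 = 1) (y : ℤ) :
    H (fun x => (c4 x : ℂ)) t y = 2 * Complex.I * (c4 t : ℂ) * (c4 y : ℂ) := by
  rw [H_red]
  have h1 : t % 4 = 1 ∨ t % 4 = 3 := by omega
  unfold c4 H
  rcases h1 with h1 | h1 <;> rcases mod4 y with h2 | h2 | h2 | h2 <;>
    simp only [h1, h2, Fin.sum_univ_four] <;> norm_num <;>
    simp only [e4_red 6, e4_red 9, e4_red 18, e4_red 27, e4_red 3] <;>
    norm_num [e4_0, e4_1, e4_2, e4_3] <;> ring_nf

theorem H_f {t : ℤ} (ht : t % 2 = 1) (y : ℤ) :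
    H (fun x => (f0 x : ℂ)) t y = 2 * (f2 y : ℂ) - 2 * (f1 y : ℂ) ∧
    H (fun x => (f1 x : ℂ)) t y = (f1 y : ℂ) + (f2 y : ℂ) - (f0 y : ℂ) ∧
    H (fun x => (f2 x : ℂ)) t y = (f0 y : ℂ) + (f1 y : ℂ) + (f2 y : ℂ) := by
  have h1 : t % 4 = 1 ∨ t % 4 = 3 := by omega
  have h0 : y % 4 = 0 → y % 2 = 0 := by omega
  have h01 : y % 4 = 1 → y % 2 = 1 := by omega
  have h02 : y % 4 = 2 → y % 2 = 0 := by omega
  have h03 : y % 4 = 3 → y % 2 = 1 := by omega
  refine ⟨?_, ?_, ?_⟩ <;> rw [H_red] <;> unfold f0 f1 f2 H <;> rcases h1 with h1 | h1 <;>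
    rcases mod4 y with h2 | h2 | h2 | h2 <;>
    simp only [h1, h2, h0, h01, h02, h03, Fin.sum_univ_four] <;> norm_num <;>
    (try simp only [e4_red 6, e4_red 9, e4_red 18, e4_red 27, e4_red 3, e4_red 4, e4_red 12]) <;>
    norm_num [e4_0, e4_1, e4_2, e4_3]

/-- the function at two as a product -/
theorem ep0_eq (v : V3) : ep0 v = c4 (v 0) * c4 (v 1) * c4 (v 2) := by
  unfold ep0 c4 Pool.Agent.Z700.ep
  have hm : (v 0 * v 1 * v 2) % 4 = ((v 0 % 4) * (v 1 % 4) * (v 2 % 4)) % 4 :=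
    (((Int.mod_modEq (v 0) 4).mul (Int.mod_modEq (v 1) 4)).mul (Int.mod_modEq (v 2) 4)).symm
  have h0 : ∀ y : ℤ, y % 4 = 0 → y % 2 = 0 := by intro y h; omega
  have h1 : ∀ y : ℤ, y % 4 = 1 → y % 2 = 1 := by intro y h; omega
  have h2 : ∀ y : ℤ, y % 4 = 2 → y % 2 = 0 := by intro y h; omega
  have h3 : ∀ y : ℤ, y % 4 = 3 → y % 2 = 1 := by intro y h; omega
  rw [hm]
  rcases mod4 (v 0) with a | a | a | a <;> rcases mod4 (v 1) with b | b | b | b <;>
    rcases mod4 (v 2) with c | c | c | c <;>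
    simp only [a, b, c, h0 _, h1 _, h2 _, h3 _] <;> norm_num

theorem T_ep0 {t : ℤ} (ht : t % 2 = 1) : ∃ κ : ℂ, ∀ w, T 4 (fun v => (ep0 v : ℂ)) t w =
    κ * (ep0 w : ℂ) := by
  refine ⟨(2 * Complex.I * (c4 t : ℂ)) ^ 3, fun w => ?_⟩
  obtain ⟨g, hg⟩ : ∃ g : ℤ → ℂ, g = fun x => (c4 x : ℂ) := ⟨_, rfl⟩
  have h1 : (fun v : V3 => (ep0 v : ℂ)) = fun v => g (v 0) * g (v 1) * g (v 2) := by
    funext v
    rw [ep0_eq, hg]
    push_cast
    rfl
  have h2 := congrFun h1 w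
  rw [h2, h1, T_prod, hg, H_c4 ht, H_c4 ht, H_c4 ht]
  ring

theorem T_add (N : ℕ) (f g : V3 → ℂ) (t : ℤ) (w : V3) :
    T N (fun v => f v + g v) t w = T N f t w + T N g t w := by
  unfold T
  rw [← Finset.sum_add_distrib]
  exact Finset.sum_congr rfl fun v _ => by ring

theorem T_sub (N : ℕ) (f g : V3 → ℂ) (t : ℤ) (w : V3) :
    T N (fun v => f v - g v) t w = T N f t w - T N g t w := by
  unfold T
  rw [← Finset.sum_sub_distrib]
  exact Finset.sum_congr rfl fun v _ => by ring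

theorem T_xi {t : ℤ} (ht : t % 2 = 1) : ∃ κ : ℂ, ∀ w, T 4 (fun v => (xi v : ℂ)) t w =
    κ * (xi w : ℂ) := by
  refine ⟨-8, fun w => ?_⟩
  obtain ⟨g0, hg0⟩ : ∃ g : ℤ → ℂ, g = fun x => (f0 x : ℂ) := ⟨_, rfl⟩
  obtain ⟨g1, hg1⟩ : ∃ g : ℤ → ℂ, g = fun x => (f1 x : ℂ) := ⟨_, rfl⟩
  obtain ⟨g2, hg2⟩ : ∃ g : ℤ → ℂ, g = fun x => (f2 x : ℂ) := ⟨_, rfl⟩
  have h1 : (fun v : V3 => (xi v : ℂ)) = fun v => g0 (v 0) * g1 (v 1) * g2 (v 2) +
      g2 (v 0) * g0 (v 1) * g1 (v 2) + g1 (v 0) * g2 (v 1) * g0 (v 2) -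
      g1 (v 0) * g0 (v 1) * g2 (v 2) - g0 (v 0) * g2 (v 1) * g1 (v 2) -
      g2 (v 0) * g1 (v 1) * g0 (v 2) := by
    funext v
    rw [hg0, hg1, hg2]
    unfold xi
    push_cast
    ring
  have k0 : ∀ y, H g0 t y = 2 * g2 y - 2 * g1 y := by
    intro y
    rw [hg0, hg1, hg2]
    exact (H_f ht y).1
  have k1 : ∀ y, H g1 t y = g1 y + g2 y - g0 y := by
    intro y
    rw [hg0, hg1, hg2]
    exact (H_f ht y).2.1
  have k2 : ∀ y, H g2 t y = g0 y + g1 y + g2 y := by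
    intro y
    rw [hg0, hg1, hg2]
    exact (H_f ht y).2.2
  have h2 := congrFun h1 w
  rw [h2, h1, T_sub, T_sub, T_sub, T_add, T_add, T_prod, T_prod, T_prod, T_prod, T_prod, T_prod]
  simp only [k0, k1, k2]
  ring

theorem T_om {r : ℕ} {t : ℤ} (ht : t % 2 = 1) : ∃ κ : ℂ, ∀ w,
    T 4 (fun v => (om r v : ℂ)) t w = κ * (om r w : ℂ) := by
  by_cases h : r = 3
  · have h1 : ∀ v, om r v = ep0 v := fun v => if_pos h
    simp only [h1]
    exact T_ep0 ht
  · have h1 : ∀ v, om r v = xi v := fun v => if_neg h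
    simp only [h1]
    exact T_xi ht

theorem c4_per {x y : ℤ} (h : (4 : ℤ) ∣ x - y) : c4 x = c4 y := by
  have : x % 4 = y % 4 := by omega
  unfold c4
  rw [this]

theorem f0_per {x y : ℤ} (h : (4 : ℤ) ∣ x - y) : f0 x = f0 y := by
  have : x % 2 = y % 2 := by omega
  unfold f0
  rw [this]

theorem f1_per {x y : ℤ} (h : (4 : ℤ) ∣ x - y) : f1 x = f1 y := by
  have : x % 4 = y % 4 := by omega
  unfold f1
  rw [this]

theorem f2_per {x y : ℤ} (h : (4 : ℤ) ∣ x - y) : f2 x = f2 y := by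
  have : x % 4 = y % 4 := by omega
  unfold f2
  rw [this]

theorem om_per (r : ℕ) {v w : V3} (h : ∀ i, (4 : ℤ) ∣ v i - w i) : om r v = om r w := by
  unfold om
  split_ifs
  · rw [ep0_eq, ep0_eq, c4_per (h 0), c4_per (h 1), c4_per (h 2)]
  · unfold xi
    rw [f0_per (h 0), f0_per (h 1), f0_per (h 2), f1_per (h 0), f1_per (h 1), f1_per (h 2),
      f2_per (h 0), f2_per (h 1), f2_per (h 2)]

theorem per_om (r : ℕ) : Per 4 fun v => (om r v : ℂ) := fun v w h => by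
  simp only
  rw [om_per r h]

/-! ### the factor at seven -/

theorem Ln_per {γ : ZMod 7} {v w : V3} (h : ∀ i, (7 : ℤ) ∣ v i - w i) : Ln n0 γ v ↔ Ln n0 γ w := by
  have h1 : ∀ i, (v i : ZMod 7) = (w i : ZMod 7) := by
    intro i
    rw [ZMod.intCast_eq_intCast_iff_dvd_sub, ← dvd_neg, neg_sub]
    exact_mod_cast h i
  unfold Pool.Agent.Z700.Ln
  rw [h1 0, h1 1, h1 2]

theorem seven : (7 : ZMod 7) = 0 := by decide

theorem Ln_iff (γ a b c : ZMod 7) : (b * 3 - c * 2 = γ * 1 ∧ c * 1 - a * 3 = γ * 2 ∧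
    a * 2 - b * 1 = γ * 3) ↔ (b = 2 * a + 4 * γ ∧ c = 3 * a + 2 * γ) := by
  constructor
  · rintro ⟨h1, h2, h3⟩
    constructor
    · linear_combination -h3 - γ * seven
    · linear_combination h2
  · rintro ⟨h1, h2⟩
    subst h1 h2
    refine ⟨?_, ?_, ?_⟩
    · linear_combination γ * seven
    · ring
    · linear_combination -γ * seven

theorem Ln_iff' (γ : ZMod 7) (v : V3) : Ln n0 γ v ↔
    ((v 1 : ZMod 7) = 2 * (v 0 : ZMod 7) + 4 * γ ∧ (v 2 : ZMod 7) = 3 * (v 0 : ZMod 7) + 2 * γ) := by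
  rw [← Ln_iff]
  rfl

/-- the indicator function of a line -/
def L (γ : ZMod 7) (v : V3) : ℂ := if Ln n0 γ v then 1 else 0

theorem per_L (γ : ZMod 7) : Per 7 (L γ) := fun v w h => by
  unfold L
  rw [if_congr (Ln_per h) rfl rfl]

theorem z7_int (x : ℤ) : z7 (x : ZMod 7) = e 7 x := by
  have := e_val (N := 7) x
  unfold z7
  rw [← this]
  norm_num

theorem z7_add (x y : ZMod 7) : z7 (x + y) = z7 x * z7 y := by
  obtain ⟨a, rfl⟩ := ZMod.intCast_surjective x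
  obtain ⟨b, rfl⟩ := ZMod.intCast_surjective y
  rw [← Int.cast_add, z7_int, z7_int, z7_int, e_add]

theorem z7_zero : z7 0 = 1 := by
  have := z7_int 0
  rw [Int.cast_zero, e_zero] at this
  exact this

theorem z7_eq (x : ZMod 7) : z7 x = ZMod.stdAddChar x := by
  obtain ⟨a, rfl⟩ := ZMod.intCast_surjective x
  rw [z7_int, ZMod.stdAddChar_coe]
  rfl

theorem z7_sum (c : ZMod 7) : ∑ k : ZMod 7, z7 (k * c) = if c = 0 then 7 else 0 := by
  simp only [z7_eq]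
  rw [AddChar.sum_mulShift c (ZMod.isPrimitive_stdAddChar 7)]
  simp [ZMod.card]

theorem T_L (γ : ZMod 7) (t : ℤ) (ht : (t : ZMod 7) ≠ 0) (w : V3) : T 7 (L γ) t w =
    z7 ((t : ZMod 7) * γ * (4 * (w 1 : ZMod 7) + 2 * (w 2 : ZMod 7))) *
      if (w 0 : ZMod 7) + 2 * (w 1 : ZMod 7) + 3 * (w 2 : ZMod 7) = 0 then 7 else 0 := by
  have h1 : T 7 (L γ) t w = ∑ v : Fin 3 → ZMod 7,
      (if v 1 = 2 * v 0 + 4 * γ ∧ v 2 = 3 * v 0 + 2 * γ then (1 : ℂ) else 0) *
        z7 ((t : ZMod 7) * (v 0 * (w 0 : ZMod 7) + v 1 * (w 1 : ZMod 7) + v 2 * (w 2 : ZMod 7))) := by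
    rw [← sum_zmod]
    unfold T
    refine Finset.sum_congr rfl fun v _ => ?_
    congr 1
    · unfold L
      refine if_congr ?_ rfl rfl
      rw [Ln_iff']
      simp
    · rw [← z7_int, Fin.sum_univ_three]
      push_cast
      rfl
  rw [h1]
  have h2 : ∀ v : Fin 3 → ZMod 7,
      (if v 1 = 2 * v 0 + 4 * γ ∧ v 2 = 3 * v 0 + 2 * γ then (1 : ℂ) else 0) *
        z7 ((t : ZMod 7) * (v 0 * (w 0 : ZMod 7) + v 1 * (w 1 : ZMod 7) + v 2 * (w 2 : ZMod 7))) =
      if v 1 = 2 * v 0 + 4 * γ ∧ v 2 = 3 * v 0 + 2 * γ then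
        z7 ((t : ZMod 7) * (v 0 * (w 0 : ZMod 7) + v 1 * (w 1 : ZMod 7) + v 2 * (w 2 : ZMod 7)))
      else 0 := by
    intro v
    split_ifs <;> simp
  simp only [h2]
  have : Fact (Nat.Prime 7) := ⟨by norm_num⟩
  have h3 : (if (w 0 : ZMod 7) + 2 * (w 1 : ZMod 7) + 3 * (w 2 : ZMod 7) = 0 then (7 : ℂ) else 0) =
      ∑ k : ZMod 7, z7 (k * ((t : ZMod 7) *
        ((w 0 : ZMod 7) + 2 * (w 1 : ZMod 7) + 3 * (w 2 : ZMod 7)))) := by
    rw [z7_sum]
    refine if_congr ?_ rfl rfl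
    rw [mul_eq_zero]
    exact ⟨fun h => Or.inr h, fun h => h.resolve_left ht⟩
  rw [h3, Finset.mul_sum, ← Finset.sum_filter]
  symm
  refine Finset.sum_nbij' (fun k => ![k, 2 * k + 4 * γ, 3 * k + 2 * γ]) (fun v => v 0) ?_ ?_ ?_ ?_ ?_
  · intro k _
    simp
  · intro v _
    simp
  · intro k _
    simp
  · intro v hv
    rw [Finset.mem_filter] at hv
    funext i
    fin_cases i
    · rfl
    · exact hv.2.1.symm
    · exact hv.2.2.symm
  · intro k _
    rw [← z7_add]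
    congr 1
    simp only [Matrix.cons_val_zero, Matrix.cons_val_one, Matrix.cons_val]
    ring

/-- the factor at seven -/
theorem T_seven {s : ZMod 7} {t : ℤ} (hs : s ≠ 0) (ht : (t : ZMod 7) * 4 * s ^ 2 = 1)
    (β : ZMod 7) (w : V3) :
    T 7 (L (s * β)) t w = 7 * ∑ β' : ZMod 7, z7 (-(2 * β * β')) * L (s * β') w := by
  have : Fact (Nat.Prime 7) := ⟨by norm_num⟩
  have ht0 : (t : ZMod 7) ≠ 0 := by
    intro h
    rw [h] at ht
    simp at ht
  have hts : (t : ZMod 7) * s ^ 2 = 2 := by linear_combination 2 * ht - (t : ZMod 7) * s ^ 2 * seven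
  rw [T_L _ _ ht0]
  by_cases hc : (w 0 : ZMod 7) + 2 * (w 1 : ZMod 7) + 3 * (w 2 : ZMod 7) = 0
  · rw [if_pos hc]
    obtain ⟨u, hu⟩ : ∃ u : ZMod 7, s * u = 1 := ⟨s⁻¹, mul_inv_cancel₀ hs⟩
    set γ' : ZMod 7 := 4 * ((w 2 : ZMod 7) - 3 * (w 0 : ZMod 7)) with hγ
    have h1 : ∀ β' : ZMod 7, Ln n0 (s * β') w ↔ β' = u * γ' := by
      intro β'
      rw [Ln_iff']
      constructor
      · rintro ⟨_, h2⟩
        rw [hγ]
        linear_combination (-4 * u) * h2 - (8 * β') * hu - β' * seven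
      · rintro rfl
        have e1 : s * (u * γ') = γ' := by linear_combination γ' * hu
        rw [e1]
        constructor
        · linear_combination 4 * hc + (-(w 1 : ZMod 7) + 6 * (w 0 : ZMod 7) -
            4 * (w 2 : ZMod 7)) * seven
        · linear_combination (3 * (w 0 : ZMod 7) - (w 2 : ZMod 7)) * seven
    rw [Finset.sum_eq_single (u * γ')]
    · have h2 : L (s * (u * γ')) w = 1 := if_pos ((h1 _).2 rfl)
      have h3 := (Ln_iff' _ _).1 ((h1 _).2 rfl)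
      have h4 : (t : ZMod 7) * (s * β) * (4 * (w 1 : ZMod 7) + 2 * (w 2 : ZMod 7)) =
          -(2 * β * (u * γ')) := by
        linear_combination (4 * (t : ZMod 7) * s * β) * h3.1 + (2 * (t : ZMod 7) * s * β) * h3.2 +
          (20 * β * (u * γ')) * hts + (2 * (t : ZMod 7) * s * β * (w 0 : ZMod 7) +
            6 * β * (u * γ')) * seven
      rw [h2, mul_one, mul_comm, h4]
    · intro β' _ hβ'
      have h2 : L (s * β') w = 0 := if_neg fun h => hβ' ((h1 _).1 h)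
      rw [h2, mul_zero]
    · intro h
      exact absurd (Finset.mem_univ _) h
  · rw [if_neg hc, mul_zero, Finset.sum_eq_zero, mul_zero]
    intro β' _
    have h2 : L (s * β') w = 0 := by
      refine if_neg fun h => hc ?_
      rw [Ln_iff'] at h
      rw [h.1, h.2]
      linear_combination (2 * (w 0 : ZMod 7) + 2 * (s * β')) * seven
    rw [h2, mul_zero]

/-! ### the theorems -/

theorem psi_eq (r : ℕ) (P : Finset ℕ) (s β : ZMod 7) (v : V3) : (psi r P s β v : ℂ) =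
    (om r v : ℂ) * (L (s * β) v * (Ph P v : ℂ)) := by
  unfold psi L
  split_ifs <;> simp

theorem psi_per (r : ℕ) {P : Finset ℕ} (s β : ZMod 7) {v w : V3}
    (h : ∀ i, ((28 * pr P : ℕ) : ℤ) ∣ v i - w i) : (psi r P s β v : ℂ) = (psi r P s β w : ℂ) := by
  rw [psi_eq, psi_eq]
  have h1 : (om r v : ℂ) = (om r w : ℂ) := per_om r v w fun i =>
    (Int.natCast_dvd_natCast.2 ⟨7 * pr P, by ring⟩).trans (h i)
  have h2 : L (s * β) v = L (s * β) w := per_L _ v w fun i =>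
    (Int.natCast_dvd_natCast.2 ⟨4 * pr P, by ring⟩).trans (h i)
  have h3 : (Ph P v : ℂ) = (Ph P w : ℂ) := per_Ph P v w fun i =>
    (Int.natCast_dvd_natCast.2 ⟨28, by ring⟩).trans (h i)
  rw [h1, h2, h3]

end FTB

open FTB

theorem t_PER : S_PER := by
  intro r P s β v w _ _ h
  exact_mod_cast psi_per r s β h

theorem t_FTB (h1 : S_PHI) (h2 : S_FT) : S_FTB := by
  intro r P s _ hP hK hs
  have hm : 0 < pr P := pr_pos hP
  -- the coprimality
  have h7 : Nat.Coprime 7 (pr P) := by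
    apply Nat.Coprime.prod_right
    intro p hp
    rw [Nat.coprime_primes (by norm_num) (hP p hp).1]
    exact (hP p hp).2.2.symm
  have h4 : Nat.Coprime 4 (7 * pr P) := by
    apply Nat.Coprime.mul_right (by norm_num)
    apply Nat.Coprime.prod_right
    intro p hp
    have : Nat.Coprime 2 p := by
      rw [Nat.coprime_primes (by norm_num) (hP p hp).1]
      exact (hP p hp).2.1.symm
    exact Nat.Coprime.pow_left 2 this
  obtain ⟨x, y, hxy⟩ := Nat.isCoprime_iff_coprime.2 h4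
  obtain ⟨x', y', hxy'⟩ := Nat.isCoprime_iff_coprime.2 h7
  have hy : (1 * y) % 2 = 1 := by
    have h3 : y * ((7 * pr P : ℕ) : ℤ) = 1 - x * 4 := by
      rw [← hxy]
      push_cast
      ring
    by_contra hcon
    have h5 : (2 : ℤ) ∣ y := by omega
    have h6 : (2 : ℤ) ∣ 1 - x * 4 := h3 ▸ h5.mul_right _
    omega
  obtain ⟨κ1, hκ1⟩ := T_om (r := r) hy
  have hcop : IsCoprime (1 * x * x') (pr P : ℤ) := by
    refine IsCoprime.mul_left ?_ ?_
    · refine ⟨4, 7 * y, ?_⟩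
      push_cast at hxy
      linear_combination hxy
    · exact ⟨7, y', by push_cast at hxy'; linear_combination hxy'⟩
  obtain ⟨κ2, hκ2⟩ := T_Ph h1 h2 P hP (1 * x * x') hcop
  have : Fact (Nat.Prime 7) := ⟨by norm_num⟩
  have hm7 : ((pr P : ℕ) : ZMod 7) ≠ 0 := by
    rw [Ne, ZMod.natCast_eq_zero_iff]
    intro h
    have := Nat.Coprime.eq_one_of_dvd h7 h
    omega
  have hs0 : s ≠ 0 := by
    rintro rfl
    apply hm7
    rw [← hs]
    ring
  have ht : ((1 * x * y' : ℤ) : ZMod 7) * 4 * s ^ 2 = 1 := by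
    rw [hs]
    have e1 := congrArg (fun z : ℤ => (z : ZMod 7)) hxy
    have e2 := congrArg (fun z : ℤ => (z : ZMod 7)) hxy'
    push_cast at e1 e2 ⊢
    linear_combination ((y' : ZMod 7) * (pr P : ZMod 7)) * e1 + e2 -
      ((y : ZMod 7) * (pr P : ZMod 7) * (y' : ZMod 7) * (pr P : ZMod 7) + (x' : ZMod 7)) * seven
  refine ⟨κ1 * 7 * κ2, fun β w => ?_⟩
  have hT : ∑ v : Fin 3 → Fin (28 * pr P), (psi r P s β (fun i => ((v i : ℕ) : ℤ)) : ℂ) *
      Complex.exp (2 * Real.pi * Complex.I * ((∑ i, ((v i : ℕ) : ℤ) * w i : ℤ) : ℂ) /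
        ((28 * pr P : ℕ) : ℂ)) = T (28 * pr P) (fun v => (psi r P s β v : ℂ)) 1 w := by
    unfold T e
    refine Finset.sum_congr rfl fun v _ => ?_
    rw [one_mul]
  rw [hT]
  have e28 : 28 * pr P = 4 * (7 * pr P) := by ring
  have e3 : (fun v => (psi r P s β v : ℂ)) = fun v => (om r v : ℂ) *
      ((fun v => L (s * β) v * (Ph P v : ℂ)) v) := funext fun v => psi_eq r P s β v
  have hper : Per (7 * pr P) fun v => L (s * β) v * (Ph P v : ℂ) := by
    intro v w h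
    have h2 : L (s * β) v = L (s * β) w := per_L _ v w fun i =>
      (Int.natCast_dvd_natCast.2 ⟨pr P, by ring⟩).trans (h i)
    have h3 : (Ph P v : ℂ) = (Ph P w : ℂ) := per_Ph P v w fun i =>
      (Int.natCast_dvd_natCast.2 ⟨7, by ring⟩).trans (h i)
    simp only [h2, h3]
  rw [e28, e3, T_mul (by norm_num) (by omega) (per_om r) hper hxy, hκ1,
    T_mul (by norm_num) hm (per_L _) (per_Ph P) hxy', hκ2, T_seven hs0 ht, Finset.mul_sum,
    Finset.mul_sum, Finset.sum_mul, Finset.mul_sum]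
  refine Finset.sum_congr rfl fun β' _ => ?_
  rw [psi_eq]
  ring

end

end Pool.Agent.NH1
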