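import Pool.Agent.NH1.FlipC

/-!
# `t_FLIP`
-/

set_option autoImplicit false

namespace Pool.Agent.NH1

open Finset Matrix
open Pool.Agent.Z700 (V3 vec pr Ln n0 ep X2)

namespace FlipW

open RotW (dn mem_vec dot3 rd_mk rd_eta ln_lz LZ lz_int jprod jm14)

theorem j2_of {n : ℕ} (hn : Odd n) : jacobiSym 2 n = if sq2 n then 1 else -1 := by
  rw [jacobiSym.at_two hn, ZMod.χ₈_nat_eq_if_mod_eight]
  have h2 : ¬ n % 2 = 0 := by
    obtain ⟨k, hk⟩ := hn
    omega
  rw [if_neg h2]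
  rfl

theorem n7_of {p : ℕ} (hp : p.Prime) (h : p ≠ 7) : p % 7 ≠ 0 := by
  intro hc
  exact h ((Nat.prime_dvd_prime_iff_eq (by norm_num) hp).1 (Nat.dvd_of_mod_eq_zero hc)).symm

theorem j14_of {p : ℕ} (hp : p.Prime) (h2 : p ≠ 2) (h7 : p ≠ 7)
    (h : (sq2 p ∧ sq7 p) ∨ (¬ sq2 p ∧ ¬ sq7 p)) : jacobiSym (-14) p = 1 := by
  rw [jm14 (hp.odd_of_ne_two h2) (n7_of hp h7)]
  rcases h with ⟨a, b⟩ | ⟨a, b⟩
  · rw [if_pos a, if_pos b]; norm_num
  · rw [if_neg a, if_neg b]; norm_num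

theorem rd_ne {p : ℕ} (hp : p.Prime) {v : V3} {m : ℤ} (hn : v ⬝ᵥ v = p * m)
    (hm : ¬ (p : ℤ) ∣ m) : rd p v ≠ 0 := by
  intro hc
  have h : ∀ i, (p : ℤ) ∣ v i := by
    intro i
    have : ((v i : ℤ) : ZMod p) = 0 := congrFun hc i
    exact (ZMod.intCast_zmod_eq_zero_iff_dvd _ _).1 this
  obtain ⟨a, ha⟩ := h 0
  obtain ⟨b, hb⟩ := h 1
  obtain ⟨c, hc'⟩ := h 2
  rw [dot3, ha, hb, hc'] at hn
  apply hm
  refine ⟨a * a + b * b + c * c, ?_⟩
  have h0 : (p : ℤ) ≠ 0 := by exact_mod_cast hp.ne_zero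
  apply mul_left_cancel₀ h0
  linear_combination -hn

theorem m14_ne {p : ℕ} (hp : p.Prime) (h2 : p ≠ 2) (h7 : p ≠ 7) {l : ZMod p}
    (hl : l ^ 2 = -14) : l ≠ 0 := by
  have : Fact p.Prime := ⟨hp⟩
  rintro rfl
  have h14 : ((14 : ℕ) : ZMod p) = 0 := by
    push_cast
    have : (0 : ZMod p) ^ 2 = 0 := by ring
    rw [this] at hl
    linear_combination hl
  rw [ZMod.natCast_eq_zero_iff] at h14
  have h3 : p ∣ 2 * 7 := h14
  rcases (Nat.Prime.dvd_mul hp).1 h3 with k | k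
  · exact h2 ((Nat.prime_dvd_prime_iff_eq hp Nat.prime_two).1 k)
  · exact h7 ((Nat.prime_dvd_prime_iff_eq hp (by norm_num)).1 k)

theorem two_ne' {p : ℕ} (hp : p.Prime) (h2 : p ≠ 2) : (2 : ZMod p) ≠ 0 := by
  intro h
  have h6 : ((2 : ℕ) : ZMod p) = 0 := by exact_mod_cast h
  rw [ZMod.natCast_eq_zero_iff] at h6
  exact h2 ((Nat.prime_dvd_prime_iff_eq hp Nat.prime_two).1 h6)

/-- the line modulo `7` is preserved -/
theorem FL.ln {s t X y : ℤ} {v w : V3} (h : FL s t X y v w) (hv : dn v = 0)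
    (h0 : ((s * t : ℤ) : ZMod 7) ≠ 0) {β : ZMod 7} (hL : Ln n0 β v) : Ln n0 β w := by
  have h14 : (14 : ZMod 7) = 0 := by decide
  have h28 : (28 : ZMod 7) = 0 := by decide
  have c0 : n0 0 = 1 := rfl
  have c1 : n0 1 = 2 := rfl
  have c2 : n0 2 = 3 := rfl
  rw [ln_lz] at hL ⊢
  obtain ⟨a1, a2, a3⟩ := hL
  rw [c0, c1, c2] at a1 a2 a3
  have e14 : ((X ^ 2 + 14 * y ^ 2 : ℤ) : ZMod 7) = ((s * t : ℤ) : ZMod 7) := by rw [h.h1]
  have f0 : (((s * t) * Jv w 0 : ℤ) : ZMod 7) =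
      (((X ^ 2 - 14 * y ^ 2) * Jv v 0 - 28 * X * y * v 0 : ℤ) : ZMod 7) := by rw [h.J hv 0]
  have f1 : (((s * t) * Jv w 1 : ℤ) : ZMod 7) =
      (((X ^ 2 - 14 * y ^ 2) * Jv v 1 - 28 * X * y * v 1 : ℤ) : ZMod 7) := by rw [h.J hv 1]
  have f2 : (((s * t) * Jv w 2 : ℤ) : ZMod 7) =
      (((X ^ 2 - 14 * y ^ 2) * Jv v 2 - 28 * X * y * v 2 : ℤ) : ZMod 7) := by rw [h.J hv 2]
  rw [Jv0, Jv0] at f0
  rw [Jv1, Jv1] at f1
  rw [Jv2, Jv2] at f2
  push_cast at e14 f0 f1 f2 h0
  rw [h14] at e14 f0 f1 f2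
  rw [h28] at f0 f1 f2
  have : Fact (Nat.Prime 7) := ⟨by norm_num⟩
  refine ⟨?_, ?_, ?_⟩
  · rw [c0, c1, c2]
    apply mul_left_cancel₀ h0
    linear_combination f0 + (X : ZMod 7) ^ 2 * a1 + β * e14
  · rw [c0, c1, c2]
    apply mul_left_cancel₀ h0
    linear_combination f1 + (X : ZMod 7) ^ 2 * a2 + 2 * β * e14
  · rw [c0, c1, c2]
    apply mul_left_cancel₀ h0
    linear_combination f2 + (X : ZMod 7) ^ 2 * a3 + 3 * β * e14

open Classical in
/-- the vectors reached by the flips at the primes of `T` -/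
structure QT (P : Finset ℕ) (q : ℕ) (β : ZMod 7) (l : (p : ℕ) → ZMod p) (v0 : V3) (T : Finset ℕ)
    (v : V3) : Prop where
  norm : v ⬝ᵥ v = (pr (insert q P) : ℤ)
  ln : Ln n0 β v
  dn : dn v = 0
  eg : ∀ p ∈ P, Eg p (if p ∈ T then -l p else l p) v
  ch : ∀ p ∈ P, ph p (rd p v) = ph p (rd p v0) *
      ∏ t ∈ T, (if t = p then jacobiSym (pr ((insert q P).erase p)) p else jacobiSym t p)
  cq : ph q (rd q v) = ph q (rd q v0) * ∏ t ∈ T, (jacobiSym t q * (if X2 t then -1 else 1))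

theorem pr_split {N : Finset ℕ} (hN : ∀ p ∈ N, p.Prime) {p : ℕ} (hp : p ∈ N) :
    (pr N : ℤ) = p * (pr (N.erase p) : ℤ) ∧ ¬ (p : ℤ) ∣ (pr (N.erase p) : ℤ) := by
  constructor
  · have : p * pr (N.erase p) = pr N := by
      unfold Pool.Agent.Z700.pr
      exact Finset.mul_prod_erase N (fun p => p) hp
    exact_mod_cast this.symm
  · intro h
    have h' : p ∣ pr (N.erase p) := by exact_mod_cast h
    unfold Pool.Agent.Z700.pr at h'
    rw [Prime.dvd_finsetProd_iff (hN p hp).prime] at h'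
    obtain ⟨r, hr, hpr⟩ := h'
    rw [Finset.mem_erase] at hr
    exact hr.1 ((Nat.prime_dvd_prime_iff_eq (hN p hp) (hN r hr.2)).1 hpr).symm

open Classical in
theorem QT.step (h0 : S_PHI) (h2 : S_CL1) {P : Finset ℕ} {q : ℕ} (hPm : Pm (insert q P))
    (hqP : q ∉ P) (hS : ∀ p ∈ P, sq2 p ∧ sq7 p) (hI : ¬ sq2 q ∧ ¬ sq7 q) {β : ZMod 7}
    {l : (p : ℕ) → ZMod p} {v0 : V3} (hl : ∀ p ∈ P, l p ^ 2 = -14) {T : Finset ℕ}
    {v : V3} (h : QT P q β l v0 T v) {t : ℕ} (ht : t ∈ P) (htT : t ∉ T) :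
    ∃ w, QT P q β l v0 (insert t T) w := by
  have hprime : ∀ p ∈ insert q P, p.Prime := fun p hp => (hPm p hp).1
  have htN : t ∈ insert q P := Finset.mem_insert_of_mem ht
  have htp := (hPm t htN).1
  have ht2 := (hPm t htN).2.1
  have ht7 := (hPm t htN).2.2
  have hqN : q ∈ insert q P := Finset.mem_insert_self q P
  have hqp := (hPm q hqN).1
  have hq2 := (hPm q hqN).2.1
  have hq7 := (hPm q hqN).2.2
  obtain ⟨s, X, y, hs, hXy⟩ : ∃ s X y : ℤ, (s = 1 ∧ ¬ X2 t ∨ s = 2 ∧ X2 t) ∧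
      X ^ 2 + 14 * y ^ 2 = s * t := by
    obtain ⟨k1, -⟩ := h2 t htp (hS t ht).1 (hS t ht).2
    by_cases hx : X2 t
    · obtain ⟨f, g, hfg⟩ := id hx
      refine ⟨2, 2 * f, g, Or.inr ⟨rfl, hx⟩, ?_⟩
      rw [hfg]
      push_cast
      ring
    · obtain ⟨x, y, hxy⟩ := k1.resolve_left hx
      refine ⟨1, x, y, Or.inl ⟨rfl, hx⟩, ?_⟩
      rw [hxy]
      push_cast
      ring
  have hs' : s = 1 ∨ s = 2 := by
    rcases hs with hs | hs
    · exact Or.inl hs.1
    · exact Or.inr hs.1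
  have egt0 : Eg t (l t) v := by
    have := h.eg t ht
    rwa [if_neg htT] at this
  obtain ⟨y', w, hF⟩ := flip_step htp ht2 hs' hXy egt0 (hl t ht)
  have hst0 : s * (t : ℤ) ≠ 0 := by
    have : (t : ℤ) ≠ 0 := by exact_mod_cast htp.ne_zero
    rcases hs' with rfl | rfl
    · rw [one_mul]; exact this
    · exact mul_ne_zero two_ne_zero this
  have hnd : ∀ p : ℕ, p.Prime → p ≠ 2 → p ≠ t → ((s * t : ℤ) : ZMod p) ≠ 0 := by
    intro p hp hp2 hpt
    have : Fact p.Prime := ⟨hp⟩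
    push_cast
    refine mul_ne_zero ?_ ?_
    · rcases hs' with rfl | rfl
      · push_cast; exact one_ne_zero
      · push_cast; exact two_ne' hp hp2
    · intro hc
      rw [ZMod.natCast_eq_zero_iff] at hc
      exact hpt ((Nat.prime_dvd_prime_iff_eq hp htp).1 hc)
  have hdw : RotW.dn w = 0 := hF.d hst0 h.dn
  have hnw : w ⬝ᵥ w = (pr (insert q P) : ℤ) := by rw [hF.norm hst0 h.dn, h.norm]
  have hsplit := pr_split hprime htN
  have hj2t : jacobiSym 2 t = 1 := by
    rw [j2_of (htp.odd_of_ne_two ht2), if_pos (hS t ht).1]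
  obtain ⟨hvw, hcht⟩ := hF.pht h0 htp ht2 ht7 hs' hj2t h.dn (m := (pr ((insert q P).erase t) : ℤ))
    (by rw [h.norm]; exact hsplit.1) hsplit.2
  have hjs : ∀ p : ℕ, jacobiSym (s * t) p = jacobiSym s p * jacobiSym t p :=
    fun p => jacobiSym.mul_left s t p
  refine ⟨w, ⟨hnw, hF.ln h.dn ?_ h.ln, hdw, ?_, ?_, ?_⟩⟩
  · exact hnd 7 (by norm_num) (by norm_num) (fun hc => ht7 hc.symm)
  · intro p hp
    by_cases hpt : p = t
    · subst hpt
      rw [if_pos (Finset.mem_insert_self _ _)]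
      refine FL.egt htp ht2 hdw ?_ hvw (m14_ne htp ht2 ht7 (hl p hp)) egt0 (hl p hp)
      rw [hnw, hsplit.1]
      push_cast
      rw [ZMod.natCast_self, zero_mul]
    · have hpN : p ∈ insert q P := Finset.mem_insert_of_mem hp
      have e : (if p ∈ insert t T then -l p else l p) = if p ∈ T then -l p else l p := by
        congr 1
        rw [Finset.mem_insert, eq_iff_iff]
        tauto
      rw [e]
      refine hF.eg (hPm p hpN).1 (hnd p (hPm p hpN).1 (hPm p hpN).2.1 hpt) h.dn (h.eg p hp) ?_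
      split_ifs
      · rw [neg_sq, hl p hp]
      · exact hl p hp
  · intro p hp
    rw [Finset.prod_insert htT]
    by_cases hpt : p = t
    · subst hpt
      rw [if_pos rfl, hcht, h.ch p hp]
      ring
    · have hpN : p ∈ insert q P := Finset.mem_insert_of_mem hp
      rw [if_neg (Ne.symm hpt)]
      have hl2 : (if p ∈ T then -l p else l p) ^ 2 = -14 := by
        split_ifs
        · rw [neg_sq, hl p hp]
        · exact hl p hp
      rw [hF.phn h0 (hPm p hpN).1 (hPm p hpN).2.1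
        (hnd p (hPm p hpN).1 (hPm p hpN).2.1 hpt) (h.eg p hp) hl2, h.ch p hp, hjs]
      have hjp : jacobiSym s p = 1 := by
        rcases hs' with rfl | rfl
        · exact jacobiSym.one_left p
        · rw [j2_of ((hPm p hpN).1.odd_of_ne_two (hPm p hpN).2.1), if_pos (hS p hp).1]
      rw [hjp]
      ring
  · rw [Finset.prod_insert htT]
    have hqt : q ≠ t := by
      rintro rfl
      exact hqP ht
    have hsq := pr_split hprime hqN
    have hrq : rd q v ≠ 0 := rd_ne hqp (by rw [h.norm]; exact hsq.1) hsq.2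
    obtain ⟨lq, hlq, hlq2⟩ := eg_exists hqp h.dn (by
      rw [h.norm, hsq.1]
      push_cast
      rw [ZMod.natCast_self, zero_mul]) hrq
    rw [hF.phn h0 hqp hq2 (hnd q hqp hq2 hqt) hlq hlq2, h.cq, hjs]
    have hjq : jacobiSym s q = if X2 t then -1 else 1 := by
      rcases hs with ⟨rfl, hx⟩ | ⟨rfl, hx⟩
      · rw [if_neg hx]
        exact jacobiSym.one_left q
      · rw [if_pos hx, j2_of (hqp.odd_of_ne_two hq2), if_neg hI.1]
    rw [hjq]
    ring

end FlipW

open FlipW RotW in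
open Classical in
theorem t_FLIP (h0 : S_PHI) (_h1 : S_PROT) (h2 : S_CL1) (h3 : S_CL2) : S_FLIP := by
  intro P q hPm hqP hSP hIq β hβ
  have hS : ∀ p ∈ P, sq2 p ∧ sq7 p := by
    intro p hp
    rw [← hSP] at hp
    exact (Finset.mem_filter.1 hp).2
  have hI : ¬ sq2 q ∧ ¬ sq7 q := by
    have : q ∈ sI {q} := by rw [hIq]; exact Finset.mem_singleton_self q
    exact (Finset.mem_filter.1 this).2
  have hprime : ∀ p ∈ insert q P, p.Prime := fun p hp => (hPm p hp).1
  have hqN : q ∈ insert q P := Finset.mem_insert_self q P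
  have hqp := (hPm q hqN).1
  have hq2 := (hPm q hqN).2.1
  have hq7 := (hPm q hqN).2.2
  have hj : ∀ p ∈ insert q P, jacobiSym (-14) p = 1 := by
    intro p hp
    refine j14_of (hPm p hp).1 (hPm p hp).2.1 (hPm p hp).2.2 ?_
    rcases Finset.mem_insert.1 hp with rfl | hp'
    · exact Or.inr hI
    · exact Or.inl (hS p hp')
  have hodd : ∀ N : Finset ℕ, N ⊆ insert q P → Odd (pr N) := by
    intro N hN
    unfold Pool.Agent.Z700.pr
    refine Finset.prod_induction _ _ (fun a b => Odd.mul) odd_one fun p hp => ?_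
    exact (hPm p (hN hp)).1.odd_of_ne_two (hPm p (hN hp)).2.1
  have h7 : ∀ N : Finset ℕ, N ⊆ insert q P → pr N % 7 ≠ 0 := by
    intro N hN hc
    have h7p : Nat.Prime 7 := by norm_num
    have hd := Nat.dvd_of_mod_eq_zero hc
    unfold Pool.Agent.Z700.pr at hd
    rw [Prime.dvd_finsetProd_iff h7p.prime] at hd
    obtain ⟨r, hr, hpr⟩ := hd
    exact (hPm r (hN hr)).2.2 ((Nat.prime_dvd_prime_iff_eq h7p (hPm r (hN hr)).1).1 hpr).symm
  obtain ⟨v0, hv0n, hv0d, hv0l⟩ := base_v h3 (hodd _ (Finset.Subset.refl _))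
    (h7 _ (Finset.Subset.refl _)) (root _ hprime hj) hβ
  -- facts on the vectors
  have hrd : ∀ v : V3, v ⬝ᵥ v = (pr (insert q P) : ℤ) → ∀ p ∈ insert q P, rd p v ≠ 0 := by
    intro v hv p hp
    have hsp := pr_split hprime hp
    exact rd_ne (hprime p hp) (by rw [hv]; exact hsp.1) hsp.2
  have hz : ∀ v : V3, v ⬝ᵥ v = (pr (insert q P) : ℤ) → ∀ p ∈ insert q P,
      ((v ⬝ᵥ v : ℤ) : ZMod p) = 0 := by
    intro v hv p hp
    rw [hv, (pr_split hprime hp).1]
    push_cast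
    rw [ZMod.natCast_self, zero_mul]
  have hex : ∀ p : ℕ, ∃ l : ZMod p, p ∈ P → Eg p l v0 ∧ l ^ 2 = -14 := by
    intro p
    by_cases hp : p ∈ P
    · have hpN : p ∈ insert q P := Finset.mem_insert_of_mem hp
      obtain ⟨l, hl⟩ := eg_exists (hprime p hpN) hv0d (hz v0 hv0n p hpN) (hrd v0 hv0n p hpN)
      exact ⟨l, fun _ => hl⟩
    · exact ⟨0, fun h => absurd h hp⟩
  choose l hl using hex
  have hl2 : ∀ p ∈ P, l p ^ 2 = -14 := fun p hp => (hl p hp).2
  have hbase : QT P q β l v0 ∅ v0 := by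
    refine ⟨hv0n, hv0l, hv0d, fun p hp => ?_, fun p _ => ?_, ?_⟩
    · rw [if_neg (Finset.notMem_empty p)]
      exact (hl p hp).1
    · rw [Finset.prod_empty, mul_one]
    · rw [Finset.prod_empty, mul_one]
  have hall : ∀ T : Finset ℕ, ∃ v, T ⊆ P → QT P q β l v0 T v := by
    intro T
    induction T using Finset.induction_on with
    | empty => exact ⟨v0, fun _ => hbase⟩
    | insert t T htT ih =>
      obtain ⟨v, hv⟩ := ih
      by_cases hT : insert t T ⊆ P
      · have hT' : T ⊆ P := fun x hx => hT (Finset.mem_insert_of_mem hx)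
        obtain ⟨w, hw⟩ := (hv hT').step h0 h2 hPm hqP hS hI hl2
          (hT (Finset.mem_insert_self t T)) htT
        exact ⟨w, fun _ => hw⟩
      · exact ⟨v0, fun h => absurd h hT⟩
  choose u' hu' using hall
  let u : Finset ℕ → V3 := fun T => if T = ∅ then v0 else u' T
  have hue : u ∅ = v0 := if_pos rfl
  have hu : ∀ T ⊆ P, QT P q β l v0 T (u T) := by
    intro T hT
    by_cases hTe : T = ∅
    · rw [hTe, hue]
      exact hbase
    · have : u T = u' T := if_neg hTe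
      rw [this]
      exact hu' T hT
  refine ⟨u, fun T hT => ⟨mem_vec.2 (hu T hT).norm, (hu T hT).ln, (hu T hT).dn⟩, ?_, ?_, ?_, ?_⟩
  · -- injectivity
    intro T hT T' hT' he
    ext p
    by_contra hcon
    have hpP : p ∈ P := by
      by_contra hpP
      exact hcon ⟨fun h => absurd (hT h) hpP, fun h => absurd (hT' h) hpP⟩
    have hpN : p ∈ insert q P := Finset.mem_insert_of_mem hpP
    have e1 := (hu T hT).eg p hpP
    have e2 := (hu T' hT').eg p hpP
    rw [he] at e1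
    have e3 := eg_uniq (hprime p hpN) (hrd _ (hu T' hT').norm p hpN) e1 e2
    have : Fact p.Prime := ⟨hprime p hpN⟩
    have hl0 : l p ≠ 0 := m14_ne (hprime p hpN) (hPm p hpN).2.1 (hPm p hpN).2.2 (hl2 p hpP)
    have h22 := two_ne' (hprime p hpN) (hPm p hpN).2.1
    have h2l : (2 : ZMod p) * l p ≠ 0 := mul_ne_zero h22 hl0
    apply hcon
    constructor
    · intro k1
      by_contra k2
      rw [if_pos k1, if_neg k2] at e3
      exact h2l (by linear_combination -e3)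
    · intro k2
      by_contra k1
      rw [if_neg k1, if_pos k2] at e3
      exact h2l (by linear_combination e3)
  · -- surjectivity
    intro v hv hL hd
    have hvn := mem_vec.1 hv
    have hvd : dn v = 0 := hd
    let T : Finset ℕ := P.filter fun p => Eg p (-l p) v
    have hT : T ⊆ P := Finset.filter_subset _ _
    refine ⟨T, hT, ?_⟩
    have hw := hu T hT
    have hsame : ∀ p ∈ P, ∃ l' : ZMod p, l' ≠ 0 ∧ Eg p l' (u T) ∧ Eg p l' v := by
      intro p hp
      have hpN : p ∈ insert q P := Finset.mem_insert_of_mem hp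
      have hl0 : l p ≠ 0 := m14_ne (hprime p hpN) (hPm p hpN).2.1 (hPm p hpN).2.2 (hl2 p hp)
      have : Fact p.Prime := ⟨hprime p hpN⟩
      have e := hw.eg p hp
      by_cases hpT : p ∈ T
      · rw [if_pos hpT] at e
        exact ⟨-l p, neg_ne_zero.2 hl0, e, (Finset.mem_filter.1 hpT).2⟩
      · rw [if_neg hpT] at e
        refine ⟨l p, hl0, e, ?_⟩
        obtain ⟨l', hl', hl2'⟩ := eg_exists (hprime p hpN) hvd (hz v hvn p hpN) (hrd v hvn p hpN)
        have hll : (l' - l p) * (l' + l p) = 0 := by linear_combination hl2' - hl2 p hp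
        rcases mul_eq_zero.1 hll with k | k
        · rw [sub_eq_zero.1 k] at hl'
          exact hl'
        · exfalso
          apply hpT
          refine Finset.mem_filter.2 ⟨hp, ?_⟩
          have : l' = -l p := by linear_combination k
          rw [← this]
          exact hl'
    have hpr : (pr (insert q P) : ℤ) = (pr P : ℤ) * q := by
      have : pr (insert q P) = q * pr P := by
        unfold Pool.Agent.Z700.pr
        exact Finset.prod_insert hqP
      rw [this]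
      push_cast
      ring
    have hda : ∀ p ∈ P, (p : ℤ) ∣ u T ⬝ᵥ v := by
      intro p hp
      have hpN : p ∈ insert q P := Finset.mem_insert_of_mem hp
      obtain ⟨l', hl0, e1, e2⟩ := hsame p hp
      exact (ZMod.intCast_zmod_eq_zero_iff_dvd _ _).1
        (eg_same (hprime p hpN) (hPm p hpN).2.1 hl0 e1 e2)
    have hdb : ∀ p ∈ P, (p : ℤ) ∣ u T 1 * v 2 - u T 2 * v 1 := by
      intro p hp
      have hpN : p ∈ insert q P := Finset.mem_insert_of_mem hp
      obtain ⟨l', hl0, e1, e2⟩ := hsame p hp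
      have : Fact p.Prime := ⟨hprime p hpN⟩
      rw [← ZMod.intCast_zmod_eq_zero_iff_dvd]
      have a1 := e1 1
      have a2 := e1 2
      have b1 := e2 1
      have b2 := e2 2
      have a0 := e1 0
      have b0 := e2 0
      have dw : ((dn (u T) : ℤ) : ZMod p) = 0 := by rw [hw.dn]; simp
      have dv : ((dn v : ℤ) : ZMod p) = 0 := by rw [hvd]; simp
      unfold dn at dw dv
      rw [Jv0] at a0 b0
      rw [Jv1] at a1 b1
      rw [Jv2] at a2 b2
      have dd : ((u T ⬝ᵥ v : ℤ) : ZMod p) = 0 :=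
        (ZMod.intCast_zmod_eq_zero_iff_dvd _ _).2 (hda p hp)
      rw [dot3] at dd
      push_cast at a0 a1 a2 b0 b1 b2 dw dv dd ⊢
      have k : l' * ((u T 1 : ZMod p) * (v 2 : ZMod p) - (u T 2 : ZMod p) * (v 1 : ZMod p)) =
          0 := by
        linear_combination (-(v 2 : ZMod p)) * a1 + (v 1 : ZMod p) * a2 + dd -
          (u T 0 : ZMod p) * dv
      exact (mul_eq_zero.1 k).resolve_left hl0
    have hcop : ∀ a : ℤ, (∀ p ∈ P, (p : ℤ) ∣ a) → (pr P : ℤ) ∣ a := by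
      intro a ha
      unfold Pool.Agent.Z700.pr
      push_cast
      refine Finset.prod_dvd_of_coprime ?_ ha
      intro p hp r hr hpr'
      have hpN : p ∈ insert q P := Finset.mem_insert_of_mem hp
      have hrN : r ∈ insert q P := Finset.mem_insert_of_mem hr
      exact Nat.isCoprime_iff_coprime.2
        ((Nat.coprime_primes (hprime p hpN) (hprime r hrN)).2 hpr')
    have hPs : P ⊆ insert q P := Finset.subset_insert q P
    exact uniq_v hqp hq2 hq7 hI.2 (hodd P hPs).pos.ne' (h7 P hPs) hw.dn hvd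
      (by rw [hw.norm]; exact hpr) (by rw [hvn]; exact hpr) hw.ln hL (hcop _ hda) (hcop _ hdb)
  · intro T hT p hp
    rw [hue]
    exact (hu T hT).ch p hp
  · intro T hT
    rw [hue]
    exact (hu T hT).cq

end Pool.Agent.NH1
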