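import Pool.Agent.NH1.Sub

/-!
# Project NH1: characters of isotropic vectors modulo `p` and isometries (`S_PHI`, `S_PROT`)
-/

set_option autoImplicit false

namespace Pool.Agent.NH1

open Matrix

namespace PhiAux

theorem dot3 {R : Type*} [CommRing R] (v w : Fin 3 → R) :
    v ⬝ᵥ w = v 0 * w 0 + v 1 * w 1 + v 2 * w 2 := by
  simp [dotProduct, Fin.sum_univ_three]

theorem ext3 {R : Type*} {v w : Fin 3 → R} (h0 : v 0 = w 0) (h1 : v 1 = w 1) (h2 : v 2 = w 2) :
    v = w := by
  funext i
  fin_cases i <;> assumption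

variable {p : ℕ} [Fact p.Prime]

theorem lz_eq (c : ZMod p) : lz p c = quadraticChar (ZMod p) c := by
  unfold lz
  rw [← jacobiSym.legendreSym.to_jacobiSym]
  unfold legendreSym
  congr 1
  rw [Int.cast_natCast, ZMod.natCast_val, ZMod.cast_id]

theorem two_ne (h2 : p ≠ 2) : (2 : ZMod p) ≠ 0 := by
  intro h
  have h' : ((2 : ℕ) : ZMod p) = 0 := by exact_mod_cast h
  rw [ZMod.natCast_eq_zero_iff] at h'
  exact h2 ((Nat.prime_dvd_prime_iff_eq (Fact.out) Nat.prime_two).1 h')

theorem lz_mul (a b : ZMod p) : lz p (a * b) = lz p a * lz p b := by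
  rw [lz_eq, lz_eq, lz_eq, map_mul]

theorem lz_pm {a : ZMod p} (ha : a ≠ 0) : lz p a = 1 ∨ lz p a = -1 := by
  rw [lz_eq]
  exact quadraticChar_dichotomy ha

theorem lz_sq {a : ZMod p} (ha : a ≠ 0) : lz p (a ^ 2) = 1 := by
  rw [lz_eq]
  exact quadraticChar_sq_one' ha

theorem lz_ms {a b : ZMod p} (hb : b ≠ 0) : lz p (a * b ^ 2) = lz p a := by
  rw [lz_mul, lz_sq hb, mul_one]

/-- two orthogonal isotropic vectors, one coordinate -/
theorem prop0 {x y z a b c : ZMod p} (hx : x ≠ 0) (h1 : x * x + y * y + z * z = 0)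
    (h2 : a * a + b * b + c * c = 0) (h3 : x * a + y * b + z * c = 0) :
    x * b = a * y ∧ x * c = a * z := by
  have e1 : y * (x * c - a * z) = z * (x * b - a * y) := by
    have : (y * (x * c - a * z) - z * (x * b - a * y)) ^ 2 = 0 := by
      have : (y * (x * c - a * z) - z * (x * b - a * y)) ^ 2 =
        x ^ 2 * ((x * x + y * y + z * z) * (a * a + b * b + c * c) -
          (x * a + y * b + z * c) ^ 2 - (x * b - a * y) ^ 2 - (x * c - a * z) ^ 2) := by ring
      rw [this, h1, h2, h3]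
      have e : (x * b - a * y) ^ 2 + (x * c - a * z) ^ 2 =
        x ^ 2 * (a * a + b * b + c * c) + a ^ 2 * (x * x + y * y + z * z) -
          2 * (x * a) * (x * a + y * b + z * c) := by ring
      rw [h1, h2, h3] at e
      linear_combination (-x ^ 2) * e
    exact sub_eq_zero.1 (pow_eq_zero_iff (two_ne_zero) |>.1 this)
  have e2 : y * (x * b - a * y) + z * (x * c - a * z) = 0 := by
    linear_combination x * h3 - a * h1
  have hx2 : x * x ≠ 0 := mul_ne_zero hx hx
  constructor
  · have : x * x * (x * b - a * y) = 0 := by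
      linear_combination (x * b - a * y) * h1 - y * e2 + z * e1
    exact sub_eq_zero.1 ((mul_eq_zero.1 this).resolve_left hx2)
  · have : x * x * (x * c - a * z) = 0 := by
      linear_combination (x * c - a * z) * h1 - z * e2 - y * e1
    exact sub_eq_zero.1 ((mul_eq_zero.1 this).resolve_left hx2)

/-- two orthogonal isotropic vectors are proportional -/
theorem prop {v w : Fin 3 → ZMod p} (hv0 : v ≠ 0) (hv : v ⬝ᵥ v = 0) (hw : w ⬝ᵥ w = 0)
    (hvw : v ⬝ᵥ w = 0) : ∃ c : ZMod p, w = c • v := by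
  rw [dot3] at hv hw hvw
  by_cases h0 : v 0 = 0
  · by_cases h1 : v 1 = 0
    · by_cases h2 : v 2 = 0
      · exact absurd (ext3 h0 h1 h2) hv0
      · obtain ⟨e1, e2⟩ := prop0 (x := v 2) (y := v 0) (z := v 1) (a := w 2) (b := w 0) (c := w 1)
          h2 (by linear_combination hv) (by linear_combination hw) (by linear_combination hvw)
        refine ⟨w 2 / v 2, ext3 ?_ ?_ ?_⟩ <;> simp only [Pi.smul_apply, smul_eq_mul] <;>
          field_simp
        · linear_combination e1
        · linear_combination e2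
    · obtain ⟨e1, e2⟩ := prop0 (x := v 1) (y := v 2) (z := v 0) (a := w 1) (b := w 2) (c := w 0)
        h1 (by linear_combination hv) (by linear_combination hw) (by linear_combination hvw)
      refine ⟨w 1 / v 1, ext3 ?_ ?_ ?_⟩ <;> simp only [Pi.smul_apply, smul_eq_mul] <;>
        field_simp
      · linear_combination e2
      · linear_combination e1
  · obtain ⟨e1, e2⟩ := prop0 (x := v 0) (y := v 1) (z := v 2) (a := w 0) (b := w 1) (c := w 2)
      h0 (by linear_combination hv) (by linear_combination hw) (by linear_combination hvw)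
    refine ⟨w 0 / v 0, ext3 ?_ ?_ ?_⟩ <;> simp only [Pi.smul_apply, smul_eq_mul] <;>
      field_simp
    · linear_combination e1
    · linear_combination e2

theorem gram (u v w : Fin 3 → ZMod p) (hu : u ⬝ᵥ u = 0) (hv : v ⬝ᵥ v = 0) (hw : w ⬝ᵥ w = 0) :
    2 * (v ⬝ᵥ u) * (2 * (w ⬝ᵥ u)) * (2 * (v ⬝ᵥ w)) =
      (2 * (u 0 * (v 1 * w 2 - v 2 * w 1) - u 1 * (v 0 * w 2 - v 2 * w 0) +
        u 2 * (v 0 * w 1 - v 1 * w 0))) ^ 2 := by
  have e : (2 * (u 0 * (v 1 * w 2 - v 2 * w 1) - u 1 * (v 0 * w 2 - v 2 * w 0) +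
        u 2 * (v 0 * w 1 - v 1 * w 0))) ^ 2 = 4 * ((u ⬝ᵥ u) * (v ⬝ᵥ v) * (w ⬝ᵥ w) +
        2 * (u ⬝ᵥ v) * (v ⬝ᵥ w) * (u ⬝ᵥ w) - (u ⬝ᵥ u) * (v ⬝ᵥ w) ^ 2 - (v ⬝ᵥ v) * (u ⬝ᵥ w) ^ 2 -
        (w ⬝ᵥ w) * (u ⬝ᵥ v) ^ 2) := by
    simp only [dot3]
    ring
  rw [e, hu, hv, hw, dotProduct_comm v u, dotProduct_comm w u]
  ring

end PhiAux

open PhiAux

theorem t_PHI : S_PHI := by
  classical
  intro p hp h2
  have : Fact p.Prime := ⟨hp⟩
  obtain ⟨a, b, hab⟩ := ZMod.sq_add_sq p (-1)
  set u : Fin 3 → ZMod p := ![1, a, b] with hu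
  have hu0 : u 0 = 1 := rfl
  have hu1 : u 1 = a := rfl
  have hu2 : u 2 = b := rfl
  have huu : u ⬝ᵥ u = 0 := by
    rw [dot3, hu0, hu1, hu2]
    linear_combination hab
  have hune : u ≠ 0 := by
    intro h
    have := congrFun h 0
    rw [hu0] at this
    exact one_ne_zero this
  have h2' : (2 : ZMod p) ≠ 0 := two_ne h2
  -- proportional vectors
  have hprop : ∀ v : Fin 3 → ZMod p, v ⬝ᵥ v = 0 → v ⬝ᵥ u = 0 → v = v 0 • u := by
    intro v hv hvu
    obtain ⟨c, hc⟩ := prop hune huu hv (by rw [dotProduct_comm]; exact hvu)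
    have : v 0 = c := by
      have := congrFun hc 0
      rw [Pi.smul_apply, hu0, smul_eq_mul, mul_one] at this
      exact this
    rw [this]
    exact hc
  let f : (Fin 3 → ZMod p) → ℤ := fun v =>
    if v ⬝ᵥ v ≠ 0 ∨ v = 0 then 0 else if v ⬝ᵥ u = 0 then lz p (v 0) else lz p (2 * (v ⬝ᵥ u))
  have f1 : ∀ v : Fin 3 → ZMod p, v ⬝ᵥ v = 0 → v ≠ 0 → v ⬝ᵥ u = 0 → f v = lz p (v 0) := by
    intro v h1 h2 h3
    have : ¬ (v ⬝ᵥ v ≠ 0 ∨ v = 0) := by
      rintro (h | h)
      · exact h h1
      · exact h2 h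
    simp only [f]
    rw [if_neg this, if_pos h3]
  have f2 : ∀ v : Fin 3 → ZMod p, v ⬝ᵥ v = 0 → v ≠ 0 → v ⬝ᵥ u ≠ 0 →
      f v = lz p (2 * (v ⬝ᵥ u)) := by
    intro v h1 h2 h3
    have : ¬ (v ⬝ᵥ v ≠ 0 ∨ v = 0) := by
      rintro (h | h)
      · exact h h1
      · exact h2 h
    simp only [f]
    rw [if_neg this, if_neg h3]
  have f0 : ∀ v : Fin 3 → ZMod p, (v ⬝ᵥ v ≠ 0 ∨ v = 0) → f v = 0 := by
    intro v h
    simp only [f]
    rw [if_pos h]
  refine ⟨f, ⟨f0, ?_, ?_, ?_⟩⟩
  · intro v hv hv0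
    by_cases hvu : v ⬝ᵥ u = 0
    · rw [f1 v hv hv0 hvu]
      apply lz_pm
      intro h
      apply hv0
      rw [hprop v hv hvu, h, zero_smul]
    · rw [f2 v hv hv0 hvu]
      exact lz_pm (mul_ne_zero h2' hvu)
  · intro c v hc
    have e1 : (c • v) ⬝ᵥ (c • v) = c ^ 2 * (v ⬝ᵥ v) := by
      rw [smul_dotProduct, dotProduct_smul, smul_eq_mul, smul_eq_mul]
      ring
    have e2 : (c • v) ⬝ᵥ u = c * (v ⬝ᵥ u) := by
      rw [smul_dotProduct, smul_eq_mul]
    by_cases h : v ⬝ᵥ v ≠ 0 ∨ v = 0
    · rw [f0 v h, mul_zero]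
      apply f0
      rcases h with h | h
      · left
        rw [e1]
        exact mul_ne_zero (pow_ne_zero 2 hc) h
      · right
        rw [h, smul_zero]
    · rw [not_or, not_not] at h
      obtain ⟨hv, hv0⟩ := h
      have h1 : (c • v) ⬝ᵥ (c • v) = 0 := by rw [e1, hv, mul_zero]
      have h3 : c • v ≠ 0 := smul_ne_zero hc hv0
      by_cases hvu : v ⬝ᵥ u = 0
      · rw [f1 v hv hv0 hvu, f1 _ h1 h3 (by rw [e2, hvu, mul_zero]), Pi.smul_apply, smul_eq_mul,
          lz_mul]
      · rw [f2 v hv hv0 hvu, f2 _ h1 h3 (by rw [e2]; exact mul_ne_zero hc hvu), e2, ← lz_mul]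
        congr 1
        ring
  · intro v w hv hw hvw
    have hv0 : v ≠ 0 := by
      rintro rfl
      exact hvw (zero_dotProduct _)
    have hw0 : w ≠ 0 := by
      rintro rfl
      exact hvw (dotProduct_zero _)
    by_cases hvu : v ⬝ᵥ u = 0
    · have e := hprop v hv hvu
      have hwu : w ⬝ᵥ u ≠ 0 := by
        intro h
        apply hvw
        rw [e, smul_dotProduct, dotProduct_comm u w, h, smul_zero]
      rw [f1 v hv hv0 hvu, f2 w hw hw0 hwu, ← lz_mul]
      congr 1
      conv_rhs => rw [e, smul_dotProduct, dotProduct_comm u w, smul_eq_mul]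
      ring
    · by_cases hwu : w ⬝ᵥ u = 0
      · have e := hprop w hw hwu
        rw [f2 v hv hv0 hvu, f1 w hw hw0 hwu, ← lz_mul]
        congr 1
        conv_rhs => rw [e, dotProduct_smul, smul_eq_mul]
        ring
      · rw [f2 v hv hv0 hvu, f2 w hw hw0 hwu, ← lz_mul]
        have g := gram u v w huu hv hw
        have n1 : 2 * (v ⬝ᵥ u) * (2 * (w ⬝ᵥ u)) ≠ 0 :=
          mul_ne_zero (mul_ne_zero h2' hvu) (mul_ne_zero h2' hwu)
        have n2 : 2 * (v ⬝ᵥ w) ≠ 0 := mul_ne_zero h2' hvw
        have g2 : lz p (2 * (v ⬝ᵥ u) * (2 * (w ⬝ᵥ u)) * (2 * (v ⬝ᵥ w))) = 1 := by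
          rw [g]
          apply lz_sq
          intro h
          rw [h] at g
          exact mul_ne_zero n1 n2 (by rw [g]; ring)
        rw [lz_mul] at g2
        rcases lz_pm n1 with h | h <;> rcases lz_pm n2 with h' | h' <;> rw [h, h'] at g2 ⊢ <;>
          norm_num at g2

namespace PhiAux

variable {p : ℕ} [Fact p.Prime]

/-- the value at an isotropic vector which is not orthogonal -/
theorem val1 {f : (Fin 3 → ZMod p) → ℤ} (hf : IsPhi p f) {v w : Fin 3 → ZMod p}
    (hv : v ⬝ᵥ v = 0) (hw : w ⬝ᵥ w = 0) (hvw : v ⬝ᵥ w ≠ 0) :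
    f w = lz p (2 * (v ⬝ᵥ w)) * f v := by
  have hv0 : v ≠ 0 := by
    rintro rfl
    exact hvw (zero_dotProduct _)
  rw [← hf.mul v w hv hw hvw]
  rcases hf.pm v hv hv0 with h | h <;> rw [h] <;> ring

/-- an isometry which maps isotropic vectors to isotropic vectors: reduction to isotropic vectors -/
theorem red0 {f : (Fin 3 → ZMod p) → ℤ} (hf : IsPhi p f) {v w : Fin 3 → ZMod p} {c : ℤ}
    (h1 : w ⬝ᵥ w = v ⬝ᵥ v) (h2 : v = 0 → w = 0)
    (h : v ⬝ᵥ v = 0 → v ≠ 0 → f w = c * f v) : f w = c * f v := by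
  by_cases hv : v ⬝ᵥ v = 0
  · by_cases hv0 : v = 0
    · rw [hf.zero v (Or.inr hv0), hf.zero w (Or.inr (h2 hv0)), mul_zero]
    · exact h hv hv0
  · rw [hf.zero v (Or.inl hv), hf.zero w (Or.inl (by rw [h1]; exact hv)), mul_zero]

theorem smulv {f : (Fin 3 → ZMod p) → ℤ} (hf : IsPhi p f) {v w : Fin 3 → ZMod p} {c : ZMod p}
    (hc : c ≠ 0) (h : w = c • v) : f w = lz p c * f v := by
  rw [h, hf.smul c v hc]

end PhiAux

theorem t_PROT : S_PROT := by
  intro p hp h2 f hf v
  have : Fact p.Prime := ⟨hp⟩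
  have h2' : (2 : ZMod p) ≠ 0 := two_ne h2
  refine ⟨?_, ?_, ?_, ?_, ?_⟩
  · -- cyclic permutation
    have key : f ![v 1, v 2, v 0] = 1 * f v := by
      apply red0 hf
      · simp only [dot3, cons_val_zero, cons_val_one, cons_val]
        ring
      · rintro rfl
        exact ext3 rfl rfl rfl
      intro hv hv0
      set w : Fin 3 → ZMod p := ![v 1, v 2, v 0] with hw
      have w0 : w 0 = v 1 := rfl
      have w1 : w 1 = v 2 := rfl
      have w2 : w 2 = v 0 := rfl
      have hww : w ⬝ᵥ w = 0 := by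
        rw [dot3] at hv ⊢
        rw [w0, w1, w2]
        linear_combination hv
      have hvw : 2 * (v ⬝ᵥ w) = 1 * (v 0 + v 1 + v 2) ^ 2 := by
        rw [dot3] at hv ⊢
        rw [w0, w1, w2]
        linear_combination -hv
      by_cases hs : v 0 + v 1 + v 2 = 0
      · have hz : v ⬝ᵥ w = 0 := by
          rw [hs] at hvw
          have : 2 * (v ⬝ᵥ w) = 0 := by rw [hvw]; ring
          exact (mul_eq_zero.1 this).resolve_left h2'
        obtain ⟨c, hc⟩ := prop hv0 hv hww hz
        have e0 : v 1 = c * v 0 := by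
          have := congrFun hc 0
          rwa [w0, Pi.smul_apply, smul_eq_mul] at this
        have e1 : v 2 = c * v 1 := by
          have := congrFun hc 1
          rwa [w1, Pi.smul_apply, smul_eq_mul] at this
        have e2 : v 0 = c * v 2 := by
          have := congrFun hc 2
          rwa [w2, Pi.smul_apply, smul_eq_mul] at this
        have hv00 : v 0 ≠ 0 := by
          intro h
          rw [h, mul_zero] at e0
          rw [e0, mul_zero] at e1
          exact hv0 (ext3 h e0 e1)
        have hc3 : c ^ 3 = 1 := by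
          have : v 0 * (c ^ 3 - 1) = 0 := by
            have e3 : v 0 = c * (c * (c * v 0)) := by
              rw [← e0, ← e1, ← e2]
            linear_combination -e3
          exact sub_eq_zero.1 ((mul_eq_zero.1 this).resolve_left hv00)
        have hc0 : c ≠ 0 := by
          rintro rfl
          norm_num at hc3
        rw [smulv hf hc0 hc]
        congr 1
        have h3 : lz p c * (lz p c) ^ 2 = 1 := by
          have : lz p (c ^ 3) = 1 := by
            rw [hc3]
            have := lz_sq (p := p) (a := 1) one_ne_zero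
            rwa [one_pow] at this
          rw [← this, show c ^ 3 = c * (c * c) by ring, lz_mul, lz_mul]
          ring
        rcases lz_pm hc0 with h | h
        · exact h
        · rw [h] at h3
          norm_num at h3
      · have hz : v ⬝ᵥ w ≠ 0 := by
          intro h
          rw [h, mul_zero, one_mul] at hvw
          exact hs (pow_eq_zero_iff (two_ne_zero) |>.1 hvw.symm)
        rw [val1 hf hv hww hz, hvw, lz_ms hs]
        congr 1
        have := lz_sq (p := p) (a := 1) one_ne_zero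
        rwa [one_pow] at this
    rw [key, one_mul]
  · have key : f ![v 0, -v 1, -v 2] = 1 * f v := by
      apply red0 hf
      · simp only [dot3, cons_val_zero, cons_val_one, cons_val]
        ring
      · rintro rfl
        apply ext3 <;> simp
      intro hv hv0
      set w : Fin 3 → ZMod p := ![v 0, -v 1, -v 2] with hw
      have w0 : w 0 = v 0 := rfl
      have w1 : w 1 = -v 1 := rfl
      have w2 : w 2 = -v 2 := rfl
      have hww : w ⬝ᵥ w = 0 := by
        rw [dot3] at hv ⊢
        rw [w0, w1, w2]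
        linear_combination hv
      have hvw : v ⬝ᵥ w = 2 * v 0 ^ 2 := by
        rw [dot3] at hv ⊢
        rw [w0, w1, w2]
        linear_combination -hv
      by_cases hs : v 0 = 0
      · have hm : w = (-1 : ZMod p) • v := by
          apply ext3 <;> simp only [Pi.smul_apply, smul_eq_mul, w0, w1, w2, hs] <;> ring
        have hn : (-1 : ZMod p) ≠ 0 := neg_ne_zero.2 one_ne_zero
        rw [smulv hf hn hm]
        congr 1
        rw [dot3, hs] at hv
        have hy : v 1 ≠ 0 := by
          intro h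
          rw [h] at hv
          have : v 2 ^ 2 = 0 := by linear_combination hv
          exact hv0 (ext3 hs h (pow_eq_zero_iff (two_ne_zero) |>.1 this))
        have hy2 : v 2 ≠ 0 := by
          intro h
          rw [h] at hv
          have : v 1 ^ 2 = 0 := by linear_combination hv
          exact hy (pow_eq_zero_iff (two_ne_zero) |>.1 this)
        have : (-1 : ZMod p) = (v 2 / v 1) ^ 2 := by
          field_simp
          linear_combination -hv
        rw [this]
        exact lz_sq (div_ne_zero hy2 hy)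
      · have hz : v ⬝ᵥ w ≠ 0 := by
          rw [hvw]
          exact mul_ne_zero h2' (pow_ne_zero 2 hs)
        rw [val1 hf hv hww hz, hvw, show (2 : ZMod p) * (2 * v 0 ^ 2) = (2 * v 0) ^ 2 by ring,
          lz_sq (mul_ne_zero h2' hs)]
    rw [key, one_mul]
  · apply red0 hf
    · simp only [dot3, cons_val_zero, cons_val_one, cons_val]
      ring
    · rintro rfl
      apply ext3 <;> simp
    intro hv hv0
    set w : Fin 3 → ZMod p := ![v 0, -v 2, v 1] with hw
    have w0 : w 0 = v 0 := rfl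
    have w1 : w 1 = -v 2 := rfl
    have w2 : w 2 = v 1 := rfl
    have hww : w ⬝ᵥ w = 0 := by
      rw [dot3] at hv ⊢
      rw [w0, w1, w2]
      linear_combination hv
    have hvw : v ⬝ᵥ w = v 0 ^ 2 := by
      rw [dot3, w0, w1, w2]
      ring
    by_cases hs : v 0 = 0
    · have hz : v ⬝ᵥ w = 0 := by
        rw [hvw, hs]
        ring
      obtain ⟨c, hc⟩ := prop hv0 hv hww hz
      have e1 : -v 2 = c * v 1 := by
        have := congrFun hc 1
        rwa [w1, Pi.smul_apply, smul_eq_mul] at this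
      have e2 : v 1 = c * v 2 := by
        have := congrFun hc 2
        rwa [w2, Pi.smul_apply, smul_eq_mul] at this
      have hv2 : v 2 ≠ 0 := by
        intro h
        rw [h, mul_zero] at e2
        exact hv0 (ext3 hs e2 h)
      have hc2 : c ^ 2 = -1 := by
        have : v 2 * (c ^ 2 + 1) = 0 := by
          linear_combination -e1 - c * e2
        exact eq_neg_of_add_eq_zero_left ((mul_eq_zero.1 this).resolve_left hv2)
      have hc0 : c ≠ 0 := by
        rintro rfl
        have : (1 : ZMod p) = 0 := by linear_combination hc2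
        exact one_ne_zero this
      have h1c : (1 + c) ≠ 0 := by
        intro h
        have : 2 * c = 0 := by linear_combination (1 + c) * h - hc2
        exact mul_ne_zero h2' hc0 this
      rw [smulv hf hc0 hc]
      congr 1
      have h3 : lz p 2 * lz p c = 1 := by
        rw [← lz_mul, show 2 * c = (1 + c) ^ 2 by linear_combination -hc2]
        exact lz_sq h1c
      rcases lz_pm hc0 with h | h <;> rcases lz_pm h2' with h' | h' <;> rw [h, h'] at h3 ⊢ <;>
        norm_num at h3
    · have hz : v ⬝ᵥ w ≠ 0 := by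
        rw [hvw]
        exact pow_ne_zero 2 hs
      rw [val1 hf hv hww hz, hvw, lz_ms hs]
  · have hn : (-1 : ZMod p) ≠ 0 := neg_ne_zero.2 one_ne_zero
    exact smulv hf hn (by rw [neg_smul, one_smul])
  · intro h7 w hw
    have h7' : (7 : ZMod p) ≠ 0 := by
      intro h
      have h' : ((7 : ℕ) : ZMod p) = 0 := by exact_mod_cast h
      rw [ZMod.natCast_eq_zero_iff] at h'
      exact h7 ((Nat.prime_dvd_prime_iff_eq hp (by norm_num)).1 h')
    have e0 : 7 * w 0 = 7 * v 0 - (v 0 + 2 * v 1 + 3 * v 2) := by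
      have := hw 0
      simpa using this
    have e1 : 7 * w 1 = 7 * v 1 - (v 0 + 2 * v 1 + 3 * v 2) * 2 := by
      have := hw 1
      simpa using this
    have e2 : 7 * w 2 = 7 * v 2 - (v 0 + 2 * v 1 + 3 * v 2) * 3 := by
      have := hw 2
      simpa using this
    have h49 : (49 : ZMod p) ≠ 0 := by
      have : (49 : ZMod p) = 7 * 7 := by norm_num
      rw [this]
      exact mul_ne_zero h7' h7'
    apply red0 hf
    · have : (49 : ZMod p) * (w ⬝ᵥ w - v ⬝ᵥ v) = 0 := by
        rw [dot3, dot3]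
        linear_combination (7 * w 0 + (7 * v 0 - (v 0 + 2 * v 1 + 3 * v 2))) * e0 +
          (7 * w 1 + (7 * v 1 - (v 0 + 2 * v 1 + 3 * v 2) * 2)) * e1 +
          (7 * w 2 + (7 * v 2 - (v 0 + 2 * v 1 + 3 * v 2) * 3)) * e2
      exact sub_eq_zero.1 ((mul_eq_zero.1 this).resolve_left h49)
    · rintro rfl
      simp only [Pi.zero_apply, mul_zero, add_zero, zero_mul, sub_zero] at e0 e1 e2
      exact ext3 ((mul_eq_zero.1 e0).resolve_left h7') ((mul_eq_zero.1 e1).resolve_left h7')
        ((mul_eq_zero.1 e2).resolve_left h7')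
    intro hv hv0
    have h14 : (-14 : ZMod p) ≠ 0 := by
      have : (-14 : ZMod p) = -(2 * 7) := by norm_num
      rw [this]
      exact neg_ne_zero.2 (mul_ne_zero h2' h7')
    by_cases hs : v 0 + 2 * v 1 + 3 * v 2 = 0
    · have hwv : w = v := by
        rw [hs] at e0 e1 e2
        apply ext3
        · exact mul_left_cancel₀ h7' (by linear_combination e0)
        · exact mul_left_cancel₀ h7' (by linear_combination e1)
        · exact mul_left_cancel₀ h7' (by linear_combination e2)
      rw [hwv]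
      have hv' := hv
      rw [dot3] at hv'
      -- the cross product with `n`
      set q : Fin 3 → ZMod p := ![v 1 * 3 - v 2 * 2, v 2 - v 0 * 3, v 0 * 2 - v 1] with hq
      have q0 : q 0 = v 1 * 3 - v 2 * 2 := rfl
      have q1 : q 1 = v 2 - v 0 * 3 := rfl
      have q2 : q 2 = v 0 * 2 - v 1 := rfl
      have hqq : q ⬝ᵥ q = 0 := by
        rw [dot3, q0, q1, q2]
        linear_combination 14 * hv' - (v 0 + 2 * v 1 + 3 * v 2) * hs
      have hvq : v ⬝ᵥ q = 0 := by
        rw [dot3, q0, q1, q2]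
        ring
      obtain ⟨c, hc⟩ := prop hv0 hv hqq hvq
      have c0 : v 1 * 3 - v 2 * 2 = c * v 0 := by
        have := congrFun hc 0
        rwa [q0, Pi.smul_apply, smul_eq_mul] at this
      have c1 : v 2 - v 0 * 3 = c * v 1 := by
        have := congrFun hc 1
        rwa [q1, Pi.smul_apply, smul_eq_mul] at this
      have c2 : v 0 * 2 - v 1 = c * v 2 := by
        have := congrFun hc 2
        rwa [q2, Pi.smul_apply, smul_eq_mul] at this
      have hc2 : c ^ 2 = -14 := by
        by_contra hne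
        have hne' : c ^ 2 + 14 ≠ 0 := fun h => hne (by linear_combination h)
        apply hv0
        apply ext3
        · have : (c ^ 2 + 14) * v 0 = 0 := by
            linear_combination -c * c0 - 3 * c1 + 2 * c2 + hs
          exact (mul_eq_zero.1 this).resolve_left hne'
        · have : (c ^ 2 + 14) * v 1 = 0 := by
            linear_combination -c * c1 + 3 * c0 - c2 + 2 * hs
          exact (mul_eq_zero.1 this).resolve_left hne'
        · have : (c ^ 2 + 14) * v 2 = 0 := by
            linear_combination -c * c2 - 2 * c0 + c1 + 3 * hs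
          exact (mul_eq_zero.1 this).resolve_left hne'
      have hc0 : c ≠ 0 := by
        rintro rfl
        apply h14
        rw [← hc2]
        ring
      rw [← hc2, lz_sq hc0, one_mul]
    · have hvw : 49 * (2 * (v ⬝ᵥ w)) = -14 * (v 0 + 2 * v 1 + 3 * v 2) ^ 2 := by
        rw [dot3] at hv ⊢
        linear_combination 98 * hv + 14 * v 0 * e0 + 14 * v 1 * e1 + 14 * v 2 * e2
      have hz : v ⬝ᵥ w ≠ 0 := by
        intro h
        rw [h, mul_zero, mul_zero] at hvw
        exact mul_ne_zero h14 (pow_ne_zero 2 hs) hvw.symm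
      have hww : w ⬝ᵥ w = 0 := by
        have : (49 : ZMod p) * (w ⬝ᵥ w - v ⬝ᵥ v) = 0 := by
          rw [dot3, dot3]
          linear_combination (7 * w 0 + (7 * v 0 - (v 0 + 2 * v 1 + 3 * v 2))) * e0 +
            (7 * w 1 + (7 * v 1 - (v 0 + 2 * v 1 + 3 * v 2) * 2)) * e1 +
            (7 * w 2 + (7 * v 2 - (v 0 + 2 * v 1 + 3 * v 2) * 3)) * e2
        rw [sub_eq_zero.1 ((mul_eq_zero.1 this).resolve_left h49), hv]
      rw [val1 hf hv hww hz]
      congr 1
      have e49 : lz p (49 * (2 * (v ⬝ᵥ w))) = lz p (2 * (v ⬝ᵥ w)) := by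
        rw [show (49 : ZMod p) * (2 * (v ⬝ᵥ w)) = 2 * (v ⬝ᵥ w) * 7 ^ 2 by ring, lz_ms h7']
      rw [← e49, hvw, lz_ms hs]

end Pool.Agent.NH1
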