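import Pool.Agent.NH1.Hur
import Pool.Agent.NH1.Phi

/-!
# Hurwitz quaternions: uniqueness of the action of the ambiguous ideals, change of the characters
-/

set_option autoImplicit false

namespace Pool.Agent.NH1

open Quaternion Matrix
open Pool.Agent.NH1.HzB Pool.Agent.NH1.PhiAux
open Pool.Agent.Z700 (V3 pr)

namespace H23

/-- a quaternion given by its coordinates -/
def mkq {R : Type} [CommRing R] (a b c d : R) : Quaternion R := ⟨a, b, c, d⟩

section

variable {R : Type} [CommRing R] (a b c d : R)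

lemma mkq_re : (mkq a b c d).re = a := rfl
lemma mkq_imI : (mkq a b c d).imI = b := rfl
lemma mkq_imJ : (mkq a b c d).imJ = c := rfl
lemma mkq_imK : (mkq a b c d).imK = d := rfl

end

/-- the reduction of a vector -/
def qz (p : ℕ) (v : V3) : Quaternion (ZMod p) :=
  mkq 0 (v 0 : ZMod p) (v 1 : ZMod p) (v 2 : ZMod p)

lemma qz_re {p : ℕ} (v : V3) : (qz p v).re = 0 := rfl
lemma qz_imI {p : ℕ} (v : V3) : (qz p v).imI = (v 0 : ZMod p) := rfl
lemma qz_imJ {p : ℕ} (v : V3) : (qz p v).imJ = (v 1 : ZMod p) := rfl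
lemma qz_imK {p : ℕ} (v : V3) : (qz p v).imK = (v 2 : ZMod p) := rfl

/-- reduction modulo `p` of a Hurwitz quaternion -/
def Rdq (p : ℕ) [Fact p.Prime] (x : Quaternion ℚ) (X : Quaternion (ZMod p)) : Prop :=
  ∃ a b c d : ℤ, (x.re = (a : ℚ) / 2 ∧ x.imI = (a : ℚ) / 2 + b ∧ x.imJ = (a : ℚ) / 2 + c ∧
    x.imK = (a : ℚ) / 2 + d) ∧
    X.re = (a : ZMod p) / 2 ∧ X.imI = (a : ZMod p) / 2 + b ∧ X.imJ = (a : ZMod p) / 2 + c ∧
    X.imK = (a : ZMod p) / 2 + d

section

variable {p : ℕ} [Fact p.Prime]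

lemma rd_ex {x : Quaternion ℚ} (hx : Hz x) : ∃ X, Rdq p x X := by
  rw [hz_iff] at hx
  obtain ⟨a, b, c, d, h⟩ := hx
  exact ⟨mkq ((a : ZMod p) / 2) ((a : ZMod p) / 2 + b) ((a : ZMod p) / 2 + c)
    ((a : ZMod p) / 2 + d), a, b, c, d, h, rfl, rfl, rfl, rfl⟩

lemma hz_of_rd {x : Quaternion ℚ} {X : Quaternion (ZMod p)} (h : Rdq p x X) : Hz x := by
  obtain ⟨a, b, c, d, h, -⟩ := h
  exact (hz_iff x).2 ⟨a, b, c, d, h⟩

lemma rd_mul (h2 : p ≠ 2) {x y : Quaternion ℚ} {X Y : Quaternion (ZMod p)} (hx : Rdq p x X)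
    (hy : Rdq p y Y) : Rdq p (x * y) (X * Y) := by
  have h20 := two_ne (p := p) h2
  obtain ⟨a, b, c, d, ⟨h1, h2, h3, h4⟩, g1, g2, g3, g4⟩ := hx
  obtain ⟨a', b', c', d', ⟨h1', h2', h3', h4'⟩, g1', g2', g3', g4'⟩ := hy
  refine ⟨-(a * a') - a * (b' + c' + d') - a' * (b + c + d) - 2 * (b * b' + c * c' + d * d'),
    a * a' + a * (b' + d') + a' * (b + c) + (c * d' - d * c') + (b * b' + c * c' + d * d'),
    a * a' + a * (c' + b') + a' * (c + d) + (d * b' - b * d') + (b * b' + c * c' + d * d'),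
    a * a' + a * (d' + c') + a' * (d + b) + (b * c' - c * b') + (b * b' + c * c' + d * d'),
    ⟨?_, ?_, ?_, ?_⟩, ?_, ?_, ?_, ?_⟩
  · rw [Quaternion.re_mul, h1, h2, h3, h4, h1', h2', h3', h4']; push_cast; ring
  · rw [Quaternion.imI_mul, h1, h2, h3, h4, h1', h2', h3', h4']; push_cast; ring
  · rw [Quaternion.imJ_mul, h1, h2, h3, h4, h1', h2', h3', h4']; push_cast; ring
  · rw [Quaternion.imK_mul, h1, h2, h3, h4, h1', h2', h3', h4']; push_cast; ring
  · rw [Quaternion.re_mul, g1, g2, g3, g4, g1', g2', g3', g4']; push_cast; field_simp; ring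
  · rw [Quaternion.imI_mul, g1, g2, g3, g4, g1', g2', g3', g4']; push_cast; field_simp; ring
  · rw [Quaternion.imJ_mul, g1, g2, g3, g4, g1', g2', g3', g4']; push_cast; field_simp; ring
  · rw [Quaternion.imK_mul, g1, g2, g3, g4, g1', g2', g3', g4']; push_cast; field_simp; ring

lemma rd_star {x : Quaternion ℚ} {X : Quaternion (ZMod p)} (h2 : p ≠ 2) (hx : Rdq p x X) :
    Rdq p (star x) (star X) := by
  have h20 := two_ne (p := p) h2
  obtain ⟨a, b, c, d, ⟨h1, h2, h3, h4⟩, g1, g2, g3, g4⟩ := hx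
  refine ⟨a, -a - b, -a - c, -a - d, ⟨?_, ?_, ?_, ?_⟩, ?_, ?_, ?_, ?_⟩
  · rw [Quaternion.re_star, h1]
  · rw [Quaternion.imI_star, h2]; push_cast; ring
  · rw [Quaternion.imJ_star, h3]; push_cast; ring
  · rw [Quaternion.imK_star, h4]; push_cast; ring
  · rw [Quaternion.re_star, g1]
  · rw [Quaternion.imI_star, g2]; push_cast; field_simp; ring
  · rw [Quaternion.imJ_star, g3]; push_cast; field_simp; ring
  · rw [Quaternion.imK_star, g4]; push_cast; field_simp; ring


lemma rd_qv (v : V3) : Rdq p (qv v) (qz p v) := by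
  refine ⟨0, v 0, v 1, v 2, ⟨?_, ?_, ?_, ?_⟩, ?_, ?_, ?_, ?_⟩
  · rw [qv_re]; simp
  · rw [qv_imI]; simp
  · rw [qv_imJ]; simp
  · rw [qv_imK]; simp
  · rw [qz_re]; simp
  · rw [qz_imI]; simp
  · rw [qz_imJ]; simp
  · rw [qz_imK]; simp

lemma rd_unique {x : Quaternion ℚ} {X X' : Quaternion (ZMod p)} (h : Rdq p x X)
    (h' : Rdq p x X') : X = X' := by
  obtain ⟨a, b, c, d, ⟨h1, h2, h3, h4⟩, g1, g2, g3, g4⟩ := h
  obtain ⟨a', b', c', d', ⟨h1', h2', h3', h4'⟩, g1', g2', g3', g4'⟩ := h'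
  have ea : a = a' := by
    have : (a : ℚ) = a' := by linarith
    exact_mod_cast this
  subst ea
  have eb : b = b' := by
    have : (b : ℚ) = b' := by linarith
    exact_mod_cast this
  have ec : c = c' := by
    have : (c : ℚ) = c' := by linarith
    exact_mod_cast this
  have ed : d = d' := by
    have : (d : ℚ) = d' := by linarith
    exact_mod_cast this
  subst eb ec ed
  apply Quaternion.ext
  · rw [g1, g1']
  · rw [g2, g2']
  · rw [g3, g3']
  · rw [g4, g4']

lemma rd_norm (hp2 : p ≠ 2) {x : Quaternion ℚ} {X : Quaternion (ZMod p)} (h : Rdq p x X) {n : ℤ}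
    (hn : normSq x = n) : normSq X = (n : ZMod p) := by
  have h20 := two_ne (p := p) hp2
  obtain ⟨a, b, c, d, ⟨h1, h2, h3, h4⟩, g1, g2, g3, g4⟩ := h
  have h0 : normSq x = ((a ^ 2 + a * (b + c + d) + (b ^ 2 + c ^ 2 + d ^ 2) : ℤ) : ℚ) := by
    rw [normSq_def', h1, h2, h3, h4]
    push_cast
    ring
  rw [h0] at hn
  have hn' : a ^ 2 + a * (b + c + d) + (b ^ 2 + c ^ 2 + d ^ 2) = n := by exact_mod_cast hn
  rw [← hn', normSq_def', g1, g2, g3, g4]
  push_cast
  field_simp
  ring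

/-- a Hurwitz quaternion with reduction zero has norm divisible by `p ^ 2` -/
lemma rd_zero_norm (hp2 : p ≠ 2) {x : Quaternion ℚ} (h : Rdq p x 0) {n : ℤ}
    (hn : normSq x = n) : (p : ℤ) ^ 2 ∣ n := by
  have h20 := two_ne (p := p) hp2
  obtain ⟨a, b, c, d, ⟨h1, h2, h3, h4⟩, g1, g2, g3, g4⟩ := h
  have h0 : normSq x = ((a ^ 2 + a * (b + c + d) + (b ^ 2 + c ^ 2 + d ^ 2) : ℤ) : ℚ) := by
    rw [normSq_def', h1, h2, h3, h4]
    push_cast
    ring
  rw [h0] at hn
  have hn' : a ^ 2 + a * (b + c + d) + (b ^ 2 + c ^ 2 + d ^ 2) = n := by exact_mod_cast hn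
  have ga : (a : ZMod p) / 2 = 0 := g1.symm.trans rfl
  have gb : (a : ZMod p) / 2 + b = 0 := g2.symm.trans rfl
  have gc : (a : ZMod p) / 2 + c = 0 := g3.symm.trans rfl
  have gd : (a : ZMod p) / 2 + d = 0 := g4.symm.trans rfl
  rw [ga, zero_add] at gb gc gd
  have ga' : (a : ZMod p) = 0 := by
    rcases div_eq_zero_iff.1 ga with h | h
    · exact h
    · exact absurd h h20
  rw [ZMod.intCast_zmod_eq_zero_iff_dvd] at ga' gb gc gd
  obtain ⟨a, rfl⟩ := ga'
  obtain ⟨b, rfl⟩ := gb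
  obtain ⟨c, rfl⟩ := gc
  obtain ⟨d, rfl⟩ := gd
  rw [← hn']
  exact ⟨a ^ 2 + a * (b + c + d) + (b ^ 2 + c ^ 2 + d ^ 2), by ring⟩

end

/-- divisibility by a squarefree number is local -/
lemma sq_dvd {d : ℕ} (hd : Squarefree d) {a : ℤ} (h : ∀ p : ℕ, p.Prime → p ∣ d → (p : ℤ) ∣ a) :
    (d : ℤ) ∣ a := by
  have h1 : (∏ p ∈ d.primeFactors, p) ∣ a.natAbs := by
    refine Finset.prod_primes_dvd _ (fun p hp => ?_) (fun p hp => ?_)
    · exact (Nat.prime_of_mem_primeFactors hp).prime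
    · have := h p (Nat.prime_of_mem_primeFactors hp) (Nat.dvd_of_mem_primeFactors hp)
      exact Int.natCast_dvd.1 this
  rw [Nat.prod_primeFactors_of_squarefree hd] at h1
  exact Int.natCast_dvd.2 h1

lemma div_all {d : ℕ} (hd : Squarefree d) (hodd : Odd d) {z : Quaternion ℚ} (hz : Hz z)
    (h : ∀ (p : ℕ) [Fact p.Prime], p ∣ d → Rdq p z 0) :
    ∃ y, Hz y ∧ z = (d : Quaternion ℚ) * y := by
  rw [hz_iff] at hz
  obtain ⟨a, b, c, e, h1, h2, h3, h4⟩ := hz
  have key : ∀ p : ℕ, p.Prime → p ∣ d → (p : ℤ) ∣ a ∧ (p : ℤ) ∣ b ∧ (p : ℤ) ∣ c ∧ (p : ℤ) ∣ e := by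
    intro p hp hpd
    have : Fact p.Prime := ⟨hp⟩
    have hp2 : p ≠ 2 := by
      rintro rfl
      obtain ⟨k, hk⟩ := hodd
      omega
    have h20 := two_ne (p := p) hp2
    obtain ⟨a', b', c', e', ⟨h1', h2', h3', h4'⟩, g1, g2, g3, g4⟩ := h p hpd
    have ea : a = a' := by
      have : (a : ℚ) = a' := by linarith
      exact_mod_cast this
    subst ea
    have eb : b = b' := by
      have : (b : ℚ) = b' := by linarith
      exact_mod_cast this
    have ec : c = c' := by
      have : (c : ℚ) = c' := by linarith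
      exact_mod_cast this
    have ed : e = e' := by
      have : (e : ℚ) = e' := by linarith
      exact_mod_cast this
    subst eb ec ed
    have ga : (a : ZMod p) / 2 = 0 := g1.symm.trans rfl
    have gb : (a : ZMod p) / 2 + b = 0 := g2.symm.trans rfl
    have gc : (a : ZMod p) / 2 + c = 0 := g3.symm.trans rfl
    have gd : (a : ZMod p) / 2 + e = 0 := g4.symm.trans rfl
    rw [ga, zero_add] at gb gc gd
    have ga' : (a : ZMod p) = 0 := by
      rcases div_eq_zero_iff.1 ga with h | h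
      · exact h
      · exact absurd h h20
    rw [ZMod.intCast_zmod_eq_zero_iff_dvd] at ga' gb gc gd
    exact ⟨ga', gb, gc, gd⟩
  obtain ⟨a', rfl⟩ := sq_dvd hd fun p hp hpd => (key p hp hpd).1
  obtain ⟨b', rfl⟩ := sq_dvd hd fun p hp hpd => (key p hp hpd).2.1
  obtain ⟨c', rfl⟩ := sq_dvd hd fun p hp hpd => (key p hp hpd).2.2.1
  obtain ⟨e', rfl⟩ := sq_dvd hd fun p hp hpd => (key p hp hpd).2.2.2
  refine ⟨mkq ((a' : ℚ) / 2) ((a' : ℚ) / 2 + b') ((a' : ℚ) / 2 + c') ((a' : ℚ) / 2 + e'), ?_, ?_⟩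
  · rw [hz_iff]
    exact ⟨a', b', c', e', rfl, rfl, rfl, rfl⟩
  · rw [← Quaternion.coe_natCast d, Quaternion.coe_mul_eq_smul]
    apply Quaternion.ext
    · rw [h1, Quaternion.re_smul, mkq_re, smul_eq_mul]
      push_cast; ring
    · rw [h2, Quaternion.imI_smul, mkq_imI, smul_eq_mul]
      push_cast; ring
    · rw [h3, Quaternion.imJ_smul, mkq_imJ, smul_eq_mul]
      push_cast; ring
    · rw [h4, Quaternion.imK_smul, mkq_imK, smul_eq_mul]
      push_cast; ring

section

variable {F : Type} [Field F]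

/-- orthogonal isotropic vectors -/
lemma cross_zero {x0 x1 x2 v0 v1 v2 : F} (hx : x0 ^ 2 + x1 ^ 2 + x2 ^ 2 = 0)
    (hv : v0 ^ 2 + v1 ^ 2 + v2 ^ 2 = 0) (hxv : x0 * v0 + x1 * v1 + x2 * v2 = 0) :
    x1 * v2 - x2 * v1 = 0 := by
  have : (x1 * v2 - x2 * v1) ^ 2 = 0 := by
    linear_combination (v0 ^ 2 + v1 ^ 2 + v2 ^ 2) * hx - (x0 * v0 + x1 * v1 + x2 * v2) * hxv -
      x0 ^ 2 * hv - v0 ^ 2 * hx + 2 * x0 * v0 * hxv
  exact pow_eq_zero_iff (two_ne_zero) |>.1 this

lemma L1 (h2 : (2 : F) ≠ 0) {X V : Quaternion F} (hV : V.re = 0) (hNX : normSq X = 0)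
    (hNV : normSq V = 0) (h : X * V * star X = 0) : X * V = 0 := by
  have hsV : star V = -V := by
    rw [star_eq_two_re_sub, hV, mul_zero, Quaternion.coe_zero, zero_sub]
  have hVV : V * V = 0 := by
    have : V * star V = 0 := by rw [self_mul_star, hNV, Quaternion.coe_zero]
    rw [hsV, mul_neg, neg_eq_zero] at this
    exact this
  have hXX : X * X = (2 * X.re) • X := by
    have h1 : X * star X = 0 := by rw [self_mul_star, hNX, Quaternion.coe_zero]
    rw [star_eq_two_re_sub, mul_sub, sub_eq_zero, Quaternion.mul_coe_eq_smul] at h1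
    exact h1.symm
  set y := V * star X with hy
  have e1 : X * y = 0 := by rw [hy, ← mul_assoc, h]
  have e2 : star y = -(X * V) := by
    rw [hy, star_mul, star_star, hsV, mul_neg]
  have e3 : (2 * y.re) • X = -((2 * X.re) • (X * V)) := by
    have h3 : X * (y + star y) = X * star y := by rw [mul_add, e1, zero_add]
    have h5 : X * star y = -((2 * X.re) • (X * V)) := by
      rw [e2, mul_neg, ← mul_assoc, hXX, smul_mul_assoc]
    rw [← h5, ← h3, self_add_star', Quaternion.mul_coe_eq_smul]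
  by_cases ht : y.re = 0
  · by_cases hx : X.re = 0
    · have hyre : y.re = V.imI * X.imI + V.imJ * X.imJ + V.imK * X.imK := by
        rw [hy, Quaternion.re_mul, Quaternion.re_star, Quaternion.imI_star, Quaternion.imJ_star,
          Quaternion.imK_star, hV]
        ring
      rw [hyre] at ht
      rw [normSq_def', hx] at hNX
      rw [normSq_def', hV] at hNV
      have c0 := cross_zero (x0 := X.imI) (x1 := X.imJ) (x2 := X.imK) (v0 := V.imI) (v1 := V.imJ)
        (v2 := V.imK) (by linear_combination hNX) (by linear_combination hNV)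
        (by linear_combination ht)
      have c1 := cross_zero (x0 := X.imJ) (x1 := X.imK) (x2 := X.imI) (v0 := V.imJ) (v1 := V.imK)
        (v2 := V.imI) (by linear_combination hNX) (by linear_combination hNV)
        (by linear_combination ht)
      have c2 := cross_zero (x0 := X.imK) (x1 := X.imI) (x2 := X.imJ) (v0 := V.imK) (v1 := V.imI)
        (v2 := V.imJ) (by linear_combination hNX) (by linear_combination hNV)
        (by linear_combination ht)
      apply Quaternion.ext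
      · rw [Quaternion.re_mul, hx, hV, Quaternion.re_zero]
        linear_combination -ht
      · rw [Quaternion.imI_mul, hx, hV, Quaternion.imI_zero]
        linear_combination c0
      · rw [Quaternion.imJ_mul, hx, hV, Quaternion.imJ_zero]
        linear_combination c1
      · rw [Quaternion.imK_mul, hx, hV, Quaternion.imK_zero]
        linear_combination c2
    · rw [ht, mul_zero, zero_smul, eq_comm, neg_eq_zero] at e3
      exact (smul_eq_zero.1 e3).resolve_left (mul_ne_zero h2 hx)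
  · have e4 : (2 * y.re) • (X * V) = 0 := by
      rw [← smul_mul_assoc, e3, neg_mul, smul_mul_assoc, mul_assoc, hVV, mul_zero, smul_zero,
        neg_zero]
    exact (smul_eq_zero.1 e4).resolve_left (mul_ne_zero h2 ht)

lemma L3 (h2 : (2 : F) ≠ 0) {X X' V : Quaternion F} (hV : V.re = 0) (hV0 : V ≠ 0)
    (hNV : normSq V = 0) (h : X * V = 0) (h' : X' * V = 0) : X' * star X = 0 := by
  obtain ⟨T, hT⟩ : ∃ T : Quaternion F, V * T + T * V = 1 := by
    by_cases h0 : V.imI = 0
    · by_cases h1 : V.imJ = 0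
      · by_cases h3 : V.imK = 0
        · exact absurd (Quaternion.ext _ _ hV h0 h1 h3) hV0
        · refine ⟨mkq 0 0 0 (-(2 * V.imK)⁻¹), ?_⟩
          apply Quaternion.ext
          · rw [Quaternion.re_add, Quaternion.re_mul, Quaternion.re_mul, Quaternion.re_one]
            simp only [mkq_re, mkq_imI, mkq_imJ, mkq_imK, mul_zero, zero_mul, sub_zero, zero_sub]
            field_simp
            ring
          · rw [Quaternion.imI_add, Quaternion.imI_mul, Quaternion.imI_mul, Quaternion.imI_one]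
            simp only [hV, mkq_re, mkq_imI, mkq_imJ, mkq_imK]
            ring
          · rw [Quaternion.imJ_add, Quaternion.imJ_mul, Quaternion.imJ_mul, Quaternion.imJ_one]
            simp only [hV, mkq_re, mkq_imI, mkq_imJ, mkq_imK]
            ring
          · rw [Quaternion.imK_add, Quaternion.imK_mul, Quaternion.imK_mul, Quaternion.imK_one]
            simp only [hV, mkq_re, mkq_imI, mkq_imJ, mkq_imK]
            ring
      · refine ⟨mkq 0 0 (-(2 * V.imJ)⁻¹) 0, ?_⟩
        apply Quaternion.ext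
        · rw [Quaternion.re_add, Quaternion.re_mul, Quaternion.re_mul, Quaternion.re_one]
          simp only [mkq_re, mkq_imI, mkq_imJ, mkq_imK, mul_zero, zero_mul, sub_zero, zero_sub]
          field_simp
          ring
        · rw [Quaternion.imI_add, Quaternion.imI_mul, Quaternion.imI_mul, Quaternion.imI_one]
          simp only [hV, mkq_re, mkq_imI, mkq_imJ, mkq_imK]
          ring
        · rw [Quaternion.imJ_add, Quaternion.imJ_mul, Quaternion.imJ_mul, Quaternion.imJ_one]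
          simp only [hV, mkq_re, mkq_imI, mkq_imJ, mkq_imK]
          ring
        · rw [Quaternion.imK_add, Quaternion.imK_mul, Quaternion.imK_mul, Quaternion.imK_one]
          simp only [hV, mkq_re, mkq_imI, mkq_imJ, mkq_imK]
          ring
    · refine ⟨mkq 0 (-(2 * V.imI)⁻¹) 0 0, ?_⟩
      apply Quaternion.ext
      · rw [Quaternion.re_add, Quaternion.re_mul, Quaternion.re_mul, Quaternion.re_one]
        simp only [mkq_re, mkq_imI, mkq_imJ, mkq_imK, mul_zero, zero_mul, sub_zero, zero_sub]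
        field_simp
        ring
      · rw [Quaternion.imI_add, Quaternion.imI_mul, Quaternion.imI_mul, Quaternion.imI_one]
        simp only [hV, mkq_re, mkq_imI, mkq_imJ, mkq_imK]
        ring
      · rw [Quaternion.imJ_add, Quaternion.imJ_mul, Quaternion.imJ_mul, Quaternion.imJ_one]
        simp only [hV, mkq_re, mkq_imI, mkq_imJ, mkq_imK]
        ring
      · rw [Quaternion.imK_add, Quaternion.imK_mul, Quaternion.imK_mul, Quaternion.imK_one]
        simp only [hV, mkq_re, mkq_imI, mkq_imJ, mkq_imK]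
        ring
  have e1 : X = X * T * V := by
    have : X * (V * T + T * V) = X := by rw [hT, mul_one]
    rw [mul_add, ← mul_assoc, h, zero_mul, zero_add, ← mul_assoc] at this
    exact this.symm
  have e2 : X' = X' * T * V := by
    have : X' * (V * T + T * V) = X' := by rw [hT, mul_one]
    rw [mul_add, ← mul_assoc, h', zero_mul, zero_add, ← mul_assoc] at this
    exact this.symm
  have e3 : V * star V = 0 := by rw [self_mul_star, hNV, Quaternion.coe_zero]
  rw [e1, e2, star_mul, mul_assoc, ← mul_assoc V, e3, zero_mul, mul_zero]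

end

lemma prime_data {n d : ℕ} (hsq : Squarefree n) (hodd : Odd n) (hdn : d ∣ n) {p : ℕ}
    (hp : p.Prime) (hpd : p ∣ n) : p ≠ 2 ∧ ¬ (p : ℤ) ^ 2 ∣ n ∧ ¬ (p : ℤ) ^ 2 ∣ d := by
  have h0 : ¬ p ^ 2 ∣ n := by
    intro h
    rw [pow_two] at h
    exact hp.one_lt.ne' (Nat.isUnit_iff.1 (hsq p h))
  refine ⟨?_, ?_, ?_⟩
  · rintro rfl
    obtain ⟨k, hk⟩ := hodd
    omega
  · intro h
    exact h0 (by exact_mod_cast h)
  · intro h
    exact h0 ((by exact_mod_cast h : p ^ 2 ∣ d).trans hdn)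

lemma nil {n d : ℕ} (hsq : Squarefree n) (hodd : Odd n) (hdn : d ∣ n) {v w : V3}
    (hv : v ⬝ᵥ v = (n : ℤ)) {x : Quaternion ℚ} (hN : normSq x = d)
    (e : x * qv v = qv w * x) (p : ℕ) [Fact p.Prime] (hpd : p ∣ d) {X : Quaternion (ZMod p)}
    (hX : Rdq p x X) : X * qz p v = 0 := by
  have hp : p.Prime := Fact.out
  obtain ⟨hp2, -, -⟩ := prime_data hsq hodd hdn hp (hpd.trans hdn)
  have hNX : normSq X = 0 := by
    rw [rd_norm hp2 hX (n := (d : ℤ)) (by rw [hN]; simp)]
    rw [Int.cast_natCast]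
    exact (ZMod.natCast_eq_zero_iff d p).2 hpd
  have hNV : normSq (qz p v) = 0 := by
    rw [rd_norm hp2 (rd_qv v) (n := (n : ℤ)) (by rw [normSq_qv, hv])]
    rw [Int.cast_natCast]
    exact (ZMod.natCast_eq_zero_iff n p).2 (hpd.trans hdn)
  have e1 : X * qz p v = qz p w * X := by
    have h1 := rd_mul hp2 hX (rd_qv v)
    have h2 := rd_mul hp2 (rd_qv w) hX
    rw [e] at h1
    exact rd_unique h1 h2
  refine L1 (two_ne hp2) (qz_re v) hNX hNV ?_
  rw [e1, mul_assoc, self_mul_star, hNX, Quaternion.coe_zero, mul_zero]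

lemma qz_ne {n : ℕ} (hsq : Squarefree n) (hodd : Odd n) {v : V3}
    (hv : v ⬝ᵥ v = (n : ℤ)) (p : ℕ) [Fact p.Prime] (hpn : p ∣ n) : qz p v ≠ 0 := by
  have hp : p.Prime := Fact.out
  obtain ⟨hp2, h1, -⟩ := prime_data hsq hodd dvd_rfl hp hpn
  intro h
  have h2 := rd_qv (p := p) v
  rw [h] at h2
  exact h1 (rd_zero_norm hp2 h2 (by rw [normSq_qv, hv]))

end H23

open H23

theorem t_H2 : S_H2 := by
  intro n d v w w' x x' hsq hodd hv hdn hx hx' hN hN' e e'
  have hd : Squarefree d := hsq.squarefree_of_dvd hdn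
  have hdodd : Odd d := hodd.of_dvd_nat hdn
  have hd0 : d ≠ 0 := hd.ne_zero
  constructor
  · refine div_all hd hdodd (hz_mul hx (hz_qv v)) ?_
    intro p _ hpd
    obtain ⟨X, hX⟩ := rd_ex (p := p) hx
    obtain ⟨hp2, -, -⟩ := prime_data hsq hodd hdn Fact.out (hpd.trans hdn)
    have h1 := rd_mul hp2 hX (rd_qv v)
    rw [nil hsq hodd hdn hv hN e p hpd hX] at h1
    exact h1
  · obtain ⟨u, hu, hu2⟩ : ∃ u, Hz u ∧ x' * star x = (d : Quaternion ℚ) * u := by
      refine div_all hd hdodd (hz_mul hx' (hz_star hx)) ?_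
      intro p _ hpd
      obtain ⟨X, hX⟩ := rd_ex (p := p) hx
      obtain ⟨X', hX'⟩ := rd_ex (p := p) hx'
      obtain ⟨hp2, -, -⟩ := prime_data hsq hodd hdn Fact.out (hpd.trans hdn)
      have h1 := rd_mul hp2 hX' (rd_star hp2 hX)
      have hNV : normSq (qz p v) = 0 := by
        rw [rd_norm hp2 (rd_qv v) (n := (n : ℤ)) (by rw [normSq_qv, hv])]
        rw [Int.cast_natCast]
        exact (ZMod.natCast_eq_zero_iff n p).2 (hpd.trans hdn)
      rw [L3 (two_ne hp2) (qz_re v) (qz_ne hsq hodd hv p (hpd.trans hdn)) hNV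
        (nil hsq hodd hdn hv hN e p hpd hX) (nil hsq hodd hdn hv hN' e' p hpd hX')] at h1
      exact h1
    have hdq : (d : Quaternion ℚ) ≠ 0 := by
      intro h
      have h1 := congrArg normSq h
      rw [normSq_natCast, map_zero] at h1
      exact hd0 (by exact_mod_cast pow_eq_zero_iff (two_ne_zero) |>.1 h1)
    have hxx : star x * x = (d : Quaternion ℚ) := by
      rw [star_mul_self, hN]
      exact Quaternion.coe_natCast d
    refine ⟨u, hu, ?_, ?_⟩
    · have h1 := congrArg normSq hu2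
      rw [map_mul, map_mul, normSq_star, hN, hN', normSq_natCast] at h1
      have h2 : (d : ℚ) ≠ 0 := by exact_mod_cast hd0
      have h3 : (d : ℚ) * d * (normSq u - 1) = 0 := by linear_combination -h1
      rcases mul_eq_zero.1 h3 with h | h
      · exact absurd h (mul_ne_zero h2 h2)
      · linarith
    · have h1 : (d : Quaternion ℚ) * x' = (d : Quaternion ℚ) * (u * x) := by
        rw [← mul_assoc, ← hu2, mul_assoc, hxx]
        exact (Nat.cast_commute d x').eq
      exact mul_left_cancel₀ hdq h1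

namespace H23

lemma pr_sqf {N : Finset ℕ} (hN : Pm N) : Squarefree (pr N) := by
  unfold Pool.Agent.Z700.pr
  refine Finset.squarefree_prod_of_pairwise_isCoprime (fun p hp q hq hpq => ?_) fun p hp => ?_
  · rw [Function.onFun, ← Nat.coprime_iff_isRelPrime]
    exact (Nat.coprime_primes (hN p hp).1 (hN q hq).1).2 hpq
  · exact (hN p hp).1.prime.squarefree

lemma pr_odd {N : Finset ℕ} (hN : Pm N) : Odd (pr N) := by
  unfold Pool.Agent.Z700.pr
  refine Finset.prod_induction _ Odd (fun a b ha hb => ha.mul hb) odd_one fun p hp => ?_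
  exact (hN p hp).1.odd_of_ne_two (hN p hp).2.1

lemma pr_dvd {N D : Finset ℕ} (h : D ⊆ N) : pr D ∣ pr N :=
  Finset.prod_dvd_prod_of_subset _ _ _ h

lemma dvd_pr {N : Finset ℕ} {p : ℕ} (h : p ∈ N) : p ∣ pr N := Finset.dvd_prod_of_mem _ h

lemma not_dvd_pr {N : Finset ℕ} (hN : Pm N) {p : ℕ} (hp : p.Prime) (h : p ∉ N) : ¬ p ∣ pr N := by
  intro hd
  unfold Pool.Agent.Z700.pr at hd
  obtain ⟨q, hq, hpq⟩ := (hp.prime.dvd_finsetProd_iff _).1 hd
  have := (Nat.prime_dvd_prime_iff_eq hp (hN q hq).1).1 hpq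
  exact h (this ▸ hq)

section

variable {p : ℕ} [Fact p.Prime]

lemma lz_nat (m : ℕ) : lz p (m : ZMod p) = jacobiSym m p := by
  unfold lz
  rw [ZMod.val_natCast, Int.natCast_mod, ← jacobiSym.mod_left]

lemma pm_mul {a b c : ℤ} (ha : a = 1 ∨ a = -1) (hb : b = 1 ∨ b = -1) (hc : c = 1 ∨ c = -1)
    (h : a * (b * c) = 1) : c = b * a := by
  rcases ha with rfl | rfl <;> rcases hb with rfl | rfl <;> rcases hc with rfl | rfl <;> simp_all

/-- the vector of a pure quaternion, multiplied from both sides -/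
lemma conj_coord (X : Quaternion (ZMod p)) (v w : Fin 3 → ZMod p)
    (h : X * mkq 0 (v 0) (v 1) (v 2) = mkq 0 (w 0) (w 1) (w 2) * X) :
    (normSq X * w 0 = (X.re ^ 2 - (X.imI ^ 2 + X.imJ ^ 2 + X.imK ^ 2)) * v 0 +
        2 * X.re * (X.imJ * v 2 - X.imK * v 1) +
        2 * (X.imI * v 0 + X.imJ * v 1 + X.imK * v 2) * X.imI) ∧
    (normSq X * w 1 = (X.re ^ 2 - (X.imI ^ 2 + X.imJ ^ 2 + X.imK ^ 2)) * v 1 +
        2 * X.re * (X.imK * v 0 - X.imI * v 2) +
        2 * (X.imI * v 0 + X.imJ * v 1 + X.imK * v 2) * X.imJ) ∧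
    (normSq X * w 2 = (X.re ^ 2 - (X.imI ^ 2 + X.imJ ^ 2 + X.imK ^ 2)) * v 2 +
        2 * X.re * (X.imI * v 1 - X.imJ * v 0) +
        2 * (X.imI * v 0 + X.imJ * v 1 + X.imK * v 2) * X.imK) := by
  have e0 := congrArg (fun q : Quaternion (ZMod p) => q.re) h
  have e1 := congrArg (fun q : Quaternion (ZMod p) => q.imI) h
  have e2 := congrArg (fun q : Quaternion (ZMod p) => q.imJ) h
  have e3 := congrArg (fun q : Quaternion (ZMod p) => q.imK) h
  simp only [Quaternion.re_mul, Quaternion.imI_mul, Quaternion.imJ_mul, Quaternion.imK_mul,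
    mkq_re, mkq_imI, mkq_imJ, mkq_imK] at e0 e1 e2 e3
  rw [normSq_def']
  refine ⟨?_, ?_, ?_⟩
  · linear_combination X.imI * e0 - X.re * e1 + X.imK * e2 - X.imJ * e3
  · linear_combination X.imJ * e0 - X.imK * e1 - X.re * e2 + X.imI * e3
  · linear_combination X.imK * e0 + X.imJ * e1 - X.imI * e2 - X.re * e3

/-- conjugation by an invertible quaternion -/
lemma conj_inv {f : (Fin 3 → ZMod p) → ℤ} (hf : IsPhi p f) {X : Quaternion (ZMod p)}
    {v w : Fin 3 → ZMod p} (h : X * mkq 0 (v 0) (v 1) (v 2) = mkq 0 (w 0) (w 1) (w 2) * X)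
    (hN : normSq X ≠ 0) (hv : v ⬝ᵥ v = 0) (hw : w ⬝ᵥ w = 0) (hv0 : v ≠ 0) (hw0 : w ≠ 0)
    (h2 : (2 : ZMod p) ≠ 0) : f w = lz p (normSq X) * f v := by
  obtain ⟨c0, c1, c2⟩ := conj_coord X v w h
  have hN' := hN
  rw [normSq_def'] at hN'
  set δ := normSq X with hδ
  have hδ' : δ = X.re ^ 2 + X.imI ^ 2 + X.imJ ^ 2 + X.imK ^ 2 := by rw [hδ, normSq_def']
  clear_value δ
  have hvw : v ⬝ᵥ (δ • w) = 2 * (X.imI * v 0 + X.imJ * v 1 + X.imK * v 2) ^ 2 := by
    rw [dot3] at hv ⊢
    simp only [Pi.smul_apply, smul_eq_mul]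
    rw [c0, c1, c2]
    linear_combination (X.re ^ 2 - (X.imI ^ 2 + X.imJ ^ 2 + X.imK ^ 2)) * hv
  have hww : (δ • w) ⬝ᵥ (δ • w) = 0 := by
    rw [smul_dotProduct, dotProduct_smul, hw, smul_zero, smul_zero]
  have hfw := hf.smul δ w hN
  have hδpm := lz_pm (p := p) hN
  by_cases hs : X.imI * v 0 + X.imJ * v 1 + X.imK * v 2 = 0
  · -- orthogonal
    have hz : (![X.imJ * v 2 - X.imK * v 1, X.imK * v 0 - X.imI * v 2,
        X.imI * v 1 - X.imJ * v 0] : Fin 3 → ZMod p) ⬝ᵥ
        ![X.imJ * v 2 - X.imK * v 1, X.imK * v 0 - X.imI * v 2,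
        X.imI * v 1 - X.imJ * v 0] = 0 := by
      rw [dot3] at hv ⊢
      simp only [Matrix.cons_val_zero, Matrix.cons_val_one, Matrix.cons_val]
      linear_combination (X.imI ^ 2 + X.imJ ^ 2 + X.imK ^ 2) * hv -
        (X.imI * v 0 + X.imJ * v 1 + X.imK * v 2) * hs
    have hvz : v ⬝ᵥ (![X.imJ * v 2 - X.imK * v 1, X.imK * v 0 - X.imI * v 2,
        X.imI * v 1 - X.imJ * v 0] : Fin 3 → ZMod p) = 0 := by
      rw [dot3]
      simp only [Matrix.cons_val_zero, Matrix.cons_val_one, Matrix.cons_val]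
      ring
    obtain ⟨τ, hτ⟩ := prop hv0 hv hz hvz
    have t0 : X.imJ * v 2 - X.imK * v 1 = τ * v 0 := by
      have := congrFun hτ 0
      simpa using this
    have t1 : X.imK * v 0 - X.imI * v 2 = τ * v 1 := by
      have := congrFun hτ 1
      simpa using this
    have t2 : X.imI * v 1 - X.imJ * v 0 = τ * v 2 := by
      have := congrFun hτ 2
      simpa using this
    have hττ : τ ^ 2 + (X.imI ^ 2 + X.imJ ^ 2 + X.imK ^ 2) = 0 := by
      by_contra hne
      apply hv0
      refine ext3 ?_ ?_ ?_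
      · have : (τ ^ 2 + (X.imI ^ 2 + X.imJ ^ 2 + X.imK ^ 2)) * v 0 = 0 := by
          linear_combination (-τ) * t0 + (-X.imJ) * t2 + X.imK * t1 + X.imI * hs
        exact (mul_eq_zero.1 this).resolve_left hne
      · have : (τ ^ 2 + (X.imI ^ 2 + X.imJ ^ 2 + X.imK ^ 2)) * v 1 = 0 := by
          linear_combination (-τ) * t1 + (-X.imK) * t0 + X.imI * t2 + X.imJ * hs
        exact (mul_eq_zero.1 this).resolve_left hne
      · have : (τ ^ 2 + (X.imI ^ 2 + X.imJ ^ 2 + X.imK ^ 2)) * v 2 = 0 := by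
          linear_combination (-τ) * t2 + (-X.imI) * t1 + X.imJ * t0 + X.imK * hs
        exact (mul_eq_zero.1 this).resolve_left hne
    have hne : X.re + τ ≠ 0 := by
      intro h0
      apply hN
      rw [hδ']
      linear_combination (X.re - τ) * h0 + hττ
    have e : δ • w = ((X.re + τ) ^ 2) • v := by
      refine ext3 ?_ ?_ ?_ <;> simp only [Pi.smul_apply, smul_eq_mul]
      · rw [c0]
        linear_combination 2 * X.re * t0 + 2 * X.imI * hs - v 0 * hττ
      · rw [c1]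
        linear_combination 2 * X.re * t1 + 2 * X.imJ * hs - v 1 * hττ
      · rw [c2]
        linear_combination 2 * X.re * t2 + 2 * X.imK * hs - v 2 * hττ
    have h3 := hf.smul ((X.re + τ) ^ 2) v (pow_ne_zero 2 hne)
    rw [← e, hfw, lz_sq hne, one_mul] at h3
    rcases hδpm with h4 | h4
    · rw [h4, one_mul] at h3 ⊢
      exact h3
    · rw [h4] at h3 ⊢
      linarith
  · have hne : v ⬝ᵥ (δ • w) ≠ 0 := by
      rw [hvw]
      exact mul_ne_zero h2 (pow_ne_zero 2 hs)
    have h3 := hf.mul v (δ • w) hv hww hne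
    have e : 2 * (v ⬝ᵥ (δ • w)) = (2 * (X.imI * v 0 + X.imJ * v 1 + X.imK * v 2)) ^ 2 := by
      rw [hvw]; ring
    rw [e, lz_sq (mul_ne_zero h2 hs), hfw] at h3
    exact pm_mul (hf.pm v hv hv0) hδpm (hf.pm w hw hw0) h3

end

/-- coordinates of `x qv(v) = qv(w) x` over `ℚ` -/
lemma conj_dot {x : Quaternion ℚ} {v w : V3} (h : x * qv v = qv w * x) :
    normSq x * ((v ⬝ᵥ w : ℤ) : ℚ) = (x.re ^ 2 - (x.imI ^ 2 + x.imJ ^ 2 + x.imK ^ 2)) *
      ((v ⬝ᵥ v : ℤ) : ℚ) + 2 * (x.imI * v 0 + x.imJ * v 1 + x.imK * v 2) ^ 2 := by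
  have e0 := congrArg (fun q : Quaternion ℚ => q.re) h
  have e1 := congrArg (fun q : Quaternion ℚ => q.imI) h
  have e2 := congrArg (fun q : Quaternion ℚ => q.imJ) h
  have e3 := congrArg (fun q : Quaternion ℚ => q.imK) h
  simp only [Quaternion.re_mul, Quaternion.imI_mul, Quaternion.imJ_mul, Quaternion.imK_mul,
    qv_re, qv_imI, qv_imJ, qv_imK] at e0 e1 e2 e3
  rw [normSq_def', dot3, dot3]
  push_cast
  have c0 : (x.re ^ 2 + x.imI ^ 2 + x.imJ ^ 2 + x.imK ^ 2) * (w 0 : ℚ) =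
      (x.re ^ 2 - (x.imI ^ 2 + x.imJ ^ 2 + x.imK ^ 2)) * v 0 +
        2 * x.re * (x.imJ * v 2 - x.imK * v 1) +
        2 * (x.imI * v 0 + x.imJ * v 1 + x.imK * v 2) * x.imI := by
    linear_combination x.imI * e0 - x.re * e1 + x.imK * e2 - x.imJ * e3
  have c1 : (x.re ^ 2 + x.imI ^ 2 + x.imJ ^ 2 + x.imK ^ 2) * (w 1 : ℚ) =
      (x.re ^ 2 - (x.imI ^ 2 + x.imJ ^ 2 + x.imK ^ 2)) * v 1 +
        2 * x.re * (x.imK * v 0 - x.imI * v 2) +
        2 * (x.imI * v 0 + x.imJ * v 1 + x.imK * v 2) * x.imJ := by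
    linear_combination x.imJ * e0 - x.imK * e1 - x.re * e2 + x.imI * e3
  have c2 : (x.re ^ 2 + x.imI ^ 2 + x.imJ ^ 2 + x.imK ^ 2) * (w 2 : ℚ) =
      (x.re ^ 2 - (x.imI ^ 2 + x.imJ ^ 2 + x.imK ^ 2)) * v 2 +
        2 * x.re * (x.imI * v 1 - x.imJ * v 0) +
        2 * (x.imI * v 0 + x.imJ * v 1 + x.imK * v 2) * x.imK := by
    linear_combination x.imK * e0 + x.imJ * e1 - x.imI * e2 - x.re * e3
  linear_combination (v 0 : ℚ) * c0 + (v 1 : ℚ) * c1 + (v 2 : ℚ) * c2

/-- the ramified case, nonzero real part -/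
lemma ram {n d n' : ℕ} (hn : n = d * n') (hsq : Squarefree n) (hodd : Odd n) (hd0 : d ≠ 0)
    {v w : V3} {x : Quaternion ℚ} (hv : v ⬝ᵥ v = (n : ℤ)) (hw : w ⬝ᵥ w = (n : ℤ))
    (hN : normSq x = d) (e : x * qv v = qv w * x) {y : Quaternion ℚ} (hy : Hz y)
    (hxy : x * qv v = (d : Quaternion ℚ) * y) {p : ℕ} [Fact p.Prime] (hpd : p ∣ d)
    (hpn' : ¬ p ∣ n') {X : Quaternion (ZMod p)} (hX : Rdq p x X) (hre : X.re ≠ 0)
    {f : (Fin 3 → ZMod p) → ℤ} (hf : IsPhi p f) (hv0 : rd p v ≠ 0) (hw0 : rd p w ≠ 0) :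
    f (rd p w) = lz p n' * f (rd p v) := by
  have hdn : d ∣ n := ⟨n', hn⟩
  obtain ⟨hp2, -, -⟩ := prime_data hsq hodd hdn Fact.out (hpd.trans hdn)
  have h20 := two_ne (p := p) hp2
  obtain ⟨a, b, c, e', ⟨h1, h2, h3, h4⟩, g1, g2, g3, g4⟩ := hX
  obtain ⟨k, hk⟩ := re_hz hy
  have hs : x.imI * v 0 + x.imJ * v 1 + x.imK * v 2 = -(d * y.re) := by
    have e0 := congrArg (fun q : Quaternion ℚ => q.re) hxy
    have e1 : ((d : Quaternion ℚ) * y).re = d * y.re := by
      rw [← Quaternion.coe_natCast d, Quaternion.coe_mul_eq_smul, Quaternion.re_smul, smul_eq_mul]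
    simp only [Quaternion.re_mul, qv_re, qv_imI, qv_imJ, qv_imK] at e0
    have e2 : (d : Quaternion ℚ).re * y.re - (d : Quaternion ℚ).imI * y.imI -
      (d : Quaternion ℚ).imJ * y.imJ - (d : Quaternion ℚ).imK * y.imK = d * y.re := by
      rw [← Quaternion.re_mul]; exact e1
    rw [e2] at e0
    linarith
  have hdot := conj_dot e
  have hNd := hN
  rw [normSq_def'] at hNd
  have hdq : (d : ℚ) ≠ 0 := by exact_mod_cast hd0
  have hvn : ((v ⬝ᵥ v : ℤ) : ℚ) = d * n' := by
    rw [hv, hn]; push_cast; rfl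
  rw [hN, hs, hvn] at hdot
  have key : (2 : ℚ) * ((v ⬝ᵥ w : ℤ) : ℚ) = (a ^ 2 - 2 * d) * n' + d * k ^ 2 := by
    apply mul_left_cancel₀ hdq
    have ha : (a : ℚ) = 2 * x.re := by rw [h1]; ring
    rw [ha, ← hk]
    linear_combination 2 * hdot - 2 * (d : ℚ) * n' * hNd
  have keyZ : 2 * (v ⬝ᵥ w) = (a ^ 2 - 2 * d) * n' + d * k ^ 2 := by exact_mod_cast key
  have hdz : (d : ZMod p) = 0 := (ZMod.natCast_eq_zero_iff d p).2 hpd
  have keyp : 2 * (rd p v ⬝ᵥ rd p w) = (n' : ZMod p) * (a : ZMod p) ^ 2 := by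
    have h5 := congrArg (Int.cast : ℤ → ZMod p) keyZ
    rw [dot3] at h5 ⊢
    push_cast at h5
    rw [hdz] at h5
    unfold rd
    linear_combination h5
  have ha0 : (a : ZMod p) ≠ 0 := by
    intro h
    rw [g1, h, zero_div] at hre
    exact hre rfl
  have hn0 : (n' : ZMod p) ≠ 0 := by
    rw [Ne, ZMod.natCast_eq_zero_iff]
    exact hpn'
  have hnz : (n : ZMod p) = 0 := (ZMod.natCast_eq_zero_iff n p).2 (hpd.trans hdn)
  have hvv : rd p v ⬝ᵥ rd p v = 0 := by
    have h5 := congrArg (Int.cast : ℤ → ZMod p) hv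
    rw [dot3] at h5 ⊢
    push_cast at h5
    unfold rd
    rw [h5, hnz]
  have hww : rd p w ⬝ᵥ rd p w = 0 := by
    have h5 := congrArg (Int.cast : ℤ → ZMod p) hw
    rw [dot3] at h5 ⊢
    push_cast at h5
    unfold rd
    rw [h5, hnz]
  have hne : rd p v ⬝ᵥ rd p w ≠ 0 := by
    intro h
    rw [h, mul_zero] at keyp
    exact mul_ne_zero hn0 (pow_ne_zero 2 ha0) keyp.symm
  have h6 := hf.mul (rd p v) (rd p w) hvv hww hne
  rw [keyp, lz_ms ha0] at h6
  have hfv := hf.pm _ hvv hv0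
  have hfw := hf.pm _ hww hw0
  have hl := lz_pm (p := p) hn0
  rw [← h6]
  rcases hfv with h | h <;> rcases hfw with h' | h' <;> rw [h, h'] <;> norm_num

lemma mkq_qz (p : ℕ) (v : V3) : qz p v = mkq 0 (rd p v 0) (rd p v 1) (rd p v 2) := rfl

lemma rd_eq_zero {p : ℕ} {v : V3} (h : rd p v = 0) : qz p v = 0 := by
  have h0 := congrFun h 0
  have h1 := congrFun h 1
  have h2 := congrFun h 2
  apply Quaternion.ext
  · rfl
  · exact h0
  · exact h1
  · exact h2

end H23

theorem t_H3 (h0 : S_PHI) (h1 : S_PROT) (h2 : S_H2) : S_H3 := by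
  intro N D v w x hN hD hv hx hNx e p hp
  have hsq := pr_sqf hN
  have hodd := pr_odd hN
  have hDm : Pm D := fun q hq => hN q (hD hq)
  have hdn : pr D ∣ pr N := pr_dvd hD
  have hd0 : pr D ≠ 0 := (hsq.squarefree_of_dvd hdn).ne_zero
  have : Fact p.Prime := ⟨(hN p hp).1⟩
  have hp2 : p ≠ 2 := (hN p hp).2.1
  have h20 := two_ne (p := p) hp2
  have hpn : p ∣ pr N := dvd_pr hp
  have hdq : ((pr D : ℕ) : ℚ) ≠ 0 := by exact_mod_cast hd0
  have hw : w ⬝ᵥ w = (pr N : ℤ) := by
    have e1 := congrArg normSq e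
    rw [map_mul, map_mul, hNx, normSq_qv, normSq_qv, mul_comm] at e1
    have e2 := mul_right_cancel₀ hdq e1
    rw [← hv]
    exact_mod_cast e2.symm
  have hf := ph_spec h0 (hN p hp).1 hp2
  have hv0 : rd p v ≠ 0 := fun h => qz_ne hsq hodd hv p hpn (rd_eq_zero h)
  have hw0 : rd p w ≠ 0 := fun h => qz_ne hsq hodd hw p hpn (rd_eq_zero h)
  have hnz : ((pr N : ℕ) : ZMod p) = 0 := (ZMod.natCast_eq_zero_iff _ p).2 hpn
  have hvv : rd p v ⬝ᵥ rd p v = 0 := by
    have h5 := congrArg (Int.cast : ℤ → ZMod p) hv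
    rw [dot3] at h5 ⊢
    push_cast at h5
    unfold rd
    rw [h5, hnz]
  have hww : rd p w ⬝ᵥ rd p w = 0 := by
    have h5 := congrArg (Int.cast : ℤ → ZMod p) hw
    rw [dot3] at h5 ⊢
    push_cast at h5
    unfold rd
    rw [h5, hnz]
  unfold gen
  by_cases hpD : p ∈ D
  · rw [if_pos hpD, ← lz_nat]
    have hpd : p ∣ pr D := dvd_pr hpD
    have hn' : pr N = pr D * pr (N \ D) := by
      unfold Pool.Agent.Z700.pr
      rw [mul_comm, Finset.prod_sdiff hD]
    have hpn' : ¬ p ∣ pr (N \ D) := by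
      refine not_dvd_pr (fun q hq => hN q (Finset.mem_sdiff.1 hq).1) (hN p hp).1 ?_
      rw [Finset.mem_sdiff]
      tauto
    -- the case of nonzero real part
    have key : ∀ (x' : Quaternion ℚ) (w' : V3) (X' : Quaternion (ZMod p)), Hz x' →
        normSq x' = ((pr D : ℕ) : ℚ) → x' * qv v = qv w' * x' → w' ⬝ᵥ w' = (pr N : ℤ) →
        Rdq p x' X' → X'.re ≠ 0 → ph p (rd p w') = lz p (pr (N \ D) : ℕ) * ph p (rd p v) := by
      intro x' w' X' hx' hN' e' hw' hX' hre
      obtain ⟨⟨y, hy, hxy⟩, -⟩ := h2 (pr N) (pr D) v w' w' x' x' hsq hodd hv hdn hx' hx' hN' hN'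
        e' e'
      exact ram hn' hsq hodd hd0 hv hw' hN' e' hy hxy hpd hpn' hX' hre hf hv0
        (fun h => qz_ne hsq hodd hw' p hpn (rd_eq_zero h))
    obtain ⟨X, hX⟩ := rd_ex (p := p) hx
    by_cases hr0 : X.re = 0
    · -- use the units
      have rI : Rdq p (mkq 0 1 0 0 : Quaternion ℚ) (mkq 0 1 0 0) :=
        ⟨0, 1, 0, 0, by simp [mkq_re, mkq_imI, mkq_imJ, mkq_imK],
          by simp [mkq_re, mkq_imI, mkq_imJ, mkq_imK]⟩
      have rJ : Rdq p (mkq 0 0 1 0 : Quaternion ℚ) (mkq 0 0 1 0) :=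
        ⟨0, 0, 1, 0, by simp [mkq_re, mkq_imI, mkq_imJ, mkq_imK],
          by simp [mkq_re, mkq_imI, mkq_imJ, mkq_imK]⟩
      have rK : Rdq p (mkq 0 0 0 1 : Quaternion ℚ) (mkq 0 0 0 1) :=
        ⟨0, 0, 0, 1, by simp [mkq_re, mkq_imI, mkq_imJ, mkq_imK],
          by simp [mkq_re, mkq_imI, mkq_imJ, mkq_imK]⟩
      have hI := hz_of_rd rI
      have hJ := hz_of_rd rJ
      have hK := hz_of_rd rK
      have hunit : ∀ (u : Quaternion ℚ) (U : Quaternion (ZMod p)) (w' : V3), Hz u →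
          Rdq p u U → normSq u = 1 → u * qv w = qv w' * u → w' ⬝ᵥ w' = w ⬝ᵥ w →
          (U * X).re ≠ 0 → ph p (rd p w') = lz p (pr (N \ D) : ℕ) * ph p (rd p v) := by
        intro u U w' hu hU hu1 heu hww' hre
        refine key (u * x) w' (U * X) (hz_mul hu hx) ?_ ?_ (hww'.trans hw) (rd_mul hp2 hU hX) hre
        · rw [map_mul, hu1, one_mul, hNx]
        · rw [mul_assoc, e, ← mul_assoc, heu, mul_assoc]
      by_cases hi0 : X.imI = 0
      · by_cases hj0 : X.imJ = 0
        · by_cases hk0 : X.imK = 0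
          · exfalso
            have hX0 : X = 0 := Quaternion.ext _ _ hr0 hi0 hj0 hk0
            rw [hX0] at hX
            obtain ⟨-, -, h3⟩ := prime_data hsq hodd hdn (hN p hp).1 hpn
            exact h3 (rd_zero_norm hp2 hX (by rw [hNx]; simp))
          · have h3 := hunit (mkq 0 0 0 1) (mkq 0 0 0 1) ![-w 0, -w 1, w 2] hK rK
              (by rw [normSq_def', mkq_re, mkq_imI, mkq_imJ, mkq_imK]; norm_num)
              (by
                apply Quaternion.ext <;>
                  simp only [Quaternion.re_mul, Quaternion.imI_mul, Quaternion.imJ_mul,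
                    Quaternion.imK_mul, mkq_re, mkq_imI, mkq_imJ, mkq_imK, qv_re, qv_imI, qv_imJ,
                    qv_imK, Matrix.cons_val_zero, Matrix.cons_val_one, Matrix.cons_val] <;>
                  push_cast <;> ring)
              (by rw [dot3, dot3]; simp)
              (by
                simp only [Quaternion.re_mul, mkq_re, mkq_imI, mkq_imJ, mkq_imK]
                intro h
                apply hk0
                linear_combination -h)
            rw [← h3]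
            have q1 := (h1 p (hN p hp).1 hp2 _ hf ![rd p w 2, rd p w 0, rd p w 1]).2.1
            have q2 := (h1 p (hN p hp).1 hp2 _ hf (rd p w)).1
            have q3 := (h1 p (hN p hp).1 hp2 _ hf ![rd p w 1, rd p w 2, rd p w 0]).1
            have q4 := (h1 p (hN p hp).1 hp2 _ hf (rd p ![-w 0, -w 1, w 2])).1
            have q5 := (h1 p (hN p hp).1 hp2 _ hf ![-rd p w 1, rd p w 2, -rd p w 0]).1
            simp only [Matrix.cons_val_zero, Matrix.cons_val_one, Matrix.cons_val] at q1 q2 q3 q4 q5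
            have q6 : (![rd p ![-w 0, -w 1, w 2] 1, rd p ![-w 0, -w 1, w 2] 2,
                rd p ![-w 0, -w 1, w 2] 0] : Fin 3 → ZMod p) =
                ![-rd p w 1, rd p w 2, -rd p w 0] := by
              unfold rd; funext i; fin_cases i <;> simp
            rw [q6] at q4
            rw [← q4, ← q5, q1, q3, q2]
        · have h3 := hunit (mkq 0 0 1 0) (mkq 0 0 1 0) ![-w 0, w 1, -w 2] hJ rJ
            (by rw [normSq_def', mkq_re, mkq_imI, mkq_imJ, mkq_imK]; norm_num)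
            (by
              apply Quaternion.ext <;>
                simp only [Quaternion.re_mul, Quaternion.imI_mul, Quaternion.imJ_mul,
                  Quaternion.imK_mul, mkq_re, mkq_imI, mkq_imJ, mkq_imK, qv_re, qv_imI, qv_imJ,
                  qv_imK, Matrix.cons_val_zero, Matrix.cons_val_one, Matrix.cons_val] <;>
                push_cast <;> ring)
            (by rw [dot3, dot3]; simp)
            (by
              simp only [Quaternion.re_mul, mkq_re, mkq_imI, mkq_imJ, mkq_imK]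
              intro h
              apply hj0
              linear_combination -h)
          rw [← h3]
          have q1 := (h1 p (hN p hp).1 hp2 _ hf ![rd p w 1, rd p w 2, rd p w 0]).2.1
          have q2 := (h1 p (hN p hp).1 hp2 _ hf (rd p w)).1
          have q4 := (h1 p (hN p hp).1 hp2 _ hf (rd p ![-w 0, w 1, -w 2])).1
          simp only [Matrix.cons_val_zero, Matrix.cons_val_one, Matrix.cons_val] at q1 q2 q4
          have q6 : (![rd p ![-w 0, w 1, -w 2] 1, rd p ![-w 0, w 1, -w 2] 2,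
              rd p ![-w 0, w 1, -w 2] 0] : Fin 3 → ZMod p) =
              ![rd p w 1, -rd p w 2, -rd p w 0] := by
            unfold rd; funext i; fin_cases i <;> simp
          rw [q6] at q4
          rw [← q4, q1, q2]
      · have h3 := hunit (mkq 0 1 0 0) (mkq 0 1 0 0) ![w 0, -w 1, -w 2] hI rI
          (by rw [normSq_def', mkq_re, mkq_imI, mkq_imJ, mkq_imK]; norm_num)
          (by
            apply Quaternion.ext <;>
              simp only [Quaternion.re_mul, Quaternion.imI_mul, Quaternion.imJ_mul,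
                Quaternion.imK_mul, mkq_re, mkq_imI, mkq_imJ, mkq_imK, qv_re, qv_imI, qv_imJ,
                qv_imK, Matrix.cons_val_zero, Matrix.cons_val_one, Matrix.cons_val] <;>
              push_cast <;> ring)
          (by rw [dot3, dot3]; simp)
          (by
            simp only [Quaternion.re_mul, mkq_re, mkq_imI, mkq_imJ, mkq_imK]
            intro h
            apply hi0
            linear_combination -h)
        rw [← h3]
        have q1 := (h1 p (hN p hp).1 hp2 _ hf (rd p w)).2.1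
        have q6 : rd p ![w 0, -w 1, -w 2] = ![rd p w 0, -rd p w 1, -rd p w 2] := by
          unfold rd; funext i; fin_cases i <;> simp
        rw [q6, q1]
    · exact key x w X hx hNx e hw hX hr0
  · rw [if_neg hpD, ← lz_nat]
    have hpd : ¬ p ∣ pr D := not_dvd_pr hDm (hN p hp).1 hpD
    obtain ⟨X, hX⟩ := rd_ex (p := p) hx
    have hNX : normSq X = ((pr D : ℕ) : ZMod p) := by
      rw [rd_norm hp2 hX (n := ((pr D : ℕ) : ℤ)) (by rw [hNx]; simp)]
      simp
    have e1 : X * qz p v = qz p w * X := by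
      have g1 := rd_mul hp2 hX (rd_qv v)
      have g2 := rd_mul hp2 (rd_qv w) hX
      rw [e] at g1
      exact rd_unique g1 g2
    rw [← hNX]
    refine conj_inv hf e1 ?_ hvv hww hv0 hw0 h20
    rw [hNX, Ne, ZMod.natCast_eq_zero_iff]
    exact hpd

end Pool.Agent.NH1
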