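import Pool.Agent.NH1.Sub
import Pool.Agent.Y155.Z7.XC
import Pool.Agent.Y288.Z7.Cnt

/-!
# Project NH1: the number of orthogonal pairs of vectors
-/

set_option autoImplicit false

namespace Pool.Agent.NH1

open Finset Matrix
open Pool.Agent.Z700 (V3 vec pr cp XX)
open Pool.Agent.Y155.Z7 (TT mem_TT fib EQ C C_prod)

namespace H4x

theorem card_two {p : ℕ} [Fact p.Prime] (h2 : p ≠ 2) (Q : ZMod p × ZMod p → Prop)
    (a b : ZMod p) (h : ∀ q, Q q ↔ q = (a, b) ∨ q = (-a, -b)) (hne : a ≠ 0 ∨ b ≠ 0) :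
    Nat.card {q : ZMod p × ZMod p // Q q} = 2 := by
  classical
  have h3 : (2 : ZMod p) ≠ 0 := by
    intro h0
    have h4 : ((2 : ℕ) : ZMod p) = 0 := by exact_mod_cast h0
    rw [ZMod.natCast_eq_zero_iff] at h4
    exact h2 ((Nat.prime_dvd_prime_iff_eq Fact.out Nat.prime_two).1 h4)
  have hx : ∀ x : ZMod p, x ≠ 0 → x ≠ -x := by
    intro x hx h
    have h4 : 2 * x = 0 := by linear_combination h
    rcases mul_eq_zero.1 h4 with h5 | h5
    · exact h3 h5
    · exact hx h5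
  have hab : ((a, b) : ZMod p × ZMod p) ≠ (-a, -b) := by
    intro h
    rw [Prod.mk.injEq] at h
    rcases hne with h4 | h4
    · exact hx _ h4 h.1
    · exact hx _ h4 h.2
  have h5 : Nat.card {q : ZMod p × ZMod p // Q q} =
      Nat.card {q : ZMod p × ZMod p // q ∈ ({(a, b), (-a, -b)} : Finset (ZMod p × ZMod p))} := by
    refine Nat.card_congr (Equiv.subtypeEquivRight fun q => ?_)
    rw [h q]
    simp
  rw [h5, Nat.card_eq_fintype_card, Fintype.card_coe, Finset.card_pair hab]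

theorem sq_of_jac {p : ℕ} [Fact p.Prime] {a : ℤ} (h : jacobiSym a p = 1) :
    ∃ x : ZMod p, x ≠ 0 ∧ x * x = (a : ZMod p) := by
  rw [← jacobiSym.legendreSym.to_jacobiSym] at h
  have h0 : (a : ZMod p) ≠ 0 := by
    intro h0
    rw [(legendreSym.eq_zero_iff p a).2 h0] at h
    exact absurd h (by norm_num)
  rw [legendreSym.eq_one_iff p h0] at h
  obtain ⟨x, hx⟩ := h
  refine ⟨x, ?_, hx.symm⟩
  rintro rfl
  rw [mul_zero] at hx
  exact h0 hx

theorem loc1 {p e D' β γ n : ℕ} (hp : p.Prime) (h2 : p ≠ 2) (he : p ∣ e) (hn : p ∣ n)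
    (hg : D' * γ = n + β ^ 2) (hs : jacobiSym (-(D' : ℤ)) p = 1) : C e 0 D' β γ p = 2 := by
  have : Fact p.Prime := ⟨hp⟩
  obtain ⟨x, hx0, hx⟩ := sq_of_jac hs
  push_cast at hx
  have he0 : (e : ZMod p) = 0 := (ZMod.natCast_eq_zero_iff _ _).2 he
  have hn0 : (n : ZMod p) = 0 := (ZMod.natCast_eq_zero_iff _ _).2 hn
  have hg' : (D' : ZMod p) * γ = β ^ 2 := by
    have := congrArg (Nat.cast : ℕ → ZMod p) hg
    push_cast at this
    rw [this, hn0, zero_add]
  unfold C
  refine card_two h2 _ x (-(β : ZMod p) / x) ?_ (Or.inl hx0)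
  rintro ⟨a, b⟩
  unfold EQ
  simp only [Prod.mk.injEq]
  rw [he0]
  push_cast
  constructor
  · rintro ⟨-, h3, h4, h5⟩
    have h6 : (a - x) * (a + x) = 0 := by linear_combination h3 - hx
    rcases mul_eq_zero.1 h6 with h7 | h7
    · have ha : a = x := by linear_combination h7
      refine Or.inl ⟨ha, ?_⟩
      rw [eq_div_iff hx0, ← ha]
      linear_combination h4
    · have ha : a = -x := by linear_combination h7
      refine Or.inr ⟨ha, ?_⟩
      rw [ha] at h4
      field_simp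
      linear_combination -h4
  · have hγ : (γ : ZMod p) + (-(β : ZMod p) / x) ^ 2 = 0 := by
      field_simp
      have h9 : x ^ 2 = -(D' : ZMod p) := by rw [pow_two]; exact hx
      rw [h9, ← hg']
      ring
    rintro (⟨rfl, rfl⟩ | ⟨rfl, rfl⟩)
    · refine ⟨by ring, by linear_combination hx, ?_, hγ⟩
      field_simp
      ring
    · refine ⟨by ring, by linear_combination hx, ?_, by linear_combination hγ⟩
      field_simp
      ring

theorem loc2 {p e D' β γ n : ℕ} (hp : p.Prime) (h2 : p ≠ 2) (he : ¬ p ∣ e) (hn : p ∣ n)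
    (hD : p ∣ D') (hg : D' * γ = n + β ^ 2) (hs : jacobiSym (-(γ : ℤ)) p = 1) :
    C e 0 D' β γ p = 2 := by
  have : Fact p.Prime := ⟨hp⟩
  obtain ⟨x, hx0, hx⟩ := sq_of_jac hs
  push_cast at hx
  have he0 : (e : ZMod p) ≠ 0 := fun h => he ((ZMod.natCast_eq_zero_iff _ _).1 h)
  have hD0 : (D' : ZMod p) = 0 := (ZMod.natCast_eq_zero_iff _ _).2 hD
  have hβ : p ∣ β := by
    have h3 : p ∣ β ^ 2 := by
      have h4 : p ∣ n + β ^ 2 := by rw [← hg]; exact hD.mul_right _
      exact (Nat.dvd_add_right hn).1 h4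
    exact hp.dvd_of_dvd_pow h3
  have hβ0 : (β : ZMod p) = 0 := (ZMod.natCast_eq_zero_iff _ _).2 hβ
  unfold C
  refine card_two h2 _ 0 x ?_ (Or.inr hx0)
  rintro ⟨a, b⟩
  unfold EQ
  simp only [Prod.mk.injEq]
  rw [hD0, hβ0]
  push_cast
  constructor
  · rintro ⟨h3, -, -, h5⟩
    have ha : a = 0 := by
      have h6 : (e : ZMod p) * a = 0 := by linear_combination h3
      rcases mul_eq_zero.1 h6 with h7 | h7
      · exact absurd h7 he0
      · exact h7
    have h6 : (b - x) * (b + x) = 0 := by linear_combination h5 - hx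
    rcases mul_eq_zero.1 h6 with h7 | h7
    · exact Or.inl ⟨ha, by linear_combination h7⟩
    · exact Or.inr ⟨by rw [ha]; ring, by linear_combination h7⟩
  · rintro (⟨rfl, rfl⟩ | ⟨rfl, rfl⟩)
    · refine ⟨by ring, by ring, by ring, by linear_combination hx⟩
    · refine ⟨by ring, by ring, by ring, by linear_combination hx⟩

theorem sqf_dvd {m a : ℕ} (hm : Squarefree m) (h : m ∣ a ^ 2) : m ∣ a :=
  (hm.dvd_pow_iff_dvd two_ne_zero).1 h

/-- the first coordinate of `TT` -/
theorem e_eq {d m n e β : ℕ} (hm : Squarefree m) (hn : Squarefree n) (hd : d ∣ n) (hd0 : 0 < d)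
    (he0 : 0 < e) (he : e ^ 2 ∣ d ^ 2 * m) (hb : (d ^ 2 * m / e ^ 2) ∣ β ^ 2 + n) : e = d := by
  have hed : e ∣ d := by
    have hg := Nat.exists_coprime e d
    obtain ⟨e', d', hc, h1, h2⟩ := hg
    set g := e.gcd d with hgdef
    have hg0 : 0 < g := Nat.gcd_pos_of_pos_left _ he0
    have h3 : e' ^ 2 ∣ m := by
      have h4 : e' ^ 2 * g ^ 2 ∣ d' ^ 2 * m * g ^ 2 := by
        have : e' ^ 2 * g ^ 2 = e ^ 2 := by rw [h1]; ring
        rw [this]
        have : d' ^ 2 * m * g ^ 2 = d ^ 2 * m := by rw [h2]; ring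
        rw [this]
        exact he
      have h5 := Nat.dvd_of_mul_dvd_mul_right (pow_pos hg0 2) h4
      exact (Nat.Coprime.pow 2 2 hc).dvd_of_dvd_mul_left h5
    have h6 : e' = 1 := by
      rw [pow_two] at h3
      exact Nat.isUnit_iff.1 (hm e' h3)
    rw [h6, one_mul] at h1
    rw [h1]
    exact Nat.gcd_dvd_right _ _
  obtain ⟨k, hk⟩ := hed
  have h7 : d ^ 2 * m / e ^ 2 = k ^ 2 * m := by
    rw [hk]
    have : (e * k) ^ 2 * m = e ^ 2 * (k ^ 2 * m) := by ring
    rw [this, Nat.mul_div_cancel_left _ (pow_pos he0 2)]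
  rw [h7] at hb
  have hk1 : k = 1 := by
    by_contra hne
    obtain ⟨p, hp, hpk⟩ := Nat.exists_prime_and_dvd hne
    have h8 : p ^ 2 ∣ β ^ 2 + n := (pow_dvd_pow_of_dvd hpk 2).trans ((Dvd.intro _ rfl).trans hb)
    have h9 : p ∣ n := hpk.trans ((Dvd.intro_left e hk.symm).trans hd)
    have h10 : p ∣ β := by
      have : p ∣ β ^ 2 + n := (Dvd.intro_left (p ^ 1) (by ring)).trans h8
      exact hp.dvd_of_dvd_pow ((Nat.dvd_add_left h9).1 this)
    have h11 : p ^ 2 ∣ n := (Nat.dvd_add_right (pow_dvd_pow_of_dvd h10 2)).1 h8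
    rw [pow_two] at h11
    exact hp.one_lt.ne' (Nat.isUnit_iff.1 (hn p h11))
  rw [hk1, mul_one] at hk
  exact hk.symm

/-- the general count -/
theorem count {n d d2 m b0 γ : ℕ} (hn : Squarefree n) (hnd : n = d * d2)
    (hm : Squarefree m) (n2 : ℕ) (hn2 : n * n2 = d ^ 2 * m)
    (hT : ∀ β : ℕ, (β < m ∧ m ∣ β ^ 2 + n) ↔ β = b0) (hγ : m * γ = n + b0 ^ 2)
    (hm0 : 0 < m)
    (hloc : ∀ p ∈ n.primeFactors, C d 0 m b0 γ p = 2) :
    cp (n : ℤ) 0 (n2 : ℤ) = 24 * 2 ^ n.primeFactors.card := by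
  have hn0 : n ≠ 0 := hn.ne_zero
  have hd0 : 0 < d := by
    rcases Nat.eq_zero_or_pos d with h | h
    · rw [h, zero_mul] at hnd; exact absurd hnd hn0
    · exact h
  set D := n * n2 with hD
  have hDpos : 0 < D := by
    rw [hn2]; positivity
  have h1 : cp (n : ℤ) 0 (n2 : ℤ) = 24 * (XX n 0 D).card := by
    refine Pool.Agent.Y288.Z7.t_CNT' n n2 0 D hn hDpos ?_
    rw [hD]
    push_cast
    ring
  have h2 : D / d ^ 2 = m := by
    rw [hn2, Nat.mul_div_cancel_left _ (pow_pos hd0 2)]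
  have hTT : TT n D = {(d, b0)} := by
    ext ⟨e, β⟩
    rw [mem_TT, Finset.mem_singleton, Prod.mk.injEq]
    constructor
    · rintro ⟨-, g2, g3, g4, g5⟩
      rw [hn2] at g3 g5
      have he := e_eq hm hn (Dvd.intro _ hnd.symm) hd0 g2 g3 g5
      refine ⟨he, ?_⟩
      simp only at he g4 g5
      rw [he, h2] at g4
      rw [← hn2, he, h2] at g5
      exact (hT β).1 ⟨g4, g5⟩
    · rintro ⟨rfl, rfl⟩
      refine ⟨?_, hd0, ?_, ?_, ?_⟩
      · show e < D + 1
        rw [hn2]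
        nlinarith [Nat.pos_of_ne_zero hn0]
      · show e ^ 2 ∣ D
        rw [hn2]
        exact Dvd.intro _ rfl
      · show β < D / e ^ 2
        rw [h2]
        exact ((hT β).2 rfl).1
      · show D / e ^ 2 ∣ β ^ 2 + n
        rw [h2]
        exact ((hT β).2 rfl).2
  have h3 : (XX n 0 D).card = 2 ^ n.primeFactors.card := by
    have hmaps : ∀ q ∈ XX n 0 D, (q.1, q.2.2.1) ∈ TT n D := by
      intro q hq
      unfold XX at hq
      have hq := Finset.mem_filter.1 hq
      have hq3 := Finset.mem_product.1 hq.1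
      exact (mem_TT n D _).2 ⟨Finset.mem_range.1 hq3.1, hq.2.1, hq.2.2.1,
        hq.2.2.2.1, hq.2.2.2.2.2.2.1⟩
    rw [Finset.card_eq_sum_card_fiberwise (f := fun q => (q.1, q.2.2.1)) (t := TT n D)
      (fun q hq => hmaps q hq)]
    rw [hTT, Finset.sum_singleton, fib n (Nat.pos_of_ne_zero hn0) 0 D (d, b0)
      (by rw [hTT]; exact Finset.mem_singleton_self _)]
    show C d 0 (D / d ^ 2) b0 ((n + b0 ^ 2) / (D / d ^ 2)) n = _
    rw [h2, ← hγ, Nat.mul_div_cancel_left _ hm0, C_prod _ _ _ _ _ hm0 hn,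
      Finset.prod_congr rfl hloc, Finset.prod_const]
  rw [h1, h3]

theorem pr_primeFactors {N : Finset ℕ} (hN : Pm N) : (pr N).primeFactors = N := by
  unfold pr
  exact Nat.primeFactors_prod fun p hp => (hN p hp).1

theorem pr_sqf {N : Finset ℕ} (hN : Pm N) : Squarefree (pr N) := by
  unfold pr
  refine Finset.squarefree_prod_of_pairwise_isCoprime ?_ fun p hp => (hN p hp).1.squarefree
  intro p hp q hq hne
  exact Nat.coprime_iff_isRelPrime.1 ((Nat.coprime_primes (hN p hp).1 (hN q hq).1).2 hne)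

theorem pr_odd {N : Finset ℕ} (hN : Pm N) : Odd (pr N) := by
  rw [← Nat.not_even_iff_odd, even_iff_two_dvd]
  unfold pr
  rw [Nat.prime_two.prime.dvd_finset_prod_iff]
  rintro ⟨p, hp, h⟩
  exact (hN p hp).2.1 ((Nat.prime_dvd_prime_iff_eq Nat.prime_two (hN p hp).1).1 h).symm

theorem pr_mul {N D : Finset ℕ} (h : D ⊆ N) : pr N = pr D * pr (N \ D) := by
  unfold pr
  rw [mul_comm]
  exact (Finset.prod_sdiff h).symm

theorem dvd_pr {N : Finset ℕ} (hN : Pm N) {p : ℕ} (hp : p.Prime) : p ∣ pr N ↔ p ∈ N := by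
  have h := Nat.mem_primeFactors_of_ne_zero (n := pr N) (p := p) (pr_sqf hN).ne_zero
  rw [pr_primeFactors hN] at h
  rw [h]
  exact (and_iff_right hp).symm

theorem jac_one {p : ℕ} (hp : p.Prime) (h2 : p ≠ 2) {c : ℤ} (hc : c = -1 ∨ c = -2) {a : ℤ}
    (h : jacobiSym a p = jacobiSym c p) : jacobiSym (c * a) p = 1 := by
  rw [jacobiSym.mul_left, h, ← pow_two]
  refine jacobiSym.sq_one ?_
  have h3 : Nat.Coprime 2 p := (Nat.coprime_primes Nat.prime_two hp).2 (Ne.symm h2)
  rcases hc with rfl | rfl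
  · simp
  · rw [Int.gcd_eq_natAbs]
    simpa using h3

end H4x

open H4x in
theorem t_H4 : S_H4 := by
  intro N D hN hD
  have hPD : Pm D := fun p hp => hN p (hD hp)
  have hPE : Pm (N \ D) := fun p hp => hN p (Finset.mem_sdiff.1 hp).1
  have hmul := pr_mul hD
  have hn := pr_sqf hN
  have ho := pr_odd hN
  have hd := pr_sqf hPD
  have he := pr_sqf hPE
  have hdo := pr_odd hPD
  have heo := pr_odd hPE
  have he0 : 0 < pr (N \ D) := Nat.pos_of_ne_zero he.ne_zero
  have hen : pr (N \ D) ∣ pr N := Dvd.intro_left _ hmul.symm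
  have hmem : ∀ p ∈ (pr N).primeFactors, p.Prime ∧ p ≠ 2 ∧ p ∈ N ∧ p ∣ pr N := by
    intro p hp
    rw [pr_primeFactors hN] at hp
    exact ⟨(hN p hp).1, (hN p hp).2.1, hp, (dvd_pr hN (hN p hp).1).2 hp⟩
  have hPND : ∀ p : ℕ, p.Prime → p ∈ N → p ∉ D → ¬ p ∣ pr D ∧ p ∣ pr (N \ D) := by
    intro p hp hpN hpD
    exact ⟨fun h => hpD ((dvd_pr hPD hp).1 h), (dvd_pr hPE hp).2 (Finset.mem_sdiff.2 ⟨hpN, hpD⟩)⟩
  constructor
  · intro hg
    have hγ : pr (N \ D) * pr D = pr N + 0 ^ 2 := by rw [hmul]; ring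
    have key := count (n := pr N) (d := pr D) (d2 := pr (N \ D)) (m := pr (N \ D)) (b0 := 0)
      (γ := pr D) hn hmul he (pr D) (by rw [hmul]; ring) ?_ hγ he0 ?_
    · rw [key, pr_primeFactors hN]
    · intro β
      constructor
      · rintro ⟨h1, h2⟩
        have h3 : pr (N \ D) ∣ β ^ 2 := (Nat.dvd_add_left hen).1 h2
        exact Nat.eq_zero_of_dvd_of_lt (sqf_dvd he h3) h1
      · rintro rfl
        exact ⟨he0, by simpa using hen⟩
    · intro p hp
      obtain ⟨hp1, hp2, hpN, hpn⟩ := hmem p hp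
      have hgp := hg p hpN
      unfold gen at hgp
      by_cases hpD : p ∈ D
      · rw [if_pos hpD] at hgp
        refine loc1 hp1 hp2 ((dvd_pr hPD hp1).2 hpD) hpn hγ ?_
        have := jac_one hp1 hp2 (Or.inl rfl) hgp
        rwa [neg_one_mul] at this
      · rw [if_neg hpD] at hgp
        obtain ⟨h1, h2⟩ := hPND p hp1 hpN hpD
        refine loc2 hp1 hp2 h1 hpn h2 hγ ?_
        have := jac_one hp1 hp2 (Or.inl rfl) hgp
        rwa [neg_one_mul] at this
  · intro hg
    obtain ⟨γ, hγ0⟩ : 2 ∣ pr D + pr (N \ D) := (hdo.add_odd heo).two_dvd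
    have hγ : 2 * pr (N \ D) * γ = pr N + pr (N \ D) ^ 2 := by
      have : 2 * pr (N \ D) * γ = pr (N \ D) * (2 * γ) := by ring
      rw [this, ← hγ0, hmul]
      ring
    have hm : Squarefree (2 * pr (N \ D)) := by
      rw [Nat.squarefree_mul_iff]
      exact ⟨(Nat.coprime_two_left).2 heo, Nat.prime_two.squarefree, he⟩
    have key := count (n := pr N) (d := pr D) (d2 := pr (N \ D)) (m := 2 * pr (N \ D))
      (b0 := pr (N \ D)) (γ := γ) hn hmul hm (2 * pr D) (by rw [hmul]; ring) ?_ hγ (by omega) ?_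
    · rw [pr_primeFactors hN] at key
      rw [← key]
      push_cast
      rfl
    · intro β
      constructor
      · rintro ⟨h1, h2⟩
        have h2' : pr (N \ D) ∣ β ^ 2 + pr N := (Dvd.intro_left 2 rfl).trans h2
        have h3 : pr (N \ D) ∣ β ^ 2 := (Nat.dvd_add_left hen).1 h2'
        obtain ⟨c, hc⟩ := sqf_dvd he h3
        have h4 : 2 ∣ β ^ 2 + pr N := (Dvd.intro _ rfl).trans h2
        have h5 : c < 2 := by
          rw [hc, mul_comm 2] at h1
          exact Nat.lt_of_mul_lt_mul_left h1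
        have h6 : c ≠ 0 := by
          rintro rfl
          rw [hc, mul_zero] at h4
          rw [pow_two, mul_zero, zero_add] at h4
          exact (Nat.not_even_iff_odd.2 ho) (even_iff_two_dvd.2 h4)
        have h7 : c = 1 := by omega
        rw [hc, h7, mul_one]
      · rintro rfl
        refine ⟨by omega, ?_⟩
        rw [add_comm, ← hγ]
        exact Dvd.intro _ rfl
    · intro p hp
      obtain ⟨hp1, hp2, hpN, hpn⟩ := hmem p hp
      have hgp := hg p hpN
      unfold gen at hgp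
      by_cases hpD : p ∈ D
      · rw [if_pos hpD] at hgp
        refine loc1 hp1 hp2 ((dvd_pr hPD hp1).2 hpD) hpn hγ ?_
        have := jac_one hp1 hp2 (Or.inr rfl) hgp
        rw [← this]
        congr 1
      · rw [if_neg hpD] at hgp
        obtain ⟨h1, h2⟩ := hPND p hp1 hpN hpD
        refine loc2 hp1 hp2 h1 hpn (h2.mul_left 2) hγ ?_
        have h3 := jac_one hp1 hp2 (Or.inr rfl) hgp
        have h4 : jacobiSym (2 ^ 2) p = 1 := by
          rw [jacobiSym.pow_left]
          refine jacobiSym.sq_one ?_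
          have h5 : Nat.Coprime 2 p := (Nat.coprime_primes Nat.prime_two hp1).2 (Ne.symm hp2)
          exact_mod_cast h5
        have h5 : jacobiSym (-(γ : ℤ) * 2 ^ 2) p = jacobiSym (-2 * (pr D : ℤ)) p := by
          refine jacobiSym.mod_left' ?_
          refine (Int.emod_emod_of_dvd _ (dvd_refl _)).symm.trans ?_
          rw [Int.emod_emod_of_dvd _ (dvd_refl _)]
          rw [Int.emod_eq_emod_iff_emod_sub_eq_zero, ← Int.dvd_iff_emod_eq_zero]
          have h6 : (2 : ℤ) * γ = pr D + pr (N \ D) := by exact_mod_cast hγ0.symm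
          have h7 : -(γ : ℤ) * 2 ^ 2 - -2 * (pr D : ℤ) = (pr (N \ D) : ℤ) * (-2) := by
            linear_combination (-2) * h6
          rw [h7]
          exact (Int.natCast_dvd_natCast.2 h2).mul_right _
        rw [jacobiSym.mul_left, h4, mul_one] at h5
        rw [h5, h3]

end Pool.Agent.NH1
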