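import Pool.Agent.NH1.HzB

/-!
# Hurwitz quaternions: the Euclidean algorithm and the action of the ambiguous ideals
-/

set_option autoImplicit false

namespace Pool.Agent.NH1

open Quaternion Matrix
open Pool.Agent.NH1.HzB
open Pool.Agent.Z700 (V3)

theorem t_HE : S_HE := HzB.t_HE

namespace HzB

theorem bezout (h : S_HE) : ∀ (n : ℕ) (a b : Quaternion ℚ), Hz a → Hz b → normSq b = n →
    ∃ x α β a' b' : Quaternion ℚ, Hz x ∧ Hz α ∧ Hz β ∧ Hz a' ∧ Hz b' ∧ x = α * a + β * b ∧
      a = a' * x ∧ b = b' * x := by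
  intro n
  induction n using Nat.strong_induction_on with
  | _ n ih =>
    intro a b ha hb hn
    by_cases hb0 : b = 0
    · exact ⟨a, 1, 0, 1, 0, ha, hz_one, hz_zero, hz_one, hz_zero, by simp, by simp, by simp [hb0]⟩
    · obtain ⟨q, hq, hlt⟩ := h a b ha hb hb0
      have hr : Hz (a - q * b) := hz_sub ha (hz_mul hq hb)
      obtain ⟨m, hm⟩ := norm_hz hr
      have hmn : m < n := by
        rw [hm, hn] at hlt
        exact_mod_cast hlt
      obtain ⟨x, α, β, a', b', hx, hα, hβ, ha', hb', e1, e2, e3⟩ := ih m hmn b (a - q * b) hb hr hm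
      refine ⟨x, β, α - β * q, q * a' + b', a', hx, hβ, hz_sub hα (hz_mul hβ hq),
        hz_add (hz_mul hq ha') hb', ha', ?_, ?_, e2⟩
      · rw [e1]
        noncomm_ring
      · rw [add_mul, mul_assoc, ← e2, ← e3]
        noncomm_ring

end HzB

theorem t_H1 (h : S_HE) : S_H1 := by
  intro n d v hsq hodd hv hdn
  have hn0 : n ≠ 0 := hsq.ne_zero
  have hd0 : d ≠ 0 := by
    rintro rfl
    exact hn0 (Nat.eq_zero_of_zero_dvd hdn)
  have hVn : normSq (qv v) = n := by
    rw [normSq_qv, hv]
    simp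
  obtain ⟨x, α, β, a', b', hx, hα, hβ, ha', hb', e1, e2, e3⟩ := bezout h (d ^ 2) (qv v)
    (d : Quaternion ℚ) (hz_qv v) (hz_natCast d) (by rw [normSq_natCast]; push_cast; ring)
  obtain ⟨N, hN⟩ := norm_hz hx
  obtain ⟨A, hA⟩ := norm_hz ha'
  obtain ⟨B, hB⟩ := norm_hz hb'
  have h1 : N ∣ n := by
    have : (n : ℚ) = A * N := by
      rw [← hVn]
      conv_lhs => rw [e2]
      rw [map_mul, hA, hN]
    exact ⟨A, by rw [mul_comm]; exact_mod_cast this⟩
  have h2 : N ∣ d ^ 2 := by
    have h3 : ((d : ℚ)) ^ 2 = B * N := by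
      rw [← normSq_natCast]
      conv_lhs => rw [e3]
      rw [map_mul, hB, hN]
    exact ⟨B, by rw [mul_comm]; exact_mod_cast h3⟩
  obtain ⟨d2, hd2⟩ := hdn
  have hcop : Nat.Coprime d d2 := by
    rw [hd2] at hsq
    exact (Nat.squarefree_mul_iff.1 hsq).1
  have h3 : N ∣ d := by
    have h4 : N ∣ Nat.gcd n (d ^ 2) := Nat.dvd_gcd h1 h2
    rw [hd2, pow_two, Nat.gcd_mul_left, Nat.Coprime.gcd_eq_one hcop.symm, mul_one] at h4
    exact h4
  have h4 : d ∣ N := by
    obtain ⟨A', hA'⟩ := norm_hz hα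
    obtain ⟨B', hB'⟩ := norm_hz hβ
    obtain ⟨t, ht⟩ := re_hz (hz_mul (hz_mul hα (hz_qv v)) (hz_star hβ))
    have e4 : normSq x = A' * n + d ^ 2 * B' + d * t := by
      rw [e1, ← ht]
      have e5 : normSq (α * qv v + β * (d : Quaternion ℚ)) = normSq (α * qv v) +
          normSq (β * (d : Quaternion ℚ)) +
          2 * (α * qv v * star (β * (d : Quaternion ℚ))).re := by
        rw [normSq_add]
      rw [e5, map_mul, map_mul, hA', hB', hVn, normSq_natCast, star_mul]
      have e6 : (α * qv v * (star (d : Quaternion ℚ) * star β)).re =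
          d * (α * qv v * star β).re := by
        rw [star_natCast]
        have e7 : α * qv v * ((d : Quaternion ℚ) * star β) =
            (d : Quaternion ℚ) * (α * qv v * star β) := by
          rw [← mul_assoc, (Nat.cast_commute d (α * qv v)).eq.symm, mul_assoc]
        rw [e7]
        simp
      rw [e6]
      ring
    rw [hN] at e4
    have e8 : (N : ℤ) = A' * n + d ^ 2 * B' + d * t := by exact_mod_cast e4
    rw [hd2] at e8
    have : (d : ℤ) ∣ N := by
      rw [e8]
      refine ⟨A' * d2 + d * B' + t, ?_⟩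
      push_cast
      ring
    exact_mod_cast this
  have hNd : N = d := Nat.dvd_antisymm h3 h4
  rw [hNd] at hN
  -- the element W
  set W : Quaternion ℚ := (-((d2 : Quaternion ℚ) * α) + β * qv v) * star x with hW
  have hWH : Hz W :=
    hz_mul (hz_add (hz_neg (hz_mul (hz_natCast d2) hα)) (hz_mul hβ (hz_qv v))) (hz_star hx)
  have hxx : star x * x = (d : Quaternion ℚ) := by
    rw [star_mul_self, hN]
    exact Quaternion.coe_natCast d
  have hxx' : x * star x = (d : Quaternion ℚ) := by
    rw [self_mul_star, hN]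
    exact Quaternion.coe_natCast d
  have e9 : x * qv v = W * x := by
    rw [hW, mul_assoc, hxx]
    conv_lhs => rw [e1]
    rw [add_mul, mul_assoc α, qv_sq, hv, hd2]
    push_cast
    have c1 := (Nat.cast_commute d (β * qv v)).eq
    have c2 := (Nat.cast_commute d ((d2 : Quaternion ℚ) * α)).eq
    have c3 := (Nat.cast_commute d (qv v)).eq
    have c4 := (Nat.cast_commute d2 α).eq
    have c5 := (Nat.cast_commute d α).eq
    rw [mul_assoc β, c3, add_mul, ← mul_assoc β, neg_mul, mul_neg]
    congr 2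
    rw [← mul_assoc, ← c5, mul_assoc, ← c4, ← c2]
  have hW0 : W.re = 0 := by
    have e10 : W * (d : Quaternion ℚ) = x * qv v * star x := by
      rw [e9, mul_assoc W x (star x), hxx']
    have e11 : (W * (d : Quaternion ℚ)).re = 0 := by
      rw [e10]
      simp only [Quaternion.re_mul, Quaternion.imI_mul, Quaternion.imJ_mul, Quaternion.imK_mul,
        Quaternion.re_star, Quaternion.imI_star, Quaternion.imJ_star, Quaternion.imK_star, qv_re]
      ring
    have e12 : (W * (d : Quaternion ℚ)).re = W.re * d := by simp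
    rw [e12] at e11
    rcases mul_eq_zero.1 e11 with h | h
    · exact h
    · exact absurd (by exact_mod_cast h) hd0
  obtain ⟨w, hw⟩ := hz_pure hWH hW0
  refine ⟨x, w, hx, hN, ?_⟩
  rw [← hw]
  exact e9

end Pool.Agent.NH1
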