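import Pool.Agent.NH1.Defs

/-!
# Project NH1: intermediate statements
-/

set_option autoImplicit false

namespace Pool.Agent.NH1

open Finset Matrix
open Pool.Agent.Z700 (V3 vec pr cp Ln n0 ep X2)

noncomputable section

/-- PROT: the characters and the isometries -/
def S_PROT : Prop := ∀ p : ℕ, p.Prime → p ≠ 2 → ∀ f : (Fin 3 → ZMod p) → ℤ, IsPhi p f →
  ∀ v : Fin 3 → ZMod p, f ![v 1, v 2, v 0] = f v ∧ f ![v 0, -v 1, -v 2] = f v ∧
    f ![v 0, -v 2, v 1] = lz p 2 * f v ∧ f (-v) = lz p (-1) * f v ∧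
    (p ≠ 7 → ∀ w : Fin 3 → ZMod p, (∀ i, 7 * w i = 7 * v i -
      (v 0 + 2 * v 1 + 3 * v 2) * (![1, 2, 3] : Fin 3 → ZMod p) i) → f w = lz p (-14) * f v)

/-! ### analysis -/

/-- LV1: modular forms of level one given by their coefficients -/
def S_LV1 : Prop := ∀ (w : ℕ) (a : ℕ → ℂ), Even w →
  (∃ C k : ℕ, ∀ n, ‖a n‖ ≤ (C : ℝ) * ((n : ℝ) + 1) ^ k) →
  (∀ z : ℂ, 0 < z.im → ∑' n : ℕ, a n * Complex.exp (2 * Real.pi * Complex.I * n * (-1 / z)) =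
    z ^ w * ∑' n : ℕ, a n * Complex.exp (2 * Real.pi * Complex.I * n * z)) →
  (∀ n : ℕ, 12 * n ≤ w → a n = 0) → ∀ n, a n = 0

/-- TH1: the transformation of the theta series in one variable -/
def S_TH1 : Prop := ∀ (N : ℕ) [NeZero N] (φ : ZMod N → ℂ) (z : ℂ), 0 < z.im →
  ∑' b : ℤ, φ (b : ZMod N) * Complex.exp (Real.pi * Complex.I * (b : ℂ) ^ 2 * (-1 / z) / N) =
    (-Complex.I * z / N) ^ ((1 : ℂ) / 2) * ∑' b : ℤ, (∑ a : ZMod N, φ a *
      Complex.exp (2 * Real.pi * Complex.I * (((a * (b : ZMod N)).val : ℕ) : ℂ) / N)) *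
      Complex.exp (Real.pi * Complex.I * (b : ℂ) ^ 2 * z / N)

/-- TH3: the transformation of the theta series in three variables -/
def S_TH3 : Prop := ∀ (N : ℕ) [NeZero N] (φ : (Fin 3 → ZMod N) → ℂ) (z : ℂ), 0 < z.im →
  ∑' v : Fin 3 → ℤ, φ (fun i => (v i : ZMod N)) *
      Complex.exp (Real.pi * Complex.I * ((v ⬝ᵥ v : ℤ) : ℂ) * (-1 / z) / N) =
    (-Complex.I * z / N) ^ ((3 : ℂ) / 2) * ∑' v : Fin 3 → ℤ, (∑ a : Fin 3 → ZMod N, φ a *
      Complex.exp (2 * Real.pi * Complex.I *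
        (((a ⬝ᵥ fun i => (v i : ZMod N)).val : ℕ) : ℂ) / N)) *
      Complex.exp (Real.pi * Complex.I * ((v ⬝ᵥ v : ℤ) : ℂ) * z / N)

/-- the function of the theta series `F (cY r P s) β` -/
def psi (r : ℕ) (P : Finset ℕ) (s β : ZMod 7) (v : V3) : ℤ :=
  if Ln n0 (s * β) v then om r v * Ph P v else 0

/-- PER: `psi` is periodic modulo `28 pr P` -/
def S_PER : Prop := ∀ (r : ℕ) (P : Finset ℕ) (s β : ZMod 7) (v w : V3), (r = 3 ∨ r = 5) → Pm P →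
  (∀ i, ((28 * pr P : ℕ) : ℤ) ∣ v i - w i) → psi r P s β v = psi r P s β w

/-- FTB: the Fourier transform of `psi` -/
def S_FTB : Prop := ∀ (r : ℕ) (P : Finset ℕ) (s : ZMod 7), (r = 3 ∨ r = 5) → Pm P →
  (K 1 (pr P) ∨ K 7 (pr P)) → s ^ 2 = (pr P : ZMod 7) → ∃ κ : ℂ, ∀ (β : ZMod 7) (w : V3),
  ∑ v : Fin 3 → Fin (28 * pr P), (psi r P s β (fun i => ((v i : ℕ) : ℤ)) : ℂ) *
      Complex.exp (2 * Real.pi * Complex.I * ((∑ i, ((v i : ℕ) : ℤ) * w i : ℤ) : ℂ) /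
        ((28 * pr P : ℕ) : ℂ)) =
    κ * ∑ β' : ZMod 7, z7 (-(2 * β * β')) * (psi r P s β' w : ℂ)

/-! ### the class number -/

/-- the Rédei symbols of the subset `D` -/
def gen (N D : Finset ℕ) (p : ℕ) : ℤ :=
  if p ∈ D then jacobiSym (pr (N \ D)) p else jacobiSym (pr D) p

/-- the Rédei kernel is trivial -/
def KerR (N : Finset ℕ) : Prop := ∀ D ⊆ N, ∀ e : ℕ, e < 2 → (pr N % 8 = 3 → e = 0) →
  (∀ p ∈ N, gen N D p * jacobiSym 2 p ^ e = 1) → e = 0 ∧ (D = ∅ ∨ D = N)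

/-- Hurwitz quaternions -/
def Hz (x : Quaternion ℚ) : Prop := ∃ a b c d : ℤ, x = ⟨a, b, c, d⟩ ∨
  x = ⟨a + 1 / 2, b + 1 / 2, c + 1 / 2, d + 1 / 2⟩

/-- a vector as a pure quaternion -/
def qv (v : V3) : Quaternion ℚ := ⟨0, v 0, v 1, v 2⟩

/-- HE: the Euclidean algorithm -/
def S_HE : Prop := ∀ a b : Quaternion ℚ, Hz a → Hz b → b ≠ 0 →
  ∃ q : Quaternion ℚ, Hz q ∧ Quaternion.normSq (a - q * b) < Quaternion.normSq b

/-- H1: the ambiguous ideals act -/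
def S_H1 : Prop := ∀ (n d : ℕ) (v : V3), Squarefree n → Odd n → v ⬝ᵥ v = (n : ℤ) → d ∣ n →
  ∃ (x : Quaternion ℚ) (w : V3), Hz x ∧ Quaternion.normSq x = d ∧ x * qv v = qv w * x

/-- H2: uniqueness -/
def S_H2 : Prop := ∀ (n d : ℕ) (v w w' : V3) (x x' : Quaternion ℚ), Squarefree n → Odd n →
  v ⬝ᵥ v = (n : ℤ) → d ∣ n → Hz x → Hz x' → Quaternion.normSq x = d → Quaternion.normSq x' = d →
  x * qv v = qv w * x → x' * qv v = qv w' * x' →
  (∃ y, Hz y ∧ x * qv v = (d : Quaternion ℚ) * y) ∧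
  ∃ u, Hz u ∧ Quaternion.normSq u = 1 ∧ x' = u * x

/-- H3: the change of the characters -/
def S_H3 : Prop := ∀ (N D : Finset ℕ) (v w : V3) (x : Quaternion ℚ), Pm N → D ⊆ N →
  v ⬝ᵥ v = (pr N : ℤ) → Hz x → Quaternion.normSq x = (pr D : ℚ) → x * qv v = qv w * x →
  ∀ p ∈ N, ph p (rd p w) = gen N D p * ph p (rd p v)

/-- H4: the number of orthogonal pairs of vectors -/
def S_H4 : Prop := ∀ (N D : Finset ℕ), Pm N → D ⊆ N →
  ((∀ p ∈ N, gen N D p = jacobiSym (-1) p) → cp (pr N : ℤ) 0 (pr D : ℤ) = 24 * 2 ^ N.card) ∧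
  ((∀ p ∈ N, gen N D p = jacobiSym (-2) p) → cp (pr N : ℤ) 0 (2 * pr D : ℤ) = 24 * 2 ^ N.card)

/-- RPAR: the parity of the class number and the Rédei kernel -/
def S_RPAR : Prop := ∀ N : Finset ℕ, Pm N → N ≠ {3} → (pr N % 8 = 3 ∨ pr N % 8 = 5) → ∀ T : ℤ,
  ((vec (pr N : ℤ)).card : ℤ) = 4 * 2 ^ N.card * T → (Odd T ↔ KerR N)

/-- RLIN: the Rédei kernel and the determinant -/
def S_RLIN : Prop := ∀ N : Finset ℕ, Pm N → (K 3 (pr N) ∨ K 5 (pr N)) →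
  (sA N).card = (sB N).card → (sI N).card + (sA N).card = 1 →
  (KerR N ↔ DD (fun p => hh (pr N % 8) p + gX p) N = 1)

theorem red_of (h1 : S_RPAR) (h2 : S_RLIN) : S_RED := by
  intro N hN hK hAB hI T hT
  have hK8 : pr N % 8 = 3 ∨ pr N % 8 = 5 := by
    rcases hK with h | h
    · exact Or.inl h.1
    · exact Or.inr h.1
  by_cases h3 : N = {3}
  · subst h3
    have hv : (vec ((pr {3} : ℕ) : ℤ)).card = 8 := by
      unfold Pool.Agent.Z700.pr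
      rw [Finset.prod_singleton]
      decide +kernel
    rw [hv] at hT
    have hT1 : T = 1 := by
      have : ({3} : Finset ℕ).card = 1 := rfl
      rw [this] at hT
      push_cast at hT
      omega
    subst hT1
    have hker : KerR {3} := by
      intro D hD e he he3 _
      refine ⟨he3 (by unfold Pool.Agent.Z700.pr; rw [Finset.prod_singleton]), ?_⟩
      exact Finset.subset_singleton_iff.1 hD
    rw [(h2 {3} hN hK hAB hI).1 hker]
    rfl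
  · have e1 := h1 N hN h3 hK8 T hT
    have e2 := h2 N hN hK hAB hI
    have hz : ∀ x : ZMod 2, x = 0 ∨ x = 1 := by decide
    by_cases hk : KerR N
    · rw [e2.1 hk]
      obtain ⟨t, ht⟩ := e1.2 hk
      rw [ht]
      push_cast
      have : (2 : ZMod 2) = 0 := by decide
      rw [this]
      ring
    · have hT0 : Even T := Int.not_odd_iff_even.1 fun h => hk (e1.1 h)
      obtain ⟨t, ht⟩ := hT0
      rcases hz (DD (fun p => hh (pr N % 8) p + gX p) N) with h | h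
      · rw [h, ht]
        push_cast
        have : ∀ x : ZMod 2, x + x = 0 := by decide
        exact this _
      · exact absurd (e2.2 h) hk

/-! ### forms of discriminant `-56` -/

/-- CL1: the forms representing a prime of type `S` -/
def S_CL1 : Prop := ∀ p : ℕ, p.Prime → sq2 p → sq7 p →
  (X2 p ∨ ∃ x y : ℕ, p = x ^ 2 + 14 * y ^ 2) ∧ ¬ (X2 p ∧ ∃ x y : ℕ, p = x ^ 2 + 14 * y ^ 2)

/-- CL2: the form `3 x² + 2 x y + 5 y²` -/
def S_CL2 : Prop := ∀ n : ℕ, Odd n → (n % 7 = 3 ∨ n % 7 = 5 ∨ n % 7 = 6) →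
  (∃ z : ℤ, (n : ℤ) ∣ z ^ 2 + 14) → ∃ v : V3, v ⬝ᵥ v = (n : ℤ) ∧ v 0 + 2 * v 1 + 3 * v 2 = 0

/-! ### descent -/

/-- QR: the class of `p` and the root `13 + 16 √2` -/
def S_QR : Prop := ∀ p : ℕ, p.Prime → sq2 p → sq7 p → ∀ w : ZMod p, w ^ 2 = 2 →
  (IsSquare (13 + 16 * w) ↔ ¬ X2 p)

end

end Pool.Agent.NH1
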