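import Mathlib
import Pool.Agent.NH1.Sub

/-!
# Project NH1: modular forms of level one given by their coefficients
-/

set_option autoImplicit false
set_option linter.all false

namespace Pool.Agent.NH1

namespace LV1

open UpperHalfPlane ModularForm MatrixGroups Complex Filter Topology SlashInvariantForm

theorem sumb (C : ℝ) (k : ℕ) {r : ℝ} (hr : 0 < r) (hr1 : r < 1) :
    Summable fun n : ℕ => C * ((n : ℝ) + 1) ^ k * r ^ n := by
  have h1 : Summable fun n : ℕ => ((n : ℝ)) ^ k * r ^ n :=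
    summable_pow_mul_geometric_of_norm_lt_one k (by rwa [Real.norm_of_nonneg hr.le])
  have h2 := (summable_nat_add_iff 1).2 h1
  have h3 := h2.mul_left (C * r⁻¹)
  refine h3.congr fun n => ?_
  push_cast
  rw [pow_succ]
  field_simp

/-- the power series -/
noncomputable def g (a : ℕ → ℂ) (q : ℂ) : ℂ := ∑' n : ℕ, a n * q ^ n

variable {a : ℕ → ℂ} {C k : ℕ}

theorem summ (ha : ∀ n, ‖a n‖ ≤ (C : ℝ) * ((n : ℝ) + 1) ^ k) {q : ℂ} (hq : ‖q‖ < 1) :
    Summable fun n : ℕ => a n * q ^ n := by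
  obtain ⟨r, hr1, hr2⟩ := exists_between hq
  have hr0 : 0 < r := (norm_nonneg q).trans_lt hr1
  refine Summable.of_norm_bounded (sumb (C : ℝ) k hr0 hr2) fun n => ?_
  rw [norm_mul, norm_pow]
  exact mul_le_mul (ha n) (pow_le_pow_left₀ (norm_nonneg q) hr1.le n) (by positivity)
    ((norm_nonneg _).trans (ha n))

theorem diff_g (ha : ∀ n, ‖a n‖ ≤ (C : ℝ) * ((n : ℝ) + 1) ^ k) {q : ℂ} (hq : ‖q‖ < 1) :
    DifferentiableAt ℂ (g a) q := by
  obtain ⟨r, hr1, hr2⟩ := exists_between hq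
  have hr0 : 0 < r := (norm_nonneg q).trans_lt hr1
  have h1 : DifferentiableOn ℂ (fun w : ℂ => ∑' n : ℕ, a n * w ^ n) (Metric.ball 0 r) := by
    refine differentiableOn_tsum_of_summable_norm (sumb (C : ℝ) k hr0 hr2) (fun n => ?_)
      Metric.isOpen_ball fun n w hw => ?_
    · exact (differentiable_id.pow n).const_mul (a n) |>.differentiableOn
    · rw [mem_ball_zero_iff] at hw
      rw [norm_mul, norm_pow]
      exact mul_le_mul (ha n) (pow_le_pow_left₀ (norm_nonneg w) hw.le n) (by positivity)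
        ((norm_nonneg _).trans (ha n))
  exact h1.differentiableAt (Metric.isOpen_ball.mem_nhds (by rwa [mem_ball_zero_iff]))

theorem exp_eq (n : ℕ) (z : ℂ) : Complex.exp (2 * Real.pi * Complex.I * n * z) =
    Complex.exp (2 * Real.pi * Complex.I * z) ^ n := by
  rw [← Complex.exp_nat_mul]
  congr 1
  ring

theorem norm_exp {z : ℂ} (hz : 0 < z.im) : ‖Complex.exp (2 * Real.pi * Complex.I * z)‖ < 1 := by
  rw [Complex.norm_exp, Real.exp_lt_one_iff]
  have : (2 * (Real.pi : ℂ) * Complex.I * z).re = -(2 * Real.pi * z.im) := by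
    simp [mul_assoc, Complex.mul_re]
  rw [this]
  have := Real.pi_pos
  have : 0 < 2 * Real.pi * z.im := by positivity
  linarith

/-- the function -/
noncomputable def f (a : ℕ → ℂ) (z : ℍ) : ℂ :=
  ∑' n : ℕ, a n * Complex.exp (2 * Real.pi * Complex.I * n * (z : ℂ))

theorem tsum_eq (a : ℕ → ℂ) (z : ℂ) :
    ∑' n : ℕ, a n * Complex.exp (2 * Real.pi * Complex.I * n * z) =
      g a (Complex.exp (2 * Real.pi * Complex.I * z)) := by
  unfold g
  exact tsum_congr fun n => by rw [exp_eq]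

theorem exp_add_one (n : ℕ) (z : ℂ) : Complex.exp (2 * Real.pi * Complex.I * n * (1 + z)) =
    Complex.exp (2 * Real.pi * Complex.I * n * z) := by
  rw [mul_add, mul_one, Complex.exp_add]
  have : 2 * (Real.pi : ℂ) * Complex.I * n = n * (2 * Real.pi * Complex.I) := by ring
  rw [this, Complex.exp_nat_mul_two_pi_mul_I, one_mul]

theorem f_T (a : ℕ → ℂ) (w : ℤ) : (f a ∣[w] ModularGroup.T) = f a := by
  ext z
  rw [SL_slash_apply, denom, modular_T_smul, ModularGroup.T]
  simp only [f]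
  simp [exp_add_one]

theorem f_S {a : ℕ → ℂ} {w : ℕ}
    (h : ∀ z : ℂ, 0 < z.im → ∑' n : ℕ, a n * Complex.exp (2 * Real.pi * Complex.I * n * (-1 / z)) =
    z ^ w * ∑' n : ℕ, a n * Complex.exp (2 * Real.pi * Complex.I * n * z)) :
    (f a ∣[(w : ℤ)] ModularGroup.S) = f a := by
  ext z
  rw [slash_S_apply]
  have h1 := h z z.im_pos
  have hz : (z : ℂ) ≠ 0 := z.ne_zero
  have e : ((UpperHalfPlane.mk _ z.im_inv_neg_coe_pos : ℍ) : ℂ) = -1 / (z : ℂ) := by
    show (-(z : ℂ))⁻¹ = _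
    rw [inv_neg, neg_div, one_div]
  unfold f
  rw [e, h1, zpow_neg, zpow_natCast, mul_comm, ← mul_assoc, inv_mul_cancel₀ (pow_ne_zero _ hz),
    one_mul]

theorem f_hasSum {a : ℕ → ℂ} {C k : ℕ} (ha : ∀ n, ‖a n‖ ≤ (C : ℝ) * ((n : ℝ) + 1) ^ k) (z : ℍ) :
    HasSum (fun m : ℕ => a m • Function.Periodic.qParam 1 z ^ m) (f a z) := by
  have h1 := (summ ha (norm_exp z.im_pos)).hasSum
  unfold f
  rw [tsum_eq]
  unfold g
  convert h1 using 3 with m
  rw [smul_eq_mul]
  congr 2
  unfold Function.Periodic.qParam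
  congr 1
  push_cast
  ring

theorem f_bdd {a : ℕ → ℂ} {C k : ℕ} (ha : ∀ n, ‖a n‖ ≤ (C : ℝ) * ((n : ℝ) + 1) ^ k) :
    IsBoundedAtImInfty (f a) :=
  isBoundedAtImInfty_of_hasSum_qExpansion one_pos (f_hasSum ha)

/-- the modular form -/
noncomputable def MF {a : ℕ → ℂ} {C k w : ℕ} (ha : ∀ n, ‖a n‖ ≤ (C : ℝ) * ((n : ℝ) + 1) ^ k)
    (h : ∀ z : ℂ, 0 < z.im → ∑' n : ℕ, a n * Complex.exp (2 * Real.pi * Complex.I * n * (-1 / z)) =
    z ^ w * ∑' n : ℕ, a n * Complex.exp (2 * Real.pi * Complex.I * n * z)) :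
    ModularForm 𝒮ℒ (w : ℤ) where
  toFun := f a
  slash_action_eq' A hA := by
    obtain ⟨A, rfl⟩ := hA
    exact slash_action_generators_SL2Z (f_S h) (f_T a _) A
  holo' := by
    rw [UpperHalfPlane.mdifferentiable_iff]
    have h1 : DifferentiableOn ℂ (fun z : ℂ => g a (Complex.exp (2 * Real.pi * Complex.I * z)))
        {z : ℂ | 0 < z.im} := by
      intro z hz
      refine DifferentiableAt.differentiableWithinAt ?_
      exact DifferentiableAt.comp (g := g a)
        (f := fun z : ℂ => Complex.exp (2 * Real.pi * Complex.I * z)) z (diff_g ha (norm_exp hz))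
        (by fun_prop)
    refine h1.congr fun z hz => ?_
    rw [Function.comp_apply, ofComplex_apply_of_im_pos hz]
    exact tsum_eq a z
  bdd_at_cusps' {c} hc := by
    rw [Subgroup.IsArithmetic.isCusp_iff_isCusp_SL2Z] at hc
    rw [OnePoint.isBoundedAt_iff_forall_SL2Z hc]
    intro γ _
    have h1 : f a ∣[(w : ℤ)] γ = f a := slash_action_generators_SL2Z (f_S h) (f_T a _) γ
    show IsBoundedAtImInfty (f a ∣[(w : ℤ)] γ)
    rw [h1]
    exact f_bdd ha

end LV1

open LV1 UpperHalfPlane ModularForm MatrixGroups in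
theorem t_LV1 : S_LV1 := by
  rintro w a hw ⟨C, k, ha⟩ h h0 n
  set F := MF ha h with hF
  have h1 : ∀ m, a m = (qExpansion 1 F).coeff m := fun m =>
    ModularFormClass.qExpansion_coeff_unique one_pos one_mem_strictPeriods_SL (f := F)
      (f_hasSum ha) m
  have h2 : F = 0 := by
    apply ModularForm.sturm_bound_levelOne_nat
    refine lt_of_lt_of_le ?_ (PowerSeries.nat_le_order _ (w / 12 + 1) fun i hi => ?_)
    · exact_mod_cast Nat.lt_succ_self _
    · rw [← h1 i]
      apply h0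
      omega
  rw [h1 n, h2]
  have h3 : ((0 : ModularForm 𝒮ℒ (w : ℤ)) : ℍ → ℂ) = 0 := rfl
  rw [h3, qExpansion_zero]
  simp

end Pool.Agent.NH1
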