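import Pool.Agent.NH1.OpsE

/-!
# Project NH1, job NH1-16: the operators on the classes of vectors
-/

set_option autoImplicit false

namespace Pool.Agent.NH1.Ops

open Finset Matrix
open Pool.Agent.Z700 (V3 vec pr cp Ln n0 ep X2)

/-! ### characters -/

theorem lz_int (p : ℕ) [NeZero p] (a : ℤ) : lz p (a : ZMod p) = jacobiSym a p := by
  unfold lz
  rw [ZMod.val_intCast, ← jacobiSym.mod_left]

/-- the characters of a class -/
noncomputable def chi {n : ℕ} (ω : Om n) (p : ℕ) : ℤ := ph p (rd p (rep ω).1)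

section

variable {N : Finset ℕ} (h0 : S_PHI) (hP : S_PROT) (h3 : S_H3) (hN : Pm N)

include h3 hN in
theorem chi_cl (v : VN (pr N)) {p : ℕ} (hp : p ∈ N) : chi (cl v) p = ph p (rd p v.1) := by
  unfold chi
  have hr : rel 1 v.1 (rep (cl v)).1 := (cl_eq _ _).1 (cl_rep (cl v)).symm
  obtain ⟨x, k1, k2, k3⟩ := hr
  have h4 := h3 N ∅ v.1 (rep (cl v)).1 x hN (Finset.empty_subset _) (mem_vec.1 v.2) k1
    (by rw [k2, pr_empty]) k3 p hp
  have h5 : gen N ∅ p = 1 := by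
    unfold gen
    rw [if_neg (Finset.notMem_empty _), pr_empty, Nat.cast_one, jacobiSym.one_left]
  rw [h4, h5, one_mul]

include h3 hN in
theorem chi_TT (h1 : S_H1) (h2 : S_H2) (ho : Odd (pr N)) {D : Finset ℕ} (hD : D ⊆ N)
    (ω : Om (pr N)) {p : ℕ} (hp : p ∈ N) :
    chi (TT (pr N) (pr D) ω) p = gen N D p * chi ω p := by
  obtain ⟨v, rfl⟩ := cl_surj ω
  have hn := pr_squarefree fun p hp => (hN p hp).1
  obtain ⟨w, hw, x, k1, k2, k3⟩ := TT_eq h1 h2 hn ho (pr_dvd hD) v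
  rw [hw, chi_cl h3 hN w hp, chi_cl h3 hN v hp]
  exact h3 N D v.1 w.1 x hN hD (mem_vec.1 v.2) k1 k2 k3 p hp

include h0 hP h3 hN in
theorem chi_Rh (ω : Om (pr N)) {p : ℕ} (hp : p ∈ N) :
    chi (Rh ω) p = jacobiSym 2 p * chi ω p := by
  obtain ⟨v, rfl⟩ := cl_surj ω
  obtain ⟨hp1, hp2, -⟩ := hN p hp
  have : NeZero p := ⟨hp1.ne_zero⟩
  rw [Rh_cl, chi_cl h3 hN _ hp, chi_cl h3 hN _ hp]
  have h4 := (hP p hp1 hp2 (ph p) (ph_spec h0 hp1 hp2) (rd p v.1)).2.2.1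
  have h5 : (![rd p v.1 0, -rd p v.1 2, rd p v.1 1] : Fin 3 → ZMod p) = rd p (rvn v).1 := by
    funext i
    fin_cases i
    · rfl
    · change -((v.1 2 : ℤ) : ZMod p) = ((-v.1 2 : ℤ) : ZMod p)
      push_cast
      rfl
    · rfl
  have h6 : lz p 2 = jacobiSym 2 p := by
    rw [← lz_int p 2]
    push_cast
    rfl
  rw [h5, h6] at h4
  exact h4

include h0 hP h3 hN in
theorem chi_Nu (ω : Om (pr N)) {p : ℕ} (hp : p ∈ N) :
    chi (Nu ω) p = jacobiSym (-1) p * chi ω p := by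
  obtain ⟨v, rfl⟩ := cl_surj ω
  obtain ⟨hp1, hp2, -⟩ := hN p hp
  have : NeZero p := ⟨hp1.ne_zero⟩
  rw [Nu_cl, chi_cl h3 hN _ hp, chi_cl h3 hN _ hp]
  have h4 := (hP p hp1 hp2 (ph p) (ph_spec h0 hp1 hp2) (rd p v.1)).2.2.2.1
  have h5 : (-rd p v.1 : Fin 3 → ZMod p) = rd p (ngn v).1 := by
    funext i
    change -((v.1 i : ℤ) : ZMod p) = ((-v.1 i : ℤ) : ZMod p)
    push_cast
    rfl
  have h6 : lz p (-1) = jacobiSym (-1) p := by
    rw [← lz_int p (-1)]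
    push_cast
    rfl
  rw [h5, h6] at h4
  exact h4

include h0 h3 hN in
theorem chi_pm (ω : Om (pr N)) {p : ℕ} (hp : p ∈ N) : chi ω p = 1 ∨ chi ω p = -1 := by
  obtain ⟨v, rfl⟩ := cl_surj ω
  rw [chi_cl h3 hN _ hp]
  exact ph_pm h0 (fun p hp => ⟨(hN p hp).1, (hN p hp).2.1⟩) (mem_vec.1 v.2) hp

end

end Pool.Agent.NH1.Ops

namespace Pool.Agent.NH1

open Finset Matrix Ops
open Pool.Agent.Z700 (V3 vec pr cp Ln n0 ep X2)

theorem t_OPS (h0 : S_PHI) (h1 : S_PROT) (he : S_EQU) (h2 : S_HE) (h3 : S_H1) (h4 : S_H2)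
    (h5 : S_H3) (h6 : S_H4) : S_OPS := by
  classical
  intro N hN hN3 h8 T0 hT0
  have hprime : ∀ p ∈ N, p.Prime := fun p hp => (hN p hp).1
  have hn : Squarefree (pr N) := pr_squarefree hprime
  have ho : Odd (pr N) := by
    rw [Nat.odd_iff]
    omega
  have hn3 : pr N ≠ 3 := fun h => hN3 (pr_three hprime h)
  have hn0 : pr N ≠ 0 := hn.ne_zero
  refine ⟨Om (pr N), Fintype.ofFinite _, Classical.decEq _, fun D => TT (pr N) (pr D), Rh, Nu,
    chi, ?_, ?_, ?_, ?_, ?_, ?_, ?_, ?_, ?_, ?_⟩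
  · intro ω
    dsimp only
    rw [pr_empty]
    exact TT_one h3 h4 hn ho ω
  · intro D hD D' hD' ω
    dsimp only
    have e1 : pr D = pr (D \ D') * pr (D ∩ D') := by
      rw [← pr_union (Finset.disjoint_sdiff_inter D D'), Finset.sdiff_union_inter]
    have e2 : pr D' = pr (D ∩ D') * pr (D' \ D) := by
      rw [mul_comm, Finset.inter_comm, ← pr_union (Finset.disjoint_sdiff_inter D' D),
        Finset.sdiff_union_inter]
    have e3 : pr (symmDiff D D') = pr (D \ D') * pr (D' \ D) := by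
      rw [← pr_union disjoint_sdiff_sdiff]
      rfl
    have d1 : pr D ∣ pr N := pr_dvd hD
    have d2 : pr D' ∣ pr N := pr_dvd hD'
    have d3 : pr (symmDiff D D') ∣ pr N := by
      apply pr_dvd
      intro p hp
      rw [Finset.mem_symmDiff] at hp
      rcases hp with h | h
      · exact hD h.1
      · exact hD' h.1
    have d4 : pr (D ∩ D') ∣ pr N := pr_dvd (Finset.inter_subset_left.trans hD)
    rw [e3, e1, e2, ← TT_mul h3 h4 hn ho (d := pr (D \ D')) (d' := pr (D ∩ D')) (by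
      rw [← e1]; exact d1), ← TT_mul h3 h4 hn ho (d := pr (D ∩ D')) (d' := pr (D' \ D)) (by
      rw [← e2]; exact d2), TT_TT h3 h4 hn ho d4, TT_mul h3 h4 hn ho (by rw [← e3]; exact d3)]
  · exact fun ω => ⟨Rh_Rh ω, Nu_Nu ω, Rh_Nu ω⟩
  · exact fun D hD ω => ⟨TT_Rh h3 h4 hn ho (pr_dvd hD) ω, TT_Nu h3 h4 hn ho (pr_dvd hD) ω⟩
  · exact fun D hD p hp ω => chi_TT h5 hN h3 h4 ho hD ω hp
  · exact fun p hp ω => ⟨chi_Rh h0 h1 h5 hN ω hp, chi_Nu h0 h1 h5 hN ω hp, chi_pm h0 h5 hN ω hp⟩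
  · intro γ hγ
    have e1 := he N (fun p hp => ⟨(hN p hp).1, (hN p hp).2.1⟩) γ hγ
    have e2 : Rt N γ = 12 * Nat.card {ω : Om (pr N) // ∀ p ∈ N, chi ω p = γ p} := by
      rw [← card_om' h4 hn h8 hn3 (fun ω => ∀ p ∈ N, chi ω p = γ p)
        (fun v => ∀ p ∈ N, ph p (rd p v) = γ p)]
      · unfold Rt
        congr!
      · intro v
        refine forall_congr' fun p => forall_congr' fun hp => ?_
        rw [chi_cl h5 hN v hp]
    have e3 : ((2 : ℤ) ^ N.card) * (12 * (Nat.card {ω : Om (pr N) // ∀ p ∈ N, chi ω p = γ p} : ℤ))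
        = 4 * 2 ^ N.card * T0 := by
      rw [← hT0, ← e1, e2]
      push_cast
      ring
    have e4 : (2 : ℤ) ^ N.card ≠ 0 := by positivity
    have e5 : 12 * (Nat.card {ω : Om (pr N) // ∀ p ∈ N, chi ω p = γ p} : ℤ) = 4 * T0 := by
      apply mul_left_cancel₀ e4
      linarith
    linarith
  · intro D hD e he2 he3 hne ω hfix
    obtain ⟨v, rfl⟩ := cl_surj ω
    dsimp only at hfix
    rcases (show e = 0 ∨ e = 1 by omega) with h | h
    · subst h
      rw [Function.iterate_zero, id_eq, TT_spec h3 h4 hn ho (pr_dvd hD)] at hfix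
      exact hne ⟨rfl, no_fix hprime h8 hn3 hD (mem_vec.1 v.2) hfix⟩
    · subst h
      have h85 : pr N % 8 = 5 := by
        rcases h8 with h | h
        · exact absurd (he3 h) one_ne_zero
        · exact h
      rw [Function.iterate_one, Rh_cl, TT_spec h3 h4 hn ho (pr_dvd hD)] at hfix
      exact no_fix_two hprime h85 hD (mem_vec.1 v.2) (rel_trans (rel_two v.1) hfix)
  · intro D hD h85 hgen
    have e1 := (h6 N D hN hD).1 hgen
    have hd0 : pr D ≠ 0 := dvd_ne hn (pr_dvd hD)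
    rw [show ((0 : ℤ)) = 0 from rfl, cp_eq (pr N) (pr D) hd0
      (fun v => ∃ y ∈ vec (pr D : ℤ), v ⬝ᵥ y = 0) (fun v _ => Iff.rfl)
      (fun v hv y hy y' hy' k k' =>
        uniq_neg h4 hn h8 hn3 (mem_vec.1 hv) (pr_dvd hD) hy hy' k k')] at e1
    rw [card_om' h4 hn h8 hn3 (fun ω => Nu (TT (pr N) (pr D) ω) = ω)] at e1
    · dsimp only
      omega
    · intro v
      rw [← rel_neg_iff hn0 (mem_vec.1 v.2)]
      have e2 : rel (pr D) v.1 (-v.1) ↔ TT (pr N) (pr D) (cl v) = cl (ngn v) :=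
        (TT_spec h3 h4 hn ho (pr_dvd hD) v (ngn v)).symm
      rw [e2, ← Nu_cl]
      constructor
      · intro h
        rw [← h, Nu_Nu, h]
      · intro h
        rw [h, Nu_Nu]
  · intro D hD hgen
    have e1 := (h6 N D hN hD).2 hgen
    have hd0 : pr D ≠ 0 := dvd_ne hn (pr_dvd hD)
    rw [show (2 * (pr D : ℤ)) = ((2 * pr D : ℕ) : ℤ) by push_cast; rfl,
      cp_eq (pr N) (2 * pr D) (by omega)
      (fun v => ∃ y ∈ vec ((2 * pr D : ℕ) : ℤ), v ⬝ᵥ y = 0) (fun v _ => Iff.rfl)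
      (fun v hv y hy y' hy' k k' =>
        uniq_rv h4 hn h8 hn3 (mem_vec.1 hv) (pr_dvd hD) hy hy' k k')] at e1
    rw [card_om' h4 hn h8 hn3 (fun ω => Nu (Rh (TT (pr N) (pr D) ω)) = ω)] at e1
    · dsimp only
      omega
    · intro v
      rw [← rel_rv_iff hn0 (mem_vec.1 v.2)]
      have e2 : rel (pr D) v.1 (rv (-v.1)) ↔ TT (pr N) (pr D) (cl v) = cl (rvn (ngn v)) :=
        (TT_spec h3 h4 hn ho (pr_dvd hD) v (rvn (ngn v))).symm
      rw [e2, ← Rh_cl, ← Nu_cl]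
      constructor
      · intro h
        rw [← h, Nu_Nu, Rh_Rh, h]
      · intro h
        rw [h, Rh_Rh, Nu_Nu]

end Pool.Agent.NH1
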