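import Pool.Agent.NH1.Sub

/-!
# The product formula for the characters of isotropic vectors
-/

set_option autoImplicit false

namespace Pool.Agent.NH1.PP

open Finset Matrix
open Pool.Agent.Z700 (V3 vec pr Ln n0 ep X2)

lemma dot3 {R : Type} [CommRing R] (v w : Fin 3 → R) :
    v ⬝ᵥ w = v 0 * w 0 + v 1 * w 1 + v 2 * w 2 := by
  simp [dotProduct, Fin.sum_univ_three]

lemma rd_dot (p : ℕ) (v w : V3) : rd p v ⬝ᵥ rd p w = ((v ⬝ᵥ w : ℤ) : ZMod p) := by
  rw [dot3, dot3]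
  unfold rd
  push_cast
  ring

/-! ### linear algebra -/

section field

variable {F : Type} [Field F]

lemma par (a b : Fin 3 → F) (ha : a ≠ 0) (h01 : a 0 * b 1 = a 1 * b 0)
    (h02 : a 0 * b 2 = a 2 * b 0) (h12 : a 1 * b 2 = a 2 * b 1) : ∃ t, ∀ i, b i = t * a i := by
  have hex : ∃ i, a i ≠ 0 := by
    by_contra h
    push Not at h
    exact ha (funext h)
  obtain ⟨i, hi⟩ := hex
  refine ⟨b i / a i, fun j => ?_⟩
  rw [div_mul_eq_mul_div, eq_div_iff hi]
  fin_cases i <;> fin_cases j <;> simp only [Fin.zero_eta, Fin.mk_one, Fin.reduceFinMk] <;>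
    first
    | ring1
    | linear_combination h01
    | linear_combination h02
    | linear_combination h12
    | linear_combination -h01
    | linear_combination -h02
    | linear_combination -h12

/-- if `b` is orthogonal to the isotropic vector `a` then `-|b|²` is a square -/
lemma lemQ (a b : Fin 3 → F) (ha : a ≠ 0) (haa : a ⬝ᵥ a = 0) (hab : a ⬝ᵥ b = 0) :
    ∃ t, t ^ 2 = -(b ⬝ᵥ b) := by
  rw [dot3] at haa hab
  set m : Fin 3 → F := ![b 1 * a 2 - b 2 * a 1, b 2 * a 0 - b 0 * a 2, b 0 * a 1 - b 1 * a 0]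
    with hm
  have m0 : m 0 = b 1 * a 2 - b 2 * a 1 := rfl
  have m1 : m 1 = b 2 * a 0 - b 0 * a 2 := rfl
  have m2 : m 2 = b 0 * a 1 - b 1 * a 0 := rfl
  obtain ⟨t, ht⟩ := par a m ha (by rw [m0, m1]; linear_combination b 2 * haa - a 2 * hab)
    (by rw [m0, m2]; linear_combination -b 1 * haa + a 1 * hab)
    (by rw [m1, m2]; linear_combination b 0 * haa - a 0 * hab)
  have h0 := ht 0
  have h1 := ht 1
  have h2 := ht 2
  rw [m0] at h0
  rw [m1] at h1
  rw [m2] at h2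
  have hex : ∃ i, a i ≠ 0 := by
    by_contra h
    push Not at h
    exact ha (funext h)
  obtain ⟨i, hi⟩ := hex
  refine ⟨t, ?_⟩
  rw [dot3]
  have key : ∀ i, a i * t ^ 2 = a i * -(b 0 * b 0 + b 1 * b 1 + b 2 * b 2) := by
    intro i
    fin_cases i <;> simp only [Fin.zero_eta, Fin.mk_one, Fin.reduceFinMk]
    · linear_combination b 0 * hab + b 2 * h1 - b 1 * h2 - t * h0
    · linear_combination b 1 * hab + b 0 * h2 - b 2 * h0 - t * h1
    · linear_combination b 2 * hab + b 1 * h0 - b 0 * h1 - t * h2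
  exact mul_left_cancel₀ hi (key i)

/-- orthogonal isotropic vectors are proportional -/
lemma prop_iso (a b : Fin 3 → F) (ha : a ≠ 0) (haa : a ⬝ᵥ a = 0) (hbb : b ⬝ᵥ b = 0)
    (hab : a ⬝ᵥ b = 0) : ∃ t, ∀ i, b i = t * a i := by
  rw [dot3] at haa hbb hab
  set m : Fin 3 → F := ![b 1 * a 2 - b 2 * a 1, b 2 * a 0 - b 0 * a 2, b 0 * a 1 - b 1 * a 0]
    with hm
  have m0 : m 0 = b 1 * a 2 - b 2 * a 1 := rfl
  have m1 : m 1 = b 2 * a 0 - b 0 * a 2 := rfl
  have m2 : m 2 = b 0 * a 1 - b 1 * a 0 := rfl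
  obtain ⟨t, ht⟩ := par a m ha (by rw [m0, m1]; linear_combination b 2 * haa - a 2 * hab)
    (by rw [m0, m2]; linear_combination -b 1 * haa + a 1 * hab)
    (by rw [m1, m2]; linear_combination b 0 * haa - a 0 * hab)
  have h0 := ht 0
  have h1 := ht 1
  have h2 := ht 2
  rw [m0] at h0
  rw [m1] at h1
  rw [m2] at h2
  have hex : ∃ i, a i ≠ 0 := by
    by_contra h
    push Not at h
    exact ha (funext h)
  obtain ⟨i, hi⟩ := hex
  have key : ∀ i, a i * t ^ 2 = a i * -(b 0 * b 0 + b 1 * b 1 + b 2 * b 2) := by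
    intro i
    fin_cases i <;> simp only [Fin.zero_eta, Fin.mk_one, Fin.reduceFinMk]
    · linear_combination b 0 * hab + b 2 * h1 - b 1 * h2 - t * h0
    · linear_combination b 1 * hab + b 0 * h2 - b 2 * h0 - t * h1
    · linear_combination b 2 * hab + b 1 * h0 - b 0 * h1 - t * h2
  have ht2 : t ^ 2 = 0 := by
    have := mul_left_cancel₀ hi (key i)
    rw [this, hbb, neg_zero]
  have ht0 : t = 0 := by
    rcases pow_eq_zero_iff (two_ne_zero) |>.1 ht2 with h
    exact h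
  rw [ht0, zero_mul] at h0 h1 h2
  exact par a b ha (by linear_combination -h2) (by linear_combination h1)
    (by linear_combination -h0)

end field

/-! ### symbols -/

lemma lz_int (p : ℕ) [NeZero p] (x : ℤ) : lz p ((x : ℤ) : ZMod p) = jacobiSym x p := by
  unfold lz
  rw [ZMod.val_intCast, ← jacobiSym.mod_left]

lemma jac_congr {p : ℕ} {x y : ℤ} (h : (p : ℤ) ∣ x - y) : jacobiSym x p = jacobiSym y p := by
  exact jacobiSym.mod_left' (Int.modEq_iff_dvd.2 h).symm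

lemma gcd_of_not_dvd {p : ℕ} (hp : p.Prime) {x : ℤ} (h : ¬ (p : ℤ) ∣ x) : x.gcd p = 1 := by
  rw [Int.gcd_comm]
  exact Int.isCoprime_iff_gcd_eq_one.1 ((Nat.prime_iff_prime_int.1 hp).coprime_iff_not_dvd.2 h)

lemma jac_pm {p : ℕ} (hp : p.Prime) {x : ℤ} (h : ¬ (p : ℤ) ∣ x) :
    jacobiSym x p = 1 ∨ jacobiSym x p = -1 :=
  jacobiSym.eq_one_or_neg_one (gcd_of_not_dvd hp h)

lemma jac_sq {p : ℕ} (hp : p.Prime) {x : ℤ} (h : ¬ (p : ℤ) ∣ x) : jacobiSym (x ^ 2) p = 1 :=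
  jacobiSym.sq_one' (gcd_of_not_dvd hp h)

/-- the symbol of a nonzero square -/
lemma jac_of_sq {p : ℕ} (hp : p.Prime) {x : ℤ} (h : ¬ (p : ℤ) ∣ x) {t : ZMod p}
    (ht : t ^ 2 = (x : ZMod p)) : jacobiSym x p = 1 := by
  have : NeZero p := ⟨hp.ne_zero⟩
  have h1 : ((t.val : ℤ) : ZMod p) = t := by
    rw [Int.cast_natCast, ZMod.natCast_zmod_val]
  have h2 : (p : ℤ) ∣ x - (t.val : ℤ) ^ 2 := by
    rw [← ZMod.intCast_zmod_eq_zero_iff_dvd]
    push_cast
    rw [← Int.cast_natCast (t.val), h1, ht, sub_self]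
  rw [jac_congr h2]
  refine jac_sq hp fun h3 => h ?_
  have h4 : (p : ℤ) ∣ (t.val : ℤ) ^ 2 := h3.pow (by norm_num)
  have := dvd_add h2 h4
  rwa [sub_add_cancel] at this

/-! ### the local computation -/

lemma lift_z {p : ℕ} [NeZero p] (t : ZMod p) : ((t.val : ℤ) : ZMod p) = t := by
  rw [Int.cast_natCast, ZMod.natCast_zmod_val]

/-- the character of a nonzero multiple -/
lemma f_mult {p : ℕ} [NeZero p] {f : (Fin 3 → ZMod p) → ℤ} (hf : IsPhi p f) {v w : V3} {L : ℤ}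
    (hL : ¬ (p : ℤ) ∣ L) (h : ∀ i, (p : ℤ) ∣ w i - L * v i) :
    f (rd p w) = jacobiSym L p * f (rd p v) := by
  have h1 : rd p w = (L : ZMod p) • rd p v := by
    funext i
    have h2 := (ZMod.intCast_zmod_eq_zero_iff_dvd _ p).2 (h i)
    push_cast at h2
    simp only [rd, Pi.smul_apply, smul_eq_mul]
    linear_combination h2
  have h0 : (L : ZMod p) ≠ 0 := fun h2 => hL ((ZMod.intCast_zmod_eq_zero_iff_dvd _ p).1 h2)
  rw [h1, hf.smul _ _ h0, lz_int]

lemma loc_main {p : ℕ} (hp : p.Prime) (h2 : p ≠ 2) {f : (Fin 3 → ZMod p) → ℤ} (hf : IsPhi p f)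
    {v w u : V3} {c q n : ℤ} (hv : v ⬝ᵥ v = n) (hw : w ⬝ᵥ w = n) (hu : ∀ i, v i + w i = c * u i)
    (hq : u ⬝ᵥ u = q) (hc : c ≠ 0) (hpn : (p : ℤ) ∣ n) (hpn2 : ¬ (p : ℤ) ^ 2 ∣ n)
    (hu0 : ∃ i, ¬ (p : ℤ) ∣ u i) :
    (¬ (p : ℤ) ∣ q → f (rd p v) * f (rd p w) = jacobiSym q p) ∧
    ((p : ℤ) ∣ q → ¬ (p : ℤ) ^ 2 ∣ q ∧
      f (rd p v) * f (rd p w) = jacobiSym (q / p * (n / p)) p) := by
  have : NeZero p := ⟨hp.ne_zero⟩
  have : Fact p.Prime := ⟨hp⟩
  have hpi : Prime (p : ℤ) := Nat.prime_iff_prime_int.1 hp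
  have hp0 : (p : ℤ) ≠ 0 := hpi.ne_zero
  have hp2 : ¬ (p : ℤ) ∣ 2 := by
    intro h
    have h3 : p ∣ 2 := by exact_mod_cast h
    exact h2 ((Nat.prime_dvd_prime_iff_eq hp Nat.prime_two).1 h3)
  have hp1 : ¬ (p : ℤ) ∣ -1 := by
    intro h
    rw [dvd_neg] at h
    exact hpi.not_dvd_one h
  -- integral identities
  have hv' := hv
  have hw' := hw
  have hq' := hq
  rw [dot3] at hv' hw' hq'
  have u0 := hu 0
  have u1 := hu 1
  have u2 := hu 2
  have w0 : w 0 = c * u 0 - v 0 := by linear_combination u0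
  have w1 : w 1 = c * u 1 - v 1 := by linear_combination u1
  have w2 : w 2 = c * u 2 - v 2 := by linear_combination u2
  set vu : ℤ := v 0 * u 0 + v 1 * u 1 + v 2 * u 2 with hvu
  have e1 : 2 * vu = c * q := by
    have h3 : c * (2 * vu) = c * (c * q) := by
      rw [w0, w1, w2] at hw'
      rw [hvu]
      linear_combination hv' - hw' + c ^ 2 * hq'
    exact mul_left_cancel₀ hc h3
  set vw : ℤ := v 0 * w 0 + v 1 * w 1 + v 2 * w 2 with hvw
  have e2 : 2 * n + 2 * vw = c ^ 2 * q := by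
    rw [hvw, w0, w1, w2]
    linear_combination c * e1 - 2 * hv'
  have e3 : v ⬝ᵥ w = vw := by rw [dot3]
  -- reductions
  have hz : ∀ x : ℤ, ((x : ℤ) : ZMod p) = 0 ↔ (p : ℤ) ∣ x :=
    fun x => ZMod.intCast_zmod_eq_zero_iff_dvd x p
  have rv : rd p v ⬝ᵥ rd p v = 0 := by rw [rd_dot, hv, hz]; exact hpn
  have rw' : rd p w ⬝ᵥ rd p w = 0 := by rw [rd_dot, hw, hz]; exact hpn
  have rne : ∀ x : V3, x ⬝ᵥ x = n → rd p x ≠ 0 := by
    intro x hx h0
    apply hpn2
    have h3 : ∀ i, (p : ℤ) ∣ x i := fun i => (hz _).1 (congrFun h0 i)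
    obtain ⟨a, ha⟩ := h3 0
    obtain ⟨b, hb⟩ := h3 1
    obtain ⟨d, hd⟩ := h3 2
    rw [dot3, ha, hb, hd] at hx
    exact ⟨a ^ 2 + b ^ 2 + d ^ 2, by rw [← hx]; ring⟩
  have hvne := rne v hv
  have hwne := rne w hw
  have rune : rd p u ≠ 0 := by
    intro h0
    obtain ⟨i, hi⟩ := hu0
    exact hi ((hz _).1 (congrFun h0 i))
  have hfv : f (rd p v) * f (rd p v) = 1 := by
    rcases hf.pm _ rv hvne with h | h <;> rw [h] <;> norm_num
  -- the case of an opposite vector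
  have hopp : (p : ℤ) ∣ c → f (rd p v) * f (rd p w) = jacobiSym (-1) p := by
    intro h
    have h3 : ∀ i, (p : ℤ) ∣ w i - (-1) * v i := by
      intro i
      have h4 : w i - (-1) * v i = c * u i := by linear_combination hu i
      rw [h4]
      exact Dvd.dvd.mul_right h _
    rw [f_mult hf hp1 h3]
    linear_combination jacobiSym (-1) p * hfv
  constructor
  · intro hpq
    by_cases hpc : (p : ℤ) ∣ c
    · rw [hopp hpc]
      have h3 : rd p v ⬝ᵥ rd p u = 0 := by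
        rw [rd_dot, hz, dot3]
        have h4 : (p : ℤ) ∣ 2 * vu := by rw [e1]; exact Dvd.dvd.mul_right hpc _
        exact (hpi.dvd_or_dvd h4).resolve_left hp2
      obtain ⟨t, ht⟩ := lemQ _ _ hvne rv h3
      rw [rd_dot, hq] at ht
      have h5 : ¬ (p : ℤ) ∣ -q := by rwa [dvd_neg]
      have h6 := jac_of_sq hp h5 (t := t) (by push_cast; exact ht)
      have h7 : jacobiSym (-q) p = jacobiSym (-1) p * jacobiSym q p := by
        rw [← jacobiSym.mul_left]
        congr 1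
        ring
      rw [h7] at h6
      rcases jac_pm hp hp1 with h | h <;> rcases jac_pm hp hpq with h' | h' <;>
        rw [h, h'] at h6 ⊢ <;> norm_num at h6
    · have h3 : ¬ (p : ℤ) ∣ vw := by
        intro h4
        have h5 : (p : ℤ) ∣ c ^ 2 * q := by
          rw [← e2]
          exact dvd_add (Dvd.dvd.mul_left hpn _) (Dvd.dvd.mul_left h4 _)
        rcases hpi.dvd_or_dvd h5 with h6 | h6
        · exact hpc (hpi.dvd_of_dvd_pow h6)
        · exact hpq h6
      have h4 : rd p v ⬝ᵥ rd p w ≠ 0 := by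
        rw [rd_dot, e3, Ne, hz]
        exact h3
      rw [hf.mul _ _ rv rw' h4, rd_dot, e3]
      have h5 : (2 * ((vw : ℤ) : ZMod p)) = ((2 * vw : ℤ) : ZMod p) := by push_cast; ring
      rw [h5, lz_int]
      have h6 : (p : ℤ) ∣ 2 * vw - c ^ 2 * q := by
        have : 2 * vw - c ^ 2 * q = -(2 * n) := by linear_combination e2
        rw [this, dvd_neg]
        exact Dvd.dvd.mul_left hpn _
      rw [jac_congr h6, jacobiSym.mul_left, jac_sq hp hpc, one_mul]
  · rintro ⟨q', hq2⟩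
    obtain ⟨n', hn2⟩ := hpn
    have hn' : ¬ (p : ℤ) ∣ n' := by
      rintro ⟨a, ha⟩
      exact hpn2 ⟨a, by rw [hn2, ha]; ring⟩
    have eq1 : q / p = q' := by rw [hq2, Int.mul_ediv_cancel_left _ hp0]
    have en1 : n / p = n' := by rw [hn2, Int.mul_ediv_cancel_left _ hp0]
    rw [eq1, en1]
    -- it is enough to find a relation
    suffices H : ∃ A B : ℤ, ¬ (p : ℤ) ∣ A ∧ ¬ (p : ℤ) ∣ B ∧
        (∃ C : ℤ, ¬ (p : ℤ) ∣ C ∧ (p : ℤ) ∣ A * C ^ 2 * q' - n' * B ^ 2) ∧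
        f (rd p v) * f (rd p w) = jacobiSym A p by
      obtain ⟨A, B, hA, hB, ⟨C, hC, hrel⟩, hff⟩ := H
      have hr2 : ¬ (p : ℤ) ∣ n' * B ^ 2 := by
        intro h
        rcases hpi.dvd_or_dvd h with h | h
        · exact hn' h
        · exact hB (hpi.dvd_of_dvd_pow h)
      have hq3 : ¬ (p : ℤ) ∣ q' := by
        intro h
        apply hr2
        have h3 : n' * B ^ 2 = A * C ^ 2 * q' - (A * C ^ 2 * q' - n' * B ^ 2) := by ring
        rw [h3]
        exact dvd_sub (Dvd.dvd.mul_left h _) hrel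
      refine ⟨?_, ?_⟩
      · rintro ⟨a, ha⟩
        apply hq3
        refine ⟨a, ?_⟩
        have : (p : ℤ) * q' = p * (p * a) := by rw [← hq2, ha]; ring
        exact mul_left_cancel₀ hp0 this
      · rw [hff]
        have h3 := jac_congr hrel
        rw [jacobiSym.mul_left, jacobiSym.mul_left, jacobiSym.mul_left, jac_sq hp hC, jac_sq hp hB,
          mul_one, mul_one] at h3
        rw [jacobiSym.mul_left]
        rcases jac_pm hp hA with h | h <;> rcases jac_pm hp hq3 with h' | h' <;>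
          rcases jac_pm hp hn' with h'' | h'' <;> rw [h, h', h''] at h3 <;> rw [h, h', h''] <;>
          omega
    by_cases hpc : (p : ℤ) ∣ c
    · obtain ⟨c', hc'⟩ := hpc
      have hru : rd p u ⬝ᵥ rd p u = 0 := by
        rw [rd_dot, hq, hz]
        exact ⟨q', hq2⟩
      have h3 : rd p v ⬝ᵥ rd p u = 0 := by
        rw [rd_dot, hz, dot3]
        have h4 : (p : ℤ) ∣ 2 * vu := by
          rw [e1, hc', mul_assoc]
          exact Dvd.intro _ rfl
        exact (hpi.dvd_or_dvd h4).resolve_left hp2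
      obtain ⟨t, ht⟩ := prop_iso _ _ hvne rv hru h3
      set M : ℤ := (t.val : ℤ) with hM
      have hMt : ((M : ℤ) : ZMod p) = t := lift_z t
      have hM0 : ¬ (p : ℤ) ∣ M := by
        intro h4
        apply rune
        funext i
        rw [ht i, ← hMt, (hz M).2 h4, zero_mul]
        rfl
      have hy : ∀ i, (p : ℤ) ∣ u i - M * v i := by
        intro i
        rw [← hz]
        push_cast
        have := ht i
        simp only [rd] at this
        rw [this, hMt]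
        ring
      choose y hy using hy
      refine ⟨-1, M, hp1, hM0, ⟨1, by rw [Int.natCast_dvd]; simpa using hp.one_lt.ne', ?_⟩,
        hopp ⟨c', hc'⟩⟩
      have y0 := hy 0
      have y1 := hy 1
      have y2 := hy 2
      -- `q' = - M² n' + p (...)`
      have e4 : 2 * (-1 * 1 ^ 2 * q' - n' * M ^ 2) * p =
          p * (-2 * M * c' * q' * p - 2 * p * (y 0 ^ 2 + y 1 ^ 2 + y 2 ^ 2)) := by
        have k1 : q = (M * v 0 + p * y 0) ^ 2 + (M * v 1 + p * y 1) ^ 2 +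
            (M * v 2 + p * y 2) ^ 2 := by
          rw [← hq']
          have a0 : u 0 = M * v 0 + p * y 0 := by linear_combination y0
          have a1 : u 1 = M * v 1 + p * y 1 := by linear_combination y1
          have a2 : u 2 = M * v 2 + p * y 2 := by linear_combination y2
          rw [a0, a1, a2]
          ring
        have k2 : vu = M * n + p * (v 0 * y 0 + v 1 * y 1 + v 2 * y 2) := by
          rw [hvu]
          linear_combination v 0 * y0 + v 1 * y1 + v 2 * y2 + M * hv'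
        have k3 : q = -M ^ 2 * n + 2 * M * vu + p ^ 2 * (y 0 ^ 2 + y 1 ^ 2 + y 2 ^ 2) := by
          rw [k1, k2]
          linear_combination M ^ 2 * hv'
        have k4 : 2 * M * vu = M * (p * c') * (p * q') := by
          rw [← hc', ← hq2]
          linear_combination M * e1
        rw [k4] at k3
        rw [hn2] at k3
        rw [hq2] at k3
        linear_combination -2 * k3
      have hp20 : (2 : ℤ) ≠ 0 := two_ne_zero
      have e5 : 2 * (-1 * 1 ^ 2 * q' - n' * M ^ 2) =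
          p * (-2 * M * c' * q' - 2 * (y 0 ^ 2 + y 1 ^ 2 + y 2 ^ 2)) := by
        apply mul_right_cancel₀ hp0
        linear_combination e4
      have e6 : (p : ℤ) ∣ 2 * (-1 * 1 ^ 2 * q' - n' * M ^ 2) := ⟨_, e5⟩
      exact (hpi.dvd_or_dvd e6).resolve_left hp2
    · have h3 : rd p v ⬝ᵥ rd p w = 0 := by
        rw [rd_dot, e3, hz]
        have h4 : (p : ℤ) ∣ 2 * vw := by
          have : 2 * vw = c ^ 2 * q - 2 * n := by linear_combination e2
          rw [this, hq2, hn2]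
          exact ⟨c ^ 2 * q' - 2 * n', by ring⟩
        exact (hpi.dvd_or_dvd h4).resolve_left hp2
      obtain ⟨t, ht⟩ := prop_iso _ _ hvne rv rw' h3
      set L : ℤ := (t.val : ℤ) with hL
      have hLt : ((L : ℤ) : ZMod p) = t := lift_z t
      have hL0 : ¬ (p : ℤ) ∣ L := by
        intro h4
        apply hwne
        funext i
        rw [ht i, ← hLt, (hz L).2 h4, zero_mul]
        rfl
      have hy : ∀ i, (p : ℤ) ∣ w i - L * v i := by
        intro i
        rw [← hz]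
        push_cast
        have := ht i
        simp only [rd] at this
        rw [this, hLt]
        ring
      have hL1 : ¬ (p : ℤ) ∣ L + 1 := by
        intro h4
        apply rune
        have h5 : ((c : ℤ) : ZMod p) ≠ 0 := by rw [Ne, hz]; exact hpc
        funext i
        apply mul_left_cancel₀ h5
        have h6 : ((c : ℤ) : ZMod p) * rd p u i = ((v i + w i : ℤ) : ZMod p) := by
          rw [hu i]
          push_cast
          rfl
        rw [h6, Pi.zero_apply, mul_zero, hz]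
        have h7 : v i + w i = (L + 1) * v i + (w i - L * v i) := by ring
        rw [h7]
        exact dvd_add (Dvd.dvd.mul_right h4 _) (hy i)
      have hff : f (rd p v) * f (rd p w) = jacobiSym L p := by
        rw [f_mult hf hL0 hy]
        linear_combination jacobiSym L p * hfv
      choose z hzz using hy
      refine ⟨L, L + 1, hL0, hL1, ⟨c, hpc, ?_⟩, hff⟩
      have z0 := hzz 0
      have z1 := hzz 1
      have z2 := hzz 2
      have a0 : w 0 = L * v 0 + p * z 0 := by linear_combination z0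
      have a1 : w 1 = L * v 1 + p * z 1 := by linear_combination z1
      have a2 : w 2 = L * v 2 + p * z 2 := by linear_combination z2
      have k1 : vw = L * n + p * (v 0 * z 0 + v 1 * z 1 + v 2 * z 2) := by
        rw [hvw, a0, a1, a2]
        linear_combination L * hv'
      have k2 : n = L ^ 2 * n + 2 * L * p * (v 0 * z 0 + v 1 * z 1 + v 2 * z 2) +
          p ^ 2 * (z 0 ^ 2 + z 1 ^ 2 + z 2 ^ 2) := by
        rw [a0, a1, a2] at hw'
        linear_combination -hw' + L ^ 2 * hv'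
      have k3 : L * (c ^ 2 * q) = n * (L + 1) ^ 2 - p ^ 2 * (z 0 ^ 2 + z 1 ^ 2 + z 2 ^ 2) := by
        rw [← e2, k1]
        linear_combination -k2
      rw [hq2] at k3
      rw [hn2] at k3
      have k4 : L * c ^ 2 * q' - n' * (L + 1) ^ 2 = p * (-(z 0 ^ 2 + z 1 ^ 2 + z 2 ^ 2)) := by
        apply mul_left_cancel₀ hp0
        linear_combination k3
      exact ⟨_, k4⟩

/-- the primes which do not divide `n` -/
lemma loc_other {l : ℕ} (hl : l.Prime) (h2 : l ≠ 2) {v w u : V3} {c q n : ℤ} (hv : v ⬝ᵥ v = n)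
    (hw : w ⬝ᵥ w = n) (hu : ∀ i, v i + w i = c * u i) (hq : u ⬝ᵥ u = q) (hc : c ≠ 0)
    (hln : ¬ (l : ℤ) ∣ n) (hlq : (l : ℤ) ∣ q) (hu0 : ∃ i, ¬ (l : ℤ) ∣ u i) :
    jacobiSym (-n) l = 1 := by
  have : NeZero l := ⟨hl.ne_zero⟩
  have : Fact l.Prime := ⟨hl⟩
  have hpi : Prime (l : ℤ) := Nat.prime_iff_prime_int.1 hl
  have hp2 : ¬ (l : ℤ) ∣ 2 := by
    intro h
    have h3 : l ∣ 2 := by exact_mod_cast h
    exact h2 ((Nat.prime_dvd_prime_iff_eq hl Nat.prime_two).1 h3)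
  have hz : ∀ x : ℤ, ((x : ℤ) : ZMod l) = 0 ↔ (l : ℤ) ∣ x :=
    fun x => ZMod.intCast_zmod_eq_zero_iff_dvd x l
  have hv' := hv
  have hw' := hw
  have hq' := hq
  rw [dot3] at hv' hw' hq'
  have u0 := hu 0
  have u1 := hu 1
  have u2 := hu 2
  have w0 : w 0 = c * u 0 - v 0 := by linear_combination u0
  have w1 : w 1 = c * u 1 - v 1 := by linear_combination u1
  have w2 : w 2 = c * u 2 - v 2 := by linear_combination u2
  set vu : ℤ := v 0 * u 0 + v 1 * u 1 + v 2 * u 2 with hvu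
  have e1 : 2 * vu = c * q := by
    have h3 : c * (2 * vu) = c * (c * q) := by
      rw [w0, w1, w2] at hw'
      rw [hvu]
      linear_combination hv' - hw' + c ^ 2 * hq'
    exact mul_left_cancel₀ hc h3
  have rune : rd l u ≠ 0 := by
    intro h0
    obtain ⟨i, hi⟩ := hu0
    exact hi ((hz _).1 (congrFun h0 i))
  have hru : rd l u ⬝ᵥ rd l u = 0 := by
    rw [rd_dot, hq, hz]
    exact hlq
  have h3 : rd l u ⬝ᵥ rd l v = 0 := by
    rw [rd_dot, hz, dot3]
    have h4 : (l : ℤ) ∣ 2 * vu := by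
      rw [e1]
      exact Dvd.dvd.mul_left hlq _
    have h5 := (hpi.dvd_or_dvd h4).resolve_left hp2
    have h6 : u 0 * v 0 + u 1 * v 1 + u 2 * v 2 = vu := by rw [hvu]; ring
    rw [h6]
    exact h5
  obtain ⟨t, ht⟩ := lemQ _ _ rune hru h3
  rw [rd_dot, hv] at ht
  refine jac_of_sq hl (by rwa [dvd_neg]) (t := t) ?_
  push_cast
  exact ht

/-! ### reciprocity -/

/-- `J(a | b) = 1` if it is so for the primes dividing `b` -/
lemma jac_one_of {a : ℤ} : ∀ b : ℕ, b ≠ 0 → (∀ l : ℕ, l.Prime → l ∣ b → jacobiSym a l = 1) →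
    jacobiSym a b = 1 := by
  intro b
  induction b using Nat.strong_induction_on with
  | _ b ih =>
    intro hb h
    by_cases hb1 : b = 1
    · subst hb1
      exact jacobiSym.one_right a
    · obtain ⟨d, hd⟩ := Nat.minFac_dvd b
      have hl := Nat.minFac_prime hb1
      have hd0 : d ≠ 0 := by
        rintro rfl
        rw [mul_zero] at hd
        exact hb hd
      have hdb : d < b := by
        conv_rhs => rw [hd]
        have := hl.two_le
        have hd1 : 0 < d := Nat.pos_of_ne_zero hd0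
        nlinarith
      have : NeZero b.minFac := ⟨hl.ne_zero⟩
      have : NeZero d := ⟨hd0⟩
      have h1 := jacobiSym.mul_right a b.minFac d
      rw [← hd] at h1
      rw [h1, h _ hl (Nat.minFac_dvd b), ih d hdb hd0 fun l hl hld => h l hl (by
        rw [hd]; exact Dvd.dvd.mul_left hld _), one_mul]

lemma jac_prod (a : ℤ) (s : Finset ℕ) (hs : ∀ p ∈ s, p ≠ 0) :
    jacobiSym a (pr s) = ∏ p ∈ s, jacobiSym a p := by
  unfold Pool.Agent.Z700.pr
  induction s using Finset.induction_on with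
  | empty => simp
  | insert p s hp ih =>
    rw [Finset.prod_insert hp, Finset.prod_insert hp]
    have : NeZero p := ⟨hs p (Finset.mem_insert_self _ _)⟩
    have : NeZero (∏ p ∈ s, p) :=
      ⟨Finset.prod_ne_zero_iff.2 fun x hx => hs x (Finset.mem_insert_of_mem hx)⟩
    rw [jacobiSym.mul_right, ih fun x hx => hs x (Finset.mem_insert_of_mem hx)]

lemma odd_mod {a : ℕ} (h : Odd a) : a % 4 = 1 ∨ a % 4 = 3 := by
  obtain ⟨k, rfl⟩ := h
  omega

/-- the value of `χ₄` -/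
lemma jneg {b : ℕ} (hb : Odd b) : jacobiSym (-1) b = if b % 4 = 1 then 1 else -1 := by
  rw [jacobiSym.at_neg_one hb]
  rcases odd_mod hb with h | h
  · rw [ZMod.χ₄_nat_one_mod_four h, if_pos h]
  · rw [ZMod.χ₄_nat_three_mod_four h, if_neg (by omega)]

lemma recip {a b : ℕ} (ha : Odd a) (hb : Odd b) (hab : Nat.Coprime a b) :
    jacobiSym a b * jacobiSym b a = if a % 4 = 3 ∧ b % 4 = 3 then -1 else 1 := by
  have hpm : jacobiSym a b = 1 ∨ jacobiSym a b = -1 :=
    jacobiSym.eq_one_or_neg_one (by rw [Int.gcd_natCast_natCast]; exact hab)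
  have hsq : jacobiSym a b * jacobiSym a b = 1 := by
    rcases hpm with h | h <;> rw [h] <;> norm_num
  rcases odd_mod ha with h | h
  · rw [if_neg (by omega), ← jacobiSym.quadratic_reciprocity_one_mod_four h hb]
    exact hsq
  · rcases odd_mod hb with h' | h'
    · rw [if_neg (by omega), jacobiSym.quadratic_reciprocity_one_mod_four h' ha]
      exact hsq
    · rw [if_pos ⟨h, h'⟩, jacobiSym.quadratic_reciprocity_three_mod_four h' h]
      linear_combination -hsq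

/-- the value of the symbol `J(q | n)` -/
lemma jq {n q : ℕ} (hn : Odd n) (hq : Odd q) (hnq : Nat.Coprime q n)
    (h : jacobiSym (-(n : ℤ)) q = 1) :
    jacobiSym q n = if n % 4 = 1 ∧ q % 4 = 3 then -1 else 1 := by
  have h1 : jacobiSym (-(n : ℤ)) q = jacobiSym (-1) q * jacobiSym n q := by
    rw [← jacobiSym.mul_left]
    congr 1
    ring
  rw [h1, jneg hq] at h
  have h2 := recip hq hn hnq
  rcases odd_mod hn with e | e <;> rcases odd_mod hq with e' | e'
  · rw [if_pos e', one_mul] at h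
    rw [h, mul_one, if_neg (by omega)] at h2
    rw [h2, if_neg (by omega)]
  · rw [if_neg (by omega)] at h
    rw [if_neg (by omega)] at h2
    rw [if_pos ⟨e, e'⟩]
    linear_combination -h2 - jacobiSym (q : ℤ) n * h
  · rw [if_pos e', one_mul] at h
    rw [h, mul_one, if_neg (by omega)] at h2
    rw [h2, if_neg (by omega)]
  · rw [if_neg (by omega)] at h
    rw [if_pos ⟨e', e⟩] at h2
    rw [if_neg (by omega)]
    linear_combination -h2 - jacobiSym (q : ℤ) n * h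

/-- the value of the product -/
def Tq (r : ℕ) (q : ℤ) : ℤ :=
  if r = 3 then (if q % 2 = 1 then 1 else -1) else (if q % 4 = 1 ∨ q % 8 = 6 then 1 else -1)

lemma prodJ (N : Finset ℕ) (hN : ∀ p ∈ N, p.Prime ∧ p ≠ 2) (r : ℕ) (hr : r = 3 ∨ r = 5)
    (hn : pr N % 8 = r) (q : ℕ) (_ : 0 < q) (hq4 : ¬ 4 ∣ q) (σ : ℕ → ℤ)
    (h1 : ∀ p ∈ N, ¬ p ∣ q → σ p = jacobiSym q p)
    (h2 : ∀ p ∈ N, p ∣ q → ¬ p ^ 2 ∣ q ∧
      σ p = jacobiSym ((q / p : ℕ) * (pr N / p : ℕ) : ℤ) p)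
    (h3 : ∀ l : ℕ, l.Prime → l ≠ 2 → ¬ l ∣ pr N → l ∣ q → jacobiSym (-(pr N : ℤ)) l = 1) :
    ∏ p ∈ N, σ p = Tq r q := by
  classical
  set N1 := N.filter (· ∣ q) with hN1
  set N2 := N.filter (¬ · ∣ q) with hN2
  have hn12 : pr N = pr N1 * pr N2 := by
    unfold Pool.Agent.Z700.pr
    exact (Finset.prod_filter_mul_prod_filter_not N (· ∣ q) (fun p => p)).symm
  have m1 : ∀ p ∈ N1, p.Prime ∧ p ≠ 2 ∧ p ∣ q := fun p hp =>
    ⟨(hN p (Finset.mem_filter.1 hp).1).1, (hN p (Finset.mem_filter.1 hp).1).2,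
      (Finset.mem_filter.1 hp).2⟩
  have m2 : ∀ p ∈ N2, p.Prime ∧ p ≠ 2 ∧ ¬ p ∣ q := fun p hp =>
    ⟨(hN p (Finset.mem_filter.1 hp).1).1, (hN p (Finset.mem_filter.1 hp).1).2,
      (Finset.mem_filter.1 hp).2⟩
  have hodd : Odd (pr N) := by
    rw [Nat.odd_iff]
    rcases hr with h | h <;> omega
  have hodd1 : Odd (pr N1) := (Nat.odd_mul.1 (hn12 ▸ hodd)).1
  have hodd2 : Odd (pr N2) := (Nat.odd_mul.1 (hn12 ▸ hodd)).2
  have hdiv : pr N1 ∣ q := by
    unfold Pool.Agent.Z700.pr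
    exact Finset.prod_primes_dvd q (fun p hp => (m1 p hp).1.prime) fun p hp => (m1 p hp).2.2
  obtain ⟨q1, hq1⟩ := hdiv
  have hq1pos : 0 < q1 := Nat.pos_of_ne_zero (by rintro rfl; omega)
  -- coprimality
  have hpN : ∀ p ∈ N, ¬ p ∣ q1 := by
    intro p hp hpq
    by_cases hpq' : p ∣ q
    · have hp1 : p ∈ N1 := Finset.mem_filter.2 ⟨hp, hpq'⟩
      have h4 : p ∣ pr N1 := Finset.dvd_prod_of_mem (fun p => p) hp1
      apply (h2 p hp hpq').1
      rw [hq1, sq]
      exact Nat.mul_dvd_mul h4 hpq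
    · exact hpq' (by rw [hq1]; exact Dvd.dvd.mul_left hpq _)
  have hcop1 : Nat.Coprime q1 (pr N) := by
    unfold Pool.Agent.Z700.pr
    exact Nat.Coprime.prod_right fun p hp =>
      ((Nat.Prime.coprime_iff_not_dvd (hN p hp).1).2 (hpN p hp)).symm
  have hcop12 : Nat.Coprime (pr N1) (pr N2) := by
    have h4 : Nat.Coprime q (pr N2) := by
      unfold Pool.Agent.Z700.pr
      exact Nat.Coprime.prod_right fun p hp =>
        ((Nat.Prime.coprime_iff_not_dvd (m2 p hp).1).2 (m2 p hp).2.2).symm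
    exact Nat.Coprime.coprime_dvd_left ⟨q1, hq1⟩ h4
  -- the two products
  have hσ2 : ∏ p ∈ N2, σ p = jacobiSym q (pr N2) := by
    rw [jac_prod _ _ fun p hp => (m2 p hp).1.ne_zero]
    exact Finset.prod_congr rfl fun p hp => h1 p (Finset.mem_filter.1 hp).1 (m2 p hp).2.2
  have hσ1 : ∏ p ∈ N1, σ p = jacobiSym ((q1 : ℤ) * (pr N2 : ℤ)) (pr N1) := by
    rw [jac_prod _ _ fun p hp => (m1 p hp).1.ne_zero]
    refine Finset.prod_congr rfl fun p hp => ?_
    obtain ⟨hpp, hp2, hpq⟩ := m1 p hp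
    rw [(h2 p (Finset.mem_filter.1 hp).1 hpq).2]
    have h4 : p ∣ pr N1 := Finset.dvd_prod_of_mem (fun p => p) hp
    obtain ⟨k, hk⟩ := h4
    have hp0 : 0 < p := hpp.pos
    have e1 : q / p = k * q1 := by
      rw [hq1, hk, mul_assoc, Nat.mul_div_cancel_left _ hp0]
    have e2 : pr N / p = k * pr N2 := by
      rw [hn12, hk, mul_assoc, Nat.mul_div_cancel_left _ hp0]
    have hkp : ¬ (p : ℤ) ∣ (k : ℤ) := by
      intro h5
      have h5' : p ∣ k := by exact_mod_cast h5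
      apply (h2 p (Finset.mem_filter.1 hp).1 hpq).1
      rw [hq1, hk, sq]
      exact Dvd.dvd.mul_right (Nat.mul_dvd_mul_left p h5') _
    rw [e1, e2]
    have e3 : ((k * q1 : ℕ) * (k * pr N2 : ℕ) : ℤ) = (k : ℤ) ^ 2 * ((q1 : ℤ) * (pr N2 : ℤ)) := by
      push_cast
      ring
    rw [e3, jacobiSym.mul_left, jac_sq hpp hkp, one_mul]
  have htot : ∏ p ∈ N, σ p = jacobiSym q1 (pr N) *
      (jacobiSym (pr N1) (pr N2) * jacobiSym (pr N2) (pr N1)) := by
    rw [← Finset.prod_filter_mul_prod_filter_not N (· ∣ q) σ, ← hN1, ← hN2, hσ1, hσ2, hq1]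
    have : NeZero (pr N1) := ⟨fun h => by rw [h] at hodd1; exact absurd hodd1 (by decide)⟩
    have : NeZero (pr N2) := ⟨fun h => by rw [h] at hodd2; exact absurd hodd2 (by decide)⟩
    rw [hn12, jacobiSym.mul_right]
    push_cast
    rw [jacobiSym.mul_left, jacobiSym.mul_left]
    ring
  have hrec := recip hodd1 hodd2 hcop12
  -- the prime divisors of an odd part
  have key : ∀ q2 : ℕ, Odd q2 → q2 ∣ q1 →
      jacobiSym q2 (pr N) = if pr N % 4 = 1 ∧ q2 % 4 = 3 then -1 else 1 := by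
    intro q2 ho hd
    refine jq hodd ho (Nat.Coprime.coprime_dvd_left hd hcop1) ?_
    refine jac_one_of q2 (by rintro rfl; exact absurd ho (by decide)) fun l hl hld => ?_
    refine h3 l hl ?_ ?_ ?_
    · rintro rfl
      exact (Nat.not_even_iff_odd.2 ho) (even_iff_two_dvd.2 hld)
    · intro h5
      have h6 := Nat.Coprime.eq_one_of_dvd (Nat.Coprime.coprime_dvd_left (hld.trans hd) hcop1) h5
      exact hl.one_lt.ne' h6
    · rw [hq1]
      exact Dvd.dvd.mul_left (hld.trans hd) _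
  have hmod : pr N % 4 = (pr N1 % 4) * (pr N2 % 4) % 4 := by rw [hn12, Nat.mul_mod]
  rcases Nat.even_or_odd q1 with hev | hod
  · obtain ⟨q2, hq2⟩ := hev.two_dvd
    have hod2 : Odd q2 := by
      rw [← Nat.not_even_iff_odd]
      rintro ⟨k, hk⟩
      apply hq4
      rw [hq1, hq2, hk]
      exact ⟨pr N1 * k, by ring⟩
    have e1 := key q2 hod2 ⟨2, by rw [hq2]; ring⟩
    have e2 : jacobiSym (q1 : ℤ) (pr N) = -jacobiSym (q2 : ℤ) (pr N) := by
      rw [hq2]
      push_cast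
      rw [jacobiSym.mul_left, jacobiSym.at_two hodd]
      have : ZMod.χ₈ ((pr N : ℕ) : ZMod 8) = -1 := by
        rw [ZMod.χ₈_nat_eq_if_mod_eight]
        rcases hr with h | h <;> rw [h] at hn <;> simp [hn] <;> omega
      rw [this]
      ring
    rw [htot, hrec, e2, e1]
    have hqm : q % 8 = 2 * ((pr N1 % 4) * (q2 % 4) % 4) := by
      rw [hq1, hq2]
      have : pr N1 * (2 * q2) = 2 * (pr N1 * q2) := by ring
      rw [this, ← Nat.mul_mod]
      omega
    unfold Tq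
    have hz2 : ((q : ℤ) % 2 = 1) ↔ q % 2 = 1 := by omega
    have hz4 : ((q : ℤ) % 4 = 1) ↔ q % 4 = 1 := by omega
    have hz8 : ((q : ℤ) % 8 = 6) ↔ q % 8 = 6 := by omega
    simp only [hz2, hz4, hz8]
    rcases hr with h | h <;> rcases odd_mod hodd1 with a | a <;> rcases odd_mod hodd2 with b | b <;>
      rcases odd_mod hod2 with d | d <;> rw [a, b] at hmod <;> rw [a, d] at hqm <;>
      norm_num at hmod hqm <;> subst h <;> first
      | (exfalso; omega)
      | (have k1 : q % 2 = 0 := by omega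
         have k2 : q % 4 = 2 := by omega
         simp [a, b, d, hmod, k1, k2, hqm])
  · have e1 := key q1 hod dvd_rfl
    rw [htot, hrec, e1]
    have hqm : q % 4 = (pr N1 % 4) * (q1 % 4) % 4 := by rw [hq1, Nat.mul_mod]
    unfold Tq
    have hz2 : ((q : ℤ) % 2 = 1) ↔ q % 2 = 1 := by omega
    have hz4 : ((q : ℤ) % 4 = 1) ↔ q % 4 = 1 := by omega
    have hz8 : ((q : ℤ) % 8 = 6) ↔ q % 8 = 6 := by omega
    simp only [hz2, hz4, hz8]
    rcases hr with h | h <;> rcases odd_mod hodd1 with a | a <;> rcases odd_mod hodd2 with b | b <;>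
      rcases odd_mod hod with d | d <;> rw [a, b] at hmod <;> rw [a, d] at hqm <;>
      norm_num at hmod hqm <;> subst h <;> first
      | (exfalso; omega)
      | (have k1 : q % 2 = 1 := by omega
         have k2 : q % 8 ≠ 6 := by omega
         simp [a, b, d, hmod, k1, k2, hqm])

/-! ### the place two -/

lemma om_mod (r : ℕ) (v w : V3) (h : ∀ i, v i % 4 = w i % 4) : om r v = om r w := by
  have h0 := h 0
  have h1 := h 1
  have h2 := h 2
  have a0 : v 0 % 2 = w 0 % 2 := by omega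
  have a1 : v 1 % 2 = w 1 % 2 := by omega
  have a2 : v 2 % 2 = w 2 % 2 := by omega
  have h3 : (v 0 * v 1 * v 2) % 4 = (w 0 * w 1 * w 2) % 4 :=
    ((show v 0 ≡ w 0 [ZMOD 4] from h0).mul h1).mul h2
  unfold om ep0 ep xi f0 f1 f2
  simp only [h0, h1, h2, a0, a1, a2, h3]

lemma Tq_mod (r : ℕ) (q q' : ℤ) (h : q % 8 = q' % 8) : Tq r q = Tq r q' := by
  have h2 : q % 2 = q' % 2 := by omega
  have h4 : q % 4 = q' % 4 := by omega
  unfold Tq
  rw [h2, h4, h]

/-- a vector with coordinates in `{0, 1, 2, 3}` -/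
def W4 (a : Fin 4 × Fin 4 × Fin 4) : V3 := ![((a.1 : ℕ) : ℤ), ((a.2.1 : ℕ) : ℤ), ((a.2.2 : ℕ) : ℤ)]

lemma exF (x : ℤ) : ∃ a : Fin 4, ((a : ℕ) : ℤ) = x % 4 := by
  refine ⟨⟨(x % 4).toNat, by omega⟩, ?_⟩
  simp only
  omega

lemma exW (v : V3) : ∃ a, ∀ i, ∃ t, v i = 4 * t + W4 a i := by
  obtain ⟨a, ha⟩ := exF (v 0)
  obtain ⟨b, hb⟩ := exF (v 1)
  obtain ⟨c, hc⟩ := exF (v 2)
  refine ⟨(a, b, c), fun i => ⟨v i / 4, ?_⟩⟩
  fin_cases i
  · change v 0 = 4 * (v 0 / 4) + ((a : ℕ) : ℤ)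
    omega
  · change v 1 = 4 * (v 1 / 4) + ((b : ℕ) : ℤ)
    omega
  · change v 2 = 4 * (v 2 / 4) + ((c : ℕ) : ℤ)
    omega

/-- the dot product by coordinates -/
def dt (v w : V3) : ℤ := v 0 * w 0 + v 1 * w 1 + v 2 * w 2

lemma dt8 {v a : V3} (h : ∀ i, ∃ t, v i = 4 * t + a i) : dt v v % 8 = dt a a % 8 := by
  obtain ⟨t0, h0⟩ := h 0
  obtain ⟨t1, h1⟩ := h 1
  obtain ⟨t2, h2⟩ := h 2
  unfold dt
  rw [h0, h1, h2]
  refine Int.ModEq.symm (Int.modEq_iff_dvd.2 ⟨2 * t0 ^ 2 + t0 * a 0 + 2 * t1 ^ 2 + t1 * a 1 +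
    2 * t2 ^ 2 + t2 * a 2, by ring⟩)

lemma dt4 {v a w b : V3} (h : ∀ i, ∃ t, v i = 4 * t + a i) (h' : ∀ i, ∃ t, w i = 4 * t + b i) :
    dt v w % 4 = dt a b % 4 := by
  obtain ⟨t0, h0⟩ := h 0
  obtain ⟨t1, h1⟩ := h 1
  obtain ⟨t2, h2⟩ := h 2
  obtain ⟨s0, g0⟩ := h' 0
  obtain ⟨s1, g1⟩ := h' 1
  obtain ⟨s2, g2⟩ := h' 2
  unfold dt
  rw [h0, h1, h2, g0, g1, g2]
  refine Int.ModEq.symm (Int.modEq_iff_dvd.2 ⟨4 * t0 * s0 + t0 * b 0 + s0 * a 0 +
    (4 * t1 * s1 + t1 * b 1 + s1 * a 1) + (4 * t2 * s2 + t2 * b 2 + s2 * a 2), by ring⟩)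

lemma chk0_3 : ∀ a : Fin 4 × Fin 4 × Fin 4, dt (W4 a) (W4 a) % 8 = 3 →
    ∀ b : Fin 4 × Fin 4 × Fin 4, dt (W4 b) (W4 b) % 8 = 3 →
    (W4 a 0 + W4 b 0) % 2 = 1 ∨ (W4 a 1 + W4 b 1) % 2 = 1 ∨ (W4 a 2 + W4 b 2) % 2 = 1 →
    om 3 (W4 a) * om 3 (W4 b) = Tq 3 (2 * 3 + 2 * dt (W4 a) (W4 b)) := by
  decide +kernel

lemma chk0_5 : ∀ a : Fin 4 × Fin 4 × Fin 4, dt (W4 a) (W4 a) % 8 = 5 →
    ∀ b : Fin 4 × Fin 4 × Fin 4, dt (W4 b) (W4 b) % 8 = 5 →
    (W4 a 0 + W4 b 0) % 2 = 1 ∨ (W4 a 1 + W4 b 1) % 2 = 1 ∨ (W4 a 2 + W4 b 2) % 2 = 1 →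
    om 5 (W4 a) * om 5 (W4 b) = Tq 5 (2 * 5 + 2 * dt (W4 a) (W4 b)) := by
  decide +kernel

lemma chk1_3 : ∀ a : Fin 4 × Fin 4 × Fin 4, dt (W4 a) (W4 a) % 8 = 3 →
    ∀ b : Fin 4 × Fin 4 × Fin 4, dt (W4 a) (W4 b) % 4 = dt (W4 b) (W4 b) % 4 →
    W4 b 0 % 2 = 1 ∨ W4 b 1 % 2 = 1 ∨ W4 b 2 % 2 = 1 →
    om 3 (W4 a) * om 3 (fun i => 2 * W4 b i - W4 a i) = Tq 3 (dt (W4 b) (W4 b)) := by
  decide +kernel

lemma chk1_5 : ∀ a : Fin 4 × Fin 4 × Fin 4, dt (W4 a) (W4 a) % 8 = 5 →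
    ∀ b : Fin 4 × Fin 4 × Fin 4, dt (W4 a) (W4 b) % 4 = dt (W4 b) (W4 b) % 4 →
    W4 b 0 % 2 = 1 ∨ W4 b 1 % 2 = 1 ∨ W4 b 2 % 2 = 1 →
    om 5 (W4 a) * om 5 (fun i => 2 * W4 b i - W4 a i) = Tq 5 (dt (W4 b) (W4 b)) := by
  decide +kernel

lemma chk2_3 : ∀ a : Fin 4 × Fin 4 × Fin 4, dt (W4 a) (W4 a) % 8 = 3 →
    ∀ b : Fin 4 × Fin 4 × Fin 4, dt (W4 a) (W4 b) % 2 = 0 →
    (dt (W4 b) (W4 b) % 2 = 0 → dt (W4 a) (W4 b) % 4 = 0) →
    W4 b 0 % 2 = 1 ∨ W4 b 1 % 2 = 1 ∨ W4 b 2 % 2 = 1 →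
    om 3 (W4 a) * om 3 (fun i => -W4 a i) = Tq 3 (dt (W4 b) (W4 b)) := by
  decide +kernel

lemma chk2_5 : ∀ a : Fin 4 × Fin 4 × Fin 4, dt (W4 a) (W4 a) % 8 = 5 →
    ∀ b : Fin 4 × Fin 4 × Fin 4, dt (W4 a) (W4 b) % 2 = 0 →
    (dt (W4 b) (W4 b) % 2 = 0 → dt (W4 a) (W4 b) % 4 = 0) →
    W4 b 0 % 2 = 1 ∨ W4 b 1 % 2 = 1 ∨ W4 b 2 % 2 = 1 →
    om 5 (W4 a) * om 5 (fun i => -W4 a i) = Tq 5 (dt (W4 b) (W4 b)) := by
  decide +kernel

lemma chkm_3 : ∀ a : Fin 4 × Fin 4 × Fin 4, dt (W4 a) (W4 a) % 8 = 3 →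
    om 3 (W4 a) * om 3 (fun i => -W4 a i) = -1 ∧ (om 3 (W4 a) = 1 ∨ om 3 (W4 a) = -1) := by
  decide +kernel

lemma chkm_5 : ∀ a : Fin 4 × Fin 4 × Fin 4, dt (W4 a) (W4 a) % 8 = 5 →
    om 5 (W4 a) * om 5 (fun i => -W4 a i) = 1 ∧ (om 5 (W4 a) = 1 ∨ om 5 (W4 a) = -1) := by
  decide +kernel

lemma om_W {r : ℕ} {v a : V3} (h : ∀ i, ∃ t, v i = 4 * t + a i) : om r v = om r a := by
  refine om_mod r v a fun i => ?_
  obtain ⟨t, ht⟩ := h i
  omega

lemma two_main {r : ℕ} (hr : r = 3 ∨ r = 5) {v w y : V3} {k : ℕ} {n : ℤ} (hv : dt v v = n)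
    (hw : dt w w = n) (hn : n % 8 = r) (hu : ∀ i, v i + w i = 2 ^ k * y i)
    (hy : y 0 % 2 = 1 ∨ y 1 % 2 = 1 ∨ y 2 % 2 = 1) : om r v * om r w = Tq r (dt y y) := by
  obtain ⟨a, ha⟩ := exW v
  obtain ⟨b, hb⟩ := exW w
  obtain ⟨e, he⟩ := exW y
  have hva : dt (W4 a) (W4 a) % 8 = r := by rw [← dt8 ha, hv, hn]
  have hwb : dt (W4 b) (W4 b) % 8 = r := by rw [← dt8 hb, hw, hn]
  have hee : dt (W4 e) (W4 e) % 8 = dt y y % 8 := (dt8 he).symm
  have hey : W4 e 0 % 2 = 1 ∨ W4 e 1 % 2 = 1 ∨ W4 e 2 % 2 = 1 := by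
    obtain ⟨t0, h0⟩ := he 0
    obtain ⟨t1, h1⟩ := he 1
    obtain ⟨t2, h2⟩ := he 2
    omega
  rw [om_W ha, Tq_mod r _ _ hee.symm]
  have hu0 := hu 0
  have hu1 := hu 1
  have hu2 := hu 2
  rcases Nat.lt_or_ge k 2 with hk | hk
  · rcases (by omega : k = 0 ∨ k = 1) with rfl | rfl
    · rw [pow_zero, one_mul] at hu0 hu1 hu2
      rw [om_W hb]
      have h1 : dt y y = 2 * n + 2 * dt v w := by
        unfold dt at hv hw ⊢
        rw [← hu0, ← hu1, ← hu2]
        linear_combination hv + hw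
      have h2 := dt4 ha hb
      have h3 : (W4 a 0 + W4 b 0) % 2 = 1 ∨ (W4 a 1 + W4 b 1) % 2 = 1 ∨
          (W4 a 2 + W4 b 2) % 2 = 1 := by
        obtain ⟨t0, h0⟩ := ha 0
        obtain ⟨t1, h1⟩ := ha 1
        obtain ⟨t2, h2⟩ := ha 2
        obtain ⟨s0, g0⟩ := hb 0
        obtain ⟨s1, g1⟩ := hb 1
        obtain ⟨s2, g2⟩ := hb 2
        omega
      rcases hr with rfl | rfl
      · rw [chk0_3 a (by exact_mod_cast hva) b (by exact_mod_cast hwb) h3]
        exact Tq_mod _ _ _ (by push_cast at hn; omega)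
      · rw [chk0_5 a (by exact_mod_cast hva) b (by exact_mod_cast hwb) h3]
        exact Tq_mod _ _ _ (by push_cast at hn; omega)
    · rw [pow_one] at hu0 hu1 hu2
      have w0 : w 0 = 2 * y 0 - v 0 := by linear_combination hu0
      have w1 : w 1 = 2 * y 1 - v 1 := by linear_combination hu1
      have w2 : w 2 = 2 * y 2 - v 2 := by linear_combination hu2
      have h1 : dt v y = dt y y := by
        have h4 : 4 * dt v y = 4 * dt y y := by
          unfold dt at hv hw ⊢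
          rw [w0, w1, w2] at hw
          linear_combination hv - hw
        omega
      have h2 := dt4 ha he
      have h5 : om r w = om r (fun i => 2 * W4 e i - W4 a i) := by
        refine om_mod r _ _ fun i => ?_
        obtain ⟨t, ht⟩ := ha i
        obtain ⟨s, hs⟩ := he i
        have hw' : w i = 2 * y i - v i := by
          have := hu i
          rw [pow_one] at this
          linear_combination this
        rw [hw']
        omega
      rw [h5]
      have h6 : dt (W4 a) (W4 e) % 4 = dt (W4 e) (W4 e) % 4 := by omega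
      rcases hr with rfl | rfl
      · exact chk1_3 a (by exact_mod_cast hva) e h6 hey
      · exact chk1_5 a (by exact_mod_cast hva) e h6 hey
  · obtain ⟨k', rfl⟩ := Nat.exists_eq_add_of_le hk
    have hpow : (2 : ℤ) ^ (2 + k') = 4 * 2 ^ k' := by rw [pow_add]; norm_num
    rw [hpow] at hu0 hu1 hu2
    set K2 : ℤ := 2 ^ k' with hK2
    have hK0 : K2 ≠ 0 := by positivity
    have w0 : w 0 = 4 * K2 * y 0 - v 0 := by linear_combination hu0
    have w1 : w 1 = 4 * K2 * y 1 - v 1 := by linear_combination hu1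
    have w2 : w 2 = 4 * K2 * y 2 - v 2 := by linear_combination hu2
    have h1 : dt v y = 2 * K2 * dt y y := by
      have h4 : (8 * K2) * dt v y = (8 * K2) * (2 * K2 * dt y y) := by
        unfold dt at hv hw ⊢
        rw [w0, w1, w2] at hw
        linear_combination hv - hw
      exact mul_left_cancel₀ (mul_ne_zero (by norm_num) hK0) h4
    have h2 := dt4 ha he
    have h5 : om r w = om r (fun i => -W4 a i) := by
      refine om_mod r _ _ fun i => ?_
      obtain ⟨t, ht⟩ := ha i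
      have hw' : w i = 4 * (K2 * y i) - v i := by
        have := hu i
        rw [hpow] at this
        linear_combination this
      rw [hw']
      omega
    rw [h5]
    have h7 : dt v y % 2 = 0 := by
      rw [h1]
      have : 2 * K2 * dt y y = 2 * (K2 * dt y y) := by ring
      omega
    have h8 : dt y y % 2 = 0 → dt v y % 4 = 0 := by
      intro h9
      obtain ⟨c, hc⟩ : ∃ c, dt y y = 2 * c := ⟨dt y y / 2, by omega⟩
      rw [h1, hc]
      have : 2 * K2 * (2 * c) = 4 * (K2 * c) := by ring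
      omega
    rcases hr with rfl | rfl
    · exact chk2_3 a (by exact_mod_cast hva) e (by omega) (fun h => by
        have := h8 (by omega); omega) hey
    · exact chk2_5 a (by exact_mod_cast hva) e (by omega) (fun h => by
        have := h8 (by omega); omega) hey

lemma om_pm {r : ℕ} (hr : r = 3 ∨ r = 5) {v : V3} (hv : dt v v % 8 = r) :
    om r v = 1 ∨ om r v = -1 := by
  obtain ⟨a, ha⟩ := exW v
  have hva : dt (W4 a) (W4 a) % 8 = r := by rw [← dt8 ha, hv]
  rw [om_W ha]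
  rcases hr with rfl | rfl
  · exact (chkm_3 a (by exact_mod_cast hva)).2
  · exact (chkm_5 a (by exact_mod_cast hva)).2

lemma om_neg {r : ℕ} (hr : r = 3 ∨ r = 5) {v w : V3} (hv : dt v v % 8 = r)
    (hw : ∀ i, w i = -v i) : om r v * om r w = if r = 3 then -1 else 1 := by
  obtain ⟨a, ha⟩ := exW v
  have hva : dt (W4 a) (W4 a) % 8 = r := by rw [← dt8 ha, hv]
  rw [om_W ha]
  have h5 : om r w = om r (fun i => -W4 a i) := by
    refine om_mod r _ _ fun i => ?_
    obtain ⟨t, ht⟩ := ha i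
    rw [hw i]
    omega
  rw [h5]
  rcases hr with rfl | rfl
  · exact (chkm_3 a (by exact_mod_cast hva)).1
  · exact (chkm_5 a (by exact_mod_cast hva)).1

/-! ### the product formula -/

/-- primitive part -/
lemma prim_part (x : V3) (hx : ∃ i, x i ≠ 0) : ∃ (c : ℕ) (u : V3), c ≠ 0 ∧
    (∀ i, x i = c * u i) ∧ ∀ l : ℕ, l.Prime → ∃ i, ¬ (l : ℤ) ∣ u i := by
  set g : ℕ := Finset.univ.gcd fun i => (x i).natAbs with hg
  have hg0 : g ≠ 0 := by
    intro h
    rw [hg, Finset.gcd_eq_zero_iff] at h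
    obtain ⟨i, hi⟩ := hx
    exact hi (Int.natAbs_eq_zero.1 (h i (Finset.mem_univ i)))
  have hdvd : ∀ i, (g : ℤ) ∣ x i := by
    intro i
    rw [Int.natCast_dvd]
    exact Finset.gcd_dvd (Finset.mem_univ i)
  choose u hu using hdvd
  refine ⟨g, u, hg0, hu, fun l hl => ?_⟩
  by_contra hcon
  push Not at hcon
  have h1 : g * l ∣ g := by
    conv_rhs => rw [hg]
    refine Finset.dvd_gcd fun i _ => ?_
    rw [hu i, Int.natAbs_mul, Int.natAbs_natCast]
    exact Nat.mul_dvd_mul_left g (Int.natCast_dvd.1 (hcon i))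
  have h2 : g * l ≤ g := Nat.le_of_dvd (Nat.pos_of_ne_zero hg0) h1
  have h3 := hl.two_le
  have h4 : 0 < g := Nat.pos_of_ne_zero hg0
  nlinarith

lemma pr_sq {N : Finset ℕ} (hN : ∀ p ∈ N, p.Prime ∧ p ≠ 2) {p : ℕ} (hp : p ∈ N) :
    (p : ℤ) ∣ (pr N : ℤ) ∧ ¬ (p : ℤ) ^ 2 ∣ (pr N : ℤ) := by
  have h1 : pr N = p * ∏ x ∈ N.erase p, x := by
    unfold Pool.Agent.Z700.pr
    exact (Finset.mul_prod_erase N (fun x => x) hp).symm
  refine ⟨by exact_mod_cast (⟨_, h1⟩ : p ∣ pr N), ?_⟩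
  intro h
  have h2 : p ^ 2 ∣ pr N := by exact_mod_cast h
  rw [h1, sq] at h2
  have hpp := (hN p hp).1
  have h3 := Nat.dvd_of_mul_dvd_mul_left hpp.pos h2
  have h4 : Nat.Coprime p (∏ x ∈ N.erase p, x) := by
    refine Nat.Coprime.prod_right fun x hx => ?_
    exact (Nat.coprime_primes hpp (hN x (Finset.mem_of_mem_erase hx)).1).2
      (Finset.ne_of_mem_erase hx).symm
  exact hpp.one_lt.ne' (Nat.Coprime.eq_one_of_dvd h4 h3)

lemma pair_main (h : S_PHI) (N : Finset ℕ) (r : ℕ) (hN : ∀ p ∈ N, p.Prime ∧ p ≠ 2)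
    (hr : r = 3 ∨ r = 5) (hn : pr N % 8 = r) {v w : V3} (hv : v ⬝ᵥ v = (pr N : ℤ))
    (hw : w ⬝ᵥ w = (pr N : ℤ)) : Ph N v * Ph N w = om r v * om r w := by
  classical
  have hdt : ∀ x y : V3, dt x y = x ⬝ᵥ y := fun x y => (dot3 x y).symm
  have hn8 : ((pr N : ℕ) : ℤ) % 8 = r := by omega
  have hodd : Odd (pr N) := by
    rw [Nat.odd_iff]
    rcases hr with h | h <;> omega
  by_cases hx : ∃ i, v i + w i ≠ 0
  · obtain ⟨c, u, hc0, hcu, hprim⟩ := prim_part (fun i => v i + w i) hx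
    have hc0' : (c : ℤ) ≠ 0 := by exact_mod_cast hc0
    have hq0 : 0 ≤ dt u u := by unfold dt; nlinarith [sq_nonneg (u 0), sq_nonneg (u 1), sq_nonneg (u 2)]
    obtain ⟨q, hq⟩ := Int.eq_ofNat_of_zero_le hq0
    have hqpos : 0 < q := by
      rcases Nat.eq_zero_or_pos q with h0 | h0
      · exfalso
        obtain ⟨i, hi⟩ := hx
        apply hi
        rw [h0] at hq
        unfold dt at hq
        have e0 : u 0 = 0 := by push_cast at hq; nlinarith [sq_nonneg (u 0), sq_nonneg (u 1), sq_nonneg (u 2)]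
        have e1 : u 1 = 0 := by push_cast at hq; nlinarith [sq_nonneg (u 0), sq_nonneg (u 1), sq_nonneg (u 2)]
        have e2 : u 2 = 0 := by push_cast at hq; nlinarith [sq_nonneg (u 0), sq_nonneg (u 1), sq_nonneg (u 2)]
        have e3 : u i = 0 := by
          fin_cases i
          · exact e0
          · exact e1
          · exact e2
        have h9 : v i + w i = c * u i := hcu i
        rw [h9, e3, mul_zero]
      · exact h0
    have huq : u ⬝ᵥ u = (q : ℤ) := by rw [← hdt]; exact hq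
    have hodd2 : u 0 % 2 = 1 ∨ u 1 % 2 = 1 ∨ u 2 % 2 = 1 := by
      obtain ⟨i, hi⟩ := hprim 2 Nat.prime_two
      have hi' : u i % 2 = 1 := by
        push_cast at hi
        omega
      fin_cases i
      · exact Or.inl hi'
      · exact Or.inr (Or.inl hi')
      · exact Or.inr (Or.inr hi')
    have hq4 : ¬ 4 ∣ q := by
      intro h4
      have h5 : dt u u % 4 = 0 := by rw [hq]; omega
      obtain ⟨e, he⟩ := exW u
      have h6 : dt (W4 e) (W4 e) % 4 = 0 := by rw [← dt4 he he, h5]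
      have h7 : W4 e 0 % 2 = 1 ∨ W4 e 1 % 2 = 1 ∨ W4 e 2 % 2 = 1 := by
        obtain ⟨t0, h0⟩ := he 0
        obtain ⟨t1, h1⟩ := he 1
        obtain ⟨t2, h2⟩ := he 2
        omega
      have hchk : ∀ e : Fin 4 × Fin 4 × Fin 4, dt (W4 e) (W4 e) % 4 = 0 →
        ¬ (W4 e 0 % 2 = 1 ∨ W4 e 1 % 2 = 1 ∨ W4 e 2 % 2 = 1) := by decide +kernel
      exact hchk e h6 h7
    -- the odd places
    have hP : Ph N v * Ph N w = Tq r q := by
      unfold Ph
      rw [← Finset.prod_mul_distrib]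
      refine prodJ N hN r hr hn q hqpos hq4 (fun p => ph p (rd p v) * ph p (rd p w)) ?_ ?_ ?_
      · intro p hp hpq
        obtain ⟨hpp, hp2⟩ := hN p hp
        obtain ⟨d1, d2⟩ := pr_sq hN hp
        exact (loc_main hpp hp2 (ph_spec h hpp hp2) hv hw hcu huq hc0' d1 d2
          (hprim p hpp)).1 (by exact_mod_cast hpq)
      · intro p hp hpq
        obtain ⟨hpp, hp2⟩ := hN p hp
        obtain ⟨d1, d2⟩ := pr_sq hN hp
        have h4 := (loc_main hpp hp2 (ph_spec h hpp hp2) hv hw hcu huq hc0' d1 d2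
          (hprim p hpp)).2 (by exact_mod_cast hpq)
        refine ⟨fun h5 => h4.1 (by exact_mod_cast h5), ?_⟩
        rw [h4.2]
        push_cast
        rfl
      · intro l hl hl2 hln hlq
        exact loc_other hl hl2 hv hw hcu huq hc0' (by exact_mod_cast hln) (by exact_mod_cast hlq)
          (hprim l hl)
    -- the place two
    obtain ⟨k, c', hc'odd, hc'⟩ := Nat.exists_eq_two_pow_mul_odd hc0
    have hc'm : (c' : ℤ) % 2 = 1 := by
      obtain ⟨t, ht⟩ := hc'odd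
      omega
    have h2 : om r v * om r w = Tq r (dt (fun i => (c' : ℤ) * u i) (fun i => (c' : ℤ) * u i)) := by
      refine two_main hr (k := k) (n := (pr N : ℤ)) (by rw [hdt, hv]) (by rw [hdt, hw]) hn8 ?_ ?_
      · intro i
        have h9 : v i + w i = c * u i := hcu i
        rw [h9, hc']
        push_cast
        ring
      · have key : ∀ x : ℤ, x % 2 = 1 → ((c' : ℤ) * x) % 2 = 1 := by
          intro x hx
          rw [Int.mul_emod, hc'm, hx]
          norm_num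
        rcases hodd2 with h | h | h
        · exact Or.inl (key _ h)
        · exact Or.inr (Or.inl (key _ h))
        · exact Or.inr (Or.inr (key _ h))
    rw [hP, h2]
    refine Tq_mod _ _ _ ?_
    have e1 : dt (fun i => (c' : ℤ) * u i) (fun i => (c' : ℤ) * u i) = (c' : ℤ) ^ 2 * q := by
      rw [← hq]
      unfold dt
      ring
    rw [e1]
    have e2 : (c' : ℤ) ^ 2 % 8 = 1 := by
      have h9 : (c' : ℤ) % 8 = 1 ∨ (c' : ℤ) % 8 = 3 ∨ (c' : ℤ) % 8 = 5 ∨ (c' : ℤ) % 8 = 7 := by omega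
      rcases h9 with h | h | h | h <;> rw [sq, Int.mul_emod, h] <;> norm_num
    rw [Int.mul_emod, e2, one_mul, Int.emod_emod]
  · -- opposite vectors
    push Not at hx
    have hwv : ∀ i, w i = -v i := fun i => by linear_combination hx i
    rw [om_neg hr (by rw [hdt, hv, hn8]) hwv]
    have h1 : ∀ p ∈ N, ph p (rd p v) * ph p (rd p w) = jacobiSym (-1) p := by
      intro p hp
      obtain ⟨hpp, hp2⟩ := hN p hp
      obtain ⟨d1, d2⟩ := pr_sq hN hp
      have : NeZero p := ⟨hpp.ne_zero⟩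
      have hpi : Prime (p : ℤ) := Nat.prime_iff_prime_int.1 hpp
      have hp1 : ¬ (p : ℤ) ∣ -1 := by
        intro h
        rw [dvd_neg] at h
        exact hpi.not_dvd_one h
      have hf := ph_spec h hpp hp2
      have e1 := f_mult (v := v) (w := w) hf hp1 (fun i => ⟨0, by rw [hwv i]; ring⟩)
      have rv : rd p v ⬝ᵥ rd p v = 0 := by
        rw [rd_dot, hv, ZMod.intCast_zmod_eq_zero_iff_dvd]
        exact d1
      have rne : rd p v ≠ 0 := by
        intro h0
        apply d2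
        have h3 : ∀ i, (p : ℤ) ∣ v i := fun i =>
          (ZMod.intCast_zmod_eq_zero_iff_dvd _ p).1 (congrFun h0 i)
        obtain ⟨a, ha⟩ := h3 0
        obtain ⟨b, hb⟩ := h3 1
        obtain ⟨d, hd⟩ := h3 2
        rw [dot3, ha, hb, hd] at hv
        exact ⟨a ^ 2 + b ^ 2 + d ^ 2, by rw [← hv]; ring⟩
      have hfv : ph p (rd p v) * ph p (rd p v) = 1 := by
        rcases hf.pm _ rv rne with h | h <;> rw [h] <;> norm_num
      rw [e1]
      linear_combination jacobiSym (-1) p * hfv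
    unfold Ph
    rw [← Finset.prod_mul_distrib, Finset.prod_congr rfl h1,
      ← jac_prod _ _ fun p hp => (hN p hp).1.ne_zero, jneg hodd]
    rcases hr with rfl | rfl
    · rw [if_neg (by omega : ¬ pr N % 4 = 1), if_pos rfl]
    · rw [if_pos (by omega : pr N % 4 = 1), if_neg (by norm_num)]

lemma Ph_pm (h : S_PHI) (N : Finset ℕ) (hN : ∀ p ∈ N, p.Prime ∧ p ≠ 2) {v : V3}
    (hv : v ⬝ᵥ v = (pr N : ℤ)) : Ph N v = 1 ∨ Ph N v = -1 := by
  have h1 : ∀ p ∈ N, ph p (rd p v) * ph p (rd p v) = 1 := by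
    intro p hp
    obtain ⟨hpp, hp2⟩ := hN p hp
    obtain ⟨d1, d2⟩ := pr_sq hN hp
    have hf := ph_spec h hpp hp2
    have rv : rd p v ⬝ᵥ rd p v = 0 := by
      rw [rd_dot, hv, ZMod.intCast_zmod_eq_zero_iff_dvd]
      exact d1
    have rne : rd p v ≠ 0 := by
      intro h0
      apply d2
      have h3 : ∀ i, (p : ℤ) ∣ v i := fun i =>
        (ZMod.intCast_zmod_eq_zero_iff_dvd _ p).1 (congrFun h0 i)
      obtain ⟨a, ha⟩ := h3 0
      obtain ⟨b, hb⟩ := h3 1
      obtain ⟨d, hd⟩ := h3 2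
      rw [dot3, ha, hb, hd] at hv
      exact ⟨a ^ 2 + b ^ 2 + d ^ 2, by rw [← hv]; ring⟩
    rcases hf.pm _ rv rne with h | h <;> rw [h] <;> norm_num
  have h2 : Ph N v * Ph N v = 1 := by
    unfold Ph
    rw [← Finset.prod_mul_distrib, Finset.prod_congr rfl h1, Finset.prod_const_one]
  exact mul_self_eq_one_iff.1 h2

end Pool.Agent.NH1.PP

namespace Pool.Agent.NH1

open Finset Matrix
open Pool.Agent.Z700 (V3 vec pr Ln n0 ep X2)

/-- **the product formula** -/
theorem t_PROD (h : S_PHI) : S_PROD := by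
  intro N r hN hr hn
  have hmem : ∀ v, v ∈ vec (pr N : ℤ) → v ⬝ᵥ v = (pr N : ℤ) := fun v hv =>
    (Finset.mem_filter.1 hv).2
  rcases (vec (pr N : ℤ)).eq_empty_or_nonempty with h0 | ⟨v0, hv0⟩
  · exact ⟨1, Or.inl rfl, fun v hv => by rw [h0] at hv; exact absurd hv (Finset.notMem_empty v)⟩
  have hn8 : ((pr N : ℕ) : ℤ) % 8 = r := by omega
  have hP0 := PP.Ph_pm h N hN (hmem v0 hv0)
  have hdt : ∀ x y : V3, PP.dt x y = x ⬝ᵥ y := fun x y => (PP.dot3 x y).symm
  have ho0 := PP.om_pm hr (v := v0) (by rw [hdt, hmem v0 hv0, hn8])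
  refine ⟨Ph N v0 * om r v0, ?_, fun v hv => ?_⟩
  · rcases hP0 with a | a <;> rcases ho0 with b | b <;> rw [a, b] <;> norm_num
  · have h1 := PP.pair_main h N r hN hr hn (hmem v hv) (hmem v0 hv0)
    have h2 : Ph N v0 * Ph N v0 = 1 := by
      rcases hP0 with a | a <;> rw [a] <;> norm_num
    linear_combination Ph N v0 * h1 - Ph N v * h2

end Pool.Agent.NH1
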