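import Pool.Agent.NH1.Sub

/-!
# RLIN: the Rédei kernel and the determinant
-/

set_option autoImplicit false

namespace Pool.Agent.NH1

open Finset Matrix
open Pool.Agent.Z700 (pr)

noncomputable section

namespace RL

/-! ### elements of `ZMod 2` and signs -/

/-- the sign of an element of `ZMod 2` -/
def sg (x : ZMod 2) : ℤ := if x = 0 then 1 else -1

theorem z2 : ∀ x : ZMod 2, x = 0 ∨ x = 1 := by decide

theorem sg_add : ∀ x y : ZMod 2, sg (x + y) = sg x * sg y := by
  intro x y
  rcases z2 x with rfl | rfl <;> rcases z2 y with rfl | rfl <;> decide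

theorem sg_zero : sg 0 = 1 := rfl

theorem sg_one : sg 1 = -1 := rfl

theorem sg_eq_one {x : ZMod 2} : sg x = 1 ↔ x = 0 := by
  rcases z2 x with rfl | rfl <;> decide

theorem sg_eq_neg {x : ZMod 2} : sg x = -1 ↔ x = 1 := by
  rcases z2 x with rfl | rfl <;> decide

theorem add_self (x : ZMod 2) : x + x = 0 := by
  rcases z2 x with rfl | rfl <;> decide

/-- the symbol and `lg` -/
theorem jac_eq {t p : ℕ} (ht : t.Prime) (hp : p.Prime) (h : t ≠ p) :
    jacobiSym (t : ℤ) p = sg (lg t p) := by
  have hc : Int.gcd (t : ℤ) (p : ℤ) = 1 := by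
    rw [Int.gcd_natCast_natCast]
    exact (Nat.coprime_primes ht hp).2 h
  rcases jacobiSym.eq_one_or_neg_one hc with h1 | h1
  · have : ¬ ((1 : ℤ) = -1) := by decide
    simp only [lg, h1, if_neg this, sg_zero]
  · simp only [lg, h1, if_true, sg_one]

theorem jac_pr {D : Finset ℕ} {p : ℕ} (hp : p.Prime) (hD : ∀ t ∈ D, t.Prime ∧ t ≠ p) :
    jacobiSym ((pr D : ℕ) : ℤ) p = sg (∑ t ∈ D, lg t p) := by
  classical
  induction D using Finset.induction_on with
  | empty =>
    simp [pr, sg_zero, jacobiSym.one_left]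
  | insert a s ha ih =>
    have h1 : pr (insert a s) = a * pr s := by
      unfold pr
      rw [Finset.prod_insert ha]
    rw [h1, Nat.cast_mul, jacobiSym.mul_left, Finset.sum_insert ha, sg_add,
      ih fun t ht => hD t (Finset.mem_insert_of_mem ht),
      jac_eq (hD a (Finset.mem_insert_self _ _)).1 hp (hD a (Finset.mem_insert_self _ _)).2]

/-- reciprocity -/
theorem recip {t p : ℕ} (ht : t.Prime) (hp : p.Prime) (ht2 : t ≠ 2) (hp2 : p ≠ 2) (h : t ≠ p) :
    lg t p + lg p t = al t * al p := by
  have h1 := jacobiSym.quadratic_reciprocity_if ((Nat.Prime.mod_two_eq_one_iff_ne_two ht).2 ht2)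
    ((Nat.Prime.mod_two_eq_one_iff_ne_two hp).2 hp2)
  rw [jac_eq ht hp h, jac_eq hp ht (Ne.symm h)] at h1
  unfold al
  by_cases h3 : t % 4 = 3 <;> by_cases h4 : p % 4 = 3
  · simp only [h3, h4, and_self, if_true] at h1 ⊢
    rcases z2 (lg t p) with h5 | h5 <;> rcases z2 (lg p t) with h6 | h6 <;>
      simp only [h5, h6, sg_zero, sg_one] at h1 ⊢ <;> first | decide | (exfalso; revert h1; decide)
  all_goals
    simp only [h3, h4, and_self, and_true, and_false, if_true, if_false, mul_zero, zero_mul] at h1 ⊢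
    rcases z2 (lg t p) with h5 | h5 <;> rcases z2 (lg p t) with h6 | h6 <;>
      simp only [h5, h6, sg_zero, sg_one] at h1 ⊢ <;> first | decide | (exfalso; revert h1; decide)

/-- the symbol of two -/
theorem jac_two {p : ℕ} (hp : p.Prime) (hp2 : p ≠ 2) :
    jacobiSym 2 p = if sq2 p then 1 else -1 := by
  have ho : p % 2 = 1 := (Nat.Prime.mod_two_eq_one_iff_ne_two hp).2 hp2
  rw [jacobiSym.at_two (Nat.odd_iff.2 ho), ZMod.χ₈_nat_eq_if_mod_eight]
  have : ¬ p % 2 = 0 := by omega
  rw [if_neg this]
  rfl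

theorem sum_al {N : Finset ℕ} (h : ∀ p ∈ N, p % 2 = 1) :
    pr N % 2 = 1 ∧ ∑ p ∈ N, al p = if pr N % 4 = 3 then 1 else 0 := by
  classical
  induction N using Finset.induction_on with
  | empty => simp [pr]
  | insert a s ha ih =>
    have h1 : pr (insert a s) = a * pr s := by
      unfold pr
      rw [Finset.prod_insert ha]
    have h2 := ih fun t ht => h t (Finset.mem_insert_of_mem ht)
    have h3 := h a (Finset.mem_insert_self _ _)
    rw [h1, Finset.sum_insert ha, h2.2]
    have h4 := h2.1
    generalize pr s = m at h4 ⊢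
    unfold al
    have h5 : a % 4 = 1 ∨ a % 4 = 3 := by omega
    have h6 : m % 4 = 1 ∨ m % 4 = 3 := by omega
    have h7 : (a * m) % 4 = ((a % 4) * (m % 4)) % 4 := Nat.mul_mod _ _ _
    have h8 : (a * m) % 2 = ((a % 2) * (m % 2)) % 2 := Nat.mul_mod _ _ _
    refine ⟨by rw [h8, h3, h4], ?_⟩
    rw [h7]
    rcases h5 with h5 | h5 <;> rcases h6 with h6 | h6 <;> rw [h5, h6] <;> decide


/-! ### the permanent is the determinant -/

theorem unit_smul (u : ℤˣ) (x : ZMod 2) : u • x = x := by
  rcases Int.units_eq_one_or u with rfl | rfl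
  · exact one_smul _ _
  · rw [Units.neg_smul, one_smul]
    rcases z2 x with rfl | rfl <;> decide

open Classical in
theorem perm2_eq {R C : Finset ℕ} (ε : R ≃ C) (M : ℕ → ℕ → ZMod 2) :
    perm2 R C M = (Matrix.of fun p p' : R => M p.1 (ε p').1).det := by
  rw [← Matrix.det_transpose, Matrix.det_apply]
  unfold perm2
  refine Fintype.sum_equiv ((Equiv.refl _).equivCongr ε.symm) _ _ fun σ => ?_
  rw [unit_smul]
  refine Finset.prod_congr rfl fun p _ => ?_
  rw [Matrix.transpose_apply, Matrix.of_apply]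
  congr 2
  simp [Equiv.equivCongr]

theorem perm2_singular {R C : Finset ℕ} (hRC : R.card = C.card) (M : ℕ → ℕ → ZMod 2) :
    perm2 R C M = 0 ↔ ∃ D ⊆ R, D.Nonempty ∧ ∀ p ∈ C, ∑ t ∈ D, M t p = 0 := by
  classical
  have ε : R ≃ C := Finset.equivOfCardEq hRC
  have h0 := perm2_eq ε M
  have h1 := Matrix.exists_vecMul_eq_zero_iff (M := Matrix.of fun p p' : R => M p.1 (ε p').1)
  have h2 : perm2 R C M = 0 ↔ ∃ v : R → ZMod 2, v ≠ 0 ∧
      v ᵥ* (Matrix.of fun p p' : R => M p.1 (ε p').1) = 0 := by
    rw [h1, h0]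
  rw [h2]
  constructor
  · rintro ⟨v, hv, hvM⟩
    refine ⟨(Finset.univ.filter fun p : R => v p = 1).map (Function.Embedding.subtype _), ?_, ?_, ?_⟩
    · intro p hp
      rw [Finset.mem_map] at hp
      obtain ⟨a, -, rfl⟩ := hp
      exact a.2
    · obtain ⟨p, hp⟩ := Function.ne_iff.1 hv
      refine ⟨p.1, ?_⟩
      rw [Finset.mem_map]
      refine ⟨p, ?_, rfl⟩
      rw [Finset.mem_filter]
      refine ⟨Finset.mem_univ _, ?_⟩
      rcases z2 (v p) with h | h
      · exact absurd h hp
      · exact h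
    · intro p hp
      rw [Finset.sum_map, Finset.sum_filter]
      have h3 := congrFun hvM (ε.symm ⟨p, hp⟩)
      simp only [Matrix.vecMul, dotProduct, Matrix.of_apply, Equiv.apply_symm_apply,
        Pi.zero_apply] at h3
      refine Eq.trans (Finset.sum_congr rfl fun x _ => ?_) h3
      rcases z2 (v x) with h | h
      · rw [h, zero_mul, if_neg (by decide)]
      · rw [h, one_mul, if_pos rfl]
        rfl
  · rintro ⟨D, hD, ⟨d, hd⟩, hDM⟩
    refine ⟨fun p => if p.1 ∈ D then 1 else 0, ?_, ?_⟩
    · intro h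
      have := congrFun h ⟨d, hD hd⟩
      simp only [hd, if_true, Pi.zero_apply] at this
      exact absurd this (by decide)
    · funext p'
      simp only [Matrix.vecMul, dotProduct, Matrix.of_apply, Pi.zero_apply, ite_mul, one_mul,
        zero_mul]
      have h3 := hDM (ε p').1 (ε p').2
      refine Eq.trans ?_ h3
      rw [← Finset.sum_filter]
      refine Finset.sum_nbij (fun x => x.1) ?_ ?_ ?_ ?_
      · intro x hx
        exact (Finset.mem_filter.1 hx).2
      · intro x _ y _ hxy
        exact Subtype.ext hxy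
      · intro x hx
        exact ⟨⟨x, hD hx⟩, by simpa using hx, rfl⟩
      · intro x _
        rfl

/-! ### the Rédei matrix -/

/-- the Rédei matrix: `t` is the variable and `p` the equation -/
def Mt (N : Finset ℕ) (t p : ℕ) : ZMod 2 := if t = p then ∑ s ∈ N.erase p, lg s p else lg t p

theorem gen_eq {N D : Finset ℕ} (hN : ∀ p ∈ N, p.Prime) (hD : D ⊆ N) {p : ℕ} (hp : p ∈ N) :
    gen N D p = sg (∑ t ∈ D, Mt N t p) := by
  classical
  unfold gen
  by_cases hpD : p ∈ D
  · rw [if_pos hpD, jac_pr (hN p hp) (fun t ht => ⟨hN t (Finset.mem_sdiff.1 ht).1, fun h =>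
      (Finset.mem_sdiff.1 ht).2 (h ▸ hpD)⟩)]
    congr 1
    rw [← Finset.add_sum_erase _ _ hpD]
    have e1 : ∑ t ∈ D.erase p, Mt N t p = ∑ t ∈ D.erase p, lg t p := by
      refine Finset.sum_congr rfl fun t ht => ?_
      exact if_neg (Finset.ne_of_mem_erase ht)
    have e2 : Mt N p p = ∑ t ∈ N \ D, lg t p + ∑ t ∈ D.erase p, lg t p := by
      unfold Mt
      rw [if_pos rfl]
      have e3 : N.erase p = (N \ D) ∪ D.erase p := by
        ext x
        simp only [Finset.mem_erase, Finset.mem_union, Finset.mem_sdiff]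
        constructor
        · rintro ⟨h1, h2⟩
          by_cases h3 : x ∈ D
          · exact Or.inr ⟨h1, h3⟩
          · exact Or.inl ⟨h2, h3⟩
        · rintro (⟨h1, h2⟩ | ⟨h1, h2⟩)
          · exact ⟨fun h => h2 (h ▸ hpD), h1⟩
          · exact ⟨h1, hD h2⟩
      rw [e3, Finset.sum_union]
      rw [Finset.disjoint_left]
      intro x hx hx2
      exact (Finset.mem_sdiff.1 hx).2 (Finset.mem_of_mem_erase hx2)
    rw [e1, e2, add_assoc, add_self, add_zero]
  · rw [if_neg hpD, jac_pr (hN p hp) (fun t ht => ⟨hN t (hD ht), fun h => hpD (h ▸ ht)⟩)]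
    congr 1
    refine Finset.sum_congr rfl fun t ht => ?_
    have hne : t ≠ p := fun h => hpD (h ▸ ht)
    unfold Mt
    rw [if_neg hne]

/-- the sum over the variables -/
theorem row_sum (N : Finset ℕ) {p : ℕ} (hp : p ∈ N) : ∑ t ∈ N, Mt N t p = 0 := by
  classical
  rw [← Finset.add_sum_erase _ _ hp]
  have e1 : ∑ t ∈ N.erase p, Mt N t p = ∑ t ∈ N.erase p, lg t p := by
    refine Finset.sum_congr rfl fun t ht => ?_
    exact if_neg (Finset.ne_of_mem_erase ht)
  rw [e1]
  unfold Mt
  rw [if_pos rfl, add_self]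

theorem recip_sum {N : Finset ℕ} (hN : Pm N) {t : ℕ} (ht : t ∈ N) :
    ∑ s ∈ N.erase t, lg s t = ∑ s ∈ N.erase t, lg t s + al t * (∑ s ∈ N, al s + 1) := by
  classical
  have e1 : ∀ s ∈ N.erase t, lg s t = lg t s + al t * al s := by
    intro s hs
    have hs' := Finset.mem_erase.1 hs
    have := recip (hN s hs'.2).1 (hN t ht).1 (hN s hs'.2).2.1 (hN t ht).2.1 hs'.1
    calc lg s t = lg s t + (lg t s + lg t s) := by rw [add_self, add_zero]
      _ = lg t s + (lg s t + lg t s) := by ring
      _ = lg t s + al t * al s := by rw [this]; ring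
  rw [Finset.sum_congr rfl e1, Finset.sum_add_distrib, ← Finset.mul_sum,
    ← Finset.add_sum_erase _ al ht]
  congr 1
  have : ∀ a b : ZMod 2, a * b = a * (a + b + 1) := by decide
  exact this _ _

/-- the sum over the equations -/
theorem col_sum {N : Finset ℕ} (hN : Pm N) {t : ℕ} (ht : t ∈ N) :
    ∑ p ∈ N, Mt N t p = al t * (∑ s ∈ N, al s + 1) := by
  classical
  rw [← Finset.add_sum_erase _ _ ht]
  have e1 : ∑ p ∈ N.erase t, Mt N t p = ∑ p ∈ N.erase t, lg t p := by
    refine Finset.sum_congr rfl fun p hp => ?_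
    exact if_neg (Ne.symm (Finset.ne_of_mem_erase hp))
  rw [e1]
  unfold Mt
  rw [if_pos rfl, recip_sum hN ht]
  have : ∀ a b : ZMod 2, a + b + a = b := by decide
  exact this _ _

theorem Lp_eq {N : Finset ℕ} (hN : Pm N) (hK : pr N % 8 = 3 ∨ pr N % 8 = 5) {t p : ℕ} (ht : t ∈ N) :
    Lp lg (fun p => hh (pr N % 8) p + gX p) N t p = Mt N t p := by
  unfold Lp Mt
  by_cases h : t = p
  · subst h
    rw [if_pos rfl, if_pos rfl, recip_sum hN ht, (sum_al fun p hp =>
      (Nat.Prime.mod_two_eq_one_iff_ne_two (hN p hp).1).2 (hN p hp).2.1).2, add_comm]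
    congr 1
    show hh (pr N % 8) t + gX t = _
    unfold hh
    rcases hK with h | h
    · have h4 : pr N % 4 = 3 := by omega
      have h5 : pr N % 8 = 3 := h
      rw [if_pos h5, if_pos h4, add_self, add_self, mul_zero]
    · have h4 : ¬ pr N % 4 = 3 := by omega
      have h5 : ¬ pr N % 8 = 3 := by omega
      rw [if_neg h5, if_neg h4, zero_add, mul_one, add_right_comm, add_self, zero_add]
  · rw [if_neg h, if_neg h]

/-! ### the main argument -/

theorem main {N : Finset ℕ} (hN : Pm N) (hK : pr N % 8 = 3 ∨ pr N % 8 = 5) {z z' : ℕ} (hz : z ∈ N)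
    (hz' : z' ∈ N) (hz2 : ¬ sq2 z) (hs : ∀ p ∈ N, p ≠ z → sq2 p) :
    KerR N ↔ perm2 (N.erase z') (N.erase z) (Mt N) = 1 := by
  classical
  have hcard : (N.erase z').card = (N.erase z).card := by
    rw [Finset.card_erase_of_mem hz, Finset.card_erase_of_mem hz']
  have hsing := perm2_singular hcard (Mt N)
  have hpr : ∀ p ∈ N, p.Prime := fun p hp => (hN p hp).1
  have hJz : jacobiSym 2 z = -1 := by
    rw [jac_two (hpr z hz) (hN z hz).2.1, if_neg hz2]
  have hJp : ∀ p ∈ N, p ≠ z → jacobiSym 2 p = 1 := by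
    intro p hp h
    rw [jac_two (hpr p hp) (hN p hp).2.1, if_pos (hs p hp h)]
  constructor
  · intro hker
    rcases z2 (perm2 (N.erase z') (N.erase z) (Mt N)) with h | h
    swap
    · exact h
    exfalso
    obtain ⟨D, hD, hDne, hDM⟩ := hsing.1 h
    have hDN : D ⊆ N := fun x hx => Finset.mem_of_mem_erase (hD hx)
    have hz'D : z' ∉ D := fun hx => Finset.notMem_erase z' N (hD hx)
    have hne : ¬ (D = ∅ ∨ D = N) := by
      rintro (h1 | h1)
      · exact hDne.ne_empty h1
      · exact hz'D (h1 ▸ hz')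
    have hgp : ∀ p ∈ N, p ≠ z → gen N D p = 1 := by
      intro p hp h1
      rw [gen_eq hpr hDN hp, hDM p (Finset.mem_erase.2 ⟨h1, hp⟩), sg_zero]
    rcases z2 (∑ t ∈ D, Mt N t z) with h1 | h1
    · have hgz : gen N D z = 1 := by rw [gen_eq hpr hDN hz, h1, sg_zero]
      refine hne (hker D hDN 0 (by norm_num) (fun _ => rfl) ?_).2
      intro p hp
      rw [pow_zero, mul_one]
      by_cases h2 : p = z
      · rw [h2, hgz]
      · exact hgp p hp h2
    · have hgz : gen N D z = -1 := by rw [gen_eq hpr hDN hz, h1, sg_one]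
      have hsum : ∑ t ∈ D, ∑ p ∈ N, Mt N t p = 1 := by
        rw [Finset.sum_comm, ← Finset.add_sum_erase _ _ hz, h1,
          Finset.sum_eq_zero fun p hp => hDM p hp, add_zero]
      rcases hK with h8 | h8
      · have h4 : pr N % 4 = 3 := by omega
        rw [Finset.sum_eq_zero] at hsum
        · exact absurd hsum (by decide)
        · intro t ht
          rw [col_sum hN (hDN ht), (sum_al fun p hp =>
            (Nat.Prime.mod_two_eq_one_iff_ne_two (hN p hp).1).2 (hN p hp).2.1).2, if_pos h4,
            add_self, mul_zero]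
      · have h5 := (hker D hDN 1 (by norm_num) (fun h => by omega) ?_).1
        · exact absurd h5 (by norm_num)
        · intro p hp
          rw [pow_one]
          by_cases h2 : p = z
          · rw [h2, hgz, hJz]
            norm_num
          · rw [hgp p hp h2, hJp p hp h2, mul_one]
  · intro h D hD e he he3 hg
    have hns : ¬ ∃ D ⊆ N.erase z', D.Nonempty ∧ ∀ p ∈ N.erase z, ∑ t ∈ D, Mt N t p = 0 := by
      intro h1
      rw [hsing.2 h1] at h
      exact absurd h (by decide)
    have hD0 : ∀ p ∈ N.erase z, ∑ t ∈ D, Mt N t p = 0 := by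
      intro p hp
      have hp' := Finset.mem_erase.1 hp
      have h1 := hg p hp'.2
      rw [hJp p hp'.2 hp'.1, one_pow, mul_one, gen_eq hpr hD hp'.2] at h1
      exact sg_eq_one.1 h1
    have hDD : D = ∅ ∨ D = N := by
      by_cases hzD : z' ∈ D
      · right
        by_contra hne
        refine hns ⟨N \ D, ?_, ?_, ?_⟩
        · intro x hx
          have hx' := Finset.mem_sdiff.1 hx
          exact Finset.mem_erase.2 ⟨fun h => hx'.2 (h ▸ hzD), hx'.1⟩
        · rw [Finset.nonempty_iff_ne_empty]
          intro h1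
          exact hne (Finset.Subset.antisymm hD (Finset.sdiff_eq_empty_iff_subset.1 h1))
        · intro p hp
          have h1 := row_sum N (Finset.mem_of_mem_erase hp)
          rw [← Finset.sum_sdiff hD, hD0 p hp, add_zero] at h1
          exact h1
      · left
        by_contra hne
        exact hns ⟨D, fun x hx => Finset.mem_erase.2 ⟨fun h => hzD (h ▸ hx), hD hx⟩,
          Finset.nonempty_iff_ne_empty.2 hne, hD0⟩
    refine ⟨?_, hDD⟩
    have hgz : gen N D z = 1 := by
      rw [gen_eq hpr hD hz]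
      rcases hDD with h1 | h1
      · rw [h1, Finset.sum_empty, sg_zero]
      · rw [h1, row_sum N hz, sg_zero]
    have h2 := hg z hz
    rw [hgz, hJz, one_mul] at h2
    have h3 : e = 0 ∨ e = 1 := by omega
    rcases h3 with h3 | h3
    · exact h3
    · rw [h3] at h2
      exact absurd h2 (by norm_num)

theorem perm2_congr {R C : Finset ℕ} {M M' : ℕ → ℕ → ZMod 2} (h : ∀ t ∈ R, ∀ p ∈ C, M t p = M' t p) :
    perm2 R C M = perm2 R C M' := by
  unfold perm2
  refine Finset.sum_congr rfl fun σ _ => Finset.prod_congr rfl fun p _ => ?_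
  exact h p.1 p.2 _ (σ p).2

theorem mem_types (N : Finset ℕ) {p : ℕ} (hp : p ∈ N) :
    p ∈ sS N ∨ p ∈ sI N ∨ p ∈ sA N ∨ p ∈ sB N := by
  unfold sS sI sA sB
  simp only [Finset.mem_filter, hp, true_and]
  by_cases h1 : sq2 p <;> by_cases h2 : sq7 p
  · exact Or.inl ⟨h1, h2⟩
  · exact Or.inr (Or.inr (Or.inl ⟨h1, h2⟩))
  · exact Or.inr (Or.inr (Or.inr ⟨h1, h2⟩))
  · exact Or.inr (Or.inl ⟨h1, h2⟩)

end RL

open RL in
theorem t_RLIN : S_RLIN := by
  classical
  intro N hN hK hAB hI
  have hK8 : pr N % 8 = 3 ∨ pr N % 8 = 5 := by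
    rcases hK with h | h
    · exact Or.inl h.1
    · exact Or.inr h.1
  unfold DD
  have hcongr : perm2 (sS N ∪ sB N) (sS N ∪ sA N)
      (Lp lg (fun p => hh (pr N % 8) p + gX p) N) =
      perm2 (sS N ∪ sB N) (sS N ∪ sA N) (Mt N) := by
    refine perm2_congr fun t ht p _ => Lp_eq hN hK8 ?_
    rcases Finset.mem_union.1 ht with h | h
    · exact (Finset.mem_filter.1 h).1
    · exact (Finset.mem_filter.1 h).1
  rw [hcongr]
  rcases Nat.eq_zero_or_pos (sA N).card with hA | hA
  · have hA0 : sA N = ∅ := Finset.card_eq_zero.1 hA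
    have hB0 : sB N = ∅ := Finset.card_eq_zero.1 (by omega)
    obtain ⟨q, hq⟩ := Finset.card_eq_one.1 (show (sI N).card = 1 by omega)
    have hqI : q ∈ sI N := by rw [hq]; exact Finset.mem_singleton_self q
    have hqN := (Finset.mem_filter.1 hqI).1
    have hq2 := (Finset.mem_filter.1 hqI).2
    have hS : sS N = N.erase q := by
      ext x
      rw [Finset.mem_erase]
      constructor
      · intro hx
        have := Finset.mem_filter.1 hx
        exact ⟨fun h => hq2.1 (h ▸ this.2.1), this.1⟩
      · rintro ⟨h1, h2⟩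
        rcases mem_types N h2 with h | h | h | h
        · exact h
        · rw [hq] at h
          exact absurd (Finset.mem_singleton.1 h) h1
        · rw [hA0] at h
          exact absurd h (Finset.notMem_empty _)
        · rw [hB0] at h
          exact absurd h (Finset.notMem_empty _)
    rw [hA0, hB0, Finset.union_empty, hS]
    refine main hN hK8 hqN hqN hq2.1 ?_
    intro p hp hpq
    have : p ∈ sS N := by rw [hS]; exact Finset.mem_erase.2 ⟨hpq, hp⟩
    exact (Finset.mem_filter.1 this).2.1
  · have hI0 : sI N = ∅ := Finset.card_eq_zero.1 (by omega)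
    obtain ⟨a, ha⟩ := Finset.card_eq_one.1 (show (sA N).card = 1 by omega)
    obtain ⟨b, hb⟩ := Finset.card_eq_one.1 (show (sB N).card = 1 by omega)
    have haA : a ∈ sA N := by rw [ha]; exact Finset.mem_singleton_self a
    have haN := (Finset.mem_filter.1 haA).1
    have ha2 := (Finset.mem_filter.1 haA).2
    have hbB : b ∈ sB N := by rw [hb]; exact Finset.mem_singleton_self b
    have hbN := (Finset.mem_filter.1 hbB).1
    have hb2 := (Finset.mem_filter.1 hbB).2
    have hR : sS N ∪ sB N = N.erase a := by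
      ext x
      rw [Finset.mem_erase, Finset.mem_union]
      constructor
      · rintro (hx | hx)
        · have := Finset.mem_filter.1 hx
          exact ⟨fun h => ha2.2 (h ▸ this.2.2), this.1⟩
        · have := Finset.mem_filter.1 hx
          exact ⟨fun h => ha2.2 (h ▸ this.2.2), this.1⟩
      · rintro ⟨h1, h2⟩
        rcases mem_types N h2 with h | h | h | h
        · exact Or.inl h
        · rw [hI0] at h
          exact absurd h (Finset.notMem_empty _)
        · rw [ha] at h
          exact absurd (Finset.mem_singleton.1 h) h1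
        · exact Or.inr h
    have hC : sS N ∪ sA N = N.erase b := by
      ext x
      rw [Finset.mem_erase, Finset.mem_union]
      constructor
      · rintro (hx | hx)
        · have := Finset.mem_filter.1 hx
          exact ⟨fun h => hb2.1 (h ▸ this.2.1), this.1⟩
        · have := Finset.mem_filter.1 hx
          exact ⟨fun h => hb2.1 (h ▸ this.2.1), this.1⟩
      · rintro ⟨h1, h2⟩
        rcases mem_types N h2 with h | h | h | h
        · exact Or.inl h
        · rw [hI0] at h
          exact absurd h (Finset.notMem_empty _)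
        · exact Or.inr h
        · rw [hb] at h
          exact absurd (Finset.mem_singleton.1 h) h1
    rw [hR, hC]
    refine main hN hK8 hbN haN hb2.1 ?_
    intro p hp hpb
    have : p ∈ sS N ∪ sA N := by rw [hC]; exact Finset.mem_erase.2 ⟨hpb, hp⟩
    rcases Finset.mem_union.1 this with h | h
    · exact (Finset.mem_filter.1 h).2.1
    · exact (Finset.mem_filter.1 h).2.1

end

end Pool.Agent.NH1
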