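import Pool.Agent.NH1.Sub2

/-!
# Project NH1, job 22: relations between the sums
-/

set_option autoImplicit false

namespace Pool.Agent.NH1

open Finset Matrix
open Pool.Agent.Z700 (V3 vec pr cp Ln n0 ep X2)

namespace Rl

noncomputable section

theorem dot3 (v w : V3) : v ⬝ᵥ w = v 0 * w 0 + v 1 * w 1 + v 2 * w 2 := by
  simp [dotProduct, Fin.sum_univ_three]

theorem vec_norm {n : ℤ} {v : V3} (h : v ∈ vec n) : v ⬝ᵥ v = n := by
  unfold Pool.Agent.Z700.vec at h
  exact (Finset.mem_filter.1 h).2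

theorem pm_sq {x : ℤ} (h : x = 1 ∨ x = -1) : x * x = 1 := by
  rcases h with h | h <;> rw [h] <;> norm_num

theorem prod_pm {N : Finset ℕ} {f : ℕ → ℤ} (h : ∀ p ∈ N, f p = 1 ∨ f p = -1) :
    ∏ p ∈ N, f p = 1 ∨ ∏ p ∈ N, f p = -1 := by
  induction N using Finset.induction_on with
  | empty => left; simp
  | insert a s ha ih =>
    rw [Finset.prod_insert ha]
    have h1 := ih fun p hp => h p (Finset.mem_insert_of_mem hp)
    rcases h a (Finset.mem_insert_self a s) with e | e <;> rcases h1 with e1 | e1 <;>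
      rw [e, e1] <;> norm_num

theorem ph_pm (h0 : S_PHI) {N : Finset ℕ} (hN : Pm N) {v : V3} (hv : v ∈ vec (pr N : ℤ)) {p : ℕ}
    (hp : p ∈ N) : ph p (rd p v) = 1 ∨ ph p (rd p v) = -1 := by
  have hs := ph_spec h0 (hN p hp).1 (hN p hp).2.1
  have hv' := vec_norm hv
  have hd : (p : ℤ) ∣ (pr N : ℤ) := by
    have : p ∣ pr N := Finset.dvd_prod_of_mem (fun x => x) hp
    exact_mod_cast this
  apply hs.pm
  · have he : rd p v ⬝ᵥ rd p v = (((v ⬝ᵥ v : ℤ)) : ZMod p) := by
      simp [dotProduct, rd]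
    rw [he, hv', ZMod.intCast_zmod_eq_zero_iff_dvd]
    exact hd
  · intro h
    have hi : ∀ i, (p : ℤ) ∣ v i := by
      intro i
      have := congrFun h i
      exact (ZMod.intCast_zmod_eq_zero_iff_dvd _ _).1 this
    have h2 : (p : ℤ) * p ∣ v ⬝ᵥ v := by
      rw [dot3]
      exact dvd_add (dvd_add (mul_dvd_mul (hi 0) (hi 0)) (mul_dvd_mul (hi 1) (hi 1)))
        (mul_dvd_mul (hi 2) (hi 2))
    rw [hv'] at h2
    have h3 : p * p ∣ pr N := by exact_mod_cast h2
    have h4 : pr N = p * pr (N.erase p) := (Finset.mul_prod_erase N (fun x => x) hp).symm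
    rw [h4] at h3
    have h5 : p ∣ pr (N.erase p) := Nat.dvd_of_mul_dvd_mul_left (hN p hp).1.pos h3
    obtain ⟨q, hq, hpq⟩ := (Prime.dvd_finsetProd_iff (hN p hp).1.prime _).1 h5
    have hqN := Finset.mem_erase.1 hq
    have := (Nat.prime_dvd_prime_iff_eq (hN p hp).1 (hN q hqN.2).1).1 hpq
    exact hqN.1 this.symm

/-- the expansion of the product -/
theorem expand {N : Finset ℕ} (γ f : ℕ → ℤ) (hγ : ∀ p ∈ N, γ p = 1 ∨ γ p = -1)
    (hf : ∀ p ∈ N, f p = 1 ∨ f p = -1) [Decidable (∀ p ∈ N, f p = γ p)] :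
    ∑ P ∈ N.powerset, (∏ p ∈ P, γ p) * ∏ p ∈ P, f p =
      if ∀ p ∈ N, f p = γ p then 2 ^ N.card else 0 := by
  have h1 : ∑ P ∈ N.powerset, (∏ p ∈ P, γ p) * ∏ p ∈ P, f p = ∏ p ∈ N, (1 + γ p * f p) := by
    rw [Finset.prod_one_add]
    exact Finset.sum_congr rfl fun P _ => by rw [Finset.prod_mul_distrib]
  rw [h1]
  split_ifs with h
  · rw [← Finset.prod_const]
    refine Finset.prod_congr rfl fun p hp => ?_
    rw [h p hp, pm_sq (hγ p hp)]
    norm_num
  · rw [not_forall] at h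
    obtain ⟨p, hp⟩ := h
    rw [Classical.not_imp] at hp
    apply Finset.prod_eq_zero hp.1
    rcases hγ p hp.1 with e1 | e1 <;> rcases hf p hp.1 with e2 | e2
    · exact absurd (by rw [e1, e2]) hp.2
    · rw [e1, e2]; norm_num
    · rw [e1, e2]; norm_num
    · exact absurd (by rw [e1, e2]) hp.2

/-- the first identity -/
theorem sumA (h0 : S_PHI) {N : Finset ℕ} (hN : Pm N) {r : ℕ} {C : ℤ} (hC : C = 1 ∨ C = -1)
    (hPr : ∀ v ∈ vec (pr N : ℤ), Ph N v = C * om r v) (β : ZMod 7) (γ : ℕ → ℤ)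
    (hγ : ∀ p ∈ N, γ p = 1 ∨ γ p = -1) :
    ∑ P ∈ N.powerset, (∏ p ∈ P, γ p) * Y r P (pr N : ℤ) β =
      2 ^ N.card * (C * (∏ p ∈ N, γ p) * (R N β γ : ℤ)) := by
  classical
  unfold Y
  simp_rw [Finset.mul_sum]
  rw [Finset.sum_comm]
  have h1 : ∀ v ∈ (vec (pr N : ℤ)).filter (fun v => Ln n0 β v),
      ∑ P ∈ N.powerset, (∏ p ∈ P, γ p) * (om r v * Ph P v) =
      if ∀ p ∈ N, ph p (rd p v) = γ p then 2 ^ N.card * (C * ∏ p ∈ N, γ p) else 0 := by
    intro v hv
    have hv1 := (Finset.mem_filter.1 hv).1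
    have e1 : ∑ P ∈ N.powerset, (∏ p ∈ P, γ p) * (om r v * Ph P v) =
        om r v * ∑ P ∈ N.powerset, (∏ p ∈ P, γ p) * ∏ p ∈ P, ph p (rd p v) := by
      rw [Finset.mul_sum]
      refine Finset.sum_congr rfl fun P _ => ?_
      unfold Ph
      ring
    rw [e1, expand γ (fun p => ph p (rd p v)) hγ fun p hp => ph_pm h0 hN hv1 hp]
    split_ifs with h
    · have e2 := hPr v hv1
      have e3 : Ph N v = ∏ p ∈ N, γ p := Finset.prod_congr rfl fun p hp => h p hp
      have e4 : om r v = C * ∏ p ∈ N, γ p := by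
        rw [← e3, e2, ← mul_assoc, pm_sq hC, one_mul]
      rw [e4]
      ring
    · rw [mul_zero]
  rw [Finset.sum_congr rfl h1, ← Finset.sum_filter, Finset.filter_filter, Finset.sum_const,
    nsmul_eq_mul]
  have h2 : R N β γ = ((vec (pr N : ℤ)).filter fun v => Ln n0 β v ∧
      ∀ p ∈ N, ph p (rd p v) = γ p).card := by
    unfold R
    congr
  rw [h2]
  ring

/-! ### Jacobi symbols -/

theorem pr_insert {P : Finset ℕ} {p : ℕ} (h : p ∉ P) : pr (insert p P) = p * pr P :=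
  Finset.prod_insert h

theorem pr_ne {P : Finset ℕ} (hP : Pm P) : pr P ≠ 0 :=
  Finset.prod_ne_zero_iff.2 fun p hp => (hP p hp).1.ne_zero

theorem pr_odd {P : Finset ℕ} (hP : Pm P) : Odd (pr P) := by
  induction P using Finset.induction_on with
  | empty => exact odd_one
  | insert a s ha ih =>
    rw [pr_insert ha]
    exact ((hP a (Finset.mem_insert_self a s)).1.odd_of_ne_two
      (hP a (Finset.mem_insert_self a s)).2.1).mul
      (ih fun p hp => hP p (Finset.mem_insert_of_mem hp))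

theorem pr_mod7 {P : Finset ℕ} (hP : Pm P) : pr P % 7 ≠ 0 := by
  intro h
  have h1 : 7 ∣ pr P := Nat.dvd_of_mod_eq_zero h
  obtain ⟨q, hq, hpq⟩ := (Prime.dvd_finsetProd_iff (by norm_num : Nat.Prime 7).prime _).1 h1
  exact (hP q hq).2.2 ((Nat.prime_dvd_prime_iff_eq (by norm_num) (hP q hq).1).1 hpq).symm

theorem jac_prod (a : ℤ) {P : Finset ℕ} (hP : Pm P) :
    ∏ p ∈ P, jacobiSym a p = jacobiSym a (pr P) := by
  induction P using Finset.induction_on with
  | empty =>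
    rw [Finset.prod_empty]
    show 1 = jacobiSym a 1
    rw [jacobiSym.one_right]
  | insert b s hb ih =>
    have hs : Pm s := fun p hp => hP p (Finset.mem_insert_of_mem hp)
    rw [Finset.prod_insert hb, ih hs, pr_insert hb,
      jacobiSym.mul_right' a (hP b (Finset.mem_insert_self b s)).1.ne_zero (pr_ne hs)]

theorem jac2 {m : ℕ} (hm : Odd m) : jacobiSym 2 m = if m % 8 = 1 ∨ m % 8 = 7 then 1 else -1 := by
  rw [jacobiSym.at_two hm, ZMod.χ₈_nat_eq_if_mod_eight, if_neg]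
  obtain ⟨k, hk⟩ := hm
  omega

theorem jac7 {m : ℕ} (hm : Odd m) : jacobiSym (-7) m = jacobiSym m 7 := by
  rw [show (-7 : ℤ) = -((7 : ℕ) : ℤ) by norm_num, jacobiSym.neg _ hm]
  have h4 : m % 4 = 1 ∨ m % 4 = 3 := by
    obtain ⟨k, hk⟩ := hm
    omega
  rcases h4 with h | h
  · rw [ZMod.χ₄_nat_one_mod_four h, one_mul,
      jacobiSym.quadratic_reciprocity_one_mod_four' (by decide) h]
  · rw [ZMod.χ₄_nat_three_mod_four h, jacobiSym.quadratic_reciprocity_three_mod_four
      (by norm_num) h]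
    ring

theorem jac7v {m : ℕ} (h0 : m % 7 ≠ 0) : jacobiSym m 7 =
    if m % 7 = 1 ∨ m % 7 = 2 ∨ m % 7 = 4 then 1 else -1 := by
  rw [jacobiSym.mod_left]
  have h1 : ((m : ℤ) % ((7 : ℕ) : ℤ)) = ((m % 7 : ℕ) : ℤ) := by push_cast; rfl
  rw [h1]
  have h2 : m % 7 < 7 := Nat.mod_lt _ (by norm_num)
  generalize m % 7 = k at *
  interval_cases k
  · exact absurd rfl h0
  all_goals decide +kernel

/-- the admissible sets -/
theorem adm_iff {N P : Finset ℕ} (hN : Pm N) (hP : P ⊆ N) :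
    P ∈ adm N ↔ jacobiSym 2 (pr P) = 1 ∧ jacobiSym (-14) (pr P) ≠ -1 := by
  have hPm : Pm P := fun p hp => hN p (hP hp)
  have ho := pr_odd hPm
  have h7 := pr_mod7 hPm
  have e14 : jacobiSym (-14) (pr P) = jacobiSym 2 (pr P) * jacobiSym (pr P) 7 := by
    rw [show (-14 : ℤ) = 2 * (-7) by norm_num, jacobiSym.mul_left, jac7 ho]
  rw [e14, jac2 ho, jac7v h7]
  unfold adm
  rw [Finset.mem_filter, Finset.mem_powerset]
  have ho8 : pr P % 8 = 1 ∨ pr P % 8 = 3 ∨ pr P % 8 = 5 ∨ pr P % 8 = 7 := by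
    obtain ⟨k, hk⟩ := ho
    omega
  have hl : pr P % 7 < 7 := Nat.mod_lt _ (by norm_num)
  unfold K
  generalize pr P % 7 = a at *
  generalize pr P % 8 = b at *
  constructor
  · rintro ⟨_, h | h⟩
    · obtain ⟨h1, h2⟩ := h
      rw [if_pos (by omega)] at h2
      subst h1
      rw [if_pos (by omega), if_pos h2]
      norm_num
    · obtain ⟨h1, h2⟩ := h
      rw [if_pos (by omega)] at h2
      subst h1
      rw [if_pos (by omega), if_pos h2]
      norm_num
  · rintro ⟨h1, h2⟩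
    refine ⟨hP, ?_⟩
    have hb : b = 1 ∨ b = 7 := by
      by_contra hc
      rw [if_neg hc] at h1
      norm_num at h1
    rw [if_pos hb, one_mul] at h2
    have ha : a = 1 ∨ a = 2 ∨ a = 4 := by
      by_contra hc
      rw [if_neg hc] at h2
      exact h2 rfl
    rcases hb with hb | hb
    · left
      exact ⟨hb, by rw [if_pos (by omega)]; exact ha⟩
    · right
      exact ⟨hb, by rw [if_pos (by omega)]; exact ha⟩

theorem K_mod {N : Finset ℕ} (hK : K 3 (pr N) ∨ K 5 (pr N)) : pr N % 8 = 3 ∨ pr N % 8 = 5 := by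
  rcases hK with h | h
  · exact Or.inl h.1
  · exact Or.inr h.1

/-- the main identity -/
theorem star (h0 : S_PHI) (h1 : S_PROD) (h3 : S_REFL) {N : Finset ℕ} (hN : Pm N)
    (hK : K 3 (pr N) ∨ K 5 (pr N)) {β : ZMod 7} (hβ : β ^ 2 = -(pr N : ZMod 7)) :
    ∃ C : ℤ, (C = 1 ∨ C = -1) ∧ ∀ γ : ℕ → ℤ, (∀ p ∈ N, γ p = 1 ∨ γ p = -1) →
      2 * ∑ P ∈ adm N, (∏ p ∈ P, γ p) * Y (pr N % 8) P (pr N : ℤ) β =
        2 ^ N.card * (C * (∏ p ∈ N, γ p) *
          ((R N β γ : ℤ) - (R N β fun p => γ p * jacobiSym 2 p : ℕ))) := by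
  obtain ⟨C, hC, hPr⟩ := h1 N (pr N % 8) (fun p hp => ⟨(hN p hp).1, (hN p hp).2.1⟩) (K_mod hK) rfl
  refine ⟨C, hC, fun γ hγ => ?_⟩
  have hj2 : ∀ p ∈ N, jacobiSym 2 p = 1 ∨ jacobiSym 2 p = -1 := by
    intro p hp
    rw [jac2 ((hN p hp).1.odd_of_ne_two (hN p hp).2.1)]
    split_ifs <;> simp
  have hγb : ∀ p ∈ N, γ p * jacobiSym 2 p = 1 ∨ γ p * jacobiSym 2 p = -1 := by
    intro p hp
    rcases hγ p hp with e | e <;> rcases hj2 p hp with e1 | e1 <;> rw [e, e1] <;> norm_num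
  have A := sumA h0 hN hC hPr β γ hγ
  have B := sumA h0 hN hC hPr β (fun p => γ p * jacobiSym 2 p) hγb
  have hJN : jacobiSym 2 (pr N) = -1 := by
    rw [jac2 (pr_odd hN), if_neg]
    rcases K_mod hK with h | h <;> omega
  have eN : ∏ p ∈ N, (γ p * jacobiSym 2 p) = -∏ p ∈ N, γ p := by
    rw [Finset.prod_mul_distrib, jac_prod 2 hN, hJN]
    ring
  rw [eN] at B
  have e1 : 2 * ∑ P ∈ adm N, (∏ p ∈ P, γ p) * Y (pr N % 8) P (pr N : ℤ) β =
      ∑ P ∈ N.powerset, (∏ p ∈ P, γ p) * Y (pr N % 8) P (pr N : ℤ) β +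
      ∑ P ∈ N.powerset, (∏ p ∈ P, (γ p * jacobiSym 2 p)) * Y (pr N % 8) P (pr N : ℤ) β := by
    have hsub : N.powerset ∩ adm N = adm N := by
      apply Finset.inter_eq_right.2
      unfold adm
      exact Finset.filter_subset _ _
    rw [← hsub, ← Finset.sum_ite_mem, Finset.mul_sum, ← Finset.sum_add_distrib]
    refine Finset.sum_congr rfl fun P hP => ?_
    have hPN := Finset.mem_powerset.1 hP
    have hPm : Pm P := fun p hp => hN p (hPN hp)
    rw [Finset.prod_mul_distrib, jac_prod 2 hPm]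
    split_ifs with h
    · rw [((adm_iff hN hPN).1 h).1]
      ring
    · rw [adm_iff hN hPN, not_and_or, not_not] at h
      rcases h with h | h
      · have : jacobiSym 2 (pr P) = -1 := by
          rw [jac2 (pr_odd hPm)] at h ⊢
          split_ifs at h ⊢ with h5
          · exact absurd rfl h
          · rfl
        rw [this]
        ring
      · rw [h3 N hN hK β hβ P hPN h]
        ring
  rw [e1, A, B]
  ring

/-- the total number of vectors -/
theorem total (h2 : S_ROT) (h4 : S_EQU) {N : Finset ℕ} (hN : Pm N)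
    (hK : K 3 (pr N) ∨ K 5 (pr N)) {β : ZMod 7} (hβ : β ^ 2 = -(pr N : ZMod 7)) (γ : ℕ → ℤ)
    (hγ : ∀ p ∈ N, γ p = 1 ∨ γ p = -1) :
    ((vec (pr N : ℤ)).card : ℤ) = 4 * 2 ^ N.card *
      ((R N β γ : ℤ) + (R N β fun p => γ p * jacobiSym 2 p : ℕ)) := by
  have hb : β ≠ 0 := by
    intro h
    rw [h] at hβ
    have h1 : ((pr N : ℕ) : ZMod 7) = 0 := by
      have : -((pr N : ℕ) : ZMod 7) = 0 := by rw [← hβ]; ring
      exact neg_eq_zero.1 this
    rw [ZMod.natCast_eq_zero_iff] at h1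
    exact pr_mod7 hN (Nat.mod_eq_zero_of_dvd h1)
  have e1 := h2 N hN (K_mod hK) β hb hβ γ
  have e2 := h4 N (fun p hp => ⟨(hN p hp).1, (hN p hp).2.1⟩) γ hγ
  rw [e1] at e2
  rw [← e2]
  push_cast
  ring

theorem card_pos {N : Finset ℕ} (hK : K 3 (pr N) ∨ K 5 (pr N)) : 1 ≤ N.card := by
  by_contra h
  have h0 : N = ∅ := Finset.card_eq_zero.1 (by omega)
  subst h0
  have : pr (∅ : Finset ℕ) = 1 := Finset.prod_empty
  rw [this] at hK
  rcases hK with h | h
  · exact absurd h.1 (by norm_num)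
  · exact absurd h.1 (by norm_num)

/-! ### characters of the sign changes -/

/-- the sign changes -/
def de (D : Finset ℕ) (p : ℕ) : ℤ := if p ∈ D then -1 else 1

theorem de_pm (D : Finset ℕ) (p : ℕ) : de D p = 1 ∨ de D p = -1 := by
  unfold de
  split_ifs <;> simp

theorem de_swap (A D : Finset ℕ) : ∏ p ∈ A, de D p = ∏ p ∈ D, de A p := by
  unfold de
  rw [Finset.prod_ite_mem, Finset.prod_ite_mem, Finset.inter_comm]

theorem de_sub {A D : Finset ℕ} (h : D ⊆ A) : ∏ p ∈ A, de D p = ∏ _p ∈ D, (-1 : ℤ) := by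
  unfold de
  rw [Finset.prod_ite_mem, Finset.inter_eq_right.2 h]

theorem chs (W : Finset ℕ) (e : ℕ → ℤ) :
    ∑ D ∈ W.powerset, (1 + ∏ _p ∈ D, (-1 : ℤ)) * ∏ p ∈ D, e p =
      ∏ p ∈ W, (1 + e p) + ∏ p ∈ W, (1 - e p) := by
  have h1 : ∏ p ∈ W, (1 - e p) = ∏ p ∈ W, (1 + (-1) * e p) :=
    Finset.prod_congr rfl fun p _ => by ring
  rw [h1, Finset.prod_one_add, Finset.prod_one_add, ← Finset.sum_add_distrib]
  refine Finset.sum_congr rfl fun D _ => ?_
  rw [Finset.prod_mul_distrib]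
  ring

theorem prod_all {W : Finset ℕ} {e : ℕ → ℤ} (he : ∀ p ∈ W, e p = 1 ∨ e p = -1)
    [Decidable (∀ p ∈ W, e p = 1)] :
    ∏ p ∈ W, (1 + e p) = if ∀ p ∈ W, e p = 1 then 2 ^ W.card else 0 := by
  split_ifs with h
  · rw [← Finset.prod_const]
    refine Finset.prod_congr rfl fun p hp => ?_
    rw [h p hp]
    norm_num
  · rw [not_forall] at h
    obtain ⟨p, hp⟩ := h
    rw [Classical.not_imp] at hp
    apply Finset.prod_eq_zero hp.1
    rcases he p hp.1 with e1 | e1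
    · exact absurd e1 hp.2
    · rw [e1]; norm_num

theorem prod_all' {W : Finset ℕ} {e : ℕ → ℤ} (he : ∀ p ∈ W, e p = 1 ∨ e p = -1)
    [Decidable (∀ p ∈ W, e p = -1)] :
    ∏ p ∈ W, (1 - e p) = if ∀ p ∈ W, e p = -1 then 2 ^ W.card else 0 := by
  split_ifs with h
  · rw [← Finset.prod_const]
    refine Finset.prod_congr rfl fun p hp => ?_
    rw [h p hp]
    norm_num
  · rw [not_forall] at h
    obtain ⟨p, hp⟩ := h
    rw [Classical.not_imp] at hp
    apply Finset.prod_eq_zero hp.1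
    rcases he p hp.1 with e1 | e1
    · rw [e1]; norm_num
    · exact absurd e1 hp.2

/-- the sum over the sign changes selects the patterns -/
theorem pattern {W W0 P : Finset ℕ} (h0 : W0 ⊆ W) (hne : W0.Nonempty) :
    ∑ D ∈ W.powerset, (1 + ∏ _p ∈ D, (-1 : ℤ)) * ((∏ p ∈ D, de W0 p) * ∏ p ∈ P, de D p) =
      if P ∩ W = W0 ∨ P ∩ W = W \ W0 then 2 ^ W.card else 0 := by
  classical
  have h1 : ∀ D ∈ W.powerset, (1 + ∏ _p ∈ D, (-1 : ℤ)) * ((∏ p ∈ D, de W0 p) * ∏ p ∈ P, de D p) =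
      (1 + ∏ _p ∈ D, (-1 : ℤ)) * ∏ p ∈ D, (de W0 p * de P p) := by
    intro D _
    rw [de_swap P D, Finset.prod_mul_distrib]
  rw [Finset.sum_congr rfl h1, chs]
  have hpm : ∀ p ∈ W, de W0 p * de P p = 1 ∨ de W0 p * de P p = -1 := by
    intro p _
    rcases de_pm W0 p with e | e <;> rcases de_pm P p with e1 | e1 <;> rw [e, e1] <;> norm_num
  rw [prod_all hpm, prod_all' hpm]
  have i1 : (∀ p ∈ W, de W0 p * de P p = 1) ↔ P ∩ W = W0 := by
    constructor
    · intro h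
      ext p
      rw [Finset.mem_inter]
      constructor
      · rintro ⟨hP, hW⟩
        have := h p hW
        unfold de at this
        by_contra hc
        rw [if_neg hc, if_pos hP] at this
        norm_num at this
      · intro hp
        have hW := h0 hp
        refine ⟨?_, hW⟩
        have := h p hW
        unfold de at this
        by_contra hc
        rw [if_pos hp, if_neg hc] at this
        norm_num at this
    · rintro rfl p hp
      unfold de
      by_cases hP : p ∈ P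
      · rw [if_pos (Finset.mem_inter.2 ⟨hP, hp⟩), if_pos hP]
        norm_num
      · rw [if_neg (fun h => hP (Finset.mem_inter.1 h).1), if_neg hP]
        norm_num
  have i2 : (∀ p ∈ W, de W0 p * de P p = -1) ↔ P ∩ W = W \ W0 := by
    constructor
    · intro h
      ext p
      rw [Finset.mem_inter, Finset.mem_sdiff]
      constructor
      · rintro ⟨hP, hW⟩
        refine ⟨hW, fun hc => ?_⟩
        have := h p hW
        unfold de at this
        rw [if_pos hc, if_pos hP] at this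
        norm_num at this
      · rintro ⟨hW, hc⟩
        refine ⟨?_, hW⟩
        have := h p hW
        unfold de at this
        by_contra hP
        rw [if_neg hc, if_neg hP] at this
        norm_num at this
    · intro h p hp
      unfold de
      by_cases hc : p ∈ W0
      · have hP : p ∉ P := by
          intro hP
          have : p ∈ W \ W0 := by
            rw [← h]
            exact Finset.mem_inter.2 ⟨hP, hp⟩
          exact (Finset.mem_sdiff.1 this).2 hc
        rw [if_pos hc, if_neg hP]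
        norm_num
      · have hP : p ∈ P := by
          have : p ∈ P ∩ W := by
            rw [h]
            exact Finset.mem_sdiff.2 ⟨hp, hc⟩
          exact (Finset.mem_inter.1 this).1
        rw [if_neg hc, if_pos hP]
        norm_num
  have i3 : ¬ (P ∩ W = W0 ∧ P ∩ W = W \ W0) := by
    rintro ⟨e1, e2⟩
    obtain ⟨p, hp⟩ := hne
    rw [e1] at e2
    have hp' := hp
    rw [e2] at hp'
    exact (Finset.mem_sdiff.1 hp').2 hp
  by_cases c1 : P ∩ W = W0
  · have c2 : ¬ P ∩ W = W \ W0 := fun h => i3 ⟨c1, h⟩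
    rw [if_pos (i1.2 c1), if_neg (fun h => c2 (i2.1 h)), if_pos (Or.inl c1), add_zero]
  · by_cases c2 : P ∩ W = W \ W0
    · rw [if_neg (fun h => c1 (i1.1 h)), if_pos (i2.2 c2), if_pos (Or.inr c2), zero_add]
    · rw [if_neg (fun h => c1 (i1.1 h)), if_neg (fun h => c2 (i2.1 h)),
        if_neg (fun h => h.elim c1 c2), add_zero]

/-- the constant terms cancel -/
theorem cancel {W W0 : Finset ℕ} (h0 : W0 ⊆ W) (hne : W0.Nonempty) (hW : W0 ≠ W) :
    ∑ D ∈ W.powerset, (1 + ∏ _p ∈ D, (-1 : ℤ)) * ∏ p ∈ D, de W0 p = 0 := by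
  classical
  rw [chs, prod_all fun p _ => de_pm W0 p, prod_all' fun p _ => de_pm W0 p]
  rw [if_neg, if_neg, add_zero]
  · intro h
    apply hW
    apply Finset.Subset.antisymm h0
    intro p hp
    have := h p hp
    unfold de at this
    by_contra hc
    rw [if_neg hc] at this
    norm_num at this
  · intro h
    obtain ⟨p, hp⟩ := hne
    have := h p (h0 hp)
    unfold de at this
    rw [if_pos hp] at this
    norm_num at this

end

end Rl

/-- EPAT -/
theorem t_EPAT (h0 : S_PHI) (h1 : S_PROD) (h2 : S_ROT) (h3 : S_REFL) (h4 : S_EQU) : S_EPAT := by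
  classical
  intro N hN hK β hβ W hWN W0 hW0 hne hW
  obtain ⟨C, hC, hs⟩ := Rl.star h0 h1 h3 hN hK hβ
  set k := N.card with hk
  have hpos : (0 : ℤ) < 4 * 2 ^ k := by positivity
  -- the constant `T`
  set T : ℤ := ((R N β (Rl.de ∅) : ℕ) : ℤ) +
    ((R N β fun p => Rl.de ∅ p * jacobiSym 2 p : ℕ) : ℤ) with hT
  have hTT : ∀ D : Finset ℕ, ((R N β (Rl.de D) : ℕ) : ℤ) =
      T - ((R N β fun p => Rl.de D p * jacobiSym 2 p : ℕ) : ℤ) := by
    intro D
    have e1 := Rl.total h2 h4 hN hK hβ (Rl.de D) fun p _ => Rl.de_pm D p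
    have e2 := Rl.total h2 h4 hN hK hβ (Rl.de ∅) fun p _ => Rl.de_pm ∅ p
    rw [← hT] at e2
    rw [e2] at e1
    have := mul_left_cancel₀ hpos.ne' e1
    linarith
  set w : Finset ℕ → ℤ := fun D => (1 + ∏ _p ∈ D, (-1 : ℤ)) with hw
  have hx : ∀ D : Finset ℕ, (∏ _p ∈ D, (-1 : ℤ)) = 1 ∨ (∏ _p ∈ D, (-1 : ℤ)) = -1 := fun D =>
    Rl.prod_pm fun _ _ => Or.inr rfl
  -- the weighted sum of the identities
  have e1 : ∀ D ∈ W.powerset, w D * ((∏ p ∈ D, Rl.de W0 p) *
      (2 * ∑ P ∈ adm N, (∏ p ∈ P, Rl.de D p) * Y (pr N % 8) P (pr N : ℤ) β)) =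
      2 ^ k * C * (T * (w D * ∏ p ∈ D, Rl.de W0 p)) -
      2 ^ (k + 2) * (C * ((if (∏ _p ∈ D, (-1 : ℤ)) = 1 then 1 else 0) * (∏ p ∈ D, Rl.de W0 p) *
        ((R N β fun p => Rl.de D p * jacobiSym 2 p : ℕ) : ℤ))) := by
    intro D hD
    have hDN : D ⊆ N := (Finset.mem_powerset.1 hD).trans hWN
    rw [hs (Rl.de D) fun p _ => Rl.de_pm D p, hTT D, Rl.de_sub hDN]
    simp only [hw]
    rcases hx D with e | e
    · rw [e, if_pos rfl]
      ring
    · rw [e, if_neg (by norm_num)]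
      ring
  have e2 := Finset.sum_congr rfl e1
  rw [Finset.sum_sub_distrib, ← Finset.mul_sum, ← Finset.mul_sum, ← Finset.mul_sum,
    ← Finset.mul_sum] at e2
  have e3 : ∑ D ∈ W.powerset, w D * ∏ p ∈ D, Rl.de W0 p = 0 := Rl.cancel hW0 hne hW
  rw [e3] at e2
  have e4 : ∑ D ∈ W.powerset, w D * ((∏ p ∈ D, Rl.de W0 p) *
      (2 * ∑ P ∈ adm N, (∏ p ∈ P, Rl.de D p) * Y (pr N % 8) P (pr N : ℤ) β)) =
      2 * (2 ^ W.card * ∑ P ∈ (adm N).filter (fun P => P ∩ W = W0 ∨ P ∩ W = W \ W0),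
        Y (pr N % 8) P (pr N : ℤ) β) := by
    have e5 : ∀ D ∈ W.powerset, w D * ((∏ p ∈ D, Rl.de W0 p) *
      (2 * ∑ P ∈ adm N, (∏ p ∈ P, Rl.de D p) * Y (pr N % 8) P (pr N : ℤ) β)) =
      2 * ∑ P ∈ adm N, Y (pr N % 8) P (pr N : ℤ) β * (w D * ((∏ p ∈ D, Rl.de W0 p) *
        ∏ p ∈ P, Rl.de D p)) := by
      intro D _
      rw [Finset.mul_sum, Finset.mul_sum, Finset.mul_sum, Finset.mul_sum]
      refine Finset.sum_congr rfl fun P _ => ?_
      ring
    rw [Finset.sum_congr rfl e5, ← Finset.mul_sum, Finset.sum_comm]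
    congr 1
    rw [Finset.sum_filter, Finset.mul_sum]
    refine Finset.sum_congr rfl fun P _ => ?_
    rw [← Finset.mul_sum]
    have e6 := Rl.pattern (P := P) hW0 hne
    show _ * ∑ D ∈ W.powerset, (1 + ∏ _p ∈ D, (-1 : ℤ)) * ((∏ p ∈ D, Rl.de W0 p) *
      ∏ p ∈ P, Rl.de D p) = _
    rw [e6]
    split_ifs <;> ring
  rw [e4] at e2
  refine ⟨-(C * ∑ D ∈ W.powerset, (if (∏ _p ∈ D, (-1 : ℤ)) = 1 then 1 else 0) *
    (∏ p ∈ D, Rl.de W0 p) * ((R N β fun p => Rl.de D p * jacobiSym 2 p : ℕ) : ℤ)), ?_⟩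
  have hWk : W.card ≤ k := Finset.card_le_card hWN
  have e7 : (2 : ℤ) ^ (k + 2) = 2 * 2 ^ W.card * 2 ^ (k + 1 - W.card) := by
    rw [← pow_succ', ← pow_add]
    congr 1
    omega
  have hp2 : (0 : ℤ) < 2 * 2 ^ W.card := by positivity
  apply mul_left_cancel₀ hp2.ne'
  rw [e7] at e2
  linarith

/-- EALL -/
theorem t_EALL (h0 : S_PHI) (h1 : S_PROD) (h2 : S_ROT) (h3 : S_REFL) (h4 : S_EQU) : S_EALL := by
  intro N hN hK β hβ
  obtain ⟨C, hC, hs⟩ := Rl.star h0 h1 h3 hN hK hβ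
  have e1 := hs (fun _ => 1) fun _ _ => Or.inl rfl
  have e2 := Rl.total h2 h4 hN hK hβ (fun _ => 1) fun _ _ => Or.inl rfl
  have hk := Rl.card_pos hK
  simp only [Finset.prod_const_one, one_mul, mul_one] at e1 e2
  set a : ℤ := ((R N β fun _ => 1 : ℕ) : ℤ) with ha
  set b : ℤ := ((R N β fun p => jacobiSym 2 p : ℕ) : ℤ) with hb
  have hp : (2 : ℤ) ^ N.card = 2 * 2 ^ (N.card - 1) := by
    rw [← pow_succ', Nat.sub_add_cancel hk]
  rw [hp] at e1
  refine ⟨a + b, if C = 1 then -b else -a, e2, ?_⟩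
  have e3 : ∑ P ∈ adm N, Y (pr N % 8) P (pr N : ℤ) β = 2 ^ (N.card - 1) * (C * (a - b)) := by
    linarith
  rw [e3]
  rcases hC with h | h
  · rw [if_pos h, h]
    ring
  · rw [if_neg (by rw [h]; norm_num), h]
    ring

namespace Rl

theorem sS_iff {P : Finset ℕ} (h : sS P = P) {p : ℕ} (hp : p ∈ P) : sq2 p ∧ sq7 p := by
  rw [← h] at hp
  exact (Finset.mem_filter.1 hp).2

theorem sI_iff {q : ℕ} (h : sI {q} = {q}) : ¬ sq2 q ∧ ¬ sq7 q := by
  have hq : q ∈ ({q} : Finset ℕ) := Finset.mem_singleton_self q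
  rw [← h] at hq
  exact (Finset.mem_filter.1 hq).2

theorem jacl_prod (b : ℕ) (P : Finset ℕ) :
    ∏ p ∈ P, jacobiSym (p : ℤ) b = jacobiSym ((pr P : ℕ) : ℤ) b := by
  induction P using Finset.induction_on with
  | empty =>
    rw [Finset.prod_empty]
    show 1 = jacobiSym ((1 : ℕ) : ℤ) b
    rw [Nat.cast_one, jacobiSym.one_left]
  | insert c s hc ih =>
    rw [Finset.prod_insert hc, ih, pr_insert hc, Nat.cast_mul, jacobiSym.mul_left]

theorem types {P : Finset ℕ} {q : ℕ} (hN : Pm (insert q P)) (hP : sS P = P)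
    (hI : sI {q} = {q}) :
    (∀ J ⊆ P, jacobiSym 2 (pr J) = 1 ∧ jacobiSym ((pr J : ℕ) : ℤ) 7 = 1) ∧
    jacobiSym 2 q = -1 ∧ jacobiSym (q : ℤ) 7 = -1 := by
  have hod : ∀ p ∈ insert q P, Odd p := fun p hp => (hN p hp).1.odd_of_ne_two (hN p hp).2.1
  have h7 : ∀ p ∈ insert q P, p % 7 ≠ 0 := by
    intro p hp h
    exact (hN p hp).2.2 ((Nat.prime_dvd_prime_iff_eq (by norm_num) (hN p hp).1).1
      (Nat.dvd_of_mod_eq_zero h)).symm
  have hq := Finset.mem_insert_self q P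
  have hqI := sI_iff hI
  refine ⟨fun J hJ => ?_, ?_, ?_⟩
  · have hJm : Pm J := fun p hp => hN p (Finset.mem_insert_of_mem (hJ hp))
    rw [← jac_prod 2 hJm, ← jacl_prod]
    constructor
    · refine Finset.prod_eq_one fun p hp => ?_
      rw [jac2 (hod p (Finset.mem_insert_of_mem (hJ hp))), if_pos]
      exact (sS_iff hP (hJ hp)).1
    · refine Finset.prod_eq_one fun p hp => ?_
      rw [jac7v (h7 p (Finset.mem_insert_of_mem (hJ hp))), if_pos]
      exact (sS_iff hP (hJ hp)).2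
  · rw [jac2 (hod q hq), if_neg]
    exact hqI.1
  · rw [jac7v (h7 q hq), if_neg]
    exact hqI.2

end Rl

/-- EREF -/
theorem t_EREF (h0 : S_PHI) (h1 : S_PROD) (h2 : S_ROT) (h3 : S_REFL) (h4 : S_EQU)
    (h5 : S_SINV) (h6 : S_CNT) : S_EREF := by
  classical
  intro P q hN hqP hP hI β hβ p0 hp0
  obtain ⟨t1, t2, t3⟩ := Rl.types hN hP hI
  have hS := fun {p : ℕ} (hp : p ∈ P) => Rl.sS_iff hP hp
  have hqI := Rl.sI_iff hI
  set N := insert q P with hNdef
  have hod := Rl.pr_odd hN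
  have hm7 := Rl.pr_mod7 hN
  have j2 : jacobiSym 2 (pr N) = -1 := by
    have hPm : Pm P := fun p hp => hN p (Finset.mem_insert_of_mem hp)
    rw [← Rl.jac_prod 2 hN, hNdef, Finset.prod_insert hqP, Rl.jac_prod 2 hPm, (t1 P subset_rfl).1,
      t2]
    norm_num
  have j7 : jacobiSym ((pr N : ℕ) : ℤ) 7 = -1 := by
    rw [← Rl.jacl_prod, hNdef, Finset.prod_insert hqP, Rl.jacl_prod, (t1 P subset_rfl).2, t3]
    norm_num
  have hK : K 3 (pr N) ∨ K 5 (pr N) := by
    rw [Rl.jac2 hod] at j2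
    rw [Rl.jac7v hm7] at j7
    have ho8 : pr N % 8 = 1 ∨ pr N % 8 = 3 ∨ pr N % 8 = 5 ∨ pr N % 8 = 7 := by
      obtain ⟨k, hk⟩ := hod
      omega
    have hl : pr N % 7 < 7 := Nat.mod_lt _ (by norm_num)
    have c1 : ¬ (pr N % 8 = 1 ∨ pr N % 8 = 7) := by
      intro hc
      rw [if_pos hc] at j2
      norm_num at j2
    have c2 : ¬ (pr N % 7 = 1 ∨ pr N % 7 = 2 ∨ pr N % 7 = 4) := by
      intro hc
      rw [if_pos hc] at j7
      norm_num at j7
    unfold K
    generalize pr N % 7 = a at *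
    generalize pr N % 8 = b at *
    by_cases hb : b = 3
    · left
      exact ⟨hb, by rw [if_neg (by omega)]; omega⟩
    · right
      exact ⟨by omega, by rw [if_neg (by omega)]; omega⟩
  have hadm : adm N = P.powerset := by
    ext J
    rw [Finset.mem_powerset]
    constructor
    · intro hJ
      have hJN : J ⊆ N := by
        unfold adm at hJ
        exact Finset.mem_powerset.1 (Finset.mem_filter.1 hJ).1
      have h8 := ((Rl.adm_iff hN hJN).1 hJ).1
      have hqJ : q ∉ J := by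
        intro hqJ
        have hJm : Pm J := fun p hp => hN p (hJN hp)
        have hJe : J.erase q ⊆ P := by
          intro p hp
          have := Finset.mem_erase.1 hp
          exact Finset.mem_of_mem_insert_of_ne (hJN this.2) this.1
        have h9 : jacobiSym 2 (pr J) = -1 := by
          have hJem : Pm (J.erase q) := fun p hp => hN p (Finset.mem_insert_of_mem (hJe hp))
          rw [← Rl.jac_prod 2 hJm, ← Finset.mul_prod_erase J _ hqJ, t2, Rl.jac_prod 2 hJem,
            (t1 _ hJe).1]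
          norm_num
        rw [h9] at h8
        norm_num at h8
      intro p hp
      exact Finset.mem_of_mem_insert_of_ne (hJN hp) (fun h => hqJ (h ▸ hp))
    · intro hJ
      have hJN : J ⊆ N := hJ.trans (Finset.subset_insert q P)
      have hJm : Pm J := fun p hp => hN p (hJN hp)
      rw [Rl.adm_iff hN hJN]
      refine ⟨(t1 J hJ).1, ?_⟩
      rw [show (-14 : ℤ) = 2 * (-7) by norm_num, jacobiSym.mul_left, Rl.jac7 (Rl.pr_odd hJm),
        (t1 J hJ).1, (t1 J hJ).2]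
      norm_num
  obtain ⟨C, hC, hs⟩ := Rl.star h0 h1 h3 hN hK hβ
  set D : Finset ℕ := {p0, q} with hD
  have hp0q : p0 ≠ q := fun h => hqP (h ▸ hp0)
  have hDN : D ⊆ N := by
    intro p hp
    rw [hD, Finset.mem_insert, Finset.mem_singleton] at hp
    rcases hp with h | h
    · rw [h]
      exact Finset.mem_insert_of_mem hp0
    · rw [h]
      exact Finset.mem_insert_self q P
  have e1 := hs (fun _ => 1) fun _ _ => Or.inl rfl
  have e2 := hs (Rl.de D) fun p _ => Rl.de_pm D p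
  have g1 := Rl.total h2 h4 hN hK hβ (fun _ => 1) fun _ _ => Or.inl rfl
  have g2 := Rl.total h2 h4 hN hK hβ (Rl.de D) fun p _ => Rl.de_pm D p
  have hpos : (0 : ℤ) < 4 * 2 ^ N.card := by positivity
  rw [g1] at g2
  have g3 := mul_left_cancel₀ hpos.ne' g2
  simp only [Finset.prod_const_one, one_mul, mul_one] at e1 g3
  rw [Rl.de_sub hDN, hD, Finset.prod_pair hp0q] at e2
  rw [hadm] at e1 e2
  have hcard : N.card = P.card + 1 := Finset.card_insert_of_notMem hqP
  rw [hcard, pow_succ] at e1 e2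
  -- the difference
  have e3 : ∑ J ∈ P.powerset.filter (p0 ∈ ·), Y (pr N % 8) J (pr N : ℤ) β * 2 =
      ∑ J ∈ P.powerset, Y (pr N % 8) J (pr N : ℤ) β -
      ∑ J ∈ P.powerset, (∏ p ∈ J, Rl.de {p0, q} p) * Y (pr N % 8) J (pr N : ℤ) β := by
    rw [← Finset.sum_sub_distrib, Finset.sum_filter]
    refine Finset.sum_congr rfl fun J hJ => ?_
    have hqJ : q ∉ J := fun h => hqP (Finset.mem_powerset.1 hJ h)
    unfold Rl.de
    rw [Finset.prod_ite_mem]
    split_ifs with h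
    · have : J ∩ {p0, q} = {p0} := by
        ext p
        rw [Finset.mem_inter, Finset.mem_insert, Finset.mem_singleton, Finset.mem_singleton]
        constructor
        · rintro ⟨hpJ, h' | h'⟩
          · exact h'
          · exact absurd (h' ▸ hpJ) hqJ
        · intro h'
          rw [h']
          exact ⟨h, Or.inl rfl⟩
      rw [this, Finset.prod_singleton]
      ring
    · have : J ∩ {p0, q} = ∅ := by
        rw [Finset.eq_empty_iff_forall_notMem]
        intro p hp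
        rw [Finset.mem_inter, Finset.mem_insert, Finset.mem_singleton] at hp
        rcases hp with ⟨hpJ, h' | h'⟩
        · exact h (h' ▸ hpJ)
        · exact hqJ (h' ▸ hpJ)
      rw [this, Finset.prod_empty]
      ring
  rw [← Finset.sum_mul] at e3
  have hfun : Rl.de {p0, q} = fun p => if p = p0 ∨ p = q then -1 else 1 := by
    funext p
    unfold Rl.de
    simp only [Finset.mem_insert, Finset.mem_singleton]
  refine ⟨C * ((R N β fun _ => 1 : ℕ) - (R N β fun p => if p = p0 ∨ p = q then -1 else 1 : ℕ)),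
    ?_, ?_⟩
  · rw [← hfun]
    have h8 : (0 : ℤ) < 4 := by norm_num
    apply mul_left_cancel₀ h8.ne'
    rw [← hD] at e3
    linear_combination 2 * e3 + e1 - e2 - (2 * 2 ^ P.card * C) * g3
  · have hsA : sA N = ∅ := by
      rw [Finset.eq_empty_iff_forall_notMem]
      intro p hp
      have h8 := Finset.mem_filter.1 hp
      rcases Finset.mem_insert.1 h8.1 with h9 | h9
      · rw [h9] at h8
        exact hqI.1 h8.2.1
      · exact h8.2.2 (hS h9).2
    have hsB : sB N = ∅ := by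
      rw [Finset.eq_empty_iff_forall_notMem]
      intro p hp
      have h8 := Finset.mem_filter.1 hp
      rcases Finset.mem_insert.1 h8.1 with h9 | h9
      · rw [h9] at h8
        exact hqI.2 h8.2.2
      · exact h8.2.1 (hS h9).1
    have hmod := fun γ => h5 N hN hK hsA hsB β hβ γ
    have hcast : ∀ γ, ((R N β γ : ℕ) : ZMod 2) = ((Z0 N β γ : ℕ) : ZMod 2) := by
      intro γ
      rw [ZMod.natCast_eq_natCast_iff']
      exact hmod γ
    have hfin := h6 P q hN hqP hP hI β hβ p0 hp0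
    rw [← hNdef] at hfin
    rw [← hfin]
    push_cast
    rw [hcast, hcast]
    have hC2 : ((C : ℤ) : ZMod 2) = 1 := by
      rcases hC with h | h <;> rw [h] <;> decide
    rw [hC2, one_mul]
    have hneg : ∀ x : ZMod 2, -x = x := by decide
    rw [sub_eq_add_neg, hneg]

end Pool.Agent.NH1
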