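import Pool.Agent.NH1.RotA

/-!
# S_C3
-/

set_option autoImplicit false

namespace Pool.Agent.NH1

open Finset Matrix
open Pool.Agent.Z700 (V3 vec pr Ln n0 ep X2)

namespace RotW

theorem three_dvd_card {α : Type*} [DecidableEq α] (S : Finset α) (ρ : α → α)
    (hS : ∀ v ∈ S, ρ v ∈ S) (h3 : ∀ v, ρ (ρ (ρ v)) = v) (h0 : ∀ v ∈ S, ρ v ≠ v) :
    3 ∣ S.card := by
  classical
  let g : Function.End S := fun v => ⟨ρ v.1, hS v.1 v.2⟩
  have hg : g ^ 3 ^ 1 = 1 := by
    rw [pow_one]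
    funext v
    apply Subtype.ext
    exact h3 v.1
  have : Fact (Nat.Prime 3) := ⟨Nat.prime_three⟩
  have k := Equiv.Perm.card_fixedPoints_modEq hg
  have e : Fintype.card (Function.fixedPoints g) = 0 := by
    rw [Fintype.card_eq_zero_iff]
    refine ⟨fun x => ?_⟩
    have hx : g x.1 = x.1 := x.2
    exact h0 x.1.1 x.1.2 (congrArg Subtype.val hx)
  rw [e, Fintype.card_coe] at k
  exact (Nat.modEq_zero_iff_dvd).1 k

theorem three_dvd {α : Type*} [DecidableEq α] (S : Finset α) (f : α → ℤ) (ρ : α → α)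
    (hS : ∀ v ∈ S, ρ v ∈ S) (h3 : ∀ v, ρ (ρ (ρ v)) = v) (hf : ∀ v ∈ S, f (ρ v) = f v)
    (h0 : ∀ v ∈ S, ρ v = v → f v = 0) : (3 : ℤ) ∣ ∑ v ∈ S, f v := by
  have k := Finset.sum_comp (s := S) (fun b : ℤ => b) f
  rw [k]
  refine Finset.dvd_sum fun b _ => ?_
  by_cases hb : b = 0
  · rw [hb, smul_zero]
    exact dvd_zero _
  · have h1 : 3 ∣ (S.filter fun a => f a = b).card := by
      refine three_dvd_card _ ρ ?_ h3 ?_
      · intro v hv
        rw [Finset.mem_filter] at hv ⊢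
        exact ⟨hS v hv.1, by rw [hf v hv.1, hv.2]⟩
      · intro v hv he
        rw [Finset.mem_filter] at hv
        exact hb (by rw [← hv.2, h0 v hv.1 he])
    obtain ⟨k, hk⟩ := h1
    rw [hk]
    refine ⟨(k : ℤ) * b, ?_⟩
    rw [nsmul_eq_mul]
    push_cast
    ring

theorem f0_neg (x : ℤ) : f0 (-x) = f0 x := by
  unfold f0
  congr 1
  rw [eq_iff_iff]
  omega

theorem f1_neg (x : ℤ) : f1 (-x) = f1 x := by
  unfold f1
  congr 1
  rw [eq_iff_iff]
  omega

theorem f2_neg (x : ℤ) : f2 (-x) = f2 x := by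
  unfold f2
  congr 1
  rw [eq_iff_iff]
  omega

theorem ep0_mk (a b c : ℤ) : ep0 ![a, b, c] =
    if a % 2 = 1 ∧ b % 2 = 1 ∧ c % 2 = 1 then (if (a * b * c) % 4 = 1 then 1 else -1) else 0 := rfl

theorem ep0_rho (a b c : ℤ) : ep0 ![b, -c, -a] = ep0 ![a, b, c] := by
  rw [ep0_mk, ep0_mk]
  have e : b * -c * -a = a * b * c := by ring
  have e2 : (b % 2 = 1 ∧ -c % 2 = 1 ∧ -a % 2 = 1) ↔ (a % 2 = 1 ∧ b % 2 = 1 ∧ c % 2 = 1) := by omega
  rw [e, if_congr e2 rfl rfl]

theorem xi_rho (a b c : ℤ) : xi ![b, -c, -a] = xi ![a, b, c] := by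
  unfold xi
  simp only [Matrix.cons_val_zero, Matrix.cons_val_one, Matrix.cons_val, f0_neg, f1_neg, f2_neg]
  ring

theorem om_rho (r : ℕ) (a b c : ℤ) : om r ![b, -c, -a] = om r ![a, b, c] := by
  unfold om
  rw [ep0_rho, xi_rho]

theorem hLr : ∀ β a b c : ZMod 7, LZ n0 β a b c → LZ n0 β b (-c) (-a) := by decide +kernel

end RotW

open RotW in
theorem t_C3 (h : S_PHI) (h' : S_PROT) : S_C3 := by
  intro r P _ hP hne hP3 N hN β
  unfold Y
  have hchar : ∀ p ∈ P, ∀ v : V3, ph p (rd p ![v 1, -v 2, -v 0]) = ph p (rd p v) := by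
    intro p hp v
    rw [c_sgn h h' (hP p hp).1 (hP p hp).2.1, c_cyc h h' (hP p hp).1 (hP p hp).2.1, ← eta]
  refine three_dvd _ _ (fun v => ![v 1, -v 2, -v 0]) ?_ ?_ ?_ ?_
  · intro v hv
    rw [Finset.mem_filter] at hv ⊢
    refine ⟨?_, ?_⟩
    · rw [mem_vec, ← (mem_vec.1 hv.1), dot3, dot3]
      simp only [Matrix.cons_val_zero, Matrix.cons_val_one, Matrix.cons_val]
      ring
    · have k := hLr β _ _ _ ((ln_lz n0 β v).1 hv.2)
      rw [ln_lz]
      simpa using k
  · intro v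
    funext i
    fin_cases i <;> simp
  · intro v _
    have e1 : om r ![v 1, -v 2, -v 0] = om r v := by
      rw [om_rho, ← eta]
    have e2 : Ph P ![v 1, -v 2, -v 0] = Ph P v := by
      unfold Ph
      exact Finset.prod_congr rfl fun p hp => hchar p hp v
    rw [e1, e2]
  · intro v hv he
    have g0 : v 1 = v 0 := congrFun he 0
    have g1 : -v 2 = v 1 := congrFun he 1
    obtain ⟨p, hp, hp3⟩ : ∃ p ∈ P, p ≠ 3 := by
      by_contra hcon
      push Not at hcon
      apply hP3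
      exact Finset.eq_singleton_iff_nonempty_unique_mem.2 ⟨hne, hcon⟩
    have hpp := (hP p hp).1
    have hd : (p : ℤ) ∣ (N : ℤ) := by
      have : p ∣ pr P := Finset.dvd_prod_of_mem (fun p => p) hp
      exact_mod_cast this.trans hN
    have hv1 := mem_vec.1 (Finset.mem_filter.1 hv).1
    rw [dot3] at hv1
    have e3 : (N : ℤ) = 3 * (v 0 * v 0) := by
      rw [← hv1, g0]
      have : v 2 = -v 0 := by linarith
      rw [this]
      ring
    rw [e3] at hd
    have hpi : Prime (p : ℤ) := Nat.prime_iff_prime_int.1 hpp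
    have hx : (p : ℤ) ∣ v 0 := by
      rcases hpi.dvd_or_dvd hd with k | k
      · exfalso
        have k' : p ∣ 3 := by exact_mod_cast k
        exact hp3 ((Nat.prime_dvd_prime_iff_eq hpp Nat.prime_three).1 k')
      · rcases hpi.dvd_or_dvd k with k | k <;> exact k
    have hz : rd p v = 0 := by
      have z0 : ((v 0 : ℤ) : ZMod p) = 0 := (ZMod.intCast_zmod_eq_zero_iff_dvd _ _).2 hx
      funext i
      fin_cases i
      · exact z0
      · show ((v 1 : ℤ) : ZMod p) = 0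
        rw [g0]
        exact z0
      · show ((v 2 : ℤ) : ZMod p) = 0
        have : v 2 = -v 0 := by linarith
        rw [this]
        push_cast
        rw [z0, neg_zero]
    have : Ph P v = 0 := by
      unfold Ph
      refine Finset.prod_eq_zero hp ?_
      exact (ph_spec h hpp (hP p hp).2.1).zero _ (Or.inr hz)
    rw [this, mul_zero]

end Pool.Agent.NH1
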