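import Pool.Agent.NH1.RotA

/-!
# S_REFL and S_SINV
-/

set_option autoImplicit false

namespace Pool.Agent.NH1

open Finset Matrix
open Pool.Agent.Z700 (V3 vec pr Ln n0 ep X2)

namespace RotW

theorem two_dvd_card {α : Type*} [DecidableEq α] (S : Finset α) (ρ : α → α)
    (hS : ∀ v ∈ S, ρ v ∈ S) (h2 : ∀ v ∈ S, ρ (ρ v) = v) (h0 : ∀ v ∈ S, ρ v ≠ v) :
    2 ∣ S.card := by
  classical
  let g : Function.End S := fun v => ⟨ρ v.1, hS v.1 v.2⟩
  have hg : g ^ 2 ^ 1 = 1 := by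
    rw [pow_one]
    funext v
    apply Subtype.ext
    exact h2 v.1 v.2
  have : Fact (Nat.Prime 2) := ⟨Nat.prime_two⟩
  have k := Equiv.Perm.card_fixedPoints_modEq hg
  have e : Fintype.card (Function.fixedPoints g) = 0 := by
    rw [Fintype.card_eq_zero_iff]
    refine ⟨fun x => ?_⟩
    have hx : g x.1 = x.1 := x.2
    exact h0 x.1.1 x.1.2 (congrArg Subtype.val hx)
  rw [e, Fintype.card_coe] at k
  exact (Nat.modEq_zero_iff_dvd).1 k

/-! ### symbols -/

theorem lz_int {p : ℕ} (hp : p ≠ 0) (c : ℤ) : lz p (c : ZMod p) = jacobiSym c p := by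
  have : NeZero p := ⟨hp⟩
  unfold lz
  apply jacobiSym.mod_left'
  rw [← ZMod.intCast_eq_intCast_iff']
  rw [Int.cast_natCast, ZMod.natCast_val, ZMod.cast_id', id_eq]

theorem jprod (a : ℤ) (P : Finset ℕ) (hP : ∀ p ∈ P, p ≠ 0) :
    jacobiSym a (pr P) = ∏ p ∈ P, jacobiSym a p := by
  classical
  unfold Pool.Agent.Z700.pr
  induction P using Finset.induction_on with
  | empty => simp
  | insert q Q hq ih =>
    have h1 : q ≠ 0 := hP q (Finset.mem_insert_self q Q)
    have h2 : ∀ p ∈ Q, p ≠ 0 := fun p hp => hP p (Finset.mem_insert_of_mem hp)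
    have h3 : (∏ p ∈ Q, p) ≠ 0 := Finset.prod_ne_zero_iff.2 h2
    have : NeZero q := ⟨h1⟩
    have : NeZero (∏ p ∈ Q, p) := ⟨h3⟩
    rw [Finset.prod_insert hq, Finset.prod_insert hq, jacobiSym.mul_right, ih h2]

theorem jm7 {n : ℕ} (hn : Odd n) : jacobiSym (-7) n = jacobiSym n 7 := by
  have e : (-7 : ℤ) = (-1) * ((7 : ℕ) : ℤ) := by norm_num
  rw [e, jacobiSym.mul_left, jacobiSym.at_neg_one hn]
  have h4 : n % 4 = 1 ∨ n % 4 = 3 := by
    obtain ⟨k, hk⟩ := hn
    omega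
  rcases h4 with h4 | h4
  · rw [ZMod.χ₄_nat_one_mod_four h4, one_mul,
      ← jacobiSym.quadratic_reciprocity_one_mod_four h4 (by decide)]
  · rw [ZMod.χ₄_nat_three_mod_four h4,
      jacobiSym.quadratic_reciprocity_three_mod_four (by norm_num) h4]
    ring

theorem jm14 {n : ℕ} (hn : Odd n) (h7 : n % 7 ≠ 0) : jacobiSym (-14) n =
    (if sq2 n then 1 else -1) * (if sq7 n then 1 else -1) := by
  have e : (-14 : ℤ) = 2 * (-7) := by norm_num
  rw [e, jacobiSym.mul_left, jm7 hn, jacobiSym.at_two hn, ZMod.χ₈_nat_eq_if_mod_eight]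
  have h2 : ¬ n % 2 = 0 := by
    obtain ⟨k, hk⟩ := hn
    omega
  rw [if_neg h2]
  congr 1
  have h8 : jacobiSym (n : ℤ) 7 = jacobiSym ((n % 7 : ℕ) : ℤ) 7 := by
    rw [jacobiSym.mod_left]
    push_cast
    rfl
  have hh : ∀ m : ℕ, m < 7 → m ≠ 0 → ((m = 1 ∨ m = 2 ∨ m = 4) → jacobiSym ((m : ℕ) : ℤ) 7 = 1) ∧
      (¬ (m = 1 ∨ m = 2 ∨ m = 4) → jacobiSym ((m : ℕ) : ℤ) 7 = -1) := by
    intro m h1 h2
    interval_cases m
    · exact absurd rfl h2
    all_goals norm_num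
  have k := hh (n % 7) (Nat.mod_lt _ (by norm_num)) h7
  rw [h8]
  by_cases hs : sq7 n
  · rw [if_pos hs]
    exact k.1 hs
  · rw [if_neg hs]
    exact k.2 hs

theorem jK {n : ℕ} (h : K 3 n ∨ K 5 n) : jacobiSym (-14) n = 1 := by
  have hodd : Odd n := by
    rcases h with ⟨h, _⟩ | ⟨h, _⟩ <;> exact Nat.odd_iff.2 (by omega)
  have h3 : n % 7 = 3 ∨ n % 7 = 5 ∨ n % 7 = 6 := by
    rcases h with ⟨_, h⟩ | ⟨_, h⟩
    · rw [if_neg (by norm_num)] at h
      exact h
    · rw [if_neg (by norm_num)] at h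
      exact h
  have h8 : n % 8 = 3 ∨ n % 8 = 5 := by
    rcases h with ⟨h, _⟩ | ⟨h, _⟩
    · exact Or.inl h
    · exact Or.inr h
  rw [jm14 hodd (by omega), if_neg (by unfold sq2; omega), if_neg (by unfold sq7; omega)]
  norm_num

/-! ### the reflection -/

/-- the inner product with `(1,2,3)` -/
def dn (v : V3) : ℤ := v 0 + 2 * v 1 + 3 * v 2

/-- the reflection -/
def rf (v : V3) : V3 := ![v 0 - dn v / 7, v 1 - 2 * (dn v / 7), v 2 - 3 * (dn v / 7)]

theorem rf_eq (v : V3) : rf v = ![v 0 - dn v / 7, v 1 - 2 * (dn v / 7), v 2 - 3 * (dn v / 7)] := rfl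

theorem dn_dec : ∀ β a b c : ZMod 7, β ≠ 0 → LZ n0 β a b c → a + 2 * b + 3 * c = 0 := by
  decide +kernel

theorem dn_dvd {β : ZMod 7} (hβ : β ≠ 0) {v : V3} (h : Ln n0 β v) : (7 : ℤ) ∣ dn v := by
  have k := dn_dec β _ _ _ hβ ((ln_lz n0 β v).1 h)
  have k2 : ((dn v : ℤ) : ZMod 7) = 0 := by
    unfold dn
    push_cast
    exact k
  exact (ZMod.intCast_zmod_eq_zero_iff_dvd _ 7).1 k2

theorem dn_rf {v : V3} (h : (7 : ℤ) ∣ dn v) : dn (rf v) = -dn v := by
  obtain ⟨t, ht⟩ := h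
  have e : dn v / 7 = t := by rw [ht]; exact Int.mul_ediv_cancel_left t (by norm_num)
  have e1 : dn (rf v) = dn v - 14 * (dn v / 7) := by
    unfold rf
    conv_lhs => unfold dn
    simp only [Matrix.cons_val_zero, Matrix.cons_val_one, Matrix.cons_val]
    conv_rhs => unfold dn
    ring
  rw [e1, e, ht]
  ring

theorem rf_rf {v : V3} (h : (7 : ℤ) ∣ dn v) : rf (rf v) = v := by
  have e := dn_rf h
  have e2 : dn (rf v) / 7 = -(dn v / 7) := by
    rw [e]
    exact Int.neg_ediv_of_dvd h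
  rw [rf_eq (rf v), e2, rf_eq v]
  funext i
  fin_cases i <;> simp

theorem rf_norm {v : V3} (h : (7 : ℤ) ∣ dn v) : rf v ⬝ᵥ rf v = v ⬝ᵥ v := by
  obtain ⟨t, ht⟩ := h
  have e : dn v / 7 = t := by rw [ht]; exact Int.mul_ediv_cancel_left t (by norm_num)
  rw [dot3, dot3]
  unfold rf
  simp only [Matrix.cons_val_zero, Matrix.cons_val_one, Matrix.cons_val]
  rw [e]
  unfold dn at ht
  linear_combination (-2 * t) * ht

theorem rf_ln {β : ZMod 7} {v : V3} (h : Ln n0 β v) : Ln n0 β (rf v) := by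
  rw [ln_lz] at h ⊢
  unfold rf
  simp only [Matrix.cons_val_zero, Matrix.cons_val_one, Matrix.cons_val]
  unfold LZ at h ⊢
  obtain ⟨h1, h2, h3⟩ := h
  have a0 : n0 0 = 1 := rfl
  have a1 : n0 1 = 2 := rfl
  have a2 : n0 2 = 3 := rfl
  rw [a0, a1, a2] at h1 h2 h3 ⊢
  push_cast
  refine ⟨?_, ?_, ?_⟩
  · linear_combination h1
  · linear_combination h2
  · linear_combination h3

theorem rf_ph (h : S_PHI) (h' : S_PROT) {p : ℕ} (hp : p.Prime) (h2 : p ≠ 2) (h7 : p ≠ 7) {v : V3}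
    (hv : (7 : ℤ) ∣ dn v) : ph p (rd p (rf v)) = jacobiSym (-14) p * ph p (rd p v) := by
  have k := (h' p hp h2 (ph p) (ph_spec h hp h2) (rd p v)).2.2.2.2 h7 (rd p (rf v)) ?_
  · rw [k, ← lz_int hp.ne_zero]
    push_cast
    rfl
  · obtain ⟨t, ht⟩ := hv
    have e : dn v / 7 = t := by rw [ht]; exact Int.mul_ediv_cancel_left t (by norm_num)
    have e2 : (rd p v 0 + 2 * rd p v 1 + 3 * rd p v 2) = 7 * (t : ZMod p) := by
      have : ((dn v : ℤ) : ZMod p) = ((7 * t : ℤ) : ZMod p) := by rw [ht]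
      unfold dn at this
      push_cast at this
      exact this
    rw [e2]
    intro i
    unfold rf
    rw [e, rd_mk, rd_eta p v]
    push_cast
    fin_cases i
    · simp only [Fin.zero_eta, Matrix.cons_val_zero]
      ring
    · simp only [Fin.mk_one, Matrix.cons_val_one]
      simp
      ring
    · simp
      ring

theorem rf_Ph (h : S_PHI) (h' : S_PROT) {P : Finset ℕ} (hP : Pm P) {v : V3}
    (hv : (7 : ℤ) ∣ dn v) : Ph P (rf v) = jacobiSym (-14) (pr P) * Ph P v := by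
  rw [jprod _ _ (fun p hp => (hP p hp).1.ne_zero)]
  unfold Ph
  rw [← Finset.prod_mul_distrib]
  exact Finset.prod_congr rfl fun p hp => rf_ph h h' (hP p hp).1 (hP p hp).2.1 (hP p hp).2.2 hv

theorem be_ne {n : ℕ} (h : K 3 n ∨ K 5 n) {β : ZMod 7} (hβ : β ^ 2 = -(n : ZMod 7)) : β ≠ 0 := by
  rintro rfl
  have h3 : n % 7 = 3 ∨ n % 7 = 5 ∨ n % 7 = 6 := by
    rcases h with ⟨_, h⟩ | ⟨_, h⟩
    · rw [if_neg (by norm_num)] at h
      exact h
    · rw [if_neg (by norm_num)] at h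
      exact h
  have h0 : (n : ZMod 7) = 0 := by
    have : (0 : ZMod 7) ^ 2 = 0 := by decide
    rw [this] at hβ
    exact (neg_eq_zero.1 hβ.symm)
  rw [ZMod.natCast_eq_zero_iff] at h0
  omega

end RotW

open RotW in
theorem t_REFL (h : S_PHI) (h' : S_PROT) (hp : S_PROD) : S_REFL := by
  intro N hN hK β hβ P hPN hj
  have hβ0 := be_ne hK hβ
  have hr : pr N % 8 = 3 ∨ pr N % 8 = 5 := by
    rcases hK with hK | hK
    · exact Or.inl hK.1
    · exact Or.inr hK.1
  obtain ⟨C, hC, hC2⟩ := hp N (pr N % 8) (fun p hp => ⟨(hN p hp).1, (hN p hp).2.1⟩) hr rfl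
  have hCC : C * C = 1 := by rcases hC with rfl | rfl <;> norm_num
  have hom : ∀ v ∈ (vec (pr N : ℤ)).filter fun v => Ln n0 β v,
      om (pr N % 8) (rf v) = om (pr N % 8) v := by
    intro v hv
    rw [Finset.mem_filter] at hv
    have hd := dn_dvd hβ0 hv.2
    have hv2 : rf v ∈ vec (pr N : ℤ) := by
      rw [mem_vec, rf_norm hd, ← mem_vec]
      exact hv.1
    have k1 := hC2 v hv.1
    have k2 := hC2 _ hv2
    rw [rf_Ph h h' hN hd, jK hK, one_mul, k1] at k2
    have : C * (C * om (pr N % 8) v) = C * (C * om (pr N % 8) (rf v)) := by rw [k2]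
    rw [← mul_assoc, ← mul_assoc, hCC, one_mul, one_mul] at this
    exact this.symm
  have key : Y (pr N % 8) P (pr N : ℤ) β = -Y (pr N % 8) P (pr N : ℤ) β := by
    conv_lhs => unfold Y
    unfold Y
    rw [← Finset.sum_neg_distrib]
    refine Finset.sum_nbij' rf rf ?_ ?_ ?_ ?_ ?_
    · intro v hv
      rw [Finset.mem_filter] at hv ⊢
      refine ⟨?_, rf_ln hv.2⟩
      rw [mem_vec, rf_norm (dn_dvd hβ0 hv.2), ← mem_vec]
      exact hv.1
    · intro v hv
      rw [Finset.mem_filter] at hv ⊢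
      refine ⟨?_, rf_ln hv.2⟩
      rw [mem_vec, rf_norm (dn_dvd hβ0 hv.2), ← mem_vec]
      exact hv.1
    · intro v hv
      exact rf_rf (dn_dvd hβ0 (Finset.mem_filter.1 hv).2)
    · intro v hv
      exact rf_rf (dn_dvd hβ0 (Finset.mem_filter.1 hv).2)
    · intro v hv
      have hd := dn_dvd hβ0 (Finset.mem_filter.1 hv).2
      rw [hom v hv, rf_Ph h h' (fun p hp => hN p (hPN hp)) hd, hj]
      ring
  linarith

open RotW in
open Classical in
theorem t_SINV (h : S_PHI) (h' : S_PROT) : S_SINV := by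
  intro N hN hK hA hB β hβ γ
  have hβ0 := be_ne hK hβ
  have hj : ∀ p ∈ N, jacobiSym (-14) p = 1 := by
    intro p hp
    have hpp := hN p hp
    have hodd : Odd p := hpp.1.odd_of_ne_two hpp.2.1
    have h7 : p % 7 ≠ 0 := by
      intro hc
      exact hpp.2.2 ((Nat.prime_dvd_prime_iff_eq (by norm_num) hpp.1).1
        (Nat.dvd_of_mod_eq_zero hc)).symm
    rw [jm14 hodd h7]
    by_cases a : sq2 p <;> by_cases b : sq7 p
    · rw [if_pos a, if_pos b]; norm_num
    · exfalso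
      have : p ∈ sA N := Finset.mem_filter.2 ⟨hp, a, b⟩
      rw [hA] at this
      exact absurd this (Finset.notMem_empty p)
    · exfalso
      have : p ∈ sB N := Finset.mem_filter.2 ⟨hp, a, b⟩
      rw [hB] at this
      exact absurd this (Finset.notMem_empty p)
    · rw [if_neg a, if_neg b]; norm_num
  set S := (vec (pr N : ℤ)).filter fun v => Ln n0 β v ∧ ∀ p ∈ N, ph p (rd p v) = γ p with hS
  have e1 : R N β γ = S.card := by
    unfold R
    rw [hS]
  have e2 : Z0 N β γ = (S.filter fun v => dn v = 0).card := by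
    unfold Z0
    rw [hS, Finset.filter_filter]
    congr 1
    ext v
    simp only [Finset.mem_filter]
    unfold dn
    tauto
  have e3 : S.card = (S.filter fun v => dn v = 0).card + (S.filter fun v => ¬ dn v = 0).card :=
    (Finset.card_filter_add_card_filter_not _).symm
  have hmem : ∀ v ∈ S, rf v ∈ S := by
    intro v hv
    rw [hS, Finset.mem_filter] at hv ⊢
    have hd := dn_dvd hβ0 hv.2.1
    refine ⟨?_, rf_ln hv.2.1, ?_⟩
    · rw [mem_vec, rf_norm hd, ← mem_vec]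
      exact hv.1
    · intro p hp
      rw [rf_ph h h' (hN p hp).1 (hN p hp).2.1 (hN p hp).2.2 hd, hj p hp, one_mul]
      exact hv.2.2 p hp
  have hdd : ∀ v ∈ S, (7 : ℤ) ∣ dn v := by
    intro v hv
    rw [hS, Finset.mem_filter] at hv
    exact dn_dvd hβ0 hv.2.1
  have e4 : 2 ∣ (S.filter fun v => ¬ dn v = 0).card := by
    refine two_dvd_card _ rf ?_ ?_ ?_
    · intro v hv
      rw [Finset.mem_filter] at hv ⊢
      refine ⟨hmem v hv.1, ?_⟩
      rw [dn_rf (hdd v hv.1)]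
      intro hc
      exact hv.2 (neg_eq_zero.1 hc)
    · intro v hv
      exact rf_rf (hdd v (Finset.mem_filter.1 hv).1)
    · intro v hv hc
      rw [Finset.mem_filter] at hv
      have k := dn_rf (hdd v hv.1)
      rw [hc] at k
      exact hv.2 (by linarith)
  rw [e1, e2, e3]
  omega

end Pool.Agent.NH1
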