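import Pool.Agent.NH1.RotB
import Pool.Agent.NH1.RotC
import Pool.Agent.NH1.RotD

/-!
# `t_ROT`, `t_C3`, `t_REFL`, `t_SINV`
-/
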