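import Mathlib
import Pool.Agent.NH1.Sub

/-!
# Project NH1: transformation of theta series with periodic coefficients
-/

set_option autoImplicit false

namespace Pool.Agent.NH1

open Finset Matrix

noncomputable section

namespace Th

open Complex

/-- `e(x/N)` -/
lemma std_val {N : ℕ} [NeZero N] (x : ZMod N) :
    Complex.exp (2 * Real.pi * Complex.I * ((x.val : ℕ) : ℂ) / N) = ZMod.stdAddChar x := by
  have h := ZMod.stdAddChar_coe (N := N) (x.val : ℤ)
  rw [Int.cast_natCast, ZMod.natCast_zmod_val] at h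
  rw [h]
  push_cast
  rfl

/-- the summand `e(b² z / 2N)` -/
def g (N : ℕ) (z : ℂ) (b : ℤ) : ℂ := Complex.exp (Real.pi * Complex.I * (b : ℂ) ^ 2 * z / N)

lemma im_div {N : ℕ} [NeZero N] {z : ℂ} (hz : 0 < z.im) : 0 < (z / N).im := by
  have h1 : (z / N).im = z.im / N := by
    rw [show (N : ℂ) = ((N : ℝ) : ℂ) by push_cast; rfl, Complex.div_ofReal_im]
  rw [h1]
  have : 0 < N := Nat.pos_of_ne_zero (NeZero.ne N)
  positivity

lemma im_neg_inv {z : ℂ} (hz : 0 < z.im) : 0 < (-1 / z).im := by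
  rw [neg_div, Complex.neg_im, one_div, Complex.inv_im]
  have : 0 < Complex.normSq z := Complex.normSq_pos.2 (by rintro rfl; simp at hz)
  rw [neg_div, neg_neg]
  positivity

lemma term_eq (N : ℕ) [NeZero N] (a : ZMod N) (z : ℂ) (b : ℤ) :
    jacobiTheta₂_term b ((a.val : ℂ) / N) (z / N) = ZMod.stdAddChar (a * (b : ZMod N)) * g N z b := by
  have h1 : (a * (b : ZMod N)) = (((a.val : ℤ) * b : ℤ) : ZMod N) := by
    push_cast
    rw [ZMod.natCast_zmod_val]
  rw [h1, ZMod.stdAddChar_coe, g, jacobiTheta₂_term, ← Complex.exp_add]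
  congr 1
  push_cast
  ring

lemma summable_term (N : ℕ) [NeZero N] (a : ZMod N) {z : ℂ} (hz : 0 < z.im) :
    Summable fun b : ℤ => ‖(ZMod.stdAddChar (a * (b : ZMod N)) : ℂ) * g N z b‖ := by
  have h1 := ((summable_jacobiTheta₂_term_iff ((a.val : ℂ) / N) (z / N)).2 (im_div hz)).norm
  refine h1.congr fun b => ?_
  rw [term_eq]

lemma summable_g (N : ℕ) [NeZero N] {z : ℂ} (hz : 0 < z.im) : Summable fun b : ℤ => ‖g N z b‖ := by
  refine (summable_term N (0 : ZMod N) hz).congr fun b => ?_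
  rw [zero_mul, AddChar.map_zero_eq_one, one_mul]

/-- the part of one residue class -/
def dl (N : ℕ) (z : ℂ) (a : ZMod N) (b : ℤ) : ℂ := if (b : ZMod N) = a then g N z b else 0

lemma summable_dl (N : ℕ) [NeZero N] {z : ℂ} (hz : 0 < z.im) (a : ZMod N) :
    Summable fun b : ℤ => ‖dl N z a b‖ := by
  refine Summable.of_nonneg_of_le (fun b => norm_nonneg _) (fun b => ?_) (summable_g N hz)
  unfold dl
  split_ifs
  · exact le_rfl
  · rw [norm_zero]
    exact norm_nonneg _

/-- one residue class -/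
lemma class_eq (N : ℕ) [NeZero N] (a : ZMod N) {z : ℂ} (hz : 0 < z.im) :
    ∑' b : ℤ, dl N (-1 / z) a b = (-Complex.I * z / N) ^ ((1 : ℂ) / 2) *
      ∑' b : ℤ, (ZMod.stdAddChar (a * (b : ZMod N)) : ℂ) * g N z b := by
  have hN : (N : ℂ) ≠ 0 := by exact_mod_cast NeZero.ne N
  have hz0 : z ≠ 0 := by
    rintro rfl
    simp at hz
  -- the left side
  have hinj : Function.Injective (fun n : ℤ => (a.val : ℤ) + N * n) := by
    intro m n hmn
    simp only at hmn
    have hNZ : (N : ℤ) ≠ 0 := by exact_mod_cast NeZero.ne N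
    exact mul_left_cancel₀ hNZ (by linarith)
  have h1 : ∑' b : ℤ, dl N (-1 / z) a b = ∑' n : ℤ, g N (-1 / z) ((a.val : ℤ) + N * n) := by
    rw [← hinj.tsum_eq]
    · apply tsum_congr
      intro n
      unfold dl
      rw [if_pos]
      push_cast
      rw [ZMod.natCast_zmod_val, ZMod.natCast_self, zero_mul, add_zero]
    · intro b hb
      rw [Function.mem_support] at hb
      unfold dl at hb
      have h2 : (b : ZMod N) = a := by
        by_contra h
        rw [if_neg h] at hb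
        exact hb rfl
      have h3 : ((b - (a.val : ℤ) : ℤ) : ZMod N) = 0 := by
        push_cast
        rw [ZMod.natCast_zmod_val, h2, sub_self]
      rw [ZMod.intCast_zmod_eq_zero_iff_dvd] at h3
      obtain ⟨k, hk⟩ := h3
      exact ⟨k, by simp only; linarith⟩
  -- the right side
  have h2 : ∑' b : ℤ, (ZMod.stdAddChar (a * (b : ZMod N)) : ℂ) * g N z b =
      jacobiTheta₂ ((a.val : ℂ) / N) (z / N) := by
    unfold jacobiTheta₂
    apply tsum_congr
    intro b
    rw [term_eq]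
  rw [h1, h2, jacobiTheta₂_functional_equation]
  have hτ : (-Complex.I * z / N) = -Complex.I * (z / N) := by ring
  rw [hτ]
  have hne : (-Complex.I * (z / N)) ^ ((1 : ℂ) / 2) ≠ 0 := by
    rw [Ne, Complex.cpow_eq_zero_iff]
    rintro ⟨h, -⟩
    rcases mul_eq_zero.1 h with h | h
    · simp at h
    · rw [div_eq_zero_iff] at h
      rcases h with h | h
      · exact hz0 h
      · exact hN h
  rw [mul_assoc, ← mul_assoc, mul_one_div_cancel hne, one_mul]
  unfold jacobiTheta₂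
  rw [← tsum_mul_left, ← (Equiv.neg ℤ).tsum_eq]
  apply tsum_congr
  intro n
  simp only [Equiv.neg_apply]
  rw [g, jacobiTheta₂_term, ← Complex.exp_add]
  congr 1
  push_cast
  field_simp
  ring

/-- the linear combination -/
lemma sum_dl (N : ℕ) [NeZero N] (φ : ZMod N → ℂ) (z : ℂ) (b : ℤ) :
    φ (b : ZMod N) * g N z b = ∑ a : ZMod N, φ a * dl N z a b := by
  classical
  unfold dl
  simp only [mul_ite, mul_zero]
  rw [Finset.sum_ite_eq]
  simp

end Th

open Th

theorem t_TH1 : S_TH1 := by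
  intro N _ φ z hz
  have hL : ∑' b : ℤ, φ (b : ZMod N) * Complex.exp (Real.pi * Complex.I * (b : ℂ) ^ 2 * (-1 / z) / N) =
      ∑ a : ZMod N, φ a * ∑' b : ℤ, dl N (-1 / z) a b := by
    calc _ = ∑' b : ℤ, ∑ a : ZMod N, φ a * dl N (-1 / z) a b := by
          apply tsum_congr
          intro b
          rw [← sum_dl]
          rfl
      _ = ∑ a : ZMod N, ∑' b : ℤ, φ a * dl N (-1 / z) a b :=
          Summable.tsum_finsetSum fun a _ => (summable_dl N (im_neg_inv hz) a).of_norm.mul_left _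
      _ = _ := by
          apply Finset.sum_congr rfl
          intro a _
          rw [tsum_mul_left]
  have hR : ∑' b : ℤ, (∑ a : ZMod N, φ a *
      Complex.exp (2 * Real.pi * Complex.I * (((a * (b : ZMod N)).val : ℕ) : ℂ) / N)) *
      Complex.exp (Real.pi * Complex.I * (b : ℂ) ^ 2 * z / N) =
      ∑ a : ZMod N, φ a * ∑' b : ℤ, (ZMod.stdAddChar (a * (b : ZMod N)) : ℂ) * g N z b := by
    calc _ = ∑' b : ℤ, ∑ a : ZMod N, φ a * ((ZMod.stdAddChar (a * (b : ZMod N)) : ℂ) * g N z b) := by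
          apply tsum_congr
          intro b
          rw [Finset.sum_mul]
          apply Finset.sum_congr rfl
          intro a _
          rw [std_val, g]
          ring
      _ = ∑ a : ZMod N, ∑' b : ℤ, φ a * ((ZMod.stdAddChar (a * (b : ZMod N)) : ℂ) * g N z b) :=
          Summable.tsum_finsetSum fun a _ => (summable_term N a hz).of_norm.mul_left _
      _ = _ := by
          apply Finset.sum_congr rfl
          intro a _
          rw [tsum_mul_left]
  rw [hL, hR, Finset.mul_sum]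
  apply Finset.sum_congr rfl
  intro a _
  rw [class_eq N a hz]
  ring

namespace Th

/-- triples -/
def e3 : ℤ × ℤ × ℤ ≃ (Fin 3 → ℤ) where
  toFun x := ![x.1, x.2.1, x.2.2]
  invFun v := (v 0, v 1, v 2)
  left_inv x := by simp
  right_inv v := by
    ext i
    fin_cases i <;> rfl

lemma e3_0 (x : ℤ × ℤ × ℤ) : e3 x 0 = x.1 := rfl

lemma e3_1 (x : ℤ × ℤ × ℤ) : e3 x 1 = x.2.1 := rfl

lemma e3_2 (x : ℤ × ℤ × ℤ) : e3 x 2 = x.2.2 := rfl

lemma summable3 (f0 f1 f2 : ℤ → ℂ) (h0 : Summable fun b => ‖f0 b‖) (h1 : Summable fun b => ‖f1 b‖)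
    (h2 : Summable fun b => ‖f2 b‖) : Summable fun v : Fin 3 → ℤ => ‖f0 (v 0) * (f1 (v 1) * f2 (v 2))‖ := by
  have h3 : Summable fun x : ℤ × ℤ => ‖f1 x.1 * f2 x.2‖ := Summable.mul_norm h1 h2
  have h4 : Summable fun x : ℤ × (ℤ × ℤ) => ‖f0 x.1 * (f1 x.2.1 * f2 x.2.2)‖ :=
    Summable.mul_norm (f := f0) (g := fun x : ℤ × ℤ => f1 x.1 * f2 x.2) h0 h3
  refine (Equiv.summable_iff e3).1 (h4.congr fun x => ?_)
  rw [Function.comp_apply, e3_0, e3_1, e3_2]

lemma tsum3 (f0 f1 f2 : ℤ → ℂ) (h0 : Summable fun b => ‖f0 b‖) (h1 : Summable fun b => ‖f1 b‖)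
    (h2 : Summable fun b => ‖f2 b‖) : ∑' v : Fin 3 → ℤ, f0 (v 0) * (f1 (v 1) * f2 (v 2)) =
    (∑' b, f0 b) * ((∑' b, f1 b) * ∑' b, f2 b) := by
  have h3 : Summable fun x : ℤ × ℤ => ‖f1 x.1 * f2 x.2‖ := h1.mul_norm h2
  rw [tsum_mul_tsum_of_summable_norm h1 h2, tsum_mul_tsum_of_summable_norm h0 h3, ← e3.tsum_eq]
  rfl

lemma dot3 (N : ℕ) (z : ℂ) (v : Fin 3 → ℤ) :
    Complex.exp (Real.pi * Complex.I * ((v ⬝ᵥ v : ℤ) : ℂ) * z / N) =
      g N z (v 0) * (g N z (v 1) * g N z (v 2)) := by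
  unfold g
  rw [← Complex.exp_add, ← Complex.exp_add, dotProduct, Fin.sum_univ_three]
  congr 1
  push_cast
  ring

lemma sum_dl3 (N : ℕ) [NeZero N] (φ : (Fin 3 → ZMod N) → ℂ) (z : ℂ) (v : Fin 3 → ℤ) :
    φ (fun i => (v i : ZMod N)) * (g N z (v 0) * (g N z (v 1) * g N z (v 2))) =
      ∑ a : Fin 3 → ZMod N, φ a * (dl N z (a 0) (v 0) * (dl N z (a 1) (v 1) * dl N z (a 2) (v 2))) := by
  classical
  rw [Finset.sum_eq_single (fun i => (v i : ZMod N))]
  · unfold dl
    simp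
  · intro a _ ha
    have h1 : ∃ i, (v i : ZMod N) ≠ a i := by
      by_contra h
      push Not at h
      exact ha (funext fun i => (h i).symm)
    obtain ⟨i, hi⟩ := h1
    unfold dl
    fin_cases i
    · simp only [Fin.zero_eta] at hi
      rw [if_neg hi]
      ring
    · simp only [Fin.mk_one] at hi
      rw [if_neg hi]
      ring
    · simp only [Fin.reduceFinMk] at hi
      rw [if_neg hi]
      ring
  · intro h
    exact absurd (Finset.mem_univ _) h

lemma std3 (N : ℕ) [NeZero N] (a : Fin 3 → ZMod N) (v : Fin 3 → ℤ) :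
    (ZMod.stdAddChar (a ⬝ᵥ fun i => (v i : ZMod N)) : ℂ) = ZMod.stdAddChar (a 0 * (v 0 : ZMod N)) *
      (ZMod.stdAddChar (a 1 * (v 1 : ZMod N)) * ZMod.stdAddChar (a 2 * (v 2 : ZMod N))) := by
  rw [dotProduct, Fin.sum_univ_three, AddChar.map_add_eq_mul, AddChar.map_add_eq_mul]
  ring

/-- summability of the series of `S_TH3` -/
lemma summable_theta3 (N : ℕ) [NeZero N] (φ : (Fin 3 → ZMod N) → ℂ) {z : ℂ} (hz : 0 < z.im) :
    Summable fun v : Fin 3 → ℤ => φ (fun i => (v i : ZMod N)) *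
      Complex.exp (Real.pi * Complex.I * ((v ⬝ᵥ v : ℤ) : ℂ) * z / N) := by
  have h1 : ∀ a : Fin 3 → ZMod N, Summable fun v : Fin 3 → ℤ =>
      φ a * (dl N z (a 0) (v 0) * (dl N z (a 1) (v 1) * dl N z (a 2) (v 2))) := fun a =>
    (summable3 _ _ _ (summable_dl N hz (a 0)) (summable_dl N hz (a 1)) (summable_dl N hz (a 2))).of_norm.mul_left _
  refine (summable_sum (s := Finset.univ) fun a _ => h1 a).congr fun v => ?_
  rw [dot3, sum_dl3]

/-- summability of the series of `S_TH1` -/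
lemma summable_theta1 (N : ℕ) [NeZero N] (φ : ZMod N → ℂ) {z : ℂ} (hz : 0 < z.im) :
    Summable fun b : ℤ => φ (b : ZMod N) * Complex.exp (Real.pi * Complex.I * (b : ℂ) ^ 2 * z / N) := by
  refine (summable_sum (s := Finset.univ) fun a _ => (summable_dl N hz a).of_norm.mul_left (φ a)).congr fun b => ?_
  rw [← sum_dl]
  rfl

end Th

theorem t_TH3 : S_TH3 := by
  intro N _ φ z hz
  have hz' := im_neg_inv hz
  have hL : ∑' v : Fin 3 → ℤ, φ (fun i => (v i : ZMod N)) *
      Complex.exp (Real.pi * Complex.I * ((v ⬝ᵥ v : ℤ) : ℂ) * (-1 / z) / N) =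
      ∑ a : Fin 3 → ZMod N, φ a * ((∑' b : ℤ, dl N (-1 / z) (a 0) b) *
        ((∑' b : ℤ, dl N (-1 / z) (a 1) b) * ∑' b : ℤ, dl N (-1 / z) (a 2) b)) := by
    calc _ = ∑' v : Fin 3 → ℤ, ∑ a : Fin 3 → ZMod N, φ a * (dl N (-1 / z) (a 0) (v 0) *
          (dl N (-1 / z) (a 1) (v 1) * dl N (-1 / z) (a 2) (v 2))) := by
          apply tsum_congr
          intro v
          rw [dot3, sum_dl3]
      _ = ∑ a : Fin 3 → ZMod N, ∑' v : Fin 3 → ℤ, φ a * (dl N (-1 / z) (a 0) (v 0) *
          (dl N (-1 / z) (a 1) (v 1) * dl N (-1 / z) (a 2) (v 2))) :=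
          Summable.tsum_finsetSum fun a _ => (summable3 _ _ _ (summable_dl N hz' (a 0)) (summable_dl N hz' (a 1))
            (summable_dl N hz' (a 2))).of_norm.mul_left _
      _ = _ := by
          apply Finset.sum_congr rfl
          intro a _
          rw [tsum_mul_left, tsum3 _ _ _ (summable_dl N hz' (a 0)) (summable_dl N hz' (a 1)) (summable_dl N hz' (a 2))]
  have hR : ∑' v : Fin 3 → ℤ, (∑ a : Fin 3 → ZMod N, φ a *
      Complex.exp (2 * Real.pi * Complex.I *
        (((a ⬝ᵥ fun i => (v i : ZMod N)).val : ℕ) : ℂ) / N)) *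
      Complex.exp (Real.pi * Complex.I * ((v ⬝ᵥ v : ℤ) : ℂ) * z / N) =
      ∑ a : Fin 3 → ZMod N, φ a * ((∑' b : ℤ, (ZMod.stdAddChar (a 0 * (b : ZMod N)) : ℂ) * g N z b) *
        ((∑' b : ℤ, (ZMod.stdAddChar (a 1 * (b : ZMod N)) : ℂ) * g N z b) *
          ∑' b : ℤ, (ZMod.stdAddChar (a 2 * (b : ZMod N)) : ℂ) * g N z b)) := by
    calc _ = ∑' v : Fin 3 → ℤ, ∑ a : Fin 3 → ZMod N, φ a *
          (((ZMod.stdAddChar (a 0 * (v 0 : ZMod N)) : ℂ) * g N z (v 0)) *
          (((ZMod.stdAddChar (a 1 * (v 1 : ZMod N)) : ℂ) * g N z (v 1)) *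
          ((ZMod.stdAddChar (a 2 * (v 2 : ZMod N)) : ℂ) * g N z (v 2)))) := by
          apply tsum_congr
          intro v
          rw [Finset.sum_mul, dot3]
          apply Finset.sum_congr rfl
          intro a _
          rw [std_val, std3]
          ring
      _ = ∑ a : Fin 3 → ZMod N, ∑' v : Fin 3 → ℤ, φ a *
          (((ZMod.stdAddChar (a 0 * (v 0 : ZMod N)) : ℂ) * g N z (v 0)) *
          (((ZMod.stdAddChar (a 1 * (v 1 : ZMod N)) : ℂ) * g N z (v 1)) *
          ((ZMod.stdAddChar (a 2 * (v 2 : ZMod N)) : ℂ) * g N z (v 2)))) :=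
          Summable.tsum_finsetSum fun a _ => (summable3 _ _ _ (summable_term N (a 0) hz) (summable_term N (a 1) hz)
            (summable_term N (a 2) hz)).of_norm.mul_left _
      _ = _ := by
          apply Finset.sum_congr rfl
          intro a _
          rw [tsum_mul_left, tsum3 _ _ _ (summable_term N (a 0) hz) (summable_term N (a 1) hz) (summable_term N (a 2) hz)]
  rw [hL, hR, Finset.mul_sum]
  apply Finset.sum_congr rfl
  intro a _
  have h3 : (-Complex.I * z / N) ^ ((3 : ℂ) / 2) = ((-Complex.I * z / N) ^ ((1 : ℂ) / 2)) ^ 3 := by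
    rw [← Complex.cpow_nat_mul]
    congr 1
    norm_num
  rw [class_eq N (a 0) hz, class_eq N (a 1) hz, class_eq N (a 2) hz, h3]
  ring

end

end Pool.Agent.NH1
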