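import Pool.Agent.NH1.Sub

/-!
# Project NH1, job 05: the theta series are vector valued modular forms
-/

set_option autoImplicit false

namespace Pool.Agent.NH1

open Finset Matrix
open Pool.Agent.Z700 (V3 vec pr cp Ln n0 ep X2)

namespace Tr

noncomputable section

theorem dot3 (v w : V3) : v ⬝ᵥ w = v 0 * w 0 + v 1 * w 1 + v 2 * w 2 := by
  simp [dotProduct, Fin.sum_univ_three]

theorem mem_vec (n : ℤ) (v : V3) : v ∈ vec n ↔ v ⬝ᵥ v = n := by
  unfold Pool.Agent.Z700.vec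
  rw [Finset.mem_filter]
  constructor
  · exact fun h => h.2
  · intro h
    refine ⟨?_, h⟩
    rw [Fintype.mem_piFinset]
    intro i
    rw [Finset.mem_Icc]
    rw [dot3] at h
    have h0 := mul_self_nonneg (v 0)
    have h1 := mul_self_nonneg (v 1)
    have h2 := mul_self_nonneg (v 2)
    have key : v i * v i ≤ n := by
      fin_cases i
      · show v 0 * v 0 ≤ n
        linarith
      · show v 1 * v 1 ≤ n
        linarith
      · show v 2 * v 2 ≤ n
        linarith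
    have k2 : v i ≤ v i * v i := by
      rcases le_or_gt (v i) 0 with h | h
      · nlinarith [mul_self_nonneg (v i)]
      · nlinarith
    have k3 : -v i ≤ v i * v i := by
      rcases le_or_gt 0 (v i) with h | h
      · nlinarith [mul_self_nonneg (v i)]
      · nlinarith
    constructor <;> linarith

theorem card_vec (n : ℤ) (hn : 0 ≤ n) : ((vec n).card : ℤ) ≤ (2 * n + 1) ^ 3 := by
  have h1 : (vec n).card ≤ (Fintype.piFinset fun _ : Fin 3 => Icc (-n) n).card :=
    Finset.card_le_card (Finset.filter_subset _ _)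
  have h2 : ((Fintype.piFinset fun _ : Fin 3 => Icc (-n) n).card : ℤ) = (2 * n + 1) ^ 3 := by
    rw [Fintype.card_piFinset]
    simp only [Int.card_Icc, Finset.prod_const, Finset.card_univ, Fintype.card_fin]
    push_cast
    rw [Int.toNat_of_nonneg (by omega)]
    congr 1
    ring
  rw [← h2]
  exact_mod_cast h1

theorem ph_abs (h1 : S_PHI) {p : ℕ} (hp : p.Prime) (h2 : p ≠ 2) (x : Fin 3 → ZMod p) :
    |ph p x| ≤ 1 := by
  have h := ph_spec h1 hp h2
  by_cases hx : x ⬝ᵥ x ≠ 0 ∨ x = 0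
  · rw [h.zero x hx]
    norm_num
  · rw [not_or, not_not] at hx
    rcases h.pm x hx.1 hx.2 with e | e <;> rw [e] <;> norm_num

theorem Ph_abs (h1 : S_PHI) {P : Finset ℕ} (hP : Pm P) (v : V3) : |Ph P v| ≤ 1 := by
  unfold Ph
  rw [Finset.abs_prod]
  exact Finset.prod_le_one (fun _ _ => abs_nonneg _)
    (fun p hp => ph_abs h1 (hP p hp).1 (hP p hp).2.1 _)

theorem f0_01 (x : ℤ) : 0 ≤ f0 x ∧ f0 x ≤ 1 := by
  unfold f0
  split_ifs <;> norm_num

theorem f1_01 (x : ℤ) : 0 ≤ f1 x ∧ f1 x ≤ 1 := by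
  unfold f1
  split_ifs <;> norm_num

theorem f2_01 (x : ℤ) : 0 ≤ f2 x ∧ f2 x ≤ 1 := by
  unfold f2
  split_ifs <;> norm_num

theorem f_01 (x y z : ℤ) : 0 ≤ f0 x * f1 y * f2 z ∧ f0 x * f1 y * f2 z ≤ 1 := by
  have a := f0_01 x
  have b := f1_01 y
  have c := f2_01 z
  refine ⟨mul_nonneg (mul_nonneg a.1 b.1) c.1, ?_⟩
  exact mul_le_one₀ (mul_le_one₀ a.2 b.1 b.2) c.1 c.2

theorem om_abs (r : ℕ) (v : V3) : |om r v| ≤ 6 := by
  unfold om
  split_ifs
  · unfold ep0
    split_ifs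
    · unfold ep
      split_ifs <;> norm_num
    · norm_num
  · unfold xi
    have a1 := f_01 (v 0) (v 1) (v 2)
    have a2 := f_01 (v 1) (v 2) (v 0)
    have a3 := f_01 (v 2) (v 0) (v 1)
    have a4 := f_01 (v 1) (v 0) (v 2)
    have a5 := f_01 (v 0) (v 2) (v 1)
    have a6 := f_01 (v 2) (v 1) (v 0)
    rw [abs_le]
    constructor <;> linarith [a1.1, a2.1, a3.1, a4.1, a5.1, a6.1, a1.2, a2.2, a3.2, a4.2, a5.2,
      a6.2]

theorem sq_odd {x : ℤ} (h : x % 2 = 1) : x * x % 8 = 1 := by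
  have h8 : x % 8 = 1 ∨ x % 8 = 3 ∨ x % 8 = 5 ∨ x % 8 = 7 := by omega
  rcases h8 with h | h | h | h <;> rw [Int.mul_emod, h] <;> norm_num

theorem sq_two {x : ℤ} (h : x % 4 = 2) : x * x % 8 = 4 := by
  have h8 : x % 8 = 2 ∨ x % 8 = 6 := by omega
  rcases h8 with h | h <;> rw [Int.mul_emod, h] <;> norm_num

theorem sq_four {x : ℤ} (h : x % 4 = 0) : x * x % 8 = 0 := by
  have h8 : x % 8 = 0 ∨ x % 8 = 4 := by omega
  rcases h8 with h | h <;> rw [Int.mul_emod, h] <;> norm_num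

theorem tri {a b c : ℤ} (h : f0 a * f1 b * f2 c ≠ 0) : (a * a + b * b + c * c) % 8 = 5 := by
  have h1 : a % 2 = 1 := by
    by_contra hc
    exact h (by unfold f0; rw [if_neg hc]; ring)
  have h2 : b % 4 = 2 := by
    by_contra hc
    exact h (by unfold f1; rw [if_neg hc]; ring)
  have h3 : c % 4 = 0 := by
    by_contra hc
    exact h (by unfold f2; rw [if_neg hc]; ring)
  have e1 := sq_odd h1
  have e2 := sq_two h2
  have e3 := sq_four h3
  omega

theorem om_norm {r : ℕ} (hr : r = 3 ∨ r = 5) {v : V3} (h : om r v ≠ 0) :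
    (v ⬝ᵥ v) % 8 = (r : ℤ) := by
  rw [dot3]
  unfold om at h
  rcases hr with rfl | rfl
  · rw [if_pos rfl] at h
    unfold ep0 at h
    have h0 : v 0 % 2 = 1 ∧ v 1 % 2 = 1 ∧ v 2 % 2 = 1 := by
      by_contra hc
      exact h (if_neg hc)
    have e1 := sq_odd h0.1
    have e2 := sq_odd h0.2.1
    have e3 := sq_odd h0.2.2
    push_cast
    omega
  · rw [if_neg (by norm_num)] at h
    by_contra hc
    apply h
    have key : ∀ a b c : ℤ, a * a + b * b + c * c = v 0 * v 0 + v 1 * v 1 + v 2 * v 2 →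
        f0 a * f1 b * f2 c = 0 := by
      intro a b c e
      by_contra hne
      apply hc
      rw [← e]
      exact tri hne
    unfold xi
    rw [key (v 0) (v 1) (v 2) rfl, key (v 1) (v 2) (v 0) (by ring), key (v 2) (v 0) (v 1) (by ring),
      key (v 1) (v 0) (v 2) (by ring), key (v 0) (v 2) (v 1) (by ring),
      key (v 2) (v 1) (v 0) (by ring)]
    ring

theorem psi_supp (h1 : S_PHI) {P : Finset ℕ} (hP : Pm P) {r : ℕ} (hr : r = 3 ∨ r = 5)
    {s β : ZMod 7} {v : V3} (h : psi r P s β v ≠ 0) :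
    (v ⬝ᵥ v) % 8 = (r : ℤ) ∧ (pr P : ℤ) ∣ v ⬝ᵥ v := by
  unfold psi at h
  have h0 : om r v * Ph P v ≠ 0 := by
    by_contra hc
    rw [hc] at h
    simp at h
  have ho : om r v ≠ 0 := left_ne_zero_of_mul h0
  have hp : Ph P v ≠ 0 := right_ne_zero_of_mul h0
  refine ⟨om_norm hr ho, ?_⟩
  rw [Int.natCast_dvd]
  unfold pr
  apply Finset.prod_primes_dvd
  · intro p hpP
    exact Nat.prime_iff.1 (hP p hpP).1
  · intro p hpP
    have hne : ph p (rd p v) ≠ 0 := by
      unfold Ph at hp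
      exact Finset.prod_ne_zero_iff.1 hp p hpP
    have hs := ph_spec h1 (hP p hpP).1 (hP p hpP).2.1
    have hz : rd p v ⬝ᵥ rd p v = 0 := by
      by_contra hc
      exact hne (hs.zero _ (Or.inl hc))
    have he : rd p v ⬝ᵥ rd p v = (((v ⬝ᵥ v : ℤ)) : ZMod p) := by
      simp [dotProduct, rd]
    rw [he, ZMod.intCast_zmod_eq_zero_iff_dvd] at hz
    rwa [← Int.natCast_dvd]

theorem psi_abs (h1 : S_PHI) {P : Finset ℕ} (hP : Pm P) (r : ℕ) (s β : ZMod 7) (v : V3) :
    |psi r P s β v| ≤ 6 := by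
  unfold psi
  split_ifs
  · rw [abs_mul]
    calc |om r v| * |Ph P v| ≤ 6 * 1 :=
          mul_le_mul (om_abs r v) (Ph_abs h1 hP v) (abs_nonneg _) (by norm_num)
      _ = 6 := by norm_num
  · norm_num

/-! ### summability -/

theorem summ1 {c : ℝ} (hc : 0 < c) : Summable fun n : ℤ => Real.exp (-c * ((n : ℝ) * n)) := by
  have key : Summable fun n : ℕ => Real.exp (-c * ((n : ℝ) * n)) := by
    have hg : Summable fun n : ℕ => Real.exp (-c) ^ n :=
      summable_geometric_of_lt_one (Real.exp_pos _).le (by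
        rw [Real.exp_lt_one_iff]
        linarith)
    refine Summable.of_nonneg_of_le (fun n => (Real.exp_pos _).le) (fun n => ?_) hg
    rw [← Real.exp_nat_mul]
    apply Real.exp_le_exp.2
    have h2 : (n : ℝ) ≤ (n : ℝ) * n := by
      rcases Nat.eq_zero_or_pos n with h | h
      · simp [h]
      · have : (1 : ℝ) ≤ n := by exact_mod_cast h
        nlinarith
    nlinarith
  refine Summable.of_nat_of_neg ?_ ?_
  · simpa using key
  · simpa using key

/-- triples -/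
def e3 : V3 ≃ ℤ × (ℤ × ℤ) where
  toFun v := (v 0, (v 1, v 2))
  invFun q := ![q.1, q.2.1, q.2.2]
  left_inv v := by
    ext i
    fin_cases i <;> rfl
  right_inv q := rfl

theorem summ3 {c : ℝ} (hc : 0 < c) :
    Summable fun v : V3 => Real.exp (-c * ((v ⬝ᵥ v : ℤ) : ℝ)) := by
  have h1 := summ1 hc
  have h2 : Summable fun x : ℤ × ℤ => Real.exp (-c * ((x.1 : ℝ) * x.1)) *
      Real.exp (-c * ((x.2 : ℝ) * x.2)) :=
    h1.mul_of_nonneg h1 (fun _ => (Real.exp_pos _).le) (fun _ => (Real.exp_pos _).le)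
  have h3 : Summable fun x : ℤ × (ℤ × ℤ) => Real.exp (-c * ((x.1 : ℝ) * x.1)) *
      (Real.exp (-c * ((x.2.1 : ℝ) * x.2.1)) * Real.exp (-c * ((x.2.2 : ℝ) * x.2.2))) :=
    h1.mul_of_nonneg h2 (fun _ => (Real.exp_pos _).le)
      (fun _ => mul_nonneg (Real.exp_pos _).le (Real.exp_pos _).le)
  have h4 := (Equiv.summable_iff e3).2 h3
  refine h4.congr ?_
  intro v
  show Real.exp (-c * ((v 0 : ℝ) * v 0)) *
      (Real.exp (-c * ((v 1 : ℝ) * v 1)) * Real.exp (-c * ((v 2 : ℝ) * v 2))) = _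
  rw [← Real.exp_add, ← Real.exp_add, dot3]
  congr 1
  push_cast
  ring

theorem norm_ex {N : ℕ} (z : ℂ) (k : ℤ) :
    ‖Complex.exp (Real.pi * Complex.I * (k : ℂ) * z / N)‖ =
      Real.exp (-(Real.pi * z.im / N) * k) := by
  rw [Complex.norm_exp]
  congr 1
  have : (Real.pi * Complex.I * (k : ℂ) * z / N : ℂ) =
      ((Real.pi * k / N : ℝ) : ℂ) * (Complex.I * z) := by
    push_cast
    ring
  rw [this, Complex.re_ofReal_mul]
  simp
  ring

theorem summC {N : ℕ} (hN : 0 < N) {z : ℂ} (hz : 0 < z.im) (g : V3 → ℤ) {C : ℤ}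
    (hg : ∀ v, |g v| ≤ C) :
    Summable fun v : V3 => (g v : ℂ) *
      Complex.exp (Real.pi * Complex.I * ((v ⬝ᵥ v : ℤ) : ℂ) * z / N) := by
  have hN' : (0 : ℝ) < N := by exact_mod_cast hN
  have hc : 0 < Real.pi * z.im / N := div_pos (mul_pos Real.pi_pos hz) hN'
  have h1 := (summ3 hc).mul_left (C : ℝ)
  refine Summable.of_norm_bounded h1 (fun v => ?_)
  rw [norm_mul, norm_ex]
  apply mul_le_mul_of_nonneg_right _ (Real.exp_pos _).le
  rw [Complex.norm_intCast]
  exact_mod_cast hg v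

/-! ### the series -/

/-- the theta series -/
def Th (r : ℕ) (P : Finset ℕ) (s β : ZMod 7) (z : ℂ) : ℂ :=
  ∑' v : V3, (psi r P s β v : ℂ) *
    Complex.exp (Real.pi * Complex.I * ((v ⬝ᵥ v : ℤ) : ℂ) * z / ((28 * pr P : ℕ) : ℂ))

theorem pr_pos {P : Finset ℕ} (hP : Pm P) : 0 < pr P :=
  Finset.prod_pos fun p hp => (hP p hp).1.pos

theorem F_eq (h1 : S_PHI) {P : Finset ℕ} (hP : Pm P) {r : ℕ} (hr : r = 3 ∨ r = 5)
    (s β : ZMod 7) {z : ℂ} (hz : 0 < z.im) : F (cY r P s) β z = Th r P s β z := by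
  have hm := pr_pos hP
  have hN : 0 < 28 * pr P := by positivity
  have hmz : (0 : ℤ) < pr P := by exact_mod_cast hm
  set f : V3 → ℂ := fun v => (psi r P s β v : ℂ) *
    Complex.exp (Real.pi * Complex.I * ((v ⬝ᵥ v : ℤ) : ℂ) * z / ((28 * pr P : ℕ) : ℂ)) with hf
  have hs : Summable f := summC hN hz (psi r P s β) (psi_abs h1 hP r s β)
  have hfib := hs.hasSum.tsum_fiberwise (fun v : V3 => ((v ⬝ᵥ v) / (pr P : ℤ)).toNat)
  have hT : Th r P s β z = ∑' v, f v := rfl
  rw [hT, ← hfib.tsum_eq]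
  unfold F
  congr 1
  ext n
  have e1 : ∑' b : ((fun v : V3 => ((v ⬝ᵥ v) / (pr P : ℤ)).toNat) ⁻¹' {n} : Set V3), f b =
      ∑ v ∈ vec ((pr P * n : ℕ) : ℤ), f v := by
    rw [tsum_subtype (((fun v : V3 => ((v ⬝ᵥ v) / (pr P : ℤ)).toNat) ⁻¹' {n} : Set V3)) f]
    rw [tsum_eq_sum (s := vec ((pr P * n : ℕ) : ℤ))]
    · apply Finset.sum_congr rfl
      intro v hv
      rw [mem_vec] at hv
      rw [Set.indicator_of_mem]
      show ((v ⬝ᵥ v) / (pr P : ℤ)).toNat = n
      rw [hv]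
      push_cast
      rw [Int.mul_ediv_cancel_left _ hmz.ne']
      simp
    · intro v hv
      by_cases hv2 : v ∈ ((fun v : V3 => ((v ⬝ᵥ v) / (pr P : ℤ)).toNat) ⁻¹' {n} : Set V3)
      · rw [Set.indicator_of_mem hv2]
        by_cases hp : psi r P s β v = 0
        · rw [hf]
          simp [hp]
        · exfalso
          obtain ⟨_, k, hk⟩ := psi_supp h1 hP hr hp
          apply hv
          rw [mem_vec]
          have hv3 : ((v ⬝ᵥ v) / (pr P : ℤ)).toNat = n := hv2
          rw [hk, Int.mul_ediv_cancel_left _ hmz.ne'] at hv3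
          have hk0 : 0 ≤ k := by
            have h0 : 0 ≤ v ⬝ᵥ v := by
              rw [dot3]
              have a0 := mul_self_nonneg (v 0)
              have a1 := mul_self_nonneg (v 1)
              have a2 := mul_self_nonneg (v 2)
              linarith
            rw [hk] at h0
            by_contra hneg
            push Not at hneg
            have := mul_neg_of_pos_of_neg hmz hneg
            linarith
          rw [hk]
          push_cast
          rw [← hv3, Int.toNat_of_nonneg hk0]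
      · rw [Set.indicator_of_notMem hv2]
  rw [e1]
  have e2 : ∀ v ∈ vec ((pr P * n : ℕ) : ℤ), f v =
      (psi r P s β v : ℂ) * Complex.exp (2 * Real.pi * Complex.I * n * z / 56) := by
    intro v hv
    rw [mem_vec] at hv
    rw [hf]
    simp only
    rw [hv]
    congr 2
    have hm' : (pr P : ℂ) ≠ 0 := by exact_mod_cast hm.ne'
    push_cast
    field_simp
    ring
  rw [Finset.sum_congr rfl e2, ← Finset.sum_mul]
  congr 1
  unfold cY
  split_ifs with h8
  · unfold Y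
    rw [Finset.sum_filter]
    push_cast
    apply Finset.sum_congr rfl
    intro v _
    unfold psi
    split_ifs <;> push_cast <;> ring
  · push_cast
    symm
    apply Finset.sum_eq_zero
    intro v hv
    rw [mem_vec] at hv
    have : psi r P s β v = 0 := by
      by_contra hne
      have := (psi_supp h1 hP hr hne).1
      rw [hv] at this
      apply h8
      exact_mod_cast this
    rw [this]
    simp

/-! ### the bound -/

theorem bound (h1 : S_PHI) {P : Finset ℕ} (hP : Pm P) (r : ℕ) (s : ZMod 7) :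
    ∃ C k : ℕ, ∀ n β, |cY r P s n β| ≤ (C : ℤ) * ((n : ℤ) + 1) ^ k := by
  refine ⟨6 * (2 * pr P + 1) ^ 3, 3, ?_⟩
  intro n β
  have hm := pr_pos hP
  have hmz : (0 : ℤ) < pr P := by exact_mod_cast hm
  have hn0 : (0 : ℤ) ≤ n := by positivity
  unfold cY
  split_ifs
  · have e1 : |Y r P ((pr P * n : ℕ) : ℤ) (s * β)| ≤
        6 * ((vec ((pr P * n : ℕ) : ℤ)).card : ℤ) := by
      unfold Y
      calc |∑ v ∈ (vec ((pr P * n : ℕ) : ℤ)).filter fun v => Ln n0 (s * β) v, om r v * Ph P v|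
          ≤ ∑ v ∈ (vec ((pr P * n : ℕ) : ℤ)).filter fun v => Ln n0 (s * β) v,
              |om r v * Ph P v| := Finset.abs_sum_le_sum_abs _ _
        _ ≤ ∑ v ∈ (vec ((pr P * n : ℕ) : ℤ)).filter fun v => Ln n0 (s * β) v, 6 := by
            apply Finset.sum_le_sum
            intro v _
            rw [abs_mul]
            calc |om r v| * |Ph P v| ≤ 6 * 1 :=
                  mul_le_mul (om_abs r v) (Ph_abs h1 hP v) (abs_nonneg _) (by norm_num)
              _ = 6 := by norm_num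
        _ = 6 * (((vec ((pr P * n : ℕ) : ℤ)).filter fun v => Ln n0 (s * β) v).card : ℤ) := by
            rw [Finset.sum_const, nsmul_eq_mul]
            ring
        _ ≤ 6 * ((vec ((pr P * n : ℕ) : ℤ)).card : ℤ) := by
            apply mul_le_mul_of_nonneg_left _ (by norm_num)
            exact_mod_cast Finset.card_le_card (Finset.filter_subset _ _)
    have e2 := card_vec ((pr P * n : ℕ) : ℤ) (by positivity)
    have e3 : (2 * ((pr P * n : ℕ) : ℤ) + 1) ^ 3 ≤ ((2 * (pr P : ℤ) + 1) * ((n : ℤ) + 1)) ^ 3 := by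
      apply pow_le_pow_left₀ (by positivity)
      push_cast
      nlinarith
    calc |Y r P ((pr P * n : ℕ) : ℤ) (s * β)| ≤ 6 * ((vec ((pr P * n : ℕ) : ℤ)).card : ℤ) := e1
      _ ≤ 6 * ((2 * (pr P : ℤ) + 1) * ((n : ℤ) + 1)) ^ 3 := by linarith
      _ = _ := by
        push_cast
        ring
  · simp only [abs_zero]
    positivity

/-! ### the transformation -/

/-- residues -/
def ez {N : ℕ} [NeZero N] : (Fin 3 → Fin N) ≃ (Fin 3 → ZMod N) :=
  Equiv.piCongrRight fun _ =>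
    { toFun := fun k => ((k : ℕ) : ZMod N)
      invFun := fun a => ⟨a.val, ZMod.val_lt a⟩
      left_inv := fun k => by
        apply Fin.ext
        show (((k : ℕ) : ZMod N)).val = k
        rw [ZMod.val_natCast, Nat.mod_eq_of_lt k.2]
      right_inv := fun a => by
        show ((a.val : ℕ) : ZMod N) = a
        rw [ZMod.natCast_val, ZMod.cast_id', id] }

theorem ez_val {N : ℕ} [NeZero N] (v : Fin 3 → Fin N) (i : Fin 3) :
    (ez v i).val = (v i : ℕ) := by
  show ((((v i : ℕ) : ZMod N))).val = (v i : ℕ)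
  rw [ZMod.val_natCast, Nat.mod_eq_of_lt (v i).2]

theorem exp_per {N : ℕ} (hN : 0 < N) (a b : ℤ) (h : (N : ℤ) ∣ a - b) :
    Complex.exp (2 * Real.pi * Complex.I * (a : ℂ) / N) =
      Complex.exp (2 * Real.pi * Complex.I * (b : ℂ) / N) := by
  obtain ⟨k, hk⟩ := h
  rw [Complex.exp_eq_exp_iff_exists_int]
  refine ⟨k, ?_⟩
  have hN' : (N : ℂ) ≠ 0 := by exact_mod_cast hN.ne'
  have ha : (a : ℂ) = b + N * k := by
    have : a = b + N * k := by linarith
    rw [this]
    push_cast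
    ring
  rw [ha]
  field_simp

theorem cpow_div {N : ℕ} (hN : 0 < N) {w : ℂ} (hw : w ≠ 0) (t : ℂ) :
    (w / N) ^ t = (1 / (N : ℂ)) ^ t * w ^ t := by
  have hN' : (0 : ℝ) < 1 / N := by
    have : (0 : ℝ) < N := by exact_mod_cast hN
    positivity
  have hne : ((1 / (N : ℝ) : ℝ) : ℂ) ≠ 0 := by
    exact_mod_cast hN'.ne'
  have e1 : w / (N : ℂ) = ((1 / (N : ℝ) : ℝ) : ℂ) * w := by
    push_cast
    ring
  have e2 : (1 / (N : ℂ)) = ((1 / (N : ℝ) : ℝ) : ℂ) := by
    push_cast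
    ring
  rw [e1, e2, Complex.cpow_def_of_ne_zero (mul_ne_zero hne hw), Complex.cpow_def_of_ne_zero hne,
    Complex.cpow_def_of_ne_zero hw, Complex.log_ofReal_mul hN' hw, ← Complex.exp_add,
    Complex.ofReal_log hN'.le]
  congr 1
  ring

theorem im_inv {z : ℂ} (hz : 0 < z.im) : 0 < (-1 / z).im := by
  have h0 : 0 < Complex.normSq z := by
    rw [Complex.normSq_pos]
    intro h
    rw [h] at hz
    simp at hz
  have : (-1 / z).im = z.im / Complex.normSq z := by
    rw [Complex.div_im]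
    simp [neg_div]
  rw [this]
  exact div_pos hz h0

theorem psi_val (h3 : S_PER) {r : ℕ} {P : Finset ℕ} (hr : r = 3 ∨ r = 5) (hP : Pm P)
    (s β : ZMod 7) (v : V3) [NeZero (28 * pr P)] :
    psi r P s β (fun i => (((v i : ZMod (28 * pr P)).val : ℕ) : ℤ)) = psi r P s β v := by
  apply h3 r P s β _ _ hr hP
  intro i
  rw [← ZMod.intCast_zmod_eq_zero_iff_dvd]
  push_cast
  rw [ZMod.natCast_val, ZMod.cast_id', id, sub_self]

theorem trans_aux (h2 : S_TH3) (h3 : S_PER) {r : ℕ} {P : Finset ℕ} {s : ZMod 7}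
    (hr : r = 3 ∨ r = 5) (hP : Pm P) {κ : ℂ} (hκ : ∀ (β : ZMod 7) (w : V3),
      ∑ v : Fin 3 → Fin (28 * pr P), (psi r P s β (fun i => ((v i : ℕ) : ℤ)) : ℂ) *
      Complex.exp (2 * Real.pi * Complex.I * ((∑ i, ((v i : ℕ) : ℤ) * w i : ℤ) : ℂ) /
        ((28 * pr P : ℕ) : ℂ)) =
    κ * ∑ β' : ZMod 7, z7 (-(2 * β * β')) * (psi r P s β' w : ℂ)) (β : ZMod 7) {z : ℂ}
    (hz : 0 < z.im) :
    Th r P s β (-1 / z) = (-Complex.I * z / ((28 * pr P : ℕ) : ℂ)) ^ ((3 : ℂ) / 2) *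
      ∑' v : V3, (κ * ∑ β' : ZMod 7, z7 (-(2 * β * β')) * (psi r P s β' v : ℂ)) *
        Complex.exp (Real.pi * Complex.I * ((v ⬝ᵥ v : ℤ) : ℂ) * z / ((28 * pr P : ℕ) : ℂ)) := by
  have hm := pr_pos hP
  have hN : 0 < 28 * pr P := by positivity
  have : NeZero (28 * pr P) := ⟨hN.ne'⟩
  have e := h2 (28 * pr P) (fun a => (psi r P s β (fun i => (((a i).val : ℕ) : ℤ)) : ℂ)) z hz
  have e1 : Th r P s β (-1 / z) = ∑' v : Fin 3 → ℤ,
      (fun a : Fin 3 → ZMod (28 * pr P) => (psi r P s β (fun i => (((a i).val : ℕ) : ℤ)) : ℂ))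
        (fun i => (v i : ZMod (28 * pr P))) *
      Complex.exp (Real.pi * Complex.I * ((v ⬝ᵥ v : ℤ) : ℂ) * (-1 / z) /
        ((28 * pr P : ℕ) : ℂ)) := by
    unfold Th
    congr 1
    ext v
    simp only
    rw [psi_val h3 hr hP s β v]
  rw [e1, e]
  congr 1
  congr 1
  ext v
  congr 1
  rw [← hκ β v]
  rw [← Equiv.sum_comp ez]
  apply Finset.sum_congr rfl
  intro a _
  simp only [ez_val]
  congr 1
  have e2 : (((ez a ⬝ᵥ fun i => (v i : ZMod (28 * pr P))).val : ℕ) : ℂ) =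
      (((((ez a ⬝ᵥ fun i => (v i : ZMod (28 * pr P))).val : ℕ) : ℤ)) : ℂ) := by push_cast; rfl
  rw [e2]
  apply exp_per hN
  rw [← ZMod.intCast_zmod_eq_zero_iff_dvd]
  push_cast
  rw [ZMod.natCast_val, ZMod.cast_id', id]
  rw [sub_eq_zero]
  unfold dotProduct
  apply Finset.sum_congr rfl
  intro i _
  rfl

end

end Tr

/-- the theta series are vector valued modular forms -/
theorem t_TRANS (h1 : S_PHI) (h2 : S_TH3) (h3 : S_PER) (h4 : S_FTB) : S_TRANS := by
  intro r P s hr hP hK hs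
  refine ⟨Tr.bound h1 hP r s, ?_⟩
  obtain ⟨κ, hκ⟩ := h4 r P s hr hP hK hs
  have hm := Tr.pr_pos hP
  have hN : 0 < 28 * pr P := by positivity
  refine ⟨(1 / ((28 * pr P : ℕ) : ℂ)) ^ ((3 : ℂ) / 2) * κ, ?_⟩
  intro β z hz
  have hz0 : z ≠ 0 := by
    intro h
    rw [h] at hz
    simp at hz
  rw [Tr.F_eq h1 hP hr s β (Tr.im_inv hz), Tr.trans_aux h2 h3 hr hP hκ β hz]
  rw [Tr.cpow_div hN (mul_ne_zero (neg_ne_zero.2 Complex.I_ne_zero) hz0)]
  have hsm : ∀ β' : ZMod 7, Summable fun v : V3 => (psi r P s β' v : ℂ) *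
      Complex.exp (Real.pi * Complex.I * ((v ⬝ᵥ v : ℤ) : ℂ) * z / ((28 * pr P : ℕ) : ℂ)) :=
    fun β' => Tr.summC hN hz (psi r P s β') (Tr.psi_abs h1 hP r s β')
  have e1 : ∑' v : V3, (κ * ∑ β' : ZMod 7, z7 (-(2 * β * β')) * (psi r P s β' v : ℂ)) *
        Complex.exp (Real.pi * Complex.I * ((v ⬝ᵥ v : ℤ) : ℂ) * z / ((28 * pr P : ℕ) : ℂ)) =
      κ * ∑ β' : ZMod 7, z7 (-(2 * β * β')) * F (cY r P s) β' z := by
    have e2 : ∀ v : V3, (κ * ∑ β' : ZMod 7, z7 (-(2 * β * β')) * (psi r P s β' v : ℂ)) *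
        Complex.exp (Real.pi * Complex.I * ((v ⬝ᵥ v : ℤ) : ℂ) * z / ((28 * pr P : ℕ) : ℂ)) =
        ∑ β' : ZMod 7, κ * z7 (-(2 * β * β')) * ((psi r P s β' v : ℂ) *
        Complex.exp (Real.pi * Complex.I * ((v ⬝ᵥ v : ℤ) : ℂ) * z /
          ((28 * pr P : ℕ) : ℂ))) := by
      intro v
      rw [Finset.mul_sum, Finset.sum_mul]
      apply Finset.sum_congr rfl
      intro β' _
      ring
    simp_rw [e2]
    rw [Summable.tsum_finsetSum (fun β' _ => (hsm β').mul_left _)]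
    rw [Finset.mul_sum]
    apply Finset.sum_congr rfl
    intro β' _
    rw [tsum_mul_left, Tr.F_eq h1 hP hr s β' hz]
    unfold Tr.Th
    ring
  rw [e1]
  ring

end Pool.Agent.NH1
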