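import Pool.Agent.NH79.QP

/-!
# Uniqueness of vector valued forms of weight `3/2`, the even case
-/

set_option autoImplicit false

namespace Pool.Agent.NH1

namespace UEaux

open Finset
open Pool.Agent.NH79.QS

noncomputable section

/-! ### supports -/

/-- the support is in the class `r` modulo `56` and starts at `k` -/
def Sup (r k : ℕ) (f : PowerSeries ℂ) : Prop := ∀ n, PowerSeries.coeff n f ≠ 0 → n % 56 = r ∧ k ≤ n

theorem Sup.mono {r k k' : ℕ} {f : PowerSeries ℂ} (h : Sup r k f) (hk : k' ≤ k) : Sup r k' f :=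
  fun n hn => ⟨(h n hn).1, hk.trans (h n hn).2⟩

theorem Sup.add {r k : ℕ} {f g : PowerSeries ℂ} (h : Sup r k f) (h' : Sup r k g) : Sup r k (f + g) := by
  intro n hn
  rw [map_add] at hn
  by_cases h0 : PowerSeries.coeff n f = 0
  · rw [h0, zero_add] at hn
    exact h' n hn
  · exact h n h0

theorem Sup.smul {r k : ℕ} {f : PowerSeries ℂ} (h : Sup r k f) (a : ℂ) : Sup r k (a • f) := by
  intro n hn
  rw [map_smul] at hn
  exact h n fun h0 => hn (by rw [h0, smul_zero])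

theorem Sup.sub {r k : ℕ} {f g : PowerSeries ℂ} (h : Sup r k f) (h' : Sup r k g) : Sup r k (f - g) := by
  have := h.add (h'.smul (-1))
  rwa [neg_one_smul, ← sub_eq_add_neg] at this

theorem Sup.mul {r k s l : ℕ} {f g : PowerSeries ℂ} (h : Sup r k f) (h' : Sup s l g) :
    Sup ((r + s) % 56) (k + l) (f * g) := by
  intro n hn
  rw [PowerSeries.coeff_mul] at hn
  obtain ⟨p, hp, hne⟩ := Finset.exists_ne_zero_of_sum_ne_zero hn
  rw [Finset.HasAntidiagonal.mem_antidiagonal] at hp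
  have h1 := h p.1 fun h0 => hne (by rw [h0, zero_mul])
  have h2 := h' p.2 fun h0 => hne (by rw [h0, mul_zero])
  omega

theorem Sup.disj {r k s l : ℕ} {f : PowerSeries ℂ} (h : Sup r k f) (h' : Sup s l f) (hrs : r ≠ s) : f = 0 := by
  ext n
  rw [map_zero]
  by_contra hne
  exact hrs ((h n hne).1.symm.trans (h' n hne).1)

/-- two series with disjoint supports -/
theorem Sup.split {r k s l : ℕ} {f g : PowerSeries ℂ} (h : Sup r k f) (h' : Sup s l g) (hrs : r ≠ s)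
    (h0 : f + g = 0) : f = 0 ∧ g = 0 := by
  have e1 : f = (-1 : ℂ) • g := by
    rw [neg_one_smul]
    exact eq_neg_of_add_eq_zero_left h0
  have e2 : Sup s l f := by
    rw [e1]
    exact h'.smul _
  have e3 := h.disj e2 hrs
  refine ⟨e3, ?_⟩
  rw [e3, zero_add] at h0
  exact h0

/-- raising the order if the first coefficient vanishes -/
theorem Sup.next {r k : ℕ} {f : PowerSeries ℂ} (h : Sup r k f) (hk : k % 56 = r)
    (h0 : PowerSeries.coeff k f = 0) : Sup r (k + 56) f := by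
  intro n hn
  have h1 := h n hn
  have h2 : n ≠ k := fun h2 => hn (by rw [h2, h0])
  omega

/-! ### the functions modulo four -/

def wo : ZMod 4 → ℂ := fun x => if x = 1 ∨ x = 3 then 1 else 0
def w0 : ZMod 4 → ℂ := fun x => if x = 0 then 1 else 0
def w2 : ZMod 4 → ℂ := fun x => if x = 2 then 1 else 0

theorem E4_0 : E4 0 = 1 := AddChar.map_zero_eq_one _

theorem E4_1 : E4 1 = Complex.I := by
  have := ZMod.stdAddChar_coe (N := 4) 1
  rw [Int.cast_one] at this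
  rw [this]
  have e : (2 * Real.pi * Complex.I * ((1 : ℤ) : ℂ) / ((4 : ℕ) : ℂ) : ℂ) = Real.pi / 2 * Complex.I := by
    push_cast
    ring
  rw [e, Complex.exp_pi_div_two_mul_I]

theorem E4_2 : E4 2 = -1 := by
  have : (2 : ZMod 4) = 1 + 1 := by decide
  rw [this, AddChar.map_add_eq_mul, E4_1, Complex.I_mul_I]

theorem E4_3 : E4 3 = -Complex.I := by
  have : (3 : ZMod 4) = 2 + 1 := by decide
  rw [this, AddChar.map_add_eq_mul, E4_1, E4_2, neg_one_mul]

theorem ft4_expand (w : ZMod 4 → ℂ) (y : ZMod 4) : ft4 w y =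
    w 0 * E4 (-(0 * y)) + w 1 * E4 (-(1 * y)) + w 2 * E4 (-(2 * y)) + w 3 * E4 (-(3 * y)) := by
  unfold ft4
  exact Fin.sum_univ_four (fun x : ZMod 4 => w x * E4 (-(x * y)))

theorem zmod4_cases (y : ZMod 4) : y = 0 ∨ y = 1 ∨ y = 2 ∨ y = 3 := by
  revert y
  decide

theorem ft4_val (w : ZMod 4 → ℂ) : ft4 w 0 = w 0 + w 1 + w 2 + w 3 ∧
    ft4 w 1 = w 0 - Complex.I * w 1 - w 2 + Complex.I * w 3 ∧
    ft4 w 2 = w 0 - w 1 + w 2 - w 3 ∧ ft4 w 3 = w 0 + Complex.I * w 1 - w 2 - Complex.I * w 3 := by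
  refine ⟨?_, ?_, ?_, ?_⟩
  · rw [ft4_expand, show (-(0 * 0) : ZMod 4) = 0 by decide, show (-(1 * 0) : ZMod 4) = 0 by decide,
      show (-(2 * 0) : ZMod 4) = 0 by decide, show (-(3 * 0) : ZMod 4) = 0 by decide, E4_0]
    ring
  · rw [ft4_expand, show (-(0 * 1) : ZMod 4) = 0 by decide, show (-(1 * 1) : ZMod 4) = 3 by decide,
      show (-(2 * 1) : ZMod 4) = 2 by decide, show (-(3 * 1) : ZMod 4) = 1 by decide, E4_0, E4_1, E4_2, E4_3]
    ring
  · rw [ft4_expand, show (-(0 * 2) : ZMod 4) = 0 by decide, show (-(1 * 2) : ZMod 4) = 2 by decide,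
      show (-(2 * 2) : ZMod 4) = 0 by decide, show (-(3 * 2) : ZMod 4) = 2 by decide, E4_0, E4_2]
    ring
  · rw [ft4_expand, show (-(0 * 3) : ZMod 4) = 0 by decide, show (-(1 * 3) : ZMod 4) = 1 by decide,
      show (-(2 * 3) : ZMod 4) = 2 by decide, show (-(3 * 3) : ZMod 4) = 3 by decide, E4_0, E4_1, E4_2, E4_3]
    ring

theorem wo_val : wo 0 = 0 ∧ wo 1 = 1 ∧ wo 2 = 0 ∧ wo 3 = 1 := by
  refine ⟨if_neg (by decide), if_pos (by decide), if_neg (by decide), if_pos (by decide)⟩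

theorem w0_val : w0 0 = 1 ∧ w0 1 = 0 ∧ w0 2 = 0 ∧ w0 3 = 0 := by
  refine ⟨if_pos (by decide), if_neg (by decide), if_neg (by decide), if_neg (by decide)⟩

theorem w2_val : w2 0 = 0 ∧ w2 1 = 0 ∧ w2 2 = 1 ∧ w2 3 = 0 := by
  refine ⟨if_neg (by decide), if_neg (by decide), if_pos (by decide), if_neg (by decide)⟩

/-- the functions `o`, `e`, `m` -/
def we : ZMod 4 → ℂ := w0 + w2
def wm : ZMod 4 → ℂ := w0 + (-1 : ℂ) • w2

theorem ft_o : ft4 wo = (2 : ℂ) • wm := by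
  obtain ⟨a0, a1, a2, a3⟩ := wo_val
  obtain ⟨b0, b1, b2, b3⟩ := w0_val
  obtain ⟨c0, c1, c2, c3⟩ := w2_val
  obtain ⟨d0, d1, d2, d3⟩ := ft4_val wo
  funext y
  rcases zmod4_cases y with rfl | rfl | rfl | rfl
  · simp only [d0, wm, Pi.smul_apply, Pi.add_apply, smul_eq_mul, a0, a1, a2, a3, b0, c0]; ring
  · simp only [d1, wm, Pi.smul_apply, Pi.add_apply, smul_eq_mul, a0, a1, a2, a3, b1, c1]; ring
  · simp only [d2, wm, Pi.smul_apply, Pi.add_apply, smul_eq_mul, a0, a1, a2, a3, b2, c2]; ring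
  · simp only [d3, wm, Pi.smul_apply, Pi.add_apply, smul_eq_mul, a0, a1, a2, a3, b3, c3]; ring

theorem ft_e : ft4 we = (2 : ℂ) • we := by
  obtain ⟨b0, b1, b2, b3⟩ := w0_val
  obtain ⟨c0, c1, c2, c3⟩ := w2_val
  obtain ⟨d0, d1, d2, d3⟩ := ft4_val we
  funext y
  rcases zmod4_cases y with rfl | rfl | rfl | rfl
  · rw [d0]; simp only [we, Pi.smul_apply, Pi.add_apply, smul_eq_mul, b0, b1, b2, b3, c0, c1, c2, c3]; ring
  · rw [d1]; simp only [we, Pi.smul_apply, Pi.add_apply, smul_eq_mul, b0, b1, b2, b3, c0, c1, c2, c3]; ring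
  · rw [d2]; simp only [we, Pi.smul_apply, Pi.add_apply, smul_eq_mul, b0, b1, b2, b3, c0, c1, c2, c3]; ring
  · rw [d3]; simp only [we, Pi.smul_apply, Pi.add_apply, smul_eq_mul, b0, b1, b2, b3, c0, c1, c2, c3]; ring

theorem ft_m : ft4 wm = (2 : ℂ) • wo := by
  obtain ⟨a0, a1, a2, a3⟩ := wo_val
  obtain ⟨b0, b1, b2, b3⟩ := w0_val
  obtain ⟨c0, c1, c2, c3⟩ := w2_val
  obtain ⟨d0, d1, d2, d3⟩ := ft4_val wm
  funext y
  rcases zmod4_cases y with rfl | rfl | rfl | rfl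
  · rw [d0]; simp only [wm, Pi.smul_apply, Pi.add_apply, smul_eq_mul, a0, b0, b1, b2, b3, c0, c1, c2, c3]; ring
  · rw [d1]; simp only [wm, Pi.smul_apply, Pi.add_apply, smul_eq_mul, a1, b0, b1, b2, b3, c0, c1, c2, c3]; ring
  · rw [d2]; simp only [wm, Pi.smul_apply, Pi.add_apply, smul_eq_mul, a2, b0, b1, b2, b3, c0, c1, c2, c3]; ring
  · rw [d3]; simp only [wm, Pi.smul_apply, Pi.add_apply, smul_eq_mul, a3, b0, b1, b2, b3, c0, c1, c2, c3]; ring

theorem P_e (c : ℕ → ZMod 7 → ℤ) (j : ℕ) : P c we j = P c w0 j + P c w2 j := P_add_w c w0 w2 j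

theorem P_m (c : ℕ → ZMod 7 → ℤ) (j : ℕ) : P c wm j = P c w0 j - P c w2 j := by
  unfold wm
  rw [P_add_w, P_smul_w, neg_one_smul, sub_eq_add_neg]

/-! ### supports of the pairings -/

/-- the support condition -/
def SE (c : ℕ → ZMod 7 → ℤ) : Prop := ∀ n β, c n β ≠ 0 → n % 8 = 5 ∧ (n : ZMod 7) = -β ^ 2

theorem mod7_of {c : ℕ → ZMod 7 → ℤ} (hs : SE c) {n M : ℕ} {b : ℤ} (h1 : (n : ℤ) + b ^ 2 = M)
    (h2 : c n (b : ZMod 7) ≠ 0) : n % 8 = 5 ∧ M % 7 = 0 := by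
  obtain ⟨h3, h4⟩ := hs _ _ h2
  refine ⟨h3, ?_⟩
  have h5 : ((M : ℕ) : ZMod 7) = 0 := by
    have : ((M : ℤ) : ZMod 7) = 0 := by
      rw [← h1]
      push_cast
      rw [h4]
      ring
    exact_mod_cast this
  exact Nat.dvd_iff_mod_eq_zero.1 ((ZMod.natCast_eq_zero_iff M 7).1 h5)

theorem zmod4_val (b : ℤ) (k : ℤ) (h : (b : ZMod 4) = (k : ZMod 4)) : b % 4 = k % 4 := by
  rw [ZMod.intCast_eq_intCast_iff] at h
  exact h

theorem sup_o {c : ℕ → ZMod 7 → ℤ} (hs : SE c) (j : ℕ) : Sup 14 14 (P c wo j) := by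
  intro M hM
  obtain ⟨n, b, h1, h2, h3⟩ := P_supp hM
  obtain ⟨h4, h5⟩ := mod7_of hs h1 h2
  have h6 : b % 4 = 1 ∨ b % 4 = 3 := by
    unfold wo at h3
    by_contra hcon
    apply h3
    rw [if_neg]
    rintro (h | h)
    · exact hcon (Or.inl (zmod4_val b 1 (by exact_mod_cast h)))
    · exact hcon (Or.inr (zmod4_val b 3 (by exact_mod_cast h)))
  have h7 : b ^ 2 % 8 = 1 := by
    have : b % 8 = 1 ∨ b % 8 = 3 ∨ b % 8 = 5 ∨ b % 8 = 7 := by omega
    rcases this with h | h | h | h <;> simp [pow_two, Int.mul_emod, h]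
  omega

theorem sup_0 {c : ℕ → ZMod 7 → ℤ} (hs : SE c) (j : ℕ) : Sup 21 21 (P c w0 j) := by
  intro M hM
  obtain ⟨n, b, h1, h2, h3⟩ := P_supp hM
  obtain ⟨h4, h5⟩ := mod7_of hs h1 h2
  have h6 : b % 4 = 0 := by
    unfold w0 at h3
    by_contra hcon
    apply h3
    rw [if_neg]
    intro h
    exact hcon (zmod4_val b 0 (by exact_mod_cast h))
  have h7 : b ^ 2 % 8 = 0 := by
    have : b % 8 = 0 ∨ b % 8 = 4 := by omega
    rcases this with h | h <;> simp [pow_two, Int.mul_emod, h]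
  omega

theorem sup_2 {c : ℕ → ZMod 7 → ℤ} (hs : SE c) (j : ℕ) : Sup 49 49 (P c w2 j) := by
  intro M hM
  obtain ⟨n, b, h1, h2, h3⟩ := P_supp hM
  obtain ⟨h4, h5⟩ := mod7_of hs h1 h2
  have h6 : b % 4 = 2 := by
    unfold w2 at h3
    by_contra hcon
    apply h3
    rw [if_neg]
    intro h
    exact hcon (zmod4_val b 2 (by exact_mod_cast h))
  have h7 : b ^ 2 % 8 = 4 := by
    have : b % 8 = 2 ∨ b % 8 = 6 := by omega
    rcases this with h | h <;> simp [pow_two, Int.mul_emod, h]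
  omega

/-! ### the first step -/

theorem zero_of_trans {f g : PowerSeries ℂ} (hg : PB g) (K : ℂ → ℂ) (hK : ∀ z : ℂ, 0 < z.im → K z ≠ 0)
    (h : ∀ z : ℂ, 0 < z.im → ev f (-1 / z) = K z * ev g z) (hf : f = 0) : g = 0 := by
  refine ev_inj hg fun z hz => ?_
  have := h z hz
  rw [hf, ev_zero] at this
  exact (mul_eq_zero.1 this.symm).resolve_left (hK z hz)

/-- the three transformations -/
theorem trans3 (h1 : S_TH1) {c : ℕ → ZMod 7 → ℤ} (hc : VV c) {κ : ℂ} (h : TK c κ) (j : ℕ)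
    (h0 : ∀ i < j, P c wo i = 0 ∧ P c we i = 0 ∧ P c wm i = 0) {z : ℂ} (hz : 0 < z.im) :
    ev (P c wo j) (-1 / z) = 2 * J κ z * z ^ (2 * j) * ev (P c wm j) z ∧
    ev (P c we j) (-1 / z) = 2 * J κ z * z ^ (2 * j) * ev (P c we j) z ∧
    ev (P c wm j) (-1 / z) = 2 * J κ z * z ^ (2 * j) * ev (P c wo j) z := by
  refine ⟨?_, ?_, ?_⟩
  · rw [P_trans h1 hc h wo j (fun i hi => by rw [ft_o, P_smul_w, (h0 i hi).2.2, smul_zero]) hz, ft_o,
      P_smul_w, ev_smul]
    ring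
  · rw [P_trans h1 hc h we j (fun i hi => by rw [ft_e, P_smul_w, (h0 i hi).2.1, smul_zero]) hz, ft_e,
      P_smul_w, ev_smul]
    ring
  · rw [P_trans h1 hc h wm j (fun i hi => by rw [ft_m, P_smul_w, (h0 i hi).1, smul_zero]) hz, ft_m,
      P_smul_w, ev_smul]
    ring

/-- the square of the factor -/
theorem K_sq {κ : ℂ} (hκ : 7 * κ ^ 2 = 1) (j : ℕ) (z : ℂ) :
    (2 * J κ z * z ^ (2 * j)) ^ 2 = z ^ (4 + 4 * j) := by
  calc (2 * J κ z * z ^ (2 * j)) ^ 2 = 4 * J κ z ^ 2 * z ^ (4 * j) := by ring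
    _ = (7 * κ ^ 2) * z ^ (4 + 4 * j) := by rw [J_sq, pow_add]; ring
    _ = _ := by rw [hκ, one_mul]

theorem K_ne {κ : ℂ} (hκ : 7 * κ ^ 2 = 1) (j : ℕ) {z : ℂ} (hz : 0 < z.im) :
    2 * J κ z * z ^ (2 * j) ≠ 0 := by
  intro h
  have h1 := K_sq hκ j z
  rw [h, zero_pow (by norm_num)] at h1
  exact pow_ne_zero _ (ne_of_im hz) h1.symm

theorem step1 (h1 : S_TH1) (h2 : S_LV1) {c : ℕ → ZMod 7 → ℤ} (hc : VV c) (hs : SE c) {κ : ℂ} (h : TK c κ)
    (hκ : 7 * κ ^ 2 = 1) : P c wo 0 = 0 ∧ P c w0 0 = 0 ∧ P c w2 0 = 0 := by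
  have htr : ∀ z : ℂ, 0 < z.im → _ := fun z hz => trans3 h1 hc h 0 (fun i hi => absurd hi (Nat.not_lt_zero i)) hz
  have po := PB_P hc wo 0
  have pe := PB_P hc we 0
  have pm := PB_P hc wm 0
  have so := sup_o hs 0
  have s0 := sup_0 hs 0
  have s2 := sup_2 hs 0
  have hprod : P c wo 0 * (P c we 0 * P c wm 0) = 0 := by
    have hsq : (P c wo 0 * (P c we 0 * P c wm 0)) ^ 2 = 0 := by
      have hsup1 : Sup 42 42 (P c we 0 * P c wm 0) := by
        have e : P c we 0 * P c wm 0 = P c w0 0 * P c w0 0 - P c w2 0 * P c w2 0 := by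
          rw [P_e, P_m]
          ring
        rw [e]
        exact (s0.mul s0).sub ((s2.mul s2).mono (by norm_num))
      have hsup2 : Sup 0 56 (P c wo 0 * (P c we 0 * P c wm 0)) := so.mul hsup1
      have hsup : Sup 0 112 ((P c wo 0 * (P c we 0 * P c wm 0)) ^ 2) := by
        rw [pow_two]
        exact hsup2.mul hsup2
      have pp : PB (P c wo 0 * (P c we 0 * P c wm 0)) := po.mul (pe.mul pm)
      refine lv1 h2 (pp.pow 2) (fun n hn => Nat.dvd_of_mod_eq_zero (hsup n hn).1) 12 (by decide) ?_ ?_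
      · intro z hz
        obtain ⟨t1, t2, t3⟩ := htr z hz
        have hz' := neg_inv_im hz
        rw [ev_pow pp 2 hz', ev_pow pp 2 hz, ev_mul po (pe.mul pm) hz', ev_mul po (pe.mul pm) hz,
          ev_mul pe pm hz', ev_mul pe pm hz, t1, t2, t3]
        have hK := K_sq hκ 0 z
        calc (2 * J κ z * z ^ (2 * 0) * ev (P c wm 0) z * (2 * J κ z * z ^ (2 * 0) * ev (P c we 0) z *
              (2 * J κ z * z ^ (2 * 0) * ev (P c wo 0) z))) ^ 2
            = ((2 * J κ z * z ^ (2 * 0)) ^ 2) ^ 3 * (ev (P c wo 0) z * (ev (P c we 0) z * ev (P c wm 0) z)) ^ 2 := by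
              ring
          _ = _ := by rw [hK]; ring
      · intro n hn
        by_contra hne
        have := (hsup _ hne).2
        omega
    exact pow_eq_zero_iff (two_ne_zero) |>.1 hsq
  have key1 : P c wm 0 = 0 → P c w0 0 = 0 ∧ P c w2 0 = 0 := by
    intro hm
    rw [P_m, sub_eq_add_neg, ← neg_one_smul ℂ (P c w2 0)] at hm
    obtain ⟨a, b⟩ := s0.split (s2.smul (-1)) (by norm_num) hm
    refine ⟨a, ?_⟩
    rw [neg_one_smul, neg_eq_zero] at b
    exact b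
  have key2 : P c we 0 = 0 → P c w0 0 = 0 ∧ P c w2 0 = 0 := by
    intro hm
    rw [P_e] at hm
    exact s0.split s2 (by norm_num) hm
  have key3 : P c wo 0 = 0 → P c wm 0 = 0 := fun ho =>
    zero_of_trans pm _ (fun z hz => K_ne hκ 0 hz) (fun z hz => (htr z hz).1) ho
  have key4 : P c wm 0 = 0 → P c wo 0 = 0 := fun ho =>
    zero_of_trans po _ (fun z hz => K_ne hκ 0 hz) (fun z hz => (htr z hz).2.2) ho
  have key5 : P c w0 0 = 0 ∧ P c w2 0 = 0 → P c wm 0 = 0 := by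
    rintro ⟨a, b⟩
    rw [P_m, a, b, sub_zero]
  have hm : P c wm 0 = 0 := by
    rcases mul_eq_zero.1 hprod with ho | hem
    · exact key3 ho
    · rcases mul_eq_zero.1 hem with he | hm
      · exact key5 (key2 he)
      · exact hm
  exact ⟨key4 hm, key1 hm⟩

/-! ### the first coefficients -/

theorem filt14 : (Icc (-((14 : ℕ) : ℤ)) ((14 : ℕ) : ℤ)).filter (fun b => b ^ 2 ≤ ((14 : ℕ) : ℤ)) =
    {-3, -2, -1, 0, 1, 2, 3} := by decide

theorem filt21 : (Icc (-((21 : ℕ) : ℤ)) ((21 : ℕ) : ℤ)).filter (fun b => b ^ 2 ≤ ((21 : ℕ) : ℤ)) =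
    {-4, -3, -2, -1, 0, 1, 2, 3, 4} := by decide

theorem coeff14 {c : ℕ → ZMod 7 → ℤ} (he : ∀ n β, c n (-β) = c n β) (j : ℕ) :
    PowerSeries.coeff 14 (P c wo j) = 2 * (c 13 1 : ℂ) + 2 * 9 ^ j * (c 5 3 : ℂ) := by
  rw [coeff_P, filt14]
  have a1 : ((-3 : ℤ) : ZMod 4) = 1 := by decide
  have a2 : ((-2 : ℤ) : ZMod 4) = 2 := by decide
  have a3 : ((-1 : ℤ) : ZMod 4) = 3 := by decide
  have a4 : ((0 : ℤ) : ZMod 4) = 0 := by decide
  have a5 : ((1 : ℤ) : ZMod 4) = 1 := by decide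
  have a6 : ((2 : ℤ) : ZMod 4) = 2 := by decide
  have a7 : ((3 : ℤ) : ZMod 4) = 3 := by decide
  obtain ⟨o0, o1, o2, o3⟩ := wo_val
  have b1 : ((-3 : ℤ) : ZMod 7) = -3 := by decide
  have b3 : ((-1 : ℤ) : ZMod 7) = -1 := by decide
  have b5 : ((1 : ℤ) : ZMod 7) = 1 := by decide
  have b7 : ((3 : ℤ) : ZMod 7) = 3 := by decide
  rw [Finset.sum_insert (by decide), Finset.sum_insert (by decide), Finset.sum_insert (by decide),
    Finset.sum_insert (by decide), Finset.sum_insert (by decide), Finset.sum_insert (by decide),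
    Finset.sum_singleton, a1, a2, a3, a4, a5, a6, a7, o0, o1, o2, o3, b1, b3, b5, b7]
  have c1 : ((((14 : ℕ) : ℤ) - (-3) ^ 2).toNat) = 5 := by decide
  have c2 : ((((14 : ℕ) : ℤ) - (-1) ^ 2).toNat) = 13 := by decide
  have c3 : ((((14 : ℕ) : ℤ) - 1 ^ 2).toNat) = 13 := by decide
  have c4 : ((((14 : ℕ) : ℤ) - 3 ^ 2).toNat) = 5 := by decide
  rw [c1, c2, c3, c4, he, he]
  have d1 : (((-3 : ℤ) : ℂ) ^ 2) ^ j = 9 ^ j := by norm_num
  have d2 : (((-1 : ℤ) : ℂ) ^ 2) ^ j = 1 := by norm_num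
  have d3 : (((1 : ℤ) : ℂ) ^ 2) ^ j = 1 := by norm_num
  have d4 : (((3 : ℤ) : ℂ) ^ 2) ^ j = 9 ^ j := by norm_num
  rw [d1, d2, d3, d4]
  ring

theorem coeff21 {c : ℕ → ZMod 7 → ℤ} (he : ∀ n β, c n (-β) = c n β) :
    PowerSeries.coeff 21 (P c w0 1) = 32 * (c 5 3 : ℂ) := by
  rw [coeff_P, filt21]
  have a0 : ((-4 : ℤ) : ZMod 4) = 0 := by decide
  have a1 : ((-3 : ℤ) : ZMod 4) = 1 := by decide
  have a2 : ((-2 : ℤ) : ZMod 4) = 2 := by decide
  have a3 : ((-1 : ℤ) : ZMod 4) = 3 := by decide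
  have a4 : ((0 : ℤ) : ZMod 4) = 0 := by decide
  have a5 : ((1 : ℤ) : ZMod 4) = 1 := by decide
  have a6 : ((2 : ℤ) : ZMod 4) = 2 := by decide
  have a7 : ((3 : ℤ) : ZMod 4) = 3 := by decide
  have a8 : ((4 : ℤ) : ZMod 4) = 0 := by decide
  obtain ⟨o0, o1, o2, o3⟩ := w0_val
  have b1 : ((-4 : ℤ) : ZMod 7) = 3 := by decide
  have b3 : ((4 : ℤ) : ZMod 7) = -3 := by decide
  rw [Finset.sum_insert (by decide), Finset.sum_insert (by decide), Finset.sum_insert (by decide),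
    Finset.sum_insert (by decide), Finset.sum_insert (by decide), Finset.sum_insert (by decide),
    Finset.sum_insert (by decide), Finset.sum_insert (by decide),
    Finset.sum_singleton, a0, a1, a2, a3, a4, a5, a6, a7, a8, o0, o1, o2, o3, b1, b3]
  have c1 : ((((21 : ℕ) : ℤ) - (-4) ^ 2).toNat) = 5 := by decide
  have c4 : ((((21 : ℕ) : ℤ) - 4 ^ 2).toNat) = 5 := by decide
  rw [c1, c4, he]
  push_cast
  ring

/-! ### the second step -/

theorem lead14 {c : ℕ → ZMod 7 → ℤ} (he : ∀ n β, c n (-β) = c n β) (h0 : P c wo 0 = 0) :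
    PowerSeries.coeff 14 (P c wo 1) = 16 * (c 5 3 : ℂ) := by
  have e1 := coeff14 he 0
  have e2 := coeff14 he 1
  rw [h0, map_zero] at e1
  rw [e2]
  linear_combination -e1

theorem id1 (x u : PowerSeries ℂ) : x ^ 2 - u ^ 2 = (x - u) * (x + u) := by ring

theorem id2 (x y u v : PowerSeries ℂ) : x ^ 2 + y ^ 2 - u ^ 2 - v ^ 2 =
    (x - u) * (x + u) + (y * y - v * v) := by ring

theorem id3 (x y u v : PowerSeries ℂ) : (x + y) ^ 2 - (u + v) ^ 2 = (x ^ 2 + y ^ 2 - u ^ 2 - v ^ 2) +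
    (2 : ℂ) • (x * y - u * v) := by
  rw [two_smul]
  ring

theorem id4 (x y u v : PowerSeries ℂ) : (x - y) ^ 2 - (u - v) ^ 2 = (x ^ 2 + y ^ 2 - u ^ 2 - v ^ 2) -
    (2 : ℂ) • (x * y - u * v) := by
  rw [two_smul]
  ring

theorem id5 (U V : PowerSeries ℂ) : (U + V) * (U - V) = U * U - V * V := by ring

theorem step2 (h1 : S_TH1) (h2 : S_LV1) {c c' : ℕ → ZMod 7 → ℤ} (hc : VV c) (hc' : VV c') (hs : SE c) (hs' : SE c')
    (he : ∀ n β, c n (-β) = c n β) (he' : ∀ n β, c' n (-β) = c' n β)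
    {κ κ' : ℂ} (h : TK c κ) (h' : TK c' κ') (hκ : 7 * κ ^ 2 = 1) (hκ' : 7 * κ' ^ 2 = 1) :
    (c 5 3 : ℂ) • P c' w0 1 = (c' 5 3 : ℂ) • P c w0 1 := by
  obtain ⟨o0, a0, a2⟩ := step1 h1 h2 hc hs h hκ
  obtain ⟨o0', a0', a2'⟩ := step1 h1 h2 hc' hs' h' hκ'
  have hz0 : ∀ i < 1, P c wo i = 0 ∧ P c we i = 0 ∧ P c wm i = 0 := by
    intro i hi
    obtain rfl : i = 0 := by omega
    refine ⟨o0, ?_, ?_⟩
    · rw [P_e, a0, a2, add_zero]
    · rw [P_m, a0, a2, sub_zero]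
  have hz0' : ∀ i < 1, P c' wo i = 0 ∧ P c' we i = 0 ∧ P c' wm i = 0 := by
    intro i hi
    obtain rfl : i = 0 := by omega
    refine ⟨o0', ?_, ?_⟩
    · rw [P_e, a0', a2', add_zero]
    · rw [P_m, a0', a2', sub_zero]
  set k : ℂ := (c 5 3 : ℂ) with hk
  set k' : ℂ := (c' 5 3 : ℂ) with hk'
  -- the three functions
  set A : (ZMod 4 → ℂ) → PowerSeries ℂ := fun w => (k • P c' w 1) ^ 2 - (k' • P c w 1) ^ 2 with hA
  have pA : ∀ w, PB (A w) := fun w => (((PB_P hc' w 1).smul k).pow 2).sub (((PB_P hc w 1).smul k').pow 2)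
  have evA : ∀ w (z : ℂ), 0 < z.im → ev (A w) z = k ^ 2 * ev (P c' w 1) z ^ 2 - k' ^ 2 * ev (P c w 1) z ^ 2 := by
    intro w z hz
    rw [hA]
    simp only
    rw [ev_sub (((PB_P hc' w 1).smul k).pow 2) (((PB_P hc w 1).smul k').pow 2) hz,
      ev_pow ((PB_P hc' w 1).smul k) 2 hz, ev_pow ((PB_P hc w 1).smul k') 2 hz, ev_smul, ev_smul]
    ring
  have htr : ∀ z : ℂ, 0 < z.im → ev (A wo) (-1 / z) = z ^ 8 * ev (A wm) z ∧
      ev (A we) (-1 / z) = z ^ 8 * ev (A we) z ∧ ev (A wm) (-1 / z) = z ^ 8 * ev (A wo) z := by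
    intro z hz
    obtain ⟨t1, t2, t3⟩ := trans3 h1 hc h 1 hz0 hz
    obtain ⟨u1, u2, u3⟩ := trans3 h1 hc' h' 1 hz0' hz
    have K1 := K_sq hκ 1 z
    have K2 := K_sq hκ' 1 z
    have hz' := neg_inv_im hz
    refine ⟨?_, ?_, ?_⟩
    · rw [evA wo _ hz', evA wm _ hz, t1, u1, mul_pow, mul_pow _ (ev (P c wm 1) z), K1, K2]
      ring
    · rw [evA we _ hz', evA we _ hz, t2, u2, mul_pow, mul_pow _ (ev (P c we 1) z), K1, K2]
      ring
    · rw [evA wm _ hz', evA wo _ hz, t3, u3, mul_pow, mul_pow _ (ev (P c wo 1) z), K1, K2]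
      ring
  -- the order of `A wo`
  have so := sup_o hs 1
  have so' := sup_o hs' 1
  have s0 := sup_0 hs 1
  have s0' := sup_0 hs' 1
  have s2 := sup_2 hs 1
  have s2' := sup_2 hs' 1
  have sAo : Sup 28 84 (A wo) := by
    rw [show A wo = (k • P c' wo 1) ^ 2 - (k' • P c wo 1) ^ 2 from rfl, id1]
    have d1 : Sup 14 70 (k • P c' wo 1 - k' • P c wo 1) := by
      refine ((so'.smul k).sub (so.smul k')).next (by norm_num) ?_
      rw [map_sub, map_smul, map_smul, lead14 he' o0', lead14 he o0, smul_eq_mul, smul_eq_mul, ← hk, ← hk']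
      ring
    exact d1.mul ((so'.smul k).add (so.smul k'))
  -- the order of `A we * A wm`
  have hU : Sup 42 98 ((k • P c' w0 1) ^ 2 + (k • P c' w2 1) ^ 2 - (k' • P c w0 1) ^ 2 - (k' • P c w2 1) ^ 2) := by
    rw [id2]
    refine Sup.add ?_ ?_
    · have d1 : Sup 21 77 (k • P c' w0 1 - k' • P c w0 1) := by
        refine ((s0'.smul k).sub (s0.smul k')).next (by norm_num) ?_
        rw [map_sub, map_smul, map_smul, coeff21 he', coeff21 he, smul_eq_mul, smul_eq_mul, ← hk, ← hk']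
        ring
      exact d1.mul ((s0'.smul k).add (s0.smul k'))
    · exact ((s2'.smul k).mul (s2'.smul k)).sub ((s2.smul k').mul (s2.smul k'))
  have hV : Sup 14 70 ((2 : ℂ) • ((k • P c' w0 1) * (k • P c' w2 1) - (k' • P c w0 1) * (k' • P c w2 1))) :=
    Sup.smul (((s0'.smul k).mul (s2'.smul k)).sub ((s0.smul k').mul (s2.smul k'))) 2
  have eAe : A we = ((k • P c' w0 1) ^ 2 + (k • P c' w2 1) ^ 2 - (k' • P c w0 1) ^ 2 - (k' • P c w2 1) ^ 2) +
      (2 : ℂ) • ((k • P c' w0 1) * (k • P c' w2 1) - (k' • P c w0 1) * (k' • P c w2 1)) := by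
    rw [show A we = (k • P c' we 1) ^ 2 - (k' • P c we 1) ^ 2 from rfl, P_e, P_e, smul_add, smul_add, id3]
  have eAm : A wm = ((k • P c' w0 1) ^ 2 + (k • P c' w2 1) ^ 2 - (k' • P c w0 1) ^ 2 - (k' • P c w2 1) ^ 2) -
      (2 : ℂ) • ((k • P c' w0 1) * (k • P c' w2 1) - (k' • P c w0 1) * (k' • P c w2 1)) := by
    rw [show A wm = (k • P c' wm 1) ^ 2 - (k' • P c wm 1) ^ 2 from rfl, P_m, P_m, smul_sub, smul_sub, id4]
  have sAem : Sup 28 140 (A we * A wm) := by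
    rw [eAe, eAm, id5]
    exact ((hU.mul hU).mono (by norm_num)).sub (hV.mul hV)
  have sA : Sup 0 224 (A wo * (A we * A wm)) := sAo.mul sAem
  have hprod : A wo * (A we * A wm) = 0 := by
    refine lv1 h2 ((pA wo).mul ((pA we).mul (pA wm))) (fun n hn => Nat.dvd_of_mod_eq_zero (sA n hn).1) 24
      (by decide) ?_ ?_
    · intro z hz
      obtain ⟨t1, t2, t3⟩ := htr z hz
      have hz' := neg_inv_im hz
      rw [ev_mul (pA wo) ((pA we).mul (pA wm)) hz', ev_mul (pA wo) ((pA we).mul (pA wm)) hz,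
        ev_mul (pA we) (pA wm) hz', ev_mul (pA we) (pA wm) hz, t1, t2, t3]
      ring
    · intro n hn
      by_contra hne
      have := (sA _ hne).2
      omega
  have hz8 : ∀ z : ℂ, 0 < z.im → z ^ 8 ≠ 0 := fun z hz => pow_ne_zero _ (ne_of_im hz)
  have hAe : A we = 0 := by
    rcases mul_eq_zero.1 hprod with ho | hem
    · have hm : A wm = 0 := zero_of_trans (pA wm) _ hz8 (fun z hz => (htr z hz).1) ho
      rw [eAm, sub_eq_add_neg, ← neg_one_smul ℂ] at hm
      obtain ⟨u0, v0⟩ := hU.split (hV.smul (-1)) (by norm_num) hm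
      rw [neg_one_smul, neg_eq_zero] at v0
      rw [eAe, u0, v0, add_zero]
    · rcases mul_eq_zero.1 hem with he | hm
      · exact he
      · rw [eAm, sub_eq_add_neg, ← neg_one_smul ℂ] at hm
        obtain ⟨u0, v0⟩ := hU.split (hV.smul (-1)) (by norm_num) hm
        rw [neg_one_smul, neg_eq_zero] at v0
        rw [eAe, u0, v0, add_zero]
  have hX : k • P c' we 1 = k' • P c we 1 := by
    have e : (k • P c' we 1 - k' • P c we 1) * (k • P c' we 1 + k' • P c we 1) = 0 := by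
      rw [← hAe, show A we = (k • P c' we 1) ^ 2 - (k' • P c we 1) ^ 2 from rfl, id1]
    rcases mul_eq_zero.1 e with h3 | h3
    · exact sub_eq_zero.1 h3
    · have e2 := congrArg (PowerSeries.coeff 21) h3
      have z2 : PowerSeries.coeff 21 (P c w2 1) = 0 := by
        by_contra hne
        have := (s2 _ hne).1
        omega
      have z2' : PowerSeries.coeff 21 (P c' w2 1) = 0 := by
        by_contra hne
        have := (s2' _ hne).1
        omega
      rw [map_add, map_smul, map_smul, P_e, P_e, map_add, map_add, z2, z2', coeff21 he', coeff21 he, map_zero,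
        smul_eq_mul, smul_eq_mul, ← hk, ← hk'] at e2
      have e3 : k * k' = 0 := by linear_combination (1 / 64) * e2
      rcases mul_eq_zero.1 e3 with h4 | h4
      · rw [h4, zero_smul, zero_add] at h3
        rw [h4, zero_smul, h3]
      · rw [h4, zero_smul, add_zero] at h3
        rw [h4, zero_smul, h3]
  have hfin : (k • P c' w0 1 - k' • P c w0 1) + (k • P c' w2 1 - k' • P c w2 1) = 0 := by
    rw [P_e, P_e, smul_add, smul_add, ← sub_eq_zero, add_sub_add_comm] at hX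
    exact hX
  exact sub_eq_zero.1 (((s0'.smul k).sub (s0.smul k')).split ((s2'.smul k).sub (s2.smul k')) (by norm_num) hfin).1

/-! ### the induction -/

theorem stepn {d : ℕ → ZMod 7 → ℤ} {n : ℕ} (ih : ∀ m < n, ∀ β, d m β = 0) {w : ZMod 4 → ℂ} {j : ℕ} {b0 : ℤ}
    (hb0 : 0 < b0) (hsmall : ∀ b : ℤ, |b| < b0 → w (b : ZMod 4) * ((b : ℂ) ^ 2) ^ j = 0) (hP : P d w j = 0) :
    w (b0 : ZMod 4) * ((b0 : ℂ) ^ 2) ^ j * (d n (b0 : ZMod 7) : ℂ) +
      w ((-b0 : ℤ) : ZMod 4) * ((b0 : ℂ) ^ 2) ^ j * (d n (-(b0 : ZMod 7)) : ℂ) = 0 := by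
  have h1 := congrArg (PowerSeries.coeff (n + (b0 ^ 2).toNat)) hP
  rw [map_zero, coeff_P] at h1
  have hM : ((n + (b0 ^ 2).toNat : ℕ) : ℤ) = n + b0 ^ 2 := by
    rw [Nat.cast_add, Int.toNat_of_nonneg (sq_nonneg b0)]
  rw [hM] at h1
  have hsub : ({b0, -b0} : Finset ℤ) ⊆ (Icc (-((n : ℤ) + b0 ^ 2)) (n + b0 ^ 2)).filter (fun b => b ^ 2 ≤ (n : ℤ) + b0 ^ 2) := by
    intro b hb
    rw [Finset.mem_insert, Finset.mem_singleton] at hb
    rw [Finset.mem_filter, Finset.mem_Icc]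
    have := Int.le_self_sq b0
    rcases hb with rfl | rfl
    · refine ⟨⟨?_, ?_⟩, ?_⟩ <;> omega
    · have e : (-b0) ^ 2 = b0 ^ 2 := by ring
      refine ⟨⟨?_, ?_⟩, ?_⟩ <;> omega
  rw [← Finset.sum_subset hsub, Finset.sum_pair (by omega)] at h1
  · have e1 : ((n : ℤ) + b0 ^ 2 - b0 ^ 2).toNat = n := by omega
    have e2 : ((n : ℤ) + b0 ^ 2 - (-b0) ^ 2).toNat = n := by
      have : (-b0) ^ 2 = b0 ^ 2 := by ring
      omega
    rw [e1, e2] at h1
    push_cast at h1 ⊢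
    rw [neg_sq] at h1
    exact h1
  · intro b hb hb2
    rw [Finset.mem_filter, Finset.mem_Icc] at hb
    rw [Finset.mem_insert, Finset.mem_singleton, not_or] at hb2
    rcases lt_or_ge |b| b0 with h | h
    · rw [hsmall b h, zero_mul]
    · have h3 : b0 < |b| := by
        rcases abs_cases b with ⟨h4, _⟩ | ⟨h4, _⟩ <;> omega
      have h4 : b0 ^ 2 < b ^ 2 := by
        rw [← sq_abs b]
        exact pow_lt_pow_left₀ h3 hb0.le two_ne_zero
      have h5 : ((n : ℤ) + b0 ^ 2 - b ^ 2).toNat < n := by omega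
      rw [ih _ h5]
      simp

theorem step0 {d : ℕ → ZMod 7 → ℤ} {n : ℕ} (ih : ∀ m < n, ∀ β, d m β = 0) {w : ZMod 4 → ℂ}
    (hP : P d w 0 = 0) : w 0 * (d n 0 : ℂ) = 0 := by
  have h1 := congrArg (PowerSeries.coeff n) hP
  rw [map_zero, coeff_P, Finset.sum_eq_single 0] at h1
  · simpa using h1
  · intro b hb hne
    rw [Finset.mem_filter, Finset.mem_Icc] at hb
    have h2 : 0 < b ^ 2 := by positivity
    have h5 : ((n : ℤ) - b ^ 2).toNat < n := by omega
    rw [ih _ h5]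
    simp
  · intro h
    exfalso
    apply h
    rw [Finset.mem_filter, Finset.mem_Icc]
    refine ⟨⟨?_, ?_⟩, ?_⟩ <;> simp

theorem zmod7_cases (β : ZMod 7) : β = 0 ∨ β = 1 ∨ β = -1 ∨ β = 2 ∨ β = -2 ∨ β = 4 ∨ β = -4 := by
  revert β
  decide

theorem final {d : ℕ → ZMod 7 → ℤ} (he : ∀ n β, d n (-β) = d n β) (g1 : P d wo 0 = 0) (g2 : P d w2 0 = 0)
    (g3 : P d w0 1 = 0) (g4 : P d w0 0 = 0) : ∀ n β, d n β = 0 := by
  intro n
  induction n using Nat.strong_induction_on with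
  | _ n ih =>
    obtain ⟨a0, a1, a2, a3⟩ := wo_val
    obtain ⟨b0, b1, b2, b3⟩ := w0_val
    obtain ⟨c0, c1, c2, c3⟩ := w2_val
    have e0 : d n 0 = 0 := by
      have := step0 ih g4
      rw [b0, one_mul] at this
      exact_mod_cast this
    have e1 : d n 1 = 0 := by
      have := stepn (w := wo) (j := 0) (b0 := 1) ih (by norm_num) (by
        intro b hb
        have : b = 0 := by
          rcases abs_cases b with ⟨h4, _⟩ | ⟨h4, _⟩ <;> omega
        rw [this, show ((0 : ℤ) : ZMod 4) = 0 by decide, a0, zero_mul]) g1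
      rw [show ((1 : ℤ) : ZMod 4) = 1 by decide, show ((-1 : ℤ) : ZMod 4) = 3 by decide, a1, a3,
        show ((1 : ℤ) : ZMod 7) = 1 by decide, he] at this
      have h2 : (d n 1 : ℂ) = 0 := by
        simp only [pow_zero] at this
        linear_combination (1 / 2) * this
      exact_mod_cast h2
    have e2 : d n 2 = 0 := by
      have := stepn (w := w2) (j := 0) (b0 := 2) ih (by norm_num) (by
        intro b hb
        have : b = 0 ∨ b = 1 ∨ b = -1 := by
          rcases abs_cases b with ⟨h4, _⟩ | ⟨h4, _⟩ <;> omega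
        rcases this with h | h | h
        · rw [h, show ((0 : ℤ) : ZMod 4) = 0 by decide, c0, zero_mul]
        · rw [h, show ((1 : ℤ) : ZMod 4) = 1 by decide, c1, zero_mul]
        · rw [h, show ((-1 : ℤ) : ZMod 4) = 3 by decide, c3, zero_mul]) g2
      rw [show ((2 : ℤ) : ZMod 4) = 2 by decide, show ((-2 : ℤ) : ZMod 4) = 2 by decide, c2,
        show ((2 : ℤ) : ZMod 7) = 2 by decide, he] at this
      have h2 : (d n 2 : ℂ) = 0 := by
        simp only [pow_zero] at this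
        linear_combination (1 / 2) * this
      exact_mod_cast h2
    have e4 : d n 4 = 0 := by
      have := stepn (w := w0) (j := 1) (b0 := 4) ih (by norm_num) (by
        intro b hb
        by_cases hb0 : b = 0
        · rw [hb0]
          simp
        · have h5 : (b : ZMod 4) ≠ 0 := by
            intro h6
            have := zmod4_val b 0 (by exact_mod_cast h6)
            rcases abs_cases b with ⟨h4, _⟩ | ⟨h4, _⟩ <;> omega
          unfold w0
          rw [if_neg h5, zero_mul]) g3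
      rw [show ((4 : ℤ) : ZMod 4) = 0 by decide, show ((-4 : ℤ) : ZMod 4) = 0 by decide, b0,
        show ((4 : ℤ) : ZMod 7) = 4 by decide, he] at this
      have h2 : (d n 4 : ℂ) = 0 := by
        push_cast at this
        linear_combination (1 / 32) * this
      exact_mod_cast h2
    intro β
    rcases zmod7_cases β with rfl | rfl | rfl | rfl | rfl | rfl | rfl
    · exact e0
    · exact e1
    · rw [he, e1]
    · exact e2
    · rw [he, e2]
    · exact e4
    · rw [he, e4]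

theorem kappa_of {c : ℕ → ZMod 7 → ℤ} (hc : VV c) (he : ∀ n β, c n (-β) = c n β) (hne : ∃ n β, c n β ≠ 0)
    {κ : ℂ} (h : TK c κ) : 7 * κ ^ 2 = 1 := by
  obtain ⟨n, β, h1⟩ := hne
  have h2 := kappa_eq hc h n β
  rw [he] at h2
  have h3 : (c n β : ℂ) ≠ 0 := by exact_mod_cast h1
  have h4 : (7 * κ ^ 2 - 1) * (c n β : ℂ) = 0 := by linear_combination -h2
  have h5 := (mul_eq_zero.1 h4).resolve_right h3
  linear_combination h5

end

end UEaux

open UEaux Pool.Agent.NH79.QS in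
theorem t_UE (h1 : S_TH1) (h2 : S_LV1) : S_UE := by
  intro c c' hc hc' hs hs' he he'
  by_cases hne : ∃ n β, c n β ≠ 0
  · by_cases hne' : ∃ n β, c' n β ≠ 0
    · obtain ⟨κ, hκ⟩ := hc.trans
      obtain ⟨κ', hκ'⟩ := hc'.trans
      have k1 := kappa_of hc he hne hκ
      have k2 := kappa_of hc' he' hne' hκ'
      obtain ⟨o0, a0, a2⟩ := step1 h1 h2 hc hs hκ k1
      obtain ⟨o0', a0', a2'⟩ := step1 h1 h2 hc' hs' hκ' k2
      have key := step2 h1 h2 hc hc' hs hs' he he' hκ hκ' k1 k2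
      have hd := final (d := fun n β => c 5 3 * c' n β - c' 5 3 * c n β) (fun n β => by
          simp only [he, he'])
        (by rw [P_sub_c, o0, o0', smul_zero, smul_zero, sub_zero])
        (by rw [P_sub_c, a2, a2', smul_zero, smul_zero, sub_zero])
        (by rw [P_sub_c, key, sub_self])
        (by rw [P_sub_c, a0, a0', smul_zero, smul_zero, sub_zero])
      intro n β
      have := hd n β
      linarith
    · push Not at hne'
      intro n β
      rw [hne' 5 3, hne' n β]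
      ring
  · push Not at hne
    intro n β
    rw [hne 5 3, hne n β]
    ring

end Pool.Agent.NH1
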