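import Pool.Agent.NH1.UTool2

/-!
# Project NH1: uniqueness of the vector valued forms, the odd case
-/

set_option autoImplicit false

namespace Pool.Agent.NH1.UOd

open PowerSeries Filter Topology
open Pool.Agent.NH1.UT

noncomputable section

/-! ### the unary theta series -/

/-- the character modulo four -/
def ch (b : ℤ) : ℤ := ZMod.χ₄ (b : ZMod 4)

/-- the coefficients of the theta series -/
def gg (β : ZMod 7) (b : ℤ) : ℂ := (ch b : ℂ) * if (b : ZMod 7) = β then 1 else 0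

theorem ch_bd (b : ℤ) : ‖(ch b : ℂ)‖ ≤ 1 := by
  have h : ∀ x : ZMod 4, ZMod.χ₄ x = 0 ∨ ZMod.χ₄ x = 1 ∨ ZMod.χ₄ x = -1 := by decide
  unfold ch
  rcases h (b : ZMod 4) with h | h | h <;> rw [h] <;> simp

theorem gg_pgz (β : ZMod 7) : PGZ (gg β) := by
  refine PGZ.of_bdd 1 fun b => ?_
  rw [gg, norm_mul]
  have h1 := ch_bd b
  split_ifs
  · simpa using h1
  · simp

/-- the Fourier transform modulo `28` -/
theorem ft28 (β : ZMod 7) (b : ℤ) :
    ∑ a : ZMod 28, (((ZMod.χ₄ (a.cast : ZMod 4) : ℤ) : ℂ) *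
        (if (a.cast : ZMod 7) = β then 1 else 0)) *
      Complex.exp (2 * Real.pi * Complex.I * (((a * (b : ZMod 28)).val : ℕ) : ℂ) / ((28 : ℕ) : ℂ)) =
    ∑ β' : ZMod 7, (-2 * Complex.I * z7 (2 * β * β')) * gg β' b := by
  have hexp : ∀ x : ZMod 28, Complex.exp (2 * Real.pi * Complex.I * ((x.val : ℕ) : ℂ) /
      ((28 : ℕ) : ℂ)) = ZMod.stdAddChar (N := 28) x := by
    intro x
    rw [ZMod.stdAddChar_apply, ZMod.toCircle_apply]
  simp only [hexp]
  let e : ZMod 4 × ZMod 7 → ZMod 28 := fun p =>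
    21 * ((p.1.val : ℕ) : ZMod 28) + 8 * ((p.2.val : ℕ) : ZMod 28)
  have he : Function.Bijective e := by
    rw [Fintype.bijective_iff_injective_and_card]
    refine ⟨?_, by simp⟩
    show Function.Injective fun p : ZMod 4 × ZMod 7 =>
      21 * ((p.1.val : ℕ) : ZMod 28) + 8 * ((p.2.val : ℕ) : ZMod 28)
    decide +kernel
  have hc4 : ∀ p, ((e p).cast : ZMod 4) = p.1 := by
    show ∀ p : ZMod 4 × ZMod 7, ((21 * ((p.1.val : ℕ) : ZMod 28) +
      8 * ((p.2.val : ℕ) : ZMod 28) : ZMod 28).cast : ZMod 4) = p.1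
    decide +kernel
  have hc7 : ∀ p, ((e p).cast : ZMod 7) = p.2 := by
    show ∀ p : ZMod 4 × ZMod 7, ((21 * ((p.1.val : ℕ) : ZMod 28) +
      8 * ((p.2.val : ℕ) : ZMod 28) : ZMod 28).cast : ZMod 7) = p.2
    decide +kernel
  rw [← he.sum_comp, Fintype.sum_prod_type]
  simp only [hc4, hc7]
  have hs : ∀ r : ZMod 4, ∑ s : ZMod 7, (((ZMod.χ₄ r : ℤ) : ℂ) * (if s = β then 1 else 0)) *
      ZMod.stdAddChar (N := 28) (e (r, s) * (b : ZMod 28)) =
      ((ZMod.χ₄ r : ℤ) : ℂ) * ZMod.stdAddChar (N := 28) (e (r, β) * (b : ZMod 28)) := by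
    intro r
    rw [Finset.sum_eq_single β]
    · simp
    · intro s _ hs
      simp [hs]
    · simp
  simp only [hs]
  have h4 : ∀ f : ZMod 4 → ℂ, ∑ r : ZMod 4, f r = f 0 + f 1 + f 2 + f 3 := by
    intro f
    exact Fin.sum_univ_four f
  rw [h4]
  have c0 : ZMod.χ₄ (0 : ZMod 4) = 0 := by decide
  have c1 : ZMod.χ₄ (1 : ZMod 4) = 1 := by decide
  have c2 : ZMod.χ₄ (2 : ZMod 4) = 0 := by decide
  have c3 : ZMod.χ₄ (3 : ZMod 4) = -1 := by decide
  rw [c0, c1, c2, c3]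
  have e1 : e (1, β) * (b : ZMod 28) = 21 * (b : ZMod 28) + 8 * ((β.val : ℕ) : ZMod 28) * b := by
    show (21 * (((1 : ZMod 4).val : ℕ) : ZMod 28) + 8 * ((β.val : ℕ) : ZMod 28)) * (b : ZMod 28) = _
    have : (((1 : ZMod 4).val : ℕ) : ZMod 28) = 1 := by decide
    rw [this]; ring
  have e3 : e (3, β) * (b : ZMod 28) = 7 * (b : ZMod 28) + 8 * ((β.val : ℕ) : ZMod 28) * b := by
    show (21 * (((3 : ZMod 4).val : ℕ) : ZMod 28) + 8 * ((β.val : ℕ) : ZMod 28)) * (b : ZMod 28) = _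
    have : (21 * (((3 : ZMod 4).val : ℕ) : ZMod 28)) = 7 := by decide
    rw [this]; ring
  rw [e1, e3, AddChar.map_add_eq_mul, AddChar.map_add_eq_mul]
  -- the values at multiples of seven
  have p7 : ZMod.stdAddChar (N := 28) 7 = Complex.I := by
    have := ZMod.stdAddChar_coe (N := 28) 7
    have h7 : ((7 : ℤ) : ZMod 28) = 7 := by norm_cast
    rw [h7] at this
    rw [this]
    have : (2 * Real.pi * Complex.I * ((7 : ℤ) : ℂ) / ((28 : ℕ) : ℂ) : ℂ) =
        Real.pi / 2 * Complex.I := by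
      push_cast; ring
    rw [this, Complex.exp_pi_div_two_mul_I]
  have p14 : ZMod.stdAddChar (N := 28) 14 = -1 := by
    have : (14 : ZMod 28) = 7 + 7 := by decide
    rw [this, AddChar.map_add_eq_mul, p7, Complex.I_mul_I]
  have p21 : ZMod.stdAddChar (N := 28) 21 = -Complex.I := by
    have : (21 : ZMod 28) = 14 + 7 := by decide
    rw [this, AddChar.map_add_eq_mul, p7, p14]
    ring
  have hd : ZMod.stdAddChar (N := 28) (21 * (b : ZMod 28)) -
      ZMod.stdAddChar (N := 28) (7 * (b : ZMod 28)) = -2 * Complex.I * (ch b : ℂ) := by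
    obtain ⟨q, r, hr, hb⟩ : ∃ q r : ℤ, (r = 0 ∨ r = 1 ∨ r = 2 ∨ r = 3) ∧ b = 4 * q + r :=
      ⟨b / 4, b % 4, by omega, by omega⟩
    have f21 : (21 * (b : ZMod 28)) = 21 * (r : ZMod 28) := by
      rw [hb]
      push_cast
      have : (21 : ZMod 28) * (4 * (q : ZMod 28) + r) = (84 : ZMod 28) * q + 21 * r := by ring
      rw [this]
      have : (84 : ZMod 28) = 0 := by decide
      rw [this, zero_mul, zero_add]
    have f7 : (7 * (b : ZMod 28)) = 7 * (r : ZMod 28) := by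
      rw [hb]
      push_cast
      have : (7 : ZMod 28) * (4 * (q : ZMod 28) + r) = (28 : ZMod 28) * q + 7 * r := by ring
      rw [this]
      have : (28 : ZMod 28) = 0 := by decide
      rw [this, zero_mul, zero_add]
    have fc : ch b = ZMod.χ₄ (r : ZMod 4) := by
      unfold ch
      congr 1
      rw [hb]
      push_cast
      have : (4 : ZMod 4) = 0 := by decide
      rw [this, zero_mul, zero_add]
    rw [f21, f7, fc]
    rcases hr with rfl | rfl | rfl | rfl
    · simp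
    · have : (21 : ZMod 28) * ((1 : ℤ) : ZMod 28) = 21 := by decide
      rw [this]
      have : (7 : ZMod 28) * ((1 : ℤ) : ZMod 28) = 7 := by decide
      rw [this, p7, p21]
      have : ZMod.χ₄ ((1 : ℤ) : ZMod 4) = 1 := by decide
      rw [this]
      push_cast
      ring
    · have : (21 : ZMod 28) * ((2 : ℤ) : ZMod 28) = 14 := by decide
      rw [this]
      have : (7 : ZMod 28) * ((2 : ℤ) : ZMod 28) = 14 := by decide
      rw [this, p14]
      have : ZMod.χ₄ ((2 : ℤ) : ZMod 4) = 0 := by decide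
      rw [this]
      push_cast
      ring
    · have : (21 : ZMod 28) * ((3 : ℤ) : ZMod 28) = 7 := by decide
      rw [this]
      have : (7 : ZMod 28) * ((3 : ℤ) : ZMod 28) = 21 := by decide
      rw [this, p7, p21]
      have : ZMod.χ₄ ((3 : ℤ) : ZMod 4) = -1 := by decide
      rw [this]
      push_cast
      ring
  have h8 : ZMod.stdAddChar (N := 28) (8 * ((β.val : ℕ) : ZMod 28) * b) = z7 (2 * β * b) := by
    have i1 : (8 * ((β.val : ℕ) : ZMod 28) * b) = ((8 * (β.val : ℤ) * b : ℤ) : ZMod 28) := by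
      push_cast; rfl
    have i2 : (2 * β * b) = ((2 * (β.val : ℤ) * b : ℤ) : ZMod 7) := by
      push_cast
      rw [ZMod.natCast_zmod_val]
    rw [i1, i2, z7_int, ZMod.stdAddChar_coe]
    congr 1
    push_cast
    ring
  have hR : ∑ β' : ZMod 7, (-2 * Complex.I * z7 (2 * β * β')) * gg β' b =
      -2 * Complex.I * z7 (2 * β * b) * (ch b : ℂ) := by
    rw [Finset.sum_eq_single (b : ZMod 7)]
    · simp [gg]
    · intro s _ hs
      have : ¬ ((b : ZMod 7) = s) := fun h => hs h.symm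
      simp [gg, this]
    · simp
  rw [hR, h8]
  push_cast
  linear_combination z7 (2 * β * b) * hd

/-- the constant of the theta series -/
def mu : ℂ := (((28 : ℝ)⁻¹ : ℝ) : ℂ) ^ ((1 : ℂ) / 2) * (-2 * Complex.I)

theorem mu_sq : mu ^ 2 = -1 / 7 := by
  have h0 : (((28 : ℝ)⁻¹ : ℝ) : ℂ) ≠ 0 := by
    push_cast
    norm_num
  have h1 : ((((28 : ℝ)⁻¹ : ℝ) : ℂ) ^ ((1 : ℂ) / 2)) ^ 2 = (((28 : ℝ)⁻¹ : ℝ) : ℂ) := by
    rw [pow_two, ← Complex.cpow_add _ _ h0]
    norm_num
  rw [mu, mul_pow, h1, mul_pow, Complex.I_sq]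
  push_cast
  norm_num

/-- the theta series -/
def tau (β : ZMod 7) : PowerSeries ℂ := sq (gg β)

theorem tau_pg (β : ZMod 7) : PG (tau β) := (gg_pgz β).pg

/-- the transformation of the theta series -/
theorem tau_tr (h1 : S_TH1) : TrH (fun β => ev (tau β)) (fun β => ev (tau β)) mu := by
  intro β z hz
  have h := h1 28 (fun a => ((ZMod.χ₄ (a.cast : ZMod 4) : ℤ) : ℂ) *
    (if (a.cast : ZMod 7) = β then 1 else 0)) z hz
  have hc : ∀ b : ℤ, ((ZMod.χ₄ (((b : ZMod 28)).cast : ZMod 4) : ℤ) : ℂ) *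
      (if (((b : ZMod 28)).cast : ZMod 7) = β then 1 else 0) = gg β b := by
    intro b
    rw [ZMod.cast_intCast (R := ZMod 4) (by norm_num : 4 ∣ 28) b,
      ZMod.cast_intCast (R := ZMod 7) (by norm_num : 7 ∣ 28) b]
    rfl
  simp only [hc, ft28] at h
  have hL : ev (tau β) (-1 / z) = ∑' b : ℤ, gg β b *
      Complex.exp (Real.pi * Complex.I * (b : ℂ) ^ 2 * (-1 / z) / ((28 : ℕ) : ℂ)) := by
    rw [tau, ev_sq (gg_pgz β) (im_neg_inv hz)]
    push_cast
    rfl
  have hpz : PGZ fun b => ∑ β' : ZMod 7, (-2 * Complex.I * z7 (2 * β * β')) * gg β' b := by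
    refine PGZ.of_bdd 14 fun b => ?_
    have hz7 : ∀ x : ZMod 7, ‖z7 x‖ = 1 := by
      intro x
      rw [z7_eq, ZMod.stdAddChar_apply]
      exact Circle.norm_coe _
    have hg : ∀ β' : ZMod 7, ‖gg β' b‖ ≤ 1 := by
      intro β'
      rw [gg, norm_mul]
      have h1 := ch_bd b
      split_ifs
      · simpa using h1
      · simp
    calc ‖∑ β' : ZMod 7, (-2 * Complex.I * z7 (2 * β * β')) * gg β' b‖
        ≤ ∑ β' : ZMod 7, ‖(-2 * Complex.I * z7 (2 * β * β')) * gg β' b‖ := norm_sum_le _ _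
      _ ≤ ∑ β' : ZMod 7, (2 : ℝ) := by
          refine Finset.sum_le_sum fun β' _ => ?_
          rw [norm_mul, norm_mul, norm_mul, hz7]
          have := hg β'
          simp only [norm_neg, Complex.norm_ofNat, Complex.norm_I, mul_one]
          linarith
      _ = ((14 : ℕ) : ℝ) := by
          rw [Finset.sum_const, Finset.card_univ, ZMod.card]
          norm_num
  have hR : ∑' b : ℤ, (∑ β' : ZMod 7, (-2 * Complex.I * z7 (2 * β * β')) * gg β' b) *
      Complex.exp (Real.pi * Complex.I * (b : ℂ) ^ 2 * z / ((28 : ℕ) : ℂ)) =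
      -2 * Complex.I * ∑ β' : ZMod 7, z7 (2 * β * β') * ev (tau β') z := by
    have h2 := ev_sq hpz hz
    have h3 : ∑' b : ℤ, (∑ β' : ZMod 7, (-2 * Complex.I * z7 (2 * β * β')) * gg β' b) *
      Complex.exp (Real.pi * Complex.I * (b : ℂ) ^ 2 * z / ((28 : ℕ) : ℂ)) =
      ev (sq fun b => ∑ β' : ZMod 7, (-2 * Complex.I * z7 (2 * β * β')) * gg β' b) z := by
      rw [h2]
      push_cast
      rfl
    rw [h3, sq_sum, ev_sum _ (fun i _ => ((gg_pgz i).pg).smul _) hz, Finset.mul_sum]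
    refine Finset.sum_congr rfl fun β' _ => ?_
    rw [ev_smul]
    show _ * ev (tau β') z = _
    ring
  show ev (tau β) (-1 / z) = _
  rw [hL, h, hR]
  have h5 := cpw_div hz ((1 : ℂ) / 2) (x := 28) (by norm_num)
  have h6 : (-Complex.I * z / ((28 : ℕ) : ℂ)) = (-Complex.I * z / ((28 : ℝ) : ℂ)) := by
    push_cast; rfl
  rw [h6, h5, mu]
  ring

/-! ### the coefficient sequences -/

/-- the power series of a sequence -/
def Cs (c : ℕ → ZMod 7 → ℤ) (β : ZMod 7) : PowerSeries ℂ := PowerSeries.mk fun n => (c n β : ℂ)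

theorem coeff_Cs (c : ℕ → ZMod 7 → ℤ) (β : ZMod 7) (n : ℕ) : coeff n (Cs c β) = (c n β : ℂ) :=
  coeff_mk _ _

theorem Cs_pg {c : ℕ → ZMod 7 → ℤ} (h : VV c) (β : ZMod 7) : PG (Cs c β) := by
  obtain ⟨C, k, hC⟩ := h.bound
  refine ⟨C, k, fun n => ?_⟩
  rw [coeff_Cs, Complex.norm_intCast]
  have h1 := hC n β
  have h2 : ((|c n β| : ℤ) : ℝ) ≤ (((C : ℤ) * ((n : ℤ) + 1) ^ k : ℤ) : ℝ) := by exact_mod_cast h1
  push_cast at h2
  exact h2

theorem ev_Cs (c : ℕ → ZMod 7 → ℤ) (β : ZMod 7) (z : ℂ) : ev (Cs c β) z = F c β z := by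
  rw [ev, F]
  refine tsum_congr fun n => ?_
  rw [coeff_Cs, eq56]

theorem Cs_tr {c : ℕ → ZMod 7 → ℤ} (h : VV c) : ∃ κ : ℂ, TrF (fun β => ev (Cs c β)) κ := by
  obtain ⟨κ, hκ⟩ := h.trans
  refine ⟨κ, fun β z hz => ?_⟩
  show ev (Cs c β) (-1 / z) = κ * (-Complex.I * z) ^ ((3 : ℂ) / 2) *
    ∑ β' : ZMod 7, z7 (-(2 * β * β')) * ev (Cs c β') z
  simp only [ev_Cs]
  exact hκ β z hz

/-- the support of the sequence and its parity -/
structure Sup (c : ℕ → ZMod 7 → ℤ) : Prop where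
  sup : ∀ n β, c n β ≠ 0 → n % 8 = 3 ∧ (n : ZMod 7) = -β ^ 2
  odd : ∀ n β, c n (-β) = -c n β

/-- the value of the constant -/
theorem kappa_sq (hl : S_LV1) {c : ℕ → ZMod 7 → ℤ} (h : VV c) (hs : Sup c) {κ : ℂ}
    (hκ : TrF (fun β => ev (Cs c β)) κ) (hne : ∃ n β, c n β ≠ 0) : κ ^ 2 = -1 / 7 := by
  obtain ⟨n, β, hn⟩ := hne
  have hodd : ∀ z : ℂ, ev (Cs c (-β)) z = -ev (Cs c β) z := by
    intro z
    rw [← ev_neg]
    congr 1
    ext m
    rw [map_neg, coeff_Cs, coeff_Cs, hs.odd]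
    push_cast
    rfl
  by_contra hk
  have hz : ∀ z : ℂ, 0 < z.im → ev (Cs c β) z = 0 := by
    intro z hz
    have h1 := hκ.kappa β hz
    simp only [hodd] at h1
    have h2 : (1 + 7 * κ ^ 2) * ev (Cs c β) z = 0 := by linear_combination h1
    rcases mul_eq_zero.1 h2 with h3 | h3
    · exfalso
      apply hk
      linear_combination h3 / 7
    · exact h3
  have h0 : coeff 0 (Cs c β) = 0 := by
    rw [coeff_Cs]
    by_contra h0
    have h1 : c 0 β ≠ 0 := by exact_mod_cast h0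
    have := (hs.sup 0 β h1).1
    omega
  have h3 := uniq hl (Cs_pg h β) h0 hz
  apply hn
  have h4 : coeff n (Cs c β) = 0 := by rw [h3, map_zero]
  rw [coeff_Cs] at h4
  exact_mod_cast h4

/-! ### the products -/

/-- `∑_β F_β T_β^{(j)}` -/
def Pj (c : ℕ → ZMod 7 → ℤ) (j : ℕ) : PowerSeries ℂ :=
  ∑ β : ZMod 7, Cs c β * sq fun b => (b : ℂ) ^ (2 * j) * gg β b

theorem gj_pgz (j : ℕ) (β : ZMod 7) : PGZ fun b => (b : ℂ) ^ (2 * j) * gg β b := by
  induction j with
  | zero => simpa using gg_pgz β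
  | succ j ih =>
    have := ih.mul_sq
    refine (congrArg PGZ (funext fun b => ?_)).mp this
    rw [← mul_assoc, ← pow_add]
    congr 2
    ring

theorem Pj_pg {c : ℕ → ZMod 7 → ℤ} (h : VV c) (j : ℕ) : PG (Pj c j) :=
  PG.sum _ fun β _ => (Cs_pg h β).mul (gj_pgz j β).pg

theorem th_gj (j : ℕ) (β : ZMod 7) : th (sq fun b => (b : ℂ) ^ (2 * j) * gg β b) =
    sq fun b => (b : ℂ) ^ (2 * (j + 1)) * gg β b := by
  rw [th_sq]
  congr 1
  funext b
  rw [← mul_assoc, ← pow_add]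
  congr 2
  ring

/-- the coefficients of `Pj`, as integers -/
def aZ (c : ℕ → ZMod 7 → ℤ) (j M : ℕ) : ℤ :=
  ∑ b ∈ sqle M, c (M - b.natAbs ^ 2) (b : ZMod 7) * (ch b * b ^ (2 * j))

theorem coeff_Pj (c : ℕ → ZMod 7 → ℤ) (j M : ℕ) : coeff M (Pj c j) = (aZ c j M : ℂ) := by
  rw [Pj, map_sum]
  simp only [coeff_mul_sq, coeff_Cs]
  rw [Finset.sum_comm, aZ]
  push_cast
  refine Finset.sum_congr rfl fun b _ => ?_
  rw [Finset.sum_eq_single (b : ZMod 7)]
  · rw [gg, if_pos rfl]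
    ring
  · intro s _ hs
    have : ¬ ((b : ZMod 7) = s) := fun h => hs h.symm
    rw [gg, if_neg this]
    ring
  · simp

theorem ch_odd {b : ℤ} (h : ch b ≠ 0) : b % 2 = 1 := by
  by_contra h2
  apply h
  have h3 : b % 2 = 0 := by omega
  unfold ch
  rw [ZMod.χ₄_int_eq_if_mod_four]
  simp [h3]

theorem sq_mod8 {b : ℤ} (h : b % 2 = 1) : b.natAbs ^ 2 % 8 = 1 := by
  have h1 : b.natAbs % 8 = 1 ∨ b.natAbs % 8 = 3 ∨ b.natAbs % 8 = 5 ∨ b.natAbs % 8 = 7 := by omega
  rcases h1 with h | h | h | h <;> simp [Nat.pow_mod, h]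

theorem cast_natAbs_sq (b : ℤ) : ((b.natAbs ^ 2 : ℕ) : ZMod 7) = (b : ZMod 7) ^ 2 := by
  have h1 := natAbs_sq' b
  have h2 : (((b.natAbs ^ 2 : ℕ) : ℤ) : ZMod 7) = ((b ^ 2 : ℤ) : ZMod 7) := by rw [h1]
  rw [Int.cast_natCast] at h2
  rw [h2]
  push_cast
  rfl

theorem supp_aZ {c : ℕ → ZMod 7 → ℤ} (hs : Sup c) {j M : ℕ} (h : aZ c j M ≠ 0) : M % 56 = 28 := by
  obtain ⟨b, hb, hne⟩ := Finset.exists_ne_zero_of_sum_ne_zero h
  have h1 : c (M - b.natAbs ^ 2) (b : ZMod 7) ≠ 0 := left_ne_zero_of_mul hne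
  have h2 : ch b ≠ 0 := left_ne_zero_of_mul (right_ne_zero_of_mul hne)
  obtain ⟨h3, h4⟩ := hs.sup _ _ h1
  have h5 := sq_mod8 (ch_odd h2)
  have h6 := mem_sqle.1 hb
  have h7 : M % 7 = 0 := by
    have h8 : ((M : ℕ) : ZMod 7) = 0 := by
      have : M = (M - b.natAbs ^ 2) + b.natAbs ^ 2 := by omega
      rw [this, Nat.cast_add, h4, cast_natAbs_sq]
      ring
    rw [ZMod.natCast_eq_zero_iff] at h8
    omega
  omega

theorem supp_Pj {c : ℕ → ZMod 7 → ℤ} (hs : Sup c) {j M : ℕ} (h : coeff M (Pj c j) ≠ 0) :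
    M % 56 = 28 := by
  rw [coeff_Pj] at h
  exact supp_aZ hs (by exact_mod_cast h)

/-- the support of a product -/
theorem supp_mul {A B : PowerSeries ℂ} (hA : ∀ n, coeff n A ≠ 0 → n % 56 = 28)
    (hB : ∀ n, coeff n B ≠ 0 → n % 56 = 28) (n : ℕ) (h : coeff n (A * B) ≠ 0) :
    56 ∣ n ∧ 56 ≤ n := by
  rw [coeff_mul] at h
  obtain ⟨p, hp, hne⟩ := Finset.exists_ne_zero_of_sum_ne_zero h
  have h1 := hA _ (left_ne_zero_of_mul hne)
  have h2 := hB _ (right_ne_zero_of_mul hne)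
  rw [Finset.HasAntidiagonal.mem_antidiagonal] at hp
  omega

theorem coeff56_mul {A B : PowerSeries ℂ} (hA : ∀ n, coeff n A ≠ 0 → n % 56 = 28)
    (hB : ∀ n, coeff n B ≠ 0 → n % 56 = 28) :
    coeff 56 (A * B) = coeff 28 A * coeff 28 B := by
  rw [coeff_mul, Finset.sum_eq_single (28, 28)]
  · intro p hp hne
    by_contra h
    have h1 := hA _ (left_ne_zero_of_mul h)
    have h2 := hB _ (right_ne_zero_of_mul h)
    rw [Finset.HasAntidiagonal.mem_antidiagonal] at hp
    apply hne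
    ext
    · show p.1 = 28
      omega
    · show p.2 = 28
      omega
  · intro h
    exfalso
    apply h
    rw [Finset.HasAntidiagonal.mem_antidiagonal]
    show 28 + 28 = 56
    norm_num

/-- vanishing of a form of low weight -/
theorem van (hl : S_LV1) {A : PowerSeries ℂ} (hA : PG A) (hsup : ∀ n, coeff n A ≠ 0 → n % 56 = 28)
    {w : ℕ} (hw : w < 6) {σ : ℂ} (hσ : σ ^ 2 = 1)
    (ht : ∀ z : ℂ, 0 < z.im → ev A (-1 / z) = σ * z ^ w * ev A z) : A = 0 := by
  have h := lv hl (2 * w) (even_two_mul w) (hA.mul hA)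
    (fun n hn => (supp_mul hsup hsup n hn).1) ?_ ?_
  · exact mul_self_eq_zero.1 h
  · intro z hz
    rw [ev_mul hA hA hz, ev_mul hA hA (im_neg_inv hz), ht z hz]
    have : z ^ (2 * w) = (z ^ w) ^ 2 := by rw [← pow_mul, mul_comm]
    rw [this]
    linear_combination (z ^ w) ^ 2 * ev A z ^ 2 * hσ
  · intro m hm
    have hm0 : m = 0 := by omega
    by_contra hne
    have := (supp_mul hsup hsup _ hne).2
    omega

/-- the theta series with the weight `b^(2j)` -/
def Tj (j : ℕ) (β : ZMod 7) : PowerSeries ℂ := sq fun b => (b : ℂ) ^ (2 * j) * gg β b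

theorem Tj_pg (j : ℕ) (β : ZMod 7) : PG (Tj j β) := (gj_pgz j β).pg

theorem Tj_zero (β : ZMod 7) : Tj 0 β = tau β := by
  rw [Tj, tau]
  congr 1
  funext b
  simp

/-- `2 π i / 56` -/
def om56 : ℂ := 2 * Real.pi * Complex.I / 56

theorem om56_ne : om56 ≠ 0 := by
  have := Real.pi_ne_zero
  have h2 : (Real.pi : ℂ) ≠ 0 := by exact_mod_cast this
  rw [om56]
  have := Complex.I_ne_zero
  simp [h2]

theorem Tj_deriv (j : ℕ) (β : ZMod 7) {z : ℂ} (hz : 0 < z.im) :
    HasDerivAt (ev (Tj j β)) (om56 * ev (Tj (j + 1) β) z) z := by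
  have h := hasDerivAt_ev (Tj_pg j β) hz
  rw [Tj, th_gj] at h
  exact h

theorem ev_Pj {c : ℕ → ZMod 7 → ℤ} (h : VV c) (j : ℕ) {z : ℂ} (hz : 0 < z.im) :
    ev (Pj c j) z = ∑ β : ZMod 7, ev (Cs c β) z * ev (Tj j β) z := by
  rw [Pj, ev_sum _ (fun β _ => (Cs_pg h β).mul (gj_pgz j β).pg) hz]
  refine Finset.sum_congr rfl fun β _ => ?_
  exact ev_mul (Cs_pg h β) (Tj_pg j β) hz

/-- the transformations of the three products -/
theorem Pj_tr (h1 : S_TH1) {c : ℕ → ZMod 7 → ℤ} (h : VV c) {κ : ℂ}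
    (hκ : TrF (fun β => ev (Cs c β)) κ) {z : ℂ} (hz : 0 < z.im) :
    ev (Pj c 0) (-1 / z) = -(7 * κ * mu) * z ^ 2 * ev (Pj c 0) z ∧
    om56 * ev (Pj c 1) (-1 / z) = -(7 * κ * mu) * z ^ 2 *
      (z ^ 2 * (om56 * ev (Pj c 1) z) + z / 2 * ev (Pj c 0) z) ∧
    om56 ^ 2 * ev (Pj c 2) (-1 / z) = -(7 * κ * mu) * z ^ 2 *
      (z ^ 4 * (om56 ^ 2 * ev (Pj c 2) z) + 3 * z ^ 3 * (om56 * ev (Pj c 1) z) +
        3 / 4 * z ^ 2 * ev (Pj c 0) z) := by
  have hz' := im_neg_inv hz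
  have t0 : TrH (fun β => ev (Tj 0 β)) (fun β => ev (Tj 0 β)) mu := by
    simp only [Tj_zero]
    exact tau_tr h1
  have d0 : ∀ β z, 0 < z.im → HasDerivAt (ev (Tj 0 β)) (om56 * ev (Tj 1 β) z) z :=
    fun β z hz => Tj_deriv 0 β hz
  have d1 : ∀ β z, 0 < z.im → HasDerivAt (fun z => om56 * ev (Tj 1 β) z)
      (om56 * (om56 * ev (Tj 2 β) z)) z := fun β z hz => (Tj_deriv 1 β hz).const_mul _
  have t1 := t0.deriv (G' := fun β z => om56 * ev (Tj 1 β) z)
    (H' := fun β z => om56 * ev (Tj 1 β) z) d0 d0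
  have e1 : ∀ β z, 0 < z.im → HasDerivAt (fun z => z ^ 2 * (om56 * ev (Tj 1 β) z) +
      z / 2 * ev (Tj 0 β) z) (2 * z * (om56 * ev (Tj 1 β) z) +
        z ^ 2 * (om56 * (om56 * ev (Tj 2 β) z)) +
        (1 / 2 * ev (Tj 0 β) z + z / 2 * (om56 * ev (Tj 1 β) z))) z := by
    intro β z hz
    have a1 : HasDerivAt (fun z : ℂ => z ^ 2) (2 * z) z := by
      simpa using hasDerivAt_pow 2 z
    have a2 : HasDerivAt (fun z : ℂ => z / 2) (1 / 2) z := (hasDerivAt_id z).div_const 2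
    exact (a1.mul (d1 β z hz)).add (a2.mul (d0 β z hz))
  have t2 := t1.deriv (G' := fun β z => om56 * (om56 * ev (Tj 2 β) z))
    (H' := fun β z => 2 * z * (om56 * ev (Tj 1 β) z) +
        z ^ 2 * (om56 * (om56 * ev (Tj 2 β) z)) +
        (1 / 2 * ev (Tj 0 β) z + z / 2 * (om56 * ev (Tj 1 β) z))) d1 e1
  have p0 := pair hκ t0 hz
  have p1 := pair hκ t1 hz
  have p2 := pair hκ t2 hz
  rw [ev_Pj h 0 hz, ev_Pj h 0 hz', ev_Pj h 1 hz, ev_Pj h 1 hz', ev_Pj h 2 hz, ev_Pj h 2 hz']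
  refine ⟨p0, ?_, ?_⟩
  · have q1 : om56 * ∑ β : ZMod 7, ev (Cs c β) (-1 / z) * ev (Tj 1 β) (-1 / z) =
        ∑ β : ZMod 7, ev (Cs c β) (-1 / z) * (om56 * ev (Tj 1 β) (-1 / z)) := by
      rw [Finset.mul_sum]
      exact Finset.sum_congr rfl fun β _ => by ring
    rw [q1, p1]
    congr 1
    simp only [Finset.mul_sum]
    rw [← Finset.sum_add_distrib]
    exact Finset.sum_congr rfl fun β _ => by ring
  · have q1 : om56 ^ 2 * ∑ β : ZMod 7, ev (Cs c β) (-1 / z) * ev (Tj 2 β) (-1 / z) =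
        ∑ β : ZMod 7, ev (Cs c β) (-1 / z) * (om56 * (om56 * ev (Tj 2 β) (-1 / z))) := by
      rw [Finset.mul_sum]
      exact Finset.sum_congr rfl fun β _ => by ring
    rw [q1, p2]
    congr 1
    simp only [Finset.mul_sum]
    rw [← Finset.sum_add_distrib, ← Finset.sum_add_distrib]
    exact Finset.sum_congr rfl fun β _ => by ring

/-- the analytic information about one sequence -/
theorem ana (h1 : S_TH1) (hl : S_LV1) {c : ℕ → ZMod 7 → ℤ} (h : VV c) (hs : Sup c)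
    (hne : ∃ n β, c n β ≠ 0) : Pj c 0 = 0 ∧ Pj c 1 = 0 ∧ ∀ z : ℂ, 0 < z.im →
      ev (Pj c 2) (-1 / z) ^ 2 = z ^ 12 * ev (Pj c 2) z ^ 2 := by
  obtain ⟨κ, hκ⟩ := Cs_tr h
  have hk := kappa_sq hl h hs hκ hne
  have hσ : (-(7 * κ * mu)) ^ 2 = 1 := by
    have : (-(7 * κ * mu)) ^ 2 = 49 * κ ^ 2 * mu ^ 2 := by ring
    rw [this, hk, mu_sq]
    norm_num
  have P0 : Pj c 0 = 0 := van hl (Pj_pg h 0) (fun n hn => supp_Pj hs hn) (w := 2) (by norm_num) hσ
    fun z hz => (Pj_tr h1 h hκ hz).1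
  have P1 : Pj c 1 = 0 := van hl (Pj_pg h 1) (fun n hn => supp_Pj hs hn) (w := 4) (by norm_num) hσ
    fun z hz => by
      have := (Pj_tr h1 h hκ hz).2.1
      rw [P0, ev_zero] at this
      have h2 := om56_ne
      apply mul_left_cancel₀ h2
      linear_combination this
  refine ⟨P0, P1, fun z hz => ?_⟩
  have := (Pj_tr h1 h hκ hz).2.2
  rw [P0, P1, ev_zero] at this
  have h2 := om56_ne
  have h3 : ev (Pj c 2) (-1 / z) = -(7 * κ * mu) * z ^ 6 * ev (Pj c 2) z := by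
    apply mul_left_cancel₀ (pow_ne_zero 2 h2)
    linear_combination this
  rw [h3]
  linear_combination z ^ 12 * ev (Pj c 2) z ^ 2 * hσ

/-! ### the combinatorial part -/

/-- the value of `aZ` when the terms with `|b| ≥ 7` vanish -/
theorem aZ_red {c : ℕ → ZMod 7 → ℤ} (hs : Sup c) {j M : ℕ} (hM : 28 ≤ M)
    (h : ∀ b : ℤ, 7 ≤ b.natAbs → b.natAbs ^ 2 ≤ M →
      c (M - b.natAbs ^ 2) (b : ZMod 7) * ch b = 0) :
    aZ c j M = 2 * (c (M - 1) 1 - 9 ^ j * c (M - 9) 3 + 25 ^ j * c (M - 25) 5) := by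
  have h1 : aZ c j M = ∑ b ∈ Finset.Icc (-5 : ℤ) 5,
      c (M - b.natAbs ^ 2) (b : ZMod 7) * (ch b * b ^ (2 * j)) := by
    rw [aZ]
    symm
    refine Finset.sum_subset ?_ ?_
    · intro b hb
      rw [Finset.mem_Icc] at hb
      rw [mem_sqle]
      have : b.natAbs ≤ 5 := by omega
      have : b.natAbs ^ 2 ≤ 5 ^ 2 := Nat.pow_le_pow_left this 2
      omega
    · intro b hb hb5
      rw [mem_sqle] at hb
      rw [Finset.mem_Icc] at hb5
      have h6 : b.natAbs = 6 ∨ 7 ≤ b.natAbs := by omega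
      rcases h6 with h6 | h6
      · have : ch b = 0 := by
          by_contra h7
          have := ch_odd h7
          omega
        rw [this]
        ring
      · have := h b h6 hb
        rw [← mul_assoc, this, zero_mul]
  have hI : Finset.Icc (-5 : ℤ) 5 = {-5, -4, -3, -2, -1, 0, 1, 2, 3, 4, 5} := by decide
  have o1 : c (M - 1) ((-1 : ℤ) : ZMod 7) = -c (M - 1) 1 := by
    rw [← hs.odd]; rfl
  have o3 : c (M - 9) ((-3 : ℤ) : ZMod 7) = -c (M - 9) 3 := by
    rw [← hs.odd]; rfl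
  have o5 : c (M - 25) ((-5 : ℤ) : ZMod 7) = -c (M - 25) 5 := by
    rw [← hs.odd]; rfl
  have k0 : ch 0 = 0 := by decide
  have k1 : ch 1 = 1 := by decide
  have k2 : ch 2 = 0 := by decide
  have k3 : ch 3 = -1 := by decide
  have k4 : ch 4 = 0 := by decide
  have k5 : ch 5 = 1 := by decide
  have m1 : ch (-1) = -1 := by decide
  have m2 : ch (-2) = 0 := by decide
  have m3 : ch (-3) = 1 := by decide
  have m4 : ch (-4) = 0 := by decide
  have m5 : ch (-5) = -1 := by decide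
  have n1 : (-1 : ℤ).natAbs ^ 2 = 1 := by decide
  have n3 : (-3 : ℤ).natAbs ^ 2 = 9 := by decide
  have n5 : (-5 : ℤ).natAbs ^ 2 = 25 := by decide
  have r1 : (1 : ℤ).natAbs ^ 2 = 1 := by decide
  have r3 : (3 : ℤ).natAbs ^ 2 = 9 := by decide
  have r5 : (5 : ℤ).natAbs ^ 2 = 25 := by decide
  rw [h1, hI]
  rw [Finset.sum_insert (by decide), Finset.sum_insert (by decide), Finset.sum_insert (by decide),
    Finset.sum_insert (by decide), Finset.sum_insert (by decide), Finset.sum_insert (by decide),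
    Finset.sum_insert (by decide), Finset.sum_insert (by decide), Finset.sum_insert (by decide),
    Finset.sum_insert (by decide), Finset.sum_singleton]
  rw [k0, k1, k2, k3, k4, k5, m1, m2, m3, m4, m5, n1, n3, n5, r1, r3, r5, o1, o3, o5]
  have q1 : (-1 : ℤ) ^ (2 * j) = 1 := by rw [pow_mul]; norm_num
  have q3 : (-3 : ℤ) ^ (2 * j) = 9 ^ j := by rw [pow_mul]; norm_num
  have q5 : (-5 : ℤ) ^ (2 * j) = 25 ^ j := by rw [pow_mul]; norm_num
  have s3 : (3 : ℤ) ^ (2 * j) = 9 ^ j := by rw [pow_mul]; norm_num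
  have s5 : (5 : ℤ) ^ (2 * j) = 25 ^ j := by rw [pow_mul]; norm_num
  rw [q1, q3, q5, s3, s5]
  push_cast
  ring

/-- `c = 0` if `aZ c j = 0` for `j = 0, 1, 2` -/
theorem comb {c : ℕ → ZMod 7 → ℤ} (hs : Sup c)
    (h : ∀ j M : ℕ, j < 3 → aZ c j M = 0) (n : ℕ) (β : ZMod 7) : c n β = 0 := by
  have h0 : ∀ n, c n 0 = 0 := by
    intro n
    have := hs.odd n 0
    rw [neg_zero] at this
    omega
  have key : ∀ M : ℕ, M % 56 = 28 → c (M - 1) 1 = 0 ∧ c (M - 9) 3 = 0 ∧ c (M - 25) 5 = 0 := by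
    intro M
    induction M using Nat.strong_induction_on with
    | _ M ih =>
      intro hM
      have hred : ∀ b : ℤ, 7 ≤ b.natAbs → b.natAbs ^ 2 ≤ M →
          c (M - b.natAbs ^ 2) (b : ZMod 7) * ch b = 0 := by
        intro b hb hbM
        by_cases hc : ch b = 0
        · rw [hc, mul_zero]
        have hodd := ch_odd hc
        have h8 := sq_mod8 hodd
        have hB : 49 ≤ b.natAbs ^ 2 := by
          have : 7 ^ 2 ≤ b.natAbs ^ 2 := Nat.pow_le_pow_left hb 2
          omega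
        have h7 : b.natAbs ^ 2 % 7 = (b.natAbs % 7) ^ 2 % 7 := by rw [Nat.pow_mod]
        have hcast : (b : ZMod 7) = ((b % 7 : ℤ) : ZMod 7) := by
          exact (ZMod.intCast_mod b 7).symm
        have hr : b % 7 = 0 ∨ b % 7 = 1 ∨ b % 7 = 2 ∨ b % 7 = 3 ∨ b % 7 = 4 ∨ b % 7 = 5 ∨
            b % 7 = 6 := by omega
        have hcase : ∀ (s : ℕ) (γ : ZMod 7), b.natAbs ^ 2 % 7 = s % 7 → s % 8 = 1 → s ≤ 25 →
            (∀ M', M' < M → M' % 56 = 28 → c (M' - s) γ = 0) → c (M - b.natAbs ^ 2) γ = 0 := by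
          intro s γ hs7 hs8 hs25 hz
          have h56 : b.natAbs ^ 2 % 56 = s % 56 := by omega
          have := hz (M - b.natAbs ^ 2 + s) (by omega) (by omega)
          rwa [Nat.add_sub_cancel] at this
        have hneg : ∀ n (γ : ZMod 7), c n γ = 0 → c n (-γ) = 0 := by
          intro n γ hγ
          rw [hs.odd, hγ, neg_zero]
        have hres : c (M - b.natAbs ^ 2) (b : ZMod 7) = 0 := by
          rw [hcast]
          rcases hr with hr | hr | hr | hr | hr | hr | hr <;> rw [hr]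
          · exact h0 _
          · have h9 : b.natAbs ^ 2 % 7 = 1 := by
              have : b.natAbs % 7 = 1 ∨ b.natAbs % 7 = 6 := by omega
              rcases this with h | h <;> rw [h7, h] <;> norm_num
            exact hcase 1 1 h9 rfl (by norm_num) fun M' hM' h' => (ih M' hM' h').1
          · have h9 : b.natAbs ^ 2 % 7 = 4 := by
              have : b.natAbs % 7 = 2 ∨ b.natAbs % 7 = 5 := by omega
              rcases this with h | h <;> rw [h7, h] <;> norm_num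
            exact hneg _ 5 (hcase 25 5 h9 rfl (by norm_num) fun M' hM' h' => (ih M' hM' h').2.2)
          · have h9 : b.natAbs ^ 2 % 7 = 2 := by
              have : b.natAbs % 7 = 3 ∨ b.natAbs % 7 = 4 := by omega
              rcases this with h | h <;> rw [h7, h] <;> norm_num
            exact hcase 9 3 h9 rfl (by norm_num) fun M' hM' h' => (ih M' hM' h').2.1
          · have h9 : b.natAbs ^ 2 % 7 = 2 := by
              have : b.natAbs % 7 = 3 ∨ b.natAbs % 7 = 4 := by omega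
              rcases this with h | h <;> rw [h7, h] <;> norm_num
            exact hneg _ 3 (hcase 9 3 h9 rfl (by norm_num) fun M' hM' h' => (ih M' hM' h').2.1)
          · have h9 : b.natAbs ^ 2 % 7 = 4 := by
              have : b.natAbs % 7 = 2 ∨ b.natAbs % 7 = 5 := by omega
              rcases this with h | h <;> rw [h7, h] <;> norm_num
            exact hcase 25 5 h9 rfl (by norm_num) fun M' hM' h' => (ih M' hM' h').2.2
          · have h9 : b.natAbs ^ 2 % 7 = 1 := by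
              have : b.natAbs % 7 = 1 ∨ b.natAbs % 7 = 6 := by omega
              rcases this with h | h <;> rw [h7, h] <;> norm_num
            exact hneg _ 1 (hcase 1 1 h9 rfl (by norm_num) fun M' hM' h' => (ih M' hM' h').1)
        rw [hres, zero_mul]
      have hM28 : 28 ≤ M := by omega
      have a0 := aZ_red hs (j := 0) hM28 hred
      have a1 := aZ_red hs (j := 1) hM28 hred
      have a2 := aZ_red hs (j := 2) hM28 hred
      rw [h _ _ (by norm_num)] at a0 a1 a2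
      norm_num at a0 a1 a2
      omega
  by_contra hne
  obtain ⟨h8, h7⟩ := hs.sup n β hne
  have hneg : ∀ n (γ : ZMod 7), c n γ = 0 → c n (-γ) = 0 := by
    intro n γ hγ
    rw [hs.odd, hγ, neg_zero]
  have hn7 : ∀ r : ℕ, (n : ZMod 7) = (r : ZMod 7) → n % 7 = r % 7 := by
    intro r hr
    exact (ZMod.natCast_eq_natCast_iff' n r 7).1 hr
  have hβ : β = 0 ∨ β = 1 ∨ β = 2 ∨ β = 3 ∨ β = 4 ∨ β = 5 ∨ β = 6 := by
    have : ∀ β : ZMod 7, β = 0 ∨ β = 1 ∨ β = 2 ∨ β = 3 ∨ β = 4 ∨ β = 5 ∨ β = 6 := by decide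
    exact this β
  rcases hβ with rfl | rfl | rfl | rfl | rfl | rfl | rfl
  · exact hne (h0 n)
  · have h9 := hn7 6 (h7.trans (by decide))
    apply hne
    have := (key (n + 1) (by omega)).1
    rwa [Nat.add_sub_cancel] at this
  · have h9 := hn7 3 (h7.trans (by decide))
    apply hne
    have := (key (n + 25) (by omega)).2.2
    rw [Nat.add_sub_cancel] at this
    exact hneg _ 5 this
  · have h9 := hn7 5 (h7.trans (by decide))
    apply hne
    have := (key (n + 9) (by omega)).2.1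
    rwa [Nat.add_sub_cancel] at this
  · have h9 := hn7 5 (h7.trans (by decide))
    apply hne
    have := (key (n + 9) (by omega)).2.1
    rw [Nat.add_sub_cancel] at this
    exact hneg _ 3 this
  · have h9 := hn7 3 (h7.trans (by decide))
    apply hne
    have := (key (n + 25) (by omega)).2.2
    rwa [Nat.add_sub_cancel] at this
  · have h9 := hn7 6 (h7.trans (by decide))
    apply hne
    have := (key (n + 1) (by omega)).1
    rw [Nat.add_sub_cancel] at this
    exact hneg _ 1 this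

/-- the leading coefficient -/
theorem lead {c : ℕ → ZMod 7 → ℤ} (hs : Sup c) (h0 : aZ c 0 28 = 0) (h1 : aZ c 1 28 = 0) :
    aZ c 2 28 = -768 * c 3 2 := by
  have hred : ∀ b : ℤ, 7 ≤ b.natAbs → b.natAbs ^ 2 ≤ 28 →
      c (28 - b.natAbs ^ 2) (b : ZMod 7) * ch b = 0 := by
    intro b hb hb2
    have : 7 ^ 2 ≤ b.natAbs ^ 2 := Nat.pow_le_pow_left hb 2
    omega
  have a0 := aZ_red hs (j := 0) le_rfl hred
  have a1 := aZ_red hs (j := 1) le_rfl hred
  have a2 := aZ_red hs (j := 2) le_rfl hred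
  rw [h0] at a0
  rw [h1] at a1
  rw [a2]
  have h5 : c 3 5 = -c 3 2 := by
    have := hs.odd 3 2
    rw [← this]
    rfl
  norm_num at a0 a1 ⊢
  rw [h5] at a0 a1 ⊢
  omega

end

end Pool.Agent.NH1.UOd

namespace Pool.Agent.NH1

open PowerSeries
open Pool.Agent.NH1.UT Pool.Agent.NH1.UOd

/-- NH1-07 -/
theorem t_UO (h1 : S_TH1) (h2 : S_LV1) : S_UO := by
  intro c c' hc hc' hs hs' ho ho' n β
  have S1 : Sup c := ⟨hs, ho⟩
  have S2 : Sup c' := ⟨hs', ho'⟩
  by_cases hne : ∃ n β, c n β ≠ 0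
  swap
  · push Not at hne
    rw [hne, hne]; ring
  by_cases hne' : ∃ n β, c' n β ≠ 0
  swap
  · push Not at hne'
    rw [hne', hne']; ring
  obtain ⟨p0, p1, p2⟩ := ana h1 h2 hc S1 hne
  obtain ⟨p0', p1', p2'⟩ := ana h1 h2 hc' S2 hne'
  have z0 : ∀ M, aZ c 0 M = 0 := fun M => by
    have := coeff_Pj c 0 M
    rw [p0, map_zero] at this
    exact_mod_cast this.symm
  have z1 : ∀ M, aZ c 1 M = 0 := fun M => by
    have := coeff_Pj c 1 M
    rw [p1, map_zero] at this
    exact_mod_cast this.symm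
  have z0' : ∀ M, aZ c' 0 M = 0 := fun M => by
    have := coeff_Pj c' 0 M
    rw [p0', map_zero] at this
    exact_mod_cast this.symm
  have z1' : ∀ M, aZ c' 1 M = 0 := fun M => by
    have := coeff_Pj c' 1 M
    rw [p1', map_zero] at this
    exact_mod_cast this.symm
  have l1 := lead S1 (z0 28) (z1 28)
  have l2 := lead S2 (z0' 28) (z1' 28)
  -- the two power series
  set X : PowerSeries ℂ := (c 3 2 : ℂ) • Pj c' 2 with hX
  set Y : PowerSeries ℂ := (c' 3 2 : ℂ) • Pj c 2 with hY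
  have XPG : PG X := (Pj_pg hc' 2).smul _
  have YPG : PG Y := (Pj_pg hc 2).smul _
  have Xs : ∀ n, coeff n X ≠ 0 → n % 56 = 28 := fun n hn => by
    rw [hX, map_smul, smul_eq_mul] at hn
    exact supp_Pj S2 (right_ne_zero_of_mul hn)
  have Ys : ∀ n, coeff n Y ≠ 0 → n % 56 = 28 := fun n hn => by
    rw [hY, map_smul, smul_eq_mul] at hn
    exact supp_Pj S1 (right_ne_zero_of_mul hn)
  have X28 : coeff 28 X = -768 * (c 3 2 : ℂ) * (c' 3 2 : ℂ) := by
    rw [hX, map_smul, smul_eq_mul, coeff_Pj, l2]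
    push_cast
    ring
  have Y28 : coeff 28 Y = -768 * (c 3 2 : ℂ) * (c' 3 2 : ℂ) := by
    rw [hY, map_smul, smul_eq_mul, coeff_Pj, l1]
    push_cast
    ring
  have hR : X * X - Y * Y = 0 := by
    refine lv h2 12 (by decide) ((XPG.mul XPG).sub (YPG.mul YPG)) ?_ ?_ ?_
    · intro n hn
      rw [map_sub] at hn
      by_cases h : coeff n (X * X) = 0
      · have : coeff n (Y * Y) ≠ 0 := by
          intro h'
          apply hn
          rw [h, h', sub_zero]
        exact (supp_mul Ys Ys n this).1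
      · exact (supp_mul Xs Xs n h).1
    · intro z hz
      have hz' := im_neg_inv hz
      rw [ev_sub (XPG.mul XPG) (YPG.mul YPG) hz, ev_sub (XPG.mul XPG) (YPG.mul YPG) hz',
        ev_mul XPG XPG hz, ev_mul XPG XPG hz', ev_mul YPG YPG hz, ev_mul YPG YPG hz']
      simp only [hX, hY, ev_smul]
      linear_combination (c 3 2 : ℂ) ^ 2 * p2' z hz - (c' 3 2 : ℂ) ^ 2 * p2 z hz
    · intro m hm
      have hm' : m = 0 ∨ m = 1 := by omega
      rcases hm' with rfl | rfl
      · by_contra hn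
        rw [map_sub] at hn
        by_cases h : coeff (56 * 0) (X * X) = 0
        · have : coeff (56 * 0) (Y * Y) ≠ 0 := by
            intro h'
            apply hn
            rw [h, h', sub_zero]
          have := (supp_mul Ys Ys _ this).2
          omega
        · have := (supp_mul Xs Xs _ h).2
          omega
      · show coeff 56 (X * X - Y * Y) = 0
        rw [map_sub, coeff56_mul Xs Xs, coeff56_mul Ys Ys, X28, Y28, sub_self]
  have hXY : X = Y := by
    have h3 : (X - Y) * (X + Y) = 0 := by rw [← hR]; ring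
    rcases mul_eq_zero.1 h3 with h | h
    · exact sub_eq_zero.1 h
    · have h4 : coeff 28 X + coeff 28 Y = 0 := by rw [← map_add, h, map_zero]
      rw [X28, Y28] at h4
      have h5 : (c 3 2 : ℂ) * (c' 3 2 : ℂ) = 0 := by linear_combination h4 / (-1536)
      rcases mul_eq_zero.1 h5 with h6 | h6
      · have : X = 0 := by rw [hX, h6, zero_smul]
        rw [this, zero_add] at h
        rw [this, h]
      · have : Y = 0 := by rw [hY, h6, zero_smul]
        rw [this, add_zero] at h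
        rw [this, h]
  -- the difference
  let d : ℕ → ZMod 7 → ℤ := fun n β => c 3 2 * c' n β - c' 3 2 * c n β
  have Sd : Sup d := by
    refine ⟨fun n β hn => ?_, fun n β => ?_⟩
    · by_cases h : c n β = 0
      · have : c' n β ≠ 0 := by
          intro h'
          apply hn
          show c 3 2 * c' n β - c' 3 2 * c n β = 0
          rw [h, h']; ring
        exact hs' n β this
      · exact hs n β h
    · show c 3 2 * c' n (-β) - c' 3 2 * c n (-β) = -(c 3 2 * c' n β - c' 3 2 * c n β)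
      rw [ho, ho']; ring
  have ad : ∀ j M, aZ d j M = c 3 2 * aZ c' j M - c' 3 2 * aZ c j M := by
    intro j M
    rw [aZ, aZ, aZ, Finset.mul_sum, Finset.mul_sum, ← Finset.sum_sub_distrib]
    exact Finset.sum_congr rfl fun b _ => by ring
  have hd := comb Sd (fun j M hj => by
    rw [ad]
    have hj' : j = 0 ∨ j = 1 ∨ j = 2 := by omega
    rcases hj' with rfl | rfl | rfl
    · rw [z0, z0']; ring
    · rw [z1, z1']; ring
    · have h4 : coeff M X = coeff M Y := by rw [hXY]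
      rw [hX, hY, map_smul, map_smul, smul_eq_mul, smul_eq_mul, coeff_Pj, coeff_Pj] at h4
      have h5 : c 3 2 * aZ c' 2 M = c' 3 2 * aZ c 2 M := by exact_mod_cast h4
      rw [h5, sub_self]) n β
  have h6 : c 3 2 * c' n β - c' 3 2 * c n β = 0 := hd
  linarith

end Pool.Agent.NH1
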