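import Pool.Agent.NH1.V4c

/-!
# Project NH1, V4: the sums of the characters over all vectors of a given norm vanish
-/

set_option autoImplicit false

namespace Pool.Agent.NH1.VF

open Finset Matrix
open PowerSeries (coeff rescale)
open Pool.Agent.Z700 (V3 vec pr)

noncomputable section

theorem ph_abs (h1 : S_PHI) {p : ℕ} (hp : p.Prime) (h2 : p ≠ 2) (v : Fin 3 → ZMod p) :
    |ph p v| ≤ 1 := by
  by_cases h : v ⬝ᵥ v ≠ 0 ∨ v = 0
  · rw [(ph_spec h1 hp h2).zero v h]; norm_num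
  · push Not at h
    rcases (ph_spec h1 hp h2).pm v h.1 h.2 with h3 | h3 <;> rw [h3] <;> norm_num

theorem Ph_abs (h1 : S_PHI) {P : Finset ℕ} (hP : ∀ p ∈ P, p.Prime ∧ p ≠ 2) (v : V3) :
    |Ph P v| ≤ 1 := by
  unfold Ph
  rw [Finset.abs_prod]
  exact Finset.prod_le_one (fun _ _ => abs_nonneg _) fun p hp => ph_abs h1 (hP p hp).1 (hP p hp).2 _

theorem Ph_dvd (h1 : S_PHI) {P : Finset ℕ} (hP : ∀ p ∈ P, p.Prime ∧ p ≠ 2) {v : V3}
    (h : Ph P v ≠ 0) : ((pr P : ℕ) : ℤ) ∣ v ⬝ᵥ v := by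
  have h2 : ∀ p ∈ P, ph p (rd p v) ≠ 0 := Finset.prod_ne_zero_iff.1 h
  have h3 : ∀ p ∈ P, ((p : ℕ) : ℤ) ∣ v ⬝ᵥ v := by
    intro p hp
    by_contra hn
    apply h2 p hp
    apply (ph_spec h1 (hP p hp).1 (hP p hp).2).zero
    left
    intro h0
    apply hn
    rw [← ZMod.intCast_zmod_eq_zero_iff_dvd, ← h0]
    simp [dotProduct, rd]
  unfold Pool.Agent.Z700.pr
  push_cast
  refine Finset.prod_dvd_of_coprime ?_ h3
  intro p hp q hq hpq
  show IsCoprime ((p : ℕ) : ℤ) ((q : ℕ) : ℤ)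
  rw [Nat.isCoprime_iff_coprime]
  exact (Nat.coprime_primes (hP p hp).1 (hP q hq).1).2 hpq

theorem Ph_zero (h1 : S_PHI) {P : Finset ℕ} (hP : ∀ p ∈ P, p.Prime ∧ p ≠ 2) (hne : P.Nonempty) :
    Ph P 0 = 0 := by
  obtain ⟨p, hp⟩ := hne
  refine Finset.prod_eq_zero hp ?_
  apply (ph_spec h1 (hP p hp).1 (hP p hp).2).zero
  right
  funext i
  simp [rd]

/-- the sums over the vectors of norm `pr P * n` -/
def Sn (P : Finset ℕ) (n : ℕ) : ℤ := ∑ v ∈ vec ((pr P * n : ℕ) : ℤ), Ph P v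

theorem Sn_zero (h1 : S_PHI) {P : Finset ℕ} (hP : ∀ p ∈ P, p.Prime ∧ p ≠ 2) (hne : P.Nonempty) :
    Sn P 0 = 0 := by
  unfold Sn
  refine Finset.sum_eq_zero fun v hv => ?_
  rw [mem_vec, mul_zero, dot3] at hv
  have h0 : v = 0 := by
    funext i
    have a := mul_self_nonneg (v 0)
    have b := mul_self_nonneg (v 1)
    have c := mul_self_nonneg (v 2)
    push_cast at hv
    have a' : v 0 * v 0 = 0 := by linarith
    have b' : v 1 * v 1 = 0 := by linarith
    have c' : v 2 * v 2 = 0 := by linarith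
    fin_cases i
    · exact mul_self_eq_zero.1 a'
    · exact mul_self_eq_zero.1 b'
    · exact mul_self_eq_zero.1 c'
  rw [h0, Ph_zero h1 hP hne]

theorem Sn_bound (h1 : S_PHI) {P : Finset ℕ} (hP : ∀ p ∈ P, p.Prime ∧ p ≠ 2) :
    ∃ C k : ℕ, ∀ n : ℕ, ‖((Sn P n : ℤ) : ℂ)‖ ≤ (C : ℝ) * ((n : ℝ) + 1) ^ k := by
  refine ⟨(2 * pr P + 1) ^ 3, 3, fun n => ?_⟩
  rw [Complex.norm_intCast]
  have h2 : |Sn P n| ≤ ((vec ((pr P * n : ℕ) : ℤ)).card : ℤ) := by
    unfold Sn
    refine (Finset.abs_sum_le_sum_abs _ _).trans ?_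
    refine (Finset.sum_le_sum fun v _ => Ph_abs h1 hP v).trans ?_
    simp
  have h3 := card_vec_le (pr P * n)
  have h4 : (|(Sn P n : ℝ)|) ≤ ((vec ((pr P * n : ℕ) : ℤ)).card : ℝ) := by exact_mod_cast h2
  refine h4.trans (h3.trans ?_)
  push_cast
  rw [← mul_pow]
  have h5 : (0 : ℝ) ≤ (pr P : ℝ) := Nat.cast_nonneg _
  have h6 : (0 : ℝ) ≤ (n : ℝ) := Nat.cast_nonneg _
  gcongr
  nlinarith

/-- the value of `X4 g` in terms of the variable `z` -/
theorem ev_X4_exp (g : ℕ → ℂ) (z : ℂ) : ev (X4 g) (Complex.exp (2 * Real.pi * Complex.I * z / 8)) =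
    ∑' n : ℕ, g n * Complex.exp (Real.pi * Complex.I * (n : ℂ) * z) := by
  rw [ev_X4]
  refine tsum_congr fun n => ?_
  rw [← Complex.exp_nat_mul, ← Complex.exp_nat_mul]
  congr 2
  push_cast
  ring

/-- uniqueness of the coefficients -/
theorem zero_of (LV : S_LV1) (g : ℕ → ℂ)
    (hb : ∃ C k : ℕ, ∀ n : ℕ, ‖g n‖ ≤ (C : ℝ) * ((n : ℝ) + 1) ^ k) (h0 : g 0 = 0)
    (h : ∀ z : ℂ, 0 < z.im → ev (X4 g) (Complex.exp (2 * Real.pi * Complex.I * z / 8)) = 0) :
    ∀ n, g n = 0 := by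
  have key : ∀ z : ℂ, 0 < z.im →
      ∑' n : ℕ, g n * Complex.exp (2 * Real.pi * Complex.I * n * z) = 0 := by
    intro z hz
    have h1 := h (2 * z) (by
      rw [Complex.mul_im]
      simp
      linarith)
    rw [ev_X4_exp] at h1
    rw [← h1]
    refine tsum_congr fun n => ?_
    congr 2
    ring
  refine LV 0 g (by decide) hb ?_ ?_
  · intro z hz
    have hz' : 0 < (-1 / z).im := by
      have hne : z ≠ 0 := by
        rintro rfl
        simp at hz
      rw [neg_div, one_div, Complex.neg_im, Complex.inv_im, neg_div, neg_neg]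
      exact div_pos hz (Complex.normSq_pos.2 hne)
    rw [key z hz, key _ hz', mul_zero]
  · intro n hn
    have : n = 0 := by omega
    rw [this, h0]

theorem im_S {z : ℂ} (hz : 0 < z.im) : 0 < (-1 / z).im := by
  have hne : z ≠ 0 := by
    rintro rfl
    simp at hz
  rw [neg_div, one_div, Complex.neg_im, Complex.inv_im, neg_div, neg_neg]
  exact div_pos hz (Complex.normSq_pos.2 hne)

theorem ne_of_im {z : ℂ} (hz : 0 < z.im) : z ≠ 0 := by
  rintro rfl
  simp at hz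

/-- the eighth power of the automorphy factor -/
theorem cp8 (x : ℂ) : (x ^ ((3 : ℂ) / 2)) ^ 8 = x ^ 12 := by
  rw [← Complex.cpow_nat_mul, ← Complex.cpow_natCast]
  congr 1
  norm_num

theorem cast_val (N : ℕ) [NeZero N] (v : V3) (i : Fin 3) :
    (N : ℤ) ∣ ((((v i : ZMod N)).val : ℕ) : ℤ) - v i := by
  rw [ZMod.val_intCast]
  have := Int.emod_add_mul_ediv (v i) N
  exact ⟨-(v i / N), by linarith⟩

theorem sgPh_abs (h1 : S_PHI) {P : Finset ℕ} (hP : ∀ p ∈ P, p.Prime ∧ p ≠ 2) (v : V3) :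
    |sg v * Ph P v| ≤ 1 := by
  rw [abs_mul]
  have : |sg v| = 1 := by unfold sg; split_ifs <;> rfl
  rw [this, one_mul]
  exact Ph_abs h1 hP v

theorem odPh_abs (h1 : S_PHI) {P : Finset ℕ} (hP : ∀ p ∈ P, p.Prime ∧ p ≠ 2) (v : V3) :
    |od v * Ph P v| ≤ 1 := by
  rw [abs_mul]
  have h2 := Ph_abs h1 hP v
  have h3 := abs_nonneg (Ph P v)
  have : |od v| = 1 ∨ |od v| = 0 := by unfold od; split_ifs <;> simp
  rcases this with h | h <;> rw [h] <;> linarith

theorem sum_sg {P : Finset ℕ} (hodd : pr P % 2 = 1) (n : ℕ) :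
    ∑ v ∈ vec ((pr P * n : ℕ) : ℤ), sg v * Ph P v = (-1) ^ n * Sn P n := by
  unfold Sn
  rw [Finset.mul_sum]
  refine Finset.sum_congr rfl fun v hv => ?_
  rw [mem_vec, dot3] at hv
  congr 1
  have h2 : (v 0 + v 1 + v 2) % 2 = (n : ℤ) % 2 := by
    have a : ∀ x : ℤ, (x * x) % 2 = x % 2 := by
      intro x
      rcases Int.emod_two_eq_zero_or_one x with h | h <;> simp [Int.mul_emod, h]
    have b : (v 0 * v 0 + v 1 * v 1 + v 2 * v 2) % 2 = ((pr P * n : ℕ) : ℤ) % 2 := by rw [hv]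
    have c : ((pr P * n : ℕ) : ℤ) % 2 = (n : ℤ) % 2 := by
      have : pr P * n % 2 = n % 2 := by rw [Nat.mul_mod, hodd]; simp
      omega
    have a0 := a (v 0)
    have a1 := a (v 1)
    have a2 := a (v 2)
    omega
  unfold sg
  rw [h2]
  rcases Nat.even_or_odd n with h | h
  · rw [if_pos (by have := Nat.even_iff.1 h; omega), h.neg_one_pow]
  · rw [if_neg (by have := Nat.odd_iff.1 h; omega), h.neg_one_pow]

theorem sq8 (x : ℤ) : x * x % 8 = if x % 2 = 1 then 1 else if x % 4 = 0 then 0 else 4 := by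
  have h : x % 8 = 0 ∨ x % 8 = 1 ∨ x % 8 = 2 ∨ x % 8 = 3 ∨ x % 8 = 4 ∨ x % 8 = 5 ∨ x % 8 = 6 ∨
    x % 8 = 7 := by omega
  have h2 : x * x % 8 = (x % 8) * (x % 8) % 8 := Int.mul_emod x x 8
  rw [h2]
  rcases h with h | h | h | h | h | h | h | h <;> rw [h]
  · rw [if_neg (by omega), if_pos (by omega)]; rfl
  · rw [if_pos (by omega)]; rfl
  · rw [if_neg (by omega), if_neg (by omega)]; rfl
  · rw [if_pos (by omega)]; rfl
  · rw [if_neg (by omega), if_pos (by omega)]; rfl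
  · rw [if_pos (by omega)]; rfl
  · rw [if_neg (by omega), if_neg (by omega)]; rfl
  · rw [if_pos (by omega)]; rfl

theorem od_iff (v : V3) : (v ⬝ᵥ v) % 8 = 3 ↔ (v 0 % 2 = 1 ∧ v 1 % 2 = 1 ∧ v 2 % 2 = 1) := by
  rw [dot3]
  have a0 := sq8 (v 0)
  have a1 := sq8 (v 1)
  have a2 := sq8 (v 2)
  split_ifs at a0 a1 a2 <;> omega

theorem mul8 (m n : ℕ) (hodd : m % 2 = 1) : (m * n) % 8 = 3 ↔ n % 8 = (3 * m) % 8 := by
  have key : ∀ a < 8, ∀ b < 8, a % 2 = 1 → (a * b % 8 = 3 ↔ b = 3 * a % 8) := by decide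
  have h1 : m * n % 8 = (m % 8) * (n % 8) % 8 := Nat.mul_mod m n 8
  have h2 : 3 * m % 8 = 3 * (m % 8) % 8 := by omega
  rw [h1, h2]
  exact key (m % 8) (Nat.mod_lt _ (by norm_num)) (n % 8) (Nat.mod_lt _ (by norm_num)) (by omega)

theorem sum_od {P : Finset ℕ} (hodd : pr P % 2 = 1) (n : ℕ) :
    ∑ v ∈ vec ((pr P * n : ℕ) : ℤ), od v * Ph P v = if n % 8 = (3 * pr P) % 8 then Sn P n else 0 := by
  split_ifs with h
  · unfold Sn
    refine Finset.sum_congr rfl fun v hv => ?_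
    rw [mem_vec] at hv
    have h2 : (v ⬝ᵥ v) % 8 = 3 := by
      rw [hv]
      have := (mul8 (pr P) n hodd).2 h
      omega
    unfold od
    rw [if_pos ((od_iff v).1 h2), one_mul]
  · refine Finset.sum_eq_zero fun v hv => ?_
    rw [mem_vec] at hv
    unfold od
    rw [if_neg, zero_mul]
    intro h3
    have h2 := (od_iff v).2 h3
    rw [hv] at h2
    apply h
    apply (mul8 (pr P) n hodd).1
    omega

/-- the theta series at `2` -/
def A2 (P : Finset ℕ) : PowerSeries ℂ := PowerSeries.mk fun n =>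
  if n % 8 = (3 * pr P) % 8 then ((Sn P n : ℤ) : ℂ) else 0

theorem main (h1 : S_PHI) (h2 : S_FT) (h3 : S_TH3) (LV : S_LV1) (P : Finset ℕ) (hne : P.Nonempty)
    (hP : ∀ p ∈ P, p.Prime ∧ p ≠ 2) : ∀ n, Sn P n = 0 := by
  have hm0 : pr P ≠ 0 := by
    unfold Pool.Agent.Z700.pr
    exact Finset.prod_ne_zero_iff.2 fun q hq => (hP q hq).1.ne_zero
  have hcop : Nat.Coprime 2 (pr P) := by
    unfold Pool.Agent.Z700.pr
    refine Nat.Coprime.prod_right fun q hq => ?_
    exact (Nat.coprime_primes Nat.prime_two (hP q hq).1).2 (hP q hq).2.symm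
  have hodd : pr P % 2 = 1 := Nat.odd_iff.1 (Nat.coprime_two_left.1 hcop)
  have : NeZero (pr P) := ⟨hm0⟩
  have hmC : ((pr P : ℕ) : ℂ) ≠ 0 := by exact_mod_cast hm0
  obtain ⟨κ, hκ⟩ := ft_m h1 h2 P hP
  obtain ⟨κ', hκ'⟩ := ft_2m h1 h2 P hP
  set f : ℕ → ℂ := fun n => ((Sn P n : ℤ) : ℂ) with hf
  have hfb : ∃ C k : ℕ, ∀ n : ℕ, ‖f n‖ ≤ (C : ℝ) * ((n : ℝ) + 1) ^ k := Sn_bound h1 hP
  have hf0 : f 0 = 0 := by
    simp only [hf]
    rw [Sn_zero h1 hP hne]
    simp
  -- the first transformation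
  have R3 : ∀ z : ℂ, 0 < z.im →
      ev (X4 f) (Complex.exp (2 * Real.pi * Complex.I * (-1 / z) / 8)) =
      (-Complex.I * z / (pr P : ℕ)) ^ ((3 : ℂ) / 2) * (κ *
        ev (X4 f) (Complex.exp (2 * Real.pi * Complex.I * z / 8))) := by
    intro z hz
    have e0 := h3 (pr P) (fun a => (Ph P (fun i => ((a i).val : ℤ)) : ℂ)) z hz
    have e1 : ∀ v : V3, Ph P (fun i => ((((v i : ZMod (pr P))).val : ℕ) : ℤ)) = Ph P v := fun v =>
      Ph_congr fun i => cast_val (pr P) v i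
    simp only [e1, hκ] at e0
    have g := fun w hw => regroup (Ph P) (pr P) (Nat.pos_of_ne_zero hm0) (Ph_abs h1 hP)
      (fun v => Ph_dvd h1 hP) w hw
    rw [g (-1 / z) (im_S hz)] at e0
    have e2 : ∑' v : V3, κ * ((Ph P v : ℤ) : ℂ) *
        Complex.exp (Real.pi * Complex.I * ((v ⬝ᵥ v : ℤ) : ℂ) * z / ((pr P : ℕ) : ℂ)) =
        κ * ∑' v : V3, ((Ph P v : ℤ) : ℂ) *
        Complex.exp (Real.pi * Complex.I * ((v ⬝ᵥ v : ℤ) : ℂ) * z / ((pr P : ℕ) : ℂ)) := by
      rw [← tsum_mul_left]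
      refine tsum_congr fun v => ?_
      ring
    rw [e2, g z hz] at e0
    rw [ev_X4_exp, ev_X4_exp]
    exact e0
  have R4 : ∀ z : ℂ, 0 < z.im →
      ev (X4 fun n => (-1) ^ n * f n) (Complex.exp (2 * Real.pi * Complex.I * (-1 / z) / 8)) =
      (-Complex.I * (z / 2) / (2 * pr P : ℕ)) ^ ((3 : ℂ) / 2) * (κ' *
        ev (A2 P) (Complex.exp (2 * Real.pi * Complex.I * z / 8))) := by
    intro z hz
    have hz2 : 0 < (z / 2).im := by
      rw [show z / 2 = ((1 / 2 : ℝ) : ℂ) * z by push_cast; ring, Complex.im_ofReal_mul]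
      linarith
    have hz4 : 0 < (z / 4).im := by
      rw [show z / 4 = ((1 / 4 : ℝ) : ℂ) * z by push_cast; ring, Complex.im_ofReal_mul]
      linarith
    have e0 := h3 (2 * pr P) (fun a => ((sg (fun i => ((a i).val : ℤ)) *
        Ph P (fun i => ((a i).val : ℤ)) : ℤ) : ℂ)) (z / 2) hz2
    have e1 : ∀ v : V3, sg (fun i => ((((v i : ZMod (2 * pr P))).val : ℕ) : ℤ)) *
        Ph P (fun i => ((((v i : ZMod (2 * pr P))).val : ℕ) : ℤ)) = sg v * Ph P v := by
      intro v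
      congr 1
      · refine sg_congr fun i => ?_
        have := (Int.natCast_dvd_natCast.2 (dvd_mul_right 2 (pr P))).trans
          (cast_val (2 * pr P) v i)
        exact_mod_cast this
      · exact Ph_congr fun i => (Int.natCast_dvd_natCast.2 (dvd_mul_left (pr P) 2)).trans
          (cast_val (2 * pr P) v i)
    simp only [e1, hκ'] at e0
    have g4 := regroup (fun v => sg v * Ph P v) (pr P) (Nat.pos_of_ne_zero hm0)
      (sgPh_abs h1 hP) (fun v hv => Ph_dvd h1 hP (right_ne_zero_of_mul hv)) (-1 / z) (im_S hz)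
    have g2 := regroup (fun v => od v * Ph P v) (pr P) (Nat.pos_of_ne_zero hm0)
      (odPh_abs h1 hP) (fun v hv => Ph_dvd h1 hP (right_ne_zero_of_mul hv)) (z / 4) hz4
    simp only [sum_sg hodd] at g4
    simp only [sum_od hodd] at g2
    have e3 : ∑' v : V3, ((sg v * Ph P v : ℤ) : ℂ) * Complex.exp (Real.pi * Complex.I *
        ((v ⬝ᵥ v : ℤ) : ℂ) * (-1 / (z / 2)) / ((2 * pr P : ℕ) : ℂ)) =
        ∑' v : V3, ((sg v * Ph P v : ℤ) : ℂ) * Complex.exp (Real.pi * Complex.I *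
        ((v ⬝ᵥ v : ℤ) : ℂ) * (-1 / z) / ((pr P : ℕ) : ℂ)) := by
      refine tsum_congr fun v => ?_
      congr 2
      have := ne_of_im hz
      push_cast
      field_simp
    have e2 : ∑' v : V3, κ' * ((od v * Ph P v : ℤ) : ℂ) *
        Complex.exp (Real.pi * Complex.I * ((v ⬝ᵥ v : ℤ) : ℂ) * (z / 2) / ((2 * pr P : ℕ) : ℂ)) =
        κ' * ∑' v : V3, ((od v * Ph P v : ℤ) : ℂ) *
        Complex.exp (Real.pi * Complex.I * ((v ⬝ᵥ v : ℤ) : ℂ) * (z / 4) / ((pr P : ℕ) : ℂ)) := by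
      rw [← tsum_mul_left]
      refine tsum_congr fun v => ?_
      rw [mul_assoc]
      congr 3
      push_cast
      field_simp
      ring
    rw [e2, e3, g4, g2] at e0
    rw [ev_X4_exp]
    have e5 : ev (A2 P) (Complex.exp (2 * Real.pi * Complex.I * z / 8)) =
        ∑' n : ℕ, (((if n % 8 = (3 * pr P) % 8 then Sn P n else 0 : ℤ) : ℂ)) *
          Complex.exp (Real.pi * Complex.I * (n : ℂ) * (z / 4)) := by
      unfold ev A2
      refine tsum_congr fun n => ?_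
      rw [PowerSeries.coeff_mk, ← Complex.exp_nat_mul]
      push_cast
      congr 2
      ring
    rw [e5]
    refine Eq.trans ?_ e0
    refine tsum_congr fun n => ?_
    push_cast
    rfl
  have fin3 : (∀ n, f n = 0) → ∀ n, Sn P n = 0 := by
    intro h n
    have := h n
    simp only [hf] at this
    exact_mod_cast this
  have fin4 : (∀ n, (-1 : ℂ) ^ n * f n = 0) → ∀ n, Sn P n = 0 := by
    intro h
    apply fin3
    intro n
    rcases mul_eq_zero.1 (h n) with h5 | h5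
    · exact absurd h5 (pow_ne_zero _ (by norm_num))
    · exact h5
  have hfb4 : ∃ C k : ℕ, ∀ n : ℕ, ‖(-1 : ℂ) ^ n * f n‖ ≤ (C : ℝ) * ((n : ℝ) + 1) ^ k := by
    obtain ⟨C, k, hC⟩ := hfb
    refine ⟨C, k, fun n => ?_⟩
    rw [norm_mul, norm_pow, norm_neg, norm_one, one_pow, one_mul]
    exact hC n
  have hS : ∀ z : ℂ, z ≠ 0 → -1 / (-1 / z) = z := by
    intro z hz
    field_simp
  -- vanishing of the fourth series
  have van4 : (∀ z : ℂ, 0 < z.im → ev (X4 fun n => (-1) ^ n * f n)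
      (Complex.exp (2 * Real.pi * Complex.I * (-1 / z) / 8)) = 0) → ∀ n, Sn P n = 0 := by
    intro h
    apply fin4
    refine zero_of LV _ hfb4 (by rw [hf0, mul_zero]) fun z hz => ?_
    have := h (-1 / z) (im_S hz)
    rwa [hS z (ne_of_im hz)] at this
  by_cases hA : ∀ z : ℂ, 0 < z.im → ev (X4 f) (Complex.exp (2 * Real.pi * Complex.I * z / 8)) = 0
  · exact fin3 (zero_of LV f hfb hf0 hA)
  by_cases hk : κ' = 0
  · apply van4
    intro z hz
    rw [R4 z hz, hk, zero_mul, mul_zero]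
  by_cases hA2 : A2 P = 0
  · apply van4
    intro z hz
    rw [R4 z hz, hA2]
    have : ∀ t, ev 0 t = 0 := by
      intro t
      unfold ev
      simp
    rw [this, mul_zero, mul_zero]
  -- the constant of the first transformation
  have hK : κ ^ 16 = ((pr P : ℕ) : ℂ) ^ 24 := by
    push Not at hA
    obtain ⟨z, hz, hne⟩ := hA
    have hz0 := ne_of_im hz
    have q1 := R3 z hz
    have q2 := R3 (-1 / z) (im_S hz)
    rw [hS z hz0, q1] at q2
    have q3 := congrArg (fun x => x ^ 8) q2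
    simp only [mul_pow, cp8] at q3
    have h8 := pow_ne_zero 8 hne
    set E := ev (X4 f) (Complex.exp (2 * Real.pi * Complex.I * z / 8)) with hE
    have hI : (Complex.I : ℂ) ^ 2 = -1 := Complex.I_sq
    have hI12 : (Complex.I : ℂ) ^ 12 = 1 := by
      rw [show (12 : ℕ) = 2 * 6 by norm_num, pow_mul, hI]; norm_num
    have q4 : ((-Complex.I * (-1 / z) / ((pr P : ℕ) : ℂ)) ^ 12 : ℂ) =
        1 / (z ^ 12 * ((pr P : ℕ) : ℂ) ^ 12) := by
      have : (-Complex.I * (-1 / z) / ((pr P : ℕ) : ℂ)) = Complex.I * (1 / (z * ((pr P : ℕ) : ℂ))) := by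
        field_simp
      rw [this, mul_pow, hI12, one_mul, div_pow, one_pow, mul_pow]
    have q5 : ((-Complex.I * z / ((pr P : ℕ) : ℂ)) ^ 12 : ℂ) =
        z ^ 12 / ((pr P : ℕ) : ℂ) ^ 12 := by
      rw [div_pow, mul_pow, neg_pow, hI12]
      norm_num
    rw [q4, q5] at q3
    have q6 : E ^ 8 * (((pr P : ℕ) : ℂ) ^ 24 - κ ^ 16) = 0 := by
      have hm12 := pow_ne_zero 12 hmC
      have hz12 := pow_ne_zero 12 hz0
      field_simp at q3
      rw [q3, sub_self, mul_zero]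
    rcases mul_eq_zero.1 q6 with h9 | h9
    · exact absurd h9 h8
    · exact (sub_eq_zero.1 h9).symm
  have hprod := lv_prod LV (A2 P) f ((3 * pr P) % 8) ?_ (PB_X4 hfb) (PB_X4 hfb4) ?_ ?_ hf0 ?_
  · rcases hprod with h | h | h
    · exact absurd h hA2
    · apply fin3
      intro n
      have := congrArg (coeff (4 * n)) h
      unfold X4 at this
      rw [PowerSeries.coeff_mk, if_pos (dvd_mul_right 4 n),
        Nat.mul_div_cancel_left n (by norm_num), map_zero] at this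
      exact this
    · apply fin4
      intro n
      have := congrArg (coeff (4 * n)) h
      unfold X4 at this
      rw [PowerSeries.coeff_mk, if_pos (dvd_mul_right 4 n),
        Nat.mul_div_cancel_left n (by norm_num), map_zero] at this
      exact this
  · obtain ⟨C, k, hC⟩ := hfb
    refine ⟨C, k, fun n => ?_⟩
    unfold A2
    rw [PowerSeries.coeff_mk]
    split_ifs
    · exact hC n
    · rw [norm_zero]; positivity
  · intro k hk2
    unfold A2 at hk2
    rw [PowerSeries.coeff_mk] at hk2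
    by_contra h
    rw [if_neg h] at hk2
    exact hk2 rfl
  · unfold A2
    rw [PowerSeries.coeff_mk]
    split_ifs
    · exact hf0
    · rfl
  · intro z hz
    have hz0 := ne_of_im hz
    have q1 := R3 z hz
    have q2 := R4 z hz
    have q3 := R4 (-1 / z) (im_S hz)
    rw [hS z hz0] at q3
    set a := ev (X4 f) (Complex.exp (2 * Real.pi * Complex.I * (-1 / z) / 8))
    set b := ev (A2 P) (Complex.exp (2 * Real.pi * Complex.I * (-1 / z) / 8))
    set c := ev (X4 fun n => (-1) ^ n * f n)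
      (Complex.exp (2 * Real.pi * Complex.I * (-1 / z) / 8))
    set a' := ev (X4 f) (Complex.exp (2 * Real.pi * Complex.I * z / 8))
    set b' := ev (A2 P) (Complex.exp (2 * Real.pi * Complex.I * z / 8))
    set c' := ev (X4 fun n => (-1) ^ n * f n)
      (Complex.exp (2 * Real.pi * Complex.I * z / 8))
    have hI12 : (Complex.I : ℂ) ^ 12 = 1 := by
      rw [show (12 : ℕ) = 2 * 6 by norm_num, pow_mul, Complex.I_sq]; norm_num
    have p1 : a ^ 16 * ((pr P : ℕ) : ℂ) ^ 24 = z ^ 24 * κ ^ 16 * a' ^ 16 := by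
      have q8 := congrArg (fun x => x ^ 8) q1
      simp only [mul_pow, cp8] at q8
      have q5 : ((-Complex.I * z / ((pr P : ℕ) : ℂ)) ^ 12 : ℂ) =
          z ^ 12 / ((pr P : ℕ) : ℂ) ^ 12 := by
        rw [div_pow, mul_pow, neg_pow, hI12]
        norm_num
      rw [q5] at q8
      have hm12 := pow_ne_zero 12 hmC
      have q9 : a ^ 8 * ((pr P : ℕ) : ℂ) ^ 12 = z ^ 12 * κ ^ 8 * a' ^ 8 := by
        rw [q8]
        field_simp
      have := congrArg (fun x => x ^ 2) q9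
      linear_combination this
    have p2 : c ^ 16 * (4 * ((pr P : ℕ) : ℂ)) ^ 24 = z ^ 24 * κ' ^ 16 * b' ^ 16 := by
      have q8 := congrArg (fun x => x ^ 8) q2
      simp only [mul_pow, cp8] at q8
      have q5 : ((-Complex.I * (z / 2) / ((2 * pr P : ℕ) : ℂ)) ^ 12 : ℂ) =
          z ^ 12 / (4 * ((pr P : ℕ) : ℂ)) ^ 12 := by
        have : (-Complex.I * (z / 2) / ((2 * pr P : ℕ) : ℂ)) =
            -Complex.I * z / (4 * ((pr P : ℕ) : ℂ)) := by
          push_cast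
          field_simp
          ring
        rw [this, div_pow, mul_pow, neg_pow, hI12]
        norm_num
      rw [q5] at q8
      have hm4 : (4 * ((pr P : ℕ) : ℂ)) ≠ 0 := mul_ne_zero (by norm_num) hmC
      have hm12 := pow_ne_zero 12 hm4
      have q9 : c ^ 8 * (4 * ((pr P : ℕ) : ℂ)) ^ 12 = z ^ 12 * κ' ^ 8 * b' ^ 8 := by
        rw [q8]
        field_simp
      have := congrArg (fun x => x ^ 2) q9
      linear_combination this
    have p3 : c' ^ 16 * (4 * ((pr P : ℕ) : ℂ)) ^ 24 * z ^ 24 = κ' ^ 16 * b ^ 16 := by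
      have q8 := congrArg (fun x => x ^ 8) q3
      simp only [mul_pow, cp8] at q8
      have q5 : ((-Complex.I * (-1 / z / 2) / ((2 * pr P : ℕ) : ℂ)) ^ 12 : ℂ) =
          1 / ((4 * ((pr P : ℕ) : ℂ)) ^ 12 * z ^ 12) := by
        have : (-Complex.I * (-1 / z / 2) / ((2 * pr P : ℕ) : ℂ)) =
            Complex.I * (1 / (4 * ((pr P : ℕ) : ℂ) * z)) := by
          push_cast
          field_simp
          ring
        rw [this, mul_pow, hI12, one_mul, div_pow, one_pow, mul_pow]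
      rw [q5] at q8
      have hm4 : (4 * ((pr P : ℕ) : ℂ)) ≠ 0 := mul_ne_zero (by norm_num) hmC
      have hm12 := pow_ne_zero 12 hm4
      have hz12 := pow_ne_zero 12 hz0
      have q9 : c' ^ 8 * ((4 * ((pr P : ℕ) : ℂ)) ^ 12 * z ^ 12) = κ' ^ 8 * b ^ 8 := by
        rw [q8]
        field_simp
      have := congrArg (fun x => x ^ 2) q9
      linear_combination this
    have hm24 := pow_ne_zero 24 hmC
    have hm4 : (4 * ((pr P : ℕ) : ℂ)) ^ 24 ≠ 0 := pow_ne_zero 24 (mul_ne_zero (by norm_num) hmC)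
    have hk16 := pow_ne_zero 16 hk
    rw [hK] at p1
    have p1' : a ^ 16 = z ^ 24 * a' ^ 16 := by
      apply mul_right_cancel₀ hm24
      linear_combination p1
    have p4 : b ^ 16 * c ^ 16 = z ^ 48 * (b' ^ 16 * c' ^ 16) := by
      apply mul_right_cancel₀ hm4
      apply mul_left_cancel₀ hk16
      calc κ' ^ 16 * (b ^ 16 * c ^ 16 * (4 * ((pr P : ℕ) : ℂ)) ^ 24) =
          (κ' ^ 16 * b ^ 16) * (c ^ 16 * (4 * ((pr P : ℕ) : ℂ)) ^ 24) := by ring
        _ = _ := by rw [← p3, p2]; ring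
    calc (b * a * c) ^ 16 = a ^ 16 * (b ^ 16 * c ^ 16) := by ring
      _ = _ := by rw [p1', p4]; ring

end

end Pool.Agent.NH1.VF

namespace Pool.Agent.NH1

open Finset Matrix
open Pool.Agent.Z700 (V3 vec pr)

/-- V4: the sums over all vectors vanish -/
theorem t_V4 (h1 : S_PHI) (h2 : S_FT) (h3 : S_TH3) (h4 : S_LV1) : S_V4 := by
  intro P hne hP N
  have hm := VF.main h1 h2 h3 h4 P hne hP
  by_cases hd : ∃ n : ℕ, N = ((pr P * n : ℕ) : ℤ)
  · obtain ⟨n, hn⟩ := hd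
    rw [hn]
    exact hm n
  · refine Finset.sum_eq_zero fun v hv => ?_
    by_contra h
    apply hd
    rw [VF.mem_vec] at hv
    obtain ⟨c, hc⟩ := VF.Ph_dvd h1 hP h
    have hc0 : 0 ≤ c := by
      have h1 := VF.dot_nonneg v
      rw [hc] at h1
      have h2 : (0 : ℤ) < (pr P : ℕ) := by
        have : pr P ≠ 0 := by
          unfold Pool.Agent.Z700.pr
          exact Finset.prod_ne_zero_iff.2 fun q hq => (hP q hq).1.ne_zero
        exact_mod_cast Nat.pos_of_ne_zero this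
      exact nonneg_of_mul_nonneg_right h1 h2
    refine ⟨c.toNat, ?_⟩
    rw [← hv, hc]
    push_cast
    rw [Int.toNat_of_nonneg hc0]

end Pool.Agent.NH1
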