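import Pool.Agent.NH1.Main
import Pool.Agent.NH1.Rel
import Pool.Agent.NH1.A2
import Pool.Agent.NH1.Base
import Pool.Agent.NH1.CI
import Pool.Agent.NH1.CRef
import Pool.Agent.NH1.Cl
import Pool.Agent.NH1.Cnt
import Pool.Agent.NH1.Comb
import Pool.Agent.NH1.FT
import Pool.Agent.NH1.FTB
import Pool.Agent.NH1.Flip
import Pool.Agent.NH1.H23
import Pool.Agent.NH1.H4
import Pool.Agent.NH1.Hur
import Pool.Agent.NH1.LV1
import Pool.Agent.NH1.Ops
import Pool.Agent.NH1.Phi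
import Pool.Agent.NH1.Prod
import Pool.Agent.NH1.RLin
import Pool.Agent.NH1.RPar
import Pool.Agent.NH1.Rot
import Pool.Agent.NH1.Th
import Pool.Agent.NH1.Trans
import Pool.Agent.NH1.UE
import Pool.Agent.NH1.UO
import Pool.Agent.NH1.V4

/-!
# Project NH1: the structure theorem, unconditionally
-/

set_option autoImplicit false

namespace Pool.Agent.NH1

theorem f_TRANS : S_TRANS := t_TRANS t_PHI t_TH3 t_PER (t_FTB t_PHI t_FT)
theorem f_UO : S_UO := t_UO t_TH1 t_LV1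
theorem f_UE : S_UE := t_UE t_TH1 t_LV1
theorem f_PROD : S_PROD := t_PROD t_PHI
theorem f_ROT : S_ROT := t_ROT t_PHI t_PROT
theorem f_C3 : S_C3 := t_C3 t_PHI t_PROT
theorem f_REFL : S_REFL := t_REFL t_PHI t_PROT f_PROD
theorem f_SINV : S_SINV := t_SINV t_PHI t_PROT
theorem f_A2 : S_A2 := t_A2 t_PHI t_PROT f_TRANS f_UO f_UE f_C3
theorem f_V4 : S_V4 := t_V4 t_PHI t_FT t_TH3 t_LV1
theorem f_EQU : S_EQU := t_EQU t_PHI f_V4
theorem f_H3 : S_H3 := t_H3 t_PHI t_PROT t_H2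
theorem f_OPS : S_OPS := t_OPS t_PHI t_PROT f_EQU t_HE (t_H1 t_HE) t_H2 f_H3 t_H4
theorem f_RPAR : S_RPAR := t_RPAR f_OPS
theorem f_RED : S_RED := red_of f_RPAR t_RLIN
theorem f_FLIP : S_FLIP := t_FLIP t_PHI t_PROT t_CL1 t_CL2
theorem f_CNT : S_CNT := t_CNT t_PHI f_FLIP
theorem f_EALL : S_EALL := t_EALL t_PHI f_PROD f_ROT f_REFL f_EQU
theorem f_EPAT : S_EPAT := t_EPAT t_PHI f_PROD f_ROT f_REFL f_EQU
theorem f_EREF : S_EREF := t_EREF t_PHI f_PROD f_ROT f_REFL f_EQU f_SINV f_CNT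
theorem f_BASE : S_BASE := t_BASE t_PHI

/-- **the structure theorem** -/
theorem f_MAIN : S_MAIN :=
  t_MAIN f_A2 f_EALL f_EPAT f_EREF f_RED t_CVAN t_CTOP t_CREF f_BASE

end Pool.Agent.NH1
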