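import Pool.Agent.NH1.Sub2
import Pool.Agent.NH1.RotD

/-!
# The vectors orthogonal to `(1,2,3)` and the flips at the primes of type `S`: local computations
-/

set_option autoImplicit false

namespace Pool.Agent.NH1

open Finset Matrix
open Pool.Agent.Z700 (V3 vec pr Ln n0 ep X2)

namespace FlipW

open RotW (dn mem_vec dot3 rd_mk rd_eta ln_lz LZ lz_int jprod jm14)

/-! ### the Legendre symbol -/

theorem lz_quad {p : ℕ} [Fact p.Prime] (c : ZMod p) : lz p c = quadraticChar (ZMod p) c := by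
  unfold lz
  rw [← jacobiSym.legendreSym.to_jacobiSym]
  unfold legendreSym
  congr 1
  rw [Int.cast_natCast, ZMod.natCast_val, ZMod.cast_id', id_eq]

theorem lz_mul {p : ℕ} (hp : p.Prime) (a b : ZMod p) : lz p (a * b) = lz p a * lz p b := by
  have : Fact p.Prime := ⟨hp⟩
  rw [lz_quad, lz_quad, lz_quad, map_mul]

theorem lz_sq {p : ℕ} (hp : p.Prime) {a : ZMod p} (ha : a ≠ 0) : lz p (a ^ 2) = 1 := by
  have : Fact p.Prime := ⟨hp⟩
  rw [lz_quad]
  exact quadraticChar_sq_one' ha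

theorem lz_pm {p : ℕ} (hp : p.Prime) {a : ZMod p} (ha : a ≠ 0) : lz p a = 1 ∨ lz p a = -1 := by
  have : Fact p.Prime := ⟨hp⟩
  rw [lz_quad]
  exact quadraticChar_dichotomy ha

/-! ### the operator `J` -/

/-- `v ↦ v × (1,2,3)` -/
def Jv (v : V3) : V3 := ![3 * v 1 - 2 * v 2, v 2 - 3 * v 0, 2 * v 0 - v 1]

theorem Jv0 (v : V3) : Jv v 0 = 3 * v 1 - 2 * v 2 := rfl
theorem Jv1 (v : V3) : Jv v 1 = v 2 - 3 * v 0 := rfl
theorem Jv2 (v : V3) : Jv v 2 = 2 * v 0 - v 1 := rfl

/-- `v` is an eigenvector of `J` modulo `p` -/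
def Eg (p : ℕ) (l : ZMod p) (v : V3) : Prop := ∀ i, ((Jv v i : ℤ) : ZMod p) = l * ((v i : ℤ) : ZMod p)

theorem J_anti (v w : V3) : Jv v ⬝ᵥ w = -(v ⬝ᵥ Jv w) := by
  rw [dot3, dot3, Jv0, Jv1, Jv2, Jv0, Jv1, Jv2]
  ring

theorem J_orth (v : V3) : v ⬝ᵥ Jv v = 0 := by
  rw [dot3, Jv0, Jv1, Jv2]
  ring

theorem J_sq {v : V3} (h : dn v = 0) : Jv v ⬝ᵥ Jv v = 14 * (v ⬝ᵥ v) := by
  rw [dot3, dot3, Jv0, Jv1, Jv2]
  unfold dn at h
  linear_combination (-(v 0 + 2 * v 1 + 3 * v 2)) * h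

theorem JJ {v : V3} (h : dn v = 0) (i : Fin 3) : Jv (Jv v) i = -14 * v i := by
  unfold dn at h
  fin_cases i
  · show Jv (Jv v) 0 = _
    rw [Jv0, Jv1, Jv2]
    simp only [Fin.zero_eta]
    linear_combination h
  · show Jv (Jv v) 1 = _
    rw [Jv1, Jv0, Jv2]
    simp only [Fin.mk_one]
    linear_combination 2 * h
  · show Jv (Jv v) 2 = _
    rw [Jv2, Jv0, Jv1]
    simp only [Fin.reduceFinMk]
    linear_combination 3 * h

theorem eg_same {p : ℕ} (hp : p.Prime) (h2 : p ≠ 2) {l : ZMod p} (hl : l ≠ 0) {v w : V3}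
    (hv : Eg p l v) (hw : Eg p l w) : ((v ⬝ᵥ w : ℤ) : ZMod p) = 0 := by
  have : Fact p.Prime := ⟨hp⟩
  have h1 := J_anti v w
  have h3 : ((Jv v ⬝ᵥ w : ℤ) : ZMod p) = ((-(v ⬝ᵥ Jv w) : ℤ) : ZMod p) := by rw [h1]
  rw [dot3, dot3] at h3
  push_cast at h3
  rw [hv 0, hv 1, hv 2, hw 0, hw 1, hw 2] at h3
  rw [dot3]
  push_cast
  have h4 : (2 * l) * ((v 0 : ZMod p) * (w 0 : ZMod p) + (v 1 : ZMod p) * (w 1 : ZMod p) +
      (v 2 : ZMod p) * (w 2 : ZMod p)) = 0 := by linear_combination h3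
  have h5 : (2 : ZMod p) ≠ 0 := by
    intro h
    have h6 : ((2 : ℕ) : ZMod p) = 0 := by exact_mod_cast h
    rw [ZMod.natCast_eq_zero_iff] at h6
    exact h2 ((Nat.prime_dvd_prime_iff_eq hp Nat.prime_two).1 h6)
  rcases mul_eq_zero.1 h4 with h6 | h6
  · exact absurd h6 (mul_ne_zero h5 hl)
  · exact h6

theorem eg_exists {p : ℕ} (hp : p.Prime) {v : V3} (hv : dn v = 0)
    (hn : ((v ⬝ᵥ v : ℤ) : ZMod p) = 0) (h0 : rd p v ≠ 0) :
    ∃ l : ZMod p, Eg p l v ∧ l ^ 2 = -14 := by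
  have : Fact p.Prime := ⟨hp⟩
  rw [dot3] at hn
  push_cast at hn
  have hd : (v 0 : ZMod p) + 2 * (v 1 : ZMod p) + 3 * (v 2 : ZMod p) = 0 := by
    have : ((dn v : ℤ) : ZMod p) = 0 := by rw [hv]; simp
    unfold dn at this
    push_cast at this
    exact this
  have key : ∃ l : ZMod p, Eg p l v := by
    have hne : (v 0 : ZMod p) ≠ 0 ∨ (v 1 : ZMod p) ≠ 0 ∨ (v 2 : ZMod p) ≠ 0 := by
      by_contra hcon
      push Not at hcon
      apply h0
      funext i
      fin_cases i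
      · exact hcon.1
      · exact hcon.2.1
      · exact hcon.2.2
    rcases hne with h | h | h
    · refine ⟨(3 * (v 1 : ZMod p) - 2 * (v 2 : ZMod p)) / (v 0 : ZMod p), fun i => ?_⟩
      rw [div_mul_eq_mul_div, eq_div_iff h]
      fin_cases i
      · simp only [Fin.zero_eta, Jv0]
        push_cast
        ring
      · simp only [Fin.mk_one, Jv1]
        push_cast
        linear_combination (v 2 : ZMod p) * hd - 3 * hn
      · simp only [Fin.reduceFinMk, Jv2]
        push_cast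
        linear_combination (-(v 1 : ZMod p)) * hd + 2 * hn
    · refine ⟨((v 2 : ZMod p) - 3 * (v 0 : ZMod p)) / (v 1 : ZMod p), fun i => ?_⟩
      rw [div_mul_eq_mul_div, eq_div_iff h]
      fin_cases i
      · simp only [Fin.zero_eta, Jv0]
        push_cast
        linear_combination (-(v 2 : ZMod p)) * hd + 3 * hn
      · simp only [Fin.mk_one, Jv1]
        push_cast
        ring
      · simp only [Fin.reduceFinMk, Jv2]
        push_cast
        linear_combination (v 0 : ZMod p) * hd - hn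
    · refine ⟨(2 * (v 0 : ZMod p) - (v 1 : ZMod p)) / (v 2 : ZMod p), fun i => ?_⟩
      rw [div_mul_eq_mul_div, eq_div_iff h]
      fin_cases i
      · simp only [Fin.zero_eta, Jv0]
        push_cast
        linear_combination (v 1 : ZMod p) * hd - 2 * hn
      · simp only [Fin.mk_one, Jv1]
        push_cast
        linear_combination (-(v 0 : ZMod p)) * hd + hn
      · simp only [Fin.reduceFinMk, Jv2]
        push_cast
        ring
  obtain ⟨l, hl⟩ := key
  refine ⟨l, hl, ?_⟩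
  have h1 : ∀ i, (l ^ 2 + 14) * ((v i : ℤ) : ZMod p) = 0 := by
    intro i
    have e : ((Jv (Jv v) i : ℤ) : ZMod p) = ((-14 * v i : ℤ) : ZMod p) := by rw [JJ hv i]
    have e0 := hl 0
    have e1 := hl 1
    have e2 := hl 2
    fin_cases i
    · simp only [Fin.zero_eta, Jv0 (Jv v)] at e ⊢
      push_cast at e
      rw [Jv0] at e0
      push_cast at e0
      rw [e1, e2] at e
      linear_combination e - l * e0
    · simp only [Fin.mk_one, Jv1 (Jv v)] at e ⊢
      push_cast at e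
      rw [Jv1] at e1
      push_cast at e1
      rw [e0, e2] at e
      linear_combination e - l * e1
    · simp only [Fin.reduceFinMk, Jv2 (Jv v)] at e ⊢
      push_cast at e
      rw [Jv2] at e2
      push_cast at e2
      rw [e0, e1] at e
      linear_combination e - l * e2
  by_contra hcon
  apply h0
  funext i
  rcases mul_eq_zero.1 (h1 i) with h | h
  · exact absurd (by linear_combination h) hcon
  · exact h

theorem eg_uniq {p : ℕ} (hp : p.Prime) {v : V3} (h0 : rd p v ≠ 0) {l l' : ZMod p} (h : Eg p l v)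
    (h' : Eg p l' v) : l = l' := by
  have : Fact p.Prime := ⟨hp⟩
  by_contra hcon
  apply h0
  funext i
  have e : (l - l') * ((v i : ℤ) : ZMod p) = 0 := by
    rw [sub_mul, ← h i, ← h' i, sub_self]
  rcases mul_eq_zero.1 e with h | h
  · exact absurd (sub_eq_zero.1 h) hcon
  · exact h

end FlipW

end Pool.Agent.NH1
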