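import Pool.Agent.NH1.FlipA

/-!
# The flips
-/

set_option autoImplicit false

namespace Pool.Agent.NH1

open Finset Matrix
open Pool.Agent.Z700 (V3 vec pr Ln n0 ep X2)

namespace FlipW

open RotW (dn mem_vec dot3 rd_mk rd_eta ln_lz LZ lz_int jprod jm14)

/-- `w` is the image of `v` under the square of `X + y J` divided by the norm `s t` -/
structure FL (s t X y : ℤ) (v w : V3) : Prop where
  h1 : X ^ 2 + 14 * y ^ 2 = s * t
  h2 : ∀ i, (s * t) * w i = (X ^ 2 - 14 * y ^ 2) * v i + 2 * X * y * Jv v i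

theorem flip_step {t : ℕ} (ht : t.Prime) (ht2 : t ≠ 2) {s X y : ℤ} (hs : s = 1 ∨ s = 2)
    (hXy : X ^ 2 + 14 * y ^ 2 = s * t) {v : V3} {l : ZMod t} (hl : Eg t l v) (hl2 : l ^ 2 = -14) :
    ∃ (y' : ℤ) (w : V3), FL s t X y' v w := by
  have : Fact t.Prime := ⟨ht⟩
  obtain ⟨y', hy', hz⟩ : ∃ y' : ℤ, y' ^ 2 = y ^ 2 ∧ (X : ZMod t) + l * (y' : ZMod t) = 0 := by
    have h1 : ((X : ZMod t) + l * (y : ZMod t)) * ((X : ZMod t) - l * (y : ZMod t)) = 0 := by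
      have h2 : ((X ^ 2 + 14 * y ^ 2 : ℤ) : ZMod t) = ((s * t : ℤ) : ZMod t) := by rw [hXy]
      push_cast at h2
      rw [ZMod.natCast_self, mul_zero] at h2
      linear_combination h2 - (y : ZMod t) ^ 2 * hl2
    rcases mul_eq_zero.1 h1 with h | h
    · exact ⟨y, rfl, h⟩
    · refine ⟨-y, by ring, ?_⟩
      push_cast
      linear_combination h
  have hdt : ∀ i, (t : ℤ) ∣ (X ^ 2 - 14 * y' ^ 2) * v i + 2 * X * y' * Jv v i := by
    intro i
    rw [← ZMod.intCast_zmod_eq_zero_iff_dvd]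
    push_cast
    rw [hl i]
    linear_combination (X + l * y' : ZMod t) * (v i : ZMod t) * hz -
      (y' : ZMod t) ^ 2 * (v i : ZMod t) * hl2
  have hds : ∀ i, s ∣ (X ^ 2 - 14 * y' ^ 2) * v i + 2 * X * y' * Jv v i := by
    intro i
    rcases hs with rfl | rfl
    · exact one_dvd _
    · have hX : (2 : ℤ) ∣ X := by
        have h3 : (2 : ℤ) ∣ X ^ 2 := ⟨t - 7 * y ^ 2, by linear_combination hXy⟩
        exact Int.prime_two.dvd_of_dvd_pow h3
      obtain ⟨X', hX'⟩ := hX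
      refine ⟨(2 * X' ^ 2 - 7 * y' ^ 2) * v i + X * y' * Jv v i, ?_⟩
      rw [hX']
      ring
  have hco : IsCoprime s (t : ℤ) := by
    rcases hs with rfl | rfl
    · exact isCoprime_one_left
    · have : Nat.Coprime 2 t := (Nat.coprime_primes Nat.prime_two ht).2 (Ne.symm ht2)
      exact_mod_cast Nat.isCoprime_iff_coprime.2 this
  have hd : ∀ i, ∃ w : ℤ, (X ^ 2 - 14 * y' ^ 2) * v i + 2 * X * y' * Jv v i = (s * t) * w :=
    fun i => hco.mul_dvd (hds i) (hdt i)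
  choose w hw using hd
  exact ⟨y', w, by rw [hy']; exact hXy, fun i => (hw i).symm⟩

section
variable {s t X y : ℤ} {v w : V3}

theorem FL.d (h : FL s t X y v w) (h0 : s * t ≠ 0) (hv : dn v = 0) : dn w = 0 := by
  have e : (s * t) * dn w = 0 := by
    unfold dn at hv ⊢
    have e0 := h.h2 0
    have e1 := h.h2 1
    have e2 := h.h2 2
    rw [Jv0] at e0
    rw [Jv1] at e1
    rw [Jv2] at e2
    linear_combination e0 + 2 * e1 + 3 * e2 + (X ^ 2 - 14 * y ^ 2) * hv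
  exact (mul_eq_zero.1 e).resolve_left h0

theorem FL.J (h : FL s t X y v w) (hv : dn v = 0) (i : Fin 3) :
    (s * t) * Jv w i = (X ^ 2 - 14 * y ^ 2) * Jv v i - 28 * X * y * v i := by
  have e0 := h.h2 0
  have e1 := h.h2 1
  have e2 := h.h2 2
  have j := JJ hv i
  fin_cases i
  · simp only [Fin.zero_eta] at j ⊢
    rw [Jv0] at j ⊢
    linear_combination 3 * e1 - 2 * e2 + 2 * X * y * j - (X ^ 2 - 14 * y ^ 2) * Jv0 v
  · simp only [Fin.mk_one] at j ⊢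
    rw [Jv1] at j ⊢
    linear_combination e2 - 3 * e0 + 2 * X * y * j - (X ^ 2 - 14 * y ^ 2) * Jv1 v
  · simp only [Fin.reduceFinMk] at j ⊢
    rw [Jv2] at j ⊢
    linear_combination 2 * e0 - e1 + 2 * X * y * j - (X ^ 2 - 14 * y ^ 2) * Jv2 v

theorem FL.norm (h : FL s t X y v w) (h0 : s * t ≠ 0) (hv : dn v = 0) : w ⬝ᵥ w = v ⬝ᵥ v := by
  have a := J_orth v
  have b := J_sq hv
  have e : (s * t) ^ 2 * (w ⬝ᵥ w) = (s * t) ^ 2 * (v ⬝ᵥ v) := by
    have e1 : (s * t) ^ 2 * (w ⬝ᵥ w) = ((s * t) * w 0) ^ 2 + ((s * t) * w 1) ^ 2 +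
        ((s * t) * w 2) ^ 2 := by
      rw [dot3]
      ring
    rw [e1, h.h2 0, h.h2 1, h.h2 2, ← h.h1]
    rw [dot3] at a b
    rw [dot3]
    rw [dot3] at b
    linear_combination (2 * (X ^ 2 - 14 * y ^ 2) * (2 * X * y)) * a + (2 * X * y) ^ 2 * b
  exact mul_left_cancel₀ (pow_ne_zero 2 h0) e

theorem FL.dot (h : FL s t X y v w) : (s * t) * (v ⬝ᵥ w) = (X ^ 2 - 14 * y ^ 2) * (v ⬝ᵥ v) := by
  have a := J_orth v
  rw [dot3] at a
  rw [dot3, dot3]
  linear_combination v 0 * h.h2 0 + v 1 * h.h2 1 + v 2 * h.h2 2 + 2 * X * y * a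

theorem FL.eg {p : ℕ} (hp : p.Prime) (h : FL s t X y v w) (h0 : ((s * t : ℤ) : ZMod p) ≠ 0)
    (hv : dn v = 0) {l : ZMod p} (hl : Eg p l v) (hl2 : l ^ 2 = -14) : Eg p l w := by
  have : Fact p.Prime := ⟨hp⟩
  intro i
  have e1 : (((s * t) * Jv w i : ℤ) : ZMod p) =
      (((X ^ 2 - 14 * y ^ 2) * Jv v i - 28 * X * y * v i : ℤ) : ZMod p) := by rw [h.J hv i]
  have e2 : (((s * t) * w i : ℤ) : ZMod p) =
      (((X ^ 2 - 14 * y ^ 2) * v i + 2 * X * y * Jv v i : ℤ) : ZMod p) := by rw [h.h2 i]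
  push_cast at e1 e2 h0
  rw [hl i] at e1 e2
  apply mul_left_cancel₀ h0
  linear_combination e1 - l * e2 - (2 * X * y : ZMod p) * (v i : ZMod p) * hl2

theorem FL.phn (hPHI : S_PHI) {p : ℕ} (hp : p.Prime) (h2 : p ≠ 2) (h : FL s t X y v w)
    (h0 : ((s * t : ℤ) : ZMod p) ≠ 0) {l : ZMod p} (hl : Eg p l v) (hl2 : l ^ 2 = -14) :
    ph p (rd p w) = jacobiSym (s * t) p * ph p (rd p v) := by
  have : Fact p.Prime := ⟨hp⟩
  set c : ZMod p := (X : ZMod p) + l * (y : ZMod p) with hc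
  have hcc : c ≠ 0 := by
    intro hz
    apply h0
    rw [← h.h1]
    push_cast
    have e : (X : ZMod p) ^ 2 + 14 * (y : ZMod p) ^ 2 = c * ((X : ZMod p) - l * (y : ZMod p)) := by
      rw [hc]
      linear_combination ((y : ZMod p) ^ 2) * hl2
    rw [e, hz, zero_mul]
  have e2 : ∀ i, ((s * t : ℤ) : ZMod p) * ((w i : ℤ) : ZMod p) = c ^ 2 * ((v i : ℤ) : ZMod p) := by
    intro i
    have e3 : (((s * t) * w i : ℤ) : ZMod p) =
      (((X ^ 2 - 14 * y ^ 2) * v i + 2 * X * y * Jv v i : ℤ) : ZMod p) := by rw [h.h2 i]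
    rw [hc]
    push_cast at e3 ⊢
    rw [hl i] at e3
    linear_combination e3 - (y : ZMod p) ^ 2 * (v i : ZMod p) * hl2
  set d : ZMod p := ((s * t : ℤ) : ZMod p) with hd
  have e4 : rd p w = (c ^ 2 / d) • rd p v := by
    funext i
    have := e2 i
    show ((w i : ℤ) : ZMod p) = (c ^ 2 / d) * ((v i : ℤ) : ZMod p)
    rw [div_mul_eq_mul_div, eq_div_iff h0, ← this, mul_comm]
  have hne : c ^ 2 / d ≠ 0 := div_ne_zero (pow_ne_zero 2 hcc) h0
  rw [e4, (ph_spec hPHI hp h2).smul _ _ hne]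
  congr 1
  have e5 : lz p (c ^ 2 / d) * lz p d = 1 := by
    rw [← lz_mul hp, div_mul_cancel₀ _ h0, lz_sq hp hcc]
  have e6 : lz p d = jacobiSym (s * t) p := by
    rw [hd]
    exact lz_int hp.ne_zero (s * t)
  rw [← e6]
  rcases lz_pm hp h0 with k | k
  · rw [k] at e5 ⊢
    linarith
  · rw [k] at e5 ⊢
    linarith

theorem prime_ndvd {t : ℕ} (ht : t.Prime) (ht2 : t ≠ 2) (ht7 : t ≠ 7) {s X y : ℤ}
    (hs : s = 1 ∨ s = 2) (h : X ^ 2 + 14 * y ^ 2 = s * t) : ¬ (t : ℤ) ∣ X := by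
  intro hX
  have hti : Prime (t : ℤ) := Nat.prime_iff_prime_int.1 ht
  have h1 : (t : ℤ) ∣ 14 * y ^ 2 := by
    have : 14 * y ^ 2 = s * t - X ^ 2 := by linarith
    rw [this]
    exact dvd_sub (dvd_mul_left _ _) (dvd_pow hX two_ne_zero)
  have h14 : ¬ (t : ℤ) ∣ 14 := by
    intro h
    have h' : t ∣ 14 := by exact_mod_cast h
    have h3 : t ∣ 2 * 7 := h'
    rcases (Nat.Prime.dvd_mul ht).1 h3 with k | k
    · exact ht2 ((Nat.prime_dvd_prime_iff_eq ht Nat.prime_two).1 k)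
    · exact ht7 ((Nat.prime_dvd_prime_iff_eq ht (by norm_num)).1 k)
  have hy : (t : ℤ) ∣ y := hti.dvd_of_dvd_pow ((hti.dvd_or_dvd h1).resolve_left h14)
  obtain ⟨a, ha⟩ := hX
  obtain ⟨b, hb⟩ := hy
  have h4 : s = t * (a ^ 2 + 14 * b ^ 2) := by
    have h5 : (t : ℤ) * s = t * (t * (a ^ 2 + 14 * b ^ 2)) := by
      rw [ha, hb] at h
      linear_combination -h
    exact mul_left_cancel₀ (by exact_mod_cast ht.ne_zero) h5
  have h6 : (t : ℤ) ∣ s := ⟨_, h4⟩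
  have h7 : (t : ℤ) ≤ s := Int.le_of_dvd (by rcases hs with rfl | rfl <;> norm_num) h6
  have h8 : 2 < t := lt_of_le_of_ne ht.two_le (Ne.symm ht2)
  rcases hs with rfl | rfl <;> omega

/-- the character at the flipped prime -/
theorem FL.pht (hPHI : S_PHI) {t : ℕ} (ht : t.Prime) (ht2 : t ≠ 2) (ht7 : t ≠ 7)
    (h : FL s t X y v w) (hs : s = 1 ∨ s = 2) (hj : jacobiSym 2 t = 1) (hv : dn v = 0) {m : ℤ}
    (hn : v ⬝ᵥ v = t * m) (hm : ¬ (t : ℤ) ∣ m) :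
    ((v ⬝ᵥ w : ℤ) : ZMod t) ≠ 0 ∧ ph t (rd t w) = ph t (rd t v) * jacobiSym m t := by
  have : Fact t.Prime := ⟨ht⟩
  have hX := prime_ndvd ht ht2 ht7 hs h.h1
  have ht0 : (t : ℤ) ≠ 0 := by exact_mod_cast ht.ne_zero
  have e1 : s * (v ⬝ᵥ w) = (X ^ 2 - 14 * y ^ 2) * m := by
    have e2 := h.dot
    rw [hn] at e2
    have e3 : (t : ℤ) * (s * (v ⬝ᵥ w)) = t * ((X ^ 2 - 14 * y ^ 2) * m) := by
      linear_combination e2
    exact mul_left_cancel₀ ht0 e3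
  have e1' : ((s * (v ⬝ᵥ w) : ℤ) : ZMod t) = 2 * (X : ZMod t) ^ 2 * (m : ZMod t) := by
    have e4 : (((s * t : ℤ)) : ZMod t) = ((X ^ 2 + 14 * y ^ 2 : ℤ) : ZMod t) := by rw [h.h1]
    push_cast at e4
    rw [ZMod.natCast_self, mul_zero] at e4
    rw [e1]
    push_cast
    linear_combination (m : ZMod t) * e4
  have h2 : (2 : ZMod t) ≠ 0 := by
    intro h
    have h6 : ((2 : ℕ) : ZMod t) = 0 := by exact_mod_cast h
    rw [ZMod.natCast_eq_zero_iff] at h6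
    exact ht2 ((Nat.prime_dvd_prime_iff_eq ht Nat.prime_two).1 h6)
  have hX0 : (X : ZMod t) ≠ 0 := by
    intro hc
    exact hX ((ZMod.intCast_zmod_eq_zero_iff_dvd _ _).1 hc)
  have hm0 : (m : ZMod t) ≠ 0 := by
    intro hc
    exact hm ((ZMod.intCast_zmod_eq_zero_iff_dvd _ _).1 hc)
  have hne : ((v ⬝ᵥ w : ℤ) : ZMod t) ≠ 0 := by
    intro hc
    push_cast at e1'
    rw [hc, mul_zero] at e1'
    exact mul_ne_zero (mul_ne_zero h2 (pow_ne_zero 2 hX0)) hm0 e1'.symm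
  refine ⟨hne, ?_⟩
  have hnorm : w ⬝ᵥ w = v ⬝ᵥ v := h.norm (by
    rcases hs with rfl | rfl
    · rw [one_mul]; exact ht0
    · exact mul_ne_zero two_ne_zero ht0) hv
  have dotc : ∀ a b : V3, rd t a ⬝ᵥ rd t b = ((a ⬝ᵥ b : ℤ) : ZMod t) := by
    intro a b
    rw [dot3, dotProduct, Fin.sum_univ_three]
    push_cast
    rfl
  have hvz : rd t v ⬝ᵥ rd t v = 0 := by
    rw [dotc, hn]
    push_cast
    rw [ZMod.natCast_self, zero_mul]
  have hwz : rd t w ⬝ᵥ rd t w = 0 := by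
    rw [dotc, hnorm, hn]
    push_cast
    rw [ZMod.natCast_self, zero_mul]
  have hvw : rd t v ⬝ᵥ rd t w ≠ 0 := by
    rw [dotc]
    exact hne
  have hv0 : rd t v ≠ 0 := by
    intro hc
    rw [hc, zero_dotProduct] at hvw
    exact hvw rfl
  have k := (ph_spec hPHI ht ht2).mul _ _ hvz hwz hvw
  rw [dotc] at k
  have hlz : lz t (2 * ((v ⬝ᵥ w : ℤ) : ZMod t)) = jacobiSym m t := by
    have hs1 : lz t (s : ZMod t) = 1 := by
      rw [lz_int ht.ne_zero]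
      rcases hs with rfl | rfl
      · exact jacobiSym.one_left t
      · exact hj
    have e5 : lz t (s : ZMod t) * lz t (2 * ((v ⬝ᵥ w : ℤ) : ZMod t)) =
        lz t ((2 * (X : ZMod t)) ^ 2) * lz t (m : ZMod t) := by
      rw [← lz_mul ht, ← lz_mul ht]
      congr 1
      push_cast at e1'
      linear_combination 2 * e1'
    rw [hs1, one_mul, lz_sq ht (mul_ne_zero h2 hX0), one_mul, lz_int ht.ne_zero] at e5
    exact e5
  rw [hlz] at k
  rcases (ph_spec hPHI ht ht2).pm _ hvz hv0 with e | e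
  · rw [e] at k ⊢
    linarith
  · rw [e] at k ⊢
    linarith

/-- the eigenvalue at the flipped prime -/
theorem FL.egt {t : ℕ} (ht : t.Prime) (ht2 : t ≠ 2) (hw : dn w = 0)
    (hn : ((w ⬝ᵥ w : ℤ) : ZMod t) = 0) (hne : ((v ⬝ᵥ w : ℤ) : ZMod t) ≠ 0) {l : ZMod t}
    (hl0 : l ≠ 0) (hl : Eg t l v) (hl2 : l ^ 2 = -14) : Eg t (-l) w := by
  have : Fact t.Prime := ⟨ht⟩
  have hw0 : rd t w ≠ 0 := by
    intro hc
    apply hne
    have h0 : ((w 0 : ℤ) : ZMod t) = 0 := congrFun hc 0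
    have h1 : ((w 1 : ℤ) : ZMod t) = 0 := congrFun hc 1
    have h2 : ((w 2 : ℤ) : ZMod t) = 0 := congrFun hc 2
    rw [dot3]
    push_cast
    rw [h0, h1, h2]
    ring
  obtain ⟨l', hl', hl2'⟩ := eg_exists ht hw hn hw0
  have e : (l' - l) * (l' + l) = 0 := by linear_combination hl2' - hl2
  rcases mul_eq_zero.1 e with k | k
  · exfalso
    rw [sub_eq_zero.1 k] at hl'
    exact hne (eg_same ht ht2 hl0 hl hl')
  · have : l' = -l := by linear_combination k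
    rw [← this]
    exact hl'

end

end FlipW

end Pool.Agent.NH1
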