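import Pool.Agent.NH1.FlipB

/-!
# Uniqueness and existence of the vectors orthogonal to `(1,2,3)`
-/

set_option autoImplicit false

namespace Pool.Agent.NH1

open Finset Matrix
open Pool.Agent.Z700 (V3 vec pr Ln n0 ep X2)

namespace FlipW

open RotW (dn mem_vec dot3 rd_mk rd_eta ln_lz LZ lz_int jprod jm14)

theorem sq_mod7 (d : ℤ) : d ^ 2 % 7 = 0 ∨ d ^ 2 % 7 = 1 ∨ d ^ 2 % 7 = 2 ∨ d ^ 2 % 7 = 4 := by
  have h : d % 7 = 0 ∨ d % 7 = 1 ∨ d % 7 = 2 ∨ d % 7 = 3 ∨ d % 7 = 4 ∨ d % 7 = 5 ∨ d % 7 = 6 := by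
    omega
  rw [pow_two, Int.mul_emod]
  rcases h with h | h | h | h | h | h | h <;> rw [h] <;> norm_num

theorem m7a {q x d : ℤ} (h : q = 7 * x + d ^ 2) :
    q % 7 = 0 ∨ q % 7 = 1 ∨ q % 7 = 2 ∨ q % 7 = 4 := by
  have := sq_mod7 d
  generalize d ^ 2 = D at *
  omega

theorem m7b {q x d : ℤ} (h : q = 7 * x + 2 * d ^ 2) :
    q % 7 = 0 ∨ q % 7 = 1 ∨ q % 7 = 2 ∨ q % 7 = 4 := by
  have := sq_mod7 d
  generalize d ^ 2 = D at *
  omega

theorem sq7_of {q : ℕ} (h0 : q % 7 ≠ 0)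
    (h : (q : ℤ) % 7 = 0 ∨ (q : ℤ) % 7 = 1 ∨ (q : ℤ) % 7 = 2 ∨ (q : ℤ) % 7 = 4) : sq7 q := by
  unfold sq7
  omega

theorem pell7 {q : ℕ} (hq : q.Prime) (hq2 : q ≠ 2) (hq7 : q ≠ 7) (h7 : ¬ sq7 q) {a b : ℤ}
    (h : a ^ 2 + 14 * b ^ 2 = (q : ℤ) ^ 2) (ha : (7 : ℤ) ∣ q - a) : b = 0 := by
  by_contra hb
  have hqi : Prime (q : ℤ) := Nat.prime_iff_prime_int.1 hq
  have hq7' : q % 7 ≠ 0 := by
    intro hc
    exact hq7 ((Nat.prime_dvd_prime_iff_eq (by norm_num) hq).1 (Nat.dvd_of_mod_eq_zero hc)).symm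
  have hqo : q % 2 = 1 := Nat.odd_iff.1 (hq.odd_of_ne_two hq2)
  have hqpos : (0 : ℤ) < q := by exact_mod_cast hq.pos
  have hna : ¬ (q : ℤ) ∣ a := by
    intro hc
    have h1 : (q : ℤ) ∣ 14 * b ^ 2 := by
      have : 14 * b ^ 2 = (q : ℤ) ^ 2 - a ^ 2 := by linarith
      rw [this]
      exact dvd_sub (dvd_pow_self _ two_ne_zero) (dvd_pow hc two_ne_zero)
    have h14 : ¬ (q : ℤ) ∣ 14 := by
      intro h
      have h' : q ∣ 14 := by exact_mod_cast h
      have h3 : q ∣ 2 * 7 := h'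
      rcases (Nat.Prime.dvd_mul hq).1 h3 with k | k
      · exact hq2 ((Nat.prime_dvd_prime_iff_eq hq Nat.prime_two).1 k)
      · exact hq7 ((Nat.prime_dvd_prime_iff_eq hq (by norm_num)).1 k)
    have hbq : (q : ℤ) ∣ b := hqi.dvd_of_dvd_pow ((hqi.dvd_or_dvd h1).resolve_left h14)
    obtain ⟨c, hc⟩ := hbq
    have hc0 : c ≠ 0 := by
      rintro rfl
      exact hb (by rw [hc, mul_zero])
    have hc1 : 1 ≤ c ^ 2 := by
      have : 0 < c ^ 2 := by positivity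
      omega
    have h2 : (q : ℤ) ^ 2 * (14 * c ^ 2 - 1) = -a ^ 2 := by
      rw [hc] at h
      linear_combination h
    nlinarith [sq_nonneg a, pow_pos hqpos 2]
  have hqz : (q : ℤ) % 2 = 1 := by omega
  have hao : a % 2 = 1 := by
    by_contra hc
    have hc' : a % 2 = 0 := by omega
    obtain ⟨k, hk⟩ := Int.dvd_of_emod_eq_zero hc'
    obtain ⟨j, hj⟩ : ∃ j : ℤ, (q : ℤ) = 2 * j + 1 := ⟨q / 2, by omega⟩
    rw [hk, hj] at h
    have : 2 * (2 * k ^ 2 + 7 * b ^ 2 - 2 * j ^ 2 - 2 * j) = 1 := by linear_combination h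
    omega
  obtain ⟨k, hk⟩ : ∃ k : ℤ, a = 2 * k + 1 := ⟨a / 2, by omega⟩
  obtain ⟨j, hj⟩ : ∃ j : ℤ, (q : ℤ) = 2 * j + 1 := ⟨q / 2, by omega⟩
  -- `b` is even
  have hbe : b % 2 = 0 := by
    by_contra hc
    obtain ⟨c, hc⟩ : ∃ c : ℤ, b = 2 * c + 1 := ⟨b / 2, by omega⟩
    rw [hk, hj, hc] at h
    have : 2 * (k ^ 2 + k + 14 * c ^ 2 + 14 * c - j ^ 2 - j + 3) + 1 = 0 := by
      have e : 2 * (2 * (k ^ 2 + k + 14 * c ^ 2 + 14 * c - j ^ 2 - j + 3) + 1) = 0 := by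
        linear_combination h
      omega
    omega
  obtain ⟨c, hc⟩ := Int.dvd_of_emod_eq_zero hbe
  set u : ℤ := j - k with hu
  set w : ℤ := j + k + 1 with hw
  have huw : u * w = 14 * c ^ 2 := by
    have e : 4 * (u * w) = 4 * (14 * c ^ 2) := by
      rw [hu, hw]
      rw [hk, hj, hc] at h
      linear_combination -h
    linarith
  have hsum : u + w = q := by rw [hu, hw, hj]; ring
  have hdif : w - u = a := by rw [hu, hw, hk]; ring
  have hc0 : c ≠ 0 := by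
    rintro rfl
    exact hb (by rw [hc, mul_zero])
  have hcp : 0 < c ^ 2 := by positivity
  have hup : 0 < u := by
    by_contra hn
    push Not at hn
    have hwp : 0 < w := by linarith
    nlinarith
  have hwp : 0 < w := by
    by_contra hn
    push Not at hn
    nlinarith
  have h7u : (7 : ℤ) ∣ u := by
    have : (7 : ℤ) ∣ 2 * u := by
      have : 2 * u = q - a := by rw [hu, hk, hj]; ring
      rw [this]
      exact ha
    omega
  obtain ⟨u1, hu1⟩ := h7u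
  have hu1w : u1 * w = 2 * c ^ 2 := by
    have : 7 * (u1 * w) = 7 * (2 * c ^ 2) := by
      rw [← mul_assoc, ← hu1, huw]
      ring
    linarith
  have hcop : IsCoprime u w := by
    rw [Int.isCoprime_iff_gcd_eq_one]
    by_contra hg
    obtain ⟨r, hr, hrd⟩ := Nat.exists_prime_and_dvd hg
    have hru : (r : ℤ) ∣ u := (Int.natCast_dvd_natCast.2 hrd).trans (Int.gcd_dvd_left u w)
    have hrw : (r : ℤ) ∣ w := (Int.natCast_dvd_natCast.2 hrd).trans (Int.gcd_dvd_right u w)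
    have hrq : (r : ℤ) ∣ q := by rw [← hsum]; exact dvd_add hru hrw
    have hra : (r : ℤ) ∣ a := by rw [← hdif]; exact dvd_sub hrw hru
    have hrq' : r ∣ q := by exact_mod_cast hrq
    have : r = q := (Nat.prime_dvd_prime_iff_eq hr hq).1 hrq'
    rw [this] at hra
    exact hna hra
  have hcop1 : IsCoprime u1 w := by
    rw [hu1] at hcop
    exact hcop.of_mul_left_right
  have hu1p : 0 < u1 := by omega
  have hfin : (q : ℤ) % 7 = 0 ∨ (q : ℤ) % 7 = 1 ∨ (q : ℤ) % 7 = 2 ∨ (q : ℤ) % 7 = 4 := by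
    have h2 : (2 : ℤ) ∣ u1 ∨ (2 : ℤ) ∣ w :=
      Int.prime_two.dvd_or_dvd ⟨c ^ 2, hu1w⟩
    rcases h2 with h2 | h2
    · obtain ⟨u2, hu2⟩ := h2
      have e : u2 * w = c ^ 2 := by
        rw [hu2] at hu1w
        have : 2 * (u2 * w) = 2 * c ^ 2 := by linear_combination hu1w
        linarith
      have hcop2 : IsCoprime w u2 := by
        rw [hu2] at hcop1
        exact hcop1.of_mul_left_right.symm
      obtain ⟨d, hd⟩ := Int.sq_of_isCoprime hcop2 (by rw [mul_comm]; exact e)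
      have hd' : w = d ^ 2 := by
        rcases hd with hd | hd
        · exact hd
        · exfalso
          nlinarith [sq_nonneg d]
      have eq : (q : ℤ) = 7 * (2 * u2) + d ^ 2 := by rw [← hsum, hu1, hu2, hd']
      exact m7a eq
    · obtain ⟨w2, hw2⟩ := h2
      have e : w2 * u1 = c ^ 2 := by
        rw [hw2] at hu1w
        have : 2 * (w2 * u1) = 2 * c ^ 2 := by linear_combination hu1w
        linarith
      have hcop2 : IsCoprime w2 u1 := by
        rw [hw2] at hcop1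
        exact hcop1.of_mul_right_right.symm
      obtain ⟨d, hd⟩ := Int.sq_of_isCoprime hcop2 e
      have hd' : w2 = d ^ 2 := by
        rcases hd with hd | hd
        · exact hd
        · exfalso
          nlinarith [sq_nonneg d]
      have eq : (q : ℤ) = 7 * u1 + 2 * d ^ 2 := by rw [← hsum, hu1, hw2, hd']
      exact m7b eq
  exact h7 (sq7_of hq7' hfin)

/-- a vector is determined by its eigenvalues at the primes of type `S` -/
theorem uniq_v {m q : ℕ} (hq : q.Prime) (hq2 : q ≠ 2) (hq7 : q ≠ 7) (h7 : ¬ sq7 q) {v w : V3}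
    (hm : m ≠ 0) (hm7 : m % 7 ≠ 0) (hv : dn v = 0) (hw : dn w = 0) (nv : v ⬝ᵥ v = (m : ℤ) * q)
    (nw : w ⬝ᵥ w = (m : ℤ) * q) {β : ZMod 7} (Lv : Ln n0 β v) (Lw : Ln n0 β w)
    (ha : (m : ℤ) ∣ v ⬝ᵥ w) (hb : (m : ℤ) ∣ v 1 * w 2 - v 2 * w 1) : v = w := by
  have hm0 : (m : ℤ) ≠ 0 := by exact_mod_cast hm
  have lag : (v ⬝ᵥ w) ^ 2 + 14 * (v 1 * w 2 - v 2 * w 1) ^ 2 = ((m : ℤ) * q) ^ 2 := by
    have e : ((m : ℤ) * q) ^ 2 = (v ⬝ᵥ v) * (w ⬝ᵥ w) := by rw [nv, nw]; ring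
    rw [e, dot3, dot3, dot3]
    unfold dn at hv hw
    have hv' : v 0 = -2 * v 1 - 3 * v 2 := by linarith
    have hw' : w 0 = -2 * w 1 - 3 * w 2 := by linarith
    rw [hv', hw']
    ring
  have mod7 : (7 : ℤ) ∣ (m : ℤ) * q - v ⬝ᵥ w := by
    rw [← nv]
    refine (ZMod.intCast_zmod_eq_zero_iff_dvd _ 7).1 ?_
    rw [ln_lz] at Lv Lw
    obtain ⟨a1, a2, a3⟩ := Lv
    obtain ⟨b1, b2, b3⟩ := Lw
    have c0 : n0 0 = 1 := rfl
    have c1 : n0 1 = 2 := rfl
    have c2 : n0 2 = 3 := rfl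
    rw [c0, c1, c2] at a1 a2 a3 b1 b2 b3
    have hd : (v 0 : ZMod 7) + 2 * (v 1 : ZMod 7) + 3 * (v 2 : ZMod 7) = 0 := by
      have : ((dn v : ℤ) : ZMod 7) = 0 := by rw [hv]; simp
      unfold dn at this
      push_cast at this
      exact this
    rw [dot3, dot3]
    push_cast
    linear_combination ((v 0 : ZMod 7) - (w 0 : ZMod 7)) * hd - (v 1 : ZMod 7) * a3 +
      (v 1 : ZMod 7) * b3 + (v 2 : ZMod 7) * a2 - (v 2 : ZMod 7) * b2
  obtain ⟨a', ha'⟩ := ha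
  obtain ⟨b', hb'⟩ := hb
  have e1 : a' ^ 2 + 14 * b' ^ 2 = (q : ℤ) ^ 2 := by
    rw [ha', hb'] at lag
    have : (m : ℤ) ^ 2 * (a' ^ 2 + 14 * b' ^ 2) = (m : ℤ) ^ 2 * (q : ℤ) ^ 2 := by
      linear_combination lag
    exact mul_left_cancel₀ (pow_ne_zero 2 hm0) this
  have e2 : (7 : ℤ) ∣ q - a' := by
    rw [ha', ← mul_sub] at mod7
    have h7p : Prime (7 : ℤ) := by
      have := Nat.prime_iff_prime_int.1 (by norm_num : Nat.Prime 7)
      exact_mod_cast this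
    refine (h7p.dvd_or_dvd mod7).resolve_left fun h => hm7 ?_
    have h' : 7 ∣ m := by exact_mod_cast h
    exact Nat.mod_eq_zero_of_dvd h'
  have e3 := pell7 hq hq2 hq7 h7 e1 e2
  have e4 : (a' - q) * (a' + q) = 0 := by
    rw [e3] at e1
    linear_combination e1
  have e5 : a' = q := by
    rcases mul_eq_zero.1 e4 with h | h
    · linarith
    · exfalso
      have h8 : a' = -q := by linarith
      rw [h8] at e2
      have h9 : (7 : ℤ) ∣ q := by omega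
      have h' : 7 ∣ q := by exact_mod_cast h9
      exact hq7 ((Nat.prime_dvd_prime_iff_eq (by norm_num) hq).1 h').symm
  have e6 : (v 0 - w 0) ^ 2 + (v 1 - w 1) ^ 2 + (v 2 - w 2) ^ 2 = 0 := by
    have : (v 0 - w 0) ^ 2 + (v 1 - w 1) ^ 2 + (v 2 - w 2) ^ 2 =
        v ⬝ᵥ v + w ⬝ᵥ w - 2 * (v ⬝ᵥ w) := by
      rw [dot3, dot3, dot3]
      ring
    rw [this, nv, nw, ha', e5]
    ring
  funext i
  have h0 := sq_nonneg (v 0 - w 0)
  have h1 := sq_nonneg (v 1 - w 1)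
  have h2 := sq_nonneg (v 2 - w 2)
  fin_cases i
  · have : (v 0 - w 0) ^ 2 = 0 := by linarith
    have := pow_eq_zero_iff (two_ne_zero) |>.1 this
    simpa using (sub_eq_zero.1 this)
  · have : (v 1 - w 1) ^ 2 = 0 := by linarith
    have := pow_eq_zero_iff (two_ne_zero) |>.1 this
    simpa using (sub_eq_zero.1 this)
  · have : (v 2 - w 2) ^ 2 = 0 := by linarith
    have := pow_eq_zero_iff (two_ne_zero) |>.1 this
    simpa using (sub_eq_zero.1 this)

/-! ### the base vector -/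

theorem crt_root {a b : ℤ} (h : IsCoprime a b) (ha : ∃ z : ℤ, a ∣ z ^ 2 + 14)
    (hb : ∃ z : ℤ, b ∣ z ^ 2 + 14) : ∃ z : ℤ, a * b ∣ z ^ 2 + 14 := by
  obtain ⟨z1, h1⟩ := ha
  obtain ⟨z2, h2⟩ := hb
  obtain ⟨x, y, hxy⟩ := h
  refine ⟨z1 * (y * b) + z2 * (x * a), (show IsCoprime a b from ⟨x, y, hxy⟩).mul_dvd ?_ ?_⟩
  · have e : (z1 * (y * b) + z2 * (x * a)) ^ 2 + 14 = (z1 ^ 2 + 14) +
        a * (x * (z2 - z1) * (z1 * (y * b) + z2 * (x * a) + z1)) := by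
      have e1 : z1 * (y * b) + z2 * (x * a) = z1 + a * (x * (z2 - z1)) := by
        linear_combination z1 * hxy
      rw [e1]
      ring
    rw [e]
    exact dvd_add h1 (dvd_mul_right _ _)
  · have e : (z1 * (y * b) + z2 * (x * a)) ^ 2 + 14 = (z2 ^ 2 + 14) +
        b * (y * (z1 - z2) * (z1 * (y * b) + z2 * (x * a) + z2)) := by
      have e1 : z1 * (y * b) + z2 * (x * a) = z2 + b * (y * (z1 - z2)) := by
        linear_combination z2 * hxy
      rw [e1]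
      ring
    rw [e]
    exact dvd_add h2 (dvd_mul_right _ _)

theorem root (N : Finset ℕ) (hN : ∀ p ∈ N, p.Prime) (hj : ∀ p ∈ N, jacobiSym (-14) p = 1) :
    ∃ z : ℤ, (pr N : ℤ) ∣ z ^ 2 + 14 := by
  classical
  unfold Pool.Agent.Z700.pr
  induction N using Finset.induction_on with
  | empty => exact ⟨0, by simp⟩
  | insert p N hp ih =>
    have i1 := ih (fun r hr => hN r (Finset.mem_insert_of_mem hr))
      (fun r hr => hj r (Finset.mem_insert_of_mem hr))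
    have hpp := hN p (Finset.mem_insert_self p N)
    have : Fact p.Prime := ⟨hpp⟩
    have i2 : ∃ z : ℤ, (p : ℤ) ∣ z ^ 2 + 14 := by
      obtain ⟨r, hr⟩ := ZMod.isSquare_of_jacobiSym_eq_one (hj p (Finset.mem_insert_self p N))
      refine ⟨(r.val : ℤ), ?_⟩
      rw [← ZMod.intCast_zmod_eq_zero_iff_dvd]
      push_cast
      rw [ZMod.natCast_val, ZMod.cast_id', id_eq]
      push_cast at hr
      linear_combination -hr
    rw [Finset.prod_insert hp]
    push_cast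
    refine crt_root ?_ i2 (by push_cast at i1; exact i1)
    have hc : Nat.Coprime p (∏ r ∈ N, r) := by
      rw [Nat.coprime_prod_right_iff]
      intro r hr
      exact (Nat.coprime_primes hpp (hN r (Finset.mem_insert_of_mem hr))).2
        (fun h => hp (h ▸ hr))
    have := Nat.isCoprime_iff_coprime.2 hc
    push_cast at this
    exact this

theorem sign_dec : ∀ β a b c : ZMod 7, a + 2 * b + 3 * c = 0 → a * a + b * b + c * c = -β ^ 2 →
    LZ n0 β a b c ∨ LZ n0 β (-a) (-b) (-c) := by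
  decide +kernel

theorem n_dec : ∀ β m : ZMod 7, m ≠ 0 → β ^ 2 = -m → m = 3 ∨ m = 5 ∨ m = 6 := by
  decide +kernel

theorem base_v (hCL : S_CL2) {n : ℕ} (hn : Odd n) (hn7 : n % 7 ≠ 0)
    (hz : ∃ z : ℤ, (n : ℤ) ∣ z ^ 2 + 14) {β : ZMod 7} (hβ : β ^ 2 = -(n : ZMod 7)) :
    ∃ v : V3, v ⬝ᵥ v = (n : ℤ) ∧ dn v = 0 ∧ Ln n0 β v := by
  have h3 : n % 7 = 3 ∨ n % 7 = 5 ∨ n % 7 = 6 := by
    have hm : (n : ZMod 7) ≠ 0 := by
      intro hc
      rw [ZMod.natCast_eq_zero_iff] at hc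
      omega
    have hlt : n % 7 < 7 := Nat.mod_lt _ (by norm_num)
    have e := n_dec β (n : ZMod 7) hm hβ
    have hcast : (n : ZMod 7) = ((n % 7 : ℕ) : ZMod 7) := by
      rw [ZMod.natCast_mod]
    rw [hcast] at e
    generalize n % 7 = k at *
    interval_cases k <;> revert e <;> decide
  obtain ⟨v, hv, hd⟩ := hCL n hn h3 hz
  have k := sign_dec β (v 0 : ZMod 7) (v 1 : ZMod 7) (v 2 : ZMod 7) ?_ ?_
  · rcases k with k | k
    · exact ⟨v, hv, hd, k⟩
    · refine ⟨-v, ?_, ?_, ?_⟩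
      · rw [neg_dotProduct_neg, hv]
      · unfold dn
        simp only [Pi.neg_apply]
        linarith
      · rw [ln_lz]
        simp only [Pi.neg_apply]
        push_cast
        exact k
  · have : ((v 0 + 2 * v 1 + 3 * v 2 : ℤ) : ZMod 7) = 0 := by rw [hd]; simp
    push_cast at this
    exact this
  · rw [hβ, neg_neg]
    have : ((v ⬝ᵥ v : ℤ) : ZMod 7) = ((n : ℤ) : ZMod 7) := by rw [hv]
    rw [dot3] at this
    push_cast at this
    exact this

end FlipW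

end Pool.Agent.NH1
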