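import Pool.Agent.NH1.Sub

/-!
# Hurwitz quaternions: basic properties
-/

set_option autoImplicit false

namespace Pool.Agent.NH1.HzB

open Quaternion Matrix
open Pool.Agent.NH1
open Pool.Agent.Z700 (V3)

lemma hz_iff (x : Quaternion ℚ) :
    Hz x ↔ ∃ a b c d : ℤ, x.re = (a : ℚ) / 2 ∧ x.imI = (a : ℚ) / 2 + b ∧
      x.imJ = (a : ℚ) / 2 + c ∧ x.imK = (a : ℚ) / 2 + d := by
  constructor
  · rintro ⟨a, b, c, d, h | h⟩
    · have h1 : x.re = a := congrArg (fun y => QuaternionAlgebra.re y) h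
      have h2 : x.imI = b := congrArg (fun y => QuaternionAlgebra.imI y) h
      have h3 : x.imJ = c := congrArg (fun y => QuaternionAlgebra.imJ y) h
      have h4 : x.imK = d := congrArg (fun y => QuaternionAlgebra.imK y) h
      refine ⟨2 * a, b - a, c - a, d - a, ?_, ?_, ?_, ?_⟩
      · rw [h1]; push_cast; ring
      · rw [h2]; push_cast; ring
      · rw [h3]; push_cast; ring
      · rw [h4]; push_cast; ring
    · have h1 : x.re = a + 1 / 2 := congrArg (fun y => QuaternionAlgebra.re y) h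
      have h2 : x.imI = b + 1 / 2 := congrArg (fun y => QuaternionAlgebra.imI y) h
      have h3 : x.imJ = c + 1 / 2 := congrArg (fun y => QuaternionAlgebra.imJ y) h
      have h4 : x.imK = d + 1 / 2 := congrArg (fun y => QuaternionAlgebra.imK y) h
      refine ⟨2 * a + 1, b - a, c - a, d - a, ?_, ?_, ?_, ?_⟩
      · rw [h1]; push_cast; ring
      · rw [h2]; push_cast; ring
      · rw [h3]; push_cast; ring
      · rw [h4]; push_cast; ring
  · rintro ⟨a, b, c, d, h1, h2, h3, h4⟩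
    rcases Int.even_or_odd' a with ⟨k, hk | hk⟩
    · refine ⟨k, k + b, k + c, k + d, Or.inl ?_⟩
      apply Quaternion.ext
      · show x.re = _
        rw [h1, hk]; push_cast; ring
      · show x.imI = _
        rw [h2, hk]; push_cast; ring
      · show x.imJ = _
        rw [h3, hk]; push_cast; ring
      · show x.imK = _
        rw [h4, hk]; push_cast; ring
    · refine ⟨k, k + b, k + c, k + d, Or.inr ?_⟩
      apply Quaternion.ext
      · show x.re = _
        rw [h1, hk]; push_cast; ring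
      · show x.imI = _
        rw [h2, hk]; push_cast; ring
      · show x.imJ = _
        rw [h3, hk]; push_cast; ring
      · show x.imK = _
        rw [h4, hk]; push_cast; ring

lemma hz_add {x y : Quaternion ℚ} (hx : Hz x) (hy : Hz y) : Hz (x + y) := by
  rw [hz_iff] at *
  obtain ⟨a, b, c, d, h1, h2, h3, h4⟩ := hx
  obtain ⟨a', b', c', d', h1', h2', h3', h4'⟩ := hy
  refine ⟨a + a', b + b', c + c', d + d', ?_, ?_, ?_, ?_⟩
  · rw [Quaternion.re_add, h1, h1']; push_cast; ring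
  · rw [Quaternion.imI_add, h2, h2']; push_cast; ring
  · rw [Quaternion.imJ_add, h3, h3']; push_cast; ring
  · rw [Quaternion.imK_add, h4, h4']; push_cast; ring

lemma hz_neg {x : Quaternion ℚ} (hx : Hz x) : Hz (-x) := by
  rw [hz_iff] at *
  obtain ⟨a, b, c, d, h1, h2, h3, h4⟩ := hx
  refine ⟨-a, -b, -c, -d, ?_, ?_, ?_, ?_⟩
  · rw [Quaternion.re_neg, h1]; push_cast; ring
  · rw [Quaternion.imI_neg, h2]; push_cast; ring
  · rw [Quaternion.imJ_neg, h3]; push_cast; ring
  · rw [Quaternion.imK_neg, h4]; push_cast; ring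

lemma hz_sub {x y : Quaternion ℚ} (hx : Hz x) (hy : Hz y) : Hz (x - y) := by
  rw [sub_eq_add_neg]
  exact hz_add hx (hz_neg hy)

lemma hz_star {x : Quaternion ℚ} (hx : Hz x) : Hz (star x) := by
  rw [hz_iff] at *
  obtain ⟨a, b, c, d, h1, h2, h3, h4⟩ := hx
  refine ⟨a, -a - b, -a - c, -a - d, ?_, ?_, ?_, ?_⟩
  · rw [Quaternion.re_star, h1]
  · rw [Quaternion.imI_star, h2]; push_cast; ring
  · rw [Quaternion.imJ_star, h3]; push_cast; ring
  · rw [Quaternion.imK_star, h4]; push_cast; ring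

lemma hz_mul {x y : Quaternion ℚ} (hx : Hz x) (hy : Hz y) : Hz (x * y) := by
  rw [hz_iff] at *
  obtain ⟨a, b, c, d, h1, h2, h3, h4⟩ := hx
  obtain ⟨a', b', c', d', h1', h2', h3', h4'⟩ := hy
  refine ⟨-(a * a') - a * (b' + c' + d') - a' * (b + c + d) - 2 * (b * b' + c * c' + d * d'),
    a * a' + a * (b' + d') + a' * (b + c) + (c * d' - d * c') + (b * b' + c * c' + d * d'),
    a * a' + a * (c' + b') + a' * (c + d) + (d * b' - b * d') + (b * b' + c * c' + d * d'),
    a * a' + a * (d' + c') + a' * (d + b) + (b * c' - c * b') + (b * b' + c * c' + d * d'),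
    ?_, ?_, ?_, ?_⟩
  · rw [Quaternion.re_mul, h1, h2, h3, h4, h1', h2', h3', h4']; push_cast; ring
  · rw [Quaternion.imI_mul, h1, h2, h3, h4, h1', h2', h3', h4']; push_cast; ring
  · rw [Quaternion.imJ_mul, h1, h2, h3, h4, h1', h2', h3', h4']; push_cast; ring
  · rw [Quaternion.imK_mul, h1, h2, h3, h4, h1', h2', h3', h4']; push_cast; ring

lemma hz_intCast (n : ℤ) : Hz (n : Quaternion ℚ) := by
  rw [hz_iff]
  refine ⟨2 * n, -n, -n, -n, ?_, ?_, ?_, ?_⟩
  · rw [Quaternion.re_intCast]; push_cast; ring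
  · rw [Quaternion.imI_intCast]; push_cast; ring
  · rw [Quaternion.imJ_intCast]; push_cast; ring
  · rw [Quaternion.imK_intCast]; push_cast; ring

lemma hz_natCast (n : ℕ) : Hz (n : Quaternion ℚ) := by
  have := hz_intCast n
  simpa using this

lemma hz_zero : Hz 0 := by simpa using hz_natCast 0

lemma hz_one : Hz 1 := by simpa using hz_natCast 1

lemma qv_re (v : V3) : (qv v).re = 0 := rfl
lemma qv_imI (v : V3) : (qv v).imI = v 0 := rfl
lemma qv_imJ (v : V3) : (qv v).imJ = v 1 := rfl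
lemma qv_imK (v : V3) : (qv v).imK = v 2 := rfl

lemma hz_qv (v : V3) : Hz (qv v) := by
  rw [hz_iff]
  refine ⟨0, v 0, v 1, v 2, ?_, ?_, ?_, ?_⟩
  · rw [qv_re]; simp
  · rw [qv_imI]; simp
  · rw [qv_imJ]; simp
  · rw [qv_imK]; simp

lemma norm_hz {x : Quaternion ℚ} (hx : Hz x) : ∃ n : ℕ, normSq x = n := by
  rw [hz_iff] at hx
  obtain ⟨a, b, c, d, h1, h2, h3, h4⟩ := hx
  have h0 : normSq x = ((a ^ 2 + a * (b + c + d) + (b ^ 2 + c ^ 2 + d ^ 2) : ℤ) : ℚ) := by
    rw [normSq_def', h1, h2, h3, h4]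
    push_cast
    ring
  have h5 : (0 : ℚ) ≤ normSq x := normSq_nonneg
  rw [h0] at h5
  have h6 : 0 ≤ a ^ 2 + a * (b + c + d) + (b ^ 2 + c ^ 2 + d ^ 2) := by exact_mod_cast h5
  refine ⟨(a ^ 2 + a * (b + c + d) + (b ^ 2 + c ^ 2 + d ^ 2)).toNat, ?_⟩
  rw [h0]
  have h7 := Int.toNat_of_nonneg h6
  exact_mod_cast h7.symm

lemma re_hz {x : Quaternion ℚ} (hx : Hz x) : ∃ t : ℤ, 2 * x.re = t := by
  rw [hz_iff] at hx
  obtain ⟨a, b, c, d, h1, -⟩ := hx
  exact ⟨a, by rw [h1]; ring⟩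

/-- a pure Hurwitz quaternion has integer coordinates -/
lemma hz_pure {x : Quaternion ℚ} (hx : Hz x) (h : x.re = 0) : ∃ w : V3, x = qv w := by
  rw [hz_iff] at hx
  obtain ⟨a, b, c, d, h1, h2, h3, h4⟩ := hx
  rw [h] at h1
  refine ⟨![b, c, d], ?_⟩
  apply Quaternion.ext
  · rw [h, qv_re]
  · rw [h2, ← h1, qv_imI]; simp
  · rw [h3, ← h1, qv_imJ]; simp
  · rw [h4, ← h1, qv_imK]; simp

lemma normSq_qv (v : V3) : normSq (qv v) = ((v ⬝ᵥ v : ℤ) : ℚ) := by
  rw [normSq_def', qv_re, qv_imI, qv_imJ, qv_imK]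
  simp [dotProduct, Fin.sum_univ_three]
  ring

lemma qv_sq (v : V3) : qv v * qv v = ((-(v ⬝ᵥ v) : ℤ) : Quaternion ℚ) := by
  apply Quaternion.ext
  · rw [Quaternion.re_mul, qv_re, qv_imI, qv_imJ, qv_imK, Quaternion.re_intCast]
    simp [dotProduct, Fin.sum_univ_three]
    ring
  · rw [Quaternion.imI_mul, qv_re, qv_imI, qv_imJ, qv_imK, Quaternion.imI_intCast]
    ring
  · rw [Quaternion.imJ_mul, qv_re, qv_imI, qv_imJ, qv_imK, Quaternion.imJ_intCast]
    ring
  · rw [Quaternion.imK_mul, qv_re, qv_imI, qv_imJ, qv_imK, Quaternion.imK_intCast]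
    ring

/-- the Euclidean algorithm -/
theorem t_HE : S_HE := by
  intro a b ha hb hb0
  have key : ∀ y : Quaternion ℚ, ∃ q, Hz q ∧ normSq (y - q) < 1 := by
    intro y
    by_cases h : normSq (y - ⟨round y.re, round y.imI, round y.imJ, round y.imK⟩) < 1
    · exact ⟨_, ⟨_, _, _, _, Or.inl rfl⟩, h⟩
    · set r0 := round y.re with hr0
      set r1 := round y.imI with hr1
      set r2 := round y.imJ with hr2
      set r3 := round y.imK with hr3
      have e0 := abs_sub_round y.re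
      have e1 := abs_sub_round y.imI
      have e2 := abs_sub_round y.imJ
      have e3 := abs_sub_round y.imK
      rw [← hr0] at e0
      rw [← hr1] at e1
      rw [← hr2] at e2
      rw [← hr3] at e3
      have h2 : 1 ≤ (y.re - r0) ^ 2 + (y.imI - r1) ^ 2 + (y.imJ - r2) ^ 2 + (y.imK - r3) ^ 2 := by
        rw [not_lt] at h
        rw [normSq_def'] at h
        exact h
      have sq : ∀ t : ℚ, |t| ≤ 1 / 2 → t ^ 2 ≤ 1 / 4 := by
        intro t ht
        have := abs_le.1 ht
        nlinarith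
      have s0 := sq _ e0
      have s1 := sq _ e1
      have s2 := sq _ e2
      have s3 := sq _ e3
      have half : ∀ t : ℚ, t ^ 2 = 1 / 4 → t = 1 / 2 ∨ t = -(1 / 2) := by
        intro t ht
        have : (t - 1 / 2) * (t + 1 / 2) = 0 := by linarith [ht, (by ring : (t - 1 / 2) * (t + 1 / 2) = t ^ 2 - 1 / 4)]
        rcases mul_eq_zero.1 this with h | h
        · left; linarith
        · right; linarith
      have int : ∀ (t : ℚ) (r : ℤ), (t - r) ^ 2 = 1 / 4 → ∃ k : ℤ, t = k + 1 / 2 := by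
        intro t r ht
        rcases half _ ht with h | h
        · exact ⟨r, by linarith⟩
        · exact ⟨r - 1, by push_cast; linarith⟩
      obtain ⟨k0, hk0⟩ := int y.re r0 (by linarith)
      obtain ⟨k1, hk1⟩ := int y.imI r1 (by linarith)
      obtain ⟨k2, hk2⟩ := int y.imJ r2 (by linarith)
      obtain ⟨k3, hk3⟩ := int y.imK r3 (by linarith)
      refine ⟨y, ⟨k0, k1, k2, k3, Or.inr ?_⟩, ?_⟩
      · apply Quaternion.ext
        · exact hk0
        · exact hk1
        · exact hk2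
        · exact hk3
      · rw [sub_self, map_zero]
        norm_num
  obtain ⟨q, hq, hq1⟩ := key (a * b⁻¹)
  refine ⟨q, hq, ?_⟩
  have e : a - q * b = (a * b⁻¹ - q) * b := by
    rw [sub_mul, mul_assoc, inv_mul_cancel₀ hb0, mul_one]
  rw [e, map_mul]
  have hb1 : 0 < normSq b := lt_of_le_of_ne normSq_nonneg (Ne.symm (by
    rw [Ne, normSq_eq_zero]; exact hb0))
  nlinarith

end Pool.Agent.NH1.HzB
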