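import Pool.Agent.NH1.MainE

/-!
# NH1-27: the structure theorem `S_MAIN`
-/

set_option autoImplicit false

namespace Pool.Agent.NH1

open Finset Matrix
open Pool.Agent.Z700 (V3 vec pr Ln n0 ep X2)

namespace Mn

/-- the induction step for the constants -/
theorem PX_step (h1 : S_A2) (h3 : S_EPAT) (h4 : S_EREF) (h6 : S_CVAN) (h8 : S_CREF)
    (h9 : S_BASE) {P : Finset ℕ} (hP : Pm P) (hK : K 1 (pr P) ∨ K 7 (pr P)) {r : ℕ}
    (hr : r = 3 ∨ r = 5) (ih : IH P) : PX r P := by
  by_cases he : P = ∅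
  · rw [he]
    exact PX_empty r hr
  obtain ⟨q, hq, hqP, hq8⟩ := exists_q hK hr
  have h : Cfg P q := ⟨hP, hK, hq, hqP⟩
  have hr' : pr (insert q P) % 8 = r := by rw [pr_insert hqP, hq8]
  have hcard : 1 ≤ P.card := card_pos.2 (nonempty_iff_ne_empty.2 he)
  have ct := card_types P
  have hpar := h.par
  have key : ∀ q', TI q' → 1 < P.card → PY {q'} := by
    intro q' hq' h1P
    have hPm : Pm ({q'} : Finset ℕ) := by
      intro p hp
      rw [mem_singleton.1 hp]
      exact ⟨hq'.pri, hq'.n2, hq'.n7⟩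
    refine (ih {q'} ?_).2 hPm ?_
    · unfold lt'
      rw [emptyS hq', emptyA hq', emptyB hq', cardI hq']
      simp only [card_empty]
      omega
    · rw [K35_iff hPm, emptyA hq', emptyB hq', cardI hq']
      simp
  have hYq : PY {q} := by
    have hPm : Pm ({q} : Finset ℕ) := by
      intro p hp
      rw [mem_singleton.1 hp]
      exact ⟨hq.pri, hq.n2, hq.n7⟩
    refine (ih {q} ?_).2 hPm ?_
    · unfold lt'
      rw [emptyS hq, emptyA hq, emptyB hq, cardI hq]
      simp only [card_empty]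
      omega
    · rw [K35_iff hPm, emptyA hq, emptyB hq, cardI hq]
      simp
  rw [← hr']
  by_cases hn : 1 ≤ (sS P).card + (sA P).card + (sB P).card
  · obtain ⟨p0, hp0, ht⟩ := exists_not_I hn
    by_cases hab : (sA P).card = (sB P).card → 2 ≤ (sI P).card + (sA P).card
    · exact h.caseA hYq h1 h3 h6 ih hp0 ht hab
    · push Not at hab
      have hS : sS P = P := by
        apply eq_of_subset_of_card_le (filter_subset _ _)
        change P.card ≤ (sS P).card
        omega
      exact h.caseB hYq h1 h4 h8 ih hp0 hS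
  · have hn0 : (sS P).card + (sA P).card + (sB P).card = 0 := by omega
    by_cases h4' : 4 ≤ P.card
    · obtain ⟨p0, hp0, p1, hp1, hne⟩ := one_lt_card.1 (by omega : 1 < P.card)
      exact h.caseC hYq h1 h3 h6 ih hp0 hp1 hne hn0 h4'
    · have h2 : P.card = 2 := by omega
      obtain ⟨x, y, hxy, rfl⟩ := card_eq_two.1 h2
      have hTI : ∀ p ∈ ({x, y} : Finset ℕ), TI p := by
        intro p hp
        obtain ⟨a1, a2, a3⟩ := hP p hp
        have hno : ¬ (sq2 p ∨ sq7 p) := fun hc => by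
          have := pos_of_not_I hp hc
          omega
        exact ⟨a1, a2, a3, fun hc => hno (Or.inl hc), fun hc => hno (Or.inr hc)⟩
      exact pairs (fun q' hq' => key q' hq' (by omega)) h1 h3 h9 _ (by rw [hr']; exact hr) x y
        (hTI x (by simp)) (hTI y (by simp)) hxy

theorem ind (h1 : S_A2) (h2 : S_EALL) (h3 : S_EPAT) (h4 : S_EREF) (h5 : S_RED)
    (h6 : S_CVAN) (h7 : S_CTOP) (h8 : S_CREF) (h9 : S_BASE) :
    ∀ (m k : ℕ) (X : Finset ℕ), (sS X).card + (sA X).card + (sB X).card = m → (sI X).card = k →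
      (∀ r, (r = 3 ∨ r = 5) → Pm X → (K 1 (pr X) ∨ K 7 (pr X)) → PX r X) ∧
      (Pm X → (K 3 (pr X) ∨ K 5 (pr X)) → PY X) := by
  intro m
  induction m using Nat.strong_induction_on with
  | _ m ihm =>
    intro k
    induction k using Nat.strong_induction_on with
    | _ k ihk =>
      intro X hm hk
      have ih : IH X := by
        intro X' hlt
        rcases hlt with h | ⟨h, h'⟩
        · exact ihm _ (by omega) _ X' rfl rfl
        · exact ihk _ (by omega) X' (by omega) rfl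
      refine ⟨fun r hr hP hK => PX_step h1 h3 h4 h6 h8 h9 hP hK hr ih, fun hN hK => ?_⟩
      refine PY_step h1 h2 h5 h6 h7 hN hK ?_ ?_
      · intro P hPN hk
        exact (ih P (lt'_ssub hPN)).1 _ (K35_r hK) (Pm.mono hN hPN.1) hk
      · intro Q hQN hk
        exact (ih Q (lt'_ssub hQN)).2 (Pm.mono hN hQN.1) hk

end Mn

theorem t_MAIN (h1 : S_A2) (h2 : S_EALL) (h3 : S_EPAT) (h4 : S_EREF) (h5 : S_RED)
    (h6 : S_CVAN) (h7 : S_CTOP) (h8 : S_CREF) (h9 : S_BASE) : S_MAIN :=
  ⟨fun r P hr hP hK => (Mn.ind h1 h2 h3 h4 h5 h6 h7 h8 h9 _ _ P rfl rfl).1 r hr hP hK,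
    fun N hN hK => (Mn.ind h1 h2 h3 h4 h5 h6 h7 h8 h9 _ _ N rfl rfl).2 hN hK⟩

end Pool.Agent.NH1
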