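import Pool.Agent.NH1.Defs

/-!
# NH1-27, part A: types, cardinalities and the exponent of two
-/

set_option autoImplicit false

namespace Pool.Agent.NH1.Mn

open Finset Matrix
open Pool.Agent.Z700 (V3 vec pr Ln n0 ep X2)

theorem split_card (f : ℕ → Prop) [DecidablePred f] {N P : Finset ℕ} (h : P ⊆ N) :
    (N.filter f).card = (P.filter f).card + ((N \ P).filter f).card := by
  rw [card_filter, card_filter, card_filter, add_comm]
  exact (Finset.sum_sdiff h).symm

theorem splitS {N P : Finset ℕ} (h : P ⊆ N) : (sS N).card = (sS P).card + (sS (N \ P)).card :=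
  split_card _ h
theorem splitI {N P : Finset ℕ} (h : P ⊆ N) : (sI N).card = (sI P).card + (sI (N \ P)).card :=
  split_card _ h
theorem splitA {N P : Finset ℕ} (h : P ⊆ N) : (sA N).card = (sA P).card + (sA (N \ P)).card :=
  split_card _ h
theorem splitB {N P : Finset ℕ} (h : P ⊆ N) : (sB N).card = (sB P).card + (sB (N \ P)).card :=
  split_card _ h

theorem card_types (X : Finset ℕ) :
    X.card = (sS X).card + (sI X).card + (sA X).card + (sB X).card := by
  unfold sS sI sA sB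
  rw [card_filter, card_filter, card_filter, card_filter, card_eq_sum_ones,
    ← sum_add_distrib, ← sum_add_distrib, ← sum_add_distrib]
  apply sum_congr rfl
  intro p _
  by_cases h1 : sq2 p <;> by_cases h2 : sq7 p <;> simp [h1, h2]

/-- an element not of type `I` -/
theorem pos_of_not_I {X : Finset ℕ} {p : ℕ} (hp : p ∈ X) (h : sq2 p ∨ sq7 p) :
    1 ≤ (sS X).card + (sA X).card + (sB X).card := by
  by_contra hc
  have h1 : (sS X).card = 0 := by omega
  have h2 : (sA X).card = 0 := by omega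
  have h3 : (sB X).card = 0 := by omega
  rw [card_eq_zero] at h1 h2 h3
  have a1 : p ∉ sS X := by rw [h1]; simp
  have a2 : p ∉ sA X := by rw [h2]; simp
  have a3 : p ∉ sB X := by rw [h3]; simp
  simp only [sS, sA, sB, mem_filter, hp, true_and] at a1 a2 a3
  tauto

theorem exists_not_I {X : Finset ℕ} (h : 1 ≤ (sS X).card + (sA X).card + (sB X).card) :
    ∃ p ∈ X, sq2 p ∨ sq7 p := by
  by_contra hc
  push Not at hc
  have h1 : sS X = ∅ := by
    apply filter_false_of_mem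
    intro p hp
    have := hc p hp
    tauto
  have h2 : sA X = ∅ := by
    apply filter_false_of_mem
    intro p hp
    have := hc p hp
    tauto
  have h3 : sB X = ∅ := by
    apply filter_false_of_mem
    intro p hp
    have := hc p hp
    tauto
  rw [h1, h2, h3] at h
  simp at h

theorem odd_prime {p : ℕ} (h : p.Prime) (h2 : p ≠ 2) : p % 2 = 1 := by
  rcases h.eq_two_or_odd with h' | h'
  · exact absurd h' h2
  · exact h'

theorem not7 {p : ℕ} (h : p.Prime) (h7 : p ≠ 7) : p % 7 ≠ 0 := by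
  intro h'
  have : 7 ∣ p := Nat.dvd_of_mod_eq_zero h'
  rcases (Nat.dvd_prime h).1 this with h1 | h1 <;> omega

theorem sq2_mul {p m : ℕ} (h1 : p % 2 = 1) (h2 : m % 2 = 1) : sq2 (p * m) ↔ (sq2 p ↔ sq2 m) := by
  have e : (p * m) % 8 = ((p % 8) * (m % 8)) % 8 := Nat.mul_mod _ _ _
  unfold sq2
  have a1 : p % 8 = 1 ∨ p % 8 = 3 ∨ p % 8 = 5 ∨ p % 8 = 7 := by omega
  have a2 : m % 8 = 1 ∨ m % 8 = 3 ∨ m % 8 = 5 ∨ m % 8 = 7 := by omega
  rcases a1 with a1 | a1 | a1 | a1 <;> rcases a2 with a2 | a2 | a2 | a2 <;> rw [e, a1, a2] <;>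
    simp

theorem sq7_mul {p m : ℕ} (h1 : p % 7 ≠ 0) (h2 : m % 7 ≠ 0) :
    sq7 (p * m) ↔ (sq7 p ↔ sq7 m) := by
  have e : (p * m) % 7 = ((p % 7) * (m % 7)) % 7 := Nat.mul_mod _ _ _
  unfold sq7
  have a1 : p % 7 = 1 ∨ p % 7 = 2 ∨ p % 7 = 3 ∨ p % 7 = 4 ∨ p % 7 = 5 ∨ p % 7 = 6 := by omega
  have a2 : m % 7 = 1 ∨ m % 7 = 2 ∨ m % 7 = 3 ∨ m % 7 = 4 ∨ m % 7 = 5 ∨ m % 7 = 6 := by omega
  rcases a1 with a1 | a1 | a1 | a1 | a1 | a1 <;>
    rcases a2 with a2 | a2 | a2 | a2 | a2 | a2 <;> rw [e, a1, a2] <;>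
    simp

theorem Pm.mono {P N : Finset ℕ} (h : Pm N) (hP : P ⊆ N) : Pm P := fun p hp => h p (hP hp)

theorem pr_insert {p : ℕ} {X : Finset ℕ} (h : p ∉ X) : pr (insert p X) = p * pr X := by
  unfold pr
  exact prod_insert h

theorem pr_pos {X : Finset ℕ} (h : Pm X) : 0 < pr X := by
  unfold pr
  exact prod_pos fun p hp => (h p hp).1.pos

theorem pr_split {P N : Finset ℕ} (h : P ⊆ N) : pr N = pr P * pr (N \ P) := by
  unfold pr
  rw [mul_comm]
  exact (prod_sdiff h).symm

theorem cls (X : Finset ℕ) (h : Pm X) : pr X % 2 = 1 ∧ pr X % 7 ≠ 0 ∧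
    (sq2 (pr X) ↔ ((sI X).card + (sB X).card) % 2 = 0) ∧
    (sq7 (pr X) ↔ ((sI X).card + (sA X).card) % 2 = 0) := by
  induction X using Finset.induction_on with
  | empty =>
    simp [pr, sI, sA, sB, sq2, sq7]
  | insert p X hp ih =>
    obtain ⟨i1, i2, i3, i4⟩ := ih (Pm.mono h (subset_insert _ _))
    obtain ⟨pp, p2, p7⟩ := h p (mem_insert_self _ _)
    have o2 := odd_prime pp p2
    have o7 := not7 pp p7
    rw [pr_insert hp]
    have hI : (sI (insert p X)).card = (sI X).card + if ¬ sq2 p ∧ ¬ sq7 p then 1 else 0 := by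
      unfold sI
      rw [filter_insert]
      split_ifs with h'
      · rw [card_insert_of_notMem]
        simp [hp]
      · rfl
    have hA : (sA (insert p X)).card = (sA X).card + if sq2 p ∧ ¬ sq7 p then 1 else 0 := by
      unfold sA
      rw [filter_insert]
      split_ifs with h'
      · rw [card_insert_of_notMem]
        simp [hp]
      · rfl
    have hB : (sB (insert p X)).card = (sB X).card + if ¬ sq2 p ∧ sq7 p then 1 else 0 := by
      unfold sB
      rw [filter_insert]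
      split_ifs with h'
      · rw [card_insert_of_notMem]
        simp [hp]
      · rfl
    refine ⟨?_, ?_, ?_, ?_⟩
    · rw [Nat.mul_mod, o2, i1]
    · intro h0
      have : 7 ∣ p * pr X := Nat.dvd_of_mod_eq_zero h0
      rcases (Nat.Prime.dvd_mul (by norm_num)).1 this with h1 | h1
      · exact o7 (Nat.mod_eq_zero_of_dvd h1)
      · exact i2 (Nat.mod_eq_zero_of_dvd h1)
    · rw [sq2_mul o2 i1, i3, hI, hB]
      by_cases h1 : sq2 p <;> by_cases h2 : sq7 p <;> simp [h1, h2] <;> omega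
    · rw [sq7_mul o7 i2, i4, hI, hA]
      by_cases h1 : sq2 p <;> by_cases h2 : sq7 p <;> simp [h1, h2] <;> omega

theorem K17 {m : ℕ} : (K 1 m ∨ K 7 m) ↔ (sq2 m ∧ sq7 m) := by
  unfold K sq2 sq7
  simp
  omega

theorem K35 {m : ℕ} (h2 : m % 2 = 1) (h7 : m % 7 ≠ 0) :
    (K 3 m ∨ K 5 m) ↔ (¬ sq2 m ∧ ¬ sq7 m) := by
  unfold K sq2 sq7
  simp
  omega

theorem K17_iff {X : Finset ℕ} (h : Pm X) : (K 1 (pr X) ∨ K 7 (pr X)) ↔
    (((sI X).card + (sB X).card) % 2 = 0 ∧ ((sI X).card + (sA X).card) % 2 = 0) := by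
  obtain ⟨i1, i2, i3, i4⟩ := cls X h
  rw [K17, i3, i4]

theorem K35_iff {X : Finset ℕ} (h : Pm X) : (K 3 (pr X) ∨ K 5 (pr X)) ↔
    (((sI X).card + (sB X).card) % 2 = 1 ∧ ((sI X).card + (sA X).card) % 2 = 1) := by
  obtain ⟨i1, i2, i3, i4⟩ := cls X h
  rw [K35 i1 i2, i3, i4]
  omega

theorem K35_r {m : ℕ} (h : K 3 m ∨ K 5 m) : m % 8 = 3 ∨ m % 8 = 5 := by
  rcases h with h | h
  · exact Or.inl h.1
  · exact Or.inr h.1

theorem mem_adm {N P : Finset ℕ} : P ∈ adm N ↔ P ⊆ N ∧ (K 1 (pr P) ∨ K 7 (pr P)) := by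
  unfold adm
  rw [mem_filter, mem_powerset]

/-- the measure -/
def lt' (X' X : Finset ℕ) : Prop :=
  (sS X').card + (sA X').card + (sB X').card < (sS X).card + (sA X).card + (sB X).card ∨
  ((sS X').card + (sA X').card + (sB X').card = (sS X).card + (sA X).card + (sB X).card ∧
    (sI X').card < (sI X).card)

theorem lt'_ssub {X' X : Finset ℕ} (h : X' ⊂ X) : lt' X' X := by
  have h1 := card_lt_card h
  have a1 := splitS h.1
  have a2 := splitI h.1
  have a3 := splitA h.1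
  have a4 := splitB h.1
  have b1 := card_types X
  have b2 := card_types X'
  unfold lt'
  omega

theorem ex_le {N P : Finset ℕ} (hN : Pm N) (hK : K 3 (pr N) ∨ K 5 (pr N)) (hP : P ∈ adm N) :
    ex N ≤ ex P + ex (N \ P) := by
  obtain ⟨h1, h2⟩ := mem_adm.1 hP
  have k1 := (K35_iff hN).1 hK
  have k2 := (K17_iff (Pm.mono hN h1)).1 h2
  have a1 := splitS h1
  have a2 := splitI h1
  have a3 := splitA h1
  have a4 := splitB h1
  unfold ex
  omega

theorem ex_lt {N P : Finset ℕ} (hN : Pm N) (hK : K 3 (pr N) ∨ K 5 (pr N)) (hP : P ∈ adm N)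
    (hab : (sA N).card = (sB N).card) (hn : (sA P).card ≠ (sB P).card) :
    ex N < ex P + ex (N \ P) := by
  obtain ⟨h1, h2⟩ := mem_adm.1 hP
  have k1 := (K35_iff hN).1 hK
  have k2 := (K17_iff (Pm.mono hN h1)).1 h2
  have a1 := splitS h1
  have a2 := splitI h1
  have a3 := splitA h1
  have a4 := splitB h1
  unfold ex
  omega

theorem ex_eq {N P : Finset ℕ} (hN : Pm N) (hK : K 3 (pr N) ∨ K 5 (pr N)) (hP : P ∈ adm N)
    (hab : (sA N).card = (sB N).card) (hn : (sA P).card = (sB P).card) :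
    ex N = ex P + ex (N \ P) := by
  obtain ⟨h1, h2⟩ := mem_adm.1 hP
  have k1 := (K35_iff hN).1 hK
  have k2 := (K17_iff (Pm.mono hN h1)).1 h2
  have a1 := splitS h1
  have a2 := splitI h1
  have a3 := splitA h1
  have a4 := splitB h1
  unfold ex
  omega

/-- determinants of sets with different numbers of rows and columns -/
theorem DD_zero (h : ℕ → ZMod 2) {X : Finset ℕ} (hn : (sA X).card ≠ (sB X).card) : DD h X = 0 := by
  unfold DD perm2
  have he : IsEmpty ((sS X ∪ sB X : Finset ℕ) ≃ (sS X ∪ sA X : Finset ℕ)) := by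
    constructor
    intro e
    have h1 := Fintype.card_congr e
    rw [Fintype.card_coe, Fintype.card_coe, card_union_of_disjoint, card_union_of_disjoint] at h1
    · omega
    · rw [disjoint_left]
      intro p hp hq
      simp only [sS, sA, mem_filter] at hp hq
      tauto
    · rw [disjoint_left]
      intro p hp hq
      simp only [sS, sB, mem_filter] at hp hq
      tauto
  exact Fintype.sum_empty _

theorem DD_one (h : ℕ → ZMod 2) {X : Finset ℕ} (h1 : sS X = ∅) (h2 : sA X = ∅) (h3 : sB X = ∅) :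
    DD h X = 1 := by
  unfold DD perm2
  rw [h1, h2, h3, empty_union]
  rw [Fintype.sum_subsingleton _ (Equiv.refl _)]
  exact Fintype.prod_empty _

theorem sqrt7 {m : ℕ} (h : sq7 m) : ∃ s : ZMod 7, s ^ 2 = (m : ZMod 7) := by
  have e : (m : ZMod 7) = ((m % 7 : ℕ) : ZMod 7) := (ZMod.natCast_mod m 7).symm
  rcases h with h | h | h
  · exact ⟨1, by rw [e, h]; decide⟩
  · exact ⟨3, by rw [e, h]; decide⟩
  · exact ⟨2, by rw [e, h]; decide⟩

theorem sqrt7' {m : ℕ} (h7 : m % 7 ≠ 0) (h : ¬ sq7 m) : ∃ s : ZMod 7, s ^ 2 = -(m : ZMod 7) := by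
  have e : (m : ZMod 7) = ((m % 7 : ℕ) : ZMod 7) := (ZMod.natCast_mod m 7).symm
  unfold sq7 at h
  have h' : m % 7 = 3 ∨ m % 7 = 5 ∨ m % 7 = 6 := by omega
  rcases h' with h | h | h
  · exact ⟨2, by rw [e, h]; decide⟩
  · exact ⟨3, by rw [e, h]; decide⟩
  · exact ⟨1, by rw [e, h]; decide⟩

end Pool.Agent.NH1.Mn
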