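import Pool.Agent.NH1.MainA

/-!
# NH1-27, part B: the terms
-/

set_option autoImplicit false

namespace Pool.Agent.NH1.Mn

open Finset Matrix
open Pool.Agent.Z700 (V3 vec pr Ln n0 ep X2)

instance : Fact (Nat.Prime 7) := ⟨by norm_num⟩

theorem cast7_ne {m : ℕ} (h : m % 7 ≠ 0) : (m : ZMod 7) ≠ 0 := by
  intro h0
  rw [ZMod.natCast_eq_zero_iff] at h0
  exact h (Nat.mod_eq_zero_of_dvd h0)

/-- the factorization of a term -/
theorem factor {N P : Finset ℕ} (hN : Pm N) (hP : P ∈ adm N)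
    {β : ZMod 7} (hβ : β ^ 2 = -(pr N : ZMod 7)) {s : ZMod 7} {c : ℤ}
    (hs : s ^ 2 = (pr P : ZMod 7))
    (hc : ∀ (n : ℕ) (β : ZMod 7), 0 < n → (pr P * n) % 8 = pr N % 8 →
      Y (pr N % 8) P ((pr P * n : ℕ) : ℤ) (s * β) = c * G n β) :
    ∃ β' : ZMod 7, β' ^ 2 = -(pr (N \ P) : ZMod 7) ∧
      Y (pr N % 8) P (pr N : ℤ) β = c * G (pr (N \ P)) β' := by
  obtain ⟨h1, h2⟩ := mem_adm.1 hP
  have hPm := Pm.mono hN h1
  have hQm := Pm.mono hN (sdiff_subset : N \ P ⊆ N)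
  have h0 : (pr P : ZMod 7) ≠ 0 := cast7_ne (cls P hPm).2.1
  have hs0 : s ≠ 0 := by
    rintro rfl
    apply h0
    rw [← hs]
    ring
  have e := pr_split h1
  refine ⟨β / s, ?_, ?_⟩
  · rw [div_pow, hβ, hs, e]
    push_cast
    field_simp
  · have := hc (pr (N \ P)) (β / s) (pr_pos hQm) (by rw [← e])
    rw [← e] at this
    rw [← this]
    congr 1
    field_simp

theorem K35_sdiff {N P : Finset ℕ} (hN : Pm N) (hK : K 3 (pr N) ∨ K 5 (pr N)) (hP : P ∈ adm N) :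
    K 3 (pr (N \ P)) ∨ K 5 (pr (N \ P)) := by
  obtain ⟨h1, h2⟩ := mem_adm.1 hP
  have hPm := Pm.mono hN h1
  have hQm := Pm.mono hN (sdiff_subset : N \ P ⊆ N)
  have k1 := (K35_iff hN).1 hK
  have k2 := (K17_iff hPm).1 h2
  rw [K35_iff hQm]
  have a2 := splitI h1
  have a3 := splitA h1
  have a4 := splitB h1
  omega

/-- the property of a term -/
def Tm (N : Finset ℕ) (β : ZMod 7) (P : Finset ℕ) : Prop :=
  ∃ w : ℤ, Y (pr N % 8) P (pr N : ℤ) β = 2 ^ ex N * w ∧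
    ((sA N).card = (sB N).card → (w : ZMod 2) = DD (hh (pr N % 8)) P * DD gX (N \ P))

theorem term (hA : S_A2) {N P : Finset ℕ} (hN : Pm N) (hK : K 3 (pr N) ∨ K 5 (pr N))
    {β : ZMod 7} (hβ : β ^ 2 = -(pr N : ZMod 7)) (hP : P ∈ adm N)
    (h1 : PX (pr N % 8) P) (h2 : PY (N \ P)) : Tm N β P := by
  obtain ⟨hs, hk⟩ := mem_adm.1 hP
  have hPm := Pm.mono hN hs
  have h17 : sq7 (pr P) := (K17.1 hk).2
  obtain ⟨s, hs'⟩ := sqrt7 h17
  obtain ⟨c, hc⟩ := hA (pr N % 8) P s (K35_r hK) hPm hk hs'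
  obtain ⟨β', hb, he⟩ := factor hN hP hβ hs' hc
  obtain ⟨u, hu, hu'⟩ := h1 s c hs' hc
  obtain ⟨v, hv, hv'⟩ := h2 β' hb
  have a3 := splitA hs
  have a4 := splitB hs
  by_cases hab : (sA N).card = (sB N).card
  · by_cases hn : (sA P).card = (sB P).card
    · have e := ex_eq hN hK hP hab hn
      refine ⟨u * v, ?_, fun _ => ?_⟩
      · rw [he, hu, hv, e, pow_add]
        ring
      · push_cast
        rw [hu' hn, hv' (by omega)]
    · have e := ex_lt hN hK hP hab hn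
      obtain ⟨d, hd⟩ : ∃ d, ex P + ex (N \ P) = ex N + 1 + d := ⟨ex P + ex (N \ P) - (ex N + 1), by omega⟩
      refine ⟨2 * (2 ^ d * u * v), ?_, fun _ => ?_⟩
      · rw [he, hu, hv]
        have : (2 : ℤ) ^ ex P * 2 ^ ex (N \ P) = 2 ^ ex N * 2 * 2 ^ d := by
          rw [← pow_add, hd, pow_add, pow_add, pow_one]
        linear_combination u * v * this
      · rw [DD_zero _ hn, zero_mul]
        push_cast
        have : (2 : ZMod 2) = 0 := rfl
        rw [this, zero_mul]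
  · have e := ex_le hN hK hP
    obtain ⟨d, hd⟩ : ∃ d, ex P + ex (N \ P) = ex N + d := ⟨ex P + ex (N \ P) - ex N, by omega⟩
    refine ⟨2 ^ d * u * v, ?_, fun h => absurd h hab⟩
    rw [he, hu, hv]
    have : (2 : ℤ) ^ ex P * 2 ^ ex (N \ P) = 2 ^ ex N * 2 ^ d := by
      rw [← pow_add, hd, pow_add]
    linear_combination u * v * this

theorem sumterm {N : Finset ℕ} {β : ZMod 7} (S : Finset (Finset ℕ)) (H : ∀ P ∈ S, Tm N β P) :
    ∃ W : ℤ, ∑ P ∈ S, Y (pr N % 8) P (pr N : ℤ) β = 2 ^ ex N * W ∧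
    ((sA N).card = (sB N).card →
      (W : ZMod 2) = ∑ P ∈ S, DD (hh (pr N % 8)) P * DD gX (N \ P)) := by
  induction S using Finset.induction_on with
  | empty => exact ⟨0, by simp, by simp⟩
  | insert P S hP ih =>
    obtain ⟨W, h1, h2⟩ := ih fun Q hQ => H Q (mem_insert_of_mem hQ)
    obtain ⟨w, h3, h4⟩ := H P (mem_insert_self _ _)
    refine ⟨w + W, ?_, fun hab => ?_⟩
    · rw [sum_insert hP, h1, h3]
      ring
    · rw [sum_insert hP, ← h2 hab, ← h4 hab]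
      push_cast
      rfl

/-- solving for the top term -/
theorem closing (c g : ℤ) (e : ℕ) (W R : ℤ) (hg : (g : ZMod 2) = 1)
    (h : c * g + 2 ^ e * W = 2 ^ e * R) : ∃ u : ℤ, c = 2 ^ e * u ∧
    (u : ZMod 2) = (R : ZMod 2) + (W : ZMod 2) := by
  have hodd : IsCoprime ((2 : ℤ) ^ e) g := by
    apply IsCoprime.pow_left
    have h1 : ((g - 1 : ℤ) : ZMod 2) = 0 := by push_cast; rw [hg]; ring
    rw [ZMod.intCast_zmod_eq_zero_iff_dvd] at h1
    obtain ⟨k, hk⟩ := h1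
    push_cast at hk
    exact ⟨-k, 1, by linear_combination hk⟩
  have hd : (2 : ℤ) ^ e ∣ c * g := ⟨R - W, by linear_combination h⟩
  obtain ⟨u, hu⟩ := hodd.dvd_of_dvd_mul_right hd
  refine ⟨u, hu, ?_⟩
  have h2 : (2 : ℤ) ^ e ≠ 0 := by positivity
  have h3 : u * g = R - W := by
    apply mul_left_cancel₀ h2
    rw [hu] at h
    linear_combination h
  have h4 := congrArg (Int.cast : ℤ → ZMod 2) h3
  push_cast at h4
  rw [hg, mul_one] at h4
  rw [h4]
  generalize (R : ZMod 2) = x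
  generalize (W : ZMod 2) = y
  revert x y
  decide

end Pool.Agent.NH1.Mn
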