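import Pool.Agent.NH1.MainB

/-!
# NH1-27, part C: the sums without characters, and the empty set
-/

set_option autoImplicit false

namespace Pool.Agent.NH1.Mn

open Finset Matrix
open Pool.Agent.Z700 (V3 vec pr Ln n0 ep X2)

theorem pr_empty : pr ∅ = 1 := by
  unfold pr
  exact Finset.prod_empty

theorem empty_mem_adm (N : Finset ℕ) : ∅ ∈ adm N := by
  rw [mem_adm]
  refine ⟨empty_subset _, Or.inl ?_⟩
  rw [pr_empty]
  decide

theorem not_both {m : ℕ} (h : K 3 m ∨ K 5 m) (h' : K 1 m ∨ K 7 m) : False := by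
  unfold K at h h'
  omega

theorem DD_empty (h : ℕ → ZMod 2) : DD h ∅ = 1 := DD_one h rfl rfl rfl

theorem z2_add_self (x : ZMod 2) : x + x = 0 := by
  revert x
  decide

theorem z2_eq {x y : ZMod 2} (h : x + y = 0) : x = y := by
  revert x y
  decide

/-- the induction step for the sums without characters -/
theorem PY_step (h1 : S_A2) (h2 : S_EALL) (h5 : S_RED) (h6 : S_CVAN) (h7 : S_CTOP)
    {N : Finset ℕ} (hN : Pm N) (hK : K 3 (pr N) ∨ K 5 (pr N))
    (IX : ∀ P ⊂ N, (K 1 (pr P) ∨ K 7 (pr P)) → PX (pr N % 8) P)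
    (IY : ∀ Q ⊂ N, (K 3 (pr Q) ∨ K 5 (pr Q)) → PY Q) : PY N := by
  intro β hβ
  obtain ⟨T, z, hT, hz⟩ := h2 N hN hK β hβ
  have hT' : ∀ P ∈ (adm N).erase ∅, Tm N β P := by
    intro P hP
    obtain ⟨hPe, hPa⟩ := mem_erase.1 hP
    obtain ⟨hs, hk⟩ := mem_adm.1 hPa
    have hss : P ⊂ N := by
      refine ssubset_of_subset_of_ne hs ?_
      rintro rfl
      exact not_both hK hk
    exact term h1 hN hK hβ hPa (IX P hss hk)
      (IY _ (sdiff_ssubset hs (nonempty_iff_ne_empty.2 hPe)) (K35_sdiff hN hK hPa))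
  obtain ⟨W, hW, hW'⟩ := sumterm _ hT'
  rw [← add_sum_erase _ _ (empty_mem_adm N), hW] at hz
  have hG : Y (pr N % 8) ∅ (pr N : ℤ) β = G (pr N) β := rfl
  rw [hG] at hz
  have k1 := (K35_iff hN).1 hK
  have ct := card_types N
  obtain ⟨d, hd, hd'⟩ : ∃ d, N.card - 1 = ex N + d ∧
      2 * d + 1 = (sI N).card + min (sA N).card (sB N).card := by
    refine ⟨N.card - 1 - ex N, ?_, ?_⟩
    · unfold ex
      omega
    · unfold ex
      omega
  rw [hd, pow_add] at hz
  refine ⟨2 ^ d * (T + 2 * z) - W, by linear_combination hz, fun hab => ?_⟩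
  have hW2 := hW' hab
  have e2 : (2 : ZMod 2) = 0 := rfl
  push_cast
  rw [hW2, e2, zero_mul, add_zero]
  by_cases hd0 : d = 0
  · have hIA : (sI N).card + (sA N).card = 1 := by
      rw [hab, min_self] at hd'
      omega
    have hr := h5 N hN hK hab hIA T hT
    have ht := h7 N (pr N % 8) hN hK hab hIA
    rw [← add_sum_erase _ _ (empty_mem_adm N), DD_empty, one_mul, sdiff_empty] at ht
    rw [hd0, pow_zero, one_mul, hr, ← ht]
    ring
  · have hIA : 1 < (sI N).card + (sA N).card := by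
      rw [hab, min_self] at hd'
      omega
    obtain ⟨w, hw⟩ : N.Nonempty := by
      rw [← card_pos]
      omega
    have hv := h6 N (pr N % 8) hN hK {w} (singleton_subset_iff.2 hw) (singleton_nonempty w) ∅
      (empty_subset _) (by rw [card_singleton]; exact hIA)
    have hf : (adm N).filter (fun P => P ∩ {w} = ∅ ∨ P ∩ {w} = {w} \ ∅) = adm N := by
      apply filter_true_of_mem
      intro P _
      by_cases hwP : w ∈ P
      · right
        rw [sdiff_empty]
        exact inter_singleton_of_mem hwP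
      · left
        exact inter_singleton_of_notMem hwP
    rw [hf, ← add_sum_erase _ _ (empty_mem_adm N), DD_empty, one_mul, sdiff_empty] at hv
    rw [zero_pow hd0, zero_mul, zero_sub, ZMod.neg_eq_self_mod_two]
    exact (z2_eq hv).symm

theorem Y_empty (r : ℕ) (N : ℤ) (g : ZMod 7) :
    Y r ∅ N g = ∑ v ∈ (vec N).filter fun v => Ln n0 g v, om r v := by
  unfold Y Ph
  refine Finset.sum_congr rfl fun v _ => ?_
  rw [Finset.prod_empty, mul_one]

theorem v3a : (Y 3 ∅ 3 2 = 1 ∨ Y 3 ∅ 3 2 = -1) ∧ (Y 3 ∅ 3 (-2) = 1 ∨ Y 3 ∅ 3 (-2) = -1) := by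
  rw [Y_empty, Y_empty]
  decide +kernel

theorem v5a : Y 5 ∅ 5 3 = -3 ∧ Y 5 ∅ 5 (-3) = -3 := by
  rw [Y_empty, Y_empty]
  decide +kernel

theorem ex_empty : ex ∅ = 0 := rfl

theorem PX_empty (r : ℕ) (hr : r = 3 ∨ r = 5) : PX r ∅ := by
  intro s c hs hid
  rw [pr_empty] at hs hid
  have hs' : s = 1 ∨ s = -1 := by
    push_cast at hs
    clear hid
    revert hs
    revert s
    decide
  suffices h : (c : ZMod 2) = 1 by
    refine ⟨c, by rw [ex_empty]; ring, fun _ => ?_⟩
    rw [h, DD_empty]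
  obtain ⟨a1, a2⟩ := v3a
  obtain ⟨b1, b2⟩ := v5a
  rcases hr with rfl | rfl
  · have h := hid 3 2 (by norm_num) (by norm_num)
    have hG : G 3 2 = Y 3 ∅ 3 2 := rfl
    rw [hG] at h
    have h' : Y 3 ∅ 3 (s * 2) = c * Y 3 ∅ 3 2 := by exact_mod_cast h
    have hc : c = 1 ∨ c = -1 := by
      rcases hs' with rfl | rfl
      · rw [one_mul] at h'
        rcases a1 with a | a <;> rw [a] at h' <;> omega
      · have e : (-1 : ZMod 7) * 2 = -2 := by decide
        rw [e] at h'
        rcases a1 with a | a <;> rcases a2 with a' | a' <;> rw [a, a'] at h' <;> omega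
    rcases hc with rfl | rfl <;> decide
  · have h := hid 5 3 (by norm_num) (by norm_num)
    have hG : G 5 3 = Y 5 ∅ 5 3 := rfl
    rw [hG] at h
    have h' : Y 5 ∅ 5 (s * 3) = c * Y 5 ∅ 5 3 := by exact_mod_cast h
    have hc : c = 1 := by
      rcases hs' with rfl | rfl
      · rw [one_mul, b1] at h'
        omega
      · have e : (-1 : ZMod 7) * 3 = -3 := by decide
        rw [e, b1, b2] at h'
        omega
    rw [hc]
    decide

end Pool.Agent.NH1.Mn
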