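import Pool.Agent.NH1.MainC

/-!
# NH1-27, part D: the constants of the factorization, the main cases
-/

set_option autoImplicit false

namespace Pool.Agent.NH1.Mn

open Finset Matrix
open Pool.Agent.Z700 (V3 vec pr Ln n0 ep X2)

/-- `q` is a prime of type `I` -/
structure TI (q : ℕ) : Prop where
  pri : q.Prime
  n2 : q ≠ 2
  n7 : q ≠ 7
  s2 : ¬ sq2 q
  s7 : ¬ sq7 q

theorem exists_q {P : Finset ℕ} (hK : K 1 (pr P) ∨ K 7 (pr P)) {r : ℕ}
    (hr : r = 3 ∨ r = 5) : ∃ q, TI q ∧ q ∉ P ∧ (q * pr P) % 8 = r := by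
  have key : ∀ a : ℕ, a.Coprime 56 → ∃ q > P.sup id + 7, q.Prime ∧ q % 56 = a % 56 := by
    intro a ha
    obtain ⟨q, hq, hp, hm⟩ := Nat.forall_exists_prime_gt_and_modEq (P.sup id + 7)
      (q := 56) (a := a) (by norm_num) ha
    exact ⟨q, hq, hp, hm⟩
  have hnot : ∀ q > P.sup id + 7, q ∉ P := by
    intro q hq hqP
    have : id q ≤ P.sup id := le_sup hqP
    simp only [id] at this
    omega
  have h17 : pr P % 8 = 1 ∨ pr P % 8 = 7 := by
    rcases hK with h | h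
    · exact Or.inl h.1
    · exact Or.inr h.1
  by_cases hc : (pr P % 8 = 1 ∧ r = 3) ∨ (pr P % 8 = 7 ∧ r = 5)
  · obtain ⟨q, hq, hp, hm⟩ := key 3 (by norm_num)
    refine ⟨q, ⟨hp, by omega, by omega, ?_, ?_⟩, hnot q hq, ?_⟩
    · unfold sq2
      omega
    · unfold sq7
      omega
    · have h3 : q % 8 = 3 := by omega
      rw [Nat.mul_mod, h3]
      rcases hc with ⟨h, rfl⟩ | ⟨h, rfl⟩ <;> rw [h]
  · obtain ⟨q, hq, hp, hm⟩ := key 45 (by norm_num)
    refine ⟨q, ⟨hp, by omega, by omega, ?_, ?_⟩, hnot q hq, ?_⟩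
    · unfold sq2
      omega
    · unfold sq7
      omega
    · have h3 : q % 8 = 5 := by omega
      rw [Nat.mul_mod, h3]
      have hc' : (pr P % 8 = 1 ∧ r = 5) ∨ (pr P % 8 = 7 ∧ r = 3) := by omega
      rcases hc' with ⟨h, rfl⟩ | ⟨h, rfl⟩ <;> rw [h]

theorem insS {q : ℕ} {P : Finset ℕ} (hq : TI q) : sS (insert q P) = sS P := by
  unfold sS
  rw [filter_insert, if_neg]
  exact fun h => hq.s2 h.1
theorem insA {q : ℕ} {P : Finset ℕ} (hq : TI q) : sA (insert q P) = sA P := by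
  unfold sA
  rw [filter_insert, if_neg]
  exact fun h => hq.s2 h.1
theorem insB {q : ℕ} {P : Finset ℕ} (hq : TI q) : sB (insert q P) = sB P := by
  unfold sB
  rw [filter_insert, if_neg]
  exact fun h => hq.s7 h.2
theorem insI {q : ℕ} {P : Finset ℕ} (hq : TI q) (h : q ∉ P) :
    (sI (insert q P)).card = (sI P).card + 1 := by
  unfold sI
  rw [filter_insert, if_pos ⟨hq.s2, hq.s7⟩, card_insert_of_notMem]
  simp [h]

theorem Pm_insert {q : ℕ} {P : Finset ℕ} (hq : TI q) (h : Pm P) : Pm (insert q P) := by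
  intro p hp
  rcases mem_insert.1 hp with rfl | hp
  · exact ⟨hq.pri, hq.n2, hq.n7⟩
  · exact h p hp

theorem ins_sdiff {q : ℕ} {P : Finset ℕ} (h : q ∉ P) : insert q P \ P = {q} := by
  ext x
  simp only [mem_sdiff, mem_insert, mem_singleton]
  constructor
  · rintro ⟨h1 | h1, h2⟩
    · exact h1
    · exact absurd h1 h2
  · rintro rfl
    exact ⟨Or.inl rfl, h⟩

/-- the standing data: an admissible set `P`, and a prime `q` of type `I` -/
structure Cfg (P : Finset ℕ) (q : ℕ) : Prop where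
  hP : Pm P
  hK : K 1 (pr P) ∨ K 7 (pr P)
  hq : TI q
  hqP : q ∉ P

theorem Cfg.Pm {P : Finset ℕ} {q : ℕ} (h : Cfg P q) : Pm (insert q P) := Pm_insert h.hq h.hP

theorem Cfg.par {P : Finset ℕ} {q : ℕ} (h : Cfg P q) :
    ((sI P).card + (sB P).card) % 2 = 0 ∧ ((sI P).card + (sA P).card) % 2 = 0 :=
  (K17_iff h.hP).1 h.hK

theorem Cfg.K {P : Finset ℕ} {q : ℕ} (h : Cfg P q) :
    K 3 (pr (insert q P)) ∨ K 5 (pr (insert q P)) := by
  rw [K35_iff h.Pm, insA h.hq, insB h.hq, insI h.hq h.hqP]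
  have := h.par
  omega

theorem Cfg.ex {P : Finset ℕ} {q : ℕ} (h : Cfg P q) : ex (insert q P) = ex P := by
  unfold NH1.ex
  rw [insA h.hq, insB h.hq, insI h.hq h.hqP, insS h.hq]
  have := h.par
  omega

theorem Cfg.adm {P : Finset ℕ} {q : ℕ} (h : Cfg P q) : P ∈ adm (insert q P) :=
  mem_adm.2 ⟨subset_insert _ _, h.hK⟩

theorem Cfg.beta {P : Finset ℕ} {q : ℕ} (h : Cfg P q) :
    ∃ β : ZMod 7, β ^ 2 = -(pr (insert q P) : ZMod 7) := by
  obtain ⟨i1, i2, i3, i4⟩ := cls _ h.Pm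
  exact sqrt7' i2 ((K35 i1 i2).1 h.K).2

theorem emptyS {q : ℕ} (hq : TI q) : sS {q} = ∅ := by
  have := insS (P := ∅) hq
  simpa [sS] using this
theorem emptyA {q : ℕ} (hq : TI q) : sA {q} = ∅ := by
  have := insA (P := ∅) hq
  simpa [sA] using this
theorem emptyB {q : ℕ} (hq : TI q) : sB {q} = ∅ := by
  have := insB (P := ∅) hq
  simpa [sB] using this
theorem cardI {q : ℕ} (hq : TI q) : (sI {q}).card = 1 := by
  have := insI (P := ∅) hq (notMem_empty q)
  simpa [sI] using this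

theorem DDq (h : ℕ → ZMod 2) {q : ℕ} (hq : TI q) : DD h {q} = 1 :=
  DD_one h (emptyS hq) (emptyA hq) (emptyB hq)

theorem exq {q : ℕ} (hq : TI q) : ex {q} = 0 := by
  unfold ex
  rw [emptyS hq, emptyA hq, emptyB hq, cardI hq]
  simp

/-- the term of `P` -/
theorem Cfg.top {P : Finset ℕ} {q : ℕ} (h : Cfg P q) (hY : PY {q}) {s : ZMod 7} {c : ℤ}
    (hs : s ^ 2 = (pr P : ZMod 7))
    (hc : ∀ (n : ℕ) (β : ZMod 7), 0 < n → (pr P * n) % 8 = pr (insert q P) % 8 →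
      Y (pr (insert q P) % 8) P ((pr P * n : ℕ) : ℤ) (s * β) = c * G n β)
    {β : ZMod 7} (hβ : β ^ 2 = -(pr (insert q P) : ZMod 7)) :
    ∃ g : ℤ, (g : ZMod 2) = 1 ∧ Y (pr (insert q P) % 8) P (pr (insert q P) : ℤ) β = c * g := by
  obtain ⟨β', hb, he⟩ := factor h.Pm h.adm hβ hs hc
  rw [ins_sdiff h.hqP] at hb he
  obtain ⟨u, hu, hu'⟩ := hY β' hb
  rw [exq h.hq, pow_zero, one_mul] at hu
  refine ⟨u, ?_, by rw [he, hu]⟩
  rw [hu' (by rw [emptyA h.hq, emptyB h.hq]), DDq _ h.hq]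

/-- the general step -/
theorem Cfg.core {P : Finset ℕ} {q : ℕ} (h : Cfg P q) (hY : PY {q}) (S : Finset (Finset ℕ))
    (hPS : P ∈ S)
    (hz : ∀ β : ZMod 7, β ^ 2 = -(pr (insert q P) : ZMod 7) →
      ∃ R : ℤ, ∑ J ∈ S, Y (pr (insert q P) % 8) J (pr (insert q P) : ℤ) β = 2 ^ NH1.ex P * R ∧
        ((sA P).card = (sB P).card → (R : ZMod 2) =
          ∑ J ∈ S, DD (hh (pr (insert q P) % 8)) J * DD gX (insert q P \ J)))
    (hT : ∀ β : ZMod 7, β ^ 2 = -(pr (insert q P) : ZMod 7) →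
      ∀ J ∈ S.erase P, Tm (insert q P) β J) : PX (pr (insert q P) % 8) P := by
  intro s c hs hid
  obtain ⟨β, hβ⟩ := h.beta
  obtain ⟨g, hg, hg'⟩ := h.top hY hs hid hβ
  obtain ⟨R, hR, hR'⟩ := hz β hβ
  obtain ⟨W, hW, hW'⟩ := sumterm _ (hT β hβ)
  rw [← add_sum_erase _ _ hPS, hg', hW, h.ex] at hR
  obtain ⟨u, hu, hu'⟩ := closing c g (NH1.ex P) W R hg hR
  refine ⟨u, hu, fun hab => ?_⟩
  have w1 := hR' hab
  have w2 := hW' (by rw [insA h.hq, insB h.hq]; exact hab)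
  rw [← add_sum_erase _ _ hPS, ← w2, ins_sdiff h.hqP, DDq _ h.hq, mul_one] at w1
  rw [hu', w1, add_assoc, z2_add_self, add_zero]

/-- the induction hypothesis -/
def IH (P : Finset ℕ) : Prop := ∀ X, lt' X P →
  (∀ r, (r = 3 ∨ r = 5) → Pm X → (K 1 (pr X) ∨ K 7 (pr X)) → PX r X) ∧
  (Pm X → (K 3 (pr X) ∨ K 5 (pr X)) → PY X)

theorem Cfg.term {P : Finset ℕ} {q : ℕ} (h : Cfg P q) (hA : S_A2) (ih : IH P) {β : ZMod 7}
    (hβ : β ^ 2 = -(pr (insert q P) : ZMod 7)) {J : Finset ℕ} (hJ : J ∈ NH1.adm (insert q P))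
    (h1 : lt' J P) (h2 : lt' (insert q P \ J) P) : Tm (insert q P) β J := by
  obtain ⟨hs, hk⟩ := mem_adm.1 hJ
  exact Mn.term hA h.Pm h.K hβ hJ ((ih J h1).1 _ (K35_r h.K) (Pm.mono h.Pm hs) hk)
    ((ih _ h2).2 (Pm.mono h.Pm sdiff_subset) (K35_sdiff h.Pm h.K hJ))

theorem Cfg.cnt {P : Finset ℕ} {q : ℕ} (h : Cfg P q) {J : Finset ℕ} (hJ : J ⊆ insert q P) :
    (sS P).card = (sS J).card + (sS (insert q P \ J)).card ∧
    (sI P).card + 1 = (sI J).card + (sI (insert q P \ J)).card ∧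
    (sA P).card = (sA J).card + (sA (insert q P \ J)).card ∧
    (sB P).card = (sB J).card + (sB (insert q P \ J)).card := by
  have a1 := splitS hJ
  have a2 := splitI hJ
  have a3 := splitA hJ
  have a4 := splitB hJ
  rw [insS h.hq] at a1
  rw [insI h.hq h.hqP] at a2
  rw [insA h.hq] at a3
  rw [insB h.hq] at a4
  exact ⟨a1, a2, a3, a4⟩

/-- the sets which contain `p0` (not of type `I`) and do not contain `q` -/
theorem Cfg.lt1 {P : Finset ℕ} {q p0 : ℕ} (h : Cfg P q) (h0 : sq2 p0 ∨ sq7 p0)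
    {J : Finset ℕ} (hJ : J ⊆ insert q P) (hJP : J ≠ P) (h1 : p0 ∈ J) (h2 : q ∉ J) :
    lt' J P ∧ lt' (insert q P \ J) P := by
  have hs : J ⊆ P := (subset_insert_iff_of_notMem h2).1 hJ
  refine ⟨lt'_ssub (ssubset_of_subset_of_ne hs hJP), Or.inl ?_⟩
  have c1 := h.cnt hJ
  have c2 := pos_of_not_I h1 h0
  omega

/-- the sets which contain `q` but not `p0` -/
theorem Cfg.lt2 {P : Finset ℕ} {q p0 : ℕ} (h : Cfg P q) (h0 : sq2 p0 ∨ sq7 p0) (hp : p0 ∈ P)
    {J : Finset ℕ} (hJ : J ∈ NH1.adm (insert q P)) (h1 : p0 ∉ J) (h2 : q ∈ J) :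
    lt' J P ∧ lt' (insert q P \ J) P := by
  obtain ⟨hs, hk⟩ := mem_adm.1 hJ
  have c1 := h.cnt hs
  have c2 := pos_of_not_I (mem_sdiff.2 ⟨mem_insert_of_mem hp, h1⟩ : p0 ∈ insert q P \ J) h0
  refine ⟨Or.inl (by omega), lt'_ssub (ssubset_of_subset_of_ne ?_ ?_)⟩
  · intro x hx
    obtain ⟨x1, x2⟩ := mem_sdiff.1 hx
    rcases mem_insert.1 x1 with rfl | x1
    · exact absurd h2 x2
    · exact x1
  · intro he
    have k2 := (K17_iff (Pm.mono h.Pm hs)).1 hk
    rw [he] at c1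
    omega

theorem pat_iff {p0 q : ℕ} (hne : p0 ≠ q) (J : Finset ℕ) :
    (J ∩ {p0, q} = {p0} ∨ J ∩ {p0, q} = {p0, q} \ {p0}) ↔
      ((p0 ∈ J ∧ q ∉ J) ∨ (p0 ∉ J ∧ q ∈ J)) := by
  constructor
  · rintro (h | h)
    · left
      constructor
      · have : p0 ∈ J ∩ {p0, q} := by rw [h]; simp
        exact (mem_inter.1 this).1
      · intro hq
        have : q ∈ J ∩ {p0, q} := mem_inter.2 ⟨hq, by simp⟩
        rw [h, mem_singleton] at this
        exact hne this.symm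
    · right
      constructor
      · intro hq
        have : p0 ∈ J ∩ {p0, q} := mem_inter.2 ⟨hq, by simp⟩
        rw [h] at this
        simp at this
      · have : q ∈ J ∩ {p0, q} := by
          rw [h]
          simp [hne.symm]
        exact (mem_inter.1 this).1
  · rintro (⟨h1, h2⟩ | ⟨h1, h2⟩)
    · left
      ext x
      simp only [mem_inter, mem_insert, mem_singleton]
      constructor
      · rintro ⟨a, rfl | rfl⟩
        · rfl
        · exact absurd a h2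
      · rintro rfl
        exact ⟨h1, Or.inl rfl⟩
    · right
      ext x
      simp only [mem_inter, mem_insert, mem_singleton, mem_sdiff]
      constructor
      · rintro ⟨a, rfl | rfl⟩
        · exact absurd a h1
        · exact ⟨Or.inr rfl, hne.symm⟩
      · rintro ⟨rfl | rfl, b⟩
        · exact absurd rfl b
        · exact ⟨h2, Or.inr rfl⟩

/-- case (a) -/
theorem Cfg.caseA {P : Finset ℕ} {q : ℕ} (h : Cfg P q) (hY : PY {q}) (hA : S_A2)
    (hE : S_EPAT) (hC : S_CVAN) (ih : IH P) {p0 : ℕ} (hp : p0 ∈ P) (h0 : sq2 p0 ∨ sq7 p0)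
    (hh0 : (sA P).card = (sB P).card → 2 ≤ (sI P).card + (sA P).card) :
    PX (pr (insert q P) % 8) P := by
  have hne : p0 ≠ q := by
    rintro rfl
    exact h.hqP hp
  have hW : ({p0, q} : Finset ℕ) ⊆ insert q P := by
    intro x hx
    rcases mem_insert.1 hx with rfl | hx
    · exact mem_insert_of_mem hp
    · rw [mem_singleton.1 hx]
      exact mem_insert_self _ _
  have hW0 : ({p0} : Finset ℕ) ⊆ {p0, q} := by
    intro x hx
    rw [mem_singleton.1 hx]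
    exact mem_insert_self _ _
  have hcW : ({p0, q} : Finset ℕ).card = 2 := card_pair hne
  apply h.core hY ((NH1.adm (insert q P)).filter
    (fun J => J ∩ {p0, q} = {p0} ∨ J ∩ {p0, q} = {p0, q} \ {p0}))
  · rw [mem_filter, pat_iff hne]
    exact ⟨h.adm, Or.inl ⟨hp, h.hqP⟩⟩
  · intro β hβ
    obtain ⟨z, hz⟩ := hE (insert q P) h.Pm h.K β hβ {p0, q} hW {p0} hW0 (singleton_nonempty _)
      (by
        intro he
        have : q ∈ ({p0} : Finset ℕ) := by rw [he]; simp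
        exact hne (mem_singleton.1 this).symm)
    have hpar := h.par
    have ct := card_types P
    obtain ⟨d, hd, hd'⟩ : ∃ d, (insert q P).card + 1 - ({p0, q} : Finset ℕ).card = NH1.ex P + d ∧
        2 * d = (sI P).card + min (sA P).card (sB P).card := by
      rw [hcW, card_insert_of_notMem h.hqP]
      refine ⟨P.card - NH1.ex P, ?_, ?_⟩
      · unfold NH1.ex
        omega
      · unfold NH1.ex
        omega
    refine ⟨2 ^ d * z, by rw [hz, hd, pow_add]; ring, fun hab => ?_⟩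
    have h2 := hh0 hab
    rw [hab, min_self] at hd'
    have hC' := hC (insert q P) (pr (insert q P) % 8) h.Pm h.K {p0, q} hW ⟨p0, by simp⟩ {p0} hW0
      (by rw [hcW, insA h.hq, insI h.hq h.hqP]; omega)
    rw [hC']
    have hd0 : d ≠ 0 := by omega
    push_cast
    have e2 : (2 : ZMod 2) = 0 := rfl
    rw [e2, zero_pow hd0, zero_mul]
  · intro β hβ J hJ
    obtain ⟨hJP, hJ⟩ := mem_erase.1 hJ
    rw [mem_filter, pat_iff hne] at hJ
    obtain ⟨hJa, hJ⟩ := hJ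
    rcases hJ with ⟨a, b⟩ | ⟨a, b⟩
    · obtain ⟨l1, l2⟩ := h.lt1 h0 (mem_adm.1 hJa).1 hJP a b
      exact h.term hA ih hβ hJa l1 l2
    · obtain ⟨l1, l2⟩ := h.lt2 h0 hp hJa a b
      exact h.term hA ih hβ hJa l1 l2

end Pool.Agent.NH1.Mn
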