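import Pool.Agent.NH1.MainD

/-!
# NH1-27, part E: the cases of primes of type `S`, of type `I`, of two primes of type `I`
-/

set_option autoImplicit false

namespace Pool.Agent.NH1.Mn

open Finset Matrix
open Pool.Agent.Z700 (V3 vec pr Ln n0 ep X2)

/-- case (b) -/
theorem Cfg.caseB {P : Finset ℕ} {q : ℕ} (h : Cfg P q) (hY : PY {q}) (hA : S_A2)
    (hE : S_EREF) (hC : S_CREF) (ih : IH P) {p0 : ℕ} (hp : p0 ∈ P) (hS : sS P = P) :
    PX (pr (insert q P) % 8) P := by
  have hI : sI {q} = {q} := by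
    unfold sI
    rw [filter_singleton, if_pos ⟨h.hq.s2, h.hq.s7⟩]
  have ct := card_types P
  rw [hS] at ct
  have hex : NH1.ex P = P.card := by
    unfold NH1.ex
    rw [hS]
    omega
  have h0 : sq2 p0 := by
    have : p0 ∈ sS P := by rw [hS]; exact hp
    unfold sS at this
    exact (mem_filter.1 this).2.1
  apply h.core hY (P.powerset.filter (p0 ∈ ·))
  · exact mem_filter.2 ⟨mem_powerset_self P, hp⟩
  · intro β hβ
    obtain ⟨z, hz, hz'⟩ := hE P q h.Pm h.hqP hS hI β hβ p0 hp
    have hC' := hC P q h.Pm h.hqP hS hI p0 hp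
    exact ⟨z, by rw [hz, hex], fun _ => by rw [hz', hC']⟩
  · intro β hβ J hJ
    obtain ⟨hJP, hJ⟩ := mem_erase.1 hJ
    obtain ⟨hs, h1⟩ := mem_filter.1 hJ
    rw [mem_powerset] at hs
    have hs' : J ⊆ insert q P := hs.trans (subset_insert _ _)
    have hadm : J ∈ NH1.adm (insert q P) := by
      refine mem_adm.2 ⟨hs', ?_⟩
      rw [K17_iff (Pm.mono h.hP hs)]
      have a2 := splitI hs
      have a3 := splitA hs
      have a4 := splitB hs
      omega
    obtain ⟨l1, l2⟩ := h.lt1 (Or.inl h0) hs' hJP h1 (fun hq => h.hqP (hs hq))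
    exact h.term hA ih hβ hadm l1 l2

theorem pat_iff3 {p0 p1 q : ℕ} (h0 : p0 ≠ q) (h1 : p1 ≠ q) (J : Finset ℕ) :
    (J ∩ {p0, p1, q} = {p0, p1} ∨ J ∩ {p0, p1, q} = {p0, p1, q} \ {p0, p1}) ↔
      ((p0 ∈ J ∧ p1 ∈ J ∧ q ∉ J) ∨ (p0 ∉ J ∧ p1 ∉ J ∧ q ∈ J)) := by
  constructor
  · rintro (h | h)
    · left
      refine ⟨?_, ?_, ?_⟩
      · have : p0 ∈ J ∩ {p0, p1, q} := by rw [h]; simp
        exact (mem_inter.1 this).1
      · have : p1 ∈ J ∩ {p0, p1, q} := by rw [h]; simp
        exact (mem_inter.1 this).1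
      · intro hq
        have : q ∈ J ∩ {p0, p1, q} := mem_inter.2 ⟨hq, by simp⟩
        rw [h] at this
        simp only [mem_insert, mem_singleton] at this
        rcases this with rfl | rfl
        · exact h0 rfl
        · exact h1 rfl
    · right
      refine ⟨?_, ?_, ?_⟩
      · intro hq
        have : p0 ∈ J ∩ {p0, p1, q} := mem_inter.2 ⟨hq, by simp⟩
        rw [h] at this
        simp at this
      · intro hq
        have : p1 ∈ J ∩ {p0, p1, q} := mem_inter.2 ⟨hq, by simp⟩
        rw [h] at this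
        simp at this
      · have : q ∈ J ∩ {p0, p1, q} := by
          rw [h]
          simp [h0.symm, h1.symm]
        exact (mem_inter.1 this).1
  · rintro (⟨a1, a2, a3⟩ | ⟨a1, a2, a3⟩)
    · left
      ext x
      simp only [mem_inter, mem_insert, mem_singleton]
      constructor
      · rintro ⟨a, rfl | rfl | rfl⟩
        · exact Or.inl rfl
        · exact Or.inr rfl
        · exact absurd a a3
      · rintro (rfl | rfl)
        · exact ⟨a1, Or.inl rfl⟩
        · exact ⟨a2, Or.inr (Or.inl rfl)⟩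
    · right
      ext x
      simp only [mem_inter, mem_insert, mem_singleton, mem_sdiff]
      constructor
      · rintro ⟨a, rfl | rfl | rfl⟩
        · exact absurd a a1
        · exact absurd a a2
        · refine ⟨Or.inr (Or.inr rfl), ?_⟩
          rintro (rfl | rfl)
          · exact h0 rfl
          · exact h1 rfl
      · rintro ⟨rfl | rfl | rfl, b⟩
        · exact absurd (Or.inl rfl) b
        · exact absurd (Or.inr rfl) b
        · exact ⟨a3, Or.inr (Or.inr rfl)⟩

theorem two_le {X : Finset ℕ} {a b : ℕ} (ha : a ∈ X) (hb : b ∈ X) (h : a ≠ b) : 2 ≤ X.card := by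
  have : ({a, b} : Finset ℕ) ⊆ X := by
    intro x hx
    rcases mem_insert.1 hx with rfl | hx
    · exact ha
    · rw [mem_singleton.1 hx]
      exact hb
  have := card_le_card this
  rwa [card_pair h] at this

/-- case (c) -/
theorem Cfg.caseC {P : Finset ℕ} {q : ℕ} (h : Cfg P q) (hY : PY {q}) (hA : S_A2)
    (hE : S_EPAT) (hC : S_CVAN) (ih : IH P) {p0 p1 : ℕ} (hp0 : p0 ∈ P) (hp1 : p1 ∈ P)
    (h01 : p0 ≠ p1) (hn : (sS P).card + (sA P).card + (sB P).card = 0) (h4 : 4 ≤ P.card) :
    PX (pr (insert q P) % 8) P := by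
  have ne0 : p0 ≠ q := by
    rintro rfl
    exact h.hqP hp0
  have ne1 : p1 ≠ q := by
    rintro rfl
    exact h.hqP hp1
  have hW : ({p0, p1, q} : Finset ℕ) ⊆ insert q P := by
    intro x hx
    simp only [mem_insert, mem_singleton] at hx
    rcases hx with rfl | rfl | rfl
    · exact mem_insert_of_mem hp0
    · exact mem_insert_of_mem hp1
    · exact mem_insert_self _ _
  have hW0 : ({p0, p1} : Finset ℕ) ⊆ {p0, p1, q} := by
    intro x hx
    simp only [mem_insert, mem_singleton] at hx ⊢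
    tauto
  have hcW : ({p0, p1, q} : Finset ℕ).card = 3 := by
    rw [card_insert_of_notMem, card_pair ne1]
    simp [h01, ne0]
  have hpar := h.par
  have ct := card_types P
  apply h.core hY ((NH1.adm (insert q P)).filter
    (fun J => J ∩ {p0, p1, q} = {p0, p1} ∨ J ∩ {p0, p1, q} = {p0, p1, q} \ {p0, p1}))
  · rw [mem_filter, pat_iff3 ne0 ne1]
    exact ⟨h.adm, Or.inl ⟨hp0, hp1, h.hqP⟩⟩
  · intro β hβ
    obtain ⟨z, hz⟩ := hE (insert q P) h.Pm h.K β hβ {p0, p1, q} hW {p0, p1} hW0 ⟨p0, by simp⟩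
      (by
        intro he
        have : q ∈ ({p0, p1} : Finset ℕ) := by rw [he]; simp
        simp only [mem_insert, mem_singleton] at this
        rcases this with h' | h'
        · exact ne0 h'.symm
        · exact ne1 h'.symm)
    obtain ⟨d, hd, hd'⟩ : ∃ d, (insert q P).card + 1 - ({p0, p1, q} : Finset ℕ).card =
        NH1.ex P + d ∧ d ≠ 0 := by
      rw [hcW, card_insert_of_notMem h.hqP]
      refine ⟨P.card - 1 - NH1.ex P, ?_, ?_⟩
      · unfold NH1.ex
        omega
      · unfold NH1.ex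
        omega
    refine ⟨2 ^ d * z, by rw [hz, hd, pow_add]; ring, fun hab => ?_⟩
    have hC' := hC (insert q P) (pr (insert q P) % 8) h.Pm h.K {p0, p1, q} hW ⟨p0, by simp⟩
      {p0, p1} hW0 (by rw [hcW, insA h.hq, insI h.hq h.hqP]; omega)
    rw [hC']
    push_cast
    have e2 : (2 : ZMod 2) = 0 := rfl
    rw [e2, zero_pow hd', zero_mul]
  · intro β hβ J hJ
    obtain ⟨hJP, hJ⟩ := mem_erase.1 hJ
    rw [mem_filter, pat_iff3 ne0 ne1] at hJ
    obtain ⟨hJa, hJ⟩ := hJ
    obtain ⟨hs, hk⟩ := mem_adm.1 hJa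
    have c1 := h.cnt hs
    have k2 := (K17_iff (Pm.mono h.Pm hs)).1 hk
    have ct1 := card_types J
    have ct2 := card_types (insert q P \ J)
    rcases hJ with ⟨a, b, c⟩ | ⟨a, b, c⟩
    · have hs' : J ⊆ P := (subset_insert_iff_of_notMem c).1 hs
      have := two_le a b h01
      refine h.term hA ih hβ hJa (lt'_ssub (ssubset_of_subset_of_ne hs' hJP)) (Or.inr ?_)
      omega
    · have c0 : p0 ∈ insert q P \ J := mem_sdiff.2 ⟨mem_insert_of_mem hp0, a⟩
      have c1 : p1 ∈ insert q P \ J := mem_sdiff.2 ⟨mem_insert_of_mem hp1, b⟩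
      have := two_le c0 c1 h01
      have hJ1 : 1 ≤ J.card := card_pos.2 ⟨q, c⟩
      refine h.term hA ih hβ hJa (Or.inr ?_) (Or.inr ?_)
      · omega
      · omega

theorem pair_cfg {x y z : ℕ} (hx : TI x) (hy : TI y) (hz : TI z) (hxy : x ≠ y) (hxz : x ≠ z)
    (hyz : y ≠ z) : Cfg {x, y} z := by
  have hPm : Pm ({x, y} : Finset ℕ) := by
    intro p hp
    simp only [mem_insert, mem_singleton] at hp
    rcases hp with rfl | rfl
    · exact ⟨hx.pri, hx.n2, hx.n7⟩
    · exact ⟨hy.pri, hy.n2, hy.n7⟩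
  refine ⟨hPm, ?_, hz, ?_⟩
  · rw [K17_iff hPm]
    have e : ({x, y} : Finset ℕ) = insert x {y} := rfl
    rw [e, insI hx (by simpa using hxy), insA hx, insB hx, cardI hy, emptyA hy, emptyB hy]
    simp
  · simp only [mem_insert, mem_singleton]
    rintro (rfl | rfl)
    · exact hxz rfl
    · exact hyz rfl

theorem pair_ex {x y : ℕ} (hx : TI x) (hy : TI y) (hxy : x ≠ y) : ex {x, y} = 1 := by
  unfold ex
  have e : ({x, y} : Finset ℕ) = insert x {y} := rfl
  rw [e, insI hx (by simpa using hxy), insA hx, insB hx, insS hx, cardI hy, emptyA hy, emptyB hy,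
    emptyS hy]
  simp

theorem pair_DD (h : ℕ → ZMod 2) {x y : ℕ} (hx : TI x) (hy : TI y) : DD h {x, y} = 1 := by
  have e : ({x, y} : Finset ℕ) = insert x {y} := rfl
  apply DD_one
  · rw [e, insS hx, emptyS hy]
  · rw [e, insA hx, emptyA hy]
  · rw [e, insB hx, emptyB hy]

theorem sub1 (x y z : ℕ) : ({x, z} : Finset ℕ) ⊆ insert z {x, y} := by
  intro t ht
  simp only [mem_insert, mem_singleton] at ht ⊢
  tauto

theorem sub2 (x z : ℕ) : ({x} : Finset ℕ) ⊆ {x, z} := by
  intro t ht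
  simp only [mem_insert, mem_singleton] at ht ⊢
  tauto

theorem filt {x y z : ℕ} (hx : TI x) (hz : TI z) (hxz : x ≠ z)
    (C1 : Cfg {x, y} z) (C2 : Cfg {z, y} x) : (adm (insert z {x, y})).filter
      (fun J => J ∩ {x, z} = {x} ∨ J ∩ {x, z} = {x, z} \ {x}) = {{x, y}, {z, y}} := by
  have hN : insert x ({z, y} : Finset ℕ) = insert z {x, y} := insert_comm x z {y}
  ext J
  rw [mem_filter, pat_iff hxz, mem_adm, mem_insert, mem_singleton]
  constructor
  · rintro ⟨⟨hs, hk⟩, hJ⟩
    have k2 := (K17_iff (Pm.mono C1.Pm hs)).1 hk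
    have hy' : y ∈ J := by
      by_contra hyJ
      rcases hJ with ⟨a, b⟩ | ⟨a, b⟩
      · have : J = {x} := by
          ext t
          rw [mem_singleton]
          constructor
          · intro ht
            have := hs ht
            simp only [mem_insert, mem_singleton] at this
            rcases this with rfl | rfl | rfl
            · exact absurd ht b
            · rfl
            · exact absurd ht hyJ
          · rintro rfl
            exact a
        rw [this, cardI hx, emptyA hx, emptyB hx] at k2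
        simp at k2
      · have : J = {z} := by
          ext t
          rw [mem_singleton]
          constructor
          · intro ht
            have := hs ht
            simp only [mem_insert, mem_singleton] at this
            rcases this with rfl | rfl | rfl
            · rfl
            · exact absurd ht a
            · exact absurd ht hyJ
          · rintro rfl
            exact b
        rw [this, cardI hz, emptyA hz, emptyB hz] at k2
        simp at k2
    rcases hJ with ⟨a, b⟩ | ⟨a, b⟩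
    · left
      ext t
      simp only [mem_insert, mem_singleton]
      constructor
      · intro ht
        have := hs ht
        simp only [mem_insert, mem_singleton] at this
        rcases this with rfl | h' | h'
        · exact absurd ht b
        · exact Or.inl h'
        · exact Or.inr h'
      · rintro (rfl | rfl)
        · exact a
        · exact hy'
    · right
      ext t
      simp only [mem_insert, mem_singleton]
      constructor
      · intro ht
        have := hs ht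
        simp only [mem_insert, mem_singleton] at this
        rcases this with h' | rfl | h'
        · exact Or.inl h'
        · exact absurd ht a
        · exact Or.inr h'
      · rintro (rfl | rfl)
        · exact b
        · exact hy'
  · rintro (rfl | rfl)
    · refine ⟨mem_adm.1 C1.adm, Or.inl ⟨by simp, ?_⟩⟩
      exact C1.hqP
    · have := mem_adm.1 C2.adm
      rw [hN] at this
      refine ⟨this, Or.inr ⟨C2.hqP, by simp⟩⟩

/-- the exchange of a prime -/
theorem swap (hYq : ∀ q, TI q → PY {q}) (hA : S_A2) (hE : S_EPAT) {x y z r : ℕ} (hx : TI x)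
    (hy : TI y) (hz : TI z) (hxy : x ≠ y) (hxz : x ≠ z) (hyz : y ≠ z)
    (hr : (x * y * z) % 8 = r) (h : PX r {x, y}) : PX r {z, y} := by
  have C1 : Cfg {x, y} z := pair_cfg hx hy hz hxy hxz hyz
  have C2 : Cfg {z, y} x := pair_cfg hz hy hx hyz.symm hxz.symm hxy.symm
  have hN : insert x ({z, y} : Finset ℕ) = insert z {x, y} := insert_comm x z {y}
  have hpr : pr (insert x ({z, y} : Finset ℕ)) % 8 = r := by
    rw [← hr]
    unfold pr
    rw [prod_insert C2.hqP, prod_pair hyz.symm]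
    congr 1
    ring
  intro s' c' hs' hid'
  obtain ⟨β, hβ⟩ := C2.beta
  rw [← hpr] at hid' h
  obtain ⟨g', hg', ht'⟩ := C2.top (hYq x hx) hs' hid' hβ
  have h17 : sq7 (pr {x, y}) := (K17.1 C1.hK).2
  obtain ⟨s, hs⟩ := sqrt7 h17
  obtain ⟨c, hc⟩ := hA (pr (insert x ({z, y} : Finset ℕ)) % 8) {x, y} s (K35_r C2.K) C1.hP C1.hK hs
  obtain ⟨u, hu, hu'⟩ := h s c hs hc
  rw [pair_ex hx hy hxy] at hu
  have hu1 := hu' (by
    have e : ({x, y} : Finset ℕ) = insert x {y} := rfl
    rw [e, insA hx, insB hx, emptyA hy, emptyB hy])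
  rw [pair_DD _ hx hy] at hu1
  rw [hN] at hc hβ ht'
  obtain ⟨g, hg, ht⟩ := C1.top (hYq z hz) hs hc hβ
  have hW : ({x, z} : Finset ℕ) ⊆ insert z {x, y} := sub1 x y z
  have hW0 : ({x} : Finset ℕ) ⊆ {x, z} := sub2 x z
  obtain ⟨w, hw⟩ := hE (insert z {x, y}) C1.Pm C1.K β hβ {x, z} hW {x} hW0 (singleton_nonempty _)
      (by
        intro he
        have : z ∈ ({x} : Finset ℕ) := by rw [he]; simp
        exact hxz (mem_singleton.1 this).symm)
  have hf := filt hx hz hxz C1 C2
  have hne : ({x, y} : Finset ℕ) ≠ {z, y} := by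
    intro he
    have : z ∈ ({x, y} : Finset ℕ) := by rw [he]; simp
    exact C1.hqP this
  rw [hf, sum_pair hne, ht, ht', card_insert_of_notMem C1.hqP, card_pair hxy, card_pair hxz, hu] at hw
  obtain ⟨v, hv, hv'⟩ := closing c' g' 1 (u * g) (2 * w) hg' (by linear_combination hw)
  refine ⟨v, by rw [pair_ex hz hy hyz.symm, hv], fun _ => ?_⟩
  rw [pair_DD _ hz hy, hv']
  push_cast
  rw [hu1, hg]
  have e2 : (2 : ZMod 2) = 0 := rfl
  rw [e2]
  ring

theorem graph (Q : ℕ → ℕ → Prop) (T a b : ℕ → Prop) (hab : ∀ x, T x → a x ∨ b x)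
    (dis : ∀ x y, a x → b y → x ≠ y) (sym : ∀ x y, Q x y → Q y x)
    (sw : ∀ x y z, T x → T y → T z → x ≠ y → x ≠ z → y ≠ z →
      ((a x ∧ a y ∧ a z) ∨ (a x ∧ b y ∧ b z) ∨ (b x ∧ a y ∧ b z) ∨ (b x ∧ b y ∧ a z)) →
      Q x y → Q z y) {a0 a1 b0 b1 : ℕ} (ta0 : T a0) (ta1 : T a1) (tb0 : T b0) (tb1 : T b1)
    (aa0 : a a0) (aa1 : a a1) (bb0 : b b0) (bb1 : b b1) (hab1 : b0 ≠ b1) (haa : a0 ≠ a1)
    (q1 : Q a0 a1) (q2 : Q a0 b0) :
    ∀ x y, T x → T y → x ≠ y → Q x y := by
  have L1 : ∀ y, T y → a y → y ≠ a0 → Q a0 y := by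
    intro y ty ay hy
    by_cases h : y = a1
    · rw [h]
      exact q1
    · exact sym _ _ (sw a1 a0 y ta1 ta0 ty haa.symm (Ne.symm h) hy.symm (Or.inl ⟨aa1, aa0, ay⟩)
        (sym _ _ q1))
  have L2 : ∀ x y, T x → T y → a x → a y → x ≠ y → Q x y := by
    intro x y tx ty ax ay hxy
    by_cases h : x = a0
    · rw [h]
      exact L1 y ty ay (fun h' => hxy (by rw [h, h']))
    · by_cases h' : y = a0
      · rw [h']
        exact sym _ _ (L1 x tx ax h)
      · exact sw a0 y x ta0 ty tx (Ne.symm h') (Ne.symm h) hxy.symm (Or.inl ⟨aa0, ay, ax⟩)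
          (L1 y ty ay h')
  have L3 : ∀ y, T y → b y → Q a0 y := by
    intro y ty hy
    by_cases h : y = b0
    · rw [h]
      exact q2
    · exact sym _ _ (sw b0 a0 y tb0 ta0 ty (dis _ _ aa0 bb0).symm (Ne.symm h) (dis _ _ aa0 hy)
        (Or.inr (Or.inr (Or.inl ⟨bb0, aa0, hy⟩))) (sym _ _ q2))
  have L4 : ∀ y y', T y → T y' → b y → b y' → y ≠ y' → Q y' y := by
    intro y y' ty ty' hy hy' hne
    exact sw a0 y y' ta0 ty ty' (dis _ _ aa0 hy) (dis _ _ aa0 hy') hne
      (Or.inr (Or.inl ⟨aa0, hy, hy'⟩)) (L3 y ty hy)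
  have L5 : ∀ x y, T x → T y → a x → b y → Q x y := by
    intro x y tx ty ax hy
    obtain ⟨y', ty', by', hne⟩ : ∃ y', T y' ∧ b y' ∧ y ≠ y' := by
      by_cases h : y = b0
      · exact ⟨b1, tb1, bb1, by rw [h]; exact hab1⟩
      · exact ⟨b0, tb0, bb0, h⟩
    exact sw y' y x ty' ty tx hne.symm (dis _ _ ax by').symm (dis _ _ ax hy).symm
      (Or.inr (Or.inr (Or.inr ⟨by', hy, ax⟩))) (L4 y y' ty ty' hy by' hne)
  intro x y tx ty hxy
  rcases hab x tx with h | h <;> rcases hab y ty with h' | h'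
  · exact L2 x y tx ty h h' hxy
  · exact L5 x y tx ty h h'
  · exact sym _ _ (L5 y x ty tx h' h)
  · exact L4 y x ty tx h' h hxy.symm

theorem TI_cls {q : ℕ} (h : TI q) : q % 8 = 3 ∨ q % 8 = 5 := by
  have h1 := odd_prime h.pri h.n2
  have h2 := h.s2
  unfold sq2 at h2
  omega

theorem ti (q : ℕ) (h1 : q.Prime) (h2 : q % 8 = 3 ∨ q % 8 = 5)
    (h3 : q % 7 = 3 ∨ q % 7 = 5 ∨ q % 7 = 6) : TI q :=
  ⟨h1, by omega, by omega, by unfold sq2; omega, by unfold sq7; omega⟩

/-- case (d) -/
theorem pairs (hYq : ∀ q, TI q → PY {q}) (hA : S_A2) (hE : S_EPAT) (hB : S_BASE) (r : ℕ)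
    (hr : r = 3 ∨ r = 5) : ∀ x y, TI x → TI y → x ≠ y → PX r {x, y} := by
  obtain ⟨b1, b2, b3, b4⟩ := hB
  have t3 : TI 3 := ti 3 (by norm_num) (by norm_num) (by norm_num)
  have t19 : TI 19 := ti 19 (by norm_num) (by norm_num) (by norm_num)
  have t5 : TI 5 := ti 5 (by norm_num) (by norm_num) (by norm_num)
  have t13 : TI 13 := ti 13 (by norm_num) (by norm_num) (by norm_num)
  rcases hr with rfl | rfl
  · refine graph (fun x y => PX 3 {x, y}) TI (fun x => x % 8 = 3) (fun x => x % 8 = 5)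
      (fun x hx => TI_cls hx) (fun x y h1 h2 h => by omega)
      (fun x y h => by rw [pair_comm]; exact h) ?_ t3 t19 t5 t13 rfl rfl rfl rfl (by norm_num)
      (by norm_num) b1 b2
    intro x y z tx ty tz hxy hxz hyz ht
    refine swap hYq hA hE tx ty tz hxy hxz hyz ?_
    rw [Nat.mul_mod, Nat.mul_mod x]
    rcases ht with ⟨h1, h2, h3⟩ | ⟨h1, h2, h3⟩ | ⟨h1, h2, h3⟩ | ⟨h1, h2, h3⟩ <;>
      rw [h1, h2, h3]
  · refine graph (fun x y => PX 5 {x, y}) TI (fun x => x % 8 = 5) (fun x => x % 8 = 3)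
      (fun x hx => (TI_cls hx).symm) (fun x y h1 h2 h => by omega)
      (fun x y h => by rw [pair_comm]; exact h) ?_ t5 t13 t3 t19 rfl rfl rfl rfl (by norm_num)
      (by norm_num) b4 (by rw [pair_comm]; exact b3)
    intro x y z tx ty tz hxy hxz hyz ht
    refine swap hYq hA hE tx ty tz hxy hxz hyz ?_
    rw [Nat.mul_mod, Nat.mul_mod x]
    rcases ht with ⟨h1, h2, h3⟩ | ⟨h1, h2, h3⟩ | ⟨h1, h2, h3⟩ | ⟨h1, h2, h3⟩ <;>
      rw [h1, h2, h3]

end Pool.Agent.NH1.Mn
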