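import Pool.Agent.NH1.Sub2

/-!
# Project NH1, job NH1-16, first part: equidistribution of the characters
-/

set_option autoImplicit false

namespace Pool.Agent.NH1.Ops

open Finset Matrix
open Pool.Agent.Z700 (V3 vec pr cp Ln n0 ep X2)

theorem mem_vec {n : ℤ} {v : V3} : v ∈ vec n ↔ v ⬝ᵥ v = n := by
  unfold Pool.Agent.Z700.vec
  rw [Finset.mem_filter]
  constructor
  · exact fun h => h.2
  · intro h
    refine ⟨?_, h⟩
    rw [Fintype.mem_piFinset]
    intro i
    have h1 : v i * v i ≤ n := by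
      rw [← h, dotProduct]
      exact Finset.single_le_sum (f := fun i => v i * v i) (fun j _ => mul_self_nonneg _)
        (Finset.mem_univ i)
    rw [Finset.mem_Icc]
    constructor <;> nlinarith [mul_self_nonneg (v i), abs_nonneg (v i)]

theorem pr_pos {N : Finset ℕ} (hN : ∀ p ∈ N, p.Prime) : 0 < pr N :=
  Finset.prod_pos fun p hp => (hN p hp).pos

theorem pr_squarefree {N : Finset ℕ} (hN : ∀ p ∈ N, p.Prime) : Squarefree (pr N) := by
  unfold Pool.Agent.Z700.pr
  exact Finset.squarefree_prod_of_pairwise_isCoprime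
    (fun p hp q hq hpq => (Nat.coprime_iff_isRelPrime.1
      ((Nat.coprime_primes (hN p hp) (hN q hq)).2 hpq)))
    (fun p hp => (hN p hp).squarefree)

theorem rd_dot (p : ℕ) (v w : V3) : rd p v ⬝ᵥ rd p w = ((v ⬝ᵥ w : ℤ) : ZMod p) := by
  unfold rd dotProduct
  push_cast
  rfl

theorem rd_ne {N : Finset ℕ} (hN : ∀ p ∈ N, p.Prime) {v : V3} (hv : v ⬝ᵥ v = (pr N : ℤ)) {p : ℕ}
    (hp : p ∈ N) : rd p v ≠ 0 ∧ rd p v ⬝ᵥ rd p v = 0 := by
  have hpn : p ∣ pr N := Finset.dvd_prod_of_mem _ hp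
  constructor
  · intro h
    have h1 : ∀ i, (p : ℤ) ∣ v i := by
      intro i
      have h2 := congrFun h i
      unfold rd at h2
      exact (ZMod.intCast_zmod_eq_zero_iff_dvd _ _).1 h2
    have h3 : ((p * p : ℕ) : ℤ) ∣ (pr N : ℤ) := by
      rw [← hv, dotProduct]
      push_cast
      exact Finset.dvd_sum fun i _ => mul_dvd_mul (h1 i) (h1 i)
    have h4 : p * p ∣ pr N := by exact_mod_cast h3
    have h5 := pr_squarefree hN p h4
    exact (hN p hp).one_lt.ne' (Nat.isUnit_iff.1 h5)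
  · rw [rd_dot, hv]
    push_cast
    exact (ZMod.natCast_eq_zero_iff _ _).2 hpn

theorem ph_pm (h0 : S_PHI) {N : Finset ℕ} (hN : ∀ p ∈ N, p.Prime ∧ p ≠ 2) {v : V3}
    (hv : v ⬝ᵥ v = (pr N : ℤ)) {p : ℕ} (hp : p ∈ N) :
    ph p (rd p v) = 1 ∨ ph p (rd p v) = -1 := by
  have h1 := rd_ne (fun p hp => (hN p hp).1) hv hp
  exact (ph_spec h0 (hN p hp).1 (hN p hp).2).pm _ h1.2 h1.1

end Pool.Agent.NH1.Ops

namespace Pool.Agent.NH1

open Finset Matrix
open Pool.Agent.Z700 (V3 vec pr cp Ln n0 ep X2)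

theorem t_EQU (h0 : S_PHI) (h : S_V4) : S_EQU := by
  classical
  intro N hN γ hγ
  have key : ∀ v ∈ vec (pr N : ℤ), ∑ P ∈ N.powerset, (∏ p ∈ P, γ p) * Ph P v =
      if (∀ p ∈ N, ph p (rd p v) = γ p) then (2 : ℤ) ^ N.card else 0 := by
    intro v hv
    rw [Ops.mem_vec] at hv
    have e1 : ∑ P ∈ N.powerset, (∏ p ∈ P, γ p) * Ph P v =
        ∏ p ∈ N, (1 + γ p * ph p (rd p v)) := by
      rw [Finset.prod_one_add]
      refine Finset.sum_congr rfl fun P _ => ?_
      unfold Ph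
      rw [Finset.prod_mul_distrib]
    rw [e1]
    split_ifs with hc
    · rw [← Finset.prod_const]
      refine Finset.prod_congr rfl fun p hp => ?_
      rw [hc p hp]
      rcases hγ p hp with h | h <;> rw [h] <;> norm_num
    · push Not at hc
      obtain ⟨p, hp, hne⟩ := hc
      refine Finset.prod_eq_zero hp ?_
      rcases hγ p hp with h1 | h1 <;> rcases Ops.ph_pm h0 hN hv hp with h2 | h2 <;>
        first | exact absurd (h2.trans h1.symm) hne | (rw [h1, h2]; norm_num)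
  have e2 : ∑ v ∈ vec (pr N : ℤ), ∑ P ∈ N.powerset, (∏ p ∈ P, γ p) * Ph P v =
      ((vec (pr N : ℤ)).card : ℤ) := by
    rw [Finset.sum_comm]
    rw [Finset.sum_eq_single ∅]
    · simp [Ph]
    · intro P hP hne
      rw [← Finset.mul_sum, h P (Finset.nonempty_iff_ne_empty.2 hne)
        (fun p hp => hN p (Finset.mem_powerset.1 hP hp)), mul_zero]
    · intro hn
      exact absurd (Finset.mem_powerset.2 (Finset.empty_subset _)) hn
  rw [Finset.sum_congr rfl key, ← Finset.sum_filter, Finset.sum_const, nsmul_eq_mul] at e2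
  have e3 : (2 : ℤ) ^ N.card * (Rt N γ : ℤ) = ((vec (pr N : ℤ)).card : ℤ) := by
    rw [← e2, mul_comm]
    unfold Rt
    congr!
  exact_mod_cast e3

end Pool.Agent.NH1
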