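import Pool.Agent.NH1.Sub2

/-!
# Project NH1, job NH1-16, second part: Hurwitz quaternions
-/

set_option autoImplicit false

namespace Pool.Agent.NH1.Ops

open Finset Matrix
open Pool.Agent.Z700 (V3 vec pr cp Ln n0 ep X2)

/-- the quaternion with given coordinates -/
def mq (a b c d : ℚ) : Quaternion ℚ := ⟨a, b, c, d⟩

theorem mq_re (a b c d : ℚ) : (mq a b c d).re = a := rfl
theorem mq_imI (a b c d : ℚ) : (mq a b c d).imI = b := rfl
theorem mq_imJ (a b c d : ℚ) : (mq a b c d).imJ = c := rfl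
theorem mq_imK (a b c d : ℚ) : (mq a b c d).imK = d := rfl

theorem eq_mq (x : Quaternion ℚ) : x = mq x.re x.imI x.imJ x.imK := rfl

theorem mq_inj {a b c d a' b' c' d' : ℚ} (h : mq a b c d = mq a' b' c' d') :
    a = a' ∧ b = b' ∧ c = c' ∧ d = d' :=
  ⟨congrArg (fun x : Quaternion ℚ => x.re) h, congrArg (fun x : Quaternion ℚ => x.imI) h,
    congrArg (fun x : Quaternion ℚ => x.imJ) h, congrArg (fun x : Quaternion ℚ => x.imK) h⟩

theorem mq_congr {a b c d a' b' c' d' : ℚ} (h1 : a = a') (h2 : b = b') (h3 : c = c')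
    (h4 : d = d') : mq a b c d = mq a' b' c' d' := by
  rw [h1, h2, h3, h4]

theorem mq_mul (a b c d a' b' c' d' : ℚ) : mq a b c d * mq a' b' c' d' =
      mq (a * a' - b * b' - c * c' - d * d') (a * b' + b * a' + c * d' - d * c')
        (a * c' - b * d' + c * a' + d * b') (a * d' + b * c' - c * b' + d * a') := by
  apply Quaternion.ext
  · rw [Quaternion.re_mul]; rfl
  · rw [Quaternion.imI_mul]; rfl
  · rw [Quaternion.imJ_mul]; rfl
  · rw [Quaternion.imK_mul]; rfl

theorem mq_star (a b c d : ℚ) : star (mq a b c d) = mq a (-b) (-c) (-d) := by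
  apply Quaternion.ext
  · rw [Quaternion.re_star]; rfl
  · rw [Quaternion.imI_star]; rfl
  · rw [Quaternion.imJ_star]; rfl
  · rw [Quaternion.imK_star]; rfl

theorem mq_neg (a b c d : ℚ) : -mq a b c d = mq (-a) (-b) (-c) (-d) := by
  apply Quaternion.ext
  · rw [Quaternion.re_neg]; rfl
  · rw [Quaternion.imI_neg]; rfl
  · rw [Quaternion.imJ_neg]; rfl
  · rw [Quaternion.imK_neg]; rfl

theorem mq_add (a b c d a' b' c' d' : ℚ) :
    mq a b c d + mq a' b' c' d' = mq (a + a') (b + b') (c + c') (d + d') := by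
  apply Quaternion.ext
  · rw [Quaternion.re_add]; rfl
  · rw [Quaternion.imI_add]; rfl
  · rw [Quaternion.imJ_add]; rfl
  · rw [Quaternion.imK_add]; rfl

theorem mq_one : (1 : Quaternion ℚ) = mq 1 0 0 0 := rfl

theorem mq_zero : (0 : Quaternion ℚ) = mq 0 0 0 0 := rfl

theorem normSq_mq (a b c d : ℚ) :
    Quaternion.normSq (mq a b c d) = a ^ 2 + b ^ 2 + c ^ 2 + d ^ 2 :=
  Quaternion.normSq_def' (a := mq a b c d)

theorem hz_def (x : Quaternion ℚ) : Hz x ↔ ∃ a b c d : ℤ, x = mq a b c d ∨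
    x = mq (a + 1 / 2) (b + 1 / 2) (c + 1 / 2) (d + 1 / 2) := Iff.rfl

theorem qv_def (v : V3) : qv v = mq 0 (v 0) (v 1) (v 2) := rfl

/-- half of an integral quadruple -/
def mk4 (t : ℤ × ℤ × ℤ × ℤ) : Quaternion ℚ :=
  mq (t.1 / 2) (t.2.1 / 2) (t.2.2.1 / 2) (t.2.2.2 / 2)

/-- the entries have the same parity -/
def Par (t : ℤ × ℤ × ℤ × ℤ) : Prop :=
  t.1 % 2 = t.2.1 % 2 ∧ t.1 % 2 = t.2.2.1 % 2 ∧ t.1 % 2 = t.2.2.2 % 2

instance (t : ℤ × ℤ × ℤ × ℤ) : Decidable (Par t) := by unfold Par; infer_instance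

theorem mk4_injective : Function.Injective mk4 := by
  rintro ⟨a, b, c, d⟩ ⟨a', b', c', d'⟩ h
  obtain ⟨h1, h2, h3, h4⟩ := mq_inj h
  have e1 : (a : ℚ) = a' := by linarith
  have e2 : (b : ℚ) = b' := by linarith
  have e3 : (c : ℚ) = c' := by linarith
  have e4 : (d : ℚ) = d' := by linarith
  have f1 : a = a' := by exact_mod_cast e1
  have f2 : b = b' := by exact_mod_cast e2
  have f3 : c = c' := by exact_mod_cast e3
  have f4 : d = d' := by exact_mod_cast e4
  rw [f1, f2, f3, f4]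

theorem hz_iff (x : Quaternion ℚ) : Hz x ↔ ∃ t, Par t ∧ x = mk4 t := by
  rw [hz_def]
  constructor
  · rintro ⟨a, b, c, d, h | h⟩
    · refine ⟨(2 * a, 2 * b, 2 * c, 2 * d), ?_, ?_⟩
      · unfold Par
        dsimp only
        refine ⟨?_, ?_, ?_⟩ <;> omega
      · rw [h]
        unfold mk4
        push_cast
        apply mq_congr <;> ring
    · refine ⟨(2 * a + 1, 2 * b + 1, 2 * c + 1, 2 * d + 1), ?_, ?_⟩
      · unfold Par
        dsimp only
        refine ⟨?_, ?_, ?_⟩ <;> omega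
      · rw [h]
        unfold mk4
        push_cast
        apply mq_congr <;> ring
  · rintro ⟨⟨A, B, C, D⟩, ⟨h1, h2, h3⟩, rfl⟩
    dsimp only at h1 h2 h3
    rcases Int.emod_two_eq_zero_or_one A with hA | hA
    · refine ⟨A / 2, B / 2, C / 2, D / 2, Or.inl ?_⟩
      have e1 : A = 2 * (A / 2) := by omega
      have e2 : B = 2 * (B / 2) := by omega
      have e3 : C = 2 * (C / 2) := by omega
      have e4 : D = 2 * (D / 2) := by omega
      have f1 : (A : ℚ) = 2 * ((A / 2 : ℤ) : ℚ) := by exact_mod_cast e1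
      have f2 : (B : ℚ) = 2 * ((B / 2 : ℤ) : ℚ) := by exact_mod_cast e2
      have f3 : (C : ℚ) = 2 * ((C / 2 : ℤ) : ℚ) := by exact_mod_cast e3
      have f4 : (D : ℚ) = 2 * ((D / 2 : ℤ) : ℚ) := by exact_mod_cast e4
      unfold mk4
      dsimp only
      apply mq_congr <;> linarith
    · refine ⟨A / 2, B / 2, C / 2, D / 2, Or.inr ?_⟩
      have e1 : A = 2 * (A / 2) + 1 := by omega
      have e2 : B = 2 * (B / 2) + 1 := by omega
      have e3 : C = 2 * (C / 2) + 1 := by omega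
      have e4 : D = 2 * (D / 2) + 1 := by omega
      have f1 : (A : ℚ) = 2 * ((A / 2 : ℤ) : ℚ) + 1 := by exact_mod_cast e1
      have f2 : (B : ℚ) = 2 * ((B / 2 : ℤ) : ℚ) + 1 := by exact_mod_cast e2
      have f3 : (C : ℚ) = 2 * ((C / 2 : ℤ) : ℚ) + 1 := by exact_mod_cast e3
      have f4 : (D : ℚ) = 2 * ((D / 2 : ℤ) : ℚ) + 1 := by exact_mod_cast e4
      unfold mk4
      dsimp only
      apply mq_congr <;> linarith

theorem normSq_mk4 (A B C D : ℤ) :
    Quaternion.normSq (mk4 (A, B, C, D)) = ((A ^ 2 + B ^ 2 + C ^ 2 + D ^ 2 : ℤ) : ℚ) / 4 := by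
  unfold mk4
  rw [normSq_mq]
  push_cast
  ring

/-! ### closure properties -/

theorem hz_mul {x y : Quaternion ℚ} (hx : Hz x) (hy : Hz y) : Hz (x * y) := by
  rw [hz_def] at hx hy ⊢
  obtain ⟨a, b, c, d, hx⟩ := hx
  obtain ⟨a', b', c', d', hy⟩ := hy
  rcases hx with rfl | rfl <;> rcases hy with rfl | rfl
  · refine ⟨a * a' - b * b' - c * c' - d * d', a * b' + b * a' + c * d' - d * c',
        a * c' - b * d' + c * a' + d * b', a * d' + b * c' - c * b' + d * a', Or.inl ?_⟩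
    rw [mq_mul]
    push_cast
    rfl
  · obtain ⟨k, hk⟩ := Int.even_or_odd' (a + b + c + d)
    rcases hk with hk | hk
    · have hk' : (a : ℚ) + b + c + d = 2 * k := by exact_mod_cast hk
      refine ⟨a * a' - b * b' - c * c' - d * d' + (k - b - c - d),
        a * b' + b * a' + c * d' - d * c' + (k - d),
        a * c' - b * d' + c * a' + d * b' + (k - b),
        a * d' + b * c' - c * b' + d * a' + (k - c), Or.inl ?_⟩
      rw [mq_mul]
      push_cast
      apply mq_congr <;> linarith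
    · have hk' : (a : ℚ) + b + c + d = 2 * k + 1 := by exact_mod_cast hk
      refine ⟨a * a' - b * b' - c * c' - d * d' + (k - b - c - d),
        a * b' + b * a' + c * d' - d * c' + (k - d),
        a * c' - b * d' + c * a' + d * b' + (k - b),
        a * d' + b * c' - c * b' + d * a' + (k - c), Or.inr ?_⟩
      rw [mq_mul]
      push_cast
      apply mq_congr <;> linarith
  · obtain ⟨k, hk⟩ := Int.even_or_odd' (a' + b' + c' + d')
    rcases hk with hk | hk
    · have hk' : (a' : ℚ) + b' + c' + d' = 2 * k := by exact_mod_cast hk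
      refine ⟨a * a' - b * b' - c * c' - d * d' + (k - b' - c' - d'),
        a * b' + b * a' + c * d' - d * c' + (k - c'),
        a * c' - b * d' + c * a' + d * b' + (k - d'),
        a * d' + b * c' - c * b' + d * a' + (k - b'), Or.inl ?_⟩
      rw [mq_mul]
      push_cast
      apply mq_congr <;> linarith
    · have hk' : (a' : ℚ) + b' + c' + d' = 2 * k + 1 := by exact_mod_cast hk
      refine ⟨a * a' - b * b' - c * c' - d * d' + (k - b' - c' - d'),
        a * b' + b * a' + c * d' - d * c' + (k - c'),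
        a * c' - b * d' + c * a' + d * b' + (k - d'),
        a * d' + b * c' - c * b' + d * a' + (k - b'), Or.inr ?_⟩
      rw [mq_mul]
      push_cast
      apply mq_congr <;> linarith
  · obtain ⟨k, hk⟩ := Int.even_or_odd' (a + b + c + d + a' + b' + c' + d')
    rcases hk with hk | hk
    · have hk' : (a : ℚ) + b + c + d + a' + b' + c' + d' = 2 * k := by exact_mod_cast hk
      refine ⟨a * a' - b * b' - c * c' - d * d' + (k - b - b' - c - c' - d - d' - 1),
        a * b' + b * a' + c * d' - d * c' + (k - d - c'),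
        a * c' - b * d' + c * a' + d * b' + (k - b - d'),
        a * d' + b * c' - c * b' + d * a' + (k - c - b'), Or.inr ?_⟩
      rw [mq_mul]
      push_cast
      apply mq_congr <;> linarith
    · have hk' : (a : ℚ) + b + c + d + a' + b' + c' + d' = 2 * k + 1 := by exact_mod_cast hk
      refine ⟨a * a' - b * b' - c * c' - d * d' + (k - b - b' - c - c' - d - d'),
        a * b' + b * a' + c * d' - d * c' + (k - d - c' + 1),
        a * c' - b * d' + c * a' + d * b' + (k - b - d' + 1),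
        a * d' + b * c' - c * b' + d * a' + (k - c - b' + 1), Or.inl ?_⟩
      rw [mq_mul]
      push_cast
      apply mq_congr <;> linarith

theorem hz_one : Hz 1 := (hz_def _).2 ⟨1, 0, 0, 0, Or.inl (by rw [mq_one]; norm_num)⟩

theorem hz_star {x : Quaternion ℚ} (hx : Hz x) : Hz (star x) := by
  rw [hz_def] at hx ⊢
  obtain ⟨a, b, c, d, hx⟩ := hx
  rcases hx with rfl | rfl
  · refine ⟨a, -b, -c, -d, Or.inl ?_⟩
    rw [mq_star]
    push_cast
    rfl
  · refine ⟨a, -b - 1, -c - 1, -d - 1, Or.inr ?_⟩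
    rw [mq_star]
    push_cast
    apply mq_congr <;> ring

theorem hz_neg {x : Quaternion ℚ} (hx : Hz x) : Hz (-x) := by
  rw [hz_def] at hx ⊢
  obtain ⟨a, b, c, d, hx⟩ := hx
  rcases hx with rfl | rfl
  · refine ⟨-a, -b, -c, -d, Or.inl ?_⟩
    rw [mq_neg]
    push_cast
    rfl
  · refine ⟨-a - 1, -b - 1, -c - 1, -d - 1, Or.inr ?_⟩
    rw [mq_neg]
    push_cast
    apply mq_congr <;> ring

/-- conjugation by `1 + i` -/
def cj (x : Quaternion ℚ) : Quaternion ℚ := mq x.re x.imI (-x.imK) x.imJ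

theorem cj_mq (a b c d : ℚ) : cj (mq a b c d) = mq a b (-d) c := rfl

theorem hz_cj {x : Quaternion ℚ} (hx : Hz x) : Hz (cj x) := by
  rw [hz_def] at hx ⊢
  obtain ⟨a, b, c, d, hx⟩ := hx
  rcases hx with rfl | rfl
  · refine ⟨a, b, -d, c, Or.inl ?_⟩
    rw [cj_mq]
    push_cast
    rfl
  · refine ⟨a, b, -d - 1, c, Or.inr ?_⟩
    rw [cj_mq]
    push_cast
    apply mq_congr <;> ring

theorem cj_mul (x y : Quaternion ℚ) : cj (x * y) = cj x * cj y := by
  rw [eq_mq x, eq_mq y, mq_mul, cj_mq, cj_mq, cj_mq, mq_mul]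
  apply mq_congr <;> ring

theorem normSq_cj (x : Quaternion ℚ) : Quaternion.normSq (cj x) = Quaternion.normSq x := by
  rw [eq_mq x, cj_mq, normSq_mq, normSq_mq]
  ring

theorem one_i_mul (x : Quaternion ℚ) : mq 1 1 0 0 * x = cj x * mq 1 1 0 0 := by
  rw [eq_mq x, cj_mq, mq_mul, mq_mul]
  apply mq_congr <;> ring

/-- the vector rotated by a quarter turn -/
def rv (v : V3) : V3 := ![v 0, -v 2, v 1]

theorem rv_0 (v : V3) : rv v 0 = v 0 := rfl
theorem rv_1 (v : V3) : rv v 1 = -v 2 := rfl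
theorem rv_2 (v : V3) : rv v 2 = v 1 := rfl

theorem cj_qv (v : V3) : cj (qv v) = qv (rv v) := by
  rw [qv_def, qv_def, cj_mq, rv_0, rv_1, rv_2]
  push_cast
  rfl

theorem qv_neg (v : V3) : qv (-v) = -qv v := by
  rw [qv_def, qv_def, mq_neg, Pi.neg_apply, Pi.neg_apply, Pi.neg_apply]
  push_cast
  apply mq_congr <;> ring

theorem qv_injective : Function.Injective qv := by
  intro v w h
  obtain ⟨-, h2, h3, h4⟩ := mq_inj h
  funext i
  fin_cases i
  · exact_mod_cast h2
  · exact_mod_cast h3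
  · exact_mod_cast h4

theorem star_qv (v : V3) : star (qv v) = -qv v := by
  rw [qv_def, mq_star, mq_neg]
  apply mq_congr <;> ring

theorem dot3 (v w : V3) : v ⬝ᵥ w = v 0 * w 0 + v 1 * w 1 + v 2 * w 2 := by
  rw [dotProduct, Fin.sum_univ_three]

theorem normSq_qv (v : V3) : Quaternion.normSq (qv v) = ((v ⬝ᵥ v : ℤ) : ℚ) := by
  rw [qv_def, normSq_mq, dot3]
  push_cast
  ring

theorem hz_qv (v : V3) : Hz (qv v) :=
  (hz_def _).2 ⟨0, v 0, v 1, v 2, Or.inl (by rw [qv_def]; push_cast; rfl)⟩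

theorem hz_pure {x : Quaternion ℚ} (hx : Hz x) (h0 : x.re = 0) : ∃ v : V3, x = qv v := by
  rw [hz_def] at hx
  obtain ⟨a, b, c, d, hx⟩ := hx
  rcases hx with rfl | rfl
  · refine ⟨![b, c, d], ?_⟩
    rw [mq_re] at h0
    rw [qv_def, h0]
    rfl
  · exfalso
    rw [mq_re] at h0
    have h1 : (2 * a + 1 : ℚ) = 0 := by linarith
    have h2 : (2 * a + 1 : ℤ) = 0 := by exact_mod_cast h1
    omega

theorem qv_ne {v : V3} {n : ℕ} (hn : n ≠ 0) (hv : v ⬝ᵥ v = (n : ℤ)) : qv v ≠ 0 := by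
  intro h
  have h1 := normSq_qv v
  rw [h, hv, map_zero] at h1
  exact hn (by exact_mod_cast h1.symm)

theorem ne_zero_of_normSq {x : Quaternion ℚ} {m : ℕ} (hm : m ≠ 0)
    (hx : Quaternion.normSq x = (m : ℚ)) : x ≠ 0 := by
  intro h
  rw [h, map_zero] at hx
  exact hm (by exact_mod_cast hx.symm)

/-- `y V = - V y` for pure `y` orthogonal to `V` -/
theorem anti_iff (v w : V3) : qv w * qv v = -(qv v * qv w) ↔ v ⬝ᵥ w = 0 := by
  rw [dot3, qv_def, qv_def, mq_mul, mq_mul, mq_neg]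
  constructor
  · intro h
    have h1 := (mq_inj h).1
    have h2 : (v 0 * w 0 + v 1 * w 1 + v 2 * w 2 : ℚ) = 0 := by linarith
    exact_mod_cast h2
  · intro h
    have h2 : (v 0 * w 0 + v 1 * w 1 + v 2 * w 2 : ℚ) = 0 := by exact_mod_cast h
    apply mq_congr
    · linarith
    · ring
    · ring
    · ring

theorem re_of_anti {y : Quaternion ℚ} {v : V3} {n : ℕ} (hn : n ≠ 0) (hv : v ⬝ᵥ v = (n : ℤ))
    (h : y * qv v = -(qv v * y)) : y.re = 0 := by
  obtain ⟨a, b, c, d, hy⟩ : ∃ a b c d : ℚ, y = mq a b c d := ⟨_, _, _, _, eq_mq y⟩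
  subst hy
  rw [mq_re]
  rw [qv_def, mq_mul, mq_mul, mq_neg] at h
  obtain ⟨-, h1, h2, h3⟩ := mq_inj h
  have k1 : a * v 0 = 0 := by linarith
  have k2 : a * v 1 = 0 := by linarith
  have k3 : a * v 2 = 0 := by linarith
  by_contra ha
  have j1 : v 0 = 0 := by
    have := (mul_eq_zero.1 k1).resolve_left ha
    exact_mod_cast this
  have j2 : v 1 = 0 := by
    have := (mul_eq_zero.1 k2).resolve_left ha
    exact_mod_cast this
  have j3 : v 2 = 0 := by
    have := (mul_eq_zero.1 k3).resolve_left ha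
    exact_mod_cast this
  rw [dot3, j1, j2, j3] at hv
  simp only [mul_zero, add_zero] at hv
  exact hn (by exact_mod_cast hv.symm)

end Pool.Agent.NH1.Ops
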