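import Pool.Agent.NH1.OpsA
import Pool.Agent.NH1.OpsB

/-!
# Project NH1, job NH1-16, third part: the relation between vectors
-/

set_option autoImplicit false

namespace Pool.Agent.NH1.Ops

open Finset Matrix
open Pool.Agent.Z700 (V3 vec pr cp Ln n0 ep X2)

/-- `v` and `w` are related by a Hurwitz quaternion of norm `m` -/
def rel (m : ℕ) (v w : V3) : Prop :=
  ∃ x : Quaternion ℚ, Hz x ∧ Quaternion.normSq x = (m : ℚ) ∧ x * qv v = qv w * x

theorem rel_refl (v : V3) : rel 1 v v :=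
  ⟨1, hz_one, by rw [map_one, Nat.cast_one], by rw [one_mul, mul_one]⟩

theorem rel_symm {m : ℕ} {v w : V3} (h : rel m v w) : rel m w v := by
  obtain ⟨x, h1, h2, h3⟩ := h
  refine ⟨star x, hz_star h1, by rw [Quaternion.normSq_star, h2], ?_⟩
  have h4 := congrArg star h3
  rw [star_mul, star_mul, star_qv, star_qv, neg_mul, mul_neg] at h4
  exact (neg_injective h4).symm

theorem rel_trans {m m' : ℕ} {v w z : V3} (h : rel m v w) (h' : rel m' w z) :
    rel (m' * m) v z := by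
  obtain ⟨x, h1, h2, h3⟩ := h
  obtain ⟨x', h1', h2', h3'⟩ := h'
  refine ⟨x' * x, hz_mul h1' h1, by rw [map_mul, h2, h2', Nat.cast_mul], ?_⟩
  rw [mul_assoc, h3, ← mul_assoc, h3', mul_assoc]

theorem rel_neg {m : ℕ} {v w : V3} (h : rel m v w) : rel m (-v) (-w) := by
  obtain ⟨x, h1, h2, h3⟩ := h
  refine ⟨x, h1, h2, ?_⟩
  rw [qv_neg, qv_neg, mul_neg, neg_mul, h3]

theorem rel_rv {m : ℕ} {v w : V3} (h : rel m v w) : rel m (rv v) (rv w) := by
  obtain ⟨x, h1, h2, h3⟩ := h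
  refine ⟨cj x, hz_cj h1, by rw [normSq_cj, h2], ?_⟩
  rw [← cj_qv, ← cj_qv, ← cj_mul, ← cj_mul, h3]

theorem rel_two (v : V3) : rel 2 v (rv v) := by
  refine ⟨mq 1 1 0 0, (hz_def _).2 ⟨1, 1, 0, 0, Or.inl (by norm_num)⟩, ?_, ?_⟩
  · rw [normSq_mq]
    norm_num
  · rw [one_i_mul, cj_qv]

theorem rel_rv_rv (v : V3) : rel 1 v (rv (rv v)) := by
  refine ⟨mq 0 1 0 0, (hz_def _).2 ⟨0, 1, 0, 0, Or.inl (by norm_num)⟩, ?_, ?_⟩
  · rw [normSq_mq]
    norm_num
  · rw [qv_def, qv_def, mq_mul, mq_mul]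
    simp only [rv_0, rv_1, rv_2]
    push_cast
    apply mq_congr <;> ring

theorem rel_norm {m : ℕ} {v w : V3} (hm : m ≠ 0) (h : rel m v w) : w ⬝ᵥ w = v ⬝ᵥ v := by
  obtain ⟨x, h1, h2, h3⟩ := h
  have h4 := congrArg Quaternion.normSq h3
  rw [map_mul, map_mul, normSq_qv, normSq_qv, h2, mul_comm] at h4
  have h5 : (m : ℚ) ≠ 0 := by exact_mod_cast hm
  have h6 := mul_right_cancel₀ h5 h4
  exact_mod_cast h6.symm

theorem rel_uniq (h2 : S_H2) {n d : ℕ} (hn : Squarefree n) (ho : Odd n) {v w w' : V3}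
    (hv : v ⬝ᵥ v = (n : ℤ)) (hd : d ∣ n) (h : rel d v w) (h' : rel d v w') : rel 1 w w' := by
  obtain ⟨x, k1, k2, k3⟩ := h
  obtain ⟨x', l1, l2, l3⟩ := h'
  obtain ⟨-, u, u1, u2, u3⟩ := h2 n d v w w' x x' hn ho hv hd k1 l1 k2 l2 k3 l3
  refine ⟨u, u1, by rw [u2, Nat.cast_one], ?_⟩
  have hn0 : n ≠ 0 := hn.ne_zero
  have hd0 : d ≠ 0 := fun h => hn0 (by rw [h] at hd; exact Nat.eq_zero_of_zero_dvd hd)
  have hx : x ≠ 0 := ne_zero_of_normSq hd0 k2
  apply mul_right_cancel₀ hx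
  rw [mul_assoc, ← k3, ← mul_assoc, ← u3, l3, u3, mul_assoc]

/-- the elements commuting with a vector -/
theorem comm_form {n : ℕ} (hn : Squarefree n) {v : V3} (hv : v ⬝ᵥ v = (n : ℤ))
    {z : Quaternion ℚ} (hz : Hz z) {m : ℕ} (hm : Quaternion.normSq z = (m : ℚ))
    (h : z * qv v = qv v * z) :
    ∃ A t : ℤ, A ^ 2 + n * t ^ 2 = 4 * m ∧ (n % 8 = 5 → A % 2 = 0 ∧ t % 2 = 0) ∧
      (t = 0 → z = mq (A / 2) 0 0 0) := by
  obtain ⟨⟨A, B, C, D⟩, ⟨p1, p2, p3⟩, rfl⟩ := (hz_iff z).1 hz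
  dsimp only at p1 p2 p3
  rw [normSq_mk4] at hm
  have hm1 : ((A ^ 2 + B ^ 2 + C ^ 2 + D ^ 2 : ℤ) : ℚ) = 4 * m := by linarith
  have hm2 : A ^ 2 + B ^ 2 + C ^ 2 + D ^ 2 = 4 * m := by exact_mod_cast hm1
  unfold mk4 at h
  rw [qv_def, mq_mul, mq_mul] at h
  dsimp only at h
  obtain ⟨-, h1, h2, h3⟩ := mq_inj h
  have c1 : (C * v 2 : ℚ) = D * v 1 := by linarith
  have c2 : (D * v 0 : ℚ) = B * v 2 := by linarith
  have c3 : (B * v 1 : ℚ) = C * v 0 := by linarith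
  have d1 : C * v 2 = D * v 1 := by exact_mod_cast c1
  have d2 : D * v 0 = B * v 2 := by exact_mod_cast c2
  have d3 : B * v 1 = C * v 0 := by exact_mod_cast c3
  rw [dot3] at hv
  obtain ⟨s, hs⟩ : ∃ s, s = B * v 0 + C * v 1 + D * v 2 := ⟨_, rfl⟩
  have lag : (B ^ 2 + C ^ 2 + D ^ 2) * n = s ^ 2 := by
    rw [← hv, hs]
    have e1 : C * v 2 - D * v 1 = 0 := by linarith
    have e2 : D * v 0 - B * v 2 = 0 := by linarith
    have e3 : B * v 1 - C * v 0 = 0 := by linarith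
    linear_combination (C * v 2 - D * v 1) * e1 + (D * v 0 - B * v 2) * e2 +
      (B * v 1 - C * v 0) * e3
  have hdvd : (n : ℤ) ∣ s := by
    have k1 : (n : ℤ) ∣ s ^ 2 := ⟨B ^ 2 + C ^ 2 + D ^ 2, by rw [← lag]; ring⟩
    have k2 : n ∣ s.natAbs ^ 2 := by
      rw [← Int.natAbs_pow]
      exact Int.natCast_dvd.1 k1
    exact Int.natCast_dvd.2 ((Squarefree.dvd_pow_iff_dvd hn two_ne_zero).1 k2)
  obtain ⟨t, ht⟩ := hdvd
  have hn0 : (n : ℤ) ≠ 0 := by exact_mod_cast hn.ne_zero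
  have key : B ^ 2 + C ^ 2 + D ^ 2 = n * t ^ 2 := by
    apply mul_right_cancel₀ hn0
    rw [lag, ht]
    ring
  refine ⟨A, t, by linarith, ?_, ?_⟩
  · intro h5
    have hA : A % 2 = 0 := by
      by_contra hA
      have hA1 : A % 2 = 1 := by omega
      have sq8 : ∀ x : ℤ, x % 2 = 1 → x ^ 2 % 8 = 1 := by
        intro x hx
        have : x % 8 = 1 ∨ x % 8 = 3 ∨ x % 8 = 5 ∨ x % 8 = 7 := by omega
        rcases this with h | h | h | h <;> rw [pow_two, Int.mul_emod, h] <;> rfl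
      have k1 := sq8 B (by omega)
      have k2 := sq8 C (by omega)
      have k3 := sq8 D (by omega)
      have k4 : (n : ℤ) % 8 = 5 := by omega
      have k5 : ((n : ℤ) * t ^ 2) % 8 = 3 := by omega
      have k6 : t % 8 = 0 ∨ t % 8 = 1 ∨ t % 8 = 2 ∨ t % 8 = 3 ∨ t % 8 = 4 ∨ t % 8 = 5 ∨
        t % 8 = 6 ∨ t % 8 = 7 := by omega
      rw [pow_two, Int.mul_emod, Int.mul_emod t, k4] at k5
      rcases k6 with h | h | h | h | h | h | h | h <;> rw [h] at k5 <;> revert k5 <;> decide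
    refine ⟨hA, ?_⟩
    by_contra ht2
    have ht1 : t % 2 = 1 := by omega
    have k1 : (B ^ 2 + C ^ 2 + D ^ 2) % 4 = 0 := by
      have e : ∀ x : ℤ, x % 2 = 0 → x ^ 2 % 4 = 0 := by
        intro x hx
        have : x % 4 = 0 ∨ x % 4 = 2 := by omega
        rcases this with h | h <;> rw [pow_two, Int.mul_emod, h] <;> rfl
      have k2 := e B (by omega)
      have k3 := e C (by omega)
      have k4 := e D (by omega)
      omega
    rw [key] at k1
    have k4 : (n : ℤ) % 4 = 1 := by omega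
    have k6 : t % 4 = 1 ∨ t % 4 = 3 := by omega
    rw [pow_two, Int.mul_emod, Int.mul_emod t, k4] at k1
    rcases k6 with h | h <;> rw [h] at k1 <;> revert k1 <;> decide
  · intro ht0
    rw [ht0, zero_pow two_ne_zero, mul_zero] at key
    have hb := sq_nonneg B
    have hc := sq_nonneg C
    have hd := sq_nonneg D
    have hB : B = 0 := pow_eq_zero_iff two_ne_zero |>.1 (by linarith)
    have hC : C = 0 := pow_eq_zero_iff two_ne_zero |>.1 (by linarith)
    have hD : D = 0 := pow_eq_zero_iff two_ne_zero |>.1 (by linarith)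
    rw [hB, hC, hD]
    unfold mk4
    dsimp only
    apply mq_congr <;> simp

theorem unit_comm {n : ℕ} (hn : Squarefree n) (h8 : n % 8 = 3 ∨ n % 8 = 5) (h3 : n ≠ 3) {v : V3}
    (hv : v ⬝ᵥ v = (n : ℤ)) {u : Quaternion ℚ} (hu : Hz u) (h1 : Quaternion.normSq u = 1)
    (h : u * qv v = qv v * u) : u = 1 ∨ u = -1 := by
  obtain ⟨A, t, k1, -, k2⟩ := comm_form hn hv hu (m := 1) (by rw [h1, Nat.cast_one]) h
  have ht : t = 0 := by
    by_contra ht
    have h2 : 1 ≤ t ^ 2 := by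
      have := sq_nonneg t
      have : t ^ 2 ≠ 0 := pow_ne_zero 2 ht
      omega
    have h4 : (n : ℤ) ≤ 4 := by
      push_cast at k1
      nlinarith [sq_nonneg A]
    omega
  rw [ht] at k1
  have hA : A = 2 ∨ A = -2 := by
    have : A ^ 2 = 2 ^ 2 := by
      push_cast at k1
      linarith
    exact sq_eq_sq_iff_eq_or_eq_neg.1 this
  rw [k2 ht]
  rcases hA with rfl | rfl
  · left
    rw [mq_one]
    apply mq_congr <;> norm_num
  · right
    rw [mq_one, mq_neg]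
    apply mq_congr <;> norm_num

theorem uniq_x (h2 : S_H2) {n d : ℕ} (hn : Squarefree n) (h8 : n % 8 = 3 ∨ n % 8 = 5)
    (h3 : n ≠ 3) {v w : V3} (hv : v ⬝ᵥ v = (n : ℤ)) (hd : d ∣ n) {x x' : Quaternion ℚ}
    (k1 : Hz x) (l1 : Hz x') (k2 : Quaternion.normSq x = d) (l2 : Quaternion.normSq x' = d)
    (k3 : x * qv v = qv w * x) (l3 : x' * qv v = qv w * x') : x' = x ∨ x' = -x := by
  have ho : Odd n := by
    rw [Nat.odd_iff]
    omega
  obtain ⟨-, u, u1, u2, u3⟩ := h2 n d v w w x x' hn ho hv hd k1 l1 k2 l2 k3 l3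
  have hn0 : n ≠ 0 := hn.ne_zero
  have hd0 : d ≠ 0 := fun h => hn0 (by rw [h] at hd; exact Nat.eq_zero_of_zero_dvd hd)
  have hx : x ≠ 0 := ne_zero_of_normSq hd0 k2
  have hw : w ⬝ᵥ w = (n : ℤ) := by
    rw [← hv]
    exact rel_norm hd0 ⟨x, k1, k2, k3⟩
  have hc : u * qv w = qv w * u := by
    apply mul_right_cancel₀ hx
    rw [mul_assoc, ← k3, ← mul_assoc, ← u3, l3, u3, mul_assoc]
  rcases unit_comm hn h8 h3 hw u1 u2 hc with h | h
  · left
    rw [u3, h, one_mul]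
  · right
    rw [u3, h, neg_one_mul]

/-! ### the units -/

/-- the quadruples of the units -/
noncomputable def UT : Finset (ℤ × ℤ × ℤ × ℤ) :=
  (Icc (-2) 2 ×ˢ Icc (-2) 2 ×ˢ Icc (-2) 2 ×ˢ Icc (-2) 2).filter fun t => Par t ∧
    t.1 ^ 2 + t.2.1 ^ 2 + t.2.2.1 ^ 2 + t.2.2.2 ^ 2 = 4

theorem card_UT : UT.card = 24 := by decide +kernel

/-- the units -/
noncomputable def Un : Finset (Quaternion ℚ) := UT.map ⟨mk4, mk4_injective⟩

theorem card_Un : Un.card = 24 := by rw [Un, Finset.card_map, card_UT]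

theorem mem_Un (x : Quaternion ℚ) : x ∈ Un ↔ Hz x ∧ Quaternion.normSq x = 1 := by
  rw [Un, Finset.mem_map]
  constructor
  · rintro ⟨⟨A, B, C, D⟩, ht, rfl⟩
    rw [UT, Finset.mem_filter] at ht
    refine ⟨(hz_iff _).2 ⟨_, ht.2.1, rfl⟩, ?_⟩
    change Quaternion.normSq (mk4 (A, B, C, D)) = 1
    have h1 := ht.2.2
    dsimp only at h1
    rw [normSq_mk4, h1]
    norm_num
  · rintro ⟨h1, h2⟩
    obtain ⟨⟨A, B, C, D⟩, ht, rfl⟩ := (hz_iff x).1 h1
    refine ⟨(A, B, C, D), ?_, rfl⟩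
    rw [normSq_mk4] at h2
    have h3 : ((A ^ 2 + B ^ 2 + C ^ 2 + D ^ 2 : ℤ) : ℚ) = 4 := by linarith
    have h4 : A ^ 2 + B ^ 2 + C ^ 2 + D ^ 2 = 4 := by exact_mod_cast h3
    rw [UT, Finset.mem_filter]
    refine ⟨?_, ht, h4⟩
    simp only [Finset.mem_product, Finset.mem_Icc]
    have hA := sq_nonneg A
    have hB := sq_nonneg B
    have hC := sq_nonneg C
    have hD := sq_nonneg D
    refine ⟨⟨?_, ?_⟩, ⟨?_, ?_⟩, ⟨?_, ?_⟩, ?_, ?_⟩ <;> nlinarith

/-- a unit transports integral vectors to integral vectors -/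
theorem unit_act {u : Quaternion ℚ} (hu : u ∈ Un) (v : V3) : ∃ w : V3, u * qv v = qv w * u := by
  rw [mem_Un] at hu
  have h1 : Hz (u * qv v * star u) := hz_mul (hz_mul hu.1 (hz_qv v)) (hz_star hu.1)
  have h2 : (u * qv v * star u).re = 0 := by
    have h3 : star (u * qv v * star u) = -(u * qv v * star u) := by
      rw [star_mul, star_mul, star_star, star_qv]
      simp only [neg_mul, mul_neg, mul_assoc]
    have h4 : (star (u * qv v * star u)).re = (-(u * qv v * star u)).re :=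
      congrArg (fun x : Quaternion ℚ => x.re) h3
    rw [Quaternion.re_star, Quaternion.re_neg] at h4
    linarith
  obtain ⟨w, hw⟩ := hz_pure h1 h2
  refine ⟨w, ?_⟩
  rw [← hw, mul_assoc, Quaternion.star_mul_self, hu.2]
  simp

open Classical in
theorem card_class (h2 : S_H2) {n : ℕ} (hn : Squarefree n) (h8 : n % 8 = 3 ∨ n % 8 = 5)
    (h3 : n ≠ 3) {v : V3} (hv : v ⬝ᵥ v = (n : ℤ)) :
    ((vec (n : ℤ)).filter fun w => rel 1 v w).card = 12 := by
  have hex : ∀ u : Quaternion ℚ, ∃ w : V3, u ∈ Un → u * qv v = qv w * u := by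
    intro u
    by_cases hu : u ∈ Un
    · obtain ⟨w, hw⟩ := unit_act hu v
      exact ⟨w, fun _ => hw⟩
    · exact ⟨0, fun h => absurd h hu⟩
  choose g hg using hex
  have hrel : ∀ u ∈ Un, rel 1 v (g u) := by
    intro u hu
    have h1 := (mem_Un u).1 hu
    exact ⟨u, h1.1, by rw [h1.2, Nat.cast_one], hg u hu⟩
  have hmaps : Set.MapsTo g (Un : Set (Quaternion ℚ))
      (((vec (n : ℤ)).filter fun w => rel 1 v w : Finset V3) : Set V3) := by
    intro u hu
    have h1 := hrel u hu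
    rw [Finset.mem_coe, Finset.mem_filter, mem_vec]
    refine ⟨?_, h1⟩
    rw [rel_norm one_ne_zero h1, hv]
  have key := Finset.card_eq_sum_card_fiberwise hmaps
  have hfib : ∀ w ∈ (vec (n : ℤ)).filter (fun w => rel 1 v w),
      (Un.filter fun u => g u = w).card = 2 := by
    intro w hw
    rw [Finset.mem_filter] at hw
    obtain ⟨u0, k1, k2, k3⟩ := hw.2
    have hu0 : u0 ∈ Un := (mem_Un _).2 ⟨k1, by rw [k2, Nat.cast_one]⟩
    have hne : u0 ≠ 0 := ne_zero_of_normSq one_ne_zero k2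
    have hgw : ∀ u ∈ Un, u * qv v = qv w * u → g u = w := by
      intro u hu h
      have hu1 : u ≠ 0 := ne_zero_of_normSq (m := 1) one_ne_zero (by
        rw [((mem_Un u).1 hu).2, Nat.cast_one])
      apply qv_injective
      apply mul_right_cancel₀ hu1
      rw [← hg u hu, h]
    have hset : Un.filter (fun u => g u = w) = {u0, -u0} := by
      ext u
      rw [Finset.mem_filter, Finset.mem_insert, Finset.mem_singleton]
      constructor
      · rintro ⟨hu, hgu⟩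
        have h1 := (mem_Un u).1 hu
        have h2' := hg u hu
        rw [hgu] at h2'
        exact uniq_x h2 hn h8 h3 hv (one_dvd n) k1 h1.1 k2 (by rw [h1.2, Nat.cast_one]) k3 h2'
      · rintro (h | h)
        · rw [h]
          exact ⟨hu0, hgw u0 hu0 k3⟩
        · have hu : -u0 ∈ Un := by
            rw [mem_Un]
            refine ⟨hz_neg k1, ?_⟩
            rw [Quaternion.normSq_neg, k2, Nat.cast_one]
          rw [h]
          refine ⟨hu, hgw _ hu ?_⟩
          rw [neg_mul, mul_neg, k3]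
    rw [hset, Finset.card_pair]
    intro h
    apply hne
    have h5 : (2 : ℚ) • u0 = 0 := by
      rw [two_smul]
      nth_rewrite 2 [h]
      rw [add_neg_cancel]
    exact (smul_eq_zero.1 h5).resolve_left (by norm_num)
  rw [Finset.sum_congr rfl hfib, Finset.sum_const, card_Un, smul_eq_mul] at key
  omega

end Pool.Agent.NH1.Ops
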