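import Pool.Agent.NH1.OpsC

/-!
# Project NH1, job NH1-16, fourth part: the classes and the operators
-/

set_option autoImplicit false

namespace Pool.Agent.NH1.Ops

open Finset Matrix
open Pool.Agent.Z700 (V3 vec pr cp Ln n0 ep X2)

/-- the vectors of norm `n` -/
abbrev VN (n : ℕ) : Type := {v : V3 // v ∈ vec (n : ℤ)}

/-- the equivalence of vectors -/
def st (n : ℕ) : Setoid (VN n) where
  r v w := rel 1 v.1 w.1
  iseqv := ⟨fun _ => rel_refl _, fun h => rel_symm h, fun h h' => rel_trans h h'⟩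

/-- the classes of vectors -/
def Om (n : ℕ) : Type := Quotient (st n)

/-- the class of a vector -/
def cl {n : ℕ} (v : VN n) : Om n := Quotient.mk (st n) v

theorem cl_eq {n : ℕ} (v w : VN n) : cl v = cl w ↔ rel 1 v.1 w.1 :=
  ⟨fun h => Quotient.exact h, fun h => Quotient.sound (s := st n) h⟩

/-- a representative -/
noncomputable def rep {n : ℕ} (ω : Om n) : VN n := Quotient.out ω

theorem cl_rep {n : ℕ} (ω : Om n) : cl (rep ω) = ω := Quotient.out_eq ω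

theorem cl_surj {n : ℕ} (ω : Om n) : ∃ v, ω = cl v := ⟨rep ω, (cl_rep ω).symm⟩

instance (n : ℕ) : Finite (Om n) := Finite.of_surjective cl fun ω => ⟨rep ω, cl_rep ω⟩

/-- the operator of norm `d` -/
noncomputable def TT (n d : ℕ) (ω : Om n) : Om n := by
  classical
  exact if h : ∃ w : VN n, rel d (rep ω).1 w.1 then cl h.choose else ω

theorem dot_rv (v : V3) : rv v ⬝ᵥ rv v = v ⬝ᵥ v := by
  rw [dot3, dot3, rv_0, rv_1, rv_2]
  ring

theorem rv_neg (v : V3) : rv (-v) = -rv v := by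
  funext i
  fin_cases i
  · rfl
  · change -(-v) 2 = -(-v 2)
    rfl
  · rfl

/-- the rotation of a vector of norm `n` -/
def rvn {n : ℕ} (v : VN n) : VN n := ⟨rv v.1, by
  have := mem_vec.1 v.2
  rw [mem_vec, dot_rv, this]⟩

/-- the negative of a vector of norm `n` -/
def ngn {n : ℕ} (v : VN n) : VN n := ⟨-v.1, by
  have := mem_vec.1 v.2
  rw [mem_vec, neg_dotProduct_neg, this]⟩

/-- the operator of `1 + i` -/
def Rh {n : ℕ} : Om n → Om n :=
  Quotient.map rvn fun _ _ h => rel_rv h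

/-- the operator `-1` -/
def Nu {n : ℕ} : Om n → Om n :=
  Quotient.map ngn fun _ _ h => rel_neg h

theorem Rh_cl {n : ℕ} (v : VN n) : Rh (cl v) = cl (rvn v) := rfl

theorem Nu_cl {n : ℕ} (v : VN n) : Nu (cl v) = cl (ngn v) := rfl

theorem Rh_Rh {n : ℕ} (ω : Om n) : Rh (Rh ω) = ω := by
  obtain ⟨v, rfl⟩ := cl_surj ω
  rw [Rh_cl, Rh_cl, cl_eq]
  exact rel_symm (rel_rv_rv v.1)

theorem Nu_Nu {n : ℕ} (ω : Om n) : Nu (Nu ω) = ω := by
  obtain ⟨v, rfl⟩ := cl_surj ω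
  rw [Nu_cl, Nu_cl]
  congr 1
  apply Subtype.ext
  exact neg_neg v.1

theorem Rh_Nu {n : ℕ} (ω : Om n) : Rh (Nu ω) = Nu (Rh ω) := by
  obtain ⟨v, rfl⟩ := cl_surj ω
  rw [Nu_cl, Rh_cl, Rh_cl, Nu_cl]
  congr 1
  apply Subtype.ext
  exact rv_neg v.1

section

variable {n : ℕ} (h1 : S_H1) (h2 : S_H2) (hn : Squarefree n) (ho : Odd n)

include hn in
theorem dvd_ne {d : ℕ} (hd : d ∣ n) : d ≠ 0 := fun h =>
  hn.ne_zero (by rw [h] at hd; exact Nat.eq_zero_of_zero_dvd hd)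

include h1 hn ho in
theorem exists_rel {d : ℕ} (hd : d ∣ n) (v : VN n) : ∃ w : VN n, rel d v.1 w.1 := by
  have hv := mem_vec.1 v.2
  obtain ⟨x, w, k1, k2, k3⟩ := h1 n d v.1 hn ho hv hd
  have hr : rel d v.1 w := ⟨x, k1, k2, k3⟩
  refine ⟨⟨w, ?_⟩, hr⟩
  rw [mem_vec, rel_norm (dvd_ne hn hd) hr, hv]

include h1 h2 hn ho in
theorem TT_spec {d : ℕ} (hd : d ∣ n) (v w : VN n) : TT n d (cl v) = cl w ↔ rel d v.1 w.1 := by
  have hex := exists_rel h1 hn ho hd (rep (cl v))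
  have hT : TT n d (cl v) = cl hex.choose := by
    unfold TT
    exact dif_pos hex
  have hch := hex.choose_spec
  have hrep : rel 1 v.1 (rep (cl v)).1 := (cl_eq _ _).1 (cl_rep (cl v)).symm
  have h3 : rel d v.1 hex.choose.1 := by
    have := rel_trans hrep hch
    rwa [mul_one] at this
  rw [hT, cl_eq]
  constructor
  · intro h
    have := rel_trans h3 h
    rwa [one_mul] at this
  · intro h
    exact rel_uniq h2 hn ho (mem_vec.1 v.2) hd h3 h

include h1 h2 hn ho in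
theorem TT_eq {d : ℕ} (hd : d ∣ n) (v : VN n) : ∃ w : VN n, TT n d (cl v) = cl w ∧
    rel d v.1 w.1 := by
  obtain ⟨w, hw⟩ := cl_surj (TT n d (cl v))
  exact ⟨w, hw, (TT_spec h1 h2 hn ho hd v w).1 hw⟩

include h1 h2 hn ho in
theorem TT_one (ω : Om n) : TT n 1 ω = ω := by
  obtain ⟨v, rfl⟩ := cl_surj ω
  exact (TT_spec h1 h2 hn ho (one_dvd n) v v).2 (rel_refl _)

include h1 h2 hn ho in
theorem TT_mul {d d' : ℕ} (hd : d * d' ∣ n) (ω : Om n) :
    TT n d (TT n d' ω) = TT n (d * d') ω := by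
  obtain ⟨v, rfl⟩ := cl_surj ω
  have hd1 : d ∣ n := (Dvd.intro _ rfl).trans hd
  have hd2 : d' ∣ n := (Dvd.intro_left _ rfl).trans hd
  obtain ⟨w, hw, hr⟩ := TT_eq h1 h2 hn ho hd2 v
  obtain ⟨z, hz, hr'⟩ := TT_eq h1 h2 hn ho hd1 w
  rw [hw, hz]
  symm
  rw [TT_spec h1 h2 hn ho hd]
  exact rel_trans hr hr'

include h1 h2 hn ho in
theorem TT_TT {d : ℕ} (hd : d ∣ n) (ω : Om n) : TT n d (TT n d ω) = ω := by
  obtain ⟨v, rfl⟩ := cl_surj ω
  obtain ⟨w, hw, hr⟩ := TT_eq h1 h2 hn ho hd v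
  rw [hw, TT_spec h1 h2 hn ho hd]
  exact rel_symm hr

include h1 h2 hn ho in
theorem TT_Rh {d : ℕ} (hd : d ∣ n) (ω : Om n) : TT n d (Rh ω) = Rh (TT n d ω) := by
  obtain ⟨v, rfl⟩ := cl_surj ω
  obtain ⟨w, hw, hr⟩ := TT_eq h1 h2 hn ho hd v
  rw [hw, Rh_cl, Rh_cl, TT_spec h1 h2 hn ho hd]
  exact rel_rv hr

include h1 h2 hn ho in
theorem TT_Nu {d : ℕ} (hd : d ∣ n) (ω : Om n) : TT n d (Nu ω) = Nu (TT n d ω) := by
  obtain ⟨v, rfl⟩ := cl_surj ω
  obtain ⟨w, hw, hr⟩ := TT_eq h1 h2 hn ho hd v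
  rw [hw, Nu_cl, Nu_cl, TT_spec h1 h2 hn ho hd]
  exact rel_neg hr

end

/-! ### counting -/

open Classical in
theorem card_VN {n : ℕ} (P : V3 → Prop) :
    Nat.card {v : VN n // P v.1} = ((vec (n : ℤ)).filter P).card := by
  rw [Nat.card_congr (Equiv.subtypeSubtypeEquivSubtypeInter (fun v => v ∈ vec (n : ℤ)) P)]
  exact Nat.subtype_card _ fun x => by rw [Finset.mem_filter]

section

variable {n : ℕ} (h2 : S_H2) (hn : Squarefree n) (h8 : n % 8 = 3 ∨ n % 8 = 5)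
    (h3 : n ≠ 3)

include h2 hn h8 h3 in
theorem card_fib (ω : Om n) : Nat.card {v : VN n // cl v = ω} = 12 := by
  classical
  obtain ⟨v0, rfl⟩ := cl_surj ω
  rw [← card_class h2 hn h8 h3 (mem_vec.1 v0.2), ← card_VN]
  exact Nat.card_congr (Equiv.subtypeEquivRight fun v => by
    rw [cl_eq]
    exact ⟨rel_symm, rel_symm⟩)

include h2 hn h8 h3 in
theorem card_om (Q : Om n → Prop) :
    Nat.card {v : VN n // Q (cl v)} = 12 * Nat.card {ω : Om n // Q ω} := by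
  classical
  have hfin : Fintype {ω : Om n // Q ω} := Fintype.ofFinite _
  let e : {v : VN n // Q (cl v)} ≃ Σ ω : {ω : Om n // Q ω}, {v : VN n // cl v = ω.1} :=
    { toFun := fun v => ⟨⟨cl v.1, v.2⟩, ⟨v.1, rfl⟩⟩
      invFun := fun p => ⟨p.2.1, by rw [p.2.2]; exact p.1.2⟩
      left_inv := fun v => rfl
      right_inv := fun p => by
        obtain ⟨⟨ω, hω⟩, ⟨v, hv⟩⟩ := p
        dsimp only at hv
        subst hv
        rfl }
  rw [Nat.card_congr e, Nat.card_sigma]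
  rw [Finset.sum_congr rfl fun ω _ => card_fib h2 hn h8 h3 ω.1]
  rw [Finset.sum_const, Finset.card_univ, smul_eq_mul, mul_comm, Nat.card_eq_fintype_card]

open Classical in
include h2 hn h8 h3 in
theorem card_om' (Q : Om n → Prop) (P : V3 → Prop) (hPQ : ∀ v : VN n, Q (cl v) ↔ P v.1) :
    ((vec (n : ℤ)).filter P).card = 12 * Nat.card {ω : Om n // Q ω} := by
  rw [← card_om h2 hn h8 h3 Q, ← card_VN]
  exact Nat.card_congr (Equiv.subtypeEquivRight fun v => (hPQ v).symm)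

end

open Classical in
theorem cp_eq (n m : ℕ) (hm : m ≠ 0) (P : V3 → Prop)
    (hP : ∀ v ∈ vec (n : ℤ), P v ↔ ∃ y ∈ vec (m : ℤ), v ⬝ᵥ y = 0)
    (hu : ∀ v ∈ vec (n : ℤ), ∀ y ∈ vec (m : ℤ), ∀ y' ∈ vec (m : ℤ), v ⬝ᵥ y = 0 → v ⬝ᵥ y' = 0 →
      y' = y ∨ y' = -y) : cp (n : ℤ) 0 (m : ℤ) = 2 * ((vec (n : ℤ)).filter P).card := by
  unfold Pool.Agent.Z700.cp
  rw [Finset.card_filter, Finset.sum_product]
  have h1 : ∀ v ∈ vec (n : ℤ), ∑ y ∈ vec (m : ℤ), (if v ⬝ᵥ y = 0 then 1 else 0) =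
      if P v then 2 else 0 := by
    intro v hv
    rw [← Finset.card_filter]
    split_ifs with h
    · obtain ⟨y, hy, hy0⟩ := (hP v hv).1 h
      have hset : (vec (m : ℤ)).filter (fun y => v ⬝ᵥ y = 0) = {y, -y} := by
        ext y'
        rw [Finset.mem_filter, Finset.mem_insert, Finset.mem_singleton]
        constructor
        · rintro ⟨k1, k2⟩
          exact hu v hv y hy y' k1 hy0 k2
        · rintro (h | h)
          · rw [h]
            exact ⟨hy, hy0⟩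
          · rw [h, mem_vec, neg_dotProduct_neg, dotProduct_neg, hy0, neg_zero]
            exact ⟨mem_vec.1 hy, rfl⟩
      rw [hset, Finset.card_pair]
      intro hyy
      have hy00 : y = 0 := by
        funext i
        have := congrFun hyy i
        rw [Pi.neg_apply] at this
        change y i = 0
        omega
      rw [mem_vec, hy00, zero_dotProduct] at hy
      exact hm (by exact_mod_cast hy.symm)
    · rw [Finset.card_eq_zero, Finset.filter_eq_empty_iff]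
      intro y hy hy0
      exact h ((hP v hv).2 ⟨y, hy, hy0⟩)
  rw [Finset.sum_congr rfl h1, ← Finset.sum_filter, Finset.sum_const, smul_eq_mul, mul_comm]

end Pool.Agent.NH1.Ops
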