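import Pool.Agent.NH1.OpsD

/-!
# Project NH1, job NH1-16, fifth part: fixed points
-/

set_option autoImplicit false

namespace Pool.Agent.NH1.Ops

open Finset Matrix
open Pool.Agent.Z700 (V3 vec pr cp Ln n0 ep X2)

/-! ### products of primes -/

theorem pr_empty : pr ∅ = 1 := rfl

theorem pr_dvd {N D : Finset ℕ} (h : D ⊆ N) : pr D ∣ pr N :=
  Finset.prod_dvd_prod_of_subset _ _ _ h

theorem pr_union {D E : Finset ℕ} (h : Disjoint D E) : pr (D ∪ E) = pr D * pr E :=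
  Finset.prod_union h

theorem pr_one {D : Finset ℕ} (hD : ∀ p ∈ D, p.Prime) (h : pr D = 1) : D = ∅ := by
  rw [Finset.eq_empty_iff_forall_notMem]
  intro p hp
  have h1 : p ∣ pr D := Finset.dvd_prod_of_mem _ hp
  rw [h] at h1
  exact (hD p hp).one_lt.ne' (Nat.dvd_one.1 h1)

theorem pr_eq {N D : Finset ℕ} (hN : ∀ p ∈ N, p.Prime) (hD : D ⊆ N) (h : pr D = pr N) :
    D = N := by
  have h1 : pr (N \ D) = 1 := by
    have h2 : pr N = pr (N \ D) * pr D := by
      rw [← pr_union Finset.sdiff_disjoint, Finset.sdiff_union_of_subset hD]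
    have h3 : 0 < pr D := pr_pos fun p hp => hN p (hD hp)
    rw [h] at h3
    rw [h] at h2
    have h4 : pr (N \ D) * pr N = 1 * pr N := by rw [← h2, one_mul]
    exact Nat.eq_of_mul_eq_mul_right h3 h4
  have h5 := pr_one (fun p hp => hN p (Finset.sdiff_subset hp)) h1
  exact Finset.Subset.antisymm hD (Finset.sdiff_eq_empty_iff_subset.1 h5)

theorem pr_three {N : Finset ℕ} (hN : ∀ p ∈ N, p.Prime) (h : pr N = 3) : N = {3} := by
  have h1 : ∀ p ∈ N, p = 3 := by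
    intro p hp
    have h2 : p ∣ pr N := Finset.dvd_prod_of_mem _ hp
    rw [h] at h2
    exact (Nat.prime_dvd_prime_iff_eq (hN p hp) Nat.prime_three).1 h2
  apply Finset.eq_singleton_iff_unique_mem.2
  refine ⟨?_, h1⟩
  by_contra h3
  have h4 : N = ∅ := by
    rw [Finset.eq_empty_iff_forall_notMem]
    intro p hp
    rw [h1 p hp] at hp
    exact h3 hp
  rw [h4, pr_empty] at h
  omega

/-! ### the equations -/

theorem sq_of_squarefree {d : ℕ} (hd : Squarefree d) {a : ℤ} (h : a ^ 2 = d) : d = 1 := by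
  have h1 : a.natAbs * a.natAbs = d := by
    have h2 : (a.natAbs : ℤ) * a.natAbs = d := by rw [← h, pow_two, Int.natAbs_mul_self' a]
    exact_mod_cast h2
  have h3 := hd a.natAbs ⟨1, by rw [h1, mul_one]⟩
  rw [Nat.isUnit_iff] at h3
  rw [← h1, h3]

theorem sq_cases (b : ℤ) : b = 0 ∨ b ^ 2 = 1 ∨ 4 ≤ b ^ 2 := by
  rcases lt_trichotomy b 0 with h | h | h
  · right
    rcases (show b = -1 ∨ b ≤ -2 by omega) with h | h
    · left
      rw [h]
      norm_num
    · right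
      nlinarith
  · exact Or.inl h
  · right
    rcases (show b = 1 ∨ 2 ≤ b by omega) with h | h
    · left
      rw [h]
      norm_num
    · right
      nlinarith

theorem dvd_of_dvd_sq {d : ℕ} (hd : Squarefree d) {a : ℤ} (h : (d : ℤ) ∣ a ^ 2) :
    (d : ℤ) ∣ a := by
  have k2 : d ∣ a.natAbs ^ 2 := by
    rw [← Int.natAbs_pow]
    exact Int.natCast_dvd.1 h
  exact Int.natCast_dvd.2 ((Squarefree.dvd_pow_iff_dvd hd two_ne_zero).1 k2)

theorem nt_five {n d : ℕ} (hn : Squarefree n) (hd : d ∣ n) {a b : ℤ}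
    (h : a ^ 2 + n * b ^ 2 = d) : d = 1 ∨ d = n := by
  have hds : Squarefree d := hn.squarefree_of_dvd hd
  rcases eq_or_ne b 0 with hb | hb
  · left
    rw [hb] at h
    exact sq_of_squarefree hds (a := a) (by linarith)
  · right
    have hnpos : 0 < n := Nat.pos_of_ne_zero hn.ne_zero
    have hle : d ≤ n := Nat.le_of_dvd hnpos hd
    have h1 : 1 ≤ b ^ 2 := by
      rcases sq_cases b with h | h | h
      · exact absurd h hb
      · omega
      · omega
    have h2 : (n : ℤ) ≤ d := by nlinarith [sq_nonneg a, (by exact_mod_cast hnpos : (0 : ℤ) < n)]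
    have h3 : n ≤ d := by exact_mod_cast h2
    omega

theorem nt_three {n d : ℕ} (hn : Squarefree n) (h8 : n % 8 = 3) (h3 : n ≠ 3) (hd : d ∣ n)
    {a b : ℤ} (h : a ^ 2 + n * b ^ 2 = 4 * d) : d = 1 ∨ d = n := by
  have hds : Squarefree d := hn.squarefree_of_dvd hd
  have hnpos : 0 < n := Nat.pos_of_ne_zero hn.ne_zero
  obtain ⟨d', rfl⟩ := hd
  have hdpos : 0 < d := Nat.pos_of_ne_zero hds.ne_zero
  have hd'pos : 0 < d' := Nat.pos_of_ne_zero fun h => by
    rw [h, mul_zero] at hnpos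
    exact lt_irrefl _ hnpos
  have hdvd : (d : ℤ) ∣ a := by
    apply dvd_of_dvd_sq hds
    refine ⟨4 - d' * b ^ 2, ?_⟩
    push_cast at h
    linarith
  obtain ⟨c, rfl⟩ := hdvd
  have hdz : (d : ℤ) ≠ 0 := by exact_mod_cast hdpos.ne'
  have key : (d : ℤ) * c ^ 2 + d' * b ^ 2 = 4 := by
    apply mul_left_cancel₀ hdz
    push_cast at h
    linarith
  have hdz1 : (1 : ℤ) ≤ d := by exact_mod_cast hdpos
  have hdz2 : (1 : ℤ) ≤ d' := by exact_mod_cast hd'pos
  have hodd : d % 2 = 1 ∧ d' % 2 = 1 := by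
    have : Odd (d * d') := by
      rw [Nat.odd_iff]
      omega
    rw [Nat.odd_mul] at this
    exact ⟨Nat.odd_iff.1 this.1, Nat.odd_iff.1 this.2⟩
  rcases sq_cases c with hc | hc | hc <;> rcases sq_cases b with hb | hb | hb
  · rw [hc, hb] at key
    norm_num at key
  · rw [hc, hb] at key
    norm_num at key
    have : d' = 4 := by exact_mod_cast key
    omega
  · right
    rw [hc] at key
    have : (d' : ℤ) ≤ 1 := by nlinarith
    have : d' = 1 := by
      have : d' ≤ 1 := by exact_mod_cast this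
      omega
    rw [this, mul_one]
  · rw [hc, hb] at key
    norm_num at key
    have : d = 4 := by exact_mod_cast key
    omega
  · rw [hc, hb] at key
    have : d + d' = 4 := by
      have : (d : ℤ) + d' = 4 := by linarith
      exact_mod_cast this
    have : d = 1 ∨ d = 3 := by omega
    rcases this with h1 | h1
    · left
      exact h1
    · exfalso
      have : d' = 1 := by omega
      rw [h1, this] at h3
      exact h3 rfl
  · rw [hc] at key
    nlinarith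
  · left
    have : (d : ℤ) ≤ 1 := by
      rw [hb] at key
      nlinarith
    have : d ≤ 1 := by exact_mod_cast this
    omega
  · rw [hb] at key
    nlinarith
  · nlinarith

theorem nt_two {n d : ℕ} (hn : Squarefree n) (h8 : n % 8 = 5) (hd : d ∣ n) {a b : ℤ}
    (h : a ^ 2 + n * b ^ 2 = 2 * d) : False := by
  have hds : Squarefree d := hn.squarefree_of_dvd hd
  have hnpos : 0 < n := Nat.pos_of_ne_zero hn.ne_zero
  obtain ⟨d', rfl⟩ := hd
  have hdpos : 0 < d := Nat.pos_of_ne_zero hds.ne_zero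
  have hd'pos : 0 < d' := Nat.pos_of_ne_zero fun h => by
    rw [h, mul_zero] at hnpos
    exact lt_irrefl _ hnpos
  have hdvd : (d : ℤ) ∣ a := by
    apply dvd_of_dvd_sq hds
    refine ⟨2 - d' * b ^ 2, ?_⟩
    push_cast at h
    linarith
  obtain ⟨c, rfl⟩ := hdvd
  have hdz : (d : ℤ) ≠ 0 := by exact_mod_cast hdpos.ne'
  have key : (d : ℤ) * c ^ 2 + d' * b ^ 2 = 2 := by
    apply mul_left_cancel₀ hdz
    push_cast at h
    linarith
  have hdz1 : (1 : ℤ) ≤ d := by exact_mod_cast hdpos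
  have hdz2 : (1 : ℤ) ≤ d' := by exact_mod_cast hd'pos
  have hodd : d % 2 = 1 ∧ d' % 2 = 1 := by
    have : Odd (d * d') := by
      rw [Nat.odd_iff]
      omega
    rw [Nat.odd_mul] at this
    exact ⟨Nat.odd_iff.1 this.1, Nat.odd_iff.1 this.2⟩
  rcases sq_cases c with hc | hc | hc <;> rcases sq_cases b with hb | hb | hb
  · rw [hc, hb] at key
    norm_num at key
  · rw [hc, hb] at key
    norm_num at key
    have : d' = 2 := by exact_mod_cast key
    omega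
  · rw [hc] at key
    nlinarith
  · rw [hc, hb] at key
    norm_num at key
    have : d = 2 := by exact_mod_cast key
    omega
  · rw [hc, hb] at key
    have : d + d' = 2 := by
      have : (d : ℤ) + d' = 2 := by linarith
      exact_mod_cast this
    have h1 : d = 1 := by omega
    have h2 : d' = 1 := by omega
    rw [h1, h2] at h8
    omega
  · rw [hc] at key
    nlinarith
  · rw [hb] at key
    nlinarith
  · rw [hb] at key
    nlinarith
  · nlinarith

theorem no_fix {N D : Finset ℕ} (hN : ∀ p ∈ N, p.Prime) (h8 : pr N % 8 = 3 ∨ pr N % 8 = 5)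
    (h3 : pr N ≠ 3) (hD : D ⊆ N) {v : V3} (hv : v ⬝ᵥ v = (pr N : ℤ)) (h : rel (pr D) v v) :
    D = ∅ ∨ D = N := by
  have hn := pr_squarefree hN
  obtain ⟨z, k1, k2, k3⟩ := h
  obtain ⟨A, t, l1, l2, -⟩ := comm_form hn hv k1 k2 k3
  have key : pr D = 1 ∨ pr D = pr N := by
    rcases h8 with h8 | h8
    · exact nt_three hn h8 h3 (pr_dvd hD) l1
    · obtain ⟨m1, m2⟩ := l2 h8
      obtain ⟨a, rfl⟩ : (2 : ℤ) ∣ A := Int.dvd_of_emod_eq_zero m1
      obtain ⟨b, rfl⟩ : (2 : ℤ) ∣ t := Int.dvd_of_emod_eq_zero m2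
      exact nt_five hn (pr_dvd hD) (a := a) (b := b) (by linarith)
  rcases key with h | h
  · exact Or.inl (pr_one (fun p hp => hN p (hD hp)) h)
  · exact Or.inr (pr_eq hN hD h)

theorem no_fix_two {N D : Finset ℕ} (hN : ∀ p ∈ N, p.Prime) (h8 : pr N % 8 = 5)
    (hD : D ⊆ N) {v : V3} (hv : v ⬝ᵥ v = (pr N : ℤ)) (h : rel (pr D * 2) v v) : False := by
  have hn := pr_squarefree hN
  obtain ⟨z, k1, k2, k3⟩ := h
  obtain ⟨A, t, l1, l2, -⟩ := comm_form hn hv k1 k2 k3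
  obtain ⟨m1, m2⟩ := l2 h8
  obtain ⟨a, rfl⟩ : (2 : ℤ) ∣ A := Int.dvd_of_emod_eq_zero m1
  obtain ⟨b, rfl⟩ : (2 : ℤ) ∣ t := Int.dvd_of_emod_eq_zero m2
  push_cast at l1
  exact nt_two hn h8 (pr_dvd hD) (a := a) (b := b) (by linarith)

/-! ### fixed points of the operators composed with `-1` -/

theorem rel_neg_iff {n d : ℕ} (hn : n ≠ 0) {v : V3} (hv : v ⬝ᵥ v = (n : ℤ)) :
    rel d v (-v) ↔ ∃ y ∈ vec (d : ℤ), v ⬝ᵥ y = 0 := by
  constructor
  · rintro ⟨x, k1, k2, k3⟩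
    rw [qv_neg, neg_mul] at k3
    obtain ⟨y, rfl⟩ := hz_pure k1 (re_of_anti hn hv k3)
    refine ⟨y, ?_, (anti_iff v y).1 k3⟩
    rw [mem_vec]
    rw [normSq_qv] at k2
    exact_mod_cast k2
  · rintro ⟨y, hy, h0⟩
    refine ⟨qv y, hz_qv y, ?_, ?_⟩
    · rw [normSq_qv, mem_vec.1 hy]
      push_cast
      rfl
    · rw [qv_neg, neg_mul]
      exact (anti_iff v y).2 h0

theorem uniq_neg (h2 : S_H2) {n d : ℕ} (hn : Squarefree n) (h8 : n % 8 = 3 ∨ n % 8 = 5)
    (h3 : n ≠ 3) {v : V3} (hv : v ⬝ᵥ v = (n : ℤ)) (hd : d ∣ n) {y y' : V3}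
    (hy : y ∈ vec (d : ℤ)) (hy' : y' ∈ vec (d : ℤ)) (h0 : v ⬝ᵥ y = 0) (h0' : v ⬝ᵥ y' = 0) :
    y' = y ∨ y' = -y := by
  have e : ∀ y ∈ vec (d : ℤ), Quaternion.normSq (qv y) = (d : ℚ) := by
    intro y hy
    rw [normSq_qv, mem_vec.1 hy]
    push_cast
    rfl
  have e2 : ∀ y, v ⬝ᵥ y = 0 → qv y * qv v = qv (-v) * qv y := by
    intro y h0
    rw [qv_neg, neg_mul]
    exact (anti_iff v y).2 h0
  rcases uniq_x h2 hn h8 h3 hv hd (hz_qv y) (hz_qv y') (e y hy) (e y' hy') (e2 y h0)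
    (e2 y' h0') with h | h
  · exact Or.inl (qv_injective h)
  · right
    rw [← qv_neg] at h
    exact qv_injective h

theorem one_i_cj (z : Quaternion ℚ) : mq 1 (-1) 0 0 * cj z = z * mq 1 (-1) 0 0 := by
  rw [eq_mq z, cj_mq, mq_mul, mq_mul]
  apply mq_congr <;> ring

theorem one_i_ne : mq 1 (-1) 0 0 ≠ 0 := by
  intro h
  rw [mq_zero] at h
  have := (mq_inj h).1
  norm_num at this

theorem hz_one_i : Hz (mq 1 (-1) 0 0) :=
  (hz_def _).2 ⟨1, -1, 0, 0, Or.inl (by norm_num)⟩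

theorem normSq_one_i : Quaternion.normSq (mq 1 (-1) 0 0) = 2 := by
  rw [normSq_mq]
  norm_num

theorem half_exists {d : ℕ} {y : V3} (hy : y ∈ vec ((2 * d : ℕ) : ℤ)) :
    ∃ x : Quaternion ℚ, Hz x ∧ mq 1 (-1) 0 0 * x = qv y ∧ Quaternion.normSq x = (d : ℚ) := by
  have h0 := mem_vec.1 hy
  rw [dot3] at h0
  have hpar : (y 0 + y 1 + y 2) % 2 = 0 := by
    have e : ∀ a : ℤ, (a * a) % 2 = a % 2 := by
      intro a
      rcases Int.emod_two_eq_zero_or_one a with h | h <;> rw [Int.mul_emod, h] <;> rfl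
    have e0 := e (y 0)
    have e1 := e (y 1)
    have e2 := e (y 2)
    push_cast at h0
    omega
  have hx : mq 1 (-1) 0 0 * mk4 (-y 0, y 0, y 1 - y 2, y 1 + y 2) = qv y := by
    unfold mk4
    rw [mq_mul, qv_def]
    push_cast
    apply mq_congr <;> ring
  refine ⟨mk4 (-y 0, y 0, y 1 - y 2, y 1 + y 2), ?_, hx, ?_⟩
  · rw [hz_iff]
    refine ⟨_, ?_, rfl⟩
    unfold Par
    dsimp only
    refine ⟨?_, ?_, ?_⟩ <;> omega
  · have h1 := congrArg Quaternion.normSq hx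
    rw [map_mul, normSq_one_i, normSq_qv, mem_vec.1 hy] at h1
    push_cast at h1
    linarith

theorem half_anti {v y : V3} {x : Quaternion ℚ} (hx : mq 1 (-1) 0 0 * x = qv y) :
    x * qv v = qv (rv (-v)) * x ↔ v ⬝ᵥ y = 0 := by
  have e1 : mq 1 (-1) 0 0 * (qv (rv (-v)) * x) = -(qv v * qv y) := by
    rw [← mul_assoc, ← cj_qv, one_i_cj, mul_assoc, hx, qv_neg, neg_mul]
  have e2 : mq 1 (-1) 0 0 * (x * qv v) = qv y * qv v := by
    rw [← mul_assoc, hx]
  rw [← anti_iff, ← e1, ← e2]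
  constructor
  · intro h
    rw [h]
  · intro h
    exact mul_left_cancel₀ one_i_ne h

theorem rel_rv_iff {n d : ℕ} (hn : n ≠ 0) {v : V3} (hv : v ⬝ᵥ v = (n : ℤ)) :
    rel d v (rv (-v)) ↔ ∃ y ∈ vec ((2 * d : ℕ) : ℤ), v ⬝ᵥ y = 0 := by
  constructor
  · rintro ⟨x, k1, k2, k3⟩
    have hy : (mq 1 (-1) 0 0 * x) * qv v = -(qv v * (mq 1 (-1) 0 0 * x)) := by
      rw [mul_assoc, k3, ← mul_assoc, ← cj_qv, one_i_cj, mul_assoc, qv_neg, neg_mul]
    obtain ⟨y, hy'⟩ := hz_pure (hz_mul hz_one_i k1) (re_of_anti hn hv hy)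
    refine ⟨y, ?_, (half_anti hy').1 k3⟩
    rw [mem_vec]
    have h1 := congrArg Quaternion.normSq hy'
    rw [map_mul, normSq_one_i, normSq_qv, k2] at h1
    have h2 : (2 * d : ℚ) = ((2 * d : ℕ) : ℤ) := by push_cast; ring
    rw [h2] at h1
    exact_mod_cast h1.symm
  · rintro ⟨y, hy, h0⟩
    obtain ⟨x, k1, k2, k3⟩ := half_exists hy
    exact ⟨x, k1, k3, (half_anti k2).2 h0⟩

theorem uniq_rv (h2 : S_H2) {n d : ℕ} (hn : Squarefree n) (h8 : n % 8 = 3 ∨ n % 8 = 5)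
    (h3 : n ≠ 3) {v : V3} (hv : v ⬝ᵥ v = (n : ℤ)) (hd : d ∣ n) {y y' : V3}
    (hy : y ∈ vec ((2 * d : ℕ) : ℤ)) (hy' : y' ∈ vec ((2 * d : ℕ) : ℤ)) (h0 : v ⬝ᵥ y = 0)
    (h0' : v ⬝ᵥ y' = 0) : y' = y ∨ y' = -y := by
  obtain ⟨x, k1, k2, k3⟩ := half_exists hy
  obtain ⟨x', l1, l2, l3⟩ := half_exists hy'
  rcases uniq_x h2 hn h8 h3 hv hd k1 l1 k3 l3 ((half_anti k2).2 h0)
    ((half_anti l2).2 h0') with h | h
  · left
    apply qv_injective
    rw [← l2, h, k2]
  · right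
    apply qv_injective
    rw [← l2, h, qv_neg, mul_neg, k2]

end Pool.Agent.NH1.Ops
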