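import Pool.Agent.NH1.Sub

/-!
# Rotations of the cube, characters and lines modulo `7`: common lemmas, and S_ROT
-/

set_option autoImplicit false

namespace Pool.Agent.NH1

open Finset Matrix
open Pool.Agent.Z700 (V3 vec pr Ln n0 ep X2)

namespace RotW

theorem mem_vec {n : ℤ} {v : V3} : v ∈ vec n ↔ v ⬝ᵥ v = n := by
  unfold Pool.Agent.Z700.vec
  rw [Finset.mem_filter, Fintype.mem_piFinset]
  refine ⟨fun h => h.2, fun h => ⟨fun i => ?_, h⟩⟩
  have h1 : v i * v i ≤ n := by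
    rw [← h, dotProduct]
    exact Finset.single_le_sum (f := fun i => v i * v i) (fun j _ => mul_self_nonneg (v j))
      (Finset.mem_univ i)
  rw [Finset.mem_Icc]
  constructor
  · rcases le_or_gt 0 (v i) with h2 | h2
    · nlinarith
    · nlinarith
  · rcases le_or_gt (v i) 0 with h2 | h2
    · nlinarith
    · nlinarith

theorem dot3 (v w : V3) : v ⬝ᵥ w = v 0 * w 0 + v 1 * w 1 + v 2 * w 2 := by
  rw [dotProduct, Fin.sum_univ_three]

theorem rd_mk (p : ℕ) (a b c : ℤ) : rd p ![a, b, c] = ![(a : ZMod p), (b : ZMod p), (c : ZMod p)] := by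
  funext i
  fin_cases i <;> rfl

theorem rd_eta (p : ℕ) (v : V3) : rd p v = ![(v 0 : ZMod p), (v 1 : ZMod p), (v 2 : ZMod p)] := by
  funext i
  fin_cases i <;> rfl

theorem eta (v : V3) : v = ![v 0, v 1, v 2] := by
  funext i
  fin_cases i <;> rfl

theorem lz_two {p : ℕ} (hp : p.Prime) (h2 : p ≠ 2) : lz p 2 = jacobiSym 2 p := by
  have h3 : 2 < p := lt_of_le_of_ne hp.two_le (Ne.symm h2)
  unfold lz
  have : ((2 : ZMod p)).val = 2 := by
    have := ZMod.val_natCast_of_lt (n := p) (a := 2) h3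
    exact_mod_cast this
  rw [this]
  rfl

section chars

variable (h : S_PHI) (h' : S_PROT)
include h h'

theorem c_cyc {p : ℕ} (hp : p.Prime) (h2 : p ≠ 2) (a b c : ℤ) :
    ph p (rd p ![b, c, a]) = ph p (rd p ![a, b, c]) := by
  have k := (h' p hp h2 (ph p) (ph_spec h hp h2) (rd p ![a, b, c])).1
  rw [rd_mk, rd_mk]
  rw [rd_mk] at k
  exact k

theorem c_sgn {p : ℕ} (hp : p.Prime) (h2 : p ≠ 2) (a b c : ℤ) :
    ph p (rd p ![a, -b, -c]) = ph p (rd p ![a, b, c]) := by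
  have k := (h' p hp h2 (ph p) (ph_spec h hp h2) (rd p ![a, b, c])).2.1
  rw [rd_mk, rd_mk]
  rw [rd_mk] at k
  push_cast
  exact k

theorem c_odd {p : ℕ} (hp : p.Prime) (h2 : p ≠ 2) (a b c : ℤ) :
    ph p (rd p ![a, -c, b]) = jacobiSym 2 p * ph p (rd p ![a, b, c]) := by
  have k := (h' p hp h2 (ph p) (ph_spec h hp h2) (rd p ![a, b, c])).2.2.1
  rw [rd_mk, rd_mk, ← lz_two hp h2]
  rw [rd_mk] at k
  push_cast
  exact k

theorem c_sgn2 {p : ℕ} (hp : p.Prime) (h2 : p ≠ 2) (a b c : ℤ) :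
    ph p (rd p ![-a, b, -c]) = ph p (rd p ![a, b, c]) := by
  rw [← c_cyc h h' hp h2 (-a) b (-c), c_cyc h h' hp h2 (-a) b (-c), ← c_cyc h h' hp h2 a b c,
    ← c_sgn h h' hp h2 b c a, c_cyc h h' hp h2 (-a) b (-c) |>.symm]

theorem c_sgn3 {p : ℕ} (hp : p.Prime) (h2 : p ≠ 2) (a b c : ℤ) :
    ph p (rd p ![-a, -b, c]) = ph p (rd p ![a, b, c]) := by
  have k1 := c_sgn h h' hp h2 (-a) b (-c)
  rw [neg_neg] at k1
  rw [k1, c_sgn2 h h' hp h2]

end chars

/-! ### the eight lines -/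

/-- the condition of `Ln` for residues -/
def LZ (n : Fin 3 → ZMod 7) (β a b c : ZMod 7) : Prop :=
  b * n 2 - c * n 1 = β * n 0 ∧ c * n 0 - a * n 2 = β * n 1 ∧ a * n 1 - b * n 0 = β * n 2

instance (n : Fin 3 → ZMod 7) (β a b c : ZMod 7) : Decidable (LZ n β a b c) := by
  unfold LZ; infer_instance

theorem ln_lz (n : Fin 3 → ZMod 7) (β : ZMod 7) (v : V3) :
    Ln n β v ↔ LZ n β (v 0 : ZMod 7) (v 1 : ZMod 7) (v 2 : ZMod 7) := Iff.rfl

/-- the isotropic lines modulo `7` -/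
def nn (i : Fin 8) : Fin 3 → ZMod 7 :=
  (![![1, 2, 3], ![1, -2, -3], ![-1, 2, -3], ![-1, -2, 3], ![1, -3, 2], ![1, 3, -2], ![-1, -3, -2],
    ![-1, 3, 2]] : Fin 8 → Fin 3 → ZMod 7) i

theorem uniq_dec : ∀ β a b c : ZMod 7, β ≠ 0 → a * a + b * b + c * c = -β ^ 2 →
    (Finset.univ.filter fun i : Fin 8 => LZ (nn i) β a b c).card = 1 := by
  decide +kernel

theorem uniq (β : ZMod 7) (hβ : β ≠ 0) (n : ℤ) (hn : β ^ 2 = -(n : ZMod 7)) (v : V3)
    (hv : v ∈ vec n) : (Finset.univ.filter fun i : Fin 8 => Ln (nn i) β v).card = 1 := by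
  rw [mem_vec, dot3] at hv
  have h1 : (v 0 : ZMod 7) * (v 0 : ZMod 7) + (v 1 : ZMod 7) * (v 1 : ZMod 7) +
      (v 2 : ZMod 7) * (v 2 : ZMod 7) = -β ^ 2 := by
    rw [hn, neg_neg, ← hv]
    push_cast
    ring
  exact uniq_dec β _ _ _ hβ h1

theorem split (S : Finset V3) (Q : Fin 8 → V3 → Prop) [∀ i, DecidablePred (Q i)]
    (hQ : ∀ v ∈ S, (Finset.univ.filter fun i => Q i v).card = 1) :
    S.card = ∑ i, (S.filter (Q i)).card := by
  simp only [Finset.card_filter]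
  rw [Finset.sum_comm, Finset.card_eq_sum_ones]
  refine Finset.sum_congr rfl fun v hv => ?_
  rw [← Finset.card_filter]
  exact (hQ v hv).symm

open Classical in
theorem tr (N : Finset ℕ) (n : ℤ) (n' : Fin 3 → ZMod 7) (β : ZMod 7) (γ : ℕ → ℤ) (T S : V3 → V3)
    (hTS : ∀ v, T (S v) = v) (hST : ∀ v, S (T v) = v)
    (hd : ∀ v, T v ⬝ᵥ T v = v ⬝ᵥ v)
    (hL : ∀ v, Ln n' β (T v) ↔ Ln n0 β v)
    (δ : ℕ → ℤ) (hδ : ∀ p ∈ N, δ p = 1 ∨ δ p = -1)
    (hc : ∀ p ∈ N, ∀ v, ph p (rd p (T v)) = δ p * ph p (rd p v)) :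
    ((vec n).filter fun v => Ln n' β v ∧ ∀ p ∈ N, ph p (rd p v) = γ p).card =
      ((vec n).filter fun v => Ln n0 β v ∧ ∀ p ∈ N, ph p (rd p v) = γ p * δ p).card := by
  have key : ∀ v, (∀ p ∈ N, ph p (rd p (T v)) = γ p) ↔ ∀ p ∈ N, ph p (rd p v) = γ p * δ p := by
    intro v
    refine forall₂_congr fun p hp => ?_
    rw [hc p hp v]
    rcases hδ p hp with e | e <;> rw [e]
    · simp
    · constructor <;> intro k <;> linarith
  symm
  refine Finset.card_nbij' T S ?_ ?_ ?_ ?_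
  · intro v hv
    rw [Finset.mem_coe, Finset.mem_filter] at hv ⊢
    refine ⟨?_, (hL v).2 hv.2.1, (key v).2 hv.2.2⟩
    rw [mem_vec, hd, ← mem_vec]
    exact hv.1
  · intro v hv
    rw [Finset.mem_coe, Finset.mem_filter] at hv ⊢
    have h1 : S v ∈ vec n := by
      rw [mem_vec, ← hd, hTS, ← mem_vec]
      exact hv.1
    refine ⟨h1, ?_, ?_⟩
    · rw [← hL, hTS]
      exact hv.2.1
    · rw [← key, hTS]
      exact hv.2.2
  · intro v _
    exact hST v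
  · intro v _
    exact hTS v

end RotW

end Pool.Agent.NH1
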