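import Pool.Agent.NH1.RotA

/-!
# S_ROT
-/

set_option autoImplicit false

namespace Pool.Agent.NH1

open Finset Matrix
open Pool.Agent.Z700 (V3 vec pr Ln n0 ep X2)

namespace RotW

theorem hL1 : ∀ β a b c : ZMod 7, LZ (nn 1) β a (-b) (-c) ↔ LZ n0 β a b c := by decide +kernel
theorem hL2 : ∀ β a b c : ZMod 7, LZ (nn 2) β (-a) b (-c) ↔ LZ n0 β a b c := by decide +kernel
theorem hL3 : ∀ β a b c : ZMod 7, LZ (nn 3) β (-a) (-b) c ↔ LZ n0 β a b c := by decide +kernel
theorem hL4 : ∀ β a b c : ZMod 7, LZ (nn 4) β a (-c) b ↔ LZ n0 β a b c := by decide +kernel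
theorem hL5 : ∀ β a b c : ZMod 7, LZ (nn 5) β a c (-b) ↔ LZ n0 β a b c := by decide +kernel
theorem hL6 : ∀ β a b c : ZMod 7, LZ (nn 6) β (-a) (-c) (-b) ↔ LZ n0 β a b c := by decide +kernel
theorem hL7 : ∀ β a b c : ZMod 7, LZ (nn 7) β (-a) c b ↔ LZ n0 β a b c := by decide +kernel

theorem j2 {p : ℕ} (hp : p.Prime) (h2 : p ≠ 2) : jacobiSym 2 p = 1 ∨ jacobiSym 2 p = -1 := by
  have h : Int.gcd 2 p = 1 := by
    have : Nat.Coprime 2 p := (Nat.coprime_primes Nat.prime_two hp).2 (Ne.symm h2)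
    exact_mod_cast this
  exact jacobiSym.eq_one_or_neg_one h

end RotW

open RotW in
open Classical in
theorem t_ROT (h : S_PHI) (h' : S_PROT) : S_ROT := by
  intro N hN _ β hβ hβ2 γ
  have hs : ∀ v ∈ (vec (pr N : ℤ)).filter fun v => ∀ p ∈ N, ph p (rd p v) = γ p,
      (Finset.univ.filter fun i : Fin 8 => Ln (nn i) β v).card = 1 := by
    intro v hv
    exact uniq β hβ (pr N : ℤ) (by rw [hβ2]; push_cast; rfl) v (Finset.mem_filter.1 hv).1
  have h1 := split _ (fun i v => Ln (nn i) β v) hs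
  have h2 : ∀ i : Fin 8, (((vec (pr N : ℤ)).filter fun v => ∀ p ∈ N, ph p (rd p v) = γ p).filter
      fun v => Ln (nn i) β v).card = ((vec (pr N : ℤ)).filter fun v => Ln (nn i) β v ∧
        ∀ p ∈ N, ph p (rd p v) = γ p).card := by
    intro i
    rw [Finset.filter_filter]
    congr 1
    ext v
    simp only [Finset.mem_filter]
    tauto
  have e0 : ((vec (pr N : ℤ)).filter fun v => Ln (nn 0) β v ∧
      ∀ p ∈ N, ph p (rd p v) = γ p).card = R N β γ := by
    unfold R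
    congr 1
  have pz : ∀ p ∈ N, (fun _ : ℕ => (1 : ℤ)) p = 1 ∨ (fun _ : ℕ => (1 : ℤ)) p = -1 :=
    fun p _ => Or.inl rfl
  have pj : ∀ p ∈ N, jacobiSym 2 p = 1 ∨ jacobiSym 2 p = -1 :=
    fun p hp => j2 (hN p hp).1 (hN p hp).2.1
  have k1 : ∀ i : Fin 8, ∀ T S : V3 → V3, (∀ v, T (S v) = v) → (∀ v, S (T v) = v) →
      (∀ v, T v ⬝ᵥ T v = v ⬝ᵥ v) → (∀ v, Ln (nn i) β (T v) ↔ Ln n0 β v) →
      (∀ p ∈ N, ∀ v, ph p (rd p (T v)) = ph p (rd p v)) →
      ((vec (pr N : ℤ)).filter fun v => Ln (nn i) β v ∧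
        ∀ p ∈ N, ph p (rd p v) = γ p).card = R N β γ := by
    intro i T S a1 a2 a3 a4 a5
    rw [tr N (pr N : ℤ) (nn i) β γ T S a1 a2 a3 a4 (fun _ => 1) pz
      (fun p hp v => by rw [a5 p hp v, one_mul])]
    unfold R
    simp only [mul_one]
  have k2 : ∀ i : Fin 8, ∀ T S : V3 → V3, (∀ v, T (S v) = v) → (∀ v, S (T v) = v) →
      (∀ v, T v ⬝ᵥ T v = v ⬝ᵥ v) → (∀ v, Ln (nn i) β (T v) ↔ Ln n0 β v) →
      (∀ p ∈ N, ∀ v, ph p (rd p (T v)) = jacobiSym 2 p * ph p (rd p v)) →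
      ((vec (pr N : ℤ)).filter fun v => Ln (nn i) β v ∧
        ∀ p ∈ N, ph p (rd p v) = γ p).card = R N β (fun p => γ p * jacobiSym 2 p) := by
    intro i T S a1 a2 a3 a4 a5
    rw [tr N (pr N : ℤ) (nn i) β γ T S a1 a2 a3 a4 (fun p => jacobiSym 2 p) pj a5]
    unfold R
    congr 1
  have e1 := k1 1 (fun v => ![v 0, -v 1, -v 2]) (fun v => ![v 0, -v 1, -v 2])
    (fun v => by funext i; fin_cases i <;> simp) (fun v => by funext i; fin_cases i <;> simp)
    (fun v => by rw [dot3, dot3]; simp)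
    (fun v => by
      rw [ln_lz, ln_lz, ← hL1]
      simp)
    (fun p hp v => by
      rw [c_sgn h h' (hN p hp).1 (hN p hp).2.1, ← eta])
  have e2 := k1 2 (fun v => ![-v 0, v 1, -v 2]) (fun v => ![-v 0, v 1, -v 2])
    (fun v => by funext i; fin_cases i <;> simp) (fun v => by funext i; fin_cases i <;> simp)
    (fun v => by rw [dot3, dot3]; simp)
    (fun v => by
      rw [ln_lz, ln_lz, ← hL2]
      simp)
    (fun p hp v => by
      rw [c_sgn2 h h' (hN p hp).1 (hN p hp).2.1, ← eta])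
  have e3 := k1 3 (fun v => ![-v 0, -v 1, v 2]) (fun v => ![-v 0, -v 1, v 2])
    (fun v => by funext i; fin_cases i <;> simp) (fun v => by funext i; fin_cases i <;> simp)
    (fun v => by rw [dot3, dot3]; simp)
    (fun v => by
      rw [ln_lz, ln_lz, ← hL3]
      simp)
    (fun p hp v => by
      rw [c_sgn3 h h' (hN p hp).1 (hN p hp).2.1, ← eta])
  have e4 := k2 4 (fun v => ![v 0, -v 2, v 1]) (fun v => ![v 0, v 2, -v 1])
    (fun v => by funext i; fin_cases i <;> simp) (fun v => by funext i; fin_cases i <;> simp)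
    (fun v => by rw [dot3, dot3]; simp; ring)
    (fun v => by
      rw [ln_lz, ln_lz, ← hL4]
      simp)
    (fun p hp v => by
      rw [c_odd h h' (hN p hp).1 (hN p hp).2.1, ← eta])
  have e5 := k2 5 (fun v => ![v 0, v 2, -v 1]) (fun v => ![v 0, -v 2, v 1])
    (fun v => by funext i; fin_cases i <;> simp) (fun v => by funext i; fin_cases i <;> simp)
    (fun v => by rw [dot3, dot3]; simp; ring)
    (fun v => by
      rw [ln_lz, ln_lz, ← hL5]
      simp)
    (fun p hp v => by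
      have q := c_sgn h h' (hN p hp).1 (hN p hp).2.1 (v 0) (-v 2) (v 1)
      rw [neg_neg] at q
      rw [q, c_odd h h' (hN p hp).1 (hN p hp).2.1, ← eta])
  have e6 := k2 6 (fun v => ![-v 0, -v 2, -v 1]) (fun v => ![-v 0, -v 2, -v 1])
    (fun v => by funext i; fin_cases i <;> simp) (fun v => by funext i; fin_cases i <;> simp)
    (fun v => by rw [dot3, dot3]; simp; ring)
    (fun v => by
      rw [ln_lz, ln_lz, ← hL6]
      simp)
    (fun p hp v => by
      rw [c_sgn2 h h' (hN p hp).1 (hN p hp).2.1, c_odd h h' (hN p hp).1 (hN p hp).2.1, ← eta])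
  have e7 := k2 7 (fun v => ![-v 0, v 2, v 1]) (fun v => ![-v 0, v 2, v 1])
    (fun v => by funext i; fin_cases i <;> simp) (fun v => by funext i; fin_cases i <;> simp)
    (fun v => by rw [dot3, dot3]; simp; ring)
    (fun v => by
      rw [ln_lz, ln_lz, ← hL7]
      simp)
    (fun p hp v => by
      have q := c_sgn3 h h' (hN p hp).1 (hN p hp).2.1 (v 0) (-v 2) (v 1)
      rw [neg_neg] at q
      rw [q, c_odd h h' (hN p hp).1 (hN p hp).2.1, ← eta])
  have hR : Rt N γ = ((vec (pr N : ℤ)).filter fun v => ∀ p ∈ N, ph p (rd p v) = γ p).card := by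
    unfold Rt
    congr 1
  rw [hR, h1, Fin.sum_univ_eight]
  simp only [h2]
  rw [e0, e1, e2, e3, e4, e5, e6, e7]
  ring

end Pool.Agent.NH1
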