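import Pool.Agent.NH1.Sub

/-!
# Project NH1: intermediate statements, second part
-/

set_option autoImplicit false

namespace Pool.Agent.NH1

open Finset Matrix
open Pool.Agent.Z700 (V3 vec pr cp Ln n0 ep X2)

noncomputable section

/-! ### the operators on the classes of vectors -/

/-- the operators on the classes of vectors of norm `pr N`: `T D` is the action of the ambiguous
ideal of norm `pr D`, `ρ` the conjugation by `1 + i`, `ν` the map `v → - v` -/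
def OpsProp (N : Finset ℕ) (T0 : ℤ) : Prop :=
  ∃ (Ω : Type) (_ : Fintype Ω) (_ : DecidableEq Ω) (T : Finset ℕ → Ω → Ω) (ρ ν : Ω → Ω)
    (χ : Ω → ℕ → ℤ),
    (∀ ω, T ∅ ω = ω) ∧
    (∀ D ⊆ N, ∀ D' ⊆ N, ∀ ω, T D (T D' ω) = T (symmDiff D D') ω) ∧
    (∀ ω, ρ (ρ ω) = ω ∧ ν (ν ω) = ω ∧ ρ (ν ω) = ν (ρ ω)) ∧
    (∀ D ⊆ N, ∀ ω, T D (ρ ω) = ρ (T D ω) ∧ T D (ν ω) = ν (T D ω)) ∧
    (∀ D ⊆ N, ∀ p ∈ N, ∀ ω, χ (T D ω) p = gen N D p * χ ω p) ∧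
    (∀ p ∈ N, ∀ ω, χ (ρ ω) p = jacobiSym 2 p * χ ω p ∧ χ (ν ω) p = jacobiSym (-1) p * χ ω p ∧
      (χ ω p = 1 ∨ χ ω p = -1)) ∧
    (∀ γ : ℕ → ℤ, (∀ p ∈ N, γ p = 1 ∨ γ p = -1) →
      3 * (Nat.card {ω : Ω // ∀ p ∈ N, χ ω p = γ p} : ℤ) = T0) ∧
    (∀ D ⊆ N, ∀ e : ℕ, e < 2 → (pr N % 8 = 3 → e = 0) → ¬ (e = 0 ∧ (D = ∅ ∨ D = N)) →
      ∀ ω, T D (ρ^[e] ω) ≠ ω) ∧
    (∀ D ⊆ N, pr N % 8 = 5 → (∀ p ∈ N, gen N D p = jacobiSym (-1) p) →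
      Nat.card {ω : Ω // ν (T D ω) = ω} = 2 ^ N.card) ∧
    (∀ D ⊆ N, (∀ p ∈ N, gen N D p = jacobiSym (-2) p) →
      Nat.card {ω : Ω // ν (ρ (T D ω)) = ω} = 2 ^ N.card)

/-- OPS: existence of the operators -/
def S_OPS : Prop := ∀ N : Finset ℕ, Pm N → N ≠ {3} → (pr N % 8 = 3 ∨ pr N % 8 = 5) → ∀ T : ℤ,
  ((vec (pr N : ℤ)).card : ℤ) = 4 * 2 ^ N.card * T → OpsProp N T

/-- EQU: the characters are equidistributed -/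
def S_EQU : Prop := ∀ N : Finset ℕ, (∀ p ∈ N, p.Prime ∧ p ≠ 2) → ∀ γ : ℕ → ℤ,
  (∀ p ∈ N, γ p = 1 ∨ γ p = -1) → 2 ^ N.card * Rt N γ = (vec (pr N : ℤ)).card

/-! ### the flips -/

open Classical in
/-- FLIP: the vectors orthogonal to `(1,2,3)` and the flips at the primes of type `S` -/
def S_FLIP : Prop := ∀ (P : Finset ℕ) (q : ℕ), Pm (insert q P) → q ∉ P → sS P = P → sI {q} = {q} →
  ∀ β : ZMod 7, β ^ 2 = -(pr (insert q P) : ZMod 7) →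
  ∃ u : Finset ℕ → V3, (∀ T ⊆ P, u T ∈ vec (pr (insert q P) : ℤ) ∧ Ln n0 β (u T) ∧
      u T 0 + 2 * u T 1 + 3 * u T 2 = 0) ∧
    (∀ T ⊆ P, ∀ T' ⊆ P, u T = u T' → T = T') ∧
    (∀ v ∈ vec (pr (insert q P) : ℤ), Ln n0 β v → v 0 + 2 * v 1 + 3 * v 2 = 0 →
      ∃ T ⊆ P, u T = v) ∧
    (∀ T ⊆ P, ∀ p ∈ P, ph p (rd p (u T)) = ph p (rd p (u ∅)) *
      ∏ t ∈ T, (if t = p then jacobiSym (pr ((insert q P).erase p)) p else jacobiSym t p)) ∧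
    (∀ T ⊆ P, ph q (rd q (u T)) = ph q (rd q (u ∅)) *
      ∏ t ∈ T, (jacobiSym t q * (if X2 t then -1 else 1)))

end

end Pool.Agent.NH1
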