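import Pool.Agent.NH1.Sub

/-!
# Project NH1: tools for the uniqueness statements

Power series `A` with polynomially bounded coefficients (`PG A`), evaluated at `e(z/56)` (`ev A z`).
-/

set_option autoImplicit false

namespace Pool.Agent.NH1.UT

open PowerSeries Filter Topology

noncomputable section

/-! ### the exponentials -/

/-- `e(n z / 56)` -/
def eq56 (n : ℕ) (z : ℂ) : ℂ := Complex.exp (2 * Real.pi * Complex.I * n * z / 56)

theorem norm_eq56 (n : ℕ) (z : ℂ) : ‖eq56 n z‖ = Real.exp (-(Real.pi * z.im / 28)) ^ n := by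
  rw [eq56, Complex.norm_exp, ← Real.exp_nat_mul]
  congr 1
  have : (2 * Real.pi * Complex.I * n * z / 56 : ℂ) =
      (((2 * Real.pi * n / 56 : ℝ) : ℂ)) * (Complex.I * z) := by
    push_cast; ring
  rw [this, Complex.re_ofReal_mul]
  simp
  ring

theorem eq56_add (m n : ℕ) (z : ℂ) : eq56 (m + n) z = eq56 m z * eq56 n z := by
  rw [eq56, eq56, eq56, ← Complex.exp_add]
  congr 1
  push_cast
  ring

theorem rho_lt {y : ℝ} (hy : 0 < y) : Real.exp (-(Real.pi * y / 28)) < 1 := by
  rw [Real.exp_lt_one_iff]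
  have : 0 < Real.pi * y / 28 := by positivity
  linarith

/-! ### polynomial growth -/

/-- polynomially bounded coefficients -/
def PG (A : PowerSeries ℂ) : Prop :=
  ∃ C k : ℕ, ∀ n, ‖coeff n A‖ ≤ (C : ℝ) * ((n : ℝ) + 1) ^ k

theorem PG.zero : PG 0 := ⟨0, 0, fun n => by simp⟩

theorem PG.add {A B : PowerSeries ℂ} (hA : PG A) (hB : PG B) : PG (A + B) := by
  obtain ⟨C, k, h⟩ := hA
  obtain ⟨D, l, h'⟩ := hB
  refine ⟨C + D, k + l, fun n => ?_⟩
  rw [map_add]
  refine (norm_add_le _ _).trans ?_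
  have h1 : (1 : ℝ) ≤ (n : ℝ) + 1 := by
    have : (0 : ℝ) ≤ n := Nat.cast_nonneg n
    linarith
  have e1 : ((n : ℝ) + 1) ^ k ≤ ((n : ℝ) + 1) ^ (k + l) := pow_le_pow_right₀ h1 (by omega)
  have e2 : ((n : ℝ) + 1) ^ l ≤ ((n : ℝ) + 1) ^ (k + l) := pow_le_pow_right₀ h1 (by omega)
  calc ‖coeff n A‖ + ‖coeff n B‖ ≤ C * ((n : ℝ) + 1) ^ k + D * ((n : ℝ) + 1) ^ l :=
        add_le_add (h n) (h' n)
    _ ≤ C * ((n : ℝ) + 1) ^ (k + l) + D * ((n : ℝ) + 1) ^ (k + l) := by gcongr
    _ = _ := by push_cast; ring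

theorem PG.sum {ι : Type*} (s : Finset ι) {A : ι → PowerSeries ℂ} (h : ∀ i ∈ s, PG (A i)) :
    PG (∑ i ∈ s, A i) := by
  classical
  induction s using Finset.induction_on with
  | empty => simpa using PG.zero
  | insert i s hi ih =>
    rw [Finset.sum_insert hi]
    exact (h i (Finset.mem_insert_self _ _)).add
      (ih fun j hj => h j (Finset.mem_insert_of_mem hj))

theorem PG.smul (c : ℂ) {A : PowerSeries ℂ} (hA : PG A) : PG (c • A) := by
  obtain ⟨C, k, h⟩ := hA
  obtain ⟨D, hD⟩ := exists_nat_ge ‖c‖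
  refine ⟨D * C, k, fun n => ?_⟩
  rw [map_smul, smul_eq_mul, norm_mul]
  calc ‖c‖ * ‖coeff n A‖ ≤ D * (C * ((n : ℝ) + 1) ^ k) :=
        mul_le_mul hD (h n) (norm_nonneg _) (Nat.cast_nonneg _)
    _ = _ := by push_cast; ring

theorem PG.neg {A : PowerSeries ℂ} (hA : PG A) : PG (-A) := by
  have := hA.smul (-1)
  simpa using this

theorem PG.sub {A B : PowerSeries ℂ} (hA : PG A) (hB : PG B) : PG (A - B) := by
  rw [sub_eq_add_neg]; exact hA.add hB.neg

theorem PG.mul {A B : PowerSeries ℂ} (hA : PG A) (hB : PG B) : PG (A * B) := by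
  obtain ⟨C, k, h⟩ := hA
  obtain ⟨D, l, h'⟩ := hB
  refine ⟨C * D, k + l + 1, fun n => ?_⟩
  rw [coeff_mul]
  have h1 : (1 : ℝ) ≤ (n : ℝ) + 1 := by
    have : (0 : ℝ) ≤ n := Nat.cast_nonneg n
    linarith
  have key : ∀ p ∈ Finset.HasAntidiagonal.antidiagonal n, ‖coeff p.1 A * coeff p.2 B‖ ≤
      C * D * ((n : ℝ) + 1) ^ (k + l) := by
    intro p hp
    have hp' := Finset.HasAntidiagonal.mem_antidiagonal.1 hp
    rw [norm_mul]
    have hp1 : (p.1 : ℝ) + 1 ≤ (n : ℝ) + 1 := by
      have : p.1 ≤ n := by omega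
      have : (p.1 : ℝ) ≤ n := by exact_mod_cast this
      linarith
    have hp2 : (p.2 : ℝ) + 1 ≤ (n : ℝ) + 1 := by
      have : p.2 ≤ n := by omega
      have : (p.2 : ℝ) ≤ n := by exact_mod_cast this
      linarith
    calc ‖coeff p.1 A‖ * ‖coeff p.2 B‖ ≤ (C * ((p.1 : ℝ) + 1) ^ k) * (D * ((p.2 : ℝ) + 1) ^ l) :=
          mul_le_mul (h _) (h' _) (norm_nonneg _) (by positivity)
      _ ≤ (C * ((n : ℝ) + 1) ^ k) * (D * ((n : ℝ) + 1) ^ l) := by gcongr
      _ = _ := by rw [pow_add]; ring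
  calc ‖∑ p ∈ Finset.HasAntidiagonal.antidiagonal n, coeff p.1 A * coeff p.2 B‖
      ≤ ∑ p ∈ Finset.HasAntidiagonal.antidiagonal n, ‖coeff p.1 A * coeff p.2 B‖ := norm_sum_le _ _
    _ ≤ ∑ p ∈ Finset.HasAntidiagonal.antidiagonal n, C * D * ((n : ℝ) + 1) ^ (k + l) := Finset.sum_le_sum key
    _ = _ := by
        rw [Finset.sum_const, Finset.Nat.card_antidiagonal, nsmul_eq_mul]
        push_cast
        ring

theorem PG.pow {A : PowerSeries ℂ} (hA : PG A) (m : ℕ) : PG (A ^ (m + 1)) := by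
  induction m with
  | zero => simpa using hA
  | succ m ih => rw [pow_succ]; exact ih.mul hA

/-- the derivation `q d/dq` -/
def th (A : PowerSeries ℂ) : PowerSeries ℂ := PowerSeries.mk fun n => (n : ℂ) * coeff n A

theorem coeff_th (A : PowerSeries ℂ) (n : ℕ) : coeff n (th A) = n * coeff n A := coeff_mk _ _

theorem PG.th {A : PowerSeries ℂ} (hA : PG A) : PG (th A) := by
  obtain ⟨C, k, h⟩ := hA
  refine ⟨C, k + 1, fun n => ?_⟩
  rw [coeff_th, norm_mul, Complex.norm_natCast]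
  have : (n : ℝ) ≤ (n : ℝ) + 1 := by linarith
  calc (n : ℝ) * ‖coeff n A‖ ≤ ((n : ℝ) + 1) * (C * ((n : ℝ) + 1) ^ k) :=
        mul_le_mul this (h n) (norm_nonneg _) (by positivity)
    _ = _ := by ring

/-! ### evaluation -/

/-- `∑ a_n e(n z / 56)` -/
def ev (A : PowerSeries ℂ) (z : ℂ) : ℂ := ∑' n : ℕ, coeff n A * eq56 n z

theorem summable_bd (C k : ℕ) {r : ℝ} (h0 : 0 ≤ r) (h1 : r < 1) :
    Summable fun n : ℕ => (C : ℝ) * ((n : ℝ) + 1) ^ k * r ^ n := by
  have hs : Summable fun n : ℕ => ((n : ℝ) ^ k : ℝ) * r ^ n :=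
    summable_pow_mul_geometric_of_norm_lt_one k (by rwa [Real.norm_of_nonneg h0])
  rcases h0.eq_or_lt with h | h
  · refine summable_of_ne_finset_zero (s := {0}) fun n hn => ?_
    rw [← h, zero_pow (by simpa using hn), mul_zero]
  · have h2 := (summable_nat_add_iff 1).2 hs
    have h3 := (h2.mul_left ((C : ℝ) * r⁻¹))
    refine h3.congr fun n => ?_
    push_cast
    rw [pow_succ]
    field_simp

theorem PG.summable {A : PowerSeries ℂ} (hA : PG A) {z : ℂ} (hz : 0 < z.im) :
    Summable fun n : ℕ => ‖coeff n A * eq56 n z‖ := by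
  obtain ⟨C, k, h⟩ := hA
  refine Summable.of_nonneg_of_le (fun n => norm_nonneg _) (fun n => ?_)
    (summable_bd C k (Real.exp_pos _).le (rho_lt hz))
  rw [norm_mul, norm_eq56]
  exact mul_le_mul_of_nonneg_right (h n) (by positivity)

theorem ev_zero (z : ℂ) : ev 0 z = 0 := by simp [ev]

theorem ev_add {A B : PowerSeries ℂ} (hA : PG A) (hB : PG B) {z : ℂ} (hz : 0 < z.im) :
    ev (A + B) z = ev A z + ev B z := by
  rw [ev, ev, ev, ← (hA.summable hz).of_norm.tsum_add (hB.summable hz).of_norm]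
  refine tsum_congr fun n => ?_
  rw [map_add, add_mul]

theorem ev_smul (c : ℂ) (A : PowerSeries ℂ) (z : ℂ) : ev (c • A) z = c * ev A z := by
  rw [ev, ev, ← tsum_mul_left]
  refine tsum_congr fun n => ?_
  rw [map_smul, smul_eq_mul, mul_assoc]

theorem ev_neg (A : PowerSeries ℂ) (z : ℂ) : ev (-A) z = -ev A z := by
  have := ev_smul (-1) A z
  simpa using this

theorem ev_sub {A B : PowerSeries ℂ} (hA : PG A) (hB : PG B) {z : ℂ} (hz : 0 < z.im) :
    ev (A - B) z = ev A z - ev B z := by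
  rw [sub_eq_add_neg, ev_add hA hB.neg hz, ev_neg, sub_eq_add_neg]

theorem ev_sum {ι : Type*} (s : Finset ι) {A : ι → PowerSeries ℂ} (h : ∀ i ∈ s, PG (A i)) {z : ℂ}
    (hz : 0 < z.im) : ev (∑ i ∈ s, A i) z = ∑ i ∈ s, ev (A i) z := by
  classical
  induction s using Finset.induction_on with
  | empty => simpa using ev_zero z
  | insert i s hi ih =>
    rw [Finset.sum_insert hi, Finset.sum_insert hi,
      ev_add (h i (Finset.mem_insert_self _ _))
        (PG.sum s fun j hj => h j (Finset.mem_insert_of_mem hj)) hz,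
      ih fun j hj => h j (Finset.mem_insert_of_mem hj)]

theorem ev_mul {A B : PowerSeries ℂ} (hA : PG A) (hB : PG B) {z : ℂ} (hz : 0 < z.im) :
    ev (A * B) z = ev A z * ev B z := by
  rw [ev, ev, ev, tsum_mul_tsum_eq_tsum_sum_antidiagonal_of_summable_norm (hA.summable hz)
    (hB.summable hz)]
  refine tsum_congr fun n => ?_
  rw [coeff_mul, Finset.sum_mul]
  refine Finset.sum_congr rfl fun p hp => ?_
  rw [← Finset.HasAntidiagonal.mem_antidiagonal.1 hp, eq56_add]
  ring

theorem ev_pow {A : PowerSeries ℂ} (hA : PG A) {z : ℂ} (hz : 0 < z.im) (m : ℕ) :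
    ev (A ^ (m + 1)) z = ev A z ^ (m + 1) := by
  induction m with
  | zero => simp
  | succ m ih => rw [pow_succ, ev_mul (hA.pow m) hA hz, ih, ← pow_succ]

/-- the derivative of `ev A` -/
theorem hasDerivAt_ev {A : PowerSeries ℂ} (hA : PG A) {z : ℂ} (hz : 0 < z.im) :
    HasDerivAt (ev A) (2 * Real.pi * Complex.I / 56 * ev (th A) z) z := by
  obtain ⟨C, k, h⟩ := hA
  set U : Set ℂ := {w | z.im / 2 < w.im} with hU
  have hUo : IsOpen U := isOpen_lt continuous_const Complex.continuous_im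
  have hzU : z ∈ U := by
    show z.im / 2 < z.im
    linarith
  have hpos : 0 < z.im / 2 := by linarith
  have hd : ∀ (n : ℕ) (w : ℂ), HasDerivAt (fun w => coeff n A * eq56 n w)
      (2 * Real.pi * Complex.I / 56 * (coeff n (th A) * eq56 n w)) w := by
    intro n w
    have h1 : HasDerivAt (fun w : ℂ => 2 * Real.pi * Complex.I * n * w / 56)
        (2 * Real.pi * Complex.I * n * 1 / 56) w :=
      ((hasDerivAt_id w).const_mul _).div_const _
    have h2 := (h1.cexp).const_mul (coeff n A)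
    refine h2.congr_deriv ?_
    rw [coeff_th, eq56]
    ring
  have hle : ∀ (n : ℕ) (w : ℂ), w ∈ U → ‖coeff n A * eq56 n w‖ ≤
      (C : ℝ) * ((n : ℝ) + 1) ^ k * Real.exp (-(Real.pi * (z.im / 2) / 28)) ^ n := by
    intro n w hw
    rw [norm_mul, norm_eq56]
    refine mul_le_mul (h n) ?_ (by positivity) (by positivity)
    refine pow_le_pow_left₀ (Real.exp_pos _).le ?_ n
    rw [Real.exp_le_exp]
    have hw' : z.im / 2 < w.im := hw
    have hpi := Real.pi_pos
    have : Real.pi * (z.im / 2) ≤ Real.pi * w.im := mul_le_mul_of_nonneg_left hw'.le hpi.le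
    linarith
  have hs := summable_bd C k (Real.exp_pos (-(Real.pi * (z.im / 2) / 28))).le (rho_lt hpos)
  have hdiff := Complex.differentiableOn_tsum_of_summable_norm hs
    (fun n => fun w _ => (hd n w).differentiableAt.differentiableWithinAt) hUo hle
  have hsum := Complex.hasSum_deriv_of_summable_norm hs
    (fun n => fun w _ => (hd n w).differentiableAt.differentiableWithinAt) hUo hle hzU
  have hda : DifferentiableAt ℂ (ev A) z := (hdiff z hzU).differentiableAt (hUo.mem_nhds hzU)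
  have hder : deriv (ev A) z = 2 * Real.pi * Complex.I / 56 * ev (th A) z := by
    have e1 : deriv (ev A) z = ∑' n : ℕ, deriv (fun w => coeff n A * eq56 n w) z := hsum.tsum_eq.symm
    rw [e1, ev, ← tsum_mul_left]
    exact tsum_congr fun n => (hd n z).deriv
  rw [← hder]
  exact hda.hasDerivAt

/-! ### the level one statement -/

theorem ev_scale {A : PowerSeries ℂ} (hs : ∀ n, coeff n A ≠ 0 → 56 ∣ n) (z : ℂ) :
    ∑' m : ℕ, coeff (56 * m) A * Complex.exp (2 * Real.pi * Complex.I * m * z) = ev A z := by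
  have hinj : Function.Injective fun m : ℕ => 56 * m := fun a b h => by
    simpa using h
  have h1 : Function.support (fun n => coeff n A * eq56 n z) ⊆ Set.range fun m : ℕ => 56 * m := by
    intro n hn
    have hn' : coeff n A ≠ 0 := by
      intro h0
      simp [h0] at hn
    obtain ⟨m, hm⟩ := hs n hn'
    exact ⟨m, hm.symm⟩
  rw [ev, ← hinj.tsum_eq h1]
  refine tsum_congr fun m => ?_
  congr 1
  rw [eq56]
  congr 1
  push_cast
  ring

/-- the level one statement for power series -/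
theorem lv (h : S_LV1) (w : ℕ) (hw : Even w) {A : PowerSeries ℂ} (hA : PG A)
    (hs : ∀ n, coeff n A ≠ 0 → 56 ∣ n)
    (ht : ∀ z : ℂ, 0 < z.im → ev A (-1 / z) = z ^ w * ev A z)
    (h0 : ∀ m, 12 * m ≤ w → coeff (56 * m) A = 0) : A = 0 := by
  obtain ⟨C, k, hC⟩ := hA
  have key := h w (fun m => coeff (56 * m) A) hw ?_ ?_ h0
  · ext n
    rw [map_zero]
    by_contra hne
    obtain ⟨m, hm⟩ := hs n hne
    rw [hm] at hne
    exact hne (key m)
  · refine ⟨C * 56 ^ k, k, fun m => ?_⟩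
    refine (hC (56 * m)).trans ?_
    have : (((56 * m : ℕ) : ℝ) + 1) ^ k ≤ (56 * ((m : ℝ) + 1)) ^ k := by
      refine pow_le_pow_left₀ (by positivity) ?_ k
      push_cast
      linarith
    calc (C : ℝ) * (((56 * m : ℕ) : ℝ) + 1) ^ k ≤ C * (56 * ((m : ℝ) + 1)) ^ k := by gcongr
      _ = _ := by rw [mul_pow]; push_cast; ring
  · intro z hz
    rw [ev_scale hs, ev_scale hs]
    exact ht z hz

/-- uniqueness of the coefficients -/
theorem uniq (h : S_LV1) {A : PowerSeries ℂ} (hA : PG A) (h0 : coeff 0 A = 0)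
    (hz : ∀ z : ℂ, 0 < z.im → ev A z = 0) : A = 0 := by
  have hev : ∀ z : ℂ, 0 < z.im →
      ∑' n : ℕ, coeff n A * Complex.exp (2 * Real.pi * Complex.I * n * z) = 0 := by
    intro z hz'
    have h1 := hz (56 * z) (by
      rw [show (56 : ℂ) = ((56 : ℝ) : ℂ) by norm_num, Complex.im_ofReal_mul]
      positivity)
    rw [← h1, ev]
    refine tsum_congr fun n => ?_
    congr 1
    rw [eq56]
    congr 1
    ring
  have key := h 0 (fun n => coeff n A) (by norm_num) hA ?_ ?_
  · ext n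
    rw [key n, map_zero]
  · intro z hz'
    rw [hev z hz', mul_zero]
    refine hev _ ?_
    rw [neg_div, one_div, Complex.neg_im, Complex.inv_im]
    have : 0 < Complex.normSq z := Complex.normSq_pos.2 (by rintro rfl; simp at hz')
    have h2 : -z.im / Complex.normSq z = -(z.im / Complex.normSq z) := by ring
    rw [h2, neg_neg]
    positivity
  · intro n hn
    have : n = 0 := by omega
    rw [this]; exact h0

end

end Pool.Agent.NH1.UT
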