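import Pool.Agent.NH1.UTool

/-!
# Project NH1: tools for the uniqueness statements, sums over squares and Fourier transforms
-/

set_option autoImplicit false

namespace Pool.Agent.NH1.UT

open PowerSeries Filter Topology

noncomputable section

/-! ### sums over squares -/

/-- the integers with square `n` -/
def sqs (n : ℕ) : Finset ℤ := (Finset.Icc (-(n : ℤ)) n).filter fun b => b ^ 2 = (n : ℤ)

theorem abs_le_sq (b : ℤ) : |b| ≤ b ^ 2 := by
  rcases eq_or_ne b 0 with h | h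
  · simp [h]
  · have h1 : 1 ≤ |b| := Int.one_le_abs h
    rw [← sq_abs]
    nlinarith

theorem mem_sqs {n : ℕ} {b : ℤ} : b ∈ sqs n ↔ b ^ 2 = (n : ℤ) := by
  unfold sqs
  rw [Finset.mem_filter, Finset.mem_Icc]
  refine ⟨fun h => h.2, fun h => ⟨?_, h⟩⟩
  have h1 := abs_le_sq b
  rw [h] at h1
  exact abs_le.1 h1

theorem natAbs_sq' (b : ℤ) : ((b.natAbs ^ 2 : ℕ) : ℤ) = b ^ 2 := by
  push_cast
  rw [sq_abs]

theorem mem_sqs' {n : ℕ} {b : ℤ} : b ∈ sqs n ↔ b.natAbs ^ 2 = n := by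
  rw [mem_sqs, ← natAbs_sq']
  norm_cast

/-- the power series `∑ g(b) X^(b²)` -/
def sq (g : ℤ → ℂ) : PowerSeries ℂ := PowerSeries.mk fun n => ∑ b ∈ sqs n, g b

theorem coeff_sq (g : ℤ → ℂ) (n : ℕ) : coeff n (sq g) = ∑ b ∈ sqs n, g b := coeff_mk _ _

/-- polynomial growth of functions on the integers -/
def PGZ (g : ℤ → ℂ) : Prop := ∃ C k : ℕ, ∀ b, ‖g b‖ ≤ (C : ℝ) * ((b.natAbs : ℝ) + 1) ^ k

theorem natAbs_le_of_mem {n : ℕ} {b : ℤ} (h : b ∈ sqs n) : b.natAbs ≤ n := by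
  have h1 := mem_sqs'.1 h
  have h2 : b.natAbs ≤ b.natAbs ^ 2 := Nat.le_self_pow (by norm_num) _
  omega

theorem PGZ.pg {g : ℤ → ℂ} (hg : PGZ g) : PG (sq g) := by
  obtain ⟨C, k, h⟩ := hg
  refine ⟨2 * C, k + 1, fun n => ?_⟩
  rw [coeff_sq]
  have hcard : (sqs n).card ≤ 2 * n + 1 := by
    refine (Finset.card_filter_le _ _).trans ?_
    rw [Int.card_Icc]
    omega
  have key : ∀ b ∈ sqs n, ‖g b‖ ≤ (C : ℝ) * ((n : ℝ) + 1) ^ k := by
    intro b hb
    refine (h b).trans ?_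
    have : (b.natAbs : ℝ) ≤ n := by exact_mod_cast natAbs_le_of_mem hb
    gcongr
  calc ‖∑ b ∈ sqs n, g b‖ ≤ ∑ b ∈ sqs n, ‖g b‖ := norm_sum_le _ _
    _ ≤ ∑ b ∈ sqs n, (C : ℝ) * ((n : ℝ) + 1) ^ k := Finset.sum_le_sum key
    _ = ((sqs n).card : ℝ) * (C * ((n : ℝ) + 1) ^ k) := by
        rw [Finset.sum_const, nsmul_eq_mul]
    _ ≤ (2 * n + 1 : ℝ) * (C * ((n : ℝ) + 1) ^ k) := by
        have : ((sqs n).card : ℝ) ≤ 2 * n + 1 := by exact_mod_cast hcard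
        gcongr
    _ ≤ (2 * ((n : ℝ) + 1)) * (C * ((n : ℝ) + 1) ^ k) := by
        gcongr
        linarith
    _ = _ := by push_cast; ring

theorem PGZ.mul_sq {g : ℤ → ℂ} (hg : PGZ g) : PGZ fun b => (b : ℂ) ^ 2 * g b := by
  obtain ⟨C, k, h⟩ := hg
  refine ⟨C, k + 2, fun b => ?_⟩
  have hb : ‖(b : ℂ) ^ 2‖ = (b.natAbs : ℝ) ^ 2 := by
    rw [norm_pow, Complex.norm_intCast, Nat.cast_natAbs, Int.cast_abs]
  rw [norm_mul, hb]
  have h1 : (b.natAbs : ℝ) ^ 2 ≤ ((b.natAbs : ℝ) + 1) ^ 2 := by gcongr; linarith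
  calc (b.natAbs : ℝ) ^ 2 * ‖g b‖ ≤ ((b.natAbs : ℝ) + 1) ^ 2 * (C * ((b.natAbs : ℝ) + 1) ^ k) :=
        mul_le_mul h1 (h b) (norm_nonneg _) (by positivity)
    _ = _ := by ring

theorem PGZ.of_bdd {g : ℤ → ℂ} (C : ℕ) (h : ∀ b, ‖g b‖ ≤ C) : PGZ g :=
  ⟨C, 0, fun b => by simpa using h b⟩

theorem th_sq (g : ℤ → ℂ) : th (sq g) = sq fun b => (b : ℂ) ^ 2 * g b := by
  ext n
  rw [coeff_th, coeff_sq, coeff_sq, Finset.mul_sum]
  refine Finset.sum_congr rfl fun b hb => ?_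
  have h := mem_sqs.1 hb
  have h2 : (b : ℂ) ^ 2 = (n : ℂ) := by exact_mod_cast h
  rw [h2]

theorem sq_sum {ι : Type*} (s : Finset ι) (c : ι → ℂ) (g : ι → ℤ → ℂ) :
    sq (fun b => ∑ i ∈ s, c i * g i b) = ∑ i ∈ s, c i • sq (g i) := by
  ext n
  rw [coeff_sq, map_sum, Finset.sum_comm]
  refine Finset.sum_congr rfl fun i _ => ?_
  rw [map_smul, coeff_sq, smul_eq_mul, Finset.mul_sum]

theorem ev_sq {g : ℤ → ℂ} (hg : PGZ g) {z : ℂ} (hz : 0 < z.im) :
    ev (sq g) z = ∑' b : ℤ, g b * Complex.exp (Real.pi * Complex.I * (b : ℂ) ^ 2 * z / 28) := by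
  obtain ⟨C, k, h⟩ := hg
  have hexp : ∀ b : ℤ, Complex.exp (Real.pi * Complex.I * (b : ℂ) ^ 2 * z / 28) =
      eq56 (b.natAbs ^ 2) z := by
    intro b
    rw [eq56]
    congr 1
    have : (((b.natAbs ^ 2 : ℕ)) : ℂ) = (b : ℂ) ^ 2 := by
      have h1 := natAbs_sq' b
      have h2 : (((b.natAbs ^ 2 : ℕ) : ℤ) : ℂ) = ((b ^ 2 : ℤ) : ℂ) := by rw [h1]
      rw [Int.cast_natCast] at h2
      rw [h2]
      push_cast
      rfl
    rw [this]
    ring
  set ρ := Real.exp (-(Real.pi * z.im / 28)) with hρ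
  have hρ0 : 0 ≤ ρ := (Real.exp_pos _).le
  have hρ1 : ρ < 1 := rho_lt hz
  have hle : ∀ b : ℤ, ‖g b * eq56 (b.natAbs ^ 2) z‖ ≤
      (C : ℝ) * ((b.natAbs : ℝ) + 1) ^ k * ρ ^ b.natAbs := by
    intro b
    rw [norm_mul, norm_eq56]
    refine mul_le_mul (h b) ?_ (by positivity) (by positivity)
    exact pow_le_pow_of_le_one hρ0 hρ1.le (Nat.le_self_pow (by norm_num) _)
  have hs0 := summable_bd C k hρ0 hρ1
  have hs : Summable fun b : ℤ => g b * eq56 (b.natAbs ^ 2) z := by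
    refine Summable.of_norm_bounded (g := fun b : ℤ =>
      (C : ℝ) * ((b.natAbs : ℝ) + 1) ^ k * ρ ^ b.natAbs) ?_ hle
    refine Summable.of_nat_of_neg ?_ ?_
    · simpa using hs0
    · simpa using hs0
  have h3 : ∑' b : ℤ, g b * eq56 (b.natAbs ^ 2) z =
      ∑' n : ℕ, ∑' b : (fun b : ℤ => b.natAbs ^ 2) ⁻¹' {n}, g b * eq56 ((b : ℤ).natAbs ^ 2) z :=
    ((hs.hasSum.tsum_fiberwise (fun b : ℤ => b.natAbs ^ 2)).tsum_eq).symm
  simp only [hexp]
  rw [h3, ev]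
  refine tsum_congr fun n => ?_
  have hset : ((fun b : ℤ => b.natAbs ^ 2) ⁻¹' {n}) = ((sqs n : Finset ℤ) : Set ℤ) := by
    ext b
    rw [Finset.mem_coe, mem_sqs']
    rfl
  rw [hset, Finset.tsum_subtype' (sqs n) (fun b : ℤ => g b * eq56 (b.natAbs ^ 2) z), coeff_sq,
    Finset.sum_mul]
  refine Finset.sum_congr rfl fun b hb => ?_
  rw [mem_sqs'.1 hb]

/-- the integers with square at most `M` -/
def sqle (M : ℕ) : Finset ℤ := (Finset.Icc (-(M : ℤ)) M).filter fun b => b ^ 2 ≤ (M : ℤ)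

theorem mem_sqle {M : ℕ} {b : ℤ} : b ∈ sqle M ↔ b.natAbs ^ 2 ≤ M := by
  unfold sqle
  rw [Finset.mem_filter, Finset.mem_Icc, ← natAbs_sq']
  have h1 : b.natAbs ≤ b.natAbs ^ 2 := Nat.le_self_pow (by norm_num) _
  constructor
  · rintro ⟨-, h⟩
    exact_mod_cast h
  · intro h
    refine ⟨?_, by exact_mod_cast h⟩
    omega

/-- the coefficients of a product -/
theorem coeff_mul_sq (A : PowerSeries ℂ) (g : ℤ → ℂ) (M : ℕ) :
    coeff M (A * sq g) = ∑ b ∈ sqle M, coeff (M - b.natAbs ^ 2) A * g b := by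
  rw [coeff_mul]
  have hmap : ∀ b ∈ sqle M, (M - b.natAbs ^ 2, b.natAbs ^ 2) ∈
      Finset.HasAntidiagonal.antidiagonal M := by
    intro b hb
    rw [Finset.HasAntidiagonal.mem_antidiagonal]
    have := mem_sqle.1 hb
    show M - b.natAbs ^ 2 + b.natAbs ^ 2 = M
    omega
  rw [← Finset.sum_fiberwise_of_maps_to hmap]
  refine Finset.sum_congr rfl fun p hp => ?_
  rw [Finset.HasAntidiagonal.mem_antidiagonal] at hp
  rw [coeff_sq, Finset.mul_sum]
  have hset : sqs p.2 = (sqle M).filter fun b => (M - b.natAbs ^ 2, b.natAbs ^ 2) = p := by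
    ext b
    rw [mem_sqs', Finset.mem_filter, mem_sqle]
    constructor
    · intro h
      refine ⟨by omega, ?_⟩
      rw [h]
      ext
      · show M - p.2 = p.1
        omega
      · rfl
    · rintro ⟨-, h⟩
      exact congrArg Prod.snd h
  rw [hset]
  refine Finset.sum_congr rfl fun b hb => ?_
  have := (Finset.mem_filter.1 hb).2
  have h1 : M - b.natAbs ^ 2 = p.1 := congrArg Prod.fst this
  rw [h1]

/-! ### the additive character modulo seven -/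

theorem z7_eq (x : ZMod 7) : z7 x = ZMod.stdAddChar (N := 7) x := by
  rw [z7, ZMod.stdAddChar_apply, ZMod.toCircle_apply]
  norm_num

theorem z7_int (j : ℤ) : z7 (j : ZMod 7) = Complex.exp (2 * Real.pi * Complex.I * j / 7) := by
  rw [z7_eq, ZMod.stdAddChar_coe]
  norm_num

theorem z7_add (x y : ZMod 7) : z7 (x + y) = z7 x * z7 y := by
  rw [z7_eq, z7_eq, z7_eq, AddChar.map_add_eq_mul]

theorem z7_zero : z7 0 = 1 := by rw [z7_eq, AddChar.map_zero_eq_one]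

theorem z7_sum (x : ZMod 7) : ∑ β : ZMod 7, z7 (2 * β * x) = if x = 0 then 7 else 0 := by
  have h := AddChar.sum_mulShift (R := ZMod 7) (2 * x) (ZMod.isPrimitive_stdAddChar 7)
  have h2 : ∀ x : ZMod 7, 2 * x = 0 ↔ x = 0 := by decide
  simp only [h2, ZMod.card] at h
  have h3 : (if x = 0 then (7 : ℂ) else 0) = (((if x = 0 then 7 else 0 : ℕ)) : ℂ) := by
    split_ifs <;> simp
  rw [h3, ← h]
  refine Finset.sum_congr rfl fun β _ => ?_
  rw [z7_eq]
  congr 1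
  ring

/-! ### powers -/

theorem re_pos {z : ℂ} (hz : 0 < z.im) : 0 < (-Complex.I * z).re := by
  simpa using hz

theorem ne_zero_of_im {z : ℂ} (hz : 0 < z.im) : z ≠ 0 := by
  rintro rfl
  simp at hz

theorem Iz_ne {z : ℂ} (hz : 0 < z.im) : -Complex.I * z ≠ 0 := by
  intro h
  have := re_pos hz
  rw [h] at this
  simp at this

theorem im_neg_inv {z : ℂ} (hz : 0 < z.im) : 0 < (-1 / z).im := by
  rw [neg_div, one_div, Complex.neg_im, Complex.inv_im]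
  have : 0 < Complex.normSq z := Complex.normSq_pos.2 (ne_zero_of_im hz)
  have h2 : -z.im / Complex.normSq z = -(z.im / Complex.normSq z) := by ring
  rw [h2, neg_neg]
  positivity

theorem cpw_inv {z : ℂ} (hz : 0 < z.im) (s : ℂ) :
    (-Complex.I * (-1 / z)) ^ s = ((-Complex.I * z) ^ s)⁻¹ := by
  have h0 := ne_zero_of_im hz
  have e : -Complex.I * (-1 / z) = (-Complex.I * z)⁻¹ := by
    rw [eq_comm, inv_eq_iff_eq_inv, eq_comm]
    have hI := Complex.I_ne_zero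
    field_simp
    rw [Complex.I_sq]
    ring
  rw [e, Complex.inv_cpow]
  intro h
  have h1 := re_pos hz
  have h2 := (Complex.abs_arg_lt_pi_div_two_iff (z := -Complex.I * z)).2 (Or.inl h1)
  rw [h] at h2
  have h3 := Real.pi_pos
  rw [abs_of_pos h3] at h2
  linarith

theorem cpw_ne {z : ℂ} (hz : 0 < z.im) (s : ℂ) : (-Complex.I * z) ^ s ≠ 0 := by
  rw [Ne, Complex.cpow_eq_zero_iff]
  exact fun h => Iz_ne hz h.1

theorem cpw_mul {z : ℂ} (hz : 0 < z.im) :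
    (-Complex.I * z) ^ ((3 : ℂ) / 2) * (-Complex.I * z) ^ ((1 : ℂ) / 2) = -z ^ 2 := by
  rw [← Complex.cpow_add _ _ (Iz_ne hz)]
  have : ((3 : ℂ) / 2 + 1 / 2) = ((2 : ℕ) : ℂ) := by norm_num
  rw [this, Complex.cpow_natCast, mul_pow, neg_sq, Complex.I_sq]
  ring

theorem cpw_div {z : ℂ} (hz : 0 < z.im) (s : ℂ) {x : ℝ} (hx : 0 < x) :
    (-Complex.I * z / x) ^ s = ((x⁻¹ : ℝ) : ℂ) ^ s * (-Complex.I * z) ^ s := by
  have hx' : 0 < x⁻¹ := inv_pos.2 hx
  have e : -Complex.I * z / x = ((x⁻¹ : ℝ) : ℂ) * (-Complex.I * z) := by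
    push_cast
    rw [div_eq_inv_mul]
  have h1 : ((x⁻¹ : ℝ) : ℂ) ≠ 0 := by exact_mod_cast hx'.ne'
  rw [e, Complex.cpow_def_of_ne_zero (mul_ne_zero h1 (Iz_ne hz)), Complex.cpow_def_of_ne_zero h1,
    Complex.cpow_def_of_ne_zero (Iz_ne hz), Complex.log_ofReal_mul hx' (Iz_ne hz), add_mul,
    Complex.exp_add, Complex.ofReal_log hx'.le]

theorem hasDerivAt_cpw {z : ℂ} (hz : 0 < z.im) :
    HasDerivAt (fun z : ℂ => (-Complex.I * z) ^ ((1 : ℂ) / 2))
      (1 / (2 * z) * (-Complex.I * z) ^ ((1 : ℂ) / 2)) z := by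
  have h1 : HasDerivAt (fun z : ℂ => -Complex.I * z) (-Complex.I) z := by
    simpa using (hasDerivAt_id z).const_mul (-Complex.I)
  have h2 := h1.cpow_const (c := (1 : ℂ) / 2) (Complex.mem_slitPlane_iff.2 (Or.inl (re_pos hz)))
  refine h2.congr_deriv ?_
  rw [Complex.cpow_sub _ _ (Iz_ne hz), Complex.cpow_one]
  have h0 := ne_zero_of_im hz
  have hI := Complex.I_ne_zero
  field_simp

/-! ### transformations -/

/-- `G_β(-1/z) = μ (-iz)^{1/2} ∑ z7(2ββ') H_β'(z)` -/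
def TrH (G H : ZMod 7 → ℂ → ℂ) (μ : ℂ) : Prop := ∀ (β : ZMod 7) (z : ℂ), 0 < z.im →
  G β (-1 / z) = μ * (-Complex.I * z) ^ ((1 : ℂ) / 2) * ∑ β' : ZMod 7, z7 (2 * β * β') * H β' z

/-- differentiating the transformation -/
theorem TrH.deriv {G H G' H' : ZMod 7 → ℂ → ℂ} {μ : ℂ} (h : TrH G H μ)
    (hG : ∀ β z, 0 < z.im → HasDerivAt (G β) (G' β z) z)
    (hH : ∀ β z, 0 < z.im → HasDerivAt (H β) (H' β z) z) :
    TrH G' (fun β z => z ^ 2 * H' β z + z / 2 * H β z) μ := by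
  intro β z hz
  have h0 := ne_zero_of_im hz
  have hinv : HasDerivAt (fun w : ℂ => -1 / w) (1 / z ^ 2) z := by
    have := (hasDerivAt_inv h0).const_mul (-1)
    simp only [← div_eq_mul_inv] at this
    refine this.congr_deriv ?_
    field_simp
  have hL : HasDerivAt (fun w => G β (-1 / w)) (G' β (-1 / z) * (1 / z ^ 2)) z :=
    (hG β (-1 / z) (im_neg_inv hz)).comp z hinv
  have hR : HasDerivAt (fun w => μ * (-Complex.I * w) ^ ((1 : ℂ) / 2) *
      ∑ β' : ZMod 7, z7 (2 * β * β') * H β' w)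
      (μ * (1 / (2 * z) * (-Complex.I * z) ^ ((1 : ℂ) / 2)) *
        (∑ β' : ZMod 7, z7 (2 * β * β') * H β' z) +
        μ * (-Complex.I * z) ^ ((1 : ℂ) / 2) * ∑ β' : ZMod 7, z7 (2 * β * β') * H' β' z) z := by
    refine ((hasDerivAt_cpw hz).const_mul μ).mul ?_
    exact HasDerivAt.fun_sum fun β' _ => (hH β' z hz).const_mul _
  have hev : (fun w => G β (-1 / w)) =ᶠ[𝓝 z] fun w => μ * (-Complex.I * w) ^ ((1 : ℂ) / 2) *
      ∑ β' : ZMod 7, z7 (2 * β * β') * H β' w := by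
    have : {w : ℂ | 0 < w.im} ∈ 𝓝 z :=
      (isOpen_lt continuous_const Complex.continuous_im).mem_nhds hz
    filter_upwards [this] with w hw
    exact h β w hw
  have hR' := hR.congr_of_eventuallyEq hev
  have e := hL.unique hR'
  have e2 : G' β (-1 / z) = z ^ 2 * (G' β (-1 / z) * (1 / z ^ 2)) := by
    field_simp
  rw [e2, e, Finset.mul_sum, Finset.mul_sum, Finset.mul_sum, ← Finset.sum_add_distrib,
    Finset.mul_sum]
  refine Finset.sum_congr rfl fun β' _ => ?_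
  field_simp
  ring

/-- `F_β(-1/z) = κ (-iz)^{3/2} ∑ z7(-2ββ') F_β'(z)` -/
def TrF (F : ZMod 7 → ℂ → ℂ) (κ : ℂ) : Prop := ∀ (β : ZMod 7) (z : ℂ), 0 < z.im →
  F β (-1 / z) = κ * (-Complex.I * z) ^ ((3 : ℂ) / 2) * ∑ β' : ZMod 7, z7 (-(2 * β * β')) * F β' z

theorem sum_swap (F H : ZMod 7 → ℂ) :
    ∑ β : ZMod 7, (∑ β' : ZMod 7, z7 (-(2 * β * β')) * F β') *
      (∑ β' : ZMod 7, z7 (2 * β * β') * H β') = 7 * ∑ β : ZMod 7, F β * H β := by
  have e : ∀ β : ZMod 7, (∑ β' : ZMod 7, z7 (-(2 * β * β')) * F β') *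
      (∑ β' : ZMod 7, z7 (2 * β * β') * H β') =
      ∑ β' : ZMod 7, ∑ β'' : ZMod 7, F β' * H β'' * z7 (2 * β * (β'' - β')) := by
    intro β
    rw [Finset.sum_mul_sum]
    refine Finset.sum_congr rfl fun β' _ => Finset.sum_congr rfl fun β'' _ => ?_
    have : 2 * β * (β'' - β') = -(2 * β * β') + 2 * β * β'' := by ring
    rw [this, z7_add]
    ring
  calc ∑ β : ZMod 7, (∑ β' : ZMod 7, z7 (-(2 * β * β')) * F β') *
      (∑ β' : ZMod 7, z7 (2 * β * β') * H β')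
      = ∑ β : ZMod 7, ∑ β' : ZMod 7, ∑ β'' : ZMod 7, F β' * H β'' * z7 (2 * β * (β'' - β')) :=
        Finset.sum_congr rfl fun β _ => e β
    _ = ∑ β' : ZMod 7, ∑ β : ZMod 7, ∑ β'' : ZMod 7, F β' * H β'' * z7 (2 * β * (β'' - β')) :=
        Finset.sum_comm
    _ = ∑ β' : ZMod 7, ∑ β'' : ZMod 7, ∑ β : ZMod 7, F β' * H β'' * z7 (2 * β * (β'' - β')) :=
        Finset.sum_congr rfl fun β' _ => Finset.sum_comm
    _ = ∑ β' : ZMod 7, ∑ β'' : ZMod 7, if β'' = β' then F β' * H β'' * 7 else 0 := by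
        refine Finset.sum_congr rfl fun β' _ => Finset.sum_congr rfl fun β'' _ => ?_
        rw [← Finset.mul_sum, z7_sum]
        simp only [sub_eq_zero, mul_ite, mul_zero]
    _ = ∑ β' : ZMod 7, F β' * H β' * 7 := by
        refine Finset.sum_congr rfl fun β' _ => ?_
        rw [Finset.sum_ite_eq']
        simp
    _ = 7 * ∑ β : ZMod 7, F β * H β := by
        rw [Finset.mul_sum]
        exact Finset.sum_congr rfl fun β' _ => by ring

/-- pairing the transformations -/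
theorem pair {F G H : ZMod 7 → ℂ → ℂ} {κ μ : ℂ} (hF : TrF F κ) (hG : TrH G H μ) {z : ℂ}
    (hz : 0 < z.im) : ∑ β : ZMod 7, F β (-1 / z) * G β (-1 / z) =
      -(7 * κ * μ) * z ^ 2 * ∑ β : ZMod 7, F β z * H β z := by
  have e : ∀ β : ZMod 7, F β (-1 / z) * G β (-1 / z) = κ * μ * (-z ^ 2) *
      ((∑ β' : ZMod 7, z7 (-(2 * β * β')) * F β' z) *
      (∑ β' : ZMod 7, z7 (2 * β * β') * H β' z)) := by
    intro β
    rw [hF β z hz, hG β z hz, ← cpw_mul hz]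
    ring
  simp only [e]
  rw [← Finset.mul_sum, sum_swap]
  ring

/-- the constant -/
theorem TrF.kappa {F : ZMod 7 → ℂ → ℂ} {κ : ℂ} (hF : TrF F κ) (β : ZMod 7) {z : ℂ}
    (hz : 0 < z.im) : F β z = 7 * κ ^ 2 * F (-β) z := by
  have h0 := ne_zero_of_im hz
  have hzz : -1 / (-1 / z) = z := by
    field_simp
  have h1 := hF β (-1 / z) (im_neg_inv hz)
  rw [hzz, cpw_inv hz] at h1
  have h2 : ∀ β' : ZMod 7, z7 (-(2 * β * β')) * F β' (-1 / z) =
      κ * (-Complex.I * z) ^ ((3 : ℂ) / 2) *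
      ∑ β'' : ZMod 7, F β'' z * z7 (2 * β' * (-β - β'')) := by
    intro β'
    rw [hF β' z hz, Finset.mul_sum, Finset.mul_sum, Finset.mul_sum]
    refine Finset.sum_congr rfl fun β'' _ => ?_
    have : 2 * β' * (-β - β'') = -(2 * β * β') + -(2 * β' * β'') := by ring
    rw [this, z7_add]
    ring
  simp only [h2] at h1
  rw [← Finset.mul_sum, Finset.sum_comm] at h1
  have h3 : ∀ β'' : ZMod 7, ∑ β' : ZMod 7, F β'' z * z7 (2 * β' * (-β - β'')) =
      if β'' = -β then F β'' z * 7 else 0 := by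
    intro β''
    rw [← Finset.mul_sum, z7_sum]
    have : (-β - β'' = 0) ↔ (β'' = -β) := by
      rw [sub_eq_zero]; exact eq_comm
    simp only [this, mul_ite, mul_zero]
  simp only [h3] at h1
  rw [Finset.sum_ite_eq'] at h1
  simp only [Finset.mem_univ, if_true] at h1
  rw [h1]
  have h4 := cpw_ne hz ((3 : ℂ) / 2)
  field_simp

end

end Pool.Agent.NH1.UT
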