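import Pool.Agent.NH1.Sub

/-!
# Project NH1, V4: the finite Fourier transform of the product of the characters
-/

set_option autoImplicit false

namespace Pool.Agent.NH1.VF

open Finset Matrix
open Pool.Agent.Z700 (V3 vec pr)

noncomputable section

/-- `e(k/N)` -/
def e (N : ℕ) (k : ℤ) : ℂ := Complex.exp (2 * Real.pi * Complex.I * (k : ℂ) / (N : ℂ))

theorem e_add (N : ℕ) (k l : ℤ) : e N (k + l) = e N k * e N l := by
  unfold e
  rw [← Complex.exp_add]
  congr 1
  push_cast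
  ring

theorem e_period {N : ℕ} (hN : N ≠ 0) {k l : ℤ} (h : (N : ℤ) ∣ k - l) : e N k = e N l := by
  obtain ⟨c, hc⟩ := h
  have h1 : k = l + N * c := by omega
  rw [h1, e_add]
  have h2 : e N (N * c) = 1 := by
    unfold e
    have hN' : (N : ℂ) ≠ 0 := by exact_mod_cast hN
    have : 2 * Real.pi * Complex.I * ((N * c : ℤ) : ℂ) / (N : ℂ) =
        c * (2 * Real.pi * Complex.I) := by
      push_cast
      field_simp
    rw [this, Complex.exp_int_mul_two_pi_mul_I]
  rw [h2, mul_one]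

theorem e_scale {A B : ℕ} (hA : A ≠ 0) (k : ℤ) : e (A * B) (A * k) = e B k := by
  unfold e
  congr 1
  have hA' : (A : ℂ) ≠ 0 := by exact_mod_cast hA
  push_cast
  by_cases hB : (B : ℂ) = 0
  · rw [hB]; simp
  · field_simp

theorem rd_congr {p : ℕ} {v w : V3} (h : ∀ i, (p : ℤ) ∣ v i - w i) : rd p v = rd p w := by
  funext i
  unfold rd
  have := (ZMod.intCast_zmod_eq_zero_iff_dvd (v i - w i) p)
  have h2 := (ZMod.intCast_zmod_eq_zero_iff_dvd (v i - w i) p).2 (h i)
  push_cast at h2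
  exact sub_eq_zero.1 h2

theorem dvd_pr {P : Finset ℕ} {p : ℕ} (h : p ∈ P) : p ∣ pr P := Finset.dvd_prod_of_mem _ h

theorem Ph_congr {P : Finset ℕ} {v w : V3} (h : ∀ i, ((pr P : ℕ) : ℤ) ∣ v i - w i) :
    Ph P v = Ph P w := by
  unfold Ph
  refine Finset.prod_congr rfl fun p hp => ?_
  rw [rd_congr fun i => (Int.natCast_dvd_natCast.2 (dvd_pr hp)).trans (h i)]

theorem rd_smul (p : ℕ) (c : ℤ) (v : V3) : rd p (fun i => c * v i) = (c : ZMod p) • rd p v := by
  funext i
  simp [rd]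

theorem Ph_smul (h1 : S_PHI) {P : Finset ℕ} (hP : ∀ p ∈ P, p.Prime ∧ p ≠ 2) (c : ℤ)
    (hc : ∀ p ∈ P, (c : ZMod p) ≠ 0) (v : V3) :
    Ph P (fun i => c * v i) = (∏ p ∈ P, lz p (c : ZMod p)) * Ph P v := by
  unfold Ph
  rw [← Finset.prod_mul_distrib]
  refine Finset.prod_congr rfl fun p hp => ?_
  rw [rd_smul, (ph_spec h1 (hP p hp).1 (hP p hp).2).smul _ _ (hc p hp)]

theorem crt3 (A B : ℕ) [NeZero A] [NeZero B] [NeZero (A * B)] (h : Nat.Coprime A B)
    (F : (Fin 3 → ZMod (A * B)) → ℂ) :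
    ∑ a, F a = ∑ x : Fin 3 → ZMod A, ∑ y : Fin 3 → ZMod B,
      F (fun i => ((B * (x i).val + A * (y i).val : ℕ) : ZMod (A * B))) := by
  rw [← Finset.sum_product', Finset.univ_product_univ]
  symm
  let g : (Fin 3 → ZMod A) × (Fin 3 → ZMod B) → (Fin 3 → ZMod (A * B)) := fun q i =>
    ((B * (q.1 i).val + A * (q.2 i).val : ℕ) : ZMod (A * B))
  have hg : Function.Bijective g := by
    rw [Fintype.bijective_iff_injective_and_card]
    constructor
    · intro q q' hq
      have hA0 : (A : ZMod A) = 0 := ZMod.natCast_self A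
      have hB0 : (B : ZMod B) = 0 := ZMod.natCast_self B
      have hBu : IsUnit (B : ZMod A) := (ZMod.isUnit_iff_coprime B A).2 h.symm
      have hAu : IsUnit (A : ZMod B) := (ZMod.isUnit_iff_coprime A B).2 h
      have key : ∀ i, q.1 i = q'.1 i ∧ q.2 i = q'.2 i := by
        intro i
        have h0 := congrFun hq i
        simp only [g] at h0
        constructor
        · have h1 := congrArg (ZMod.castHom (dvd_mul_right A B) (ZMod A)) h0
          rw [map_natCast, map_natCast] at h1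
          push_cast at h1
          rw [hA0] at h1
          simp only [ZMod.natCast_val, ZMod.cast_id', id_eq, zero_mul, add_zero] at h1
          exact hBu.mul_left_cancel h1
        · have h1 := congrArg (ZMod.castHom (dvd_mul_left B A) (ZMod B)) h0
          rw [map_natCast, map_natCast] at h1
          push_cast at h1
          rw [hB0] at h1
          simp only [ZMod.natCast_val, ZMod.cast_id', id_eq, zero_mul, zero_add] at h1
          exact hAu.mul_left_cancel h1
      exact Prod.ext (funext fun i => (key i).1) (funext fun i => (key i).2)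
    · simp only [Fintype.card_prod, Fintype.card_pi, ZMod.card, Finset.prod_const,
        Finset.card_univ, Fintype.card_fin]
      ring
  exact hg.sum_comp F

/-- the sum in terms of integers -/
theorem crt3' (A B : ℕ) [NeZero A] [NeZero B] [NeZero (A * B)] (h : Nat.Coprime A B)
    (G : V3 → ℂ) (hG : ∀ v w : V3, (∀ i, ((A * B : ℕ) : ℤ) ∣ v i - w i) → G v = G w) :
    ∑ a : Fin 3 → ZMod (A * B), G (fun i => ((a i).val : ℤ)) =
      ∑ x : Fin 3 → ZMod A, ∑ y : Fin 3 → ZMod B,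
        G (fun i => (B : ℤ) * ((x i).val : ℤ) + (A : ℤ) * ((y i).val : ℤ)) := by
  rw [crt3 A B h]
  refine Finset.sum_congr rfl fun x _ => Finset.sum_congr rfl fun y _ => ?_
  refine hG _ _ fun i => ?_
  rw [ZMod.val_natCast]
  have := Int.emod_add_mul_ediv ((B * (x i).val + A * (y i).val : ℕ) : ℤ) ((A * B : ℕ) : ℤ)
  refine ⟨-(((B * (x i).val + A * (y i).val : ℕ) : ℤ) / ((A * B : ℕ) : ℤ)), ?_⟩
  push_cast at this ⊢
  linarith

theorem ft (h1 : S_PHI) (h2 : S_FT) : ∀ P : Finset ℕ, (∀ p ∈ P, p.Prime ∧ p ≠ 2) →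
    ∀ (N : ℕ) [NeZero N], N = pr P → ∃ κ : ℂ, ∀ w : V3,
      ∑ a : Fin 3 → ZMod N, (Ph P (fun i => ((a i).val : ℤ)) : ℂ) *
        e N (∑ i, ((a i).val : ℤ) * w i) = κ * (Ph P w : ℂ) := by
  intro P
  induction P using Finset.induction_on with
  | empty =>
    intro _ N _ hN
    have hN1 : N = 1 := by rw [hN]; rfl
    subst hN1
    refine ⟨1, fun w => ?_⟩
    have hu : (Finset.univ : Finset (Fin 3 → ZMod 1)) = {0} := by
      ext a
      simp only [Finset.mem_univ, Finset.mem_singleton, true_iff]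
      exact Subsingleton.elim _ _
    rw [hu, Finset.sum_singleton]
    simp [Ph, e]
  | insert p P hp ih =>
    intro hP N _ hN
    have hpp : p.Prime := (hP p (Finset.mem_insert_self p P)).1
    have hp2 : p ≠ 2 := (hP p (Finset.mem_insert_self p P)).2
    have hP' : ∀ q ∈ P, q.Prime ∧ q ≠ 2 := fun q hq => hP q (Finset.mem_insert_of_mem hq)
    have hpr : N = p * pr P := by
      rw [hN]
      unfold Pool.Agent.Z700.pr
      rw [Finset.prod_insert hp]
    have hm0 : pr P ≠ 0 := by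
      unfold Pool.Agent.Z700.pr
      exact Finset.prod_ne_zero_iff.2 fun q hq => (hP' q hq).1.ne_zero
    have hcop : Nat.Coprime p (pr P) := by
      unfold Pool.Agent.Z700.pr
      refine Nat.Coprime.prod_right fun q hq => ?_
      refine (Nat.coprime_primes hpp (hP' q hq).1).2 ?_
      rintro rfl
      exact hp hq
    subst hpr
    have : NeZero p := ⟨hpp.ne_zero⟩
    have : NeZero (pr P) := ⟨hm0⟩
    have : Fact p.Prime := ⟨hpp⟩
    obtain ⟨κ1, hκ1⟩ := h2 p hpp hp2 (ph p) (ph_spec h1 hpp hp2) 1 one_ne_zero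
    obtain ⟨κ2, hκ2⟩ := ih hP' (pr P) rfl
    refine ⟨(lz p ((pr P : ℕ) : ZMod p) : ℂ) * (∏ q ∈ P, lz q ((p : ℤ) : ZMod q) : ℤ) * κ1 * κ2,
      fun w => ?_⟩
    have e1 := crt3' p (pr P) hcop (fun v => (Ph (insert p P) v : ℂ) *
      e (p * pr P) (∑ i, v i * w i)) (by
        intro v v' hvv
        have a1 : Ph (insert p P) v = Ph (insert p P) v' := Ph_congr (by rw [← hN]; exact hvv)
        have a2 : e (p * pr P) (∑ i, v i * w i) = e (p * pr P) (∑ i, v' i * w i) := by
          refine e_period (NeZero.ne _) ?_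
          rw [← Finset.sum_sub_distrib]
          refine Finset.dvd_sum fun i _ => ?_
          rw [← sub_mul]
          exact (hvv i).mul_right _
        simp only [a1, a2])
    rw [e1]
    have e2 : ∀ (x : Fin 3 → ZMod p) (y : Fin 3 → ZMod (pr P)),
        (Ph (insert p P) (fun i => ((pr P : ℕ) : ℤ) * ((x i).val : ℤ) +
          (p : ℤ) * ((y i).val : ℤ)) : ℂ) *
        e (p * pr P) (∑ i, (((pr P : ℕ) : ℤ) * ((x i).val : ℤ) + (p : ℤ) * ((y i).val : ℤ)) * w i) =
        ((lz p ((pr P : ℕ) : ZMod p) : ℂ) * ((ph p x : ℂ) *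
          Complex.exp (2 * Real.pi * Complex.I * (((1 : ZMod p) * (x ⬝ᵥ rd p w)).val : ℂ) / p))) *
        (((∏ q ∈ P, lz q ((p : ℤ) : ZMod q) : ℤ) : ℂ) * ((Ph P (fun i => ((y i).val : ℤ)) : ℂ) *
          e (pr P) (∑ i, ((y i).val : ℤ) * w i))) := by
      intro x y
      have b1 : Ph (insert p P) (fun i => ((pr P : ℕ) : ℤ) * ((x i).val : ℤ) +
          (p : ℤ) * ((y i).val : ℤ)) = (lz p ((pr P : ℕ) : ZMod p) * ph p x) *
          ((∏ q ∈ P, lz q ((p : ℤ) : ZMod q)) * Ph P (fun i => ((y i).val : ℤ))) := by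
        have c0 : Ph (insert p P) (fun i => ((pr P : ℕ) : ℤ) * ((x i).val : ℤ) +
          (p : ℤ) * ((y i).val : ℤ)) = ph p (rd p (fun i => ((pr P : ℕ) : ℤ) * ((x i).val : ℤ) +
          (p : ℤ) * ((y i).val : ℤ))) * Ph P (fun i => ((pr P : ℕ) : ℤ) * ((x i).val : ℤ) +
          (p : ℤ) * ((y i).val : ℤ)) := by
          unfold Ph
          rw [Finset.prod_insert hp]
        rw [c0]
        congr 1
        · have c1 : rd p (fun i => ((pr P : ℕ) : ℤ) * ((x i).val : ℤ) +
              (p : ℤ) * ((y i).val : ℤ)) = ((pr P : ℕ) : ZMod p) • x := by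
            funext i
            simp [rd]
          rw [c1, (ph_spec h1 hpp hp2).smul]
          rw [Ne, ZMod.natCast_eq_zero_iff]
          intro hd
          exact hpp.one_lt.ne' (Nat.Coprime.eq_one_of_dvd hcop hd)
        · rw [← Ph_smul h1 hP' (p : ℤ)]
          · refine Ph_congr fun i => ?_
            exact ⟨((x i).val : ℤ), by ring⟩
          · intro q hq
            have hqp := (hP' q hq).1
            intro h0
            rw [Int.cast_natCast, ZMod.natCast_eq_zero_iff] at h0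
            have : q = p := (Nat.prime_dvd_prime_iff_eq hqp hpp).1 h0
            subst this
            exact hp hq
      have b2 : e (p * pr P) (∑ i, (((pr P : ℕ) : ℤ) * ((x i).val : ℤ) +
          (p : ℤ) * ((y i).val : ℤ)) * w i) =
          Complex.exp (2 * Real.pi * Complex.I * (((1 : ZMod p) * (x ⬝ᵥ rd p w)).val : ℂ) / p) *
          e (pr P) (∑ i, ((y i).val : ℤ) * w i) := by
        have c1 : (∑ i, (((pr P : ℕ) : ℤ) * ((x i).val : ℤ) + (p : ℤ) * ((y i).val : ℤ)) * w i) =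
            ((pr P : ℕ) : ℤ) * (∑ i, ((x i).val : ℤ) * w i) +
              (p : ℤ) * (∑ i, ((y i).val : ℤ) * w i) := by
          rw [Finset.mul_sum, Finset.mul_sum, ← Finset.sum_add_distrib]
          refine Finset.sum_congr rfl fun i _ => ?_
          ring
        rw [c1, e_add, e_scale hpp.ne_zero]
        congr 1
        rw [mul_comm p (pr P), e_scale hm0, one_mul]
        have c2 : Complex.exp (2 * Real.pi * Complex.I * ((x ⬝ᵥ rd p w).val : ℂ) / p) =
            e p ((x ⬝ᵥ rd p w).val : ℤ) := by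
          unfold e
          push_cast
          rfl
        rw [c2]
        refine e_period hpp.ne_zero ?_
        rw [← ZMod.intCast_zmod_eq_zero_iff_dvd]
        push_cast
        rw [sub_eq_zero]
        simp only [ZMod.natCast_val, ZMod.cast_id', id_eq, dotProduct, rd]
      rw [b1, b2]
      push_cast
      ring
    simp only [e2]
    rw [← Finset.sum_mul_sum]
    rw [← Finset.mul_sum, ← Finset.mul_sum, hκ2 w]
    rw [hκ1 (rd p w)]
    have e3 : (Ph (insert p P) w : ℂ) = (ph p (rd p w) : ℂ) * (Ph P w : ℂ) := by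
      unfold Ph
      rw [Finset.prod_insert hp]
      push_cast
      rfl
    rw [e3]
    ring

theorem exp_val (N : ℕ) [NeZero N] (a : Fin 3 → ZMod N) (w : V3) :
    Complex.exp (2 * Real.pi * Complex.I *
      (((a ⬝ᵥ fun i => (w i : ZMod N)).val : ℕ) : ℂ) / N) = e N (∑ i, ((a i).val : ℤ) * w i) := by
  have c2 : Complex.exp (2 * Real.pi * Complex.I *
      (((a ⬝ᵥ fun i => (w i : ZMod N)).val : ℕ) : ℂ) / N) =
      e N (((a ⬝ᵥ fun i => (w i : ZMod N)).val : ℕ) : ℤ) := by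
    unfold e
    push_cast
    rfl
  rw [c2]
  refine e_period (NeZero.ne N) ?_
  rw [← ZMod.intCast_zmod_eq_zero_iff_dvd]
  push_cast
  rw [sub_eq_zero]
  simp only [ZMod.natCast_val, ZMod.cast_id', id_eq, dotProduct]

/-- the Fourier transform modulo `pr P` -/
theorem ft_m (h1 : S_PHI) (h2 : S_FT) (P : Finset ℕ) (hP : ∀ p ∈ P, p.Prime ∧ p ≠ 2)
    [NeZero (pr P)] : ∃ κ : ℂ, ∀ w : V3,
      ∑ a : Fin 3 → ZMod (pr P), (Ph P (fun i => ((a i).val : ℤ)) : ℂ) *
        Complex.exp (2 * Real.pi * Complex.I *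
          (((a ⬝ᵥ fun i => (w i : ZMod (pr P))).val : ℕ) : ℂ) / (pr P : ℕ)) =
        κ * (Ph P w : ℂ) := by
  obtain ⟨κ, hκ⟩ := ft h1 h2 P hP (pr P) rfl
  refine ⟨κ, fun w => ?_⟩
  rw [← hκ w]
  refine Finset.sum_congr rfl fun a _ => ?_
  rw [exp_val]

/-- the sign of the parity of the sum of the coordinates -/
def sg (v : V3) : ℤ := if (v 0 + v 1 + v 2) % 2 = 0 then 1 else -1

/-- the indicator of the vectors with odd coordinates -/
def od (v : V3) : ℤ := if v 0 % 2 = 1 ∧ v 1 % 2 = 1 ∧ v 2 % 2 = 1 then 1 else 0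

theorem e_two (k : ℤ) : e 2 k = ((if k % 2 = 0 then 1 else -1 : ℤ) : ℂ) := by
  split_ifs with h
  · have : e 2 k = e 2 0 := e_period (by norm_num) (by rw [sub_zero]; exact Int.dvd_of_emod_eq_zero h)
    rw [this]
    simp [e]
  · have : e 2 k = e 2 1 := e_period (by norm_num) (by push_cast; omega)
    rw [this]
    unfold e
    have h1 : 2 * (Real.pi : ℂ) * Complex.I * ((1 : ℤ) : ℂ) / ((2 : ℕ) : ℂ) = Real.pi * Complex.I := by
      push_cast
      ring
    rw [h1, Complex.exp_pi_mul_I]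
    push_cast
    rfl

theorem sum_two (w : V3) : ∑ x : Fin 3 → ZMod 2, (sg (fun i => ((x i).val : ℤ)) : ℂ) *
    e 2 (∑ i, ((x i).val : ℤ) * w i) = 8 * (od w : ℂ) := by
  have key : ∀ c : Fin 3 → ZMod 2, ∑ x : Fin 3 → ZMod 2, (sg (fun i => ((x i).val : ℤ))) *
      (if (∑ i, ((x i).val : ℤ) * ((c i).val : ℤ)) % 2 = 0 then 1 else -1 : ℤ) =
      8 * od (fun i => ((c i).val : ℤ)) := by
    decide +kernel
  have k1 := key (fun i => (w i : ZMod 2))
  have k2 : od (fun i => ((((w i : ZMod 2)).val : ℕ) : ℤ)) = od w := by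
    unfold od
    have : ∀ k : ℤ, ((((k : ZMod 2)).val : ℕ) : ℤ) = k % 2 := fun k => by
      rw [ZMod.val_intCast]
      rfl
    simp only [this]
    have h2 : ∀ k : ℤ, k % 2 % 2 = k % 2 := fun k => by omega
    simp only [h2]
  rw [k2] at k1
  rw [show (8 : ℂ) * (od w : ℂ) = ((8 * od w : ℤ) : ℂ) by push_cast; ring, ← k1]
  push_cast
  refine Finset.sum_congr rfl fun x _ => ?_
  congr 1
  have k3 : e 2 (∑ i, ((x i).val : ℤ) * w i) =
      e 2 (∑ i, ((x i).val : ℤ) * ((((w i : ZMod 2)).val : ℕ) : ℤ)) := by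
    refine e_period (by norm_num) ?_
    rw [← Finset.sum_sub_distrib]
    refine Finset.dvd_sum fun i _ => ?_
    rw [← mul_sub]
    refine Dvd.dvd.mul_left ?_ _
    rw [ZMod.val_intCast]
    push_cast
    omega
  rw [k3, e_two]
  push_cast
  rfl

theorem sg_congr {v w : V3} (h : ∀ i, (2 : ℤ) ∣ v i - w i) : sg v = sg w := by
  unfold sg
  have h0 := h 0
  have h1 := h 1
  have h2 := h 2
  have : (v 0 + v 1 + v 2) % 2 = (w 0 + w 1 + w 2) % 2 := by omega
  rw [this]

/-- the Fourier transform modulo `2 pr P` -/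
theorem ft_2m (h1 : S_PHI) (h2 : S_FT) (P : Finset ℕ) (hP : ∀ p ∈ P, p.Prime ∧ p ≠ 2)
    [NeZero (2 * pr P)] : ∃ κ : ℂ, ∀ w : V3,
      ∑ a : Fin 3 → ZMod (2 * pr P), ((sg (fun i => ((a i).val : ℤ)) *
        Ph P (fun i => ((a i).val : ℤ)) : ℤ) : ℂ) *
        Complex.exp (2 * Real.pi * Complex.I *
          (((a ⬝ᵥ fun i => (w i : ZMod (2 * pr P))).val : ℕ) : ℂ) / (2 * pr P : ℕ)) =
        κ * ((od w * Ph P w : ℤ) : ℂ) := by
  have hm0 : pr P ≠ 0 := by
    unfold Pool.Agent.Z700.pr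
    exact Finset.prod_ne_zero_iff.2 fun q hq => (hP q hq).1.ne_zero
  have : NeZero (pr P) := ⟨hm0⟩
  have hcop : Nat.Coprime 2 (pr P) := by
    unfold Pool.Agent.Z700.pr
    refine Nat.Coprime.prod_right fun q hq => ?_
    exact (Nat.coprime_primes Nat.prime_two (hP q hq).1).2 (hP q hq).2.symm
  have hodd : (pr P : ℤ) % 2 = 1 := by
    have : pr P % 2 = 1 := Nat.odd_iff.1 (Nat.coprime_two_left.1 hcop)
    omega
  obtain ⟨κ, hκ⟩ := ft h1 h2 P hP (pr P) rfl
  refine ⟨8 * κ * ((∏ q ∈ P, lz q ((2 : ℤ) : ZMod q) : ℤ) : ℂ), fun w => ?_⟩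
  simp only [exp_val]
  have e1 := crt3' 2 (pr P) hcop (fun v => ((sg v * Ph P v : ℤ) : ℂ) *
      e (2 * pr P) (∑ i, v i * w i)) (by
        intro v v' hvv
        have a1 : Ph P v = Ph P v' := Ph_congr fun i =>
          (Int.natCast_dvd_natCast.2 (dvd_mul_left (pr P) 2)).trans (hvv i)
        have a3 : sg v = sg v' := sg_congr fun i => by
          have := (Int.natCast_dvd_natCast.2 (dvd_mul_right 2 (pr P))).trans (hvv i)
          exact_mod_cast this
        have a2 : e (2 * pr P) (∑ i, v i * w i) = e (2 * pr P) (∑ i, v' i * w i) := by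
          refine e_period (NeZero.ne _) ?_
          rw [← Finset.sum_sub_distrib]
          refine Finset.dvd_sum fun i _ => ?_
          rw [← sub_mul]
          exact (hvv i).mul_right _
        simp only [a1, a2, a3])
  rw [e1]
  have e2 : ∀ (x : Fin 3 → ZMod 2) (y : Fin 3 → ZMod (pr P)),
      ((sg (fun i => ((pr P : ℕ) : ℤ) * ((x i).val : ℤ) + ((2 : ℕ) : ℤ) * ((y i).val : ℤ)) *
        Ph P (fun i => ((pr P : ℕ) : ℤ) * ((x i).val : ℤ) +
          ((2 : ℕ) : ℤ) * ((y i).val : ℤ)) : ℤ) : ℂ) *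
      e (2 * pr P) (∑ i, (((pr P : ℕ) : ℤ) * ((x i).val : ℤ) +
        ((2 : ℕ) : ℤ) * ((y i).val : ℤ)) * w i) =
      ((sg (fun i => ((x i).val : ℤ)) : ℂ) * e 2 (∑ i, ((x i).val : ℤ) * w i)) *
      (((∏ q ∈ P, lz q ((2 : ℤ) : ZMod q) : ℤ) : ℂ) * ((Ph P (fun i => ((y i).val : ℤ)) : ℂ) *
        e (pr P) (∑ i, ((y i).val : ℤ) * w i))) := by
    intro x y
    have b0 : sg (fun i => ((pr P : ℕ) : ℤ) * ((x i).val : ℤ) + ((2 : ℕ) : ℤ) * ((y i).val : ℤ)) =
        sg (fun i => ((x i).val : ℤ)) := by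
      refine sg_congr fun i => ?_
      obtain ⟨c, hc⟩ : ∃ c : ℤ, ((pr P : ℕ) : ℤ) = 2 * c + 1 := ⟨((pr P : ℕ) : ℤ) / 2, by omega⟩
      refine ⟨c * ((x i).val : ℤ) + ((y i).val : ℤ), ?_⟩
      rw [hc]
      push_cast
      ring
    have b1 : Ph P (fun i => ((pr P : ℕ) : ℤ) * ((x i).val : ℤ) +
        ((2 : ℕ) : ℤ) * ((y i).val : ℤ)) =
        (∏ q ∈ P, lz q ((2 : ℤ) : ZMod q)) * Ph P (fun i => ((y i).val : ℤ)) := by
      rw [← Ph_smul h1 hP (2 : ℤ)]
      · refine Ph_congr fun i => ?_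
        exact ⟨((x i).val : ℤ), by push_cast; ring⟩
      · intro q hq h0
        have hqp := (hP q hq).1
        have h0' : ((2 : ℕ) : ZMod q) = 0 := by exact_mod_cast h0
        rw [ZMod.natCast_eq_zero_iff] at h0'
        exact (hP q hq).2 ((Nat.prime_dvd_prime_iff_eq hqp Nat.prime_two).1 h0')
    have b2 : e (2 * pr P) (∑ i, (((pr P : ℕ) : ℤ) * ((x i).val : ℤ) +
        ((2 : ℕ) : ℤ) * ((y i).val : ℤ)) * w i) =
        e 2 (∑ i, ((x i).val : ℤ) * w i) * e (pr P) (∑ i, ((y i).val : ℤ) * w i) := by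
      have c1 : (∑ i, (((pr P : ℕ) : ℤ) * ((x i).val : ℤ) + ((2 : ℕ) : ℤ) * ((y i).val : ℤ)) * w i) =
          ((pr P : ℕ) : ℤ) * (∑ i, ((x i).val : ℤ) * w i) +
            ((2 : ℕ) : ℤ) * (∑ i, ((y i).val : ℤ) * w i) := by
        rw [Finset.mul_sum, Finset.mul_sum, ← Finset.sum_add_distrib]
        refine Finset.sum_congr rfl fun i _ => ?_
        ring
      rw [c1, e_add, e_scale two_ne_zero]
      congr 1
      rw [mul_comm 2 (pr P), e_scale hm0]
    rw [b0, b1, b2]
    push_cast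
    ring
  simp only [e2]
  rw [← Finset.sum_mul_sum]
  rw [← Finset.mul_sum, hκ w, sum_two]
  push_cast
  ring

end

end Pool.Agent.NH1.VF
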