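import Pool.Agent.NH1.V4a

/-!
# Project NH1, V4: theta series of `ℤ³` grouped by the norm
-/

set_option autoImplicit false

namespace Pool.Agent.NH1.VF

open Finset Matrix
open Pool.Agent.Z700 (V3 vec pr)

noncomputable section

theorem dot3 (v w : V3) : v ⬝ᵥ w = v 0 * w 0 + v 1 * w 1 + v 2 * w 2 := by
  simp [dotProduct, Fin.sum_univ_three]

theorem dot_nonneg (v : V3) : 0 ≤ v ⬝ᵥ v := by
  rw [dot3]
  nlinarith [mul_self_nonneg (v 0), mul_self_nonneg (v 1), mul_self_nonneg (v 2)]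

theorem mem_vec (n : ℤ) (v : V3) : v ∈ vec n ↔ v ⬝ᵥ v = n := by
  unfold Pool.Agent.Z700.vec
  rw [mem_filter, Fintype.mem_piFinset]
  constructor
  · exact fun h => h.2
  · intro h
    refine ⟨fun i => ?_, h⟩
    have h0 := dot3 v v
    rw [h] at h0
    rw [mem_Icc]
    have key : ∀ x : ℤ, x ≤ x * x ∧ -x ≤ x * x := by
      intro x
      rcases le_or_gt x 0 with hx | hx
      · constructor
        · nlinarith
        · rcases eq_or_lt_of_le hx with h | h
          · rw [h]; norm_num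
          · nlinarith
      · constructor <;> nlinarith
    have k := mul_self_nonneg (v 0)
    have k' := mul_self_nonneg (v 1)
    have k'' := mul_self_nonneg (v 2)
    fin_cases i
    · have := key (v 0); constructor <;> simp <;> linarith
    · have := key (v 1); constructor <;> simp <;> linarith
    · have := key (v 2); constructor <;> simp <;> linarith

theorem card_vec_le (n : ℕ) : ((vec (n : ℤ)).card : ℝ) ≤ (2 * (n : ℝ) + 1) ^ 3 := by
  have h1 : (vec (n : ℤ)).card ≤ (Fintype.piFinset fun _ : Fin 3 => Icc (-(n : ℤ)) n).card := by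
    unfold Pool.Agent.Z700.vec
    exact Finset.card_filter_le _ _
  have h2 : (Fintype.piFinset fun _ : Fin 3 => Icc (-(n : ℤ)) n).card = (2 * n + 1) ^ 3 := by
    rw [Fintype.card_piFinset]
    simp only [Int.card_Icc, Finset.prod_const, Finset.card_univ, Fintype.card_fin]
    congr 1
    omega
  rw [h2] at h1
  exact_mod_cast h1

/-- the coordinates -/
def eq3 : V3 ≃ ℤ × ℤ × ℤ where
  toFun v := (v 0, v 1, v 2)
  invFun t := ![t.1, t.2.1, t.2.2]
  left_inv v := by
    funext i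
    fin_cases i <;> rfl
  right_inv t := rfl

theorem summ1 (c : ℝ) (hc : 0 < c) : Summable fun n : ℤ => Real.exp (-c * (n : ℝ) ^ 2) := by
  have hτ : 0 < (Complex.I * ((c / Real.pi : ℝ) : ℂ)).im := by
    rw [Complex.I_mul_im, Complex.ofReal_re]
    exact div_pos hc Real.pi_pos
  have h := (hasSum_jacobiTheta₂_term 0 hτ).summable.norm
  refine h.congr fun n => ?_
  rw [norm_jacobiTheta₂_term, Complex.I_mul_im, Complex.ofReal_re]
  congr 1
  have := Real.pi_ne_zero
  simp only [Complex.zero_im]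
  field_simp
  ring

theorem summ3 (c : ℝ) (hc : 0 < c) :
    Summable fun v : V3 => Real.exp (-c * ((v ⬝ᵥ v : ℤ) : ℝ)) := by
  have h1 := summ1 c hc
  have h2 := h1.mul_of_nonneg h1 (fun _ => (Real.exp_pos _).le) (fun _ => (Real.exp_pos _).le)
  have h3 := h1.mul_of_nonneg h2 (fun _ => (Real.exp_pos _).le)
    (fun _ => (mul_pos (Real.exp_pos _) (Real.exp_pos _)).le)
  rw [← eq3.summable_iff] at h3
  refine h3.congr fun v => ?_
  show Real.exp (-c * ((v 0 : ℤ) : ℝ) ^ 2) * (Real.exp (-c * ((v 1 : ℤ) : ℝ) ^ 2) *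
    Real.exp (-c * ((v 2 : ℤ) : ℝ) ^ 2)) = _
  rw [← Real.exp_add, ← Real.exp_add, dot3]
  congr 1
  push_cast
  ring

theorem norm_term (v : V3) (z : ℂ) (M : ℕ) : ‖Complex.exp (Real.pi * Complex.I *
    ((v ⬝ᵥ v : ℤ) : ℂ) * z / M)‖ = Real.exp (-(Real.pi * z.im / M) * ((v ⬝ᵥ v : ℤ) : ℝ)) := by
  rw [Complex.norm_exp]
  congr 1
  have : (Real.pi * Complex.I * ((v ⬝ᵥ v : ℤ) : ℂ) * z / M) =
      ((Real.pi * ((v ⬝ᵥ v : ℤ) : ℝ) / M : ℝ) : ℂ) * (z * Complex.I) := by
    push_cast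
    ring
  rw [this, Complex.re_ofReal_mul, Complex.mul_I_re]
  ring

/-- the theta series as a series in the norm -/
theorem regroup (Q : V3 → ℤ) (M : ℕ) (hM : 0 < M) (hb : ∀ v, |Q v| ≤ 1)
    (hd : ∀ v, Q v ≠ 0 → (M : ℤ) ∣ v ⬝ᵥ v) (z : ℂ) (hz : 0 < z.im) :
    ∑' v : V3, (Q v : ℂ) * Complex.exp (Real.pi * Complex.I * ((v ⬝ᵥ v : ℤ) : ℂ) * z / M) =
    ∑' n : ℕ, ((∑ v ∈ vec ((M * n : ℕ) : ℤ), Q v : ℤ) : ℂ) *
      Complex.exp (Real.pi * Complex.I * (n : ℂ) * z) := by
  classical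
  have hM' : (M : ℂ) ≠ 0 := by exact_mod_cast hM.ne'
  have hs : Summable fun v : V3 => (Q v : ℂ) *
      Complex.exp (Real.pi * Complex.I * ((v ⬝ᵥ v : ℤ) : ℂ) * z / M) := by
    have hc : 0 < Real.pi * z.im / M := by
      have : (0 : ℝ) < M := by exact_mod_cast hM
      have := Real.pi_pos
      positivity
    refine Summable.of_norm_bounded (summ3 _ hc) fun v => ?_
    rw [norm_mul, norm_term]
    have h1 : ‖(Q v : ℂ)‖ ≤ 1 := by
      rw [Complex.norm_intCast]
      exact_mod_cast hb v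
    have h2 := (Real.exp_pos (-(Real.pi * z.im / M) * ((v ⬝ᵥ v : ℤ) : ℝ))).le
    nlinarith
  have hf := hs.hasSum.tsum_fiberwise (fun v : V3 => (v ⬝ᵥ v / (M : ℤ)).toNat)
  rw [← hf.tsum_eq]
  refine tsum_congr fun n => ?_
  rw [tsum_subtype ((fun v : V3 => (v ⬝ᵥ v / (M : ℤ)).toNat) ⁻¹' {n})
    (fun v : V3 => (Q v : ℂ) *
      Complex.exp (Real.pi * Complex.I * ((v ⬝ᵥ v : ℤ) : ℂ) * z / M))]
  rw [tsum_eq_sum (s := vec ((M * n : ℕ) : ℤ))]
  · push_cast
    rw [Finset.sum_mul]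
    refine Finset.sum_congr rfl fun v hv => ?_
    rw [show ((M : ℤ) * (n : ℤ)) = ((M * n : ℕ) : ℤ) by push_cast; rfl, mem_vec] at hv
    rw [Set.indicator_of_mem]
    · rw [hv]
      congr 2
      push_cast
      field_simp
    · rw [Set.mem_preimage, hv]
      push_cast
      rw [Int.mul_ediv_cancel_left _ (by exact_mod_cast hM.ne')]
      simp
  · intro v hv
    by_cases hq : Q v = 0
    · rw [Set.indicator_apply]
      split_ifs
      · rw [hq]; simp
      · rfl
    · rw [Set.indicator_of_notMem]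
      intro hmem
      apply hv
      rw [mem_vec]
      rw [Set.mem_preimage, Set.mem_singleton_iff] at hmem
      obtain ⟨c, hc⟩ := hd v hq
      rw [hc, Int.mul_ediv_cancel_left _ (by exact_mod_cast hM.ne')] at hmem
      have hc0 : 0 ≤ c := by
        have h1 := dot_nonneg v
        rw [hc] at h1
        have h2 : (0 : ℤ) < M := by exact_mod_cast hM
        exact nonneg_of_mul_nonneg_right h1 h2
      rw [hc, ← hmem]
      push_cast
      rw [Int.toNat_of_nonneg hc0]

end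

end Pool.Agent.NH1.VF
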