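import Pool.Agent.NH1.V4b

/-!
# Project NH1, V4: the norm to level one
-/

set_option autoImplicit false

namespace Pool.Agent.NH1.VF

open Finset
open PowerSeries (coeff rescale)

noncomputable section

/-- the value of a power series -/
def ev (A : PowerSeries ℂ) (t : ℂ) : ℂ := ∑' n : ℕ, coeff n A * t ^ n

/-- polynomially bounded coefficients -/
def PB (A : PowerSeries ℂ) : Prop := ∃ C k : ℕ, ∀ n : ℕ, ‖coeff n A‖ ≤ (C : ℝ) * ((n : ℝ) + 1) ^ k

theorem summ_poly (k : ℕ) {r : ℝ} (h0 : 0 ≤ r) (h1 : r < 1) :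
    Summable fun n : ℕ => ((n : ℝ) + 1) ^ k * r ^ n := by
  have hr' : 0 < max r (1 / 2) := lt_max_of_lt_right (by norm_num)
  have hr1 : max r (1 / 2) < 1 := max_lt h1 (by norm_num)
  have h := summable_pow_mul_geometric_of_norm_lt_one (R := ℝ) k
    (r := max r (1 / 2)) (by rw [Real.norm_eq_abs, abs_of_pos hr']; exact hr1)
  have h2 := ((summable_nat_add_iff 1).2 h).mul_left (max r (1 / 2))⁻¹
  refine Summable.of_nonneg_of_le (fun n => by positivity) (fun n => ?_) h2
  have h3 : r ^ n ≤ (max r (1 / 2)) ^ n := pow_le_pow_left₀ h0 (le_max_left _ _) n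
  calc ((n : ℝ) + 1) ^ k * r ^ n ≤ ((n : ℝ) + 1) ^ k * (max r (1 / 2)) ^ n := by gcongr
    _ = (max r (1 / 2))⁻¹ * (((n + 1 : ℕ) : ℝ) ^ k * (max r (1 / 2)) ^ (n + 1)) := by
        rw [pow_succ]
        push_cast
        field_simp

theorem PB.summable {A : PowerSeries ℂ} (h : PB A) {t : ℂ} (ht : ‖t‖ < 1) :
    Summable fun n : ℕ => ‖coeff n A * t ^ n‖ := by
  obtain ⟨C, k, hC⟩ := h
  refine Summable.of_nonneg_of_le (fun n => norm_nonneg _) (fun n => ?_)
    ((summ_poly k (norm_nonneg t) ht).mul_left (C : ℝ))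
  rw [norm_mul, norm_pow, ← mul_assoc]
  exact mul_le_mul_of_nonneg_right (hC n) (by positivity)

theorem PB.mul {A B : PowerSeries ℂ} (hA : PB A) (hB : PB B) : PB (A * B) := by
  obtain ⟨C, k, hC⟩ := hA
  obtain ⟨D, l, hD⟩ := hB
  refine ⟨C * D, k + l + 1, fun n => ?_⟩
  rw [PowerSeries.coeff_mul]
  refine (norm_sum_le _ _).trans ?_
  have h : ∀ q ∈ antidiagonal n, ‖coeff q.1 A * coeff q.2 B‖ ≤
      (C : ℝ) * D * ((n : ℝ) + 1) ^ (k + l) := by
    intro q hq
    rw [Finset.HasAntidiagonal.mem_antidiagonal] at hq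
    have h1 : (q.1 : ℝ) ≤ n := by exact_mod_cast (by omega : q.1 ≤ n)
    have h2 : (q.2 : ℝ) ≤ n := by exact_mod_cast (by omega : q.2 ≤ n)
    rw [norm_mul]
    calc ‖coeff q.1 A‖ * ‖coeff q.2 B‖ ≤ ((C : ℝ) * ((q.1 : ℝ) + 1) ^ k) *
          ((D : ℝ) * ((q.2 : ℝ) + 1) ^ l) := mul_le_mul (hC _) (hD _) (norm_nonneg _) (by positivity)
      _ ≤ ((C : ℝ) * ((n : ℝ) + 1) ^ k) * ((D : ℝ) * ((n : ℝ) + 1) ^ l) := by gcongr
      _ = _ := by ring
  refine (Finset.sum_le_sum h).trans ?_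
  rw [Finset.sum_const, Finset.Nat.card_antidiagonal, nsmul_eq_mul]
  push_cast
  apply le_of_eq
  ring

theorem ev_mul {A B : PowerSeries ℂ} (hA : PB A) (hB : PB B) {t : ℂ} (ht : ‖t‖ < 1) :
    ev (A * B) t = ev A t * ev B t := by
  unfold ev
  rw [tsum_mul_tsum_eq_tsum_sum_antidiagonal_of_summable_norm (hA.summable ht) (hB.summable ht)]
  refine tsum_congr fun n => ?_
  rw [PowerSeries.coeff_mul, Finset.sum_mul]
  refine Finset.sum_congr rfl fun q hq => ?_
  rw [Finset.HasAntidiagonal.mem_antidiagonal] at hq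
  rw [← hq, pow_add]
  ring

theorem PB.one : PB 1 := by
  refine ⟨1, 0, fun n => ?_⟩
  rw [PowerSeries.coeff_one]
  split_ifs <;> simp

theorem PB.pow {A : PowerSeries ℂ} (hA : PB A) (j : ℕ) : PB (A ^ j) := by
  induction j with
  | zero => rw [pow_zero]; exact PB.one
  | succ j ih => rw [pow_succ]; exact ih.mul hA

theorem ev_one (t : ℂ) : ev 1 t = 1 := by
  unfold ev
  rw [tsum_eq_single 0]
  · simp
  · intro n hn
    rw [PowerSeries.coeff_one, if_neg hn, zero_mul]

theorem ev_pow {A : PowerSeries ℂ} (hA : PB A) {t : ℂ} (ht : ‖t‖ < 1) (j : ℕ) :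
    ev (A ^ j) t = ev A t ^ j := by
  induction j with
  | zero => rw [pow_zero, pow_zero, ev_one]
  | succ j ih => rw [pow_succ, pow_succ, ev_mul (hA.pow j) hA ht, ih]

theorem tsum_dvd (d : ℕ) (hd : 0 < d) (g : ℕ → ℂ) (hg : ∀ k, ¬ d ∣ k → g k = 0) :
    ∑' k, g k = ∑' n, g (d * n) := by
  have hinj : Function.Injective fun n : ℕ => d * n := fun a b h => Nat.eq_of_mul_eq_mul_left hd h
  refine (hinj.tsum_eq ?_).symm
  intro k hk
  rw [Function.mem_support] at hk
  by_contra h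
  apply hk
  apply hg
  intro hdk
  obtain ⟨c, hc⟩ := hdk
  exact h ⟨c, hc.symm⟩

/-- the series in the fourth power of the variable -/
def X4 (f : ℕ → ℂ) : PowerSeries ℂ := PowerSeries.mk fun k => if 4 ∣ k then f (k / 4) else 0

theorem ev_X4 (f : ℕ → ℂ) (t : ℂ) : ev (X4 f) t = ∑' n : ℕ, f n * (t ^ 4) ^ n := by
  unfold ev X4
  rw [tsum_dvd 4 (by norm_num)]
  · refine tsum_congr fun n => ?_
    rw [PowerSeries.coeff_mk, if_pos (dvd_mul_right 4 n), Nat.mul_div_cancel_left n (by norm_num),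
      pow_mul]
  · intro k hk
    rw [PowerSeries.coeff_mk, if_neg hk, zero_mul]

theorem PB_X4 {f : ℕ → ℂ} (h : ∃ C k : ℕ, ∀ n : ℕ, ‖f n‖ ≤ (C : ℝ) * ((n : ℝ) + 1) ^ k) :
    PB (X4 f) := by
  obtain ⟨C, k, hC⟩ := h
  refine ⟨C, k, fun n => ?_⟩
  unfold X4
  rw [PowerSeries.coeff_mk]
  split_ifs with h
  · refine (hC _).trans ?_
    have : ((n / 4 : ℕ) : ℝ) ≤ n := by exact_mod_cast Nat.div_le_self n 4
    gcongr
  · rw [norm_zero]
    positivity

/-- the eighth root of unity -/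
def ze : ℂ := Complex.exp (2 * Real.pi * Complex.I / 8)

theorem ze_prim : IsPrimitiveRoot ze 8 := Complex.isPrimitiveRoot_exp 8 (by norm_num)

theorem ze4 : ze ^ 4 = -1 := by
  unfold ze
  rw [← Complex.exp_nat_mul, ← Complex.exp_pi_mul_I]
  congr 1
  push_cast
  ring

theorem ze_mod (k r : ℕ) (h : k % 8 = r) : ze ^ k = ze ^ r := by
  conv_lhs => rw [← Nat.div_add_mod k 8]
  rw [pow_add, pow_mul, ze_prim.pow_eq_one, one_pow, one_mul, h]

theorem rescale_X4 (f : ℕ → ℂ) : rescale ze (X4 f) = X4 fun n => (-1) ^ n * f n := by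
  ext k
  rw [PowerSeries.coeff_rescale]
  unfold X4
  rw [PowerSeries.coeff_mk, PowerSeries.coeff_mk]
  split_ifs with h
  · obtain ⟨c, hc⟩ := h
    subst hc
    rw [Nat.mul_div_cancel_left c (by norm_num), pow_mul, ze4]
  · rw [mul_zero]

/-- the exponential of a point of the upper half plane -/
theorem norm_exp_lt {z : ℂ} (hz : 0 < z.im) : ‖Complex.exp (2 * Real.pi * Complex.I * z / 8)‖ < 1 := by
  rw [Complex.norm_exp]
  have : 2 * Real.pi * Complex.I * z / 8 = ((2 * Real.pi / 8 : ℝ) : ℂ) * (z * Complex.I) := by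
    push_cast
    ring
  rw [this, Complex.re_ofReal_mul, Complex.mul_I_re]
  apply Real.exp_lt_one_iff.2
  have := Real.pi_pos
  nlinarith

/-- the level one argument: vanishing of a product -/
theorem lv_prod (LV : S_LV1) (A2 : PowerSeries ℂ) (f : ℕ → ℂ) (r : ℕ)
    (h2 : PB A2) (h3 : PB (X4 f)) (h4 : PB (X4 fun n => (-1) ^ n * f n))
    (hr : ∀ k, coeff k A2 ≠ 0 → k % 8 = r) (hA0 : coeff 0 A2 = 0) (hf0 : f 0 = 0)
    (ht : ∀ z : ℂ, 0 < z.im →
      (ev A2 (Complex.exp (2 * Real.pi * Complex.I * (-1 / z) / 8)) *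
        ev (X4 f) (Complex.exp (2 * Real.pi * Complex.I * (-1 / z) / 8)) *
        ev (X4 fun n => (-1) ^ n * f n)
          (Complex.exp (2 * Real.pi * Complex.I * (-1 / z) / 8))) ^ 16 =
      z ^ 72 * (ev A2 (Complex.exp (2 * Real.pi * Complex.I * z / 8)) *
        ev (X4 f) (Complex.exp (2 * Real.pi * Complex.I * z / 8)) *
        ev (X4 fun n => (-1) ^ n * f n)
          (Complex.exp (2 * Real.pi * Complex.I * z / 8))) ^ 16) :
    A2 = 0 ∨ X4 f = 0 ∨ (X4 fun n => (-1) ^ n * f n) = 0 := by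
  set A3 := X4 f with hA3
  set A4 := X4 fun n => (-1) ^ n * f n with hA4
  have hB : PB (A2 * A3 * A4) := (h2.mul h3).mul h4
  have e1 : ∀ z : ℂ, 0 < z.im → ev ((A2 * A3 * A4) ^ 16)
      (Complex.exp (2 * Real.pi * Complex.I * z / 8)) =
      (ev A2 (Complex.exp (2 * Real.pi * Complex.I * z / 8)) *
        ev A3 (Complex.exp (2 * Real.pi * Complex.I * z / 8)) *
        ev A4 (Complex.exp (2 * Real.pi * Complex.I * z / 8))) ^ 16 := by
    intro z hz
    have hn := norm_exp_lt hz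
    rw [ev_pow hB hn, ev_mul (h2.mul h3) h4 hn, ev_mul h2 h3 hn]
  have hresc : rescale ze ((A2 * A3 * A4) ^ 16) = (A2 * A3 * A4) ^ 16 := by
    have r2 : rescale ze A2 = PowerSeries.C (ze ^ r) * A2 := by
      ext k
      rw [PowerSeries.coeff_rescale, PowerSeries.coeff_C_mul]
      by_cases h : coeff k A2 = 0
      · rw [h, mul_zero, mul_zero]
      · rw [ze_mod k r (hr k h)]
    have r3 : rescale ze A3 = A4 := rescale_X4 f
    have r4 : rescale ze A4 = A3 := by
      rw [hA4, rescale_X4, hA3]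
      congr 1
      funext n
      rw [← mul_assoc, ← mul_pow]
      norm_num
    rw [map_pow, map_mul, map_mul, r2, r3, r4]
    have : (PowerSeries.C (ze ^ r)) ^ 16 = (1 : PowerSeries ℂ) := by
      rw [← map_pow, ← pow_mul, mul_comm r 16, pow_mul, show (16 : ℕ) = 8 * 2 by norm_num, pow_mul,
        ze_prim.pow_eq_one, one_pow, one_pow, map_one]
    calc (PowerSeries.C (ze ^ r) * A2 * A4 * A3) ^ 16 =
        (PowerSeries.C (ze ^ r)) ^ 16 * (A2 * A3 * A4) ^ 16 := by ring
      _ = _ := by rw [this, one_mul]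
  have hsupp : ∀ k, ¬ 8 ∣ k → coeff k ((A2 * A3 * A4) ^ 16) = 0 := by
    intro k hk
    have h := congrArg (coeff k) hresc
    rw [PowerSeries.coeff_rescale] at h
    have hne : ze ^ k ≠ 1 := fun h1 => hk ((ze_prim.pow_eq_one_iff_dvd k).1 h1)
    have h5 : (ze ^ k - 1) * coeff k ((A2 * A3 * A4) ^ 16) = 0 := by
      rw [sub_mul, h, one_mul, sub_self]
    rcases mul_eq_zero.1 h5 with h6 | h6
    · exact absurd (sub_eq_zero.1 h6) hne
    · exact h6
  have hX : (PowerSeries.X : PowerSeries ℂ) ^ 144 ∣ (A2 * A3 * A4) ^ 16 := by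
    have d2 : (PowerSeries.X : PowerSeries ℂ) ^ 1 ∣ A2 := by
      rw [PowerSeries.X_pow_dvd_iff]
      intro k hk
      have : k = 0 := by omega
      subst this
      exact hA0
    have dX : ∀ g : ℕ → ℂ, g 0 = 0 → (PowerSeries.X : PowerSeries ℂ) ^ 4 ∣ X4 g := by
      intro g hg
      rw [PowerSeries.X_pow_dvd_iff]
      intro k hk
      unfold X4
      rw [PowerSeries.coeff_mk]
      split_ifs with h
      · have : k = 0 := by
          obtain ⟨c, hc⟩ := h
          omega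
        subst this
        exact hg
      · rfl
    have d3 := dX f hf0
    have d4 := dX (fun n => (-1) ^ n * f n) (by simp [hf0])
    have := mul_dvd_mul (mul_dvd_mul d2 d3) d4
    rw [← pow_add, ← pow_add] at this
    have h16 := pow_dvd_pow_of_dvd this 16
    rw [← pow_mul] at h16
    exact h16
  have hzero : ∀ n, coeff (8 * n) ((A2 * A3 * A4) ^ 16) = 0 := by
    refine LV 72 (fun n => coeff (8 * n) ((A2 * A3 * A4) ^ 16)) (by decide) ?_ ?_ ?_
    · obtain ⟨C, k, hC⟩ := hB.pow 16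
      refine ⟨C * 8 ^ k, k, fun n => (hC _).trans ?_⟩
      push_cast
      have : (8 * (n : ℝ) + 1) ^ k ≤ (8 * ((n : ℝ) + 1)) ^ k := by
        gcongr
        linarith
      calc (C : ℝ) * (8 * (n : ℝ) + 1) ^ k ≤ (C : ℝ) * (8 * ((n : ℝ) + 1)) ^ k := by gcongr
        _ = _ := by rw [mul_pow]; ring
    · intro z hz
      have key : ∀ w : ℂ, ∑' n : ℕ, coeff (8 * n) ((A2 * A3 * A4) ^ 16) *
          Complex.exp (2 * Real.pi * Complex.I * n * w) =
          ev ((A2 * A3 * A4) ^ 16) (Complex.exp (2 * Real.pi * Complex.I * w / 8)) := by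
        intro w
        unfold ev
        symm
        rw [tsum_dvd 8 (by norm_num)]
        · refine tsum_congr fun n => ?_
          rw [← Complex.exp_nat_mul]
          congr 2
          push_cast
          ring
        · intro k hk
          rw [hsupp k hk, zero_mul]
      have hz' : 0 < (-1 / z).im := by
        have hne : z ≠ 0 := by
          rintro rfl
          simp at hz
        rw [neg_div, one_div, Complex.neg_im, Complex.inv_im, neg_div, neg_neg]
        exact div_pos hz (Complex.normSq_pos.2 hne)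
      rw [key, key, e1 _ hz', e1 _ hz]
      exact ht z hz
    · intro n hn
      exact (PowerSeries.X_pow_dvd_iff.1 hX) (8 * n) (by omega)
  have hall : (A2 * A3 * A4) ^ 16 = 0 := by
    ext k
    rw [map_zero]
    by_cases hk : 8 ∣ k
    · obtain ⟨c, hc⟩ := hk
      rw [hc]
      exact hzero c
    · exact hsupp k hk
  have h5 := pow_eq_zero_iff (by norm_num : (16 : ℕ) ≠ 0) |>.1 hall
  rcases mul_eq_zero.1 h5 with h6 | h6
  · rcases mul_eq_zero.1 h6 with h7 | h7
    · exact Or.inl h7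
    · exact Or.inr (Or.inl h7)
  · exact Or.inr (Or.inr h6)

end

end Pool.Agent.NH1.VF
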